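import Pool.Agent.Work.MP_52dd0f_nd.Interface

/-! Block ALL (helper78). -/

set_option autoImplicit false

namespace SCO

namespace ND

universe u

theorem p_ALL (hLIA : Stmt_LIA.{u}) (hLIB : Stmt_LIB.{u}) (hIDN : Stmt_IDN.{u})
    (hDPX : Stmt_DPX.{u}) : Stmt_ALL.{u} := by
  intro Q _ _ _ c hc G hG h1 hoff h hh
  obtain ⟨_, hadd, _, _⟩ := hLIA Q G hG
  obtain ⟨_, hbr⟩ := hLIB Q G hG
  obtain ⟨id1, _, id3⟩ := hIDN Q c hc
  have hdp := hDPX Q c hc G hG h1 hoff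
  have hs : ∀ i j, star (c i j) = c j i := hc.star
  have m00 : c 0 0 * c 0 0 = c 0 0 := by
    have := hc.mul 0 0 0 0
    simpa using this
  have m001 : c 0 0 * c 0 1 = c 0 1 := by
    have := hc.mul 0 0 0 1
    simpa using this
  have m100 : c 1 0 * c 0 0 = c 1 0 := by
    have := hc.mul 1 0 0 0
    simpa using this
  have hcor0 : c 0 0 * c 0 0 = c 0 0 := m00
  -- the difference terms
  have hdm : ∀ y : Q, IsSelfAdjoint y → c 0 0 * y = y → y * c 0 0 = y →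
      y - c 1 0 * y * c 0 1 ∈ Hc G := by
    intro y hy hl hr
    rw [← id1 y hy hl hr]
    refine hbr _ (hoff _ ?_ ?_) _ (hoff _ hcor0 hcor0)
    · rw [mul_smul_comm, hl]
    · rw [smul_mul_assoc, hr]
  set x : Q := c 0 0 * h * c 0 0 with hx
  set y : Q := c 0 1 * h * c 1 0 with hy
  have hxs : IsSelfAdjoint x := by
    rw [IsSelfAdjoint, hx, star_mul, star_mul, hs, hh.star_eq, mul_assoc]
  have hys : IsSelfAdjoint y := by
    rw [IsSelfAdjoint, hy, star_mul, star_mul, hs, hs, hh.star_eq, mul_assoc]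
  have hxl : c 0 0 * x = x := by
    rw [hx, ← mul_assoc, ← mul_assoc, m00]
  have hxr : x * c 0 0 = x := by
    rw [hx, mul_assoc, m00]
  have hyl : c 0 0 * y = y := by
    rw [hy, ← mul_assoc, ← mul_assoc, m001]
  have hyr : y * c 0 0 = y := by
    rw [hy, mul_assoc, m100]
  have hz : off c (c 0 0 * h * c 1 0) ∈ Hc G := by
    refine hoff _ ?_ ?_
    · rw [← mul_assoc, ← mul_assoc, m00]
    · rw [mul_assoc, m100]
  have hhalf : IsSelfAdjoint ((2 : ℂ)⁻¹) := by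
    rw [IsSelfAdjoint]
    simp
  have hp : IsSelfAdjoint ((2 : ℂ)⁻¹ • (x + y)) := hhalf.smul (hxs.add hys)
  have hm : IsSelfAdjoint ((2 : ℂ)⁻¹ • (x - y)) := hhalf.smul (hxs.sub hys)
  have d1 : (2 : ℂ)⁻¹ • (x + y) + c 1 0 * ((2 : ℂ)⁻¹ • (x + y)) * c 0 1 ∈ Hc G := by
    refine hdp _ hp ?_ ?_
    · rw [mul_smul_comm, mul_add, hxl, hyl]
    · rw [smul_mul_assoc, add_mul, hxr, hyr]
  have d2 : (2 : ℂ)⁻¹ • (x - y) - c 1 0 * ((2 : ℂ)⁻¹ • (x - y)) * c 0 1 ∈ Hc G := by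
    refine hdm _ hm ?_ ?_
    · rw [mul_smul_comm, mul_sub, hxl, hyl]
    · rw [smul_mul_assoc, sub_mul, hxr, hyr]
  have key : h = ((2 : ℂ)⁻¹ • (x + y) + c 1 0 * ((2 : ℂ)⁻¹ • (x + y)) * c 0 1) +
      ((2 : ℂ)⁻¹ • (x - y) - c 1 0 * ((2 : ℂ)⁻¹ • (x - y)) * c 0 1) +
      off c (c 0 0 * h * c 1 0) := by
    have e1 : (2 : ℂ)⁻¹ • (x + y) + (2 : ℂ)⁻¹ • (x - y) = x := by
      rw [← smul_add]
      have : x + y + (x - y) = (2 : ℂ) • x := by
        rw [two_smul]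
        abel
      rw [this, smul_smul, inv_mul_cancel₀ two_ne_zero, one_smul]
    have e2 : (2 : ℂ)⁻¹ • (x + y) - (2 : ℂ)⁻¹ • (x - y) = y := by
      rw [← smul_sub]
      have : x + y - (x - y) = (2 : ℂ) • y := by
        rw [two_smul]
        abel
      rw [this, smul_smul, inv_mul_cancel₀ two_ne_zero, one_smul]
    have e3 : ((2 : ℂ)⁻¹ • (x + y) + c 1 0 * ((2 : ℂ)⁻¹ • (x + y)) * c 0 1) +
        ((2 : ℂ)⁻¹ • (x - y) - c 1 0 * ((2 : ℂ)⁻¹ • (x - y)) * c 0 1) =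
        ((2 : ℂ)⁻¹ • (x + y) + (2 : ℂ)⁻¹ • (x - y)) +
        c 1 0 * ((2 : ℂ)⁻¹ • (x + y) - (2 : ℂ)⁻¹ • (x - y)) * c 0 1 := by
      rw [mul_sub, sub_mul]
      abel
    rw [e3, e1, e2]
    exact id3 h hh
  rw [key]
  exact hadd _ (hadd _ d1 _ d2) _ hz

end ND

end SCO
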