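import Pool.Agent.Work.MP_52dd0f_nd.Interface

/-!
# THEOREM ND, block AMP: properties of the amplification `am`
-/

set_option autoImplicit false

namespace SCO

open Filter Topology

universe u

namespace ND

section

variable {P : Type u} [CStarAlgebra P] {n : ℕ} {a : Fin (n + 1) → Fin (n + 1) → P}

theorem AMP_mul_same (h : MU 1 a) (i j l : Fin (n + 1)) : a i j * a j l = a i l := by
  rw [h.mul, if_pos rfl]

theorem AMP_mul_ne (h : MU 1 a) (i m : Fin (n + 1)) {j k : Fin (n + 1)} (hjk : j ≠ k) :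
    a i j * a k m = 0 := by
  rw [h.mul, if_neg hjk]

theorem AMP_right (h : MU 1 a) (x : P) (i j : Fin (n + 1)) :
    am a x * a i j = a i 0 * x * a 0 j := by
  unfold am
  rw [Finset.sum_mul, Finset.sum_eq_single i]
  · rw [mul_assoc, AMP_mul_same h]
  · intro k _ hk
    rw [mul_assoc, AMP_mul_ne h 0 j hk, mul_zero]
  · intro hi
    exact absurd (Finset.mem_univ i) hi

theorem AMP_left (h : MU 1 a) (x : P) (i j : Fin (n + 1)) :
    a i j * am a x = a i 0 * x * a 0 j := by
  unfold am
  rw [Finset.mul_sum, Finset.sum_eq_single j]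
  · rw [← mul_assoc, ← mul_assoc, AMP_mul_same h]
  · intro k _ hk
    rw [← mul_assoc, ← mul_assoc, AMP_mul_ne h i 0 (Ne.symm hk), zero_mul, zero_mul]
  · intro hi
    exact absurd (Finset.mem_univ j) hi

theorem AMP_mul (h : MU 1 a) (x y : P) (hx : x * a 0 0 = x) :
    am a (x * y) = am a x * am a y := by
  have h1 : am a x * am a y = ∑ j, am a x * (a j 0 * y * a 0 j) := by
    rw [← Finset.mul_sum]
    rfl
  rw [h1]
  have h2 : am a (x * y) = ∑ j, a j 0 * (x * y) * a 0 j := rfl
  rw [h2]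
  refine Finset.sum_congr rfl fun j _ => ?_
  rw [← mul_assoc (am a x), ← mul_assoc (am a x), AMP_right h, mul_assoc (a j 0) x (a 0 0), hx,
    ← mul_assoc (a j 0) x y]

theorem AMP_star (h : MU 1 a) (x : P) : star (am a x) = am a (star x) := by
  unfold am
  rw [star_sum]
  refine Finset.sum_congr rfl fun j _ => ?_
  rw [star_mul, star_mul, h.star, h.star, ← mul_assoc]

theorem AMP_one (h : MU 1 a) : am a (a 0 0) = 1 := by
  rw [← h.sum]
  unfold am
  refine Finset.sum_congr rfl fun j _ => ?_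
  rw [AMP_mul_same h, AMP_mul_same h]

theorem AMP_pow (h : MU 1 a) (x : P) (hx : x * a 0 0 = x) (m : ℕ) :
    am a (x ^ (m + 1)) = am a x ^ (m + 1) := by
  induction m with
  | zero => rw [zero_add, pow_one, pow_one]
  | succ m ih =>
    have h1 : x ^ (m + 1) * a 0 0 = x ^ (m + 1) := by
      rw [pow_succ, mul_assoc, hx]
    rw [pow_succ x (m + 1), AMP_mul h _ _ h1, ih, ← pow_succ]

theorem AMP_corner (h : MU 1 a) (x : P) (h1 : a 0 0 * x = x) (h2 : x * a 0 0 = x) :
    a 0 0 * am a x = x ∧ am a x * a 0 0 = x := by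
  constructor
  · rw [AMP_left h, h1, h2]
  · rw [AMP_right h, h1, h2]

theorem AMP_inj (h : MU 1 a) (x y : P) (h1 : a 0 0 * x = x) (h2 : x * a 0 0 = x)
    (h3 : a 0 0 * y = y) (h4 : y * a 0 0 = y) (hxy : am a x = am a y) : x = y := by
  rw [← (AMP_corner h x h1 h2).1, hxy, (AMP_corner h y h3 h4).1]

theorem AMP_tr [TrC P] (h : MU 1 a) (x : P) (h1 : a 0 0 * x = x) :
    tr (am a x) = ((n : ℂ) + 1) * tr x := by
  unfold am
  rw [map_sum]
  have h2 : ∀ i : Fin (n + 1), tr (a i 0 * x * a 0 i) = tr x := by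
    intro i
    rw [tr_comm, ← mul_assoc, AMP_mul_same h, h1]
  rw [Finset.sum_congr rfl fun i _ => h2 i, Finset.sum_const, Finset.card_univ, Fintype.card_fin,
    nsmul_eq_mul]
  push_cast
  ring

end

theorem p_AMP : Stmt_AMP.{u} := by
  intro P _ _ n a h
  have he : a 0 0 * a 0 0 = a 0 0 := AMP_mul_same h 0 0 0
  have hs : star (a 0 0) = a 0 0 := h.star 0 0
  have hn : ((n : ℂ) + 1) ≠ 0 := by exact_mod_cast Nat.succ_ne_zero n
  refine ⟨⟨he, hs⟩, ?_, AMP_one h, ?_, fun x y hx => AMP_mul h x y hx, fun x => AMP_star h x, ?_,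
    fun x h1 h2 => AMP_corner h x h1 h2, ?_⟩
  · have h1 := AMP_tr h (a 0 0) he
    rw [AMP_one h, tr_one] at h1
    have h2 : tr (a 0 0) = (((1 / ((n : ℝ) + 1) : ℝ)) : ℂ) := by
      push_cast
      field_simp
      rw [mul_comm] at h1
      exact h1.symm
    unfold tau
    rw [h2, Complex.ofReal_re]
  · intro x i j
    rw [AMP_right h, AMP_left h]
  · intro y hy
    unfold am
    have h1 : ∀ i : Fin (n + 1), a i 0 * (a 0 0 * y * a 0 0) * a 0 i = y * a i i := by
      intro i
      rw [mul_assoc (a 0 0) y (a 0 0), ← mul_assoc (a i 0) (a 0 0), AMP_mul_same h, hy 0 0,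
        ← mul_assoc (a i 0), AMP_mul_same h, ← hy i 0, mul_assoc, AMP_mul_same h]
    rw [Finset.sum_congr rfl fun i _ => h1 i, ← Finset.mul_sum, h.sum, mul_one]
  · intro x h1 h2
    have h3 : star x * a 0 0 = star x := by
      have := congrArg star h1
      rw [star_mul, hs] at this
      exact this
    have h4 : a 0 0 * star x = star x := by
      have := congrArg star h2
      rw [star_mul, hs] at this
      exact this
    constructor
    · intro hh
      refine ⟨?_, ?_, ?_⟩
      · rw [AMP_star h, ← AMP_mul h _ _ h3, hh.src, AMP_one h]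
      · rw [AMP_star h, ← AMP_mul h _ _ h2, hh.rng, AMP_one h]
      · intro m hm
        obtain ⟨k, rfl⟩ : ∃ k, m = k + 1 := ⟨m - 1, by omega⟩
        rw [← AMP_pow h x h2, AMP_tr h, hh.tr (k + 1) hm, mul_zero]
        rw [pow_succ', ← mul_assoc, h1]
    · intro hh
      refine ⟨?_, ?_, ?_⟩
      · refine AMP_inj h _ _ ?_ ?_ he he ?_
        · rw [← mul_assoc, h4]
        · rw [mul_assoc, h2]
        · rw [AMP_mul h _ _ h3, ← AMP_star h, hh.isom, AMP_one h]
      · refine AMP_inj h _ _ ?_ ?_ he he ?_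
        · rw [← mul_assoc, h1]
        · rw [mul_assoc, h3]
        · rw [AMP_mul h _ _ h2, ← AMP_star h, hh.coisom, AMP_one h]
      · intro m hm
        have h5 := hh.haar m hm
        obtain ⟨k, rfl⟩ : ∃ k, m = k + 1 := ⟨m - 1, by omega⟩
        rw [← AMP_pow h x h2, AMP_tr h] at h5
        · exact (mul_eq_zero.1 h5).resolve_left hn
        · rw [pow_succ', ← mul_assoc, h1]

end ND

end SCO
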