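import Pool.Agent.Work.MP_52dd0f_nd.Interface

set_option autoImplicit false
set_option linter.unusedSectionVars false

/-! # THEOREM ND, block AVG: a projection is a scalar plus commutators up to a small error
(helper41) -/

namespace SCO

open Filter Topology

universe u

namespace ND

section AVG

variable {M : Type u} [CStarAlgebra M] {n : ℕ} {e : M} {a : Fin (n + 1) → Fin (n + 1) → M}

/-- the cyclic partial isometries -/
noncomputable def AVG_w (a : Fin (n + 1) → Fin (n + 1) → M) (j : Fin (n + 1)) : M :=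
  ∑ i, a (i + j) i

theorem AVG_star (h : MU e a) (j : Fin (n + 1)) : star (AVG_w a j) = ∑ i, a i (i + j) := by
  rw [AVG_w, star_sum]
  exact Finset.sum_congr rfl fun i _ => h.star _ _

theorem AVG_wmul (h : MU e a) (j i m : Fin (n + 1)) : AVG_w a j * a i m = a (i + j) m := by
  rw [AVG_w, Finset.sum_mul, Finset.sum_eq_single i]
  · rw [h.mul, if_pos rfl]
  · intro b _ hb
    rw [h.mul, if_neg hb]
  · intro hi; exact absurd (Finset.mem_univ i) hi

theorem AVG_mulw (h : MU e a) (j i m : Fin (n + 1)) :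
    a i m * star (AVG_w a j) = a i (m + j) := by
  have h1 := congrArg star (AVG_wmul h j m i)
  rw [star_mul, h.star, h.star] at h1
  exact h1

theorem AVG_ww (h : MU e a) (j : Fin (n + 1)) : AVG_w a j * star (AVG_w a j) = e := by
  rw [AVG_star h, Finset.mul_sum, ← h.sum, ← Equiv.sum_comp (Equiv.addRight j) fun i => a i i]
  exact Finset.sum_congr rfl fun i _ => AVG_wmul h j i (i + j)

theorem AVG_ww' (h : MU e a) (j : Fin (n + 1)) : star (AVG_w a j) * AVG_w a j = e := by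
  rw [AVG_star h, Finset.sum_mul, ← h.sum]
  refine Finset.sum_congr rfl fun i _ => ?_
  rw [AVG_w, Finset.mul_sum, Finset.sum_eq_single i]
  · rw [h.mul, if_pos rfl]
  · intro b _ hb
    rw [h.mul, if_neg]
    intro hc
    exact hb (add_right_cancel hc).symm
  · intro hi; exact absurd (Finset.mem_univ i) hi

theorem AVG_em (h : MU e a) (i m : Fin (n + 1)) : e * a i m = a i m := by
  rw [← h.sum, Finset.sum_mul, Finset.sum_eq_single i]
  · rw [h.mul, if_pos rfl]
  · intro b _ hb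
    rw [h.mul, if_neg hb]
  · intro hi; exact absurd (Finset.mem_univ i) hi

theorem AVG_me (h : MU e a) (i m : Fin (n + 1)) : a i m * e = a i m := by
  rw [← h.sum, Finset.mul_sum, Finset.sum_eq_single m]
  · rw [h.mul, if_pos rfl]
  · intro b _ hb
    rw [h.mul, if_neg (fun hc => hb hc.symm)]
  · intro hi; exact absurd (Finset.mem_univ m) hi

theorem AVG_ew (h : MU e a) (j : Fin (n + 1)) : e * AVG_w a j = AVG_w a j := by
  rw [AVG_w, Finset.mul_sum]
  exact Finset.sum_congr rfl fun i _ => AVG_em h _ _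

theorem AVG_we (h : MU e a) (j : Fin (n + 1)) : AVG_w a j * e = AVG_w a j := by
  rw [AVG_w, Finset.sum_mul]
  exact Finset.sum_congr rfl fun i _ => AVG_me h _ _

/-- the real part of an element of the corner -/
theorem AVG_re {e x : M} (he : star e = e) (h1 : e * x = x) (h2 : x * e = x) :
    ∃ x₁ x₂ : M, (IsSelfAdjoint x₁ ∧ e * x₁ = x₁ ∧ x₁ * e = x₁) ∧
      (IsSelfAdjoint x₂ ∧ e * x₂ = x₂ ∧ x₂ * e = x₂) ∧ x = x₁ + Complex.I • x₂ := by
  have h3 : star x * e = star x := by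
    have := congrArg star h1
    rwa [star_mul, he] at this
  have h4 : e * star x = star x := by
    have := congrArg star h2
    rwa [star_mul, he] at this
  refine ⟨(1 / 2 : ℂ) • (x + star x), (-(Complex.I / 2)) • (x - star x), ⟨?_, ?_, ?_⟩,
    ⟨?_, ?_, ?_⟩, ?_⟩
  · rw [isSelfAdjoint_iff, star_smul, star_add, star_star, add_comm]
    congr 1
    simp
  · rw [mul_smul_comm, mul_add, h1, h4]
  · rw [smul_mul_assoc, add_mul, h2, h3]
  · rw [isSelfAdjoint_iff, star_smul, star_sub, star_star]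
    have h5 : star (-(Complex.I / 2)) = -(-(Complex.I / 2)) := by
      apply Complex.ext
      · simp
      · simp
        norm_num
    rw [h5, neg_smul, ← smul_neg, neg_sub]
  · rw [mul_smul_comm, mul_sub, h1, h4]
  · rw [smul_mul_assoc, sub_mul, h2, h3]
  · rw [smul_smul]
    have h5 : Complex.I * (-(Complex.I / 2)) = (1 / 2 : ℂ) := by
      linear_combination (-(1 / 2 : ℂ)) * Complex.I_mul_I
    rw [h5, ← smul_add]
    have h6 : x + star x + (x - star x) = (2 : ℂ) • x := by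
      rw [two_smul]; abel
    rw [h6, smul_smul]
    norm_num

/-- a self-adjoint commutator -/
theorem AVG_comm {y x₁ x₂ y₁ y₂ : M} (hy : IsSelfAdjoint y) (hx₁ : IsSelfAdjoint x₁)
    (hx₂ : IsSelfAdjoint x₂) (hy₁ : IsSelfAdjoint y₁) (hy₂ : IsSelfAdjoint y₂)
    (h : y = (x₁ + Complex.I • x₂) * (y₁ + Complex.I • y₂) -
      (y₁ + Complex.I • y₂) * (x₁ + Complex.I • x₂)) :
    y = Complex.I • (x₁ * y₂ - y₂ * x₁) + Complex.I • (x₂ * y₁ - y₁ * x₂) := by
  have e1 : y = (x₁ * y₁ - y₁ * x₁ - (x₂ * y₂ - y₂ * x₂)) +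
      (Complex.I • (x₁ * y₂ - y₂ * x₁) + Complex.I • (x₂ * y₁ - y₁ * x₂)) := by
    rw [h]
    simp only [add_mul, mul_add, smul_mul_assoc, mul_smul_comm, smul_sub, smul_add, smul_smul,
      Complex.I_mul_I, neg_smul, one_smul]
    abel
  have e2 : star (x₁ * y₁ - y₁ * x₁ - (x₂ * y₂ - y₂ * x₂)) =
      -(x₁ * y₁ - y₁ * x₁ - (x₂ * y₂ - y₂ * x₂)) := by
    simp only [star_sub, star_mul, hx₁.star_eq, hx₂.star_eq, hy₁.star_eq, hy₂.star_eq]
    abel
  have e3 : star (Complex.I • (x₁ * y₂ - y₂ * x₁) + Complex.I • (x₂ * y₁ - y₁ * x₂)) =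
      Complex.I • (x₁ * y₂ - y₂ * x₁) + Complex.I • (x₂ * y₁ - y₁ * x₂) := by
    simp only [star_add, star_smul, star_sub, star_mul, hx₁.star_eq, hx₂.star_eq, hy₁.star_eq,
      hy₂.star_eq, Complex.star_def, Complex.conj_I, neg_smul, ← smul_neg, neg_sub]
  have e4 : y = -(x₁ * y₁ - y₁ * x₁ - (x₂ * y₂ - y₂ * x₂)) +
      (Complex.I • (x₁ * y₂ - y₂ * x₁) + Complex.I • (x₂ * y₁ - y₁ * x₂)) := by
    have := congrArg star e1
    rw [star_add, e2, e3, hy.star_eq] at this
    exact this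
  have e5 : (2 : ℂ) • y = (2 : ℂ) •
      (Complex.I • (x₁ * y₂ - y₂ * x₁) + Complex.I • (x₂ * y₁ - y₁ * x₂)) := by
    rw [two_smul, two_smul]
    nth_rewrite 1 [e1]
    rw [e4]
    abel
  have e6 := congrArg (fun z => (1 / 2 : ℂ) • z) e5
  simp only [smul_smul] at e6
  norm_num at e6
  exact e6

end AVG

theorem p_AVG (hCYC : Stmt_CYC.{u}) (hNMX : Stmt_NMX.{u}) : Stmt_AVG.{u} := by
  intro M _ _ _ e p he hp hpe ε hε
  obtain ⟨n, hn⟩ := exists_nat_one_div_lt hε
  obtain ⟨a, T, l, p', hMU, hp', hp'l, hpT⟩ := hCYC M e p he hp hpe n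
  have hep : e * p = p := hp.mul_swap he hpe
  set c : ℝ := 1 / ((n : ℝ) + 1) with hc
  have hc0 : 0 < c := by positivity
  -- the commutators
  have key : ∀ j : Fin (n + 1), ∃ x₁ x₂ y₁ y₂ : M, (IsSelfAdjoint x₁ ∧ e * x₁ = x₁ ∧ x₁ * e = x₁) ∧
      (IsSelfAdjoint x₂ ∧ e * x₂ = x₂ ∧ x₂ * e = x₂) ∧
      (IsSelfAdjoint y₁ ∧ e * y₁ = y₁ ∧ y₁ * e = y₁) ∧
      (IsSelfAdjoint y₂ ∧ e * y₂ = y₂ ∧ y₂ * e = y₂) ∧
      p - AVG_w a j * p * star (AVG_w a j) =
        Complex.I • (x₁ * y₂ - y₂ * x₁) + Complex.I • (x₂ * y₁ - y₁ * x₂) := by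
    intro j
    have hwe : star (AVG_w a j) * e = star (AVG_w a j) := by
      have := congrArg star (AVG_ew hMU j)
      rwa [star_mul, he.star] at this
    obtain ⟨x₁, x₂, hx₁, hx₂, hx⟩ := AVG_re (e := e) (x := p * star (AVG_w a j)) he.star
      (by rw [← mul_assoc, hep]) (by rw [mul_assoc, hwe])
    obtain ⟨y₁, y₂, hy₁, hy₂, hy⟩ := AVG_re (e := e) (x := AVG_w a j) he.star (AVG_ew hMU j)
      (AVG_we hMU j)
    refine ⟨x₁, x₂, y₁, y₂, hx₁, hx₂, hy₁, hy₂, ?_⟩
    refine AVG_comm ?_ hx₁.1 hx₂.1 hy₁.1 hy₂.1 ?_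
    · rw [isSelfAdjoint_iff, star_sub, star_mul, star_mul, star_star, hp.star, mul_assoc]
    · rw [← hx, ← hy, mul_assoc p, AVG_ww' hMU, hpe, ← mul_assoc]
  choose x₁ x₂ y₁ y₂ hx₁ hx₂ hy₁ hy₂ hxy using key
  set A : Fin (n + 1) ⊕ Fin (n + 1) → M := Sum.elim (fun j => (c : ℂ) • x₁ j)
    (fun j => (c : ℂ) • x₂ j) with hA
  set B : Fin (n + 1) ⊕ Fin (n + 1) → M := Sum.elim y₂ y₁ with hB
  have hcs : ∀ {x : M}, IsSelfAdjoint x → IsSelfAdjoint ((c : ℂ) • x) := by
    intro x hx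
    rw [isSelfAdjoint_iff, star_smul, hx.star_eq, Complex.star_def, Complex.conj_ofReal]
  refine ⟨(T.card : ℝ) * c, _, A ∘ (finSumFinEquiv (m := n + 1) (n := n + 1)).symm,
    B ∘ (finSumFinEquiv (m := n + 1) (n := n + 1)).symm, ?_, ?_⟩
  · intro k
    simp only [Function.comp_apply]
    rcases (finSumFinEquiv (m := n + 1) (n := n + 1)).symm k with j | j
    · simp only [hA, hB, Sum.elim_inl, mul_smul_comm, smul_mul_assoc]
      exact ⟨hcs (hx₁ j).1, by rw [(hx₁ j).2.1], by rw [(hx₁ j).2.2], (hy₂ j).1, (hy₂ j).2.1,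
        (hy₂ j).2.2⟩
    · simp only [hA, hB, Sum.elim_inr, mul_smul_comm, smul_mul_assoc]
      exact ⟨hcs (hx₂ j).1, by rw [(hx₂ j).2.1], by rw [(hx₂ j).2.2], (hy₁ j).1, (hy₁ j).2.1,
        (hy₁ j).2.2⟩
  -- the sum of the commutators
  have hsum : (∑ k : Fin (n + 1 + (n + 1)), Complex.I •
      ((A ∘ (finSumFinEquiv (m := n + 1) (n := n + 1)).symm) k *
        (B ∘ (finSumFinEquiv (m := n + 1) (n := n + 1)).symm) k -
      (B ∘ (finSumFinEquiv (m := n + 1) (n := n + 1)).symm) k *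
        (A ∘ (finSumFinEquiv (m := n + 1) (n := n + 1)).symm) k)) =
      ∑ j : Fin (n + 1), (c : ℂ) • (p - AVG_w a j * p * star (AVG_w a j)) := by
    simp only [Function.comp_apply]
    rw [Equiv.sum_comp (finSumFinEquiv (m := n + 1) (n := n + 1)).symm
      (fun s => Complex.I • (A s * B s - B s * A s)), Fintype.sum_sum_type,
      ← Finset.sum_add_distrib]
    refine Finset.sum_congr rfl fun j _ => ?_
    rw [hxy j]
    simp only [hA, hB, Sum.elim_inl, Sum.elim_inr, smul_mul_assoc, mul_smul_comm, smul_sub,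
      smul_add, smul_smul, mul_comm Complex.I (c : ℂ)]
  rw [hsum]
  -- the average
  have hc1 : ((n : ℂ) + 1) * (c : ℂ) = 1 := by
    rw [hc]; push_cast
    have : ((n : ℂ) + 1) ≠ 0 := by exact_mod_cast Nat.succ_ne_zero n
    field_simp
  have hp1 : ∑ j : Fin (n + 1), (c : ℂ) • (p - AVG_w a j * p * star (AVG_w a j)) =
      p - (c : ℂ) • ∑ j : Fin (n + 1), AVG_w a j * p * star (AVG_w a j) := by
    rw [← Finset.smul_sum, Finset.sum_sub_distrib, smul_sub, Finset.sum_const, Finset.card_univ,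
      Fintype.card_fin, ← Nat.cast_smul_eq_nsmul ℂ, smul_smul]
    congr 1
    push_cast
    rw [mul_comm, hc1, one_smul]
  have hp2 : ∑ j : Fin (n + 1), AVG_w a j * p * star (AVG_w a j) =
      (T.card : ℂ) • e + ∑ j : Fin (n + 1), AVG_w a j * p' * star (AVG_w a j) := by
    have e1 : ∀ j : Fin (n + 1), AVG_w a j * p * star (AVG_w a j) =
        (∑ i ∈ T, a (i + j) (i + j)) + AVG_w a j * p' * star (AVG_w a j) := by
      intro j
      nth_rewrite 1 [hpT]
      rw [mul_add, add_mul, Finset.mul_sum, Finset.sum_mul]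
      congr 1
      refine Finset.sum_congr rfl fun i _ => ?_
      rw [AVG_wmul hMU, AVG_mulw hMU]
    rw [Finset.sum_congr rfl fun j _ => e1 j, Finset.sum_add_distrib, Finset.sum_comm]
    congr 1
    have e2 : ∀ i ∈ T, ∑ j : Fin (n + 1), a (i + j) (i + j) = e := by
      intro i _
      rw [← hMU.sum, ← Equiv.sum_comp (Equiv.addLeft i) fun k => a k k]
      rfl
    rw [Finset.sum_congr rfl e2, Finset.sum_const, ← Nat.cast_smul_eq_nsmul ℂ]
  have hfin : p - (((T.card : ℝ) * c : ℝ) : ℂ) • e -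
      (p - (c : ℂ) • ∑ j : Fin (n + 1), AVG_w a j * p * star (AVG_w a j)) =
      (c : ℂ) • ∑ j : Fin (n + 1), AVG_w a j * p' * star (AVG_w a j) := by
    rw [hp2, smul_add, smul_smul]
    push_cast
    rw [mul_comm (c : ℂ) (T.card : ℂ)]
    abel
  rw [hp1, hfin, norm_smul]
  -- the orthogonal sum
  have hall : a l l * p' = p' := by
    have h1 := congrArg star hp'l
    rw [star_mul, hp'.star, hMU.star] at h1
    exact h1
  have hxj : ∀ j : Fin (n + 1), AVG_w a j * p' * star (AVG_w a j) =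
      a (l + j) l * p' * a l (l + j) := by
    intro j
    nth_rewrite 1 [← hall, ← hp'l]
    rw [← mul_assoc (a l l), ← mul_assoc (AVG_w a j), ← mul_assoc (AVG_w a j), AVG_wmul hMU,
      mul_assoc _ (a l l), AVG_mulw hMU]
  have hproj : ∀ j : Fin (n + 1), IsProj (a (l + j) (l + j)) := fun j =>
    ⟨by rw [hMU.mul, if_pos rfl], hMU.star _ _⟩
  have hw : ∀ j : Fin (n + 1), ‖AVG_w a j‖ ≤ 1 := by
    intro j
    have h1 := CStarRing.norm_star_mul_self (x := AVG_w a j)
    rw [AVG_ww' hMU] at h1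
    have h2 := he.norm_le
    nlinarith [norm_nonneg (AVG_w a j)]
  have hsm : ‖∑ j : Fin (n + 1), AVG_w a j * p' * star (AVG_w a j)‖ ≤ 1 := by
    refine hNMX M (n + 1) (fun j => a (l + j) (l + j)) _ hproj ?_ ?_ ?_ 1 zero_le_one ?_
    · intro i j hij
      show a (l + i) (l + i) * a (l + j) (l + j) = 0
      rw [hMU.mul, if_neg]
      intro hc
      exact hij (add_left_cancel hc)
    · intro j
      rw [hxj j, mul_assoc (a (l + j) l), ← mul_assoc (a (l + j) (l + j)), hMU.mul, if_pos rfl]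
    · intro j
      rw [hxj j, mul_assoc _ (a l (l + j)), hMU.mul, if_pos rfl]
    · intro j
      have h1 := hw j
      have h2 := hp'.norm_le
      calc ‖AVG_w a j * p' * star (AVG_w a j)‖ ≤ ‖AVG_w a j‖ * ‖p'‖ * ‖star (AVG_w a j)‖ :=
            (norm_mul_le _ _).trans (mul_le_mul_of_nonneg_right (norm_mul_le _ _) (norm_nonneg _))
        _ ≤ 1 * 1 * 1 := by
            rw [norm_star]
            gcongr
        _ = 1 := by norm_num
  have hcn : ‖(c : ℂ)‖ = c := by
    rw [Complex.norm_real, Real.norm_of_nonneg hc0.le]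
  rw [hcn]
  calc c * ‖∑ j : Fin (n + 1), AVG_w a j * p' * star (AVG_w a j)‖ ≤ c * 1 := by gcongr
    _ ≤ ε := by rw [mul_one]; exact hn.le

end ND

end SCO
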