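import Pool.Agent.Work.MP_52dd0f_nd.Interface

/-!
# Block AVU (MP_52dd0f_an, THEOREM ND): averaging over the unitaries of a factor (helper89)
-/

set_option autoImplicit false
set_option linter.unusedSectionVars false

namespace SCO

open Filter Topology

universe u

namespace ND

theorem p_AVU : Stmt_AVU.{u} := by
  intro M _ _ _ x
  by_contra hcon
  push Not at hcon
  set D : ℝ := n2 (x - (tr x : ℂ) • (1 : M)) with hD
  have hlt : ∀ w ∈ unitary M, n2 (w * x * star w - x) < D / 2 := by
    intro w hw
    have h1 := hcon w (Unitary.mem_iff.1 hw).1 (Unitary.mem_iff.1 hw).2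
    linarith
  set K : Set M := {y | ‖y‖ ≤ ‖x‖ ∧ tr y = tr x ∧
    ∀ w ∈ unitary M, n2 (w * y * star w - x) ≤ D / 2} with hK
  obtain ⟨y, hy, hmin⟩ := exists_min (K := K)
    ⟨x, le_rfl, rfl, fun w hw => (hlt w hw).le⟩ (C := ‖x‖) (fun x hx => hx.1)
    (by
      intro a ha b hb
      refine ⟨?_, ?_, ?_⟩
      · rw [norm_smul, Complex.norm_real, Real.norm_eq_abs, abs_of_pos (by norm_num)]
        have h1 := norm_add_le a b
        have h2 := ha.1
        have h3 := hb.1
        linarith
      · rw [map_smul, map_add, ha.2.1, hb.2.1, smul_eq_mul]; push_cast; ring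
      · intro w hw
        have h1 : w * (((1 / 2 : ℝ) : ℂ) • (a + b)) * star w - x =
            ((1 / 2 : ℝ) : ℂ) • ((w * a * star w - x) + (w * b * star w - x)) := by
          have h2 : x = ((1 / 2 : ℝ) : ℂ) • (x + x) := by
            rw [← two_smul ℂ x, smul_smul]
            norm_num
          rw [mul_smul_comm, smul_mul_assoc, mul_add, add_mul]
          nth_rewrite 1 [h2]
          rw [← smul_sub]
          congr 1
          abel
        rw [h1, n2_smul, Complex.norm_real, Real.norm_eq_abs, abs_of_pos (by norm_num)]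
        have h2 := n2_add_le (w * a * star w - x) (w * b * star w - x)
        have h3 := ha.2.2 w hw
        have h4 := hb.2.2 w hw
        linarith)
    (by
      intro a ha b hab
      refine ⟨norm_le_of_T2 (fun k => (ha k).1) hab, ?_, ?_⟩
      · have h1 := hab.tr
        simp only [(ha _).2.1] at h1
        exact (tendsto_nhds_unique h1 tendsto_const_nhds)
      · intro w hw
        have h1 := (((hab.const_mul w).mul_const (star w)).sub (T2.const x)).n2
        exact le_of_tendsto' h1 (fun k => (ha k).2.2 w hw))
  have hcen : ∀ w ∈ unitary M, w * y * star w = y := by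
    intro w hw
    have hw1 := (Unitary.mem_iff.1 hw).1
    have hw2 := (Unitary.mem_iff.1 hw).2
    apply hmin
    · refine ⟨?_, ?_, ?_⟩
      · have hn : ‖w‖ ≤ 1 := norm_le_one_of_star_mul hw1
        have hn' : ‖star w‖ ≤ 1 := by rwa [norm_star]
        calc ‖w * y * star w‖ ≤ ‖w‖ * ‖y‖ * ‖star w‖ :=
              (norm_mul_le _ _).trans (mul_le_mul_of_nonneg_right (norm_mul_le _ _) (norm_nonneg _))
          _ ≤ 1 * ‖x‖ * 1 := by gcongr; exact hy.1
          _ = ‖x‖ := by ring
      · rw [tr_comm, ← mul_assoc, hw1, one_mul, hy.2.1]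
      · intro g hg
        have h1 : g * (w * y * star w) * star g = (g * w) * y * star (g * w) := by
          simp only [star_mul, mul_assoc]
        rw [h1]
        exact hy.2.2 (g * w) (mul_mem hg hw)
    · rw [n2_conj hw1]
  obtain ⟨c, hc⟩ := FactorII.center y (central_of_unitary hcen)
  have h1 := hy.2.1
  rw [hc, map_smul, tr_one, smul_eq_mul, mul_one] at h1
  have h2 := hy.2.2 1 (one_mem _)
  rw [one_mul, star_one, mul_one, hc, h1, n2_sub_comm, ← hD] at h2
  have h3 := hlt 1 (one_mem _)
  have h4 := n2_nonneg (1 * x * star 1 - x)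
  linarith

end ND

end SCO
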