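import Pool.Agent.Work.MP_52dd0f_nd.Interface

set_option autoImplicit false
set_option linter.unusedSectionVars false

namespace SCO

open Filter Topology

universe u

namespace ND

theorem CJN_norm_conj {M : Type u} [CStarAlgebra M] [TVN M] {g : M} (hg : star g * g = 1) (x : M) :
    ‖g * x * star g‖ ≤ ‖x‖ := by
  have h1 := norm_le_one_of_star_mul hg
  calc ‖g * x * star g‖ ≤ ‖g‖ * ‖x‖ * ‖star g‖ :=
        (norm_mul_le _ _).trans (mul_le_mul_of_nonneg_right (norm_mul_le _ _) (norm_nonneg _))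
    _ ≤ 1 * ‖x‖ * 1 := by rw [norm_star]; gcongr
    _ = ‖x‖ := by ring

theorem p_CJN (hHDC : Stmt_HDC.{u}) : Stmt_CJN.{u} := by
  intro M _ _ _ u v hu hv ε hε
  obtain ⟨J, lam, p, q, -, hp, hq, ht⟩ := hHDC M u v hu hv (ε / 2) (half_pos hε)
  have hw : ∀ j, ∃ w : M, star w * w = p j ∧ w * star w = q j := fun j =>
    equiv_of_tau (hp.proj j) (hq.proj j) (ht j)
  choose w hw1 hw2 using hw
  have hsrc : ∀ j, w j * p j = w j := fun j => pi_mul_src (hp.proj j) (hw1 j)
  have hrng : ∀ j, q j * w j = w j := fun j => pi_mul_rng (hp.proj j) (hw1 j) (hw2 j)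
  have hsrc' : ∀ j, p j * star (w j) = star (w j) := fun j => by
    have := congrArg star (hsrc j)
    rwa [star_mul, (hp.proj j).star] at this
  have hrng' : ∀ j, star (w j) * q j = star (w j) := fun j => by
    have := congrArg star (hrng j)
    rwa [star_mul, (hq.proj j).star] at this
  have o1 : ∀ i j, i ≠ j → star (w i) * w j = 0 := fun i j hij => by
    rw [← hrng' i, ← hrng j]
    calc star (w i) * q i * (q j * w j) = star (w i) * (q i * q j) * w j := by noncomm_ring
      _ = 0 := by rw [hq.orth i j hij]; simp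
  have o2 : ∀ i j, i ≠ j → w i * star (w j) = 0 := fun i j hij => by
    rw [← hsrc i, ← hsrc' j]
    calc w i * p i * (p j * star (w j)) = w i * (p i * p j) * star (w j) := by noncomm_ring
      _ = 0 := by rw [hp.orth i j hij]; simp
  have o3 : ∀ i j, i ≠ j → w i * p j = 0 := fun i j hij => by
    rw [← hsrc i, mul_assoc, hp.orth i j hij, mul_zero]
  have hg1 : star (∑ j, w j) * ∑ j, w j = 1 := by
    rw [star_sum, Finset.sum_mul_sum, ← hp.sum]
    refine Finset.sum_congr rfl fun i _ => ?_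
    rw [Finset.sum_eq_single i (fun j _ hj => o1 i j (Ne.symm hj)) (by simp), hw1]
  have hg2 : (∑ j, w j) * star (∑ j, w j) = 1 := by
    rw [star_sum, Finset.sum_mul_sum, ← hq.sum]
    refine Finset.sum_congr rfl fun i _ => ?_
    rw [Finset.sum_eq_single i (fun j _ hj => o2 i j (Ne.symm hj)) (by simp), hw2]
  have hg3 : ∀ j, (∑ i, w i) * p j * star (∑ i, w i) = q j := fun j => by
    rw [Finset.sum_mul, Finset.sum_eq_single j (fun i _ hi => o3 i j hi) (by simp), hsrc, star_sum,
      Finset.mul_sum, Finset.sum_eq_single j (fun i _ hi => o2 j i (Ne.symm hi)) (by simp), hw2]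
  refine ⟨∑ j, w j, hg1, hg2, ?_⟩
  set g := ∑ j, w j with hgdef
  have h1 : g * (∑ j, lam j • p j) * star g = ∑ j, lam j • q j := by
    rw [Finset.mul_sum, Finset.sum_mul]
    refine Finset.sum_congr rfl fun j _ => ?_
    rw [mul_smul_comm, smul_mul_assoc, hg3]
  have h2 : g * u * star g - v = g * (u - ∑ j, lam j • p j) * star g - (v - ∑ j, lam j • q j) := by
    rw [mul_sub, sub_mul, h1]; abel
  rw [h2]
  calc ‖g * (u - ∑ j, lam j • p j) * star g - (v - ∑ j, lam j • q j)‖
      ≤ ‖g * (u - ∑ j, lam j • p j) * star g‖ + ‖v - ∑ j, lam j • q j‖ := norm_sub_le _ _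
    _ ≤ ε / 2 + ε / 2 := add_le_add ((CJN_norm_conj hg1 _).trans hp.near) hq.near
    _ = ε := by ring

end ND

end SCO
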