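import Pool.Agent.Work.MP_52dd0f_nd.Interface

set_option autoImplicit false
set_option linter.unusedSectionVars false

namespace SCO

open Filter Topology

universe u

namespace ND

theorem p_CNC (hA : Stmt_AMP.{u}) : Stmt_CNC.{u} := by
  intro P _ _ hS n a ha u v hu hv
  obtain ⟨hE, -, -, hcom, -, -, -, hcut, hhaar⟩ := hA P n a ha
  have eu := hu.mul_left hE
  have ue := hu.mul_right hE
  have ev := hv.mul_left hE
  have ve := hv.mul_right hE
  have hU := (hhaar u eu ue).1 hu
  have hV := (hhaar v ev ve).1 hv
  obtain ⟨g, g1, g2, g3⟩ := hS.conj _ _ hU hV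
  -- the conjugated matrix units
  have gg : ∀ x y : P, (g * x * star g) * (g * y * star g) = g * (x * y) * star g := by
    intro x y
    calc (g * x * star g) * (g * y * star g) = g * x * (star g * g) * y * star g := by
          simp only [mul_assoc]
      _ = g * (x * y) * star g := by rw [g1]; simp only [mul_assoc, one_mul]
  have hb : MU 1 (fun i j => g * a i j * star g) := by
    refine ⟨fun i j l m => ?_, fun i j => ?_, ?_⟩
    · show (g * a i j * star g) * (g * a l m * star g) = _
      rw [gg, ha.mul]
      split_ifs
      · rfl
      · rw [mul_zero, zero_mul]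
    · show star (g * a i j * star g) = g * a j i * star g
      rw [star_mul, star_mul, star_star, ha.star, mul_assoc]
    · show ∑ i, g * a i i * star g = 1
      rw [← Finset.sum_mul, ← Finset.mul_sum, ha.sum, mul_one, g2]
  have hbc : ∀ i j, am a v * (g * a i j * star g) = (g * a i j * star g) * am a v := by
    intro i j
    rw [← g3, gg, gg, hcom]
  obtain ⟨y, y1, y2, y3, y4⟩ := hS.equiv _ hV n _ a hb ha hbc (fun i j => hcom v i j)
  have yb : ∀ i j, y * (g * a i j * star g) = a i j * y := by
    intro i j
    have h := y4 i j
    calc y * (g * a i j * star g) = y * (g * a i j * star g) * (star y * y) := by rw [y1, mul_one]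
      _ = y * (g * a i j * star g) * star y * y := by simp only [mul_assoc]
      _ = a i j * y := by rw [h]
  have ka : ∀ i j, (y * g) * a i j = a i j * (y * g) := by
    intro i j
    calc (y * g) * a i j = y * (g * a i j * (star g * g)) := by rw [g1]; simp only [mul_assoc, mul_one]
      _ = y * (g * a i j * star g) * g := by simp only [mul_assoc]
      _ = a i j * (y * g) := by rw [yb, mul_assoc]
  have k1 : star (y * g) * (y * g) = 1 := by
    calc star (y * g) * (y * g) = star g * (star y * y) * g := by
          rw [star_mul]; simp only [mul_assoc]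
      _ = 1 := by rw [y1, mul_one, g1]
  have k2 : (y * g) * star (y * g) = 1 := by
    calc (y * g) * star (y * g) = y * (g * star g) * star y := by
          rw [star_mul]; simp only [mul_assoc]
      _ = 1 := by rw [g2, mul_one, y2]
  have kU : (y * g) * am a u * star (y * g) = am a v := by
    calc (y * g) * am a u * star (y * g) = y * (g * am a u * star g) * star y := by
          rw [star_mul]; simp only [mul_assoc]
      _ = am a v * (y * star y) := by rw [g3, ← y3, mul_assoc]
      _ = am a v := by rw [y2, mul_one]
  generalize y * g = k at ka k1 k2 kU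
  have kE := ka 0 0
  have skE : star k * a 0 0 = a 0 0 * star k := by
    have h := congrArg star kE
    rw [star_mul, star_mul, hE.star] at h
    exact h.symm
  refine ⟨a 0 0 * k, ?_, ?_, ?_⟩
  · calc star (a 0 0 * k) * (a 0 0 * k) = star k * (a 0 0 * a 0 0) * k := by
          rw [star_mul, hE.star]; simp only [mul_assoc]
      _ = star k * k * a 0 0 := by rw [hE.mul, mul_assoc, ← kE, mul_assoc]
      _ = a 0 0 := by rw [k1, one_mul]
  · calc (a 0 0 * k) * star (a 0 0 * k) = a 0 0 * (k * star k) * a 0 0 := by
          rw [star_mul, hE.star]; simp only [mul_assoc]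
      _ = a 0 0 := by rw [k2, mul_one, hE.mul]
  · calc (a 0 0 * k) * u * star (a 0 0 * k) = a 0 0 * (k * u * star k) * a 0 0 := by
          rw [star_mul, hE.star]; simp only [mul_assoc]
      _ = a 0 0 * (k * (a 0 0 * am a u) * star k) * a 0 0 := by rw [(hcut u eu ue).1]
      _ = a 0 0 * ((k * a 0 0) * am a u * star k) * a 0 0 := by simp only [mul_assoc]
      _ = a 0 0 * (a 0 0 * (k * am a u * star k)) * a 0 0 := by rw [kE]; simp only [mul_assoc]
      _ = v := by rw [kU, (hcut v ev ve).1, ev, ve]

end ND

end SCO
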