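import Pool.Agent.Work.MP_52dd0f_nd.Interface

set_option autoImplicit false

namespace SCO

open Filter Topology

universe u

namespace ND

theorem p_COR : Stmt_COR.{u} := by
  intro N M M' _ _ _ _ _ _ _ _ _ t s h h' hM'
  let _ := CStarAlgebra.spectralOrder M
  have _ := CStarAlgebra.spectralOrderedRing M
  obtain ⟨m, hm⟩ := exists_nat_ge (s / t)
  have hR := (h.rel₂ h').mat (n := m + 1)
  obtain ⟨χ, r, hχ, -⟩ := hR.cornerMap_of_le_one (by
    have h0 : (0 : ℝ) < ((m + 1 : ℕ) : ℝ) := by positivity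
    rw [div_le_one h0]
    push_cast
    linarith)
  obtain ⟨σ, g, hσ, hg, -⟩ := cornerMap_sg (N := M) (n := m + 1)
  refine ⟨Mt (m + 1) M, inferInstance, inferInstance, inferInstance, σ, g, m, hσ, ?_,
    oneOrbit_of_corner hχ hM'⟩
  rw [hg]
  push_cast
  rfl

end ND

end SCO
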