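import Pool.Agent.Work.MP_52dd0f_nd.Interface

/-! Block CUS of THEOREM ND (MP_52dd0f_an), helper56. -/

set_option autoImplicit false
set_option linter.unusedSectionVars false

namespace SCO

open Filter Topology

universe u

namespace ND

theorem CUS_sqrt {P : Type u} [CStarAlgebra P] [TVN P] (z : P) (hz : IsSelfAdjoint z)
    (hz1 : ‖z‖ ≤ 1) : ∃ k : P, IsSelfAdjoint k ∧ k * k = 1 - z * z ∧
      ∀ x : P, z * x = x * z → k * x = x * k := by
  refine ⟨cfc (fun t : ℝ => √(1 - t ^ 2)) z, cfc_predicate _ z, ?_, ?_⟩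
  · have hc : Continuous (fun t : ℝ => √(1 - t ^ 2)) := by fun_prop
    rw [← cfc_mul (fun t : ℝ => √(1 - t ^ 2)) (fun t : ℝ => √(1 - t ^ 2)) z hc.continuousOn
      hc.continuousOn]
    have h1 : cfc (fun t : ℝ => √(1 - t ^ 2) * √(1 - t ^ 2)) z =
        cfc (fun t : ℝ => 1 - t ^ 2) z := by
      apply cfc_congr
      intro t ht
      show √(1 - t ^ 2) * √(1 - t ^ 2) = 1 - t ^ 2
      have h2 : |t| ≤ 1 := by
        have h3 := spectrum.norm_le_norm_of_mem ht
        rw [Real.norm_eq_abs] at h3
        exact h3.trans hz1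
      have h4 : t ^ 2 ≤ 1 := by
        rw [← sq_abs]
        have := abs_nonneg t
        nlinarith
      exact Real.mul_self_sqrt (by linarith)
    rw [h1, cfc_sub (fun _ => (1 : ℝ)) (fun t => t ^ 2) z continuousOn_const
      (continuous_pow 2).continuousOn, cfc_const (1 : ℝ) z hz, cfc_pow_id z 2 hz, map_one, sq]
  · intro x hx
    exact (Commute.cfc_real (show Commute z x from hx) _).eq

theorem CUS_w {P : Type u} [CStarAlgebra P] [TVN P] {p w : P} (hp : IsProj p)
    (hw : IsHaarIn p w) : p * w = w ∧ w * p = w ∧ p * star w = star w ∧ star w * p = star w := by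
  have h1 := hw.mul_left hp
  have h2 := hw.mul_right hp
  refine ⟨h1, h2, ?_, ?_⟩
  · have h3 := congrArg star h2
    rw [star_mul, hp.star] at h3
    exact h3
  · have h3 := congrArg star h1
    rw [star_mul, hp.star] at h3
    exact h3

theorem CUS_gp {P : Type u} [CStarAlgebra P] [TVN P] {p w g : P} (hp : IsProj p)
    (hw : IsHaarIn p w) (h1 : star g * g = p) (h2 : g * star g = p) (h3 : w * g = g * w) :
    Gp p w g := by
  refine ⟨h1, h2, ?_⟩
  have h4 : g * w * star g = w := by
    rw [← h3, mul_assoc, h2]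
    exact (CUS_w hp hw).2.1
  rw [h4]
  exact Relation.ReflTransGen.refl

theorem CUS_sa {P : Type u} [CStarAlgebra P] [TVN P] {p w : P} (hp : IsProj p)
    (hw : IsHaarIn p w) (z : P) (hz : IsSelfAdjoint z) (hz1 : ‖z‖ ≤ 1) (hpz : p * z = z)
    (hzp : z * p = z) (hwz : w * z = z * w) :
    z ∈ Submodule.span ℂ {g : P | Gp p w g} := by
  obtain ⟨k, hk, hkk, hkc⟩ := CUS_sqrt z hz hz1
  have hkp : k * p = p * k := hkc p (by rw [hzp, hpz])
  have hkw : k * w = w * k := hkc w hwz.symm
  have hkz : k * z = z * k := hkc z rfl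
  obtain ⟨q, hq⟩ : ∃ q, q = k * p := ⟨_, rfl⟩
  have hqs : star q = q := by
    rw [hq, star_mul, hp.star, hk.star_eq, hkp]
  have hqq : q * q = p - z * z := by
    rw [hq]
    calc k * p * (k * p) = k * (p * k) * p := by simp only [mul_assoc]
      _ = k * (k * p) * p := by rw [hkp]
      _ = (k * k) * (p * p) := by simp only [mul_assoc]
      _ = (1 - z * z) * p := by rw [hkk, hp.mul]
      _ = p - z * z := by rw [sub_mul, one_mul, mul_assoc, hzp]
  have hzq : z * q = q * z := by
    rw [hq]
    calc z * (k * p) = (z * k) * p := by rw [mul_assoc]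
      _ = k * z * p := by rw [hkz]
      _ = k * (z * p) := by rw [mul_assoc]
      _ = k * (p * z) := by rw [hzp, hpz]
      _ = k * p * z := by rw [mul_assoc]
  have hwq : w * q = q * w := by
    rw [hq]
    calc w * (k * p) = (w * k) * p := by rw [mul_assoc]
      _ = k * w * p := by rw [hkw]
      _ = k * (w * p) := by rw [mul_assoc]
      _ = k * (p * w) := by rw [(CUS_w hp hw).2.1, (CUS_w hp hw).1]
      _ = k * p * w := by rw [mul_assoc]
  have hI : Complex.I • Complex.I • (q * q) = - (q * q) := by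
    rw [smul_smul, Complex.I_mul_I, neg_one_smul]
  have e1 : (z + Complex.I • q) * (z - Complex.I • q) = p := by
    rw [add_mul, mul_sub, mul_sub, mul_smul_comm, smul_mul_assoc, smul_mul_assoc, mul_smul_comm,
      hI, hzq, hqq]
    abel
  have e2 : (z - Complex.I • q) * (z + Complex.I • q) = p := by
    rw [sub_mul, mul_add, mul_add, mul_smul_comm, smul_mul_assoc, smul_mul_assoc, mul_smul_comm,
      hI, hzq, hqq]
    abel
  have s1 : star (z + Complex.I • q) = z - Complex.I • q := by
    rw [star_add, star_smul, hqs, hz.star_eq, Complex.star_def, Complex.conj_I, neg_smul,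
      sub_eq_add_neg]
  have s2 : star (z - Complex.I • q) = z + Complex.I • q := by
    rw [← s1, star_star]
  have g1 : Gp p w (z + Complex.I • q) := by
    refine CUS_gp hp hw (by rw [s1]; exact e2) (by rw [s1]; exact e1) ?_
    rw [mul_add, add_mul, mul_smul_comm, smul_mul_assoc, hwz, hwq]
  have g2 : Gp p w (z - Complex.I • q) := by
    refine CUS_gp hp hw (by rw [s2]; exact e1) (by rw [s2]; exact e2) ?_
    rw [mul_sub, sub_mul, mul_smul_comm, smul_mul_assoc, hwz, hwq]
  have h5 : z = (1 / 2 : ℂ) • ((z + Complex.I • q) + (z - Complex.I • q)) := by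
    have h6 : (z + Complex.I • q) + (z - Complex.I • q) = (2 : ℂ) • z := by
      rw [two_smul]
      abel
    rw [h6, smul_smul]
    norm_num
  rw [h5]
  exact Submodule.smul_mem _ _ (Submodule.add_mem _ (Submodule.subset_span g1)
    (Submodule.subset_span g2))

theorem CUS_sa' {P : Type u} [CStarAlgebra P] [TVN P] {p w : P} (hp : IsProj p)
    (hw : IsHaarIn p w) (z : P) (hz : IsSelfAdjoint z) (hpz : p * z = z)
    (hzp : z * p = z) (hwz : w * z = z * w) :
    z ∈ Submodule.span ℂ {g : P | Gp p w g} := by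
  have hc : (0 : ℝ) < ‖z‖ + 1 := by have := norm_nonneg z; linarith
  obtain ⟨c, hcd⟩ : ∃ c : ℝ, c = ‖z‖ + 1 := ⟨_, rfl⟩
  rw [← hcd] at hc
  have h1 : z = ((c : ℝ) : ℂ) • (((c⁻¹ : ℝ) : ℂ) • z) := by
    rw [smul_smul, ← Complex.ofReal_mul, mul_inv_cancel₀ hc.ne', Complex.ofReal_one, one_smul]
  rw [h1]
  refine Submodule.smul_mem _ _ (CUS_sa hp hw _ ?_ ?_ ?_ ?_ ?_)
  · show star _ = _
    rw [star_smul, hz.star_eq, Complex.star_def, Complex.conj_ofReal]
  · rw [norm_smul, Complex.norm_real, Real.norm_eq_abs, abs_of_pos (by positivity),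
      inv_mul_le_iff₀ hc, hcd]
    linarith
  · rw [mul_smul_comm, hpz]
  · rw [smul_mul_assoc, hzp]
  · rw [mul_smul_comm, smul_mul_assoc, hwz]

theorem p_CUS : Stmt_CUS.{u} := by
  intro P _ _ p w y hp hw hpy hyp hwy
  obtain ⟨w1, w2, w3, w4⟩ := CUS_w hp hw
  have hpy' : p * star y = star y := by
    have h := congrArg star hyp
    rw [star_mul, hp.star] at h
    exact h
  have hyp' : star y * p = star y := by
    have h := congrArg star hpy
    rw [star_mul, hp.star] at h
    exact h
  have hs : star y * star w = star w * star y := by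
    have h := congrArg star hwy
    rw [star_mul, star_mul] at h
    exact h
  have hwy' : w * star y = star y * w := by
    calc w * star y = w * (star y * p) := by rw [hyp']
      _ = w * (star y * (star w * w)) := by rw [hw.src]
      _ = w * ((star y * star w) * w) := by rw [mul_assoc (star y)]
      _ = w * ((star w * star y) * w) := by rw [hs]
      _ = (w * star w) * (star y * w) := by simp only [mul_assoc]
      _ = p * (star y * w) := by rw [hw.rng]
      _ = (p * star y) * w := by rw [mul_assoc]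
      _ = star y * w := by rw [hpy']
  have a1 : y + star y ∈ Submodule.span ℂ {g : P | Gp p w g} := by
    refine CUS_sa' hp hw _ ?_ ?_ ?_ ?_
    · show star _ = _
      rw [star_add, star_star, add_comm]
    · rw [mul_add, hpy, hpy']
    · rw [add_mul, hyp, hyp']
    · rw [mul_add, add_mul, hwy, hwy']
  have a2 : Complex.I • (y - star y) ∈ Submodule.span ℂ {g : P | Gp p w g} := by
    refine CUS_sa' hp hw _ ?_ ?_ ?_ ?_
    · show star _ = _
      rw [star_smul, star_sub, star_star, Complex.star_def, Complex.conj_I, neg_smul, ← smul_neg,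
        neg_sub]
    · rw [mul_smul_comm, mul_sub, hpy, hpy']
    · rw [smul_mul_assoc, sub_mul, hyp, hyp']
    · rw [mul_smul_comm, smul_mul_assoc, mul_sub, sub_mul, hwy, hwy']
  have h3 : y = (1 / 2 : ℂ) • ((y + star y) + (-Complex.I) • (Complex.I • (y - star y))) := by
    rw [smul_smul, neg_mul, Complex.I_mul_I, neg_neg, one_smul]
    have h6 : (y + star y) + (y - star y) = (2 : ℂ) • y := by
      rw [two_smul]
      abel
    rw [h6, smul_smul]
    norm_num
  rw [h3]
  exact Submodule.smul_mem _ _ (Submodule.add_mem _ a1 (Submodule.smul_mem _ _ a2))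

end ND

end SCO
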