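import Pool.Agent.Work.MP_52dd0f_nd.Interface

set_option autoImplicit false
set_option linter.unusedSectionVars false

namespace SCO

open Filter Topology

universe u

namespace ND

/-- a finite net of the circle -/
theorem DEC_net (δ : ℝ) (hδ : 0 < δ) : ∃ (J : ℕ) (lam : ℕ → ℂ), (∀ j, ‖lam j‖ = 1) ∧
    ∀ z : ℂ, ‖z‖ = 1 → ∃ j < J, ‖z - lam j‖ < δ := by
  obtain ⟨t, ht, htf, htc⟩ := (isCompact_sphere (0 : ℂ) 1).finite_cover_balls hδ
  classical
  let T := htf.toFinset
  refine ⟨T.card, fun j => if h : j < T.card then (T.equivFin.symm ⟨j, h⟩ : ℂ) else 1, ?_, ?_⟩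
  · intro j
    by_cases h : j < T.card
    · simp only [h, dif_pos]
      have h1 : (T.equivFin.symm ⟨j, h⟩ : ℂ) ∈ t := htf.mem_toFinset.1 (T.equivFin.symm ⟨j, h⟩).2
      simpa using ht h1
    · simp [h]
  · intro z hz
    have hz' : z ∈ ⋃ x ∈ t, Metric.ball x δ := htc (by simpa using hz)
    simp only [Set.mem_iUnion] at hz'
    obtain ⟨x, hx, hzx⟩ := hz'
    have hxT : x ∈ T := htf.mem_toFinset.2 hx
    refine ⟨(T.equivFin ⟨x, hxT⟩ : ℕ), (T.equivFin ⟨x, hxT⟩).2, ?_⟩
    have : (T.equivFin ⟨x, hxT⟩ : ℕ) < T.card := (T.equivFin ⟨x, hxT⟩).2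
    simp only [this, dif_pos]
    simpa [dist_eq_norm] using hzx

/-- the bump -/
noncomputable def DEC_f (ε : ℝ) (lam : ℕ → ℂ) (j : ℕ) (z : ℂ) : ℝ := max 0 (ε - ‖z - lam j‖)

theorem DEC_f_cont (ε : ℝ) (lam : ℕ → ℂ) (j : ℕ) : Continuous (DEC_f ε lam j) := by
  unfold DEC_f; fun_prop

noncomputable def DEC_F (ε : ℝ) (lam : ℕ → ℂ) (n j : ℕ) (z : ℂ) : ℝ :=
  fN n (DEC_f ε lam j z * DEC_f ε lam j z)

theorem DEC_F_cont (ε : ℝ) (lam : ℕ → ℂ) (n j : ℕ) : Continuous (DEC_F ε lam n j) := by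
  unfold DEC_F
  have h1 := fN_cont n
  have h2 := DEC_f_cont ε lam j
  exact h1.comp (h2.mul h2)

theorem DEC_F_nonneg (ε : ℝ) (lam : ℕ → ℂ) (n j : ℕ) (z : ℂ) : 0 ≤ DEC_F ε lam n j z :=
  fN_nonneg n (mul_self_nonneg _)

theorem DEC_F_le (ε : ℝ) (lam : ℕ → ℂ) (n j : ℕ) (z : ℂ) : DEC_F ε lam n j z ≤ 1 :=
  fN_le_one n (mul_self_nonneg _)

noncomputable def DEC_R (ε : ℝ) (lam : ℕ → ℂ) (n : ℕ) : ℕ → ℂ → ℝ
  | 0, _ => 1
  | j + 1, z => DEC_R ε lam n j z * (1 - DEC_F ε lam n j z)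

theorem DEC_R_cont (ε : ℝ) (lam : ℕ → ℂ) (n j : ℕ) : Continuous (DEC_R ε lam n j) := by
  induction j with
  | zero => exact continuous_const
  | succ j ih => exact ih.mul (continuous_const.sub (DEC_F_cont ε lam n j))

theorem DEC_R_mem (ε : ℝ) (lam : ℕ → ℂ) (n j : ℕ) (z : ℂ) :
    0 ≤ DEC_R ε lam n j z ∧ DEC_R ε lam n j z ≤ 1 := by
  induction j with
  | zero => simp [DEC_R]
  | succ j ih =>
    have h1 := DEC_F_nonneg ε lam n j z
    have h2 := DEC_F_le ε lam n j z
    have e : DEC_R ε lam n (j + 1) z = DEC_R ε lam n j z * (1 - DEC_F ε lam n j z) := rfl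
    rw [e]
    constructor
    · exact mul_nonneg ih.1 (by linarith)
    · nlinarith [ih.1, ih.2, mul_nonneg ih.1 h1]

noncomputable def DEC_Psi (ε : ℝ) (lam : ℕ → ℂ) (j n : ℕ) (z : ℂ) : ℂ :=
  ((DEC_F ε lam n j z : ℝ) : ℂ) * ((DEC_R ε lam n j z : ℝ) : ℂ)

section

variable {M : Type u} [CStarAlgebra M]

theorem DEC_cont {f : ℂ → ℝ} (hf : Continuous f) (s : Set ℂ) :
    ContinuousOn (fun z : ℂ => ((f z : ℝ) : ℂ)) s :=
  (Complex.continuous_ofReal.comp hf).continuousOn

/-- partial products -/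
def DEC_Q (s : ℕ → M) : ℕ → M
  | 0 => 1
  | j + 1 => DEC_Q s j * (1 - s j)

theorem DEC_Q_succ (s : ℕ → M) (j : ℕ) : DEC_Q s (j + 1) = DEC_Q s j * (1 - s j) := rfl

variable {s : ℕ → M}

theorem DEC_Q_comm {y : M} (hy : ∀ j, y * s j = s j * y) (j : ℕ) : y * DEC_Q s j = DEC_Q s j * y := by
  induction j with
  | zero => simp [DEC_Q]
  | succ j ih =>
    rw [DEC_Q_succ, ← mul_assoc, ih, mul_assoc, mul_assoc]
    congr 1
    rw [mul_sub, sub_mul, hy j, mul_one, one_mul]

theorem DEC_proj_mul {e f : M} (he : IsProj e) (hf : IsProj f) (h : e * f = f * e) : IsProj (e * f) := by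
  constructor
  · calc e * f * (e * f) = e * (f * e) * f := by noncomm_ring
      _ = e * (e * f) * f := by rw [h]
      _ = (e * e) * (f * f) := by noncomm_ring
      _ = _ := by rw [he.mul, hf.mul]
  · rw [star_mul, he.star, hf.star, h]

theorem DEC_compl {e : M} (he : IsProj e) : IsProj (1 - e) := by
  constructor
  · have := he.mul
    calc (1 - e) * (1 - e) = 1 - e - e + e * e := by noncomm_ring
      _ = 1 - e := by rw [this]; abel
  · rw [star_sub, star_one, he.star]

variable (hs : ∀ j, IsProj (s j)) (hc : ∀ i j, s i * s j = s j * s i)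

include hc in
theorem DEC_Qs_comm (i j : ℕ) : s i * DEC_Q s j = DEC_Q s j * s i := DEC_Q_comm (fun k => hc i k) j

include hs hc in
theorem DEC_Q_proj (j : ℕ) : IsProj (DEC_Q s j) := by
  induction j with
  | zero => exact ⟨by simp [DEC_Q], by simp [DEC_Q]⟩
  | succ j ih =>
    rw [DEC_Q_succ]
    refine DEC_proj_mul ih (DEC_compl (hs j)) ?_
    rw [mul_sub, sub_mul, DEC_Qs_comm hc j j, mul_one, one_mul]

include hs hc in
theorem DEC_sQ_zero {i j : ℕ} (h : i < j) : s i * DEC_Q s j = 0 := by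
  induction j with
  | zero => omega
  | succ j ih =>
    rcases Nat.lt_succ_iff_lt_or_eq.1 h with h | h
    · rw [DEC_Q_succ, ← mul_assoc, ih h, zero_mul]
    · subst h
      rw [DEC_Q_succ, ← mul_assoc, DEC_Qs_comm hc, mul_assoc, mul_sub, (hs i).mul, mul_one, sub_self,
        mul_zero]

theorem DEC_sum_eq (hc' : ∀ i j, s i * DEC_Q s j = DEC_Q s j * s i) (J : ℕ) :
    ∑ j ∈ Finset.range J, s j * DEC_Q s j = 1 - DEC_Q s J := by
  induction J with
  | zero => simp [DEC_Q]
  | succ J ih =>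
    rw [Finset.sum_range_succ, ih, DEC_Q_succ, hc' J J, mul_sub, mul_one]
    abel

end

theorem p_DEC (hSUP : Stmt_SUP.{u}) (hNMX : Stmt_NMX.{u}) : Stmt_DEC.{u} := by
  intro ε hε
  obtain ⟨J, lam, hlam, hnet⟩ := DEC_net (ε / 2) (by linarith)
  refine ⟨J, fun j => lam j, fun j n => DEC_Psi ε lam j n, fun j => hlam j, ?_, ?_⟩
  · intro j n
    exact (Complex.continuous_ofReal.comp (DEC_F_cont ε lam n j)).mul
      (Complex.continuous_ofReal.comp (DEC_R_cont ε lam n j))
  intro M _ _ v hv hv'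
  have hnorm : IsStarNormal v := ⟨by rw [Commute, SemiconjBy, hv, hv']⟩
  have hunit : v ∈ unitary M := by rw [Unitary.mem_iff]; exact ⟨hv, hv'⟩
  have hspec : ∀ z ∈ spectrum ℂ v, ‖z‖ = 1 := fun z hz => by
    simpa using spectrum.subset_circle_of_unitary hunit hz
  choose s hsP hsf hsT using fun j : ℕ => hSUP M v hv hv' (DEC_f ε lam j) (DEC_f_cont ε lam j)
  change ∀ j, T2 atTop (fun n => cfc (fun z => ((DEC_F ε lam n j z : ℝ) : ℂ)) v) (s j) at hsT
  -- commutation
  have hco : ∀ y, v * y = y * v → star v * y = y * star v → ∀ j, y * s j = s j * y := by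
    intro y hy hy' j
    have h1 : Co {y} (s j) := by
      refine Co.of_T2 (fun n => ?_) (hsT j)
      intro t ht
      rw [Set.mem_singleton_iff] at ht
      subst ht
      exact ((Commute.cfc (show Commute v t from hy) (show Commute (star v) t from hy') _).eq).symm
    exact h1 y rfl
  have hvs : ∀ j, v * s j = s j * v := hco v rfl (by rw [hv, hv'])
  have hvs' : ∀ j, star v * s j = s j * star v := hco (star v) (by rw [hv, hv']) rfl
  have hc : ∀ i j, s i * s j = s j * s i := fun i j => hco (s i) (hvs i) (hvs' i) j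
  have hQP := DEC_Q_proj hsP hc
  have hcQ := DEC_Qs_comm hc
  have hpP : ∀ j, IsProj (s j * DEC_Q s j) := fun j => DEC_proj_mul (hsP j) (hQP j) (hcQ j j)
  -- norms of the approximations
  have hFn : ∀ n j, ‖cfc (fun z => ((DEC_F ε lam n j z : ℝ) : ℂ)) v‖ ≤ 1 := fun n j => by
    refine norm_cfc_le zero_le_one fun z _ => ?_
    rw [Complex.norm_real, Real.norm_eq_abs, abs_of_nonneg (DEC_F_nonneg ε lam n j z)]
    exact DEC_F_le ε lam n j z
  have hRn : ∀ n j, ‖cfc (fun z => ((DEC_R ε lam n j z : ℝ) : ℂ)) v‖ ≤ 1 := fun n j => by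
    refine norm_cfc_le zero_le_one fun z _ => ?_
    rw [Complex.norm_real, Real.norm_eq_abs, abs_of_nonneg (DEC_R_mem ε lam n j z).1]
    exact (DEC_R_mem ε lam n j z).2
  -- convergence of the partial products
  have hQT : ∀ j, T2 atTop (fun n => cfc (fun z => ((DEC_R ε lam n j z : ℝ) : ℂ)) v) (DEC_Q s j) := by
    intro j
    induction j with
    | zero =>
      have e : ∀ n, cfc (fun z => ((DEC_R ε lam n 0 z : ℝ) : ℂ)) v = 1 := fun n => by
        have : (fun z => ((DEC_R ε lam n 0 z : ℝ) : ℂ)) = fun _ => (1 : ℂ) := by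
          funext z; simp [DEC_R]
        rw [this, cfc_const_one ℂ v]
      simp only [e]
      exact T2.const 1
    | succ j ih =>
      have e : ∀ n, cfc (fun z => ((DEC_R ε lam n (j + 1) z : ℝ) : ℂ)) v =
          cfc (fun z => ((DEC_R ε lam n j z : ℝ) : ℂ)) v *
            (1 - cfc (fun z => ((DEC_F ε lam n j z : ℝ) : ℂ)) v) := fun n => by
        have : (fun z => ((DEC_R ε lam n (j + 1) z : ℝ) : ℂ)) =
            fun z => ((DEC_R ε lam n j z : ℝ) : ℂ) * ((1 : ℂ) - ((DEC_F ε lam n j z : ℝ) : ℂ)) := by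
          funext z
          have : DEC_R ε lam n (j + 1) z = DEC_R ε lam n j z * (1 - DEC_F ε lam n j z) := rfl
          rw [this]; push_cast; ring
        have hc1 : ContinuousOn (fun z : ℂ => (1 : ℂ) - ((DEC_F ε lam n j z : ℝ) : ℂ)) (spectrum ℂ v) :=
          continuousOn_const.sub (DEC_cont (DEC_F_cont ε lam n j) _)
        rw [this, cfc_mul (fun z => ((DEC_R ε lam n j z : ℝ) : ℂ))
          (fun z : ℂ => (1 : ℂ) - ((DEC_F ε lam n j z : ℝ) : ℂ)) v (DEC_cont (DEC_R_cont ε lam n j) _) hc1,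
          cfc_sub (a := v) (fun _ => (1 : ℂ)) _ continuousOn_const (DEC_cont (DEC_F_cont ε lam n j) _),
          cfc_const_one ℂ v]
      simp only [e]
      exact T2.mul (fun n => hRn n j) ih ((T2.const 1).sub (hsT j))
  refine ⟨fun j => s j * DEC_Q s j, ?_, ?_⟩
  swap
  · intro j
    have e : ∀ n, cfc (DEC_Psi ε lam j n) v = cfc (fun z => ((DEC_F ε lam n j z : ℝ) : ℂ)) v *
        cfc (fun z => ((DEC_R ε lam n j z : ℝ) : ℂ)) v := fun n => by
      rw [← cfc_mul _ _ v (DEC_cont (DEC_F_cont ε lam n j) _) (DEC_cont (DEC_R_cont ε lam n j) _)]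
      rfl
    simp only [e]
    exact T2.mul (fun n => hFn n j) (hsT j) (hQT j)
  -- the last partial product vanishes
  have hQJ : DEC_Q s J = 0 := by
    have h1 : ∀ j ∈ Finset.range J, cfc (fun z => ((DEC_f ε lam j z : ℝ) : ℂ)) v * DEC_Q s J = 0 := by
      intro j hj
      rw [← hsf j, mul_assoc, DEC_sQ_zero hsP hc (Finset.mem_range.1 hj), mul_zero]
    have h2 : (∑ j ∈ Finset.range J, cfc (fun z => ((DEC_f ε lam j z : ℝ) : ℂ)) v) * DEC_Q s J = 0 := by
      rw [Finset.sum_mul]; exact Finset.sum_eq_zero h1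
    let G : ℂ → ℝ := fun z => ∑ j ∈ Finset.range J, DEC_f ε lam j z
    have hG : Continuous G := continuous_finsetSum _ fun j _ => DEC_f_cont ε lam j
    have h3 : ∑ j ∈ Finset.range J, cfc (fun z => ((DEC_f ε lam j z : ℝ) : ℂ)) v =
        cfc (fun z => ((G z : ℝ) : ℂ)) v := by
      rw [← cfc_sum (fun j z => ((DEC_f ε lam j z : ℝ) : ℂ)) v (Finset.range J)
        (fun j _ => DEC_cont (DEC_f_cont ε lam j) _)]
      congr 1
      funext z
      simp [G]
    have hGpos : ∀ z : ℂ, ‖z‖ = 1 → ε / 2 ≤ G z := by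
      intro z hz
      obtain ⟨j, hj, hjz⟩ := hnet z hz
      have h4 : ε / 2 ≤ DEC_f ε lam j z := by
        refine le_trans ?_ (le_max_right _ _)
        linarith
      refine h4.trans ?_
      exact Finset.single_le_sum (f := fun j => DEC_f ε lam j z) (fun i _ => le_max_left _ _)
        (Finset.mem_range.2 hj)
    let H : ℂ → ℝ := fun z => (max (ε / 2) (G z))⁻¹
    have hH : Continuous H := by
      refine Continuous.inv₀ (continuous_const.max hG) fun z => ?_
      exact (lt_of_lt_of_le (by linarith : 0 < ε / 2) (le_max_left _ _)).ne'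
    have h5 : cfc (fun z => ((H z : ℝ) : ℂ)) v * cfc (fun z => ((G z : ℝ) : ℂ)) v = 1 := by
      rw [← cfc_mul _ _ v (DEC_cont hH _) (DEC_cont hG _), ← cfc_const_one ℂ v]
      refine cfc_congr fun z hz => ?_
      have h6 := hGpos z (hspec z hz)
      show ((H z : ℝ) : ℂ) * ((G z : ℝ) : ℂ) = 1
      rw [← Complex.ofReal_mul]
      have : H z * G z = 1 := by
        show (max (ε / 2) (G z))⁻¹ * G z = 1
        rw [max_eq_right h6]
        exact inv_mul_cancel₀ (by linarith)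
      rw [this, Complex.ofReal_one]
    calc DEC_Q s J = 1 * DEC_Q s J := (one_mul _).symm
      _ = cfc (fun z => ((H z : ℝ) : ℂ)) v * (cfc (fun z => ((G z : ℝ) : ℂ)) v * DEC_Q s J) := by
          rw [← h5, mul_assoc]
      _ = 0 := by rw [← h3, h2, mul_zero]
  have hsum : ∑ j : Fin J, s j * DEC_Q s j = 1 := by
    rw [Fin.sum_univ_eq_sum_range (fun j => s j * DEC_Q s j) J, DEC_sum_eq hcQ J, hQJ, sub_zero]
  have hlt : ∀ i j : ℕ, i < j → s i * DEC_Q s i * (s j * DEC_Q s j) = 0 := by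
    intro i j hij
    calc s i * DEC_Q s i * (s j * DEC_Q s j) = DEC_Q s i * s i * (DEC_Q s j * s j) := by
          rw [hcQ i i, hcQ j j]
      _ = DEC_Q s i * (s i * DEC_Q s j) * s j := by noncomm_ring
      _ = 0 := by rw [DEC_sQ_zero hsP hc hij, mul_zero, zero_mul]
  have horth : ∀ i j : Fin J, i ≠ j → s i * DEC_Q s i * (s j * DEC_Q s j) = 0 := by
    intro i j hij
    rcases lt_or_gt_of_ne (fun h => hij (Fin.ext h) : (i : ℕ) ≠ j) with h | h
    · exact hlt i j h
    · have h1 := hlt j i h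
      have h2 := congrArg star h1
      rw [star_mul, (hpP i).star, (hpP j).star, star_zero] at h2
      exact h2
  have hcomm : ∀ y, v * y = y * v → star v * y = y * star v → ∀ j : ℕ,
      y * (s j * DEC_Q s j) = s j * DEC_Q s j * y := by
    intro y hy hy' j
    rw [← mul_assoc, hco y hy hy' j, mul_assoc, DEC_Q_comm (hco y hy hy') j, mul_assoc]
  refine ⟨fun j => hpP j, horth, hsum, fun y hy hy' j => hcomm y hy hy' j, ?_⟩
  -- the norm
  have hvc := hcomm v rfl (by rw [hv, hv'])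
  have hnear : ∀ j : ℕ, ‖(v - lam j • (1 : M)) * s j‖ ≤ ε := by
    intro j
    have h1 : T2 atTop (fun n => (v - lam j • (1 : M)) * cfc (fun z => ((DEC_F ε lam n j z : ℝ) : ℂ)) v)
        ((v - lam j • (1 : M)) * s j) := (hsT j).const_mul _
    refine norm_le_of_T2 (fun n => ?_) h1
    have e : (v - lam j • (1 : M)) = cfc (fun z => z - lam j) v := by
      rw [cfc_sub (a := v) (fun z => z) (fun _ => lam j) continuousOn_id continuousOn_const,
        cfc_id' ℂ v, cfc_const (lam j) v, Algebra.algebraMap_eq_smul_one]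
    have hc2 : ContinuousOn (fun z : ℂ => z - lam j) (spectrum ℂ v) := continuousOn_id.sub continuousOn_const
    rw [e, ← cfc_mul (fun z : ℂ => z - lam j) _ v hc2 (DEC_cont (DEC_F_cont ε lam n j) _)]
    refine norm_cfc_le hε.le fun z _ => ?_
    rw [norm_mul, Complex.norm_real, Real.norm_eq_abs, abs_of_nonneg (DEC_F_nonneg ε lam n j z)]
    rcases le_total ‖z - lam j‖ ε with h | h
    · have h2 := DEC_F_le ε lam n j z
      have h3 := DEC_F_nonneg ε lam n j z
      nlinarith [norm_nonneg (z - lam j)]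
    · have h2 : DEC_F ε lam n j z = 0 := by
        have h3 : DEC_f ε lam j z = 0 := max_eq_left (by linarith)
        unfold DEC_F
        rw [h3, mul_zero, fN]
        ring
      rw [h2, mul_zero]; exact hε.le
  have hx : ∀ j : Fin J, ‖(v - lam j • (1 : M)) * (s j * DEC_Q s j)‖ ≤ ε := by
    intro j
    rw [← mul_assoc]
    calc ‖(v - lam j • (1 : M)) * s j * DEC_Q s j‖ ≤ ‖(v - lam j • (1 : M)) * s j‖ * ‖DEC_Q s j‖ :=
          norm_mul_le _ _
      _ ≤ ε * 1 := mul_le_mul (hnear j) (hQP j).norm_le (norm_nonneg _) hε.le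
      _ = ε := mul_one _
  have hcom2 : ∀ j : Fin J, (v - lam j • (1 : M)) * (s j * DEC_Q s j) =
      (s j * DEC_Q s j) * (v - lam j • (1 : M)) := by
    intro j
    rw [sub_mul, mul_sub, hvc j, smul_mul_assoc, mul_smul_comm, one_mul, mul_one]
  have hfin := hNMX M J (fun j => s j * DEC_Q s j) (fun j => (v - lam j • (1 : M)) * (s j * DEC_Q s j))
    (fun j => hpP j) horth (fun j => by
      show s j * DEC_Q s j * ((v - lam j • (1 : M)) * (s j * DEC_Q s j)) = _
      rw [hcom2 j, ← mul_assoc, (hpP j).mul])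
    (fun j => by
      show (v - lam j • (1 : M)) * (s j * DEC_Q s j) * (s j * DEC_Q s j) = _
      rw [mul_assoc, (hpP j).mul]) ε hε.le hx
  have e : v - ∑ j : Fin J, lam j • (s j * DEC_Q s j) =
      ∑ j : Fin J, (v - lam j • (1 : M)) * (s j * DEC_Q s j) := by
    have : ∀ j : Fin J, (v - lam j • (1 : M)) * (s j * DEC_Q s j) =
        v * (s j * DEC_Q s j) - lam j • (s j * DEC_Q s j) := fun j => by
      rw [sub_mul, smul_mul_assoc, one_mul]
    simp only [this]
    rw [Finset.sum_sub_distrib, ← Finset.mul_sum, hsum, mul_one]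
  rw [e]
  exact hfin

end ND

end SCO
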