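import Pool.Agent.Work.MP_52dd0f_nd.Interface

/-! Block DEN of THEOREM ND (helper24). -/

set_option autoImplicit false
set_option linter.unusedSectionVars false

namespace SCO

open Filter Topology

universe u

namespace ND

theorem p_DEN (hEXA : Stmt_EXA.{u}) (hALL : Stmt_ALL.{u}) (hOFF : Stmt_OFF.{u}) :
    Stmt_DEN.{u} := by
  intro Q _ _ _ c hc u hu hsp g hg1 hg2 ε hε
  obtain ⟨h, hh, hn⟩ := hEXA Q g hg1 hg2 (ε / 2) (half_pos hε)
  obtain ⟨h1, h2, h3⟩ := hOFF Q c hc u hu hsp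
  have h4 := hALL Q c hc _ h1 h2 h3 h hh
  have h5 := h4.2 1
  rw [Complex.ofReal_one, one_mul] at h5
  obtain ⟨γ, hγ, hd⟩ := Metric.mem_closure_iff.1 h5 (ε / 2) (half_pos hε)
  refine ⟨γ, hγ, ?_⟩
  rw [dist_eq_norm] at hd
  have e : γ - g = -(NormedSpace.exp (Complex.I • h) - γ) - (g - NormedSpace.exp (Complex.I • h)) := by
    abel
  rw [e]
  calc ‖-(NormedSpace.exp (Complex.I • h) - γ) - (g - NormedSpace.exp (Complex.I • h))‖
      ≤ ‖-(NormedSpace.exp (Complex.I • h) - γ)‖ + ‖g - NormedSpace.exp (Complex.I • h)‖ :=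
        norm_sub_le _ _
    _ < ε / 2 + ε / 2 := by
        rw [norm_neg]
        exact add_lt_add_of_lt_of_le hd hn
    _ = ε := add_halves ε

end ND

end SCO
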