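import Pool.Agent.Work.MP_52dd0f_nd.Interface

/-!
# THEOREM ND, block DPX
-/

set_option autoImplicit false
set_option linter.unusedSectionVars false

namespace SCO

open Filter Topology

universe u

namespace ND

section

variable {Q : Type u} [CStarAlgebra Q]

/-- the diagonal element with both entries `x` -/
def DPX_dp (c : Fin 2 → Fin 2 → Q) (x : Q) : Q := x + c 1 0 * x * c 0 1

theorem DPX_add (c : Fin 2 → Fin 2 → Q) (x y : Q) :
    DPX_dp c (x + y) = DPX_dp c x + DPX_dp c y := by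
  unfold DPX_dp
  rw [mul_add, add_mul]
  abel

theorem DPX_smul (c : Fin 2 → Fin 2 → Q) (t : ℂ) (x : Q) :
    DPX_dp c (t • x) = t • DPX_dp c x := by
  unfold DPX_dp
  rw [smul_add, mul_smul_comm, smul_mul_assoc]

theorem DPX_cont (c : Fin 2 → Fin 2 → Q) : Continuous (DPX_dp c) := by
  unfold DPX_dp
  fun_prop

theorem DPX_one {c : Fin 2 → Fin 2 → Q} (hc : MU 1 c) : DPX_dp c (c 0 0) = 1 := by
  have h1 : c 1 0 * c 0 0 = c 1 0 := by
    have := hc.mul 1 0 0 0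
    rwa [if_pos rfl] at this
  have h2 : c 1 0 * c 0 1 = c 1 1 := by
    have := hc.mul 1 0 0 1
    rwa [if_pos rfl] at this
  have h3 := hc.sum
  rw [Fin.sum_univ_two] at h3
  unfold DPX_dp
  rw [h1, h2, h3]

/-- a closed set contains the limits -/
theorem DPX_lim {T : Set Q} (hT : IsClosed T) (x : Q)
    (h : ∀ ε : ℝ, 0 < ε → ∃ y ∈ T, ‖x - y‖ ≤ ε) : x ∈ T := by
  rw [← hT.closure_eq, Metric.mem_closure_iff]
  intro ε hε
  obtain ⟨y, hy, hxy⟩ := h (ε / 2) (by linarith)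
  exact ⟨y, hy, by rw [dist_eq_norm]; linarith⟩

end

theorem p_DPX (hLIA : Stmt_LIA.{u}) (hLIB : Stmt_LIB.{u}) (hAVG : Stmt_AVG.{u})
    (hSAD : Stmt_SAD.{u}) (hIDN : Stmt_IDN.{u}) : Stmt_DPX.{u} := by
  intro Q _ _ _ c hc G hG h1 hoff x hx hxl hxr
  obtain ⟨h0, hadd, hsm, hcl⟩ := hLIA Q G hG
  have hbr := (hLIB Q G hG).2
  have hid := (hIDN Q c hc).2.1
  set T : Set Q := {y | DPX_dp c y ∈ Hc G} with hT
  have hTc : IsClosed T := hcl.preimage (DPX_cont c)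
  have hTadd : ∀ a b, a ∈ T → b ∈ T → a + b ∈ T := by
    intro a b ha hb
    show DPX_dp c (a + b) ∈ Hc G
    rw [DPX_add]
    exact hadd _ ha _ hb
  have hTsm : ∀ a, a ∈ T → ∀ t : ℝ, (t : ℂ) • a ∈ T := by
    intro a ha t
    show DPX_dp c ((t : ℂ) • a) ∈ Hc G
    rw [DPX_smul]
    exact hsm _ ha t
  have hT0 : (0 : Q) ∈ T := by
    show DPX_dp c 0 ∈ Hc G
    have : DPX_dp c 0 = 0 := by simp [DPX_dp]
    rw [this]
    exact h0
  have hTe : c 0 0 ∈ T := by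
    show DPX_dp c (c 0 0) ∈ Hc G
    rw [DPX_one hc]
    exact h1
  have hTb : ∀ a b, IsSelfAdjoint a → c 0 0 * a = a → a * c 0 0 = a → IsSelfAdjoint b →
      c 0 0 * b = b → b * c 0 0 = b → Complex.I • (a * b - b * a) ∈ T := by
    intro a b ha ha1 ha2 hb hb1 hb2
    show DPX_dp c (Complex.I • (a * b - b * a)) ∈ Hc G
    have h2 := hid a b ha hb ha1 ha2 hb1 hb2
    unfold DPX_dp
    rw [← h2]
    exact hbr _ (hoff a ha1 ha2) _ (hoff b hb1 hb2)
  have he : IsProj (c 0 0) := by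
    have e1 : c 0 0 * c 0 0 = c 0 0 := by
      have := hc.mul 0 0 0 0
      rwa [if_pos rfl] at this
    have e2 : star (c 0 0) = c 0 0 := hc.star 0 0
    exact ⟨e1, e2⟩
  have hTp : ∀ p, IsProj p → p * c 0 0 = p → p ∈ T := by
    intro p hp hpe
    refine DPX_lim hTc p fun ε hε => ?_
    obtain ⟨t, J, a, b, hab, hn⟩ := hAVG Q (c 0 0) p he hp hpe ε hε
    refine ⟨(t : ℂ) • c 0 0 + ∑ j, Complex.I • (a j * b j - b j * a j), ?_, ?_⟩
    · refine hTadd _ _ (hTsm _ hTe t) ?_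
      refine Finset.sum_induction _ (fun y => y ∈ T) hTadd hT0 fun j _ => ?_
      obtain ⟨q1, q2, q3, q4, q5, q6⟩ := hab j
      exact hTb _ _ q1 q2 q3 q4 q5 q6
    · rw [← sub_sub]
      exact hn
  have hxT : x ∈ T := by
    refine DPX_lim hTc x fun ε hε => ?_
    have hpos : 0 < ‖c 0 0‖ + 1 := by positivity
    obtain ⟨J, θ, p, hp, hcomm, hn⟩ := hSAD Q x hx (ε / (‖c 0 0‖ + 1)) (by positivity)
    refine ⟨∑ j, ((θ j : ℝ) : ℂ) • (p j * c 0 0), ?_, ?_⟩
    · refine Finset.sum_induction _ (fun y => y ∈ T) hTadd hT0 fun j _ => ?_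
      refine hTsm _ (hTp _ ?_ ?_) (θ j)
      · have hc1 : c 0 0 * p j = p j * c 0 0 := hcomm j (c 0 0) (by rw [hxr, hxl])
        have e1 := he.1
        have e2 := he.2
        have p1 := (hp j).1
        have p2 := (hp j).2
        refine ⟨?_, ?_⟩
        · rw [mul_assoc, ← mul_assoc (c 0 0), hc1, mul_assoc (p j) (c 0 0), e1, ← mul_assoc, p1]
        · rw [star_mul, e2, p2, hc1]
      · rw [mul_assoc, he.1]
    · have e3 : x - ∑ j, ((θ j : ℝ) : ℂ) • (p j * c 0 0) =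
          (x - ∑ j, ((θ j : ℝ) : ℂ) • p j) * c 0 0 := by
        rw [sub_mul, hxr, Finset.sum_mul]
        congr 1
        refine Finset.sum_congr rfl fun j _ => ?_
        rw [smul_mul_assoc]
      rw [e3]
      calc ‖(x - ∑ j, ((θ j : ℝ) : ℂ) • p j) * c 0 0‖
          ≤ ‖x - ∑ j, ((θ j : ℝ) : ℂ) • p j‖ * ‖c 0 0‖ := norm_mul_le _ _
        _ ≤ ε / (‖c 0 0‖ + 1) * (‖c 0 0‖ + 1) := by
            refine mul_le_mul hn (by linarith) (norm_nonneg _) (by positivity)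
        _ = ε := by field_simp
  exact hxT

end ND

end SCO
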