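import Pool.Agent.Work.MP_52dd0f_nd.Interface

/-!
# Block EQA (helper74)
-/

set_option autoImplicit false
set_option linter.unusedSectionVars false

namespace SCO

open Filter Topology

universe u

namespace ND

section Alg

variable {P : Type u} [CStarAlgebra P] {n : ℕ}

/-- the element which conjugates `a` to `b` -/
noncomputable def EQA_y (a b : Fin (n + 1) → Fin (n + 1) → P) (z : P) : P := ∑ k, b k 0 * z * a 0 k

theorem EQA_star {a b : Fin (n + 1) → Fin (n + 1) → P} {r s : P} (ha : MU r a) (hb : MU s b) (z : P) :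
    star (EQA_y a b z) = EQA_y b a (star z) := by
  unfold EQA_y
  rw [star_sum]
  refine Finset.sum_congr rfl fun k _ => ?_
  rw [star_mul, star_mul, ha.star, hb.star, mul_assoc]

theorem EQA_mul {a b : Fin (n + 1) → Fin (n + 1) → P} {r : P} (ha : MU r a) (z : P)
    (i j : Fin (n + 1)) : EQA_y a b z * a i j = b i 0 * z * a 0 j := by
  unfold EQA_y
  rw [Finset.sum_mul, Finset.sum_eq_single i]
  · rw [mul_assoc, ha.mul, if_pos rfl]
  · intro k _ hk
    rw [mul_assoc, ha.mul, if_neg hk, mul_zero]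
  · intro h; exact absurd (Finset.mem_univ i) h

theorem EQA_mul' {a b : Fin (n + 1) → Fin (n + 1) → P} {s : P} (hb : MU s b) (z : P)
    (i j : Fin (n + 1)) : b i j * EQA_y a b z = b i 0 * z * a 0 j := by
  unfold EQA_y
  rw [Finset.mul_sum, Finset.sum_eq_single j]
  · rw [← mul_assoc, ← mul_assoc, hb.mul, if_pos rfl]
  · intro k _ hk
    rw [← mul_assoc, ← mul_assoc, hb.mul, if_neg (Ne.symm hk), zero_mul, zero_mul]
  · intro h; exact absurd (Finset.mem_univ j) h

theorem EQA_conj {a b : Fin (n + 1) → Fin (n + 1) → P} {r s : P} (ha : MU r a) (hb : MU s b) {z : P}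
    (hz : z * star z = b 0 0) (hza : z * a 0 0 = z) (i j : Fin (n + 1)) :
    EQA_y a b z * a i j * star (EQA_y a b z) = b i j := by
  rw [EQA_mul ha, EQA_star ha hb, mul_assoc, EQA_mul' ha]
  calc b i 0 * z * (a 0 0 * star z * b 0 j) = b i 0 * (z * a 0 0 * star z) * b 0 j := by
        simp only [mul_assoc]
    _ = b i 0 * b 0 0 * b 0 j := by rw [hza, hz]
    _ = b i j := by rw [hb.mul, if_pos rfl, hb.mul, if_pos rfl]

theorem EQA_cs {x y : P} (h1 : star x * x = 1) (h2 : x * star x = 1)
    (h : x * y = y * x) : star x * y = y * star x := by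
  calc star x * y = star x * y * (x * star x) := by rw [h2, mul_one]
    _ = star x * (y * x) * star x := by simp only [mul_assoc]
    _ = star x * (x * y) * star x := by rw [h]
    _ = (star x * x) * y * star x := by simp only [mul_assoc]
    _ = y * star x := by rw [h1, one_mul]

theorem EQA_one {a b : Fin (n + 1) → Fin (n + 1) → P} (ha : MU 1 a) (hb : MU 1 b) {z : P}
    (hz : z * star z = b 0 0) (hza : z * a 0 0 = z) :
    EQA_y a b z * star (EQA_y a b z) = 1 := by
  calc EQA_y a b z * star (EQA_y a b z) = EQA_y a b z * (∑ i, a i i) * star (EQA_y a b z) := by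
        rw [ha.sum, mul_one]
    _ = ∑ i, EQA_y a b z * a i i * star (EQA_y a b z) := by
        rw [Finset.mul_sum, Finset.sum_mul]
    _ = ∑ i, b i i := Finset.sum_congr rfl fun i _ => EQA_conj ha hb hz hza i i
    _ = 1 := hb.sum

end Alg

section Tr

variable {M : Type u} [CStarAlgebra M] [TVN M] {n : ℕ}

theorem EQA_proj {a : Fin (n + 1) → Fin (n + 1) → M} {r : M} (ha : MU r a) (i : Fin (n + 1)) :
    IsProj (a i i) := ⟨by rw [ha.mul, if_pos rfl], ha.star i i⟩

theorem EQA_pp {e f : M} (he : IsProj e) (hf : IsProj f) (h : e * f = f * e) : IsProj (e * f) := by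
  refine ⟨?_, by rw [star_mul, he.star, hf.star, h]⟩
  calc e * f * (e * f) = e * (f * e) * f := by simp only [mul_assoc]
    _ = e * e * (f * f) := by rw [← h]; simp only [mul_assoc]
    _ = e * f := by rw [he.mul, hf.mul]

theorem EQA_tau {a : Fin (n + 1) → Fin (n + 1) → M} (ha : MU 1 a) {p : M}
    (hp : ∀ i j, a i j * p = p * a i j) : ((n : ℝ) + 1) * tau (p * a 0 0) = tau p := by
  have h1 : ∀ i, tau (p * a i i) = tau (p * a 0 0) := by
    intro i
    calc tau (p * a i i) = tau (p * (a i 0 * a 0 i)) := by rw [ha.mul, if_pos rfl]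
      _ = tau (p * a i 0 * a 0 i) := by rw [mul_assoc]
      _ = tau (a 0 i * (p * a i 0)) := tau_mul_comm _ _
      _ = tau (p * (a 0 i * a i 0)) := by rw [← mul_assoc, hp, mul_assoc]
      _ = tau (p * a 0 0) := by rw [ha.mul, if_pos rfl]
  calc ((n : ℝ) + 1) * tau (p * a 0 0) = ∑ i : Fin (n + 1), tau (p * a i i) := by
        rw [Finset.sum_congr rfl fun i _ => h1 i, Finset.sum_const, Finset.card_univ,
          Fintype.card_fin, nsmul_eq_mul]
        push_cast
        ring
    _ = tau (∑ i, p * a i i) := (tau_sum _ _).symm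
    _ = tau p := by rw [← Finset.mul_sum, ha.sum, mul_one]

end Tr

theorem p_EQA (hDEC : Stmt_DEC.{u}) : Stmt_EQA.{u} := by
  intro M _ _ _ u hu1 hu2 n a b ha hb hca hcb ε hε
  obtain ⟨J, lam, Ψ, hlam, hΨ, hD⟩ := hDEC (ε / 2) (by linarith)
  obtain ⟨p, hp, -⟩ := hD M u hu1 hu2
  have hpa : ∀ l i j, a i j * p l = p l * a i j := fun l i j =>
    hp.comm (a i j) (hca i j) (EQA_cs hu1 hu2 (hca i j)) l
  have hpb : ∀ l i j, b i j * p l = p l * b i j := fun l i j =>
    hp.comm (b i j) (hcb i j) (EQA_cs hu1 hu2 (hcb i j)) l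
  have hPP : ∀ l, IsProj (p l * a 0 0) := fun l =>
    EQA_pp (hp.proj l) (EQA_proj ha 0) (hpa l 0 0).symm
  have hQQ : ∀ l, IsProj (p l * b 0 0) := fun l =>
    EQA_pp (hp.proj l) (EQA_proj hb 0) (hpb l 0 0).symm
  have htau : ∀ l, tau (p l * a 0 0) = tau (p l * b 0 0) := by
    intro l
    have h1 := EQA_tau ha (hpa l)
    have h2 := EQA_tau hb (hpb l)
    have h3 : (0 : ℝ) < (n : ℝ) + 1 := by positivity
    have h4 : ((n : ℝ) + 1) * tau (p l * a 0 0) = ((n : ℝ) + 1) * tau (p l * b 0 0) := by
      rw [h1, h2]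
    exact mul_left_cancel₀ h3.ne' h4
  choose y hy1 hy2 using fun l => equiv_of_tau (hPP l) (hQQ l) (htau l)
  have hyP : ∀ l, y l * (p l * a 0 0) = y l := fun l => pi_mul_src (hPP l) (hy1 l)
  have hyQ : ∀ l, (p l * b 0 0) * y l = y l := fun l => pi_mul_rng (hPP l) (hy1 l) (hy2 l)
  have hsy : ∀ l, star (y l) * (p l * b 0 0) = star (y l) := by
    intro l
    have h := congrArg star (hyQ l)
    rwa [star_mul, (hQQ l).star] at h
  have hys : ∀ l, (p l * a 0 0) * star (y l) = star (y l) := by
    intro l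
    have h := congrArg star (hyP l)
    rwa [star_mul, (hPP l).star] at h
  have hQ0 : ∀ l m, l ≠ m → (p l * b 0 0) * (p m * b 0 0) = 0 := by
    intro l m hlm
    calc (p l * b 0 0) * (p m * b 0 0) = p l * (b 0 0 * p m) * b 0 0 := by simp only [mul_assoc]
      _ = (p l * p m) * (b 0 0 * b 0 0) := by rw [hpb m]; simp only [mul_assoc]
      _ = 0 := by rw [hp.orth l m hlm, zero_mul]
  have hP0 : ∀ l m, l ≠ m → (p l * a 0 0) * (p m * a 0 0) = 0 := by
    intro l m hlm
    calc (p l * a 0 0) * (p m * a 0 0) = p l * (a 0 0 * p m) * a 0 0 := by simp only [mul_assoc]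
      _ = (p l * p m) * (a 0 0 * a 0 0) := by rw [hpa m]; simp only [mul_assoc]
      _ = 0 := by rw [hp.orth l m hlm, zero_mul]
  set z : M := ∑ l, y l with hzdef
  have hzz : z * star z = b 0 0 := by
    rw [hzdef, star_sum, Finset.sum_mul]
    have h1 : ∀ l, y l * ∑ m, star (y m) = p l * b 0 0 := by
      intro l
      rw [Finset.mul_sum, Finset.sum_eq_single l]
      · exact hy2 l
      · intro m _ hm
        calc y l * star (y m) = y l * (p l * a 0 0) * ((p m * a 0 0) * star (y m)) := by
              rw [hyP, hys]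
          _ = y l * ((p l * a 0 0) * (p m * a 0 0)) * star (y m) := by simp only [mul_assoc]
          _ = 0 := by rw [hP0 l m (Ne.symm hm), mul_zero, zero_mul]
      · intro h; exact absurd (Finset.mem_univ l) h
    rw [Finset.sum_congr rfl fun l _ => h1 l, ← Finset.sum_mul, hp.sum, one_mul]
  have hzz' : star z * z = a 0 0 := by
    rw [hzdef, star_sum, Finset.sum_mul]
    have h1 : ∀ l, star (y l) * ∑ m, y m = p l * a 0 0 := by
      intro l
      rw [Finset.mul_sum, Finset.sum_eq_single l]
      · exact hy1 l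
      · intro m _ hm
        calc star (y l) * y m = star (y l) * (p l * b 0 0) * ((p m * b 0 0) * y m) := by
              rw [hsy, hyQ]
          _ = star (y l) * ((p l * b 0 0) * (p m * b 0 0)) * y m := by simp only [mul_assoc]
          _ = 0 := by rw [hQ0 l m (Ne.symm hm), mul_zero, zero_mul]
      · intro h; exact absurd (Finset.mem_univ l) h
    rw [Finset.sum_congr rfl fun l _ => h1 l, ← Finset.sum_mul, hp.sum, one_mul]
  have hza : z * a 0 0 = z := pi_mul_src (EQA_proj ha 0) hzz'
  have hzb : star z * b 0 0 = star z := by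
    have h := congrArg star (pi_mul_rng (EQA_proj ha 0) hzz' hzz)
    rwa [star_mul, (EQA_proj hb 0).star] at h
  have hpz : ∀ m, p m * z = z * p m := by
    intro m
    have h1 : p m * z = y m := by
      rw [hzdef, Finset.mul_sum, Finset.sum_eq_single m]
      · calc p m * y m = p m * (p m * b 0 0 * y m) := by rw [hyQ]
          _ = (p m * p m) * b 0 0 * y m := by simp only [mul_assoc]
          _ = y m := by rw [(hp.proj m).mul, hyQ]
      · intro l _ hl
        calc p m * y l = p m * (p l * b 0 0 * y l) := by rw [hyQ]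
          _ = (p m * p l) * b 0 0 * y l := by simp only [mul_assoc]
          _ = 0 := by rw [hp.orth m l (Ne.symm hl), zero_mul, zero_mul]
      · intro h; exact absurd (Finset.mem_univ m) h
    have h2 : z * p m = y m := by
      rw [hzdef, Finset.sum_mul, Finset.sum_eq_single m]
      · calc y m * p m = y m * (p m * a 0 0) * p m := by rw [hyP]
          _ = y m * (p m * (a 0 0 * p m)) := by simp only [mul_assoc]
          _ = y m * ((p m * p m) * a 0 0) := by rw [hpa m]; simp only [mul_assoc]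
          _ = y m := by rw [(hp.proj m).mul, hyP]
      · intro l _ hl
        calc y l * p m = y l * (p l * a 0 0) * p m := by rw [hyP]
          _ = y l * (p l * (a 0 0 * p m)) := by simp only [mul_assoc]
          _ = y l * ((p l * p m) * a 0 0) := by rw [hpa m]; simp only [mul_assoc]
          _ = 0 := by rw [hp.orth l m hl, zero_mul, mul_zero]
      · intro h; exact absurd (Finset.mem_univ m) h
    rw [h1, h2]
  have hY1 : EQA_y a b z * star (EQA_y a b z) = 1 := EQA_one ha hb hzz hza
  have hY2 : star (EQA_y a b z) * EQA_y a b z = 1 := by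
    have h := EQA_one hb ha (z := star z) (by rw [star_star]; exact hzz') hzb
    rwa [← EQA_star ha hb, star_star] at h
  have hpY : ∀ m, p m * EQA_y a b z = EQA_y a b z * p m := by
    intro m
    unfold EQA_y
    rw [Finset.mul_sum, Finset.sum_mul]
    refine Finset.sum_congr rfl fun k _ => ?_
    calc p m * (b k 0 * z * a 0 k) = (p m * b k 0) * z * a 0 k := by simp only [mul_assoc]
      _ = b k 0 * (p m * z) * a 0 k := by rw [← hpb m]; simp only [mul_assoc]
      _ = b k 0 * z * (p m * a 0 k) := by rw [hpz]; simp only [mul_assoc]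
      _ = b k 0 * z * a 0 k * p m := by rw [← hpa m]; simp only [mul_assoc]
  have hYn : ‖EQA_y a b z‖ ≤ 1 := norm_le_one_of_star_mul hY2
  refine ⟨EQA_y a b z, hY2, hY1, ?_, fun i j => EQA_conj ha hb hzz hza i j⟩
  set Y := EQA_y a b z
  set S : M := ∑ j, lam j • p j with hS
  have hSY : S * Y = Y * S := by
    rw [hS, Finset.sum_mul, Finset.mul_sum]
    refine Finset.sum_congr rfl fun j _ => ?_
    rw [smul_mul_assoc, mul_smul_comm, hpY]
  have hd : u * Y - Y * u = (u - S) * Y - Y * (u - S) := by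
    rw [sub_mul, mul_sub, hSY]; abel
  have hn := hp.near
  rw [hd]
  have h1 : ‖(u - S) * Y‖ ≤ ε / 2 := by
    calc ‖(u - S) * Y‖ ≤ ‖u - S‖ * ‖Y‖ := norm_mul_le _ _
      _ ≤ ε / 2 * 1 := mul_le_mul hn hYn (norm_nonneg _) (by linarith)
      _ = ε / 2 := mul_one _
  have h2 : ‖Y * (u - S)‖ ≤ ε / 2 := by
    calc ‖Y * (u - S)‖ ≤ ‖Y‖ * ‖u - S‖ := norm_mul_le _ _
      _ ≤ 1 * (ε / 2) := mul_le_mul hYn hn (norm_nonneg _) (by linarith)
      _ = ε / 2 := one_mul _
  calc ‖(u - S) * Y - Y * (u - S)‖ ≤ ‖(u - S) * Y‖ + ‖Y * (u - S)‖ := norm_sub_le _ _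
    _ ≤ ε := by linarith

end ND

end SCO
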