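import Pool.Agent.Work.MP_52dd0f_nd.Interface

/-! # Block EXA: unitaries are approximated by exponentials -/

set_option autoImplicit false
set_option linter.unusedSectionVars false

namespace SCO

open Filter Topology

universe u

namespace ND

section

variable {P : Type u} [CStarAlgebra P]

/-- the homomorphism of an orthogonal decomposition of the unit -/
noncomputable def EXA_hom {J : ℕ} (p : Fin J → P) (hp : ∀ j, IsProj (p j))
    (ho : ∀ i j, i ≠ j → p i * p j = 0) (hs : ∑ j, p j = 1) : (Fin J → ℂ) →ₐ[ℂ] P :=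
  AlgHom.ofLinearMap (Fintype.linearCombination ℂ p)
    (by
      rw [Fintype.linearCombination_apply, ← hs]
      exact Finset.sum_congr rfl fun j _ => one_smul _ _)
    (by
      intro x y
      rw [Fintype.linearCombination_apply, Fintype.linearCombination_apply,
        Fintype.linearCombination_apply, Finset.sum_mul]
      refine Finset.sum_congr rfl fun i _ => ?_
      rw [Finset.mul_sum, Finset.sum_eq_single i]
      · rw [smul_mul_smul_comm, (hp i).mul, Pi.mul_apply]
      · intro j _ hj
        rw [smul_mul_smul_comm, ho i j hj.symm, smul_zero]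
      · intro h
        exact absurd (Finset.mem_univ i) h)

theorem EXA_hom_apply {J : ℕ} (p : Fin J → P) (hp : ∀ j, IsProj (p j))
    (ho : ∀ i j, i ≠ j → p i * p j = 0) (hs : ∑ j, p j = 1) (x : Fin J → ℂ) :
    EXA_hom p hp ho hs x = ∑ j, x j • p j := by
  rw [EXA_hom, AlgHom.ofLinearMap_apply, Fintype.linearCombination_apply]

theorem EXA_exp {J : ℕ} (p : Fin J → P) (hp : ∀ j, IsProj (p j))
    (ho : ∀ i j, i ≠ j → p i * p j = 0) (hs : ∑ j, p j = 1) (x : Fin J → ℂ) :
    NormedSpace.exp (∑ j, x j • p j) = ∑ j, Complex.exp (x j) • p j := by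
  have hc : Continuous (EXA_hom p hp ho hs) := by
    have : (fun x => EXA_hom p hp ho hs x) = fun x => ∑ j, x j • p j :=
      funext fun x => EXA_hom_apply p hp ho hs x
    show Continuous (fun x => EXA_hom p hp ho hs x)
    rw [this]
    exact continuous_finsetSum _ fun j _ => (continuous_apply j).smul continuous_const
  let _ : Algebra ℚ P := Algebra.compHom P (algebraMap ℚ ℂ)
  have h1 := NormedSpace.map_exp (EXA_hom p hp ho hs) hc x
  rw [EXA_hom_apply, EXA_hom_apply] at h1
  rw [← h1]
  refine Finset.sum_congr rfl fun j _ => ?_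
  rw [Pi.coe_exp, Complex.exp_eq_exp_ℂ]

end

theorem p_EXA (hDEC : Stmt_DEC.{u}) : Stmt_EXA.{u} := by
  intro M _ _ v hv hv' ε hε
  obtain ⟨J, lam, Ψ, hl, -, h⟩ := hDEC ε hε
  obtain ⟨p, hp, -⟩ := h M v hv hv'
  refine ⟨∑ j, ((Complex.arg (lam j) : ℝ) : ℂ) • p j, ?_, ?_⟩
  · rw [IsSelfAdjoint, star_sum]
    refine Finset.sum_congr rfl fun j _ => ?_
    rw [star_smul, (hp.proj j).star, RCLike.star_def, Complex.conj_ofReal]
  · have h1 : Complex.I • ∑ j, ((Complex.arg (lam j) : ℝ) : ℂ) • p j =
        ∑ j, (Complex.I * ((Complex.arg (lam j) : ℝ) : ℂ)) • p j := by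
      rw [Finset.smul_sum]
      exact Finset.sum_congr rfl fun j _ => smul_smul _ _ _
    have h2 : ∀ j, Complex.exp (Complex.I * ((Complex.arg (lam j) : ℝ) : ℂ)) = lam j := by
      intro j
      have := Complex.norm_mul_exp_arg_mul_I (lam j)
      rw [hl j, Complex.ofReal_one, one_mul] at this
      rw [mul_comm, this]
    rw [h1, EXA_exp p hp.proj hp.orth hp.sum]
    simp only [h2]
    exact hp.near

end ND

end SCO
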