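import Pool.Agent.Work.MP_52dd0f_nd.Interface

set_option autoImplicit false
set_option linter.unusedSectionVars false

namespace SCO

open Filter Topology

universe u

namespace ND

theorem p_FAC (hAVU : Stmt_AVU.{u}) : Stmt_FAC.{u} := by
  intro M _ _ _ 𝒰 _
  refine ⟨?_, ?_⟩
  · intro z hz
    obtain ⟨x, -, rfl⟩ := exists_lift_UP 𝒰 z
    have hw : ∀ k, ∃ w : M, star w * w = 1 ∧ w * star w = 1 ∧
        n2 (x.ev k - (tr (x.ev k) : ℂ) • (1 : M)) ≤ 2 * n2 (w * x.ev k * star w - x.ev k) :=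
      fun k => hAVU M (x.ev k)
    choose w hw1 hw2 hw3 using hw
    set W : Sq M := Sq.mk w 1 (fun k => norm_le_one_of_star_mul (hw1 k)) with hW
    have hWev : ∀ k, W.ev k = w k := fun k => rfl
    have hWW : W * star W = 1 := by
      refine (BoundedContinuousFunction.ext fun k => ?_ : (show BoundedContinuousFunction ℕ M from W * star W) = (show BoundedContinuousFunction ℕ M from 1))
      exact hw2 k
    have h1 : toUP 𝒰 (W * x * star W - x) = 0 := by
      rw [map_sub, map_mul, map_mul, ← hz, mul_assoc, ← map_mul, hWW, map_one, mul_one, sub_self]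
    have h2 := tendsto_n2_toUP 𝒰 (W * x * star W - x)
    rw [h1, n2_zero] at h2
    have h3 : Tendsto (fun k => n2 (x.ev k - (tr (x.ev k) : ℂ) • (1 : M))) (𝒰 : Filter ℕ) (𝓝 0) := by
      have h4 := h2.const_mul 2
      rw [mul_zero] at h4
      exact squeeze_zero (fun _ => n2_nonneg _) (fun k => hw3 k) h4
    have h5 := tendsto_tr_toUP 𝒰 x
    have h6 : Tendsto (fun k => n2 ((tr (x.ev k) : ℂ) • (1 : M) - (tr (toUP 𝒰 x) : ℂ) • (1 : M))) (𝒰 : Filter ℕ)
        (𝓝 0) := by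
      have h7 := (tendsto_iff_norm_sub_tendsto_zero.1 h5)
      have h8 := h7.mul_const (n2 (1 : M))
      rw [zero_mul] at h8
      refine h8.congr fun k => ?_
      rw [← sub_smul, n2_smul]
    have h9 : Tendsto (fun k => n2 ((x - (tr (toUP 𝒰 x) : ℂ) • (1 : Sq M)).ev k)) (𝒰 : Filter ℕ) (𝓝 0) := by
      have h10 := h3.add h6
      rw [add_zero] at h10
      refine squeeze_zero (fun _ => n2_nonneg _) (fun k => ?_) h10
      rw [Sq.ev_sub, Sq.ev_smul, Sq.ev_one]
      have : x.ev k - (tr (toUP 𝒰 x) : ℂ) • (1 : M) = (x.ev k - (tr (x.ev k) : ℂ) • (1 : M)) +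
          ((tr (x.ev k) : ℂ) • (1 : M) - (tr (toUP 𝒰 x) : ℂ) • (1 : M)) := by abel
      rw [this]
      exact n2_add_le _ _
    have h11 := tendsto_n2_toUP 𝒰 (x - (tr (toUP 𝒰 x) : ℂ) • (1 : Sq M))
    have h12 := tendsto_nhds_unique h11 h9
    refine ⟨tr (toUP 𝒰 x), ?_⟩
    have h13 := n2_eq_zero.1 h12
    rw [map_sub, map_smul, map_one] at h13
    exact sub_eq_zero.1 h13
  · intro hfin
    apply FactorII.infinite (M := M)
    refine FiniteDimensional.of_injective (V₂ := UP M 𝒰) ((iU 𝒰 : M →⋆ₐ[ℂ] UP M 𝒰) : M →ₐ[ℂ] UP M 𝒰).toLinearMap ?_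
    intro a b hab
    have h1 : iU 𝒰 (a - b) = 0 := by
      rw [map_sub]; exact sub_eq_zero.2 hab
    have h2 := n2_iU 𝒰 (a - b)
    rw [h1, n2_zero] at h2
    exact sub_eq_zero.1 (n2_eq_zero.1 h2.symm)

end ND

end SCO
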