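import Pool.Agent.Work.MP_52dd0f_nd.Interface

/-!
# THEOREM ND, MP_52dd0f_an: block FIN
-/

set_option autoImplicit false
set_option linter.unusedSectionVars false

namespace SCO

open Filter Topology

universe u

namespace ND

section

variable {P : Type u} [CStarAlgebra P] [TVN P]

/-- two conjugates of a contraction by unitaries -/
theorem FIN_norm {a b U : P} (ha : star a * a = 1) (hb : star b * b = 1) (hU : ‖U‖ ≤ 1) :
    ‖a * U * star a - b * U * star b‖ ≤ 2 * ‖a - b‖ := by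
  have ha1 := norm_le_one_of_star_mul ha
  have hb1 := norm_le_one_of_star_mul hb
  have h1 : a * U * star a - b * U * star b = (a - b) * U * star a + b * U * star (a - b) := by
    rw [star_sub]
    noncomm_ring
  have h2 : ‖(a - b) * U * star a‖ ≤ ‖a - b‖ := by
    calc ‖(a - b) * U * star a‖ ≤ ‖a - b‖ * ‖U‖ * ‖star a‖ :=
          (norm_mul_le _ _).trans (mul_le_mul_of_nonneg_right (norm_mul_le _ _) (norm_nonneg _))
      _ ≤ ‖a - b‖ * 1 * 1 := by rw [norm_star]; gcongr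
      _ = ‖a - b‖ := by ring
  have h3 : ‖b * U * star (a - b)‖ ≤ ‖a - b‖ := by
    calc ‖b * U * star (a - b)‖ ≤ ‖b‖ * ‖U‖ * ‖star (a - b)‖ :=
          (norm_mul_le _ _).trans (mul_le_mul_of_nonneg_right (norm_mul_le _ _) (norm_nonneg _))
      _ ≤ 1 * 1 * ‖a - b‖ := by rw [norm_star (a - b)]; gcongr
      _ = ‖a - b‖ := by ring
  rw [h1]
  linarith [norm_add_le ((a - b) * U * star a) (b * U * star (a - b))]

theorem FIN_unit {h k : P} (hh2 : h * star h = 1) (hk1 : star k * k = 1) (hh1 : star h * h = 1)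
    (hk2 : k * star k = 1) :
    star (star h * k) * (star h * k) = 1 ∧ (star h * k) * star (star h * k) = 1 := by
  rw [star_mul, star_star]
  constructor
  · calc star k * h * (star h * k) = star k * (h * star h) * k := by noncomm_ring
      _ = 1 := by rw [hh2, mul_one, hk1]
  · calc star h * k * (star k * h) = star h * (k * star k) * h := by noncomm_ring
      _ = 1 := by rw [hk2, mul_one, hh1]

end

theorem p_FIN (hFAC : Stmt_FAC.{u}) (hSAA : Stmt_SAA.{u}) (hUNX : Stmt_UNX.{u})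
    (hAMP : Stmt_AMP.{u}) (hJNS : Stmt_JNS.{u}) (hDEN : Stmt_DEN.{u}) (hHSP : Stmt_HSP.{u}) :
    Stmt_FIN.{u} := by
  intro K L _ _ _ _ _ _ 𝒰 _ φ e m hφ hte hone u v hu hv ε hε
  have hQ : FactorII (UP K 𝒰) := hFAC K 𝒰
  obtain ⟨c, hc⟩ := hUNX (UP K 𝒰) 1 IsProj.one 1
  obtain ⟨hc0, -, -, -, -, -, -, -, hHaar⟩ := hAMP (UP K 𝒰) 1 c hc
  obtain ⟨h0, hh0⟩ := exists_halving (noMin_empty (M := UP K 𝒰))
  obtain ⟨x, -, hx, -⟩ := tree_limit hh0 (co_empty (c 0 0)) hc0
  have hU : HaarU (am (n := 1) c x) := (hHaar x (hx.mul_left hc0) (hx.mul_right hc0)).1 hx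
  obtain ⟨h, hh1, hh2, hh3⟩ := hSAA K 𝒰 (am (n := 1) c x) u hU hu
  obtain ⟨k, hk1, hk2, hk3⟩ := hSAA K 𝒰 (am (n := 1) c x) v hU hv
  obtain ⟨hs1, hs2⟩ := FIN_unit hh2 hk1 hh1 hk2
  obtain ⟨γ, hγ, hγn⟩ := hDEN (UP K 𝒰) c hc x hx (hHSP K L 𝒰 φ e m hφ hte hone c hc x hx)
    (star h * k) hs1 hs2 (ε / 3) (by positivity)
  refine ⟨h * (γ * am (n := 1) c x * star γ) * star h, ?_, (hU.conj hγ.src hγ.rng).conj hh1 hh2, ?_⟩
  · have h1 := (hJNS (UP K 𝒰) 1 IsProj.one).2.1 _ _ h 1 hh1 hh2 hγ.jn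
    rwa [hh3] at h1
  · have h2 : star (h * γ) * (h * γ) = 1 := by
      rw [star_mul]
      calc star γ * star h * (h * γ) = star γ * (star h * h) * γ := by noncomm_ring
        _ = 1 := by rw [hh1, mul_one, hγ.src]
    have h3 := FIN_norm (U := am (n := 1) c x) h2 hk1 hU.norm_le
    have h4 : h * (γ * am (n := 1) c x * star γ) * star h =
        h * γ * am (n := 1) c x * star (h * γ) := by
      rw [star_mul]
      noncomm_ring
    have h5 : h * γ - k = h * (γ - star h * k) := by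
      rw [mul_sub, ← mul_assoc, hh2, one_mul]
    have h6 : ‖h * γ - k‖ ≤ ε / 3 := by
      rw [h5]
      have h7 := norm_le_one_of_star_mul hh1
      calc ‖h * (γ - star h * k)‖ ≤ ‖h‖ * ‖γ - star h * k‖ := norm_mul_le _ _
        _ ≤ 1 * (ε / 3) := by gcongr
        _ = ε / 3 := one_mul _
    rw [h4, ← hk3]
    linarith

end ND

end SCO
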