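import Pool.Agent.Work.MP_52dd0f_nd.Interface

/-!
# Block FRM (MP_52dd0f_an, THEOREM ND): the form of the end of a chain (helper88)
-/

set_option autoImplicit false
set_option linter.unusedSectionVars false

namespace SCO

open Filter Topology

universe u

namespace ND

section

variable {P : Type u} [CStarAlgebra P]

theorem FRM_mul_mem {G : Set P} (hG : ∀ g ∈ G, ∀ h ∈ G, g * h ∈ G) {x y : P}
    (hx : x ∈ Submodule.span ℂ G) (hy : y ∈ Submodule.span ℂ G) :
    x * y ∈ Submodule.span ℂ G := by
  have h1 : x * y ∈ Submodule.span ℂ G * Submodule.span ℂ G := Submodule.mul_mem_mul hx hy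
  rw [Submodule.span_mul_span] at h1
  refine Submodule.span_mono ?_ h1
  rintro _ ⟨g, hg, h, hh, rfl⟩
  exact hG g hg h hh

theorem FRM_MU {n : ℕ} {a : Fin (n + 1) → Fin (n + 1) → P} (ha : MU 1 a) {S : P}
    (h1 : star S * S = 1) (h2 : S * star S = 1) : MU 1 fun i j => S * a i j * star S where
  mul := fun i j l m => by
    have e1 : S * a i j * star S * (S * a l m * star S) = S * (a i j * a l m) * star S := by
      calc S * a i j * star S * (S * a l m * star S)
          = S * a i j * (star S * S) * a l m * star S := by noncomm_ring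
        _ = S * (a i j * a l m) * star S := by rw [h1]; noncomm_ring
    rw [e1, ha.mul]
    split_ifs
    · rfl
    · rw [mul_zero, zero_mul]
  star := fun i j => by
    rw [star_mul, star_mul, star_star, ha.star, mul_assoc]
  sum := by
    rw [← Finset.sum_mul, ← Finset.mul_sum, ha.sum, mul_one, h2]

end

theorem p_FRM (hJNS : Stmt_JNS.{u}) (hCUS : Stmt_CUS.{u}) (hAMP : Stmt_AMP.{u}) :
    Stmt_FRM.{u} := by
  intro P _ _ hSat n a ha u W hu hJ
  obtain ⟨hE, -, ham1, hcomm, -, -, hinv, hcut, hhaar⟩ := hAMP P n a ha
  obtain ⟨jsym, -, jcomm, jmul, -, jtr⟩ := hJNS P (a 0 0) hE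
  have V_mul : ∀ x ∈ Submodule.span ℂ {g : P | Gp (a 0 0) u g},
      ∀ y ∈ Submodule.span ℂ {g : P | Gp (a 0 0) u g},
        x * y ∈ Submodule.span ℂ {g : P | Gp (a 0 0) u g} := fun x hx y hy =>
    FRM_mul_mem (fun g hg h hh => jmul u g h hu hg hh) hx hy
  have V_e : a 0 0 ∈ Submodule.span ℂ {g : P | Gp (a 0 0) u g} := by
    refine Submodule.subset_span ?_
    refine jcomm u (a 0 0) hu (by rw [hE.star, hE.mul]) (by rw [hE.star, hE.mul]) ?_
    rw [hu.mul_left hE, hu.mul_right hE]
  have c0 : ∀ i, a 0 0 * a 0 i = a 0 i := fun i => by rw [ha.mul, if_pos rfl]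
  have c1 : ∀ j, a j 0 * a 0 0 = a j 0 := fun j => by rw [ha.mul, if_pos rfl]
  -- elements of the corner and `am`
  have l1 : ∀ w, IsHaarIn (a 0 0) w → ∀ i, w * a 0 i = a 0 i * am a w := by
    intro w hw i
    have h1 := (hcut w (hw.mul_left hE) (hw.mul_right hE)).2
    calc w * a 0 i = am a w * a 0 0 * a 0 i := by rw [h1]
      _ = am a w * a 0 i := by rw [mul_assoc, c0]
      _ = a 0 i * am a w := hcomm w 0 i
  have l2 : ∀ w, IsHaarIn (a 0 0) w → ∀ j, am a w * a j 0 = a j 0 * w := by
    intro w hw j
    have h1 := (hcut w (hw.mul_left hE) (hw.mul_right hE)).1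
    calc am a w * a j 0 = a j 0 * am a w := hcomm w j 0
      _ = a j 0 * (a 0 0 * am a w) := by rw [← mul_assoc, c1]
      _ = a j 0 * w := by rw [h1]
  induction hJ with
  | refl =>
    refine ⟨1, u, by rw [star_one, one_mul], by rw [star_one, one_mul], hu,
      Relation.ReflTransGen.refl, by rw [star_one, one_mul, mul_one], fun i j => ?_⟩
    rw [mul_one, ha.mul]
    split_ifs
    · exact V_e
    · exact Submodule.zero_mem _
  | @tail W₁ W₂ _ hstep ih =>
    obtain ⟨S, w, hS1, hS2, hw, hJw, hW₁, hent⟩ := ih
    obtain ⟨hH₁, hH₂, hWW⟩ := hstep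
    obtain ⟨b, hb, hbc⟩ := hSat.units W₁ W₂ hH₁.haarU hH₂.haarU hWW n
    have hc := FRM_MU ha hS1 hS2
    have hSW : S * am a w = W₁ * S := by
      rw [hW₁]
      calc S * am a w = S * am a w * (star S * S) := by rw [hS1, mul_one]
        _ = S * am a w * star S * S := by noncomm_ring
    have hWS : star S * W₁ = am a w * star S := by
      rw [hW₁]
      calc star S * (S * am a w * star S) = (star S * S) * am a w * star S := by noncomm_ring
        _ = am a w * star S := by rw [hS1, one_mul]
    obtain ⟨y, hy1, hy2, hyW, hyb⟩ := hSat.equiv W₁ hH₁.haarU n (fun i j => S * a i j * star S) b hc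
      hb (fun i j => by
        show W₁ * (S * a i j * star S) = S * a i j * star S * W₁
        calc W₁ * (S * a i j * star S) = (W₁ * S) * a i j * star S := by noncomm_ring
          _ = S * (am a w * a i j) * star S := by rw [← hSW]; noncomm_ring
          _ = S * (a i j * am a w) * star S := by rw [hcomm]
          _ = S * a i j * (am a w * star S) := by noncomm_ring
          _ = S * a i j * star S * W₁ := by rw [← hWS]; noncomm_ring)
      (fun i j => (hbc i j).1)
    -- the new unitary
    obtain ⟨S', hS'⟩ : ∃ S' : P, S' = y * S := ⟨_, rfl⟩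
    have hS'1 : star S' * S' = 1 := by
      rw [hS', star_mul]
      calc star S * star y * (y * S) = star S * (star y * y) * S := by noncomm_ring
        _ = 1 := by rw [hy1, mul_one, hS1]
    have hS'2 : S' * star S' = 1 := by
      rw [hS', star_mul]
      calc y * S * (star S * star y) = y * (S * star S) * star y := by noncomm_ring
        _ = 1 := by rw [hS2, mul_one, hy2]
    have hb' : ∀ i j, S' * a i j * star S' = b i j := by
      intro i j
      rw [← hyb i j, hS', star_mul]
      noncomm_ring
    have hbS : ∀ i j, b i j * S' = S' * a i j := by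
      intro i j
      rw [← hb' i j]
      calc S' * a i j * star S' * S' = S' * a i j * (star S' * S') := by noncomm_ring
        _ = S' * a i j := by rw [hS'1, mul_one]
    have hSb : ∀ i j, star S' * b i j = a i j * star S' := by
      intro i j
      rw [← hb' i j]
      calc star S' * (S' * a i j * star S') = (star S' * S') * a i j * star S' := by noncomm_ring
        _ = a i j * star S' := by rw [hS'1, one_mul]
    obtain ⟨X, hX⟩ : ∃ X : P, X = star S' * W₂ * S' := ⟨_, rfl⟩
    have hXa : ∀ i j, X * a i j = a i j * X := by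
      intro i j
      rw [hX]
      calc star S' * W₂ * S' * a i j = star S' * W₂ * (S' * a i j) := by noncomm_ring
        _ = star S' * (W₂ * b i j) * S' := by rw [← hbS i j]; noncomm_ring
        _ = (star S' * b i j) * W₂ * S' := by rw [(hbc i j).2]; noncomm_ring
        _ = a i j * (star S' * W₂ * S') := by rw [hSb i j]; noncomm_ring
    have hXw := hinv X hXa
    have hXH : HaarU X := by
      have h1 := hH₂.haarU.conj (g := star S') (by rw [star_star, hS'2]) (by rw [star_star, hS'1])
      rw [star_star] at h1
      rw [hX]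
      exact h1
    obtain ⟨w', hw'⟩ : ∃ w' : P, w' = a 0 0 * X * a 0 0 := ⟨_, rfl⟩
    rw [← hw'] at hXw
    have hw'1 : w' = X * a 0 0 := by
      rw [hw', ← hXa, mul_assoc, hE.mul]
    have hw'2 : w' = a 0 0 * X := by
      rw [hw'1, hXa]
    have hw'l : a 0 0 * w' = w' := by
      rw [hw'2, ← mul_assoc, hE.mul]
    have hw'r : w' * a 0 0 = w' := by
      rw [hw'1, mul_assoc, hE.mul]
    have hw'H : IsHaarIn (a 0 0) w' := (hhaar w' hw'l hw'r).2 (by rw [hXw]; exact hXH)
    have hWX : am a w * X = X * am a w := by
      have h1 : star S' * W₁ * S' = am a w := by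
        rw [hS', star_mul]
        calc star S * star y * W₁ * (y * S) = star S * star y * (W₁ * y) * S := by noncomm_ring
          _ = star S * (star y * y) * (W₁ * S) := by rw [hyW]; noncomm_ring
          _ = (star S * S) * am a w := by rw [hy1, mul_one, ← hSW]; noncomm_ring
          _ = am a w := by rw [hS1, one_mul]
      rw [← h1, hX]
      calc star S' * W₁ * S' * (star S' * W₂ * S')
          = star S' * W₁ * (S' * star S') * W₂ * S' := by noncomm_ring
        _ = star S' * (W₁ * W₂) * S' := by rw [hS'2]; noncomm_ring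
        _ = star S' * W₂ * (S' * star S') * W₁ * S' := by rw [hWW, hS'2]; noncomm_ring
        _ = star S' * W₂ * S' * (star S' * W₁ * S') := by noncomm_ring
    have hww : w * w' = w' * w := by
      obtain ⟨k1, k2⟩ := hcut w (hw.mul_left hE) (hw.mul_right hE)
      calc w * w' = (a 0 0 * am a w) * (X * a 0 0) := by rw [k1, ← hw'1]
        _ = a 0 0 * (am a w * X) * a 0 0 := by noncomm_ring
        _ = (a 0 0 * X) * (am a w * a 0 0) := by rw [hWX]; noncomm_ring
        _ = w' * w := by rw [k2, ← hw'2]
    refine ⟨S', w', hS'1, hS'2, hw'H, hJw.tail ⟨hw, hw'H, hww⟩, ?_, ?_⟩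
    · rw [hXw, hX]
      calc W₂ = (S' * star S') * W₂ * (S' * star S') := by rw [hS'2, one_mul, mul_one]
        _ = S' * (star S' * W₂ * S') * star S' := by noncomm_ring
    · intro i j
      obtain ⟨T, hT⟩ : ∃ T : P, T = star S * y * S := ⟨_, rfl⟩
      have hST : S * T = S' := by
        rw [hT, hS']
        calc S * (star S * y * S) = (S * star S) * y * S := by noncomm_ring
          _ = y * S := by rw [hS2, one_mul]
      have hTw : T * am a w = am a w * T := by
        rw [hT]
        calc star S * y * S * am a w = star S * y * (S * am a w) := by noncomm_ring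
          _ = star S * (y * W₁) * S := by rw [hSW]; noncomm_ring
          _ = (star S * W₁) * y * S := by rw [← hyW]; noncomm_ring
          _ = am a w * (star S * y * S) := by rw [hWS]; noncomm_ring
      have hent' : ∀ l m, a 0 l * T * a m 0 ∈ Submodule.span ℂ {g : P | Gp (a 0 0) u g} := by
        intro l m
        have h1 : a 0 l * T * a m 0 ∈ Submodule.span ℂ {g : P | Gp (a 0 0) w g} := by
          refine hCUS P (a 0 0) w _ hE hw ?_ ?_ ?_
          · rw [← mul_assoc, ← mul_assoc, c0]
          · rw [mul_assoc, c1]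
          · calc w * (a 0 l * T * a m 0) = (w * a 0 l) * T * a m 0 := by noncomm_ring
              _ = a 0 l * (am a w * T) * a m 0 := by rw [l1 w hw l]; noncomm_ring
              _ = a 0 l * T * (am a w * a m 0) := by rw [← hTw]; noncomm_ring
              _ = a 0 l * T * a m 0 * w := by rw [l2 w hw m]; noncomm_ring
        refine Submodule.span_mono ?_ h1
        intro g hg
        exact jtr w u g hw (jsym _ _ hJw) hg
      have hsum : a 0 i * S' * a j 0 = ∑ l, (a 0 i * S * a l 0) * (a 0 l * T * a j 0) := by
        have h1 : ∀ l, (a 0 i * S * a l 0) * (a 0 l * T * a j 0) =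
            a 0 i * S * a l l * (T * a j 0) := by
          intro l
          have h2 : a l 0 * a 0 l = a l l := by rw [ha.mul, if_pos rfl]
          rw [← h2]
          noncomm_ring
        rw [Finset.sum_congr rfl fun l _ => h1 l, ← Finset.sum_mul, ← Finset.mul_sum, ha.sum,
          mul_one, ← hST]
        noncomm_ring
      rw [hsum]
      exact Submodule.sum_mem _ fun l _ => V_mul _ (hent i l) _ (hent' l j)

end ND

end SCO
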