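import Pool.Agent.Work.MP_52dd0f_nd.Interface

set_option autoImplicit false
set_option linter.unusedSectionVars false

/-! # THEOREM ND, block HDC: decompositions of Haar unitaries with equal traces -/

namespace SCO

open Filter Topology

universe u

namespace ND

theorem p_HDC (hMOM : Stmt_MOM.{u}) (hDEC : Stmt_DEC.{u}) : Stmt_HDC.{u} := by
  intro M _ _ x y hx hy ε hε
  obtain ⟨J, lam, Ψ, hlam, hΨ, h⟩ := hDEC ε hε
  obtain ⟨p, hp, hpT⟩ := h M x hx.isom hx.coisom
  obtain ⟨q, hq, hqT⟩ := h M y hy.isom hy.coisom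
  refine ⟨J, lam, p, q, hlam, hp, hq, fun j => ?_⟩
  have h1 := (hpT j).tau
  have h2 := (hqT j).tau
  have h3 : (fun n : ℕ => tau (cfc (Ψ j n) x)) = fun n : ℕ => tau (cfc (Ψ j n) y) := by
    funext n
    unfold tau
    rw [hMOM M x y hx hy (Ψ j n) (hΨ j n)]
  rw [h3] at h1
  exact tendsto_nhds_unique h1 h2

end ND

end SCO
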