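import Pool.Agent.Work.MP_52dd0f_nd.Interface

set_option autoImplicit false
set_option linter.unusedSectionVars false

namespace SCO

open Filter Topology

universe u

namespace ND

section IDNaux

variable {Q : Type u} [CStarAlgebra Q] {c : Fin 2 → Fin 2 → Q}

theorem IDN_zero_l (hc : MU 1 c) {y : Q} (h : c 0 0 * y = y) : c 0 1 * y = 0 := by
  rw [← h, ← mul_assoc, hc.mul 0 1 0 0, if_neg (by decide), zero_mul]

theorem IDN_zero_r (hc : MU 1 c) {y : Q} (h : y * c 0 0 = y) : y * c 1 0 = 0 := by
  rw [← h, mul_assoc, hc.mul 0 0 1 0, if_neg (by decide), mul_zero]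

/-- the product of two off-diagonal elements with entries in the corner -/
theorem IDN_prod (hc : MU 1 c) {x y : Q} (hx : c 0 0 * x = x) (hx' : x * c 0 0 = x)
    (hy : c 0 0 * y = y) (hy' : y * c 0 0 = y) :
    off c x * off c y = x * star y + c 1 0 * (star x * y) * c 0 1 := by
  have hsx : c 0 0 * star x = star x := by
    have h1 := congrArg star hx'
    rw [star_mul, hc.star] at h1
    exact h1
  have hsx' : star x * c 0 0 = star x := by
    have h1 := congrArg star hx
    rw [star_mul, hc.star] at h1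
    exact h1
  have hsy : c 0 0 * star y = star y := by
    have h1 := congrArg star hy'
    rw [star_mul, hc.star] at h1
    exact h1
  have e1 : x * c 0 1 * (y * c 0 1) = 0 := by
    rw [mul_assoc, ← mul_assoc (c 0 1), IDN_zero_l hc hy, zero_mul, mul_zero]
  have e2 : x * c 0 1 * (c 1 0 * star y) = x * star y := by
    rw [mul_assoc, ← mul_assoc (c 0 1), hc.mul 0 1 1 0, if_pos rfl, hsy]
  have e3 : c 1 0 * star x * (y * c 0 1) = c 1 0 * (star x * y) * c 0 1 := by
    simp only [mul_assoc]
  have e4 : c 1 0 * star x * (c 1 0 * star y) = 0 := by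
    have : star x * c 1 0 = 0 := IDN_zero_r hc hsx'
    rw [mul_assoc, ← mul_assoc (star x), this, zero_mul, mul_zero]
  unfold off
  rw [add_mul, mul_add, mul_add, e1, e2, e3, e4, zero_add, add_zero]

end IDNaux

/-- **IDN** -/
theorem p_IDN : Stmt_IDN.{u} := by
  intro Q _ c hc
  have h00s : star (c 0 0) = c 0 0 := hc.star 0 0
  have h00 : c 0 0 * c 0 0 = c 0 0 := by rw [hc.mul 0 0 0 0, if_pos rfl]
  refine ⟨?_, ?_, ?_⟩
  · intro y hys hy hy'
    have k1 : c 0 0 * ((-(Complex.I / 2)) • y) = (-(Complex.I / 2)) • y := by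
      rw [mul_smul_comm, hy]
    have k2 : ((-(Complex.I / 2)) • y) * c 0 0 = (-(Complex.I / 2)) • y := by
      rw [smul_mul_assoc, hy']
    have hst : star ((-(Complex.I / 2)) • y) = (Complex.I / 2) • y := by
      rw [star_smul, hys.star_eq]
      congr 1
      rw [Complex.star_def, map_neg, map_div₀, Complex.conj_I, map_ofNat]
      ring
    rw [IDN_prod hc k1 k2 h00 h00, IDN_prod hc h00 h00 k1 k2, h00s, hst]
    simp only [smul_mul_assoc, mul_smul_comm, hy, hy', smul_add, smul_sub, smul_smul]
    have i1 : Complex.I * -(Complex.I / 2) = 1 / 2 := by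
      have := Complex.I_mul_I
      linear_combination (-1 / 2 : ℂ) * this
    have i2 : Complex.I * (Complex.I / 2) = -(1 / 2) := by
      have := Complex.I_mul_I
      linear_combination (1 / 2 : ℂ) * this
    rw [i1, i2]
    module
  · intro a b ha hb ha1 ha2 hb1 hb2
    rw [IDN_prod hc ha1 ha2 hb1 hb2, IDN_prod hc hb1 hb2 ha1 ha2, ha.star_eq, hb.star_eq]
    rw [smul_sub, smul_sub, smul_add, smul_add, mul_sub, sub_mul]
    simp only [mul_smul_comm, smul_mul_assoc]
    abel
  · intro h hs
    have hsum : c 0 0 + c 1 1 = 1 := by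
      have := hc.sum
      rwa [Fin.sum_univ_two] at this
    have e11 : c 1 1 = c 1 0 * c 0 1 := by rw [hc.mul 1 0 0 1, if_pos rfl]
    have hoff : off c (c 0 0 * h * c 1 0) = c 0 0 * h * c 1 1 + c 1 1 * h * c 0 0 := by
      unfold off
      rw [star_mul, star_mul, hc.star, h00s, hs.star_eq, e11]
      simp only [mul_assoc]
    have e2 : c 1 0 * (c 0 1 * h * c 1 0) * c 0 1 = c 1 1 * h * c 1 1 := by
      rw [e11]
      simp only [mul_assoc]
    rw [hoff, e2]
    calc h = (c 0 0 + c 1 1) * h * (c 0 0 + c 1 1) := by rw [hsum, one_mul, mul_one]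
      _ = _ := by
        simp only [add_mul, mul_add]
        abel

end ND

end SCO
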