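import Pool.Agent.Work.MP_52dd0f_nd.Interface

/-! # Block JDS: direct sums of chains -/

set_option autoImplicit false
set_option linter.unusedSectionVars false

namespace SCO

open Filter Topology

universe u

namespace ND

section

variable {P : Type u} [CStarAlgebra P] [TVN P]

theorem JDS_zero {p q x y : P} (hp : IsProj p) (hq : IsProj q) (hpq : p * q = 0)
    (hx : IsHaarIn p x) (hy : IsHaarIn q y) :
    x * y = 0 ∧ y * x = 0 ∧ star x * y = 0 ∧ x * star y = 0 := by
  have hqp : q * p = 0 := hp.mul_zero_swap hq hpq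
  have a1 := hx.mul_left hp
  have a2 := hx.mul_right hp
  have b1 := hy.mul_left hq
  have b2 := hy.mul_right hq
  refine ⟨?_, ?_, ?_, ?_⟩
  · rw [← a2, ← b1, mul_assoc, ← mul_assoc p, hpq, zero_mul, mul_zero]
  · rw [← b2, ← a1, mul_assoc, ← mul_assoc q, hqp, zero_mul, mul_zero]
  · rw [← a1, ← b1, star_mul, hp.star, mul_assoc, ← mul_assoc p, hpq, zero_mul, mul_zero]
  · rw [← a2, ← b2, star_mul, hq.star, mul_assoc, ← mul_assoc p, hpq, zero_mul, mul_zero]

theorem JDS_add {p q x y : P} (hp : IsProj p) (hq : IsProj q) (hpq : p * q = 0)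
    (hx : IsHaarIn p x) (hy : IsHaarIn q y) : IsHaarIn (p + q) (x + y) := by
  obtain ⟨e3, e4, e1, e2⟩ := JDS_zero hp hq hpq hx hy
  have e1' : star y * x = 0 := by
    have := congrArg star e1; rwa [star_mul, star_star, star_zero] at this
  have e2' : y * star x = 0 := by
    have := congrArg star e2; rwa [star_mul, star_star, star_zero] at this
  refine ⟨?_, ?_, fun m hm => ?_⟩
  · rw [star_add, add_mul, mul_add, mul_add, e1, e1', hx.src, hy.src]; abel
  · rw [star_add, add_mul, mul_add, mul_add, e2, e2', hx.rng, hy.rng]; abel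
  · obtain ⟨m, rfl⟩ : ∃ k, m = k + 1 := ⟨m - 1, by omega⟩
    rw [add_pow_of_orthogonal e3 e4, map_add, hx.tr _ hm, hy.tr _ hm, add_zero]

theorem JDS_left {p q x y z : P} (hp : IsProj p) (hq : IsProj q) (hpq : p * q = 0)
    (hz : IsHaarIn q z) (h : Jn p x y) : Jn (p + q) (x + z) (y + z) := by
  suffices key : ∀ a b : P, (IsHaarIn p a ∧ IsHaarIn p b ∧ a * b = b * a) →
      (IsHaarIn (p + q) (a + z) ∧ IsHaarIn (p + q) (b + z) ∧
        (a + z) * (b + z) = (b + z) * (a + z)) by
    induction h with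
    | refl => exact Relation.ReflTransGen.refl
    | tail _ h2 ih => exact Relation.ReflTransGen.tail ih (key _ _ h2)
  rintro a b ⟨ha, hb, hab⟩
  obtain ⟨a3, a4, -, -⟩ := JDS_zero hp hq hpq ha hz
  obtain ⟨b3, b4, -, -⟩ := JDS_zero hp hq hpq hb hz
  refine ⟨JDS_add hp hq hpq ha hz, JDS_add hp hq hpq hb hz, ?_⟩
  rw [add_mul, mul_add, mul_add, add_mul, mul_add, mul_add, a3, a4, b3, b4, hab]

theorem JDS_haar {p x y : P} (hx : IsHaarIn p x) (h : Jn p x y) : IsHaarIn p y := by
  induction h with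
  | refl => exact hx
  | tail _ h2 _ => exact h2.2.1

end

theorem p_JDS : Stmt_JDS.{u} := by
  intro P _ _ p q x y x' y' hp hq hpq hx hx' h h'
  have hqp : q * p = 0 := hp.mul_zero_swap hq hpq
  refine ⟨JDS_add hp hq hpq hx hx', ?_⟩
  have h1 : Jn (p + q) (x + x') (y + x') := JDS_left hp hq hpq hx' h
  have h2 : Jn (q + p) (x' + y) (y' + y) := JDS_left hq hp hqp (JDS_haar hx h) h'
  rw [add_comm q p, add_comm x' y, add_comm y' y] at h2
  exact Relation.ReflTransGen.trans h1 h2

end ND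

end SCO
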