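import Pool.Agent.Work.MP_52dd0f_nd.Interface

/-!
# Block JNS (MP_52dd0f_an, THEOREM ND): basic properties of `Jn` and `Gp` (helper89)
-/

set_option autoImplicit false
set_option linter.unusedSectionVars false

namespace SCO

open Filter Topology

universe u

namespace ND

section

variable {P : Type u} [CStarAlgebra P] [TVN P]

theorem JNS_pow {p v x : P} (hv : star v * v = p) (hx : p * x = x) (m : ℕ) :
    (v * x * star v) ^ (m + 1) = v * x ^ (m + 1) * star v := by
  induction m with
  | zero => simp
  | succ m ih =>
    rw [pow_succ, ih, pow_succ x (m + 1)]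
    calc v * x ^ (m + 1) * star v * (v * x * star v)
        = v * x ^ (m + 1) * ((star v * v) * x) * star v := by simp only [mul_assoc]
      _ = v * (x ^ (m + 1) * x) * star v := by rw [hv, hx]; simp only [mul_assoc]

theorem JNS_haar {p q v x : P} (hp : IsProj p) (hv : star v * v = p) (hv' : v * star v = q)
    (hx : IsHaarIn p x) : IsHaarIn q (v * x * star v) := by
  have h1 : p * x = x := hx.mul_left hp
  have h2 : x * p = x := hx.mul_right hp
  have h3 : v * p = v := pi_mul_src hp hv
  have h4 : star v * (v * x) = x := by rw [← mul_assoc, hv, h1]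
  have h5 : p * star x = star x := by
    have := congrArg star h2
    rwa [star_mul, hp.star] at this
  have h6 : star v * (v * star x) = star x := by rw [← mul_assoc, hv, h5]
  refine ⟨?_, ?_, fun m hm => ?_⟩
  · calc star (v * x * star v) * (v * x * star v)
        = v * star x * (star v * (v * x)) * star v := by
          simp only [star_mul, star_star, mul_assoc]
      _ = v * (star x * x) * star v := by rw [h4]; simp only [mul_assoc]
      _ = q := by rw [hx.src, h3, hv']
  · calc v * x * star v * star (v * x * star v)
        = v * x * (star v * (v * star x)) * star v := by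
          simp only [star_mul, star_star, mul_assoc]
      _ = v * (x * star x) * star v := by rw [h6]; simp only [mul_assoc]
      _ = q := by rw [hx.rng, h3, hv']
  · obtain ⟨m, rfl⟩ : ∃ k, m = k + 1 := ⟨m - 1, by omega⟩
    have h7 : p * x ^ (m + 1) = x ^ (m + 1) := by
      rw [pow_succ', ← mul_assoc, h1]
    rw [JNS_pow hv h1, tr_comm, ← mul_assoc, hv, h7, hx.tr _ hm]

theorem JNS_conj {p q v x y : P} (hp : IsProj p) (hv : star v * v = p) (hv' : v * star v = q)
    (h : Jn p x y) : Jn q (v * x * star v) (v * y * star v) := by
  refine Relation.ReflTransGen.lift (fun x => v * x * star v) ?_ _ _ h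
  rintro a b ⟨ha, hb, hab⟩
  have h1 : p * a = a := ha.mul_left hp
  have h2 : p * b = b := hb.mul_left hp
  refine ⟨JNS_haar hp hv hv' ha, JNS_haar hp hv hv' hb, ?_⟩
  calc v * a * star v * (v * b * star v)
      = v * a * ((star v * v) * b) * star v := by simp only [mul_assoc]
    _ = v * (a * b) * star v := by rw [hv, h2]; simp only [mul_assoc]
    _ = v * (b * a) * star v := by rw [hab]
    _ = v * b * ((star v * v) * a) * star v := by rw [hv, h1]; simp only [mul_assoc]
    _ = v * b * star v * (v * a * star v) := by simp only [mul_assoc]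

theorem JNS_symm {p x y : P} (h : Jn p x y) : Jn p y x := by
  unfold Jn at h ⊢
  induction h with
  | refl => exact Relation.ReflTransGen.refl
  | tail _ hbc ih =>
    exact Relation.ReflTransGen.head ⟨hbc.2.1, hbc.1, hbc.2.2.symm⟩ ih

theorem JNS_star {p g : P} (h : star g * g = p) (h' : g * star g = p) :
    star (star g) * star g = p ∧ star g * star (star g) = p := by
  rw [star_star]
  exact ⟨h', h⟩

theorem JNS_unconj {p g u : P} (hp : IsProj p) (h : star g * g = p) (hu : p * u = u)
    (hu' : u * p = u) : star g * (g * u * star g) * star (star g) = u := by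
  rw [star_star]
  calc star g * (g * u * star g) * g = (star g * g) * u * (star g * g) := by
        simp only [mul_assoc]
    _ = u := by rw [h, hu, hu']

end

theorem p_JNS : Stmt_JNS.{u} := by
  intro P _ _ p hp
  refine ⟨fun x y h => JNS_symm h, fun x y v q hv hv' h => JNS_conj hp hv hv' h, ?_, ?_, ?_, ?_⟩
  · intro u x hu hx hx' hc
    refine ⟨hx, hx', ?_⟩
    have h1 : x * u * star x = u := by
      rw [hc, mul_assoc, hx', hu.mul_right hp]
    rw [h1]
    exact Relation.ReflTransGen.refl
  · intro u g h hu hg hh
    have h1 : p * h = h := pi_mul_rng hp hh.src hh.rng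
    have h2 : g * p = g := pi_mul_src hp hg.src
    refine ⟨?_, ?_, ?_⟩
    · calc star (g * h) * (g * h) = star h * ((star g * g) * h) := by
            simp only [star_mul, mul_assoc]
        _ = p := by rw [hg.src, h1, hh.src]
    · calc g * h * star (g * h) = g * (h * star h) * star g := by
            simp only [star_mul, mul_assoc]
        _ = p := by rw [hh.rng, h2, hg.rng]
    · have h3 : Jn p (g * u * star g) (g * (h * u * star h) * star g) :=
        JNS_conj hp hg.src hg.rng hh.jn
      have h4 : g * (h * u * star h) * star g = g * h * u * star (g * h) := by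
        simp only [star_mul, mul_assoc]
      rw [h4] at h3
      exact Relation.ReflTransGen.trans hg.jn h3
  · intro u g hu hg
    obtain ⟨s1, s2⟩ := JNS_star hg.src hg.rng
    refine ⟨s1, s2, ?_⟩
    have h3 := JNS_conj hp s1 s2 (JNS_symm hg.jn)
    rwa [JNS_unconj hp hg.src (hu.mul_left hp) (hu.mul_right hp)] at h3
  · intro u w g hu hw hg
    refine ⟨hg.src, hg.rng, ?_⟩
    exact Relation.ReflTransGen.trans (JNS_symm hw)
      (Relation.ReflTransGen.trans hg.jn (JNS_conj hp hg.src hg.rng hw))

end ND

end SCO
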