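import Pool.Agent.Work.MP_52dd0f_nd.Interface

/-!
# Block LAU (helper87): Laurent polynomials are dense on the circle
-/

set_option autoImplicit false

namespace SCO

open Filter Topology

universe u

namespace ND


theorem LAU_span : ∀ g ∈ Submodule.span ℂ (Set.range (@fourier (2 * Real.pi))),
    ∃ p q : Polynomial ℂ, ∀ x : AddCircle (2 * Real.pi),
      g x = p.eval (AddCircle.toCircle x : ℂ) + q.eval (starRingEnd ℂ (AddCircle.toCircle x : ℂ)) := by
  intro g hg
  induction hg using Submodule.span_induction with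
  | mem g hg =>
    obtain ⟨k, rfl⟩ := hg
    have hpos : ∀ (m : ℕ) (x : AddCircle (2 * Real.pi)),
        fourier (m : ℤ) x = (AddCircle.toCircle x : ℂ) ^ m := by
      intro m x
      rw [fourier_apply, AddCircle.toCircle_zsmul]
      simp
    obtain ⟨m, rfl | rfl⟩ := k.eq_nat_or_neg
    · refine ⟨Polynomial.X ^ m, 0, fun x => ?_⟩
      rw [hpos]
      simp
    · refine ⟨0, Polynomial.X ^ m, fun x => ?_⟩
      rw [fourier_neg, hpos]
      simp
  | zero => exact ⟨0, 0, fun x => by simp⟩
  | add g h _ _ hg hh =>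
    obtain ⟨p, q, hpq⟩ := hg
    obtain ⟨p', q', hpq'⟩ := hh
    refine ⟨p + p', q + q', fun x => ?_⟩
    rw [ContinuousMap.add_apply, hpq, hpq', Polynomial.eval_add, Polynomial.eval_add]
    ring
  | smul a g _ hg =>
    obtain ⟨p, q, hpq⟩ := hg
    refine ⟨Polynomial.C a * p, Polynomial.C a * q, fun x => ?_⟩
    rw [ContinuousMap.smul_apply, hpq, Polynomial.eval_mul, Polynomial.eval_mul, Polynomial.eval_C,
      Polynomial.eval_C, smul_eq_mul]
    ring

theorem p_LAU : Stmt_LAU := by
  intro φ hφ ε hε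
  have : Fact (0 < 2 * Real.pi) := ⟨by positivity⟩
  let f : C(AddCircle (2 * Real.pi), ℂ) :=
    ⟨fun x => φ (AddCircle.toCircle x : ℂ), hφ.comp (continuous_subtype_val.comp AddCircle.continuous_toCircle)⟩
  have hf : f ∈ (Submodule.span ℂ (Set.range (@fourier (2 * Real.pi)))).topologicalClosure := by
    rw [span_fourier_closure_eq_top]
    trivial
  have hf2 : f ∈ closure ((Submodule.span ℂ (Set.range (@fourier (2 * Real.pi))) :
      Submodule ℂ C(AddCircle (2 * Real.pi), ℂ)) : Set C(AddCircle (2 * Real.pi), ℂ)) := hf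
  obtain ⟨g, hg, hfg⟩ := Metric.mem_closure_iff.1 hf2 ε hε
  obtain ⟨p, q, hpq⟩ := LAU_span g hg
  refine ⟨max p.natDegree q.natDegree + 1, fun k => p.coeff k, fun k => q.coeff k, ?_⟩
  intro z hz
  obtain ⟨x, hx⟩ : ∃ x : AddCircle (2 * Real.pi), (AddCircle.toCircle x : ℂ) = z := by
    let c : Circle := ⟨z, mem_sphere_zero_iff_norm.2 hz⟩
    refine ⟨((c : ℂ).arg : ℝ), ?_⟩
    rw [AddCircle.toCircle_apply_mk]
    have h1 : 2 * Real.pi / (2 * Real.pi) * (c : ℂ).arg = (c : ℂ).arg := by
      rw [div_self (by positivity), one_mul]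
    rw [h1, Circle.exp_arg]
  have h1 : dist (f x) (g x) < ε := (ContinuousMap.dist_apply_le_dist x).trans_lt hfg
  rw [dist_eq_norm, hpq] at h1
  have h2 : f x = φ z := by
    change φ (AddCircle.toCircle x : ℂ) = φ z
    rw [hx]
  rw [h2, hx] at h1
  rw [Polynomial.eval_eq_sum_range' (lt_of_le_of_lt (le_max_left p.natDegree q.natDegree)
      (Nat.lt_succ_self _)) z, Polynomial.eval_eq_sum_range' (lt_of_le_of_lt
      (le_max_right p.natDegree q.natDegree) (Nat.lt_succ_self _)) (starRingEnd ℂ z),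
    ← Finset.sum_add_distrib] at h1
  exact h1.le

end ND

end SCO
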