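import Pool.Agent.Work.MP_52dd0f_nd.Interface

/-!
# THEOREM ND, block LFT: from the ultrapower to sequences (typed by helper4)
-/

set_option autoImplicit false
set_option linter.unusedSectionVars false

namespace SCO

namespace ND

open Filter Topology

universe u

theorem LFT_chain {M : Type u} [CStarAlgebra M] [TVN M] (𝒰 : Ultrafilter ℕ)
    [Fact ((𝒰 : Filter ℕ) ≤ atTop)] (x : Sq M) (hx : HaarU (toUP 𝒰 x)) (b : UP M 𝒰)
    (h : Jn 1 (toUP 𝒰 x) b) : ∀ y : Sq M, toUP 𝒰 y = b →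
    Relation.ReflTransGen (Step 𝒰 (tr : M →ₗ[ℂ] ℂ)) x.ev y.ev := by
  unfold Jn at h
  induction h with
  | refl =>
    intro y hy
    refine Relation.ReflTransGen.single ⟨(haarU_toUP_iff 𝒰 x).1 hx,
      (haarU_toUP_iff 𝒰 y).1 (by rw [hy]; exact hx), ?_⟩
    exact (commute_toUP_iff 𝒰 x y).1 (by rw [hy])
  | @tail b c _ hbc ih =>
    intro y hy
    obtain ⟨z, hz⟩ := toUP_surjective 𝒰 b
    obtain ⟨hb, hc, hcom⟩ := hbc
    refine Relation.ReflTransGen.tail (ih z hz) ⟨(haarU_toUP_iff 𝒰 z).1 (by rw [hz]; exact hb.haarU),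
      (haarU_toUP_iff 𝒰 y).1 (by rw [hy]; exact hc.haarU), ?_⟩
    exact (commute_toUP_iff 𝒰 z y).1 (by rw [hy, hz, hcom])

theorem p_LFT : Stmt_LFT.{u} := by
  intro M _ _ 𝒰 _ u v ε hu hv H
  have hu1 : HaarU (toUP 𝒰 (mkSq u hu.bounded)) := (haarU_toUP_iff 𝒰 _).2 hu
  have hv1 : HaarU (toUP 𝒰 (mkSq v hv.bounded)) := (haarU_toUP_iff 𝒰 _).2 hv
  obtain ⟨w, hw1, hw2, hw3⟩ := H _ _ hu1 hv1
  obtain ⟨D, hD1, hD2⟩ := exists_lift_UP 𝒰 (w - toUP 𝒰 (mkSq v hv.bounded))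
  have hD3 : toUP 𝒰 (mkSq v hv.bounded + D) = w := by
    rw [map_add, hD2]
    abel
  refine ⟨D.ev, fun k => (D.norm_ev_le k).trans (hD1.trans hw3), ?_, ?_⟩
  · have h1 := (haarU_toUP_iff 𝒰 (mkSq v hv.bounded + D)).1 (by rw [hD3]; exact hw2)
    exact h1
  · exact LFT_chain 𝒰 _ hu1 w hw1 _ hD3

end ND

end SCO
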