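import Pool.Agent.Work.MP_52dd0f_nd.Interface

set_option autoImplicit false

namespace SCO

open Filter Topology

universe u

namespace ND

theorem LIA_mul {P : Type u} [CStarAlgebra P] {G : Set P} (hG : UGrp G) {a b : P}
    (ha : a ∈ closure G) (hb : b ∈ closure G) : a * b ∈ closure G :=
  map_mem_closure₂ continuous_mul ha hb (fun x hx y hy => hG.mul x hx y hy)

theorem LIA_pow {P : Type u} [CStarAlgebra P] {G : Set P} (hG : UGrp G) {a : P}
    (ha : a ∈ closure G) (n : ℕ) : a ^ n ∈ closure G := by
  induction n with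
  | zero => rw [pow_zero]; exact subset_closure hG.one
  | succ n ih => rw [pow_succ]; exact LIA_mul hG ih ha

theorem p_LIA (hTRO : Stmt_TRO.{u}) : Stmt_LIA.{u} := by
  intro P _ G hG
  refine ⟨?_, ?_, ?_, ?_⟩
  · refine ⟨IsSelfAdjoint.zero P, fun t => ?_⟩
    rw [smul_zero, NormedSpace.exp_zero]
    exact subset_closure hG.one
  · intro a ha b hb
    refine ⟨ha.1.add hb.1, fun t => ?_⟩
    have h := hTRO P (((t : ℂ) * Complex.I) • a) (((t : ℂ) * Complex.I) • b)
    rw [smul_add]
    refine isClosed_closure.mem_of_tendsto h (Eventually.of_forall fun n => ?_)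
    refine LIA_pow hG (LIA_mul hG ?_ ?_) _
    · have e : (((n : ℂ) + 1)⁻¹ • (((t : ℂ) * Complex.I) • a)) =
          ((((((n : ℝ) + 1)⁻¹ * t : ℝ)) : ℂ) * Complex.I) • a := by
        rw [smul_smul]
        push_cast
        rw [mul_assoc]
      rw [e]
      exact ha.2 _
    · have e : (((n : ℂ) + 1)⁻¹ • (((t : ℂ) * Complex.I) • b)) =
          ((((((n : ℝ) + 1)⁻¹ * t : ℝ)) : ℂ) * Complex.I) • b := by
        rw [smul_smul]
        push_cast
        rw [mul_assoc]
      rw [e]
      exact hb.2 _
  · intro a ha t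
    refine ⟨?_, fun s => ?_⟩
    · rw [isSelfAdjoint_iff, star_smul, ha.1.star_eq]
      congr 1
      exact Complex.conj_ofReal t
    · have e : ((s : ℂ) * Complex.I) • ((t : ℂ) • a) = (((s * t : ℝ) : ℂ) * Complex.I) • a := by
        rw [smul_smul]
        congr 1
        push_cast
        ring
      rw [e]
      exact ha.2 _
  · have e : Hc G = {h : P | IsSelfAdjoint h} ∩
        ⋂ t : ℝ, (fun h : P => NormedSpace.exp (((t : ℂ) * Complex.I) • h)) ⁻¹' closure G := by
      ext h
      simp only [Hc, Set.mem_inter_iff, Set.mem_iInter, Set.mem_preimage]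
      exact Iff.rfl
    rw [e]
    refine IsClosed.inter ?_ ?_
    · exact isClosed_eq continuous_star continuous_id
    · refine isClosed_iInter fun t => ?_
      refine isClosed_closure.preimage ?_
      let _ : NormedAlgebra ℚ P := NormedAlgebra.restrictScalars ℚ ℂ P
      exact NormedSpace.exp_continuous.comp (continuous_const_smul _)

end ND

end SCO
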