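import Pool.Agent.Work.MP_52dd0f_nd.Interface

set_option autoImplicit false

/-! # THEOREM ND, block LIB -/

namespace SCO

open Filter Topology

universe u

namespace ND

section

variable {P : Type u} [CStarAlgebra P]

theorem LIB_clos {G : Set P} (hG : UGrp G) : UGrp (closure G) where
  uni := by
    intro g hg
    have h1 : closure G ⊆ {g | star g * g = 1 ∧ g * star g = 1} := by
      refine closure_minimal (fun g hg => hG.uni g hg) ?_
      exact (isClosed_eq (by fun_prop) (by fun_prop)).inter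
        (isClosed_eq (by fun_prop) (by fun_prop))
    exact h1 hg
  one := subset_closure hG.one
  mul := by
    intro g hg h hh
    exact map_mem_closure₂ continuous_mul hg hh fun a ha b hb => hG.mul a ha b hb
  star := by
    intro g hg
    exact map_mem_closure continuous_star hg fun a ha => hG.star a ha

theorem LIB_conj {g a : P} (h1 : star g * g = 1) (h2 : g * star g = 1) :
    NormedSpace.exp (g * a * star g) = g * NormedSpace.exp a * star g := by
  letI : NormedAlgebra ℚ P := NormedAlgebra.restrictScalars ℚ ℂ P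
  exact NormedSpace.exp_units_conj (⟨g, star g, h2, h1⟩ : Pˣ) a

theorem LIB_sm (z : ℂ) (g a : P) : z • (g * a * star g) = g * (z • a) * star g := by
  rw [mul_smul_comm, smul_mul_assoc]

theorem LIB_one {G : Set P} (hG : UGrp G) (g : P) (hg : g ∈ closure G) (a : P) (ha : a ∈ Hc G) :
    g * a * star g ∈ Hc G := by
  have hC := LIB_clos hG
  obtain ⟨h1, h2⟩ := hC.uni g hg
  refine ⟨?_, ?_⟩
  · have h3 := ha.1
    rw [isSelfAdjoint_iff] at h3 ⊢
    rw [star_mul, star_mul, star_star, h3, mul_assoc]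
  · intro t
    rw [LIB_sm, LIB_conj h1 h2]
    exact hC.mul _ (hC.mul _ hg _ (ha.2 t)) _ (hC.star _ hg)

theorem LIB_star {a : P} (ha : IsSelfAdjoint a) (t : ℝ) :
    star (NormedSpace.exp (((t : ℂ) * Complex.I) • a)) =
      NormedSpace.exp (-(((t : ℂ) * Complex.I) • a)) := by
  rw [NormedSpace.star_exp, star_smul, ha.star_eq, ← neg_smul]
  congr 2
  simp

end

theorem p_LIB (hLIA : Stmt_LIA.{u}) : Stmt_LIB.{u} := by
  intro P _ G hG
  have hC := LIB_clos hG
  obtain ⟨h0, hadd, hsm, hcl⟩ := hLIA P G hG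
  refine ⟨fun g hg a ha => LIB_one hG g (subset_closure hg) a ha, ?_⟩
  intro a ha b hb
  obtain ⟨A, hA⟩ : ∃ A : P, A = Complex.I • a := ⟨_, rfl⟩
  have hF : HasDerivAt (fun z : ℂ => NormedSpace.exp (z • A) * b * NormedSpace.exp (z • (-A)))
      (Complex.I • (a * b - b * a)) 0 := by
    have e1 := hasDerivAt_exp_smul_const (𝕂 := ℂ) A 0
    have e2 := hasDerivAt_exp_smul_const (𝕂 := ℂ) (-A) 0
    have e3 := (e1.mul_const b).mul e2
    simp only [zero_smul, NormedSpace.exp_zero, one_mul, mul_one] at e3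
    have e4 : Complex.I • (a * b - b * a) = A * b + b * -A := by
      rw [hA, smul_sub, mul_neg, mul_smul_comm, smul_mul_assoc, sub_eq_add_neg]
    rw [e4]
    exact e3
  have hS := hasDerivAt_iff_tendsto_slope_zero.1 hF
  have hT : Tendsto (fun n : ℕ => (((1 / ((n : ℝ) + 1) : ℝ)) : ℂ)) atTop (𝓝[≠] 0) := by
    rw [tendsto_nhdsWithin_iff]
    refine ⟨?_, ?_⟩
    · have h1 : Tendsto (fun n : ℕ => (1 / ((n : ℝ) + 1) : ℝ)) atTop (𝓝 0) :=
        tendsto_one_div_add_atTop_nhds_zero_nat
      have h2 := (Complex.continuous_ofReal.tendsto 0).comp h1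
      rw [Complex.ofReal_zero] at h2
      exact h2
    · filter_upwards with n
      have h1 : (1 / ((n : ℝ) + 1) : ℝ) ≠ 0 := by positivity
      exact Complex.ofReal_ne_zero.2 h1
  refine hcl.mem_of_tendsto (hS.comp hT) ?_
  filter_upwards with n
  obtain ⟨t, ht⟩ : ∃ t : ℝ, t = 1 / ((n : ℝ) + 1) := ⟨_, rfl⟩
  simp only [Function.comp_apply]
  rw [← ht, zero_add, zero_smul, zero_smul, NormedSpace.exp_zero, one_mul, mul_one]
  have e1 : (t : ℂ) • A = ((t : ℂ) * Complex.I) • a := by rw [hA, smul_smul]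
  have e2 : (t : ℂ) • (-A) = -(((t : ℂ) * Complex.I) • a) := by rw [smul_neg, e1]
  rw [e1, e2, ← LIB_star ha.1 t]
  have e3 := LIB_one hG _ (ha.2 t) b hb
  have e4 := hsm b hb (-1)
  have e5 := hadd _ e3 _ e4
  have e6 := hsm _ e5 t⁻¹
  have e7 : ∀ x : P, x + (((-1 : ℝ)) : ℂ) • b = x - b := by
    intro x
    push_cast
    rw [neg_smul, one_smul, sub_eq_add_neg]
  rw [e7] at e6
  push_cast at e6
  exact e6

end ND

end SCO
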