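import Pool.Agent.Work.MP_52dd0f_nd.Interface

/-!
# Block MOM (helper12)
-/

set_option autoImplicit false

namespace SCO

open Filter Topology
open scoped ComplexConjugate

universe u

namespace ND

theorem MOM_cfc {M : Type u} [CStarAlgebra M] (u : M) (hu : IsStarNormal u) (n : ℕ) (c d : ℕ → ℂ) :
    cfc (fun z : ℂ => ∑ k ∈ Finset.range n, (c k * z ^ k + d k * (starRingEnd ℂ z) ^ k)) u =
      ∑ k ∈ Finset.range n, (c k • u ^ k + d k • (star u) ^ k) := by
  have e1 : (fun z : ℂ => ∑ k ∈ Finset.range n, (c k * z ^ k + d k * (starRingEnd ℂ z) ^ k)) =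
      ∑ k ∈ Finset.range n, (fun z : ℂ => c k * z ^ k + d k * (starRingEnd ℂ z) ^ k) := by
    funext z; simp
  have hc : ∀ k ∈ Finset.range n,
      ContinuousOn (fun z : ℂ => c k * z ^ k + d k * (starRingEnd ℂ z) ^ k) (spectrum ℂ u) := by
    intro k _
    fun_prop
  rw [e1, cfc_sum (fun (k : ℕ) (z : ℂ) => c k * z ^ k + d k * (starRingEnd ℂ z) ^ k) u
    (Finset.range n) hc]
  · refine Finset.sum_congr rfl fun k _ => ?_
    rw [cfc_add (fun z : ℂ => c k * z ^ k) (fun z : ℂ => d k * (starRingEnd ℂ z) ^ k)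
      (a := u) (by fun_prop) (by fun_prop)]
    congr 1
    · rw [cfc_const_mul (c k) (fun z : ℂ => z ^ k) u (by fun_prop), cfc_pow_id u k]
    · rw [cfc_const_mul (d k) (fun z : ℂ => (starRingEnd ℂ z) ^ k) u (by fun_prop),
        cfc_pow (fun z : ℂ => starRingEnd ℂ z) k u (by fun_prop)]
      congr 2
      exact cfc_star_id u

theorem MOM_near {M : Type u} [CStarAlgebra M] [TrC M] (u : M) (hu : HaarU u) (φ : ℂ → ℂ)
    (hφ : Continuous φ) (ε : ℝ) (hε : 0 < ε) (n : ℕ) (c d : ℕ → ℂ)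
    (h : ∀ z : ℂ, ‖z‖ = 1 →
      ‖φ z - ∑ k ∈ Finset.range n, (c k * z ^ k + d k * (starRingEnd ℂ z) ^ k)‖ ≤ ε) :
    ‖tr (cfc φ u) - ∑ k ∈ Finset.range n, (c k + d k) * (if k = 0 then 1 else 0)‖ ≤ ε := by
  have hun : u ∈ unitary M := Unitary.mem_iff.mpr ⟨hu.isom, hu.coisom⟩
  have hnorm : IsStarNormal u := ⟨by rw [commute_iff_eq, hu.isom, hu.coisom]⟩
  have htr : tr (∑ k ∈ Finset.range n, (c k • u ^ k + d k • (star u) ^ k)) =
      ∑ k ∈ Finset.range n, (c k + d k) * (if k = 0 then 1 else 0) := by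
    rw [map_sum]
    refine Finset.sum_congr rfl fun k _ => ?_
    rw [map_add, map_smul, map_smul, ← star_pow, tr_star]
    by_cases hk : k = 0
    · subst hk
      simp [tr_one]
    · rw [hu.haar k (Nat.one_le_iff_ne_zero.mpr hk)]
      simp [hk]
  rw [← htr, ← MOM_cfc u hnorm n c d, ← map_sub, ← cfc_sub (fun z : ℂ => φ z)
    (fun z : ℂ => ∑ k ∈ Finset.range n, (c k * z ^ k + d k * (starRingEnd ℂ z) ^ k)) (a := u)
    (by fun_prop) (by fun_prop)]
  refine (norm_tr_le_norm _).trans ?_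
  refine norm_cfc_le hε.le fun z hz => ?_
  exact h z (spectrum.norm_eq_one_of_unitary hun hz)

theorem p_MOM (hL : Stmt_LAU) : Stmt_MOM.{u} := by
  intro M _ _ u v hu hv φ hφ
  rw [← sub_eq_zero, ← norm_le_zero_iff]
  refine le_of_forall_pos_le_add fun ε hε => ?_
  obtain ⟨n, c, d, h⟩ := hL φ hφ (ε / 2) (half_pos hε)
  have h1 := MOM_near u hu φ hφ (ε / 2) (half_pos hε) n c d h
  have h2 := MOM_near v hv φ hφ (ε / 2) (half_pos hε) n c d h
  set t : ℂ := ∑ k ∈ Finset.range n, (c k + d k) * (if k = 0 then 1 else 0) with ht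
  have e : tr (cfc φ u) - tr (cfc φ v) = (tr (cfc φ u) - t) - (tr (cfc φ v) - t) := by ring
  rw [e]
  refine (norm_sub_le _ _).trans ?_
  linarith

end ND

end SCO
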