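import Pool.Agent.Work.MP_52dd0f_nd.Interface

/-!
# THEOREM ND, block NMX: the norm of an orthogonal sum
-/

set_option autoImplicit false
set_option linter.unusedSectionVars false

namespace SCO

open Filter Topology

universe u

namespace ND

theorem p_NMX : Stmt_NMX.{u} := by
  intro M _ J p x hp hpp hl hr δ hδ hx
  let _ := CStarAlgebra.spectralOrder M
  have _ := CStarAlgebra.spectralOrderedRing M
  set c : M := algebraMap ℝ M (δ ^ 2) with hc
  have hc0 : 0 ≤ c := by
    have : algebraMap ℝ M 0 ≤ algebraMap ℝ M (δ ^ 2) := algebraMap_mono M (by positivity)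
    rwa [map_zero] at this
  have hcc : ∀ y : M, c * y = y * c := fun y => Algebra.commutes _ _
  have key : ∀ (F z : M), IsProj F → z * F = z → ‖z‖ ≤ δ → star z * z ≤ c * F := by
    intro F z hF hz hz1
    have h1 : star z * z ≤ c := by
      have h2 : star z * z ≤ algebraMap ℝ M (‖z‖ ^ 2) := CStarAlgebra.star_mul_le_algebraMap_norm_sq
      have h3 : algebraMap ℝ M (‖z‖ ^ 2) ≤ algebraMap ℝ M (δ ^ 2) := by
        apply algebraMap_mono
        exact pow_le_pow_left₀ (norm_nonneg _) hz1 2
      exact h2.trans h3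
    have h4 : 0 ≤ star F * (c - star z * z) * F := star_left_conjugate_nonneg (sub_nonneg.2 h1) F
    have h6 : star F * (c - star z * z) * F = c * F - star z * z := by
      have h7 : star F * star z = star z := by rw [← star_mul, hz]
      calc star F * (c - star z * z) * F = star F * (c * F) - (star F * star z) * (z * F) := by
            noncomm_ring
        _ = _ := by rw [h7, hz, hF.star, ← mul_assoc, ← hcc F, mul_assoc, hF.mul]
    rw [h6] at h4
    exact sub_nonneg.1 h4
  have hmix : ∀ i j, i ≠ j → star (x i) * x j = 0 := by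
    intro i j hij
    have h1 : star (x i) = star (x i) * p i := by
      have := congrArg star (hl i)
      rwa [star_mul, (hp i).star, eq_comm] at this
    rw [h1, ← hl j, mul_assoc, ← mul_assoc (p i), hpp i j hij, zero_mul, mul_zero]
  have hsum : star (∑ j, x j) * (∑ j, x j) = ∑ j, star (x j) * x j := by
    rw [star_sum, Finset.sum_mul]
    refine Finset.sum_congr rfl fun i _ => ?_
    rw [Finset.mul_sum]
    rw [Finset.sum_eq_single i]
    · intro j _ hj
      exact hmix i j (Ne.symm hj)
    · intro h; exact absurd (Finset.mem_univ i) h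
  have hP : (∑ j, p j) * (∑ j, p j) = ∑ j, p j := by
    rw [Finset.sum_mul]
    refine Finset.sum_congr rfl fun i _ => ?_
    rw [Finset.mul_sum, Finset.sum_eq_single i]
    · exact (hp i).mul
    · intro j _ hj
      exact hpp i j (Ne.symm hj)
    · intro h; exact absurd (Finset.mem_univ i) h
  have hPs : star (∑ j, p j) = ∑ j, p j := by
    rw [star_sum]; exact Finset.sum_congr rfl fun i _ => (hp i).star
  have h1 : star (∑ j, x j) * (∑ j, x j) ≤ c := by
    rw [hsum]
    have h2 : ∑ j, star (x j) * x j ≤ ∑ j, c * p j :=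
      Finset.sum_le_sum fun j _ => key (p j) (x j) (hp j) (hr j) (hx j)
    refine h2.trans ?_
    rw [← Finset.mul_sum]
    have h3 : 0 ≤ star (1 - ∑ j, p j) * c * (1 - ∑ j, p j) := star_left_conjugate_nonneg hc0 _
    have h4 : star (1 - ∑ j, p j) * c * (1 - ∑ j, p j) = c - c * ∑ j, p j := by
      rw [star_sub, star_one, hPs, ← hcc]
      calc c * (1 - ∑ j, p j) * (1 - ∑ j, p j)
          = c - c * (∑ j, p j) - c * (∑ j, p j) + c * ((∑ j, p j) * (∑ j, p j)) := by noncomm_ring
        _ = _ := by rw [hP]; abel
    rw [h4] at h3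
    exact sub_nonneg.1 h3
  have h5 : ‖star (∑ j, x j) * (∑ j, x j)‖ ≤ δ ^ 2 :=
    (CStarAlgebra.norm_le_iff_le_algebraMap _ (by positivity) (star_mul_self_nonneg _)).2 h1
  rw [CStarRing.norm_star_mul_self] at h5
  exact abs_le_of_sq_le_sq' (by rw [sq]; exact h5) hδ |>.2

end ND

end SCO
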