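import Pool.Agent.Work.MP_52dd0f_nd.Interface

set_option autoImplicit false
set_option linter.unusedSectionVars false

namespace SCO

open Filter Topology

universe u

namespace ND

theorem ONE_chain {M : Type u} [CStarAlgebra M] [TVN M] (𝒰 : Ultrafilter ℕ)
    (h𝒰 : (𝒰 : Filter ℕ) ≤ atTop) {n : ℕ} {u : M} (V : Sq M) (h : ∀ k, Conn n u (V.ev k)) :
    ∃ w : ℕ → UP M 𝒰, w 0 = iU 𝒰 u ∧ w (n + 1) = toUP 𝒰 V ∧ (∀ i, HaarU (w i)) ∧
      ∀ i ≤ n, w i * w (i + 1) = w (i + 1) * w i := by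
  have hε : ∀ k : ℕ, (0 : ℝ) < 1 / ((k : ℝ) + 1) := fun k => by positivity
  choose w h0 h1 h2 h3 using fun k : ℕ => h k (1 / ((k : ℝ) + 1)) (hε k) k
  have ht : Tendsto (fun k : ℕ => 1 / ((k : ℝ) + 1)) (𝒰 : Filter ℕ) (𝓝 0) :=
    tendsto_one_div_add_atTop_nhds_zero_nat.mono_left h𝒰
  have hH : ∀ i, IsHaarU 𝒰 (tr : M →ₗ[ℂ] ℂ) (fun k => w k i) := by
    intro i
    have key : ∀ m : ℕ, m ≠ 0 → Tendsto (fun k => tr (w k i ^ m)) (𝒰 : Filter ℕ) (𝓝 0) := by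
      intro m hm
      rw [tendsto_zero_iff_norm_tendsto_zero]
      refine squeeze_zero' (Eventually.of_forall fun _ => norm_nonneg _) ?_ ht
      have : ∀ᶠ k in (𝒰 : Filter ℕ), m ≤ k := h𝒰 (eventually_ge_atTop m)
      filter_upwards [this] with k hk
      exact ((h2 k i).haar m (Nat.one_le_iff_ne_zero.2 hm) hk).le
    refine ⟨⟨1, fun k => (h2 k i).norm_le⟩, ?_, ?_, fun m hm => ⟨key m hm, ?_⟩⟩
    · exact squeeze_zero (fun _ => n2_nonneg _) (fun k => (h2 k i).isom.le) ht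
    · exact squeeze_zero (fun _ => n2_nonneg _) (fun k => (h2 k i).coisom.le) ht
    · have := (Complex.continuous_conj.tendsto _).comp (key m hm)
      rw [map_zero] at this
      refine this.congr fun k => ?_
      rw [Function.comp_apply, ← tr_star, star_pow]
  have hb : ∀ i, Bdd (fun k => w k i) := fun i => (hH i).bounded
  refine ⟨fun i => toUP 𝒰 (mkSq (fun k => w k i) (hb i)), ?_, ?_, fun i => ?_, fun i hi => ?_⟩
  · show toUP 𝒰 (mkSq (fun k => w k 0) (hb 0)) = toUP 𝒰 (cstSq u)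
    rw [toUP_eq_iff, mkSq_ev]
    have : (fun k => w k 0) = (cstSq u).ev := funext fun k => h0 k
    rw [this]; exact Eq2.refl _
  · show toUP 𝒰 (mkSq (fun k => w k (n + 1)) (hb (n + 1))) = toUP 𝒰 V
    rw [toUP_eq_iff, mkSq_ev]
    have : (fun k => w k (n + 1)) = V.ev := funext fun k => h1 k
    rw [this]; exact Eq2.refl _
  · rw [haarU_toUP_iff, mkSq_ev]; exact hH i
  · rw [commute_toUP_iff, mkSq_ev, mkSq_ev]
    exact squeeze_zero (fun _ => n2_nonneg _) (fun k => (h3 k i hi).le) ht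

theorem ONE_jn {P : Type u} [CStarAlgebra P] [TVN P] {n : ℕ} (w : ℕ → P) (h : ∀ i, HaarU (w i))
    (hc : ∀ i ≤ n, w i * w (i + 1) = w (i + 1) * w i) : ∀ m, m ≤ n + 1 → Jn 1 (w 0) (w m) := by
  intro m
  induction m with
  | zero => exact fun _ => Relation.ReflTransGen.refl
  | succ m ih =>
    intro hm
    exact (ih (by omega)).tail ⟨(h m).isHaarIn, (h (m + 1)).isHaarIn, hc m (by omega)⟩

theorem ONE_symm {P : Type u} [CStarAlgebra P] [TrC P] {p x y : P} (h : Jn p x y) : Jn p y x := by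
  have hs : ∀ a b : P, (IsHaarIn p a ∧ IsHaarIn p b ∧ a * b = b * a) →
      (IsHaarIn p b ∧ IsHaarIn p a ∧ b * a = a * b) := fun a b h => ⟨h.2.1, h.1, h.2.2.symm⟩
  unfold Jn at h ⊢
  induction h with
  | refl => exact Relation.ReflTransGen.refl
  | tail _ h1 ih => exact Relation.ReflTransGen.head (hs _ _ h1) ih

theorem ONE_base {M : Type u} [CStarAlgebra M] [TVN M] [FactorII M] (hSAA : Stmt_SAA.{u})
    (hULF : Stmt_ULF.{u}) (𝒰 : Ultrafilter ℕ)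
    [hF : Fact ((𝒰 : Filter ℕ) ≤ atTop)] {u : M} {L : ℕ} (hu : HaarU u)
    (hL : ∀ g : UG M, g ∈ Stb u L) (W : UP M 𝒰) (hW : HaarU W) : Jn 1 (iU 𝒰 u) W := by
  have hiu : HaarU (iU 𝒰 u) := by
    refine ⟨?_, ?_, fun j hj => ?_⟩
    · rw [← map_star, ← map_mul, hu.isom, map_one]
    · rw [← map_star, ← map_mul, hu.coisom, map_one]
    · rw [← map_pow, tr_iU]; exact hu.haar j hj
  obtain ⟨g, hg1, hg2, hg⟩ := hSAA M 𝒰 (iU 𝒰 u) W hiu hW
  obtain ⟨x, hx, hxu⟩ := hULF M 𝒰 g hg1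
  obtain ⟨w, hw0, hw1, hwH, hwc⟩ := ONE_chain 𝒰 hF.out (n := L) (u := u)
    (x * cstSq u * star x) (fun k => by
      have h1 : UG.mk (x.ev k) (hxu k).1 (hxu k).2 ∈ Stb u L := hL _
      exact h1)
  have h2 : w (L + 1) = W := by
    rw [hw1, map_mul, map_mul, map_star, hx]
    exact hg
  have h3 := ONE_jn w hwH hwc (L + 1) le_rfl
  rw [h2, hw0] at h3
  exact h3

theorem p_ONE (hSAA : Stmt_SAA.{u}) (hULF : Stmt_ULF.{u}) (hUNF : Stmt_UNF.{u}) :
    Stmt_ONE.{u} := by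
  intro M _ _ _ 𝒰 hF hM W W' hW hW'
  obtain ⟨u, L, hu, hL⟩ := hUNF M hM
  exact (ONE_symm (ONE_base hSAA hULF 𝒰 hu hL W hW)).trans
    (ONE_base hSAA hULF 𝒰 hu hL W' hW')

end ND

end SCO
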