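import Pool.Agent.Work.MP_52dd0f_nd.Interface

/-!
# Block SAA: Haar unitaries of the ultrapower are conjugate
-/

set_option autoImplicit false
set_option linter.unusedSectionVars false

namespace SCO

open Filter Topology

universe u

namespace ND

/-- the three functions of the saturation argument -/
noncomputable def SAA_F {M : Type u} [CStarAlgebra M] (U V : Sq M) (j : Fin 3) (x : Unit → Sq M) :
    Sq M :=
  match j with
  | 0 => star (x ()) * x () - 1
  | 1 => x () * star (x ()) - 1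
  | 2 => x () * U * star (x ()) - V

theorem SAA_loc {M : Type u} [CStarAlgebra M] (U V : Sq M) (j : Fin 3) : Loc (SAA_F U V j) := by
  intro x y k h
  have h0 := h ()
  match j with
  | 0 =>
    show (star (x ()) * x () - 1 : Sq M).ev k = (star (y ()) * y () - 1 : Sq M).ev k
    simp only [Sq.ev_sub, Sq.ev_mul, Sq.ev_star, Sq.ev_one, h0]
  | 1 =>
    show (x () * star (x ()) - 1 : Sq M).ev k = (y () * star (y ()) - 1 : Sq M).ev k
    simp only [Sq.ev_sub, Sq.ev_mul, Sq.ev_star, Sq.ev_one, h0]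
  | 2 =>
    show (x () * U * star (x ()) - V : Sq M).ev k = (y () * U * star (y ()) - V : Sq M).ev k
    simp only [Sq.ev_sub, Sq.ev_mul, Sq.ev_star, h0]

theorem p_SAA (hCJN : Stmt_CJN.{u}) (hFAC : Stmt_FAC.{u}) (hSAT : Stmt_SAT.{u}) :
    Stmt_SAA.{u} := by
  intro M _ _ _ 𝒰 hU u v hu hv
  obtain ⟨U, -, hU1⟩ := exists_lift_UP 𝒰 u
  obtain ⟨V, -, hV1⟩ := exists_lift_UP 𝒰 v
  haveI : FactorII (UP M 𝒰) := hFAC M 𝒰
  obtain ⟨x, -, hx⟩ := hSAT M 𝒰 Unit (Fin 3) (SAA_F U V) (SAA_loc U V) (by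
    intro ε hε
    obtain ⟨g, hg1, hg2, hg3⟩ := hCJN (UP M 𝒰) u v hu hv ε hε
    obtain ⟨x, hx1, hx2⟩ := exists_lift_UP 𝒰 g
    refine ⟨fun _ => x, fun _ => hx1.trans (norm_le_one_of_star_mul hg1), fun j => ?_⟩
    match j with
    | 0 =>
      show n2 (toUP 𝒰 (star x * x - 1)) ≤ ε
      rw [map_sub, map_mul, map_star, map_one, hx2, hg1, sub_self, n2_zero]
      exact hε.le
    | 1 =>
      show n2 (toUP 𝒰 (x * star x - 1)) ≤ ε
      rw [map_sub, map_mul, map_star, map_one, hx2, hg2, sub_self, n2_zero]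
      exact hε.le
    | 2 =>
      show n2 (toUP 𝒰 (x * U * star x - V)) ≤ ε
      rw [map_sub, map_mul, map_mul, map_star, hx2, hU1, hV1]
      exact (n2_le_norm _).trans hg3)
  refine ⟨toUP 𝒰 (x ()), ?_, ?_, ?_⟩
  · have h := hx 0
    have h' : toUP 𝒰 (star (x ()) * x () - 1) = 0 := h
    rw [map_sub, map_mul, map_star, map_one] at h'
    exact sub_eq_zero.1 h'
  · have h := hx 1
    have h' : toUP 𝒰 (x () * star (x ()) - 1) = 0 := h
    rw [map_sub, map_mul, map_star, map_one] at h'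
    exact sub_eq_zero.1 h'
  · have h := hx 2
    have h' : toUP 𝒰 (x () * U * star (x ()) - V) = 0 := h
    rw [map_sub, map_mul, map_mul, map_star, hU1, hV1] at h'
    exact sub_eq_zero.1 h'

end ND

end SCO
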