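import Pool.Agent.Work.MP_52dd0f_nd.Interface

/-!
# Block SAB (helper74)
-/

set_option autoImplicit false
set_option linter.unusedSectionVars false

namespace SCO

open Filter Topology

universe u

namespace ND

section Alg

variable {P : Type u} [CStarAlgebra P] [TrC P] {n : ℕ}

theorem SAB_cs {x y : P} (h1 : star x * x = 1) (h2 : x * star x = 1)
    (h : x * y = y * x) : star x * y = y * star x := by
  calc star x * y = star x * y * (x * star x) := by rw [h2, mul_one]
    _ = star x * (y * x) * star x := by simp only [mul_assoc]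
    _ = star x * (x * y) * star x := by rw [h]
    _ = (star x * x) * y * star x := by simp only [mul_assoc]
    _ = y * star x := by rw [h1, one_mul]

theorem SAB_pp {e f : P} (he : IsProj e) (hf : IsProj f) (h : e * f = f * e) : IsProj (e * f) := by
  refine ⟨?_, by rw [star_mul, he.star, hf.star, h]⟩
  calc e * f * (e * f) = e * (f * e) * f := by simp only [mul_assoc]
    _ = e * e * (f * f) := by rw [← h]; simp only [mul_assoc]
    _ = e * f := by rw [he.mul, hf.mul]

theorem SAB_left {a : Fin (n + 1) → Fin (n + 1) → P} {r : P} (ha : MU r a) (i j : Fin (n + 1)) :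
    r * a i j = a i j := by
  rw [← ha.sum, Finset.sum_mul, Finset.sum_eq_single i]
  · rw [ha.mul, if_pos rfl]
  · intro k _ hk
    rw [ha.mul, if_neg hk]
  · intro h; exact absurd (Finset.mem_univ i) h

theorem SAB_right {a : Fin (n + 1) → Fin (n + 1) → P} {r : P} (ha : MU r a) (i j : Fin (n + 1)) :
    a i j * r = a i j := by
  rw [← ha.sum, Finset.mul_sum, Finset.sum_eq_single j]
  · rw [ha.mul, if_pos rfl]
  · intro k _ hk
    rw [ha.mul, if_neg (Ne.symm hk)]
  · intro h; exact absurd (Finset.mem_univ j) h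

/-- sums of matrix units over orthogonal projections -/
theorem SAB_sum {ι : Type} [Fintype ι] [DecidableEq ι] (r : ι → P) (e : ι → Fin (n + 1) → Fin (n + 1) → P)
    (he : ∀ k, MU (r k) (e k)) (ho : ∀ k l, k ≠ l → r k * r l = 0) (hs : ∑ k, r k = 1) :
    MU 1 (fun i j => ∑ k, e k i j) := by
  have hz : ∀ k l, k ≠ l → ∀ i j i' j', e k i j * e l i' j' = 0 := by
    intro k l hkl i j i' j'
    rw [← SAB_right (he k) i j, ← SAB_left (he l) i' j']
    calc e k i j * r k * (r l * e l i' j') = e k i j * (r k * r l) * e l i' j' := by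
          simp only [mul_assoc]
      _ = 0 := by rw [ho k l hkl, mul_zero, zero_mul]
  refine ⟨?_, ?_, ?_⟩
  · intro i j l m
    have h1 : ∀ k, e k i j * ∑ k', e k' l m = if j = l then e k i m else 0 := by
      intro k
      rw [Finset.mul_sum, Finset.sum_eq_single k]
      · exact (he k).mul i j l m
      · intro k' _ hk'
        exact hz k k' (Ne.symm hk') _ _ _ _
      · intro h; exact absurd (Finset.mem_univ k) h
    show (∑ k, e k i j) * (∑ k, e k l m) = if j = l then ∑ k, e k i m else 0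
    rw [Finset.sum_mul, Finset.sum_congr rfl fun k _ => h1 k]
    by_cases hjl : j = l
    · simp only [if_pos hjl]
    · simp only [if_neg hjl, Finset.sum_const_zero]
  · intro i j
    show star (∑ k, e k i j) = ∑ k, e k j i
    rw [star_sum]
    exact Finset.sum_congr rfl fun k _ => (he k).star i j
  · show ∑ i, ∑ k, e k i i = 1
    rw [Finset.sum_comm, ← hs]
    exact Finset.sum_congr rfl fun k _ => (he k).sum

theorem SAB_norm {a : Fin (n + 1) → Fin (n + 1) → P} (ha : MU 1 a) (i j : Fin (n + 1)) :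
    ‖a i j‖ ≤ 1 := by
  have h1 : a i j * star (a i j) * a i j = a i j := by
    rw [ha.star, ha.mul, if_pos rfl, ha.mul, if_pos rfl]
  exact pi_norm_le h1

/-- approximation of the commutator -/
theorem SAB_near {u y : P} {ε : ℝ} {J : ℕ} {lam : Fin J → ℂ} {p : Fin J → P}
    (hp : Dec u ε lam p) (hy : ∀ l, p l * y = y * p l) (hn : ‖y‖ ≤ 1) : ‖u * y - y * u‖ ≤ 2 * ε := by
  set S : P := ∑ j, lam j • p j with hS
  have hSY : S * y = y * S := by
    rw [hS, Finset.sum_mul, Finset.mul_sum]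
    refine Finset.sum_congr rfl fun j _ => ?_
    rw [smul_mul_assoc, mul_smul_comm, hy]
  have hd : u * y - y * u = (u - S) * y - y * (u - S) := by
    rw [sub_mul, mul_sub, hSY]; abel
  have hnear := hp.near
  have h0 : 0 ≤ ε := (norm_nonneg _).trans hnear
  rw [hd]
  have h1 : ‖(u - S) * y‖ ≤ ε := by
    calc ‖(u - S) * y‖ ≤ ‖u - S‖ * ‖y‖ := norm_mul_le _ _
      _ ≤ ε * 1 := mul_le_mul hnear hn (norm_nonneg _) h0
      _ = ε := mul_one _
  have h2 : ‖y * (u - S)‖ ≤ ε := by
    calc ‖y * (u - S)‖ ≤ ‖y‖ * ‖u - S‖ := norm_mul_le _ _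
      _ ≤ 1 * ε := mul_le_mul hn hnear (norm_nonneg _) (by linarith)
      _ = ε := one_mul _
  calc ‖(u - S) * y - y * (u - S)‖ ≤ ‖(u - S) * y‖ + ‖y * (u - S)‖ := norm_sub_le _ _
    _ ≤ 2 * ε := by linarith

end Alg

/-- the functions -/
noncomputable def SAB_F {M : Type u} [CStarAlgebra M] {n : ℕ} (u v : Sq M) :
    ((Fin (n + 1) × Fin (n + 1)) × (Fin (n + 1) × Fin (n + 1))) ⊕ (Unit ⊕ (Fin 3 × (Fin (n + 1) × Fin (n + 1)))) →
      (Fin (n + 1) × Fin (n + 1) → Sq M) → Sq M
  | Sum.inl q, x => x q.1 * x q.2 - (if q.1.2 = q.2.1 then x (q.1.1, q.2.2) else 0)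
  | Sum.inr (Sum.inl _), x => ∑ i, x (i, i) - 1
  | Sum.inr (Sum.inr (0, ij)), x => star (x ij) - x (ij.2, ij.1)
  | Sum.inr (Sum.inr (1, ij)), x => u * x ij - x ij * u
  | Sum.inr (Sum.inr (2, ij)), x => v * x ij - x ij * v

theorem SAB_evsum {M : Type u} [CStarAlgebra M] {ι : Type} (s : Finset ι) (f : ι → Sq M) (k : ℕ) :
    (∑ i ∈ s, f i).ev k = ∑ i ∈ s, (f i).ev k := by
  classical
  induction s using Finset.induction_on with
  | empty => simp
  | insert a s ha ih => rw [Finset.sum_insert ha, Finset.sum_insert ha, Sq.ev_add, ih]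

theorem SAB_loc {M : Type u} [CStarAlgebra M] {n : ℕ} (u v : Sq M)
    (j : ((Fin (n + 1) × Fin (n + 1)) × (Fin (n + 1) × Fin (n + 1))) ⊕
      (Unit ⊕ (Fin 3 × (Fin (n + 1) × Fin (n + 1))))) : Loc (SAB_F u v j) := by
  intro x y k h
  rcases j with q | q | ⟨t, ij⟩
  · show (x q.1 * x q.2 - (if q.1.2 = q.2.1 then x (q.1.1, q.2.2) else 0) : Sq M).ev k =
      (y q.1 * y q.2 - (if q.1.2 = q.2.1 then y (q.1.1, q.2.2) else 0) : Sq M).ev k
    by_cases hq : q.1.2 = q.2.1
    · rw [if_pos hq, if_pos hq, Sq.ev_sub, Sq.ev_sub, Sq.ev_mul, Sq.ev_mul, h, h, h]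
    · rw [if_neg hq, if_neg hq, Sq.ev_sub, Sq.ev_sub, Sq.ev_mul, Sq.ev_mul, h, h]
  · show (∑ i, x (i, i) - 1 : Sq M).ev k = (∑ i, y (i, i) - 1 : Sq M).ev k
    rw [Sq.ev_sub, Sq.ev_sub, SAB_evsum, SAB_evsum, Finset.sum_congr rfl fun i _ => h (i, i)]
  · match t with
    | 0 =>
      show (star (x ij) - x (ij.2, ij.1) : Sq M).ev k = (star (y ij) - y (ij.2, ij.1) : Sq M).ev k
      rw [Sq.ev_sub, Sq.ev_sub, Sq.ev_star, Sq.ev_star, h, h]
    | 1 =>
      show (u * x ij - x ij * u : Sq M).ev k = (u * y ij - y ij * u : Sq M).ev k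
      simp only [Sq.ev_sub, Sq.ev_mul, h]
    | 2 =>
      show (v * x ij - x ij * v : Sq M).ev k = (v * y ij - y ij * v : Sq M).ev k
      simp only [Sq.ev_sub, Sq.ev_mul, h]

/-- the approximate version in a factor -/
theorem SAB_app (hDEC : Stmt_DEC.{u}) (hUNX : Stmt_UNX.{u}) {Q : Type u} [CStarAlgebra Q] [TVN Q]
    [FactorII Q] {u v : Q} (hu1 : star u * u = 1) (hu2 : u * star u = 1) (hv1 : star v * v = 1)
    (hv2 : v * star v = 1) (huv : u * v = v * u) (n : ℕ) {ε : ℝ} (hε : 0 < ε) :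
    ∃ a : Fin (n + 1) → Fin (n + 1) → Q, MU 1 a ∧
      ∀ i j, ‖u * a i j - a i j * u‖ ≤ ε ∧ ‖v * a i j - a i j * v‖ ≤ ε := by
  classical
  obtain ⟨J, lam, Ψ, -, -, hD⟩ := hDEC (ε / 2) (by linarith)
  obtain ⟨p, hp, -⟩ := hD Q u hu1 hu2
  obtain ⟨q, hq, -⟩ := hD Q v hv1 hv2
  have hqu : ∀ k, u * q k = q k * u :=
    hq.comm u huv.symm (SAB_cs hv1 hv2 huv.symm)
  have hqp : ∀ k j, q k * p j = p j * q k := fun k j =>
    hp.comm (q k) (hqu k) (SAB_cs hu1 hu2 (hqu k)) j
  have hpr : ∀ t : Fin J × Fin J, IsProj (p t.1 * q t.2) := fun t =>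
    SAB_pp (hp.proj t.1) (hq.proj t.2) (hqp t.2 t.1).symm
  choose e he using fun t : Fin J × Fin J => hUNX Q (p t.1 * q t.2) (hpr t) n
  have ho : ∀ s t : Fin J × Fin J, s ≠ t → (p s.1 * q s.2) * (p t.1 * q t.2) = 0 := by
    intro s t hst
    have h1 : (p s.1 * q s.2) * (p t.1 * q t.2) = (p s.1 * p t.1) * (q s.2 * q t.2) := by
      calc (p s.1 * q s.2) * (p t.1 * q t.2) = p s.1 * (q s.2 * p t.1) * q t.2 := by
            simp only [mul_assoc]
        _ = (p s.1 * p t.1) * (q s.2 * q t.2) := by rw [hqp]; simp only [mul_assoc]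
    rw [h1]
    by_cases h2 : s.1 = t.1
    · have h3 : s.2 ≠ t.2 := fun h => hst (Prod.ext h2 h)
      rw [hq.orth _ _ h3, mul_zero]
    · rw [hp.orth _ _ h2, zero_mul]
  have hs : ∑ t : Fin J × Fin J, p t.1 * q t.2 = 1 := by
    rw [Fintype.sum_prod_type]
    have : ∀ j, ∑ k, p j * q k = p j := by
      intro j
      rw [← Finset.mul_sum, hq.sum, mul_one]
    rw [Finset.sum_congr rfl fun j _ => this j, hp.sum]
  have hA := SAB_sum (fun t : Fin J × Fin J => p t.1 * q t.2) e he ho hs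
  have hpe : ∀ (l : Fin J) (t : Fin J × Fin J) i j, p l * e t i j = e t i j * p l := by
    intro l t i j
    have h1 : p l * (p t.1 * q t.2) = (p t.1 * q t.2) * p l := by
      have h2 : p l * p t.1 = p t.1 * p l := by
        by_cases h : l = t.1
        · rw [h]
        · rw [hp.orth _ _ h, hp.orth _ _ (Ne.symm h)]
      calc p l * (p t.1 * q t.2) = (p l * p t.1) * q t.2 := by rw [mul_assoc]
        _ = p t.1 * (p l * q t.2) := by rw [h2, mul_assoc]
        _ = (p t.1 * q t.2) * p l := by rw [← hqp, mul_assoc]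
    have h3 : p l * (p t.1 * q t.2) = if l = t.1 then p t.1 * q t.2 else 0 := by
      by_cases h : l = t.1
      · rw [if_pos h, h, ← mul_assoc, (hp.proj _).mul]
      · rw [if_neg h, ← mul_assoc, hp.orth _ _ h, zero_mul]
    calc p l * e t i j = p l * (p t.1 * q t.2 * e t i j) := by rw [SAB_left (he t)]
      _ = (p l * (p t.1 * q t.2)) * e t i j := by simp only [mul_assoc]
      _ = if l = t.1 then e t i j else 0 := by
          rw [h3]
          by_cases h : l = t.1
          · rw [if_pos h, if_pos h, SAB_left (he t)]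
          · rw [if_neg h, if_neg h, zero_mul]
      _ = e t i j * (p l * (p t.1 * q t.2)) := by
          rw [h3]
          by_cases h : l = t.1
          · rw [if_pos h, if_pos h, SAB_right (he t)]
          · rw [if_neg h, if_neg h, mul_zero]
      _ = e t i j * p l := by
          rw [h1]
          calc e t i j * (p t.1 * q t.2 * p l) = (e t i j * (p t.1 * q t.2)) * p l := by
                simp only [mul_assoc]
            _ = e t i j * p l := by rw [SAB_right (he t)]
  have hqe : ∀ (l : Fin J) (t : Fin J × Fin J) i j, q l * e t i j = e t i j * q l := by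
    intro l t i j
    have h1 : q l * (p t.1 * q t.2) = (p t.1 * q t.2) * q l := by
      have h2 : q l * q t.2 = q t.2 * q l := by
        by_cases h : l = t.2
        · rw [h]
        · rw [hq.orth _ _ h, hq.orth _ _ (Ne.symm h)]
      calc q l * (p t.1 * q t.2) = (q l * p t.1) * q t.2 := by rw [mul_assoc]
        _ = p t.1 * (q l * q t.2) := by rw [hqp, mul_assoc]
        _ = (p t.1 * q t.2) * q l := by rw [h2, mul_assoc]
    have h3 : q l * (p t.1 * q t.2) = if l = t.2 then p t.1 * q t.2 else 0 := by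
      rw [h1]
      by_cases h : l = t.2
      · rw [if_pos h, h, mul_assoc, (hq.proj _).mul]
      · rw [if_neg h, mul_assoc, hq.orth _ _ (Ne.symm h), mul_zero]
    calc q l * e t i j = q l * (p t.1 * q t.2 * e t i j) := by rw [SAB_left (he t)]
      _ = (q l * (p t.1 * q t.2)) * e t i j := by simp only [mul_assoc]
      _ = if l = t.2 then e t i j else 0 := by
          rw [h3]
          by_cases h : l = t.2
          · rw [if_pos h, if_pos h, SAB_left (he t)]
          · rw [if_neg h, if_neg h, zero_mul]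
      _ = e t i j * (q l * (p t.1 * q t.2)) := by
          rw [h3]
          by_cases h : l = t.2
          · rw [if_pos h, if_pos h, SAB_right (he t)]
          · rw [if_neg h, if_neg h, mul_zero]
      _ = e t i j * q l := by
          rw [h1]
          calc e t i j * (p t.1 * q t.2 * q l) = (e t i j * (p t.1 * q t.2)) * q l := by
                simp only [mul_assoc]
            _ = e t i j * q l := by rw [SAB_right (he t)]
  refine ⟨fun i j => ∑ t, e t i j, hA, ?_⟩
  intro i j
  constructor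
  · have h := SAB_near hp (y := ∑ t, e t i j) (fun l => by
      rw [Finset.mul_sum, Finset.sum_mul]
      exact Finset.sum_congr rfl fun t _ => hpe l t i j) (SAB_norm hA i j)
    linarith
  · have h := SAB_near hq (y := ∑ t, e t i j) (fun l => by
      rw [Finset.mul_sum, Finset.sum_mul]
      exact Finset.sum_congr rfl fun t _ => hqe l t i j) (SAB_norm hA i j)
    linarith

theorem p_SAB (hDEC : Stmt_DEC.{u}) (hFAC : Stmt_FAC.{u}) (hSAT : Stmt_SAT.{u})
    (hUNX : Stmt_UNX.{u}) : Stmt_SAB.{u} := by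
  intro M _ _ _ 𝒰 _ u v hu hv huv n
  have hF : FactorII (UP M 𝒰) := hFAC M 𝒰
  obtain ⟨U, -, hU⟩ := exists_lift_UP 𝒰 u
  obtain ⟨V, -, hV⟩ := exists_lift_UP 𝒰 v
  obtain ⟨x, -, hx⟩ := hSAT M 𝒰 (Fin (n + 1) × Fin (n + 1)) _ (SAB_F U V) (SAB_loc U V) (by
    intro ε hε
    obtain ⟨a, ha, hc⟩ := SAB_app hDEC hUNX hu.isom hu.coisom hv.isom hv.coisom huv n hε
    choose a' ha1 ha2 using fun ij : Fin (n + 1) × Fin (n + 1) => exists_lift_UP 𝒰 (a ij.1 ij.2)
    refine ⟨a', fun ij => (ha1 ij).trans (SAB_norm ha _ _), ?_⟩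
    intro j
    rcases j with q | q | ⟨t, ij⟩
    · show n2 (toUP 𝒰 (a' q.1 * a' q.2 - (if q.1.2 = q.2.1 then a' (q.1.1, q.2.2) else 0))) ≤ ε
      by_cases hq : q.1.2 = q.2.1
      · rw [if_pos hq, map_sub, map_mul, ha2, ha2, ha2, ha.mul, if_pos hq, sub_self, n2_zero]
        exact hε.le
      · rw [if_neg hq, map_sub, map_mul, ha2, ha2, ha.mul, if_neg hq, map_zero, sub_self, n2_zero]
        exact hε.le
    · show n2 (toUP 𝒰 (∑ i, a' (i, i) - 1)) ≤ ε
      rw [map_sub, map_sum, map_one, Finset.sum_congr rfl fun i _ => ha2 (i, i), ha.sum, sub_self,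
        n2_zero]
      exact hε.le
    · match t with
      | 0 =>
        show n2 (toUP 𝒰 (star (a' ij) - a' (ij.2, ij.1))) ≤ ε
        rw [map_sub, map_star, ha2, ha2, ha.star, sub_self, n2_zero]
        exact hε.le
      | 1 =>
        show n2 (toUP 𝒰 (U * a' ij - a' ij * U)) ≤ ε
        rw [map_sub, map_mul, map_mul, ha2, hU]
        exact (n2_le_norm _).trans (hc ij.1 ij.2).1
      | 2 =>
        show n2 (toUP 𝒰 (V * a' ij - a' ij * V)) ≤ ε
        rw [map_sub, map_mul, map_mul, ha2, hV]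
        exact (n2_le_norm _).trans (hc ij.1 ij.2).2)
  refine ⟨fun i j => toUP 𝒰 (x (i, j)), ⟨?_, ?_, ?_⟩, ?_⟩
  · intro i j l m
    have h : toUP 𝒰 (x (i, j) * x (l, m) - (if j = l then x (i, m) else 0)) = 0 :=
      hx (Sum.inl ((i, j), (l, m)))
    rw [map_sub, map_mul, sub_eq_zero] at h
    show toUP 𝒰 (x (i, j)) * toUP 𝒰 (x (l, m)) = if j = l then toUP 𝒰 (x (i, m)) else 0
    rw [h]
    by_cases hjl : j = l
    · rw [if_pos hjl, if_pos hjl]
    · rw [if_neg hjl, if_neg hjl, map_zero]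
  · intro i j
    have h : toUP 𝒰 (star (x (i, j)) - x (j, i)) = 0 := hx (Sum.inr (Sum.inr (0, (i, j))))
    rw [map_sub, map_star, sub_eq_zero] at h
    exact h
  · have h : toUP 𝒰 (∑ i, x (i, i) - 1) = 0 := hx (Sum.inr (Sum.inl ()))
    rw [map_sub, map_sum, map_one, sub_eq_zero] at h
    exact h
  · intro i j
    constructor
    · have h : toUP 𝒰 (U * x (i, j) - x (i, j) * U) = 0 := hx (Sum.inr (Sum.inr (1, (i, j))))
      rw [map_sub, map_mul, map_mul, sub_eq_zero, hU] at h
      exact h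
    · have h : toUP 𝒰 (V * x (i, j) - x (i, j) * V) = 0 := hx (Sum.inr (Sum.inr (2, (i, j))))
      rw [map_sub, map_mul, map_mul, sub_eq_zero, hV] at h
      exact h

end ND

end SCO
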