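import Pool.Agent.Work.MP_52dd0f_nd.Interface

/-!
# Block SAC (helper87)
-/

set_option autoImplicit false
set_option linter.unusedSectionVars false

namespace SCO

open Filter Topology

universe u

namespace ND

/-- the functions -/
noncomputable def SAC_F {M : Type u} [CStarAlgebra M] {n : ℕ} (u : Sq M)
    (a b : Fin (n + 1) → Fin (n + 1) → Sq M) : Fin 3 ⊕ (Fin (n + 1) × Fin (n + 1)) → (Unit → Sq M) → Sq M
  | Sum.inl 0, x => star (x ()) * x () - 1
  | Sum.inl 1, x => x () * star (x ()) - 1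
  | Sum.inl 2, x => u * x () - x () * u
  | Sum.inr ij, x => x () * a ij.1 ij.2 * star (x ()) - b ij.1 ij.2

theorem SAC_loc {M : Type u} [CStarAlgebra M] {n : ℕ} (u : Sq M)
    (a b : Fin (n + 1) → Fin (n + 1) → Sq M) (j : Fin 3 ⊕ (Fin (n + 1) × Fin (n + 1))) :
    Loc (SAC_F u a b j) := by
  intro x y k h
  have h1 := h ()
  rcases j with j | ij
  · fin_cases j
    · simp [SAC_F, h1]
    · simp [SAC_F, h1]
    · simp [SAC_F, h1]
  · simp [SAC_F, h1]

theorem p_SAC (hEQA : Stmt_EQA.{u}) (hFAC : Stmt_FAC.{u}) (hSAT : Stmt_SAT.{u}) : Stmt_SAC.{u} := by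
  intro M _ _ _ 𝒰 _ u hu n a b ha hb hca hcb
  have hF : FactorII (UP M 𝒰) := hFAC M 𝒰
  obtain ⟨u', -, hu'⟩ := exists_lift_UP 𝒰 u
  choose a' ha1 ha' using fun i j => exists_lift_UP 𝒰 (a i j)
  choose b' hb1 hb' using fun i j => exists_lift_UP 𝒰 (b i j)
  obtain ⟨x, hx1, hx2⟩ := hSAT M 𝒰 Unit (Fin 3 ⊕ (Fin (n + 1) × Fin (n + 1))) (SAC_F u' a' b')
    (SAC_loc u' a' b') (by
      intro ε hε
      obtain ⟨y, hy1, hy2, hy3, hy4⟩ := hEQA (UP M 𝒰) u hu.isom hu.coisom n a b ha hb hca hcb ε hε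
      obtain ⟨y', hyn, hy'⟩ := exists_lift_UP 𝒰 y
      have hyle : ‖y‖ ≤ 1 := pi_norm_le (by rw [mul_assoc, hy1, mul_one])
      refine ⟨fun _ => y', fun _ => hyn.trans hyle, ?_⟩
      intro j
      rcases j with j | ij
      · fin_cases j
        · show n2 (toUP 𝒰 (star y' * y' - 1)) ≤ ε
          rw [map_sub, map_mul, map_star, map_one, hy', hy1, sub_self, n2_zero]
          exact hε.le
        · show n2 (toUP 𝒰 (y' * star y' - 1)) ≤ ε
          rw [map_sub, map_mul, map_star, map_one, hy', hy2, sub_self, n2_zero]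
          exact hε.le
        · show n2 (toUP 𝒰 (u' * y' - y' * u')) ≤ ε
          rw [map_sub, map_mul, map_mul, hy', hu']
          exact (n2_le_norm _).trans hy3
      · show n2 (toUP 𝒰 (y' * a' ij.1 ij.2 * star y' - b' ij.1 ij.2)) ≤ ε
        rw [map_sub, map_mul, map_mul, map_star, hy', ha', hb', hy4, sub_self, n2_zero]
        exact hε.le)
  refine ⟨toUP 𝒰 (x ()), ?_, ?_, ?_, ?_⟩
  · have h : toUP 𝒰 (star (x ()) * x () - 1) = 0 := hx2 (Sum.inl 0)
    rw [map_sub, map_mul, map_star, map_one, sub_eq_zero] at h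
    exact h
  · have h : toUP 𝒰 (x () * star (x ()) - 1) = 0 := hx2 (Sum.inl 1)
    rw [map_sub, map_mul, map_star, map_one, sub_eq_zero] at h
    exact h
  · have h : toUP 𝒰 (u' * x () - x () * u') = 0 := hx2 (Sum.inl 2)
    rw [map_sub, map_mul, map_mul, sub_eq_zero, hu'] at h
    exact h
  · intro i j
    have h : toUP 𝒰 (x () * a' i j * star (x ()) - b' i j) = 0 := hx2 (Sum.inr (i, j))
    rw [map_sub, map_mul, map_mul, map_star, sub_eq_zero, ha', hb'] at h
    exact h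

end ND

end SCO
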