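import Pool.Agent.Work.MP_52dd0f_nd.Interface

/-!
# Block SAT: saturation of the ultrapower
-/

set_option autoImplicit false
set_option linter.unusedSectionVars false

namespace SCO

open Filter Topology

universe u

namespace ND

theorem SAT_norm_mk {M : Type u} [CStarAlgebra M] (x : ℕ → M) (h : ∀ k, ‖x k‖ ≤ 1) :
    ‖Sq.mk x 1 h‖ ≤ 1 :=
  (BoundedContinuousFunction.norm_le (f := (show BoundedContinuousFunction ℕ M from Sq.mk x 1 h))
    zero_le_one).2 h

theorem p_SAT : Stmt_SAT.{u} := by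
  intro M _ _ 𝒰 hU ι κ _ F hF hX
  classical
  have hpos : ∀ m : ℕ, (0 : ℝ) < 1 / ((m : ℝ) + 1) := fun m => by positivity
  choose X hX1 hX2 using fun m : ℕ => hX (1 / ((m : ℝ) + 1)) (hpos m)
  let P : ℕ → ℕ → Prop := fun k m => ∀ j, n2 ((F j (X m)).ev k) ≤ 2 / ((m : ℝ) + 1)
  have hP : ∀ m, ∀ᶠ k in (𝒰 : Filter ℕ), P k m := by
    intro m
    rw [Filter.eventually_all]
    intro j
    have h1 := tendsto_n2_toUP 𝒰 (F j (X m))
    have h2 : n2 (toUP 𝒰 (F j (X m))) < 2 / ((m : ℝ) + 1) := by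
      refine (hX2 m j).trans_lt ?_
      have := hpos m
      rw [show (2 : ℝ) / ((m : ℝ) + 1) = 2 * (1 / ((m : ℝ) + 1)) by ring]
      linarith
    exact (h1.eventually_lt_const h2).mono fun k hk => hk.le
  let μ : ℕ → ℕ := fun k => Nat.findGreatest (P k) k
  let x : ι → Sq M := fun i => Sq.mk (fun k => (X (μ k) i).ev k) 1
    fun k => ((X (μ k) i).norm_ev_le k).trans (hX1 (μ k) i)
  refine ⟨x, fun i => SAT_norm_mk _ _, fun j => ?_⟩
  have hloc : ∀ k, (F j x).ev k = (F j (X (μ k))).ev k := fun k => hF j _ _ k fun i => rfl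
  have hz : toUP 𝒰 (F j x) = toUP 𝒰 (0 : Sq M) := by
    rw [toUP_eq_iff]
    show Tendsto (fun k => n2 ((F j x).ev k - (0 : Sq M).ev k)) (𝒰 : Filter ℕ) (𝓝 0)
    have hbd : ∀ m₀ : ℕ, ∀ᶠ k in (𝒰 : Filter ℕ),
        n2 ((F j x).ev k - (0 : Sq M).ev k) ≤ 2 / ((m₀ : ℝ) + 1) := by
      intro m₀
      have h3 : ∀ᶠ k in (𝒰 : Filter ℕ), m₀ ≤ k := hU.out (eventually_ge_atTop m₀)
      filter_upwards [hP m₀, h3] with k hk1 hk2
      have h4 : m₀ ≤ μ k := Nat.le_findGreatest hk2 hk1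
      have h5 : P k (μ k) := Nat.findGreatest_spec hk2 hk1
      rw [Sq.ev_zero, sub_zero, hloc]
      refine (h5 j).trans ?_
      have h6 : (m₀ : ℝ) ≤ (μ k : ℝ) := by exact_mod_cast h4
      apply div_le_div_of_nonneg_left (by norm_num) (by positivity)
      linarith
    rw [tendsto_order]
    constructor
    · intro a ha
      exact Filter.Eventually.of_forall fun k => ha.trans_le (n2_nonneg _)
    · intro a ha
      obtain ⟨m₀, hm⟩ := exists_nat_one_div_lt (show (0 : ℝ) < a / 2 by linarith)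
      filter_upwards [hbd m₀] with k hk
      refine hk.trans_lt ?_
      rw [show (2 : ℝ) / ((m₀ : ℝ) + 1) = 2 * (1 / ((m₀ : ℝ) + 1)) by ring]
      linarith
  rw [hz, map_zero]

end ND

end SCO
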