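import Pool.Agent.Work.MP_52dd0f_nd.Interface

/-!
# Block SPN: the stabilizer of a class in the corner spans the corner
-/

set_option autoImplicit false
set_option linter.unusedSectionVars false

namespace SCO

open Filter Topology

universe u

namespace ND

section SPN

variable {P : Type u} [CStarAlgebra P] [TVN P]

/-- the span of a set closed under products is closed under products -/
theorem SPN_span_mul {G : Set P} (hG : ∀ g ∈ G, ∀ h ∈ G, g * h ∈ G) {x y : P}
    (hx : x ∈ Submodule.span ℂ G) (hy : y ∈ Submodule.span ℂ G) : x * y ∈ Submodule.span ℂ G := by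
  induction hx using Submodule.span_induction with
  | mem x hx =>
    induction hy using Submodule.span_induction with
    | mem y hy => exact Submodule.subset_span (hG x hx y hy)
    | zero => rw [mul_zero]; exact Submodule.zero_mem _
    | add y z _ _ h1 h2 => rw [mul_add]; exact Submodule.add_mem _ h1 h2
    | smul c y _ h => rw [mul_smul_comm]; exact Submodule.smul_mem _ _ h
  | zero => rw [zero_mul]; exact Submodule.zero_mem _
  | add x z _ _ h1 h2 => rw [add_mul]; exact Submodule.add_mem _ h1 h2
  | smul c x _ h => rw [smul_mul_assoc]; exact Submodule.smul_mem _ _ h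

/-- the elements whose entries lie in `V` -/
def SPN_B {n : ℕ} (a : Fin (n + 1) → Fin (n + 1) → P) (V : Submodule ℂ P) : Submodule ℂ P where
  carrier := {x | ∀ i j, a 0 i * x * a j 0 ∈ V}
  add_mem' := by
    intro x y hx hy i j
    rw [mul_add, add_mul]
    exact V.add_mem (hx i j) (hy i j)
  zero_mem' := by
    intro i j
    rw [mul_zero, zero_mul]
    exact V.zero_mem
  smul_mem' := by
    intro c x hx i j
    rw [mul_smul_comm, smul_mul_assoc]
    exact V.smul_mem _ (hx i j)

theorem SPN_mem_B {n : ℕ} {a : Fin (n + 1) → Fin (n + 1) → P} {V : Submodule ℂ P} {x : P} :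
    x ∈ SPN_B a V ↔ ∀ i j, a 0 i * x * a j 0 ∈ V := Iff.rfl

theorem SPN_B_mul {n : ℕ} {a : Fin (n + 1) → Fin (n + 1) → P} (ha : MU 1 a) {V : Submodule ℂ P}
    (hV : ∀ x ∈ V, ∀ y ∈ V, x * y ∈ V) {x y : P} (hx : x ∈ SPN_B a V) (hy : y ∈ SPN_B a V) :
    x * y ∈ SPN_B a V := by
  rw [SPN_mem_B] at hx hy ⊢
  intro i j
  have h1 : a 0 i * (x * y) * a j 0 = ∑ l, (a 0 i * x * a l 0) * (a 0 l * y * a j 0) := by
    calc a 0 i * (x * y) * a j 0 = a 0 i * x * 1 * y * a j 0 := by rw [mul_one, ← mul_assoc (a 0 i)]
      _ = a 0 i * x * (∑ l, a l l) * y * a j 0 := by rw [ha.sum]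
      _ = ∑ l, (a 0 i * x * a l 0) * (a 0 l * y * a j 0) := by
        rw [Finset.mul_sum, Finset.sum_mul, Finset.sum_mul]
        refine Finset.sum_congr rfl fun l _ => ?_
        have h2 : a l l = a l 0 * a 0 l := by
          rw [ha.mul l 0 0 l, if_pos rfl]
        rw [h2]
        simp only [mul_assoc]
  rw [h1]
  exact V.sum_mem fun l _ => hV _ (hx i l) _ (hy l j)

end SPN

theorem p_SPN (hJNS : Stmt_JNS.{u}) (hCUS : Stmt_CUS.{u}) (hAMP : Stmt_AMP.{u}) (hCNC : Stmt_CNC.{u})
    (hFRM : Stmt_FRM.{u}) : Stmt_SPN.{u} := by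
  intro P _ _ hS hall n a ha u hu x hx1 hx2
  obtain ⟨he, -, hame, hcomm, hmul, hstar, -, hcor, hhaar⟩ := hAMP P n a ha
  obtain ⟨-, -, -, hJ4, -, -⟩ := hJNS P (a 0 0) he
  set V : Submodule ℂ P := Submodule.span ℂ {g : P | Gp (a 0 0) u g} with hVdef
  have hVmul : ∀ x ∈ V, ∀ y ∈ V, x * y ∈ V := fun x hx y hy =>
    SPN_span_mul (fun g hg h hh => hJ4 u g h hu hg hh) hx hy
  have hue : a 0 0 * u = u := hu.mul_left he
  have hue' : u * a 0 0 = u := hu.mul_right he
  obtain ⟨hau1, hau2⟩ := hcor u hue hue'
  have haH : HaarU (am a u) := (hhaar u hue hue').1 hu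
  -- elements commuting with `am a u`
  have hcomB : ∀ T : P, T * am a u = am a u * T → T ∈ SPN_B a V := by
    intro T hT
    rw [SPN_mem_B]
    intro i j
    have h1 : u * a 0 i = a 0 i * am a u := by
      calc u * a 0 i = am a u * a 0 0 * a 0 i := by rw [hau2]
        _ = am a u * (a 0 0 * a 0 i) := by rw [mul_assoc]
        _ = am a u * a 0 i := by rw [ha.mul 0 0 0 i, if_pos rfl]
        _ = a 0 i * am a u := hcomm u 0 i
    have h2 : am a u * a j 0 = a j 0 * u := by
      calc am a u * a j 0 = a j 0 * am a u := hcomm u j 0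
        _ = (a j 0 * a 0 0) * am a u := by rw [ha.mul j 0 0 0, if_pos rfl]
        _ = a j 0 * (a 0 0 * am a u) := by rw [mul_assoc]
        _ = a j 0 * u := by rw [hau1]
    refine hCUS P (a 0 0) u _ he hu ?_ ?_ ?_
    · rw [← mul_assoc, ← mul_assoc, ha.mul 0 0 0 i, if_pos rfl]
    · rw [mul_assoc, ha.mul j 0 0 0, if_pos rfl]
    · calc u * (a 0 i * T * a j 0) = (u * a 0 i) * T * a j 0 := by simp only [mul_assoc]
        _ = a 0 i * (am a u * T) * a j 0 := by rw [h1]; simp only [mul_assoc]
        _ = a 0 i * (T * am a u) * a j 0 := by rw [hT]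
        _ = a 0 i * T * (am a u * a j 0) := by simp only [mul_assoc]
        _ = a 0 i * T * a j 0 * u := by rw [h2]; simp only [mul_assoc]
  -- unitaries
  have huni : ∀ Z : P, star Z * Z = 1 → Z * star Z = 1 → Z ∈ SPN_B a V := by
    intro Z hZ1 hZ2
    obtain ⟨S, w, hS1, hS2, hw, hjw, hW, hSV⟩ := hFRM P hS n a ha u (Z * am a u * star Z) hu
      (hall _ _ haH (haH.conj hZ1 hZ2))
    obtain ⟨h, hh1, hh2, hh3⟩ := hCNC P hS n a ha u w hu hw
    have hhe : a 0 0 * h = h := pi_mul_rng he hh1 hh2
    have hhe' : h * a 0 0 = h := pi_mul_src he hh1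
    have hsh : star h * a 0 0 = star h := by
      have := congrArg star hhe
      rwa [star_mul, he.star] at this
    have hGh : Gp (a 0 0) u h := ⟨hh1, hh2, by rw [hh3]; exact hjw⟩
    have hSB : S ∈ SPN_B a V := hSV
    -- `am a h`
    obtain ⟨hc1, hc2⟩ := hcor h hhe hhe'
    have hAB : am a h ∈ SPN_B a V := by
      rw [SPN_mem_B]
      intro i j
      have h3 : a 0 i * am a h * a j 0 = (a 0 i * a j 0) * am a h := by
        rw [mul_assoc, hcomm h j 0, ← mul_assoc]
      rw [h3, ha.mul 0 i j 0]
      by_cases hij : i = j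
      · rw [if_pos hij, hc1]
        exact Submodule.subset_span hGh
      · rw [if_neg hij, zero_mul]
        exact V.zero_mem
    have hA1 : star (am a h) * am a h = 1 := by
      rw [hstar h, ← hmul (star h) h hsh, hh1, hame]
    have hA2 : am a h * star (am a h) = 1 := by
      rw [hstar h, ← hmul h (star h) hhe', hh2, hame]
    have hAw : am a w = am a h * am a u * star (am a h) := by
      rw [← hh3, hmul (h * u) (star h) (by rw [mul_assoc, hue']), hmul h u hhe', hstar h]
    -- `T`
    have hTc : (star (am a h) * star S * Z) * am a u = am a u * (star (am a h) * star S * Z) := by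
      calc (star (am a h) * star S * Z) * am a u
          = star (am a h) * star S * (Z * am a u * 1) := by rw [mul_one]; simp only [mul_assoc]
        _ = star (am a h) * star S * (Z * am a u * star Z * Z) := by rw [← hZ1]; simp only [mul_assoc]
        _ = star (am a h) * star S * (S * am a w * star S * Z) := by rw [hW]
        _ = star (am a h) * (star S * S) * am a w * star S * Z := by simp only [mul_assoc]
        _ = star (am a h) * (am a h * am a u * star (am a h)) * star S * Z := by
          rw [hS1, mul_one, hAw]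
        _ = (star (am a h) * am a h) * am a u * star (am a h) * star S * Z := by
          simp only [mul_assoc]
        _ = am a u * (star (am a h) * star S * Z) := by rw [hA1, one_mul]; simp only [mul_assoc]
    have hTB : star (am a h) * star S * Z ∈ SPN_B a V := hcomB _ hTc
    have hZ : Z = S * am a h * (star (am a h) * star S * Z) := by
      calc Z = (S * star S) * Z := by rw [hS2, one_mul]
        _ = S * 1 * star S * Z := by rw [mul_one]
        _ = S * (am a h * star (am a h)) * star S * Z := by rw [hA2]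
        _ = _ := by simp only [mul_assoc]
    rw [hZ]
    exact SPN_B_mul ha hVmul (SPN_B_mul ha hVmul hSB hAB) hTB
  have htop : SPN_B a V = ⊤ := by
    rw [eq_top_iff, ← CStarAlgebra.span_unitary, Submodule.span_le]
    intro Z hZ
    exact huni Z (Unitary.mem_iff.1 hZ).1 (Unitary.mem_iff.1 hZ).2
  have hxB : x ∈ SPN_B a V := by rw [htop]; exact Submodule.mem_top
  have := hxB 0 0
  rwa [hx1, hx2] at this

end ND

end SCO
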