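import Pool.Agent.Work.MP_52dd0f_nd.Interface

set_option autoImplicit false
set_option linter.unusedSectionVars false

namespace SCO

open Filter Topology

universe u

namespace ND

theorem SUP_cfc {M : Type u} [CStarAlgebra M] (v : M) (hv : IsStarNormal v) (g : ℂ → ℝ)
    (hg : Continuous g) (h : ℝ → ℝ) (hh : Continuous h) :
    cfc h (cfc (fun z : ℂ => ((g z : ℝ) : ℂ)) v) = cfc (fun z : ℂ => ((h (g z) : ℝ) : ℂ)) v := by
  have hsa : IsSelfAdjoint (cfc (fun z : ℂ => ((g z : ℝ) : ℂ)) v) := by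
    rw [IsSelfAdjoint, ← cfc_star]
    congr 1
    funext z
    simp
  rw [cfc_real_eq_complex h hsa]
  rw [← cfc_comp' (fun z : ℂ => ((h z.re : ℝ) : ℂ)) (fun z : ℂ => ((g z : ℝ) : ℂ)) v]
  simp

theorem p_SUP : Stmt_SUP.{u} := by
  intro M _ _ v hv1 hv2 f hf
  have hn : IsStarNormal v := ⟨by rw [Commute, SemiconjBy, hv1, hv2]⟩
  obtain ⟨a, ha⟩ : ∃ a : M, a = cfc (fun z : ℂ => ((f z : ℝ) : ℂ)) v := ⟨_, rfl⟩
  have hc : Continuous (fun z : ℂ => ((f z : ℝ) : ℂ)) := by fun_prop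
  have hsa : star a = a := by
    rw [ha, ← cfc_star]
    congr 1
    funext z
    simp
  have haa : star a * a = cfc (fun z : ℂ => ((f z * f z : ℝ) : ℂ)) v := by
    rw [hsa, ha, ← cfc_mul _ _ v hc.continuousOn hc.continuousOn]
    congr 1
    funext z
    simp
  obtain ⟨w, -, hw1, -, hw2, -, -, -, hw3⟩ := polar a
  refine ⟨star w * w, pi_src hw1, ?_, ?_⟩
  · rw [← ha]
    exact hw2
  · have e : (fun n : ℕ => cfc (fun z : ℂ => ((fN n (f z * f z) : ℝ) : ℂ)) v) =
        fun n => cfc (fN n) (star a * a) := by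
      funext n
      rw [haa, SUP_cfc v hn (fun z => f z * f z) (by fun_prop) (fN n) (fN_cont n)]
    rw [e]
    exact hw3

end ND

end SCO
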