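import Pool.Agent.Work.MP_52dd0f_nd.Interface

set_option autoImplicit false

namespace SCO

namespace ND

open Filter Topology

universe u

section

variable {P : Type u} [CStarAlgebra P]

theorem TRO_norm_exp (x : P) : ‖NormedSpace.exp x‖ ≤ Real.exp ‖x‖ := by
  rw [NormedSpace.exp_eq_tsum ℂ]
  have hs : Summable fun n : ℕ => ‖x‖ ^ n / (n.factorial : ℝ) := Real.summable_pow_div_factorial _
  have h1 : ∀ n : ℕ, ‖((n.factorial : ℂ)⁻¹) • x ^ n‖ ≤ ‖x‖ ^ n / (n.factorial : ℝ) := by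
    intro n
    rw [norm_smul, norm_inv, Complex.norm_natCast, div_eq_inv_mul]
    refine mul_le_mul_of_nonneg_left ?_ (by positivity)
    rcases Nat.eq_zero_or_pos n with h0 | h0
    · subst h0
      simp only [pow_zero]
      rcases subsingleton_or_nontrivial P with hP | hP
      · rw [Subsingleton.elim (1 : P) 0, norm_zero]; norm_num
      · exact le_of_eq CStarRing.norm_one
    · exact norm_pow_le' x h0
  calc ‖∑' n : ℕ, ((n.factorial : ℂ)⁻¹) • x ^ n‖ ≤ ∑' n : ℕ, ‖x‖ ^ n / (n.factorial : ℝ) :=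
        tsum_of_norm_bounded hs.hasSum h1
    _ = Real.exp ‖x‖ := by
        rw [Real.exp_eq_exp_ℝ, NormedSpace.exp_eq_tsum_div]

theorem TRO_pow_sub (X Y : P) (K : ℝ) (hK : 1 ≤ K) (hX : ‖X‖ ≤ K) (hY : ‖Y‖ ≤ K) :
    ∀ n : ℕ, ‖X ^ (n + 1) - Y ^ (n + 1)‖ ≤ (n + 1) * K ^ n * ‖X - Y‖ := by
  intro n
  induction n with
  | zero => simp
  | succ n ih =>
    have e : X ^ (n + 1 + 1) - Y ^ (n + 1 + 1) = X ^ (n + 1) * (X - Y) + (X ^ (n + 1) - Y ^ (n + 1)) * Y := by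
      rw [pow_succ X (n + 1), pow_succ Y (n + 1)]
      noncomm_ring
    have h1 : ‖X ^ (n + 1)‖ ≤ K ^ (n + 1) :=
      (norm_pow_le' X (Nat.succ_pos n)).trans (pow_le_pow_left₀ (norm_nonneg _) hX _)
    have hK0 : 0 ≤ K := by linarith
    calc ‖X ^ (n + 1 + 1) - Y ^ (n + 1 + 1)‖
        ≤ ‖X ^ (n + 1) * (X - Y)‖ + ‖(X ^ (n + 1) - Y ^ (n + 1)) * Y‖ := by rw [e]; exact norm_add_le _ _
      _ ≤ ‖X ^ (n + 1)‖ * ‖X - Y‖ + ‖X ^ (n + 1) - Y ^ (n + 1)‖ * ‖Y‖ :=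
          add_le_add (norm_mul_le _ _) (norm_mul_le _ _)
      _ ≤ K ^ (n + 1) * ‖X - Y‖ + ((n + 1) * K ^ n * ‖X - Y‖) * K := by
          refine add_le_add (mul_le_mul_of_nonneg_right h1 (norm_nonneg _)) ?_
          exact mul_le_mul ih hY (norm_nonneg _) (by positivity)
      _ = ((n + 1 : ℕ) + 1) * K ^ (n + 1) * ‖X - Y‖ := by
          push_cast
          ring

theorem TRO_deriv (a b : P) :
    HasDerivAt (fun t : ℂ => NormedSpace.exp (t • a) * NormedSpace.exp (t • b) - NormedSpace.exp (t • (a + b))) (0 : P) 0 := by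
  have ha := hasDerivAt_exp_smul_const (𝕂 := ℂ) a (0 : ℂ)
  have hb := hasDerivAt_exp_smul_const (𝕂 := ℂ) b (0 : ℂ)
  have hc := hasDerivAt_exp_smul_const (𝕂 := ℂ) (a + b) (0 : ℂ)
  have h := (ha.mul hb).sub hc
  have e : (NormedSpace.exp ((0 : ℂ) • a) * a * NormedSpace.exp ((0 : ℂ) • b) +
      NormedSpace.exp ((0 : ℂ) • a) * (NormedSpace.exp ((0 : ℂ) • b) * b) -
      NormedSpace.exp ((0 : ℂ) • (a + b)) * (a + b)) = (0 : P) := by
    simp [NormedSpace.exp_zero]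
  rw [e] at h
  exact h

end

theorem p_TRO : Stmt_TRO.{u} := by
  intro P _ a b
  set K : ℝ := ‖a‖ + ‖b‖ with hK
  have hK0 : 0 ≤ K := by positivity
  set f : ℂ → P := fun t => NormedSpace.exp (t • a) * NormedSpace.exp (t • b) - NormedSpace.exp (t • (a + b)) with hf
  have hd : HasDerivAt f (0 : P) 0 := TRO_deriv a b
  have hf0 : f 0 = 0 := by simp [hf, NormedSpace.exp_zero]
  -- the slope
  have ht : Tendsto (fun n : ℕ => (((n : ℂ) + 1)⁻¹ : ℂ)) atTop (𝓝 0) := by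
    have := tendsto_one_div_add_atTop_nhds_zero_nat (𝕜 := ℂ)
    simpa [one_div] using this
  have hlit := (hasDerivAt_iff_isLittleO.mp hd)
  simp only [hf0, sub_zero, smul_zero] at hlit
  have hlit2 := hlit.comp_tendsto ht
  have hbound : ∀ n : ℕ, ‖(NormedSpace.exp (((n : ℂ) + 1)⁻¹ • a) * NormedSpace.exp (((n : ℂ) + 1)⁻¹ • b)) ^ (n + 1) -
      NormedSpace.exp (a + b)‖ ≤ Real.exp K * ((n + 1 : ℝ) * ‖f (((n : ℂ) + 1)⁻¹)‖) := by
    intro n
    have hn : ((n : ℂ) + 1) ≠ 0 := by exact_mod_cast Nat.succ_ne_zero n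
    have hnr : (0 : ℝ) < (n : ℝ) + 1 := by positivity
    have hinv : ‖(((n : ℂ) + 1)⁻¹ : ℂ)‖ = ((n : ℝ) + 1)⁻¹ := by
      rw [norm_inv]
      congr 1
      have : ((n : ℂ) + 1) = ((n + 1 : ℕ) : ℂ) := by push_cast; ring
      rw [this, Complex.norm_natCast]
      push_cast
      ring
    have hY : NormedSpace.exp (((n : ℂ) + 1)⁻¹ • (a + b)) ^ (n + 1) = NormedSpace.exp (a + b) := by
      let _ : NormedAlgebra ℚ P := NormedAlgebra.restrictScalars ℚ ℂ P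
      rw [← NormedSpace.exp_nsmul, ← Nat.cast_smul_eq_nsmul ℂ, smul_smul]
      congr 1
      push_cast
      rw [mul_inv_cancel₀ hn, one_smul]
    have hXn : ‖NormedSpace.exp (((n : ℂ) + 1)⁻¹ • a) * NormedSpace.exp (((n : ℂ) + 1)⁻¹ • b)‖ ≤
        Real.exp (K / (n + 1)) := by
      calc _ ≤ ‖NormedSpace.exp (((n : ℂ) + 1)⁻¹ • a)‖ * ‖NormedSpace.exp (((n : ℂ) + 1)⁻¹ • b)‖ := norm_mul_le _ _
        _ ≤ Real.exp ‖((n : ℂ) + 1)⁻¹ • a‖ * Real.exp ‖((n : ℂ) + 1)⁻¹ • b‖ :=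
            mul_le_mul (TRO_norm_exp _) (TRO_norm_exp _) (norm_nonneg _) (Real.exp_nonneg _)
        _ = Real.exp (K / (n + 1)) := by
            rw [← Real.exp_add, norm_smul, norm_smul, hinv, hK]
            congr 1
            field_simp
    have hYn : ‖NormedSpace.exp (((n : ℂ) + 1)⁻¹ • (a + b))‖ ≤ Real.exp (K / (n + 1)) := by
      refine (TRO_norm_exp _).trans (Real.exp_le_exp.mpr ?_)
      rw [norm_smul, hinv, div_eq_inv_mul]
      exact mul_le_mul_of_nonneg_left (norm_add_le a b) (by positivity)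
    have h1K : 1 ≤ Real.exp (K / (n + 1)) := Real.one_le_exp (by positivity)
    have := TRO_pow_sub _ _ _ h1K hXn hYn n
    rw [hY] at this
    refine this.trans ?_
    have hp : Real.exp (K / (n + 1)) ^ n ≤ Real.exp K := by
      rw [← Real.exp_nat_mul]
      refine Real.exp_le_exp.mpr ?_
      rw [mul_div_assoc', div_le_iff₀ hnr]
      nlinarith
    have hfe : f (((n : ℂ) + 1)⁻¹) = NormedSpace.exp (((n : ℂ) + 1)⁻¹ • a) * NormedSpace.exp (((n : ℂ) + 1)⁻¹ • b) -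
        NormedSpace.exp (((n : ℂ) + 1)⁻¹ • (a + b)) := rfl
    rw [← hfe]
    calc ((n : ℝ) + 1) * Real.exp (K / (n + 1)) ^ n * ‖f (((n : ℂ) + 1)⁻¹)‖
        = Real.exp (K / (n + 1)) ^ n * (((n : ℝ) + 1) * ‖f (((n : ℂ) + 1)⁻¹)‖) := by ring
      _ ≤ Real.exp K * (((n : ℝ) + 1) * ‖f (((n : ℂ) + 1)⁻¹)‖) :=
          mul_le_mul_of_nonneg_right hp (by positivity)
  have hlim : Tendsto (fun n : ℕ => Real.exp K * ((n + 1 : ℝ) * ‖f (((n : ℂ) + 1)⁻¹)‖)) atTop (𝓝 0) := by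
    have h3 : Tendsto (fun n : ℕ => (n + 1 : ℝ) * ‖f (((n : ℂ) + 1)⁻¹)‖) atTop (𝓝 0) := by
      have h4 := (hlit2.norm_norm).tendsto_div_nhds_zero
      refine h4.congr ?_
      intro n
      simp only [Function.comp]
      have hinv : ‖(((n : ℂ) + 1)⁻¹ : ℂ)‖ = ((n : ℝ) + 1)⁻¹ := by
        rw [norm_inv]
        congr 1
        have : ((n : ℂ) + 1) = ((n + 1 : ℕ) : ℂ) := by push_cast; ring
        rw [this, Complex.norm_natCast]
        push_cast
        ring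
      rw [hinv, div_inv_eq_mul]
      ring
    simpa using h3.const_mul (Real.exp K)
  rw [tendsto_iff_norm_sub_tendsto_zero]
  exact squeeze_zero (fun n => norm_nonneg _) hbound hlim

end ND

end SCO
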