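import Pool.Agent.Work.MP_52dd0f_nd.Interface

/-!
# Block ULF: unitaries of the ultrapower are sequences of unitaries
-/

set_option autoImplicit false
set_option linter.unusedSectionVars false

namespace SCO

open Filter Topology

universe u

namespace ND

theorem p_ULF (hUNA : Stmt_UNA.{u}) : Stmt_ULF.{u} := by
  intro M _ _ _ 𝒰 _ g hg
  obtain ⟨x, hx⟩ := toUP_surjective (M := M) 𝒰 g
  choose w hw1 hw2 hw3 using fun k : ℕ => hUNA M (x.ev k)
  refine ⟨Sq.mk w 1 fun k => norm_le_one_of_star_mul (hw1 k), ?_, fun k => ⟨hw1 k, hw2 k⟩⟩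
  rw [← hx, toUP_eq_iff]
  have h1 := tendsto_n2_toUP 𝒰 (star x * x - 1)
  have h2 : toUP 𝒰 (star x * x - 1) = 0 := by
    rw [map_sub, map_mul, map_star, hx, hg, map_one, sub_self]
  rw [h2, n2_zero] at h1
  refine squeeze_zero (fun _ => n2_nonneg _) (fun k => ?_) h1
  rw [n2_sub_comm]
  exact hw3 k

end ND

end SCO
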