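import Pool.Agent.Work.MP_52dd0f_nd.Interface

/-!
UNA: a unitary near x
-/

set_option autoImplicit false
set_option linter.unusedSectionVars false

namespace SCO

open Filter Topology
open scoped ComplexOrder ComplexConjugate

universe u

namespace ND

theorem UNA_sqrt {t : ℝ} (ht : 0 ≤ t) :
    (Real.sqrt t - 1) * (Real.sqrt t - 1) ≤ (t - 1) * (t - 1) := by
  have h1 := Real.mul_self_sqrt ht
  have h2 := Real.sqrt_nonneg t
  set r := Real.sqrt t
  rw [← h1]
  nlinarith [mul_nonneg (mul_self_nonneg (r - 1)) h2, mul_nonneg (mul_self_nonneg (r - 1))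
    (mul_nonneg h2 h2)]

theorem p_UNA : Stmt_UNA.{u} := by
  intro M _ _ _ x
  obtain ⟨v, -, hv1, hv2, hv3, -, -, hvl, -⟩ := polar x
  set a : M := star x * x with ha
  have hsa : IsSelfAdjoint a := isSelfAdjoint_sq x
  have hsp : ∀ t ∈ spectrum ℝ a, 0 ≤ t := fun t ht => spectrum_sq_nonneg x ht
  have hid : ContinuousOn (fun t : ℝ => t) (spectrum ℝ a) := continuousOn_id
  have hh : ∀ n, ContinuousOn (hN n) (spectrum ℝ a) := fun n => (hN_cont n).continuousOn
  set m : M := cfc (fun t => Real.sqrt t) a with hm
  have hsq : ContinuousOn (fun t => Real.sqrt t) (spectrum ℝ a) := by fun_prop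
  have hms : star m = m := cfc_star_real _ _
  have hmm : m * m = a := by
    rw [hm, ← cfc_mul (fun t => Real.sqrt t) (fun t => Real.sqrt t) a hsq hsq]
    have h1 : cfc (fun t => Real.sqrt t * Real.sqrt t) a = cfc (fun t : ℝ => t) a :=
      cfc_congr fun t ht => Real.mul_self_sqrt (hsp t ht)
    rw [h1, cfc_id' ℝ a]
  have hvm : v * m = x := by
    have h1 : T2 atTop (fun n => x * cfc (hN n) a * m) (v * m) := hvl.mul_const m
    have h2 : T2 atTop (fun n => x * cfc (hN n) a * m) x := by
      refine T2.of_sq_le tendsto_one_div_nat (fun n => ?_)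
      have e : x * cfc (hN n) a * m - x = - (x * cfc (fun t => 1 - hN n t * Real.sqrt t) a) := by
        rw [hm, cfc_sub (fun _ => (1 : ℝ)) (fun t => hN n t * Real.sqrt t) a continuousOn_const
          ((hh n).mul hsq), cfc_const_one ℝ a, cfc_mul (hN n) (fun t => Real.sqrt t) a (hh n) hsq]
        noncomm_ring
      have hc : ContinuousOn (fun t => 1 - hN n t * Real.sqrt t) (spectrum ℝ a) :=
        continuousOn_const.sub ((hh n).mul hsq)
      rw [e, n2_neg, n2_mul_cfc_sq x hc]
      exact tr_cfc_le_one ((hc.mul hid).mul hc) hsa fun t ht => hN_sqrt' n (hsp t ht)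
    exact h1.unique h2
  -- the complements
  have hp := pi_src hv1
  have hq := pi_rng hv1
  obtain ⟨s, hs1, hs2⟩ := equiv_of_tau hp.compl hq.compl (by
    rw [tau_sub, tau_sub, pi_tau])
  set z : M := 1 - star v * v with hz
  have hsz : s * z = s := pi_mul_src hp.compl hs1
  have hxz : x * z = 0 := by rw [hz, mul_sub, mul_one, hv3, sub_self]
  have hmz : m * z = 0 := by
    apply (CStarRing.star_mul_self_eq_zero_iff _).1
    rw [star_mul, hms]
    calc star z * m * (m * z) = star z * (m * m) * z := by noncomm_ring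
      _ = star z * star x * (x * z) := by rw [hmm, ha]; noncomm_ring
      _ = 0 := by rw [hxz, mul_zero]
  have hzm : z * m = 0 := by
    have h1 := congrArg star hmz
    rw [star_mul, hms, hp.compl.star, star_zero] at h1
    exact h1
  have hsm : s * m = 0 := by rw [← hsz, mul_assoc, hzm, mul_zero]
  -- orthogonality of the parts
  have hvz : v * z = 0 := by rw [hz, mul_sub, mul_one, ← mul_assoc, hv1, sub_self]
  have hvs : v * star s = 0 := by
    have h1 : star s = z * star s := by
      have := congrArg star hsz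
      rw [star_mul, hp.compl.star] at this
      exact this.symm
    rw [h1, ← mul_assoc, hvz, zero_mul]
  have hsv : s * star v = 0 := by
    have h1 := congrArg star hvs
    rw [star_mul, star_star, star_zero] at h1
    exact h1
  have hvs' : star v * s = 0 := by
    have h1 : (1 - v * star v) * s = s := by
      rw [← hs2, mul_assoc, hs1, hsz]
    have h2 : star v * (1 - v * star v) = 0 := by
      rw [mul_sub, mul_one, ← mul_assoc, pi_star hv1, sub_self]
    rw [← h1, ← mul_assoc, h2, zero_mul]
  have hsv' : star s * v = 0 := by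
    have h1 := congrArg star hvs'
    rw [star_mul, star_star, star_zero] at h1
    exact h1
  have hw1 : star (v + s) * (v + s) = 1 := by
    calc star (v + s) * (v + s) = star v * v + star s * s + star v * s + star s * v := by
          rw [star_add]; noncomm_ring
      _ = 1 := by rw [hvs', hsv', hs1, hz]; abel
  have hw2 : (v + s) * star (v + s) = 1 := by
    calc (v + s) * star (v + s) = v * star v + s * star s + v * star s + s * star v := by
          rw [star_add]; noncomm_ring
      _ = 1 := by rw [hvs, hsv, hs2]; abel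
  refine ⟨v + s, hw1, hw2, ?_⟩
  have hwm : (v + s) * m = x := by rw [add_mul, hvm, hsm, add_zero]
  have e1 : x - (v + s) = (v + s) * (m - 1) := by rw [mul_sub, hwm, mul_one]
  rw [e1, n2_isometry_mul hw1]
  have hc1 : ContinuousOn (fun t : ℝ => Real.sqrt t - 1) (spectrum ℝ a) := hsq.sub continuousOn_const
  have hc2 : ContinuousOn (fun t : ℝ => t - 1) (spectrum ℝ a) := hid.sub continuousOn_const
  have e2 : m - 1 = cfc (fun t => Real.sqrt t - 1) a := by
    rw [cfc_sub (fun t => Real.sqrt t) (fun _ => (1 : ℝ)) a hsq continuousOn_const, cfc_const_one ℝ a]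
  have e3 : a - 1 = cfc (fun t : ℝ => t - 1) a := by
    rw [cfc_sub (fun t : ℝ => t) (fun _ => (1 : ℝ)) a hid continuousOn_const, cfc_const_one ℝ a,
      cfc_id' ℝ a]
  rw [e2, e3]
  refine le_of_sq_le_sq ?_ (n2_nonneg _)
  rw [n2_cfc_sq hc1, n2_cfc_sq hc2]
  exact tr_cfc_mono (hc1.mul hc1) (hc2.mul hc2) fun t ht => UNA_sqrt (hsp t ht)

end ND

end SCO
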