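import Pool.Agent.Work.MP_52dd0f_nd.Interface

set_option autoImplicit false
set_option linter.unusedSectionVars false

namespace SCO

open Filter Topology

universe u

namespace ND

/-- the matrix units attached to a family of partial isometries with common source -/
theorem UNE_units {M : Type u} [CStarAlgebra M] [TVN M] {e r : M} (he : IsProj e) {n : ℕ}
    (w f : Fin (n + 1) → M) (hf : ∀ i, IsProj (f i)) (ho : ∀ i j, i ≠ j → f i * f j = 0)
    (hs : ∀ i, star (w i) * w i = e) (hr : ∀ i, w i * star (w i) = f i)
    (hsum : ∑ i, f i = r) : MU r (fun i j => w i * star (w j)) := by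
  have hwe : ∀ i, w i * e = w i := fun i => pi_mul_src he (hs i)
  have hfw : ∀ i, f i * w i = w i := fun i => pi_mul_rng he (hs i) (hr i)
  have hz : ∀ i j, i ≠ j → star (w i) * w j = 0 := by
    intro i j hij
    have h1 : star (w i) = star (w i) * f i := by
      have h2 := congrArg star (hfw i)
      rw [star_mul, (hf i).star] at h2
      exact h2.symm
    calc star (w i) * w j = star (w i) * f i * (f j * w j) := by rw [← h1, hfw j]
      _ = star (w i) * (f i * f j) * w j := by simp only [mul_assoc]
      _ = 0 := by rw [ho i j hij, mul_zero, zero_mul]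
  refine ⟨?_, ?_, ?_⟩
  · intro i j l m
    by_cases hjl : j = l
    · subst hjl
      rw [if_pos rfl]
      calc w i * star (w j) * (w j * star (w m)) = w i * (star (w j) * w j) * star (w m) := by
            simp only [mul_assoc]
        _ = w i * star (w m) := by rw [hs j, hwe i]
    · rw [if_neg hjl]
      calc w i * star (w j) * (w l * star (w m)) = w i * (star (w j) * w l) * star (w m) := by
            simp only [mul_assoc]
        _ = 0 := by rw [hz j l hjl, mul_zero, zero_mul]
  · intro i j
    simp only [star_mul, star_star]
  · rw [← hsum]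
    exact Finset.sum_congr rfl fun i _ => hr i

theorem p_UNE : Stmt_UNE.{u} := by
  intro M _ _ _ r e hr he her n ht
  have hre : r * e = e := he.mul_swap hr her
  have hq : IsProj (r - e) := he.sub hr her
  obtain ⟨f, -, hf, hft, hfo, hfs⟩ := exists_partition (noMin_empty (M := M)) (tau e)
    he.tau_nonneg n (r - e) (co_empty (r - e)) hq (by rw [tau_sub]; linarith)
  have hqf : ∀ i, (r - e) * f i = f i := by
    intro i
    rw [← hfs, Finset.sum_mul, Finset.sum_eq_single i]
    · exact (hf i).mul
    · intro j _ hj; exact hfo j i hj
    · simp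
  have hef : ∀ i, e * f i = 0 := by
    intro i
    rw [← hqf i, ← mul_assoc, mul_sub, her, he.mul, sub_self, zero_mul]
  have hfe : ∀ i, f i * e = 0 := fun i => he.mul_zero_swap (hf i) (hef i)
  choose w hw1 hw2 using fun i : Fin n => equiv_of_tau he (hf i) (hft i).symm
  refine ⟨fun i j => (Fin.cons e w : Fin (n + 1) → M) i * star ((Fin.cons e w : Fin (n + 1) → M) j),
    UNE_units he (Fin.cons e w : Fin (n + 1) → M) (Fin.cons e f : Fin (n + 1) → M) ?_ ?_ ?_ ?_ ?_, ?_⟩
  · intro i
    refine Fin.cases ?_ (fun i => ?_) i
    · exact he
    · exact hf i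
  · intro i j
    refine Fin.cases ?_ (fun i => ?_) i
    · refine Fin.cases ?_ (fun j => ?_) j
      · intro h; exact absurd rfl h
      · intro _
        simpa using hef j
    · refine Fin.cases ?_ (fun j => ?_) j
      · intro _
        simpa using hfe i
      · intro h
        simpa using hfo i j (fun h2 => h (by rw [h2]))
  · intro i
    refine Fin.cases ?_ (fun i => ?_) i
    · simp [he.star, he.mul]
    · simpa using hw1 i
  · intro i
    refine Fin.cases ?_ (fun i => ?_) i
    · simp [he.star, he.mul]
    · simpa using hw2 i
  · rw [Fin.sum_univ_succ]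
    simp only [Fin.cons_zero, Fin.cons_succ]
    rw [hfs]; abel
  · simp [he.star, he.mul]

end ND

end SCO
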