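import Pool.Agent.Work.MP_52dd0f_nd.Interface

set_option autoImplicit false
set_option linter.unusedSectionVars false

namespace SCO

open Filter Topology

universe u

namespace ND

/-- **UNF** -/
theorem p_UNF : Stmt_UNF.{u} := by
  intro M _ _ _ hM
  obtain ⟨u, hu⟩ := exists_haarU (M := M)
  rcases stab_dichotomy hu with ⟨L, hL⟩ | h
  · exact ⟨u, L, hu, hL⟩
  · exfalso
    have hU : (⋃ n, Stb u n) = Set.univ := by
      rw [Set.eq_univ_iff_forall]
      intro g
      obtain ⟨n, hn⟩ := hM u (cj g u) hu (hu.cj g)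
      exact Set.mem_iUnion.2 ⟨n, hn⟩
    obtain ⟨n, hn⟩ := nonempty_interior_of_iUnion_of_closed (fun n => Stb.isClosed hu n) hU
    rw [h n] at hn
    exact Set.not_nonempty_empty hn

end ND

end SCO
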