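import Pool.Agent.Work.MP_52dd0f_nd.Interface

set_option autoImplicit false
set_option linter.unusedSectionVars false

namespace SCO

open Filter Topology

universe u

namespace ND

theorem p_UNX (hUNE : Stmt_UNE.{u}) : Stmt_UNX.{u} := by
  intro M _ _ _ r hr n
  have hn : (0 : ℝ) < (n : ℝ) + 1 := by positivity
  have ht : 0 ≤ tau r := hr.tau_nonneg
  obtain ⟨e, -, he, her, het⟩ := exists_tau_eq (noMin_empty (M := M)) (co_empty r) hr
    (s := tau r / ((n : ℝ) + 1)) (by positivity) (by
      rw [div_le_iff₀ hn]; nlinarith [(Nat.cast_nonneg n : (0 : ℝ) ≤ n)])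
  obtain ⟨a, ha, -⟩ := hUNE M r e hr he her n (by rw [het]; field_simp)
  exact ⟨a, ha⟩

end ND

end SCO
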