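import Pool.Agent.Work.MP_52dd0f_nd.Interface

/-! # THEOREM ND, block UPC: the ultrapower of a corner map -/

set_option autoImplicit false
set_option linter.unusedSectionVars false

namespace SCO

open Filter Topology
open scoped BoundedContinuousFunction

universe u

namespace ND

section

variable {K M : Type u} [CStarAlgebra K] [TVN K] [CStarAlgebra M] [TVN M]

noncomputable def UPC_sq (φ : K →⋆ₙₐ[ℂ] M) (x : Sq K) : Sq M :=
  Sq.mk (fun k => φ (x.ev k)) ‖x‖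
    (fun k => (NonUnitalStarAlgHom.norm_apply_le φ _).trans (x.norm_ev_le k))

theorem UPC_ev (φ : K →⋆ₙₐ[ℂ] M) (x : Sq K) (k : ℕ) : (UPC_sq φ x).ev k = φ (x.ev k) := rfl

theorem UPC_ext {x y : Sq M} (h : ∀ k, x.ev k = y.ev k) : x = y :=
  BoundedContinuousFunction.ext (f := (show ℕ →ᵇ M from x)) (g := (show ℕ →ᵇ M from y)) h

variable {φ : K →⋆ₙₐ[ℂ] M} {e : M} (h : CornerMap φ e) (𝒰 : Ultrafilter ℕ)

include h

theorem UPC_wd {x y : Sq K} (hxy : toUP 𝒰 x = toUP 𝒰 y) :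
    toUP 𝒰 (UPC_sq φ x) = toUP 𝒰 (UPC_sq φ y) := by
  rw [toUP_eq_iff] at hxy ⊢
  have h1 : Tendsto (fun k => n2 (x.ev k - y.ev k)) (𝒰 : Filter ℕ) (𝓝 0) := hxy
  show Tendsto (fun k => n2 (φ (x.ev k) - φ (y.ev k))) (𝒰 : Filter ℕ) (𝓝 0)
  refine squeeze_zero (fun k => n2_nonneg _) (fun k => ?_) h1
  rw [← map_sub]
  exact h.n2_le _

theorem UPC_inj {x y : Sq K} (hxy : toUP 𝒰 (UPC_sq φ x) = toUP 𝒰 (UPC_sq φ y)) :
    toUP 𝒰 x = toUP 𝒰 y := by
  rw [toUP_eq_iff] at hxy ⊢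
  have h1 : Tendsto (fun k => n2 (φ (x.ev k) - φ (y.ev k))) (𝒰 : Filter ℕ) (𝓝 0) := hxy
  show Tendsto (fun k => n2 (x.ev k - y.ev k)) (𝒰 : Filter ℕ) (𝓝 0)
  have ht := h.tau_pos
  have hs : 0 < Real.sqrt (tau e) := Real.sqrt_pos.2 ht
  have h2 := h1.const_mul (Real.sqrt (tau e))⁻¹
  rw [mul_zero] at h2
  refine h2.congr fun k => ?_
  rw [← map_sub]
  have h3 := h.n2_sq (x.ev k - y.ev k)
  have h4 : n2 (φ (x.ev k - y.ev k)) = Real.sqrt (tau e) * n2 (x.ev k - y.ev k) := by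
    have h5 : (Real.sqrt (tau e) * n2 (x.ev k - y.ev k)) ^ 2 = n2 (φ (x.ev k - y.ev k)) ^ 2 := by
      rw [mul_pow, Real.sq_sqrt ht.le, h3]
    exact ((pow_left_inj₀ (mul_nonneg hs.le (n2_nonneg _)) (n2_nonneg _) two_ne_zero).1 h5).symm
  rw [h4, ← mul_assoc, inv_mul_cancel₀ hs.ne', one_mul]

end

theorem p_UPC : Stmt_UPC.{u} := by
  intro K M _ _ _ _ 𝒰 _ φ e h
  let L : UP K 𝒰 → Sq K := Function.surjInv (toUP_surjective 𝒰)
  have hL : ∀ y, toUP 𝒰 (L y) = y := Function.surjInv_eq (toUP_surjective 𝒰)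
  let Φ₀ : UP K 𝒰 → UP M 𝒰 := fun y => toUP 𝒰 (UPC_sq φ (L y))
  have hΦ : ∀ x : Sq K, Φ₀ (toUP 𝒰 x) = toUP 𝒰 (UPC_sq φ x) := fun x => UPC_wd h 𝒰 (hL _)
  let Φ : UP K 𝒰 →⋆ₙₐ[ℂ] UP M 𝒰 :=
    { toFun := Φ₀
      map_smul' := by
        intro c y
        obtain ⟨x, rfl⟩ := toUP_surjective 𝒰 y
        show Φ₀ (c • toUP 𝒰 x) = c • Φ₀ (toUP 𝒰 x)
        rw [← map_smul, hΦ, hΦ, ← map_smul]
        congr 1
        exact UPC_ext fun k => by
          rw [UPC_ev, Sq.ev_smul, Sq.ev_smul, UPC_ev, map_smul]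
      map_zero' := by
        rw [← map_zero (toUP (M := K) 𝒰), hΦ, ← map_zero (toUP (M := M) 𝒰)]
        congr 1
        exact UPC_ext fun k => by
          rw [UPC_ev, Sq.ev_zero, Sq.ev_zero, map_zero]
      map_add' := by
        intro y z
        obtain ⟨x, rfl⟩ := toUP_surjective 𝒰 y
        obtain ⟨x', rfl⟩ := toUP_surjective 𝒰 z
        rw [← map_add, hΦ, hΦ, hΦ, ← map_add]
        congr 1
        exact UPC_ext fun k => by
          rw [UPC_ev, Sq.ev_add, Sq.ev_add, UPC_ev, UPC_ev, map_add]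
      map_mul' := by
        intro y z
        obtain ⟨x, rfl⟩ := toUP_surjective 𝒰 y
        obtain ⟨x', rfl⟩ := toUP_surjective 𝒰 z
        rw [← map_mul, hΦ, hΦ, hΦ, ← map_mul]
        congr 1
        exact UPC_ext fun k => by
          rw [UPC_ev, Sq.ev_mul, Sq.ev_mul, UPC_ev, UPC_ev, map_mul]
      map_star' := by
        intro y
        obtain ⟨x, rfl⟩ := toUP_surjective 𝒰 y
        show Φ₀ (star (toUP 𝒰 x)) = star (Φ₀ (toUP 𝒰 x))
        rw [← map_star, hΦ, hΦ, ← map_star]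
        congr 1
        exact UPC_ext fun k => by
          rw [UPC_ev, Sq.ev_star, Sq.ev_star, UPC_ev, map_star] }
  have hΦ' : ∀ x : Sq K, Φ (toUP 𝒰 x) = toUP 𝒰 (UPC_sq φ x) := hΦ
  have hce : ∀ (y : Sq M) (k : ℕ), (cstSq e * y * cstSq e).ev k = e * y.ev k * e := fun y k => rfl
  have hie : iU 𝒰 e = toUP 𝒰 (cstSq e) := rfl
  refine ⟨Φ, ⟨isProj_iU 𝒰 h.proj, ?_, ?_, ?_, ?_, ?_⟩⟩
  · intro y z hyz
    obtain ⟨x, rfl⟩ := toUP_surjective 𝒰 y
    obtain ⟨x', rfl⟩ := toUP_surjective 𝒰 z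
    rw [hΦ', hΦ'] at hyz
    exact UPC_inj h 𝒰 hyz
  · intro z hz
    obtain ⟨y, rfl⟩ := toUP_surjective 𝒰 z
    have hex : ∀ k, ∃ x : K, φ x = e * y.ev k * e := fun k => h.surj _ (by
      have he := h.proj.mul
      calc e * (e * y.ev k * e) * e = (e * e) * y.ev k * (e * e) := by noncomm_ring
        _ = _ := by rw [he])
    choose x hx using hex
    have hb : ∀ k, ‖x k‖ ≤ ‖y‖ := by
      intro k
      rw [← NonUnitalStarAlgHom.norm_map φ h.inj (x k), hx]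
      have h1 := h.proj.norm_le
      have h2 := y.norm_ev_le k
      calc ‖e * y.ev k * e‖ ≤ ‖e‖ * ‖y.ev k‖ * ‖e‖ :=
            (norm_mul_le _ _).trans (mul_le_mul_of_nonneg_right (norm_mul_le _ _) (norm_nonneg _))
        _ ≤ 1 * ‖y‖ * 1 := by gcongr
        _ = ‖y‖ := by ring
    refine ⟨toUP 𝒰 (Sq.mk x ‖y‖ hb), ?_⟩
    rw [hΦ', ← hz, hie, ← map_mul, ← map_mul]
    congr 1
    exact UPC_ext fun k => by rw [UPC_ev, Sq.ev_mk, hx, hce]
  · intro y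
    obtain ⟨x, rfl⟩ := toUP_surjective 𝒰 y
    rw [hΦ', hie, ← map_mul, ← map_mul]
    congr 1
    exact UPC_ext fun k => by rw [hce, UPC_ev, h.corner]
  · rw [← map_one (toUP (M := K) 𝒰), hΦ', hie]
    congr 1
    exact UPC_ext fun k => by
      rw [UPC_ev, Sq.ev_one, h.one]
      rfl
  · intro y
    obtain ⟨x, rfl⟩ := toUP_surjective 𝒰 y
    rw [hΦ']
    have h1 := tendsto_tr_toUP 𝒰 (UPC_sq φ x)
    have h2 := (tendsto_tr_toUP 𝒰 x).const_mul ((tau e : ℝ) : ℂ)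
    have h3 : (fun k => tr ((UPC_sq φ x).ev k)) = fun k => ((tau e : ℝ) : ℂ) * tr (x.ev k) :=
      funext fun k => by rw [UPC_ev, h.tr]
    rw [h3] at h1
    have h4 := tendsto_nhds_unique h1 h2
    rw [h4]
    have h5 : tau (iU 𝒰 e) = tau e := by
      show (tr (iU 𝒰 e)).re = (tr e).re
      rw [tr_iU]
    rw [h5]

end ND

end SCO
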