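import Pool.Agent.Work.MP_52dd0f_nd.Skel
import Pool.Agent.Work.MP_52dd0f_nd.B_ALL
import Pool.Agent.Work.MP_52dd0f_nd.B_AMP
import Pool.Agent.Work.MP_52dd0f_nd.B_AVG
import Pool.Agent.Work.MP_52dd0f_nd.B_AVU
import Pool.Agent.Work.MP_52dd0f_nd.B_CJN
import Pool.Agent.Work.MP_52dd0f_nd.B_CNC
import Pool.Agent.Work.MP_52dd0f_nd.B_COR
import Pool.Agent.Work.MP_52dd0f_nd.B_CUS
import Pool.Agent.Work.MP_52dd0f_nd.B_CYC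
import Pool.Agent.Work.MP_52dd0f_nd.B_DEC
import Pool.Agent.Work.MP_52dd0f_nd.B_DEN
import Pool.Agent.Work.MP_52dd0f_nd.B_DPX
import Pool.Agent.Work.MP_52dd0f_nd.B_EQA
import Pool.Agent.Work.MP_52dd0f_nd.B_EXA
import Pool.Agent.Work.MP_52dd0f_nd.B_FAC
import Pool.Agent.Work.MP_52dd0f_nd.B_FIN
import Pool.Agent.Work.MP_52dd0f_nd.B_FRM
import Pool.Agent.Work.MP_52dd0f_nd.B_HDC
import Pool.Agent.Work.MP_52dd0f_nd.B_HSP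
import Pool.Agent.Work.MP_52dd0f_nd.B_IDN
import Pool.Agent.Work.MP_52dd0f_nd.B_JDS
import Pool.Agent.Work.MP_52dd0f_nd.B_JNS
import Pool.Agent.Work.MP_52dd0f_nd.B_LAU
import Pool.Agent.Work.MP_52dd0f_nd.B_LFT
import Pool.Agent.Work.MP_52dd0f_nd.B_LIA
import Pool.Agent.Work.MP_52dd0f_nd.B_LIB
import Pool.Agent.Work.MP_52dd0f_nd.B_MOM
import Pool.Agent.Work.MP_52dd0f_nd.B_NMX
import Pool.Agent.Work.MP_52dd0f_nd.B_OFF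
import Pool.Agent.Work.MP_52dd0f_nd.B_ONE
import Pool.Agent.Work.MP_52dd0f_nd.B_SAA
import Pool.Agent.Work.MP_52dd0f_nd.B_SAB
import Pool.Agent.Work.MP_52dd0f_nd.B_SAC
import Pool.Agent.Work.MP_52dd0f_nd.B_SAD
import Pool.Agent.Work.MP_52dd0f_nd.B_SAT
import Pool.Agent.Work.MP_52dd0f_nd.B_SPN
import Pool.Agent.Work.MP_52dd0f_nd.B_SUP
import Pool.Agent.Work.MP_52dd0f_nd.B_TRO
import Pool.Agent.Work.MP_52dd0f_nd.B_TRS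
import Pool.Agent.Work.MP_52dd0f_nd.B_ULF
import Pool.Agent.Work.MP_52dd0f_nd.B_UNA
import Pool.Agent.Work.MP_52dd0f_nd.B_UNE
import Pool.Agent.Work.MP_52dd0f_nd.B_UNF
import Pool.Agent.Work.MP_52dd0f_nd.B_UNX
import Pool.Agent.Work.MP_52dd0f_nd.B_UPC

/-!
# THEOREM ND, MP_52dd0f_an: all blocks
-/

set_option autoImplicit false

namespace SCO

open Filter Topology

universe u

namespace ND

theorem a_TRO : Stmt_TRO.{u} := p_TRO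

theorem a_LIA : Stmt_LIA.{u} := p_LIA a_TRO

theorem a_LIB : Stmt_LIB.{u} := p_LIB a_LIA

theorem a_IDN : Stmt_IDN.{u} := p_IDN

theorem a_CYC : Stmt_CYC.{u} := p_CYC

theorem a_NMX : Stmt_NMX.{u} := p_NMX

theorem a_AVG : Stmt_AVG.{u} := p_AVG a_CYC a_NMX

theorem a_SUP : Stmt_SUP.{u} := p_SUP

theorem a_DEC : Stmt_DEC.{u} := p_DEC a_SUP a_NMX

theorem a_SAD : Stmt_SAD.{u} := p_SAD a_DEC

theorem a_DPX : Stmt_DPX.{u} := p_DPX a_LIA a_LIB a_AVG a_SAD a_IDN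

theorem a_ALL : Stmt_ALL.{u} := p_ALL a_LIA a_LIB a_IDN a_DPX

theorem a_AMP : Stmt_AMP.{u} := p_AMP

theorem a_AVU : Stmt_AVU.{u} := p_AVU

theorem a_LAU : Stmt_LAU := p_LAU

theorem a_MOM : Stmt_MOM.{u} := p_MOM a_LAU

theorem a_HDC : Stmt_HDC.{u} := p_HDC a_MOM a_DEC

theorem a_CJN : Stmt_CJN.{u} := p_CJN a_HDC

theorem a_SAT : Stmt_SAT.{u} := p_SAT

theorem a_CNC : Stmt_CNC.{u} := p_CNC a_AMP

theorem a_COR : Stmt_COR.{u} := p_COR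

theorem a_CUS : Stmt_CUS.{u} := p_CUS

theorem a_EXA : Stmt_EXA.{u} := p_EXA a_DEC

theorem a_JNS : Stmt_JNS.{u} := p_JNS

theorem a_JDS : Stmt_JDS.{u} := p_JDS

theorem a_OFF : Stmt_OFF.{u} := p_OFF a_JNS a_JDS a_AMP a_LIA

theorem a_DEN : Stmt_DEN.{u} := p_DEN a_EXA a_ALL a_OFF

theorem a_EQA : Stmt_EQA.{u} := p_EQA a_DEC

theorem a_FAC : Stmt_FAC.{u} := p_FAC a_AVU

theorem a_SAA : Stmt_SAA.{u} := p_SAA a_CJN a_FAC a_SAT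

theorem a_UNE : Stmt_UNE.{u} := p_UNE

theorem a_UNX : Stmt_UNX.{u} := p_UNX a_UNE

theorem a_SAB : Stmt_SAB.{u} := p_SAB a_DEC a_FAC a_SAT a_UNX

theorem a_SAC : Stmt_SAC.{u} := p_SAC a_EQA a_FAC a_SAT

theorem a_UNA : Stmt_UNA.{u} := p_UNA

theorem a_ULF : Stmt_ULF.{u} := p_ULF a_UNA

theorem a_UNF : Stmt_UNF.{u} := p_UNF

theorem a_ONE : Stmt_ONE.{u} := p_ONE a_SAA a_ULF a_UNF

theorem a_FRM : Stmt_FRM.{u} := p_FRM a_JNS a_CUS a_AMP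

theorem a_SPN : Stmt_SPN.{u} := p_SPN a_JNS a_CUS a_AMP a_CNC a_FRM

theorem a_UPC : Stmt_UPC.{u} := p_UPC

theorem a_TRS : Stmt_TRS.{u} := p_TRS

theorem a_HSP : Stmt_HSP.{u} := p_HSP a_FAC a_SAA a_SAB a_SAC a_UNE a_ONE a_AMP a_SPN a_UPC a_TRS

theorem a_FIN : Stmt_FIN.{u} := p_FIN a_FAC a_SAA a_UNX a_AMP a_JNS a_DEN a_HSP

theorem a_LFT : Stmt_LFT.{u} := p_LFT

/-- THEOREM ND -/
theorem main_nd {N M M' : Type u} [CStarAlgebra N]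
    [CStarAlgebra M] [CStarAlgebra M'] {τ : N →ₗ[ℂ] ℂ} {σ : M →ₗ[ℂ] ℂ} {σ' : M' →ₗ[ℂ] ℂ} {𝒰 : Ultrafilter ℕ}
    (h𝒰 : ∀ k : ℕ, 𝒰 ≠ pure k) (hN : IsII₁Factor N τ) (hM : IsII₁Factor M σ) (hM' : IsII₁Factor M' σ')
    {t s : ℝ} (h : IsAmplification N τ M t) (h' : IsAmplification N τ M' s) (hone : numOrbits 𝒰 σ' = 1)
    {u v : ℕ → M} (hu : IsHaarU 𝒰 σ u) (hv : IsHaarU 𝒰 σ v) {ε : ℝ} (hε : 0 < ε) :
    ∃ d : ℕ → M, (∀ k, ‖d k‖ ≤ ε) ∧ IsHaarU 𝒰 σ (fun k => v k + d k) ∧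
      Relation.ReflTransGen (Step 𝒰 σ) u (fun k => v k + d k) :=
  main_of a_FIN a_LFT a_COR h𝒰 hN hM hM' h h' hone hu hv hε

end ND

end SCO
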