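import Pool.Agent.Work.MP_52dd0f_nd.Interface2

/-!
# Block BAI (helper12): Baire's theorem in the unit ball of a corner
-/

set_option autoImplicit false

namespace SCO

open Filter Topology

universe u

namespace ND

/-- the unit ball of the corner of `p` -/
structure BAI_C (P : Type u) [CStarAlgebra P] (p : P) where
  /-- the element -/
  val : P
  norm : ‖val‖ ≤ 1
  left : p * val = val
  right : val * p = val

theorem BAI_ext {P : Type u} [CStarAlgebra P] {p : P} {x y : BAI_C P p} (h : x.val = y.val) :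
    x = y := by
  cases x; cases y; cases h; rfl

noncomputable instance BAI_metric (P : Type u) [CStarAlgebra P] [TrC P] (p : P) :
    MetricSpace (BAI_C P p) where
  dist g h := n2 (g.val - h.val)
  dist_self g := by simp
  dist_comm g h := n2_sub_comm _ _
  dist_triangle g h k := n2_triangle _ _ _
  eq_of_dist_eq_zero h := BAI_ext (sub_eq_zero.1 (n2_eq_zero.1 h))

theorem BAI_dist {P : Type u} [CStarAlgebra P] [TrC P] {p : P} (g h : BAI_C P p) :
    dist g h = n2 (g.val - h.val) := rfl

instance BAI_complete (P : Type u) [CStarAlgebra P] [TVN P] (p : P) :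
    CompleteSpace (BAI_C P p) := by
  refine Metric.complete_of_cauchySeq_tendsto fun x hx => ?_
  obtain ⟨y, hy1, hy⟩ := exists_limit (x := fun k => (x k).val) (C := 1)
    (fun k => (x k).norm) (fun ε hε => by
      obtain ⟨N, hN⟩ := Metric.cauchySeq_iff.1 hx ε hε
      exact ⟨N, fun k hk l hl => hN k hk l hl⟩)
  have h1 : p * y = y := by
    refine T2.unique (l := atTop) (x := fun k => p * (x k).val) (hy.const_mul p) ?_
    have e : (fun k => p * (x k).val) = fun k => (x k).val := by
      funext k; exact (x k).left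
    rw [e]; exact hy
  have h2 : y * p = y := by
    refine T2.unique (l := atTop) (x := fun k => (x k).val * p) (hy.mul_const p) ?_
    have e : (fun k => (x k).val * p) = fun k => (x k).val := by
      funext k; exact (x k).right
    rw [e]; exact hy
  refine ⟨⟨y, hy1, h1, h2⟩, ?_⟩
  rw [tendsto_iff_dist_tendsto_zero]
  exact hy

instance BAI_nonempty (P : Type u) [CStarAlgebra P] (p : P) : Nonempty (BAI_C P p) :=
  ⟨⟨0, by simp, by simp, by simp⟩⟩

theorem p_BAI : Stmt_BAI.{u} := by
  intro P _ _ p _ S hS hU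
  have hc : ∀ m : ℕ, IsClosed {x : BAI_C P p | x.val ∈ S m} := by
    intro m
    refine isClosed_of_closure_subset fun x hx => ?_
    rw [Metric.mem_closure_iff] at hx
    refine hS m x.val fun ε hε => ?_
    obtain ⟨y, hy, hd⟩ := hx ε hε
    exact ⟨y.val, hy, hd.le⟩
  have hu : (⋃ m : ℕ, {x : BAI_C P p | x.val ∈ S m}) = Set.univ := by
    rw [Set.eq_univ_iff_forall]
    intro x
    obtain ⟨m, hm⟩ := hU x.val x.norm x.left x.right
    exact Set.mem_iUnion.2 ⟨m, hm⟩
  obtain ⟨m, x₀, hx₀⟩ := nonempty_interior_of_iUnion_of_closed hc hu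
  obtain ⟨r, hr, hb⟩ := Metric.isOpen_iff.1 isOpen_interior x₀ hx₀
  refine ⟨m, x₀.val, r, x₀.norm, x₀.left, x₀.right, hr, fun x h1 h2 h3 hd => ?_⟩
  have hmem : (⟨x, h1, h2, h3⟩ : BAI_C P p) ∈ Metric.ball x₀ r := hd
  have h4 : (⟨x, h1, h2, h3⟩ : BAI_C P p) ∈ {x : BAI_C P p | x.val ∈ S m} :=
    interior_subset (hb hmem)
  exact h4

end ND

end SCO
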