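import Pool.Agent.Work.MP_52dd0f_nd.Interface2

/-! # THEOREM ND+, block CLS: closedness by saturation -/

set_option autoImplicit false
set_option linter.unusedSectionVars false

namespace SCO

open Filter Topology

universe u

namespace ND

section Loc

variable {M : Type u} [CStarAlgebra M] {ι : Type}

theorem CLS_loc_var (i : ι) : Loc (fun x : ι → Sq M => x i) := fun _ _ _ h => h i

theorem CLS_loc_const (c : Sq M) : Loc (fun _ : ι → Sq M => c) := fun _ _ _ _ => rfl

theorem CLS_loc_mul {F G : (ι → Sq M) → Sq M} (hF : Loc F) (hG : Loc G) :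
    Loc (fun x => F x * G x) := fun x y k h => by
  rw [Sq.ev_mul, Sq.ev_mul, hF x y k h, hG x y k h]

theorem CLS_loc_sub {F G : (ι → Sq M) → Sq M} (hF : Loc F) (hG : Loc G) :
    Loc (fun x => F x - G x) := fun x y k h => by
  rw [Sq.ev_sub, Sq.ev_sub, hF x y k h, hG x y k h]

theorem CLS_loc_star {F : (ι → Sq M) → Sq M} (hF : Loc F) :
    Loc (fun x => star (F x)) := fun x y k h => by
  rw [Sq.ev_star, Sq.ev_star, hF x y k h]

theorem CLS_ev_sum {n : ℕ} (f : Fin n → Sq M) (k : ℕ) : (∑ j, f j).ev k = ∑ j, (f j).ev k := by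
  let φ : Sq M →+ M := ⟨⟨fun x => x.ev k, rfl⟩, fun _ _ => rfl⟩
  exact map_sum φ f Finset.univ

theorem CLS_loc_sum {n : ℕ} (z : Fin n → ℂ) {F : Fin n → (ι → Sq M) → Sq M} (hF : ∀ j, Loc (F j)) :
    Loc (fun x => ∑ j, z j • F j x) := fun x y k h => by
  show (∑ j, z j • F j x).ev k = (∑ j, z j • F j y).ev k
  rw [CLS_ev_sum, CLS_ev_sum]
  refine Finset.sum_congr rfl fun j _ => ?_
  rw [Sq.ev_smul, Sq.ev_smul, hF j x y k h]

end Loc

section Haar

variable {P : Type u} [CStarAlgebra P] [TVN P]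

theorem CLS_nrm {p g : P} (hp : IsProj p) (h : star g * g = p) : ‖g‖ ≤ 1 := by
  have h1 := hp.norm_le
  rw [← h, CStarRing.norm_star_mul_self] at h1
  nlinarith [norm_nonneg g]

theorem CLS_conj {p u y : P} (hp : IsProj p) (hu : IsHaarIn p u) (h1 : star y * y = p)
    (h2 : y * star y = p) : IsHaarIn p (y * u * star y) := by
  have e1 := hu.mul_left hp
  have e2 := hu.mul_right hp
  have e3 : y * p = y := pi_mul_src hp h1
  have e4 : p * star u = star u := by
    have h3 := congrArg star e2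
    rwa [star_mul, hp.star] at h3
  refine ⟨?_, ?_, fun k hk => ?_⟩
  · rw [star_mul, star_mul, star_star]
    calc y * (star u * star y) * (y * u * star y) = y * star u * (star y * y) * u * star y := by
          noncomm_ring
      _ = y * (star u * (p * u)) * star y := by rw [h1]; noncomm_ring
      _ = p := by rw [e1, hu.src, e3, h2]
  · rw [star_mul, star_mul, star_star]
    calc y * u * star y * (y * (star u * star y)) = y * u * (star y * y) * star u * star y := by
          noncomm_ring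
      _ = y * (u * (p * star u)) * star y := by rw [h1]; noncomm_ring
      _ = p := by rw [e4, hu.rng, e3, h2]
  · obtain ⟨k, rfl⟩ : ∃ j, k = j + 1 := ⟨k - 1, by omega⟩
    have key : ∀ k : ℕ, (y * u * star y) ^ (k + 1) = y * u ^ (k + 1) * star y := by
      intro k
      induction k with
      | zero => simp
      | succ k ih =>
        rw [pow_succ, ih]
        calc y * u ^ (k + 1) * star y * (y * u * star y) =
              y * u ^ (k + 1) * ((star y * y) * u) * star y := by noncomm_ring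
          _ = y * (u ^ (k + 1) * u) * star y := by rw [h1, e1]; noncomm_ring
          _ = _ := by rw [← pow_succ]
    rw [key, tr_comm, ← mul_assoc, h1]
    have e5 : p * u ^ (k + 1) = u ^ (k + 1) := by rw [pow_succ', ← mul_assoc, e1]
    rw [e5]
    exact hu.tr _ (by omega)

end Haar

theorem p_CLS (hSAT : Stmt_SAT.{u}) : Stmt_CLS.{u} := by
  intro M _ _ 𝒰 _ p u hp hu Hc m x hx
  classical
  have h1 : ∀ i : ℕ, ∃ (z : Fin m → ℂ) (g : Fin m → UP M 𝒰), (∀ j, ‖z j‖ ≤ m ∧ GpN p u m (g j)) ∧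
      n2 (x - ∑ j, z j • g j) ≤ 1 / ((i : ℝ) + 1) := by
    intro i
    obtain ⟨x', ⟨z, g, h, rfl⟩, h2⟩ := hx (1 / ((i:ℝ) + 1)) (by positivity)
    exact ⟨z, g, h, h2⟩
  choose Z G hZG hn using h1
  have hcomp : IsCompact (Metric.closedBall (0 : Fin m → ℂ) m) := isCompact_closedBall _ _
  obtain ⟨z, hz, φ, hφ, hlim⟩ := hcomp.tendsto_subseq (x := Z) (fun i => by
    rw [mem_closedBall_zero_iff, pi_norm_le_iff_of_nonneg (Nat.cast_nonneg m)]
    exact fun j => (hZG i j).1)
  have hzm : ∀ j, ‖z j‖ ≤ m := by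
    rw [mem_closedBall_zero_iff, pi_norm_le_iff_of_nonneg (Nat.cast_nonneg m)] at hz
    exact hz
  have hgn : ∀ i j, ‖G i j‖ ≤ 1 := fun i j => CLS_nrm hp (hZG i j).2.src
  have H : ∀ ε : ℝ, 0 < ε → ∃ g : Fin m → UP M 𝒰, (∀ j, GpN p u m (g j)) ∧
      n2 (x - ∑ j, z j • g j) ≤ ε := by
    intro ε hε
    have e1 : ∀ᶠ i in atTop, dist ((Z ∘ φ) i) z < ε / (2 * ((m:ℝ) + 1)) :=
      (Metric.tendsto_nhds.1 hlim) _ (by positivity)
    have e2 : ∀ᶠ i : ℕ in atTop, 1 / ((i:ℝ) + 1) < ε / 2 :=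
      (tendsto_order.1 tendsto_one_div_add_atTop_nhds_zero_nat).2 _ (by positivity)
    obtain ⟨i, hi1, hi2⟩ := (e1.and (hφ.tendsto_atTop.eventually e2)).exists
    refine ⟨G (φ i), fun j => (hZG _ j).2, ?_⟩
    have h3 := hn (φ i)
    have h4 : n2 (∑ j, Z (φ i) j • G (φ i) j - ∑ j, z j • G (φ i) j) ≤
        m * (ε / (2 * ((m:ℝ) + 1))) := by
      have hsub : ∑ j, Z (φ i) j • G (φ i) j - ∑ j, z j • G (φ i) j =
          ∑ j, (Z (φ i) j • G (φ i) j - z j • G (φ i) j) :=
        (Finset.sum_sub_distrib _ _).symm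
      rw [hsub]
      refine (n2_sum_le _ _).trans ?_
      calc ∑ j, n2 (Z (φ i) j • G (φ i) j - z j • G (φ i) j) ≤
            ∑ _j : Fin m, ε / (2 * ((m:ℝ) + 1)) := by
            refine Finset.sum_le_sum fun j _ => ?_
            rw [← sub_smul, n2_smul]
            have h5 : ‖Z (φ i) j - z j‖ ≤ ε / (2 * ((m:ℝ) + 1)) := by
              have h7 := dist_le_pi_dist (Z (φ i)) z j
              rw [dist_eq_norm] at h7
              exact h7.trans hi1.le
            have h6 := (n2_le_norm (G (φ i) j)).trans (hgn _ _)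
            calc _ ≤ ε / (2 * ((m:ℝ) + 1)) * 1 := mul_le_mul h5 h6 (n2_nonneg _) (by positivity)
              _ = _ := mul_one _
        _ = m * (ε / (2 * ((m:ℝ) + 1))) := by simp
    have h5 : (m:ℝ) * (ε / (2 * ((m:ℝ) + 1))) ≤ ε / 2 := by
      have hm : (0:ℝ) < (m:ℝ) + 1 := by positivity
      rw [mul_div_assoc', div_le_div_iff₀ (by positivity) (by positivity)]
      nlinarith
    have h6 := n2_triangle x (∑ j, Z (φ i) j • G (φ i) j) (∑ j, z j • G (φ i) j)
    linarith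
  -- saturation
  obtain ⟨P0, -, hP0⟩ := exists_lift_UP 𝒰 p
  obtain ⟨U0, -, hU0⟩ := exists_lift_UP 𝒰 u
  obtain ⟨X0, -, hX0⟩ := exists_lift_UP 𝒰 x
  let A : Fin m → ℕ → (Fin m × Option ℕ → Sq M) → Sq M := fun j i X =>
    X (j, some i) * U0 * star (X (j, some i))
  have hA : ∀ j i, Loc (A j i) := fun j i =>
    CLS_loc_mul (CLS_loc_mul (CLS_loc_var _) (CLS_loc_const _)) (CLS_loc_star (CLS_loc_var _))
  let f1 : Fin m → (Fin m × Option ℕ → Sq M) → Sq M := fun j X =>
    star (X (j, none)) * X (j, none) - P0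
  let f2 : Fin m → (Fin m × Option ℕ → Sq M) → Sq M := fun j X =>
    X (j, none) * star (X (j, none)) - P0
  let f3 : Fin m → (Fin m × Option ℕ → Sq M) → Sq M := fun j X => A j 0 X - U0
  let f4 : Fin m → (Fin m × Option ℕ → Sq M) → Sq M := fun j X =>
    A j m X - X (j, none) * U0 * star (X (j, none))
  let f5 : Fin m × Fin (m + 1) → (Fin m × Option ℕ → Sq M) → Sq M := fun q X =>
    star (X (q.1, some (q.2 : ℕ))) * X (q.1, some (q.2 : ℕ)) - P0
  let f6 : Fin m × Fin (m + 1) → (Fin m × Option ℕ → Sq M) → Sq M := fun q X =>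
    X (q.1, some (q.2 : ℕ)) * star (X (q.1, some (q.2 : ℕ))) - P0
  let f7 : Fin m × Fin m → (Fin m × Option ℕ → Sq M) → Sq M := fun q X =>
    A q.1 q.2 X * A q.1 ((q.2 : ℕ) + 1) X - A q.1 ((q.2 : ℕ) + 1) X * A q.1 q.2 X
  let f8 : Unit → (Fin m × Option ℕ → Sq M) → Sq M := fun _ X => X0 - ∑ j, z j • X (j, none)
  have hsat := hSAT M 𝒰 (Fin m × Option ℕ)
    (Fin m ⊕ Fin m ⊕ Fin m ⊕ Fin m ⊕ (Fin m × Fin (m + 1)) ⊕ (Fin m × Fin (m + 1)) ⊕
      (Fin m × Fin m) ⊕ Unit)
    (Sum.elim f1 (Sum.elim f2 (Sum.elim f3 (Sum.elim f4 (Sum.elim f5 (Sum.elim f6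
      (Sum.elim f7 f8))))))) ?_ ?_
  · obtain ⟨X, -, hX⟩ := hsat
    have R1 : ∀ j, star (toUP 𝒰 (X (j, none))) * toUP 𝒰 (X (j, none)) = p := fun j => by
      have h2 : toUP 𝒰 (star (X (j, none)) * X (j, none) - P0) = 0 := hX (Sum.inl j)
      rw [map_sub, map_mul, map_star, hP0] at h2
      exact sub_eq_zero.1 h2
    have R2 : ∀ j, toUP 𝒰 (X (j, none)) * star (toUP 𝒰 (X (j, none))) = p := fun j => by
      have h2 : toUP 𝒰 (X (j, none) * star (X (j, none)) - P0) = 0 := hX (Sum.inr (Sum.inl j))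
      rw [map_sub, map_mul, map_star, hP0] at h2
      exact sub_eq_zero.1 h2
    have hAU : ∀ j i, toUP 𝒰 (A j i X) = toUP 𝒰 (X (j, some i)) * u *
        star (toUP 𝒰 (X (j, some i))) := fun j i => by
      show toUP 𝒰 (X (j, some i) * U0 * star (X (j, some i))) = _
      rw [map_mul, map_mul, map_star, hU0]
    have R3 : ∀ j, toUP 𝒰 (A j 0 X) = u := fun j => by
      have h2 : toUP 𝒰 (A j 0 X - U0) = 0 := hX (Sum.inr (Sum.inr (Sum.inl j)))
      rw [map_sub, hU0] at h2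
      exact sub_eq_zero.1 h2
    have R4 : ∀ j, toUP 𝒰 (A j m X) = toUP 𝒰 (X (j, none)) * u *
        star (toUP 𝒰 (X (j, none))) := fun j => by
      have h2 : toUP 𝒰 (A j m X - X (j, none) * U0 * star (X (j, none))) = 0 :=
        hX (Sum.inr (Sum.inr (Sum.inr (Sum.inl j))))
      rw [map_sub] at h2
      rw [sub_eq_zero.1 h2, map_mul, map_mul, map_star, hU0]
    have R5 : ∀ j (i : Fin (m + 1)), star (toUP 𝒰 (X (j, some (i : ℕ)))) *
        toUP 𝒰 (X (j, some (i : ℕ))) = p := fun j i => by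
      have h2 : toUP 𝒰 (star (X (j, some (i : ℕ))) * X (j, some (i : ℕ)) - P0) = 0 :=
        hX (Sum.inr (Sum.inr (Sum.inr (Sum.inr (Sum.inl (j, i))))))
      rw [map_sub, map_mul, map_star, hP0] at h2
      exact sub_eq_zero.1 h2
    have R6 : ∀ j (i : Fin (m + 1)), toUP 𝒰 (X (j, some (i : ℕ))) *
        star (toUP 𝒰 (X (j, some (i : ℕ)))) = p := fun j i => by
      have h2 : toUP 𝒰 (X (j, some (i : ℕ)) * star (X (j, some (i : ℕ))) - P0) = 0 :=
        hX (Sum.inr (Sum.inr (Sum.inr (Sum.inr (Sum.inr (Sum.inl (j, i)))))))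
      rw [map_sub, map_mul, map_star, hP0] at h2
      exact sub_eq_zero.1 h2
    have R7 : ∀ j (i : Fin m), toUP 𝒰 (A j i X) * toUP 𝒰 (A j ((i : ℕ) + 1) X) =
        toUP 𝒰 (A j ((i : ℕ) + 1) X) * toUP 𝒰 (A j i X) := fun j i => by
      have h2 : toUP 𝒰 (A j i X * A j ((i : ℕ) + 1) X - A j ((i : ℕ) + 1) X * A j i X) = 0 :=
        hX (Sum.inr (Sum.inr (Sum.inr (Sum.inr (Sum.inr (Sum.inr (Sum.inl (j, i))))))))
      rw [map_sub] at h2
      calc _ = toUP 𝒰 (A j i X * A j ((i : ℕ) + 1) X) :=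
            (map_mul (toUP 𝒰) (A j i X) (A j ((i : ℕ) + 1) X)).symm
        _ = toUP 𝒰 (A j ((i : ℕ) + 1) X * A j i X) := sub_eq_zero.1 h2
        _ = _ := map_mul (toUP 𝒰) (A j ((i : ℕ) + 1) X) (A j i X)
    have R8 : x = ∑ j, z j • toUP 𝒰 (X (j, none)) := by
      have h2 : toUP 𝒰 (X0 - ∑ j, z j • X (j, none)) = 0 :=
        hX (Sum.inr (Sum.inr (Sum.inr (Sum.inr (Sum.inr (Sum.inr (Sum.inr ())))))))
      rw [map_sub, hX0, map_sum] at h2
      rw [sub_eq_zero.1 h2]
      refine Finset.sum_congr rfl fun j _ => ?_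
      rw [map_smul]
    have hHaar : ∀ j i, i ≤ m → IsHaarIn p (toUP 𝒰 (A j i X)) := fun j i hi => by
      rw [hAU]
      exact CLS_conj hp hu (R5 j ⟨i, by omega⟩) (R6 j ⟨i, by omega⟩)
    refine ⟨z, fun j => toUP 𝒰 (X (j, none)), fun j => ⟨hzm j, R1 j, R2 j, ?_⟩, R8⟩
    refine ⟨fun i => toUP 𝒰 (A j (min i m) X), ?_, ?_, fun i => ?_, fun i => ?_⟩
    · show toUP 𝒰 (A j (min 0 m) X) = u
      rw [Nat.zero_min]
      exact R3 j
    · show toUP 𝒰 (A j (min m m) X) = _
      rw [min_self]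
      exact R4 j
    · exact hHaar j _ (min_le_right _ _)
    · show toUP 𝒰 (A j (min i m) X) * toUP 𝒰 (A j (min (i + 1) m) X) =
        toUP 𝒰 (A j (min (i + 1) m) X) * toUP 𝒰 (A j (min i m) X)
      rcases Nat.lt_or_ge i m with hi | hi
      · rw [min_eq_left hi.le, min_eq_left (by omega)]
        exact R7 j ⟨i, hi⟩
      · rw [min_eq_right hi, min_eq_right (by omega)]
  · rintro (j | j | j | j | ⟨j, i⟩ | ⟨j, i⟩ | ⟨j, i⟩ | _)
    · exact CLS_loc_sub (CLS_loc_mul (CLS_loc_star (CLS_loc_var _)) (CLS_loc_var _))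
        (CLS_loc_const _)
    · exact CLS_loc_sub (CLS_loc_mul (CLS_loc_var _) (CLS_loc_star (CLS_loc_var _)))
        (CLS_loc_const _)
    · exact CLS_loc_sub (hA _ _) (CLS_loc_const _)
    · exact CLS_loc_sub (hA _ _) (CLS_loc_mul (CLS_loc_mul (CLS_loc_var _) (CLS_loc_const _))
        (CLS_loc_star (CLS_loc_var _)))
    · exact CLS_loc_sub (CLS_loc_mul (CLS_loc_star (CLS_loc_var _)) (CLS_loc_var _))
        (CLS_loc_const _)
    · exact CLS_loc_sub (CLS_loc_mul (CLS_loc_var _) (CLS_loc_star (CLS_loc_var _)))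
        (CLS_loc_const _)
    · exact CLS_loc_sub (CLS_loc_mul (hA _ _) (hA _ _)) (CLS_loc_mul (hA _ _) (hA _ _))
    · exact CLS_loc_sub (CLS_loc_const _)
        (CLS_loc_sum z (F := fun j X => X (j, none)) (fun j => CLS_loc_var _))
  · intro ε hε
    obtain ⟨g, hg, hgε⟩ := H ε hε
    have hw := fun j => (hg j).jn
    choose w w0 wm wH wc using hw
    choose h hh1 hh2 hh3 using fun j i => Hc (w j i) (wH j i)
    choose lg lg1 lg2 using fun j => exists_lift_UP 𝒰 (g j)
    choose lh lh1 lh2 using fun j i => exists_lift_UP 𝒰 (h j i)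
    let X : Fin m × Option ℕ → Sq M := fun q => Option.elim q.2 (lg q.1) (fun i => lh q.1 i)
    have X1 : ∀ j, X (j, none) = lg j := fun _ => rfl
    have X2 : ∀ j i, X (j, some i) = lh j i := fun _ _ => rfl
    refine ⟨X, ?_, ?_⟩
    · rintro ⟨j, _ | i⟩
      · exact (lg1 j).trans (CLS_nrm hp (hg j).src)
      · exact (lh1 j i).trans (CLS_nrm hp (hh1 j i))
    · have hAX : ∀ j i, toUP 𝒰 (A j i X) = w j i := fun j i => by
        show toUP 𝒰 (X (j, some i) * U0 * star (X (j, some i))) = _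
        rw [X2, map_mul, map_mul, map_star, hU0, lh2, hh3]
      have fin : ∀ y : Sq M, toUP 𝒰 y = 0 → n2 (toUP 𝒰 y) ≤ ε := fun y hy => by
        rw [hy, n2_zero]
        exact hε.le
      rintro (j | j | j | j | ⟨j, i⟩ | ⟨j, i⟩ | ⟨j, i⟩ | _)
      · refine fin _ ?_
        show toUP 𝒰 (star (X (j, none)) * X (j, none) - P0) = 0
        rw [X1, map_sub, map_mul, map_star, hP0, lg2, (hg j).src, sub_self]
      · refine fin _ ?_
        show toUP 𝒰 (X (j, none) * star (X (j, none)) - P0) = 0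
        rw [X1, map_sub, map_mul, map_star, hP0, lg2, (hg j).rng, sub_self]
      · refine fin _ ?_
        show toUP 𝒰 (A j 0 X - U0) = 0
        rw [map_sub, hAX, hU0, w0, sub_self]
      · refine fin _ ?_
        show toUP 𝒰 (A j m X - X (j, none) * U0 * star (X (j, none))) = 0
        rw [X1, map_sub, hAX, map_mul, map_mul, map_star, hU0, lg2, wm, sub_self]
      · refine fin _ ?_
        show toUP 𝒰 (star (X (j, some (i : ℕ))) * X (j, some (i : ℕ)) - P0) = 0
        rw [X2, map_sub, map_mul, map_star, hP0, lh2, hh1, sub_self]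
      · refine fin _ ?_
        show toUP 𝒰 (X (j, some (i : ℕ)) * star (X (j, some (i : ℕ))) - P0) = 0
        rw [X2, map_sub, map_mul, map_star, hP0, lh2, hh2, sub_self]
      · refine fin _ ?_
        show toUP 𝒰 (A j i X * A j ((i : ℕ) + 1) X - A j ((i : ℕ) + 1) X * A j i X) = 0
        rw [map_sub, map_mul (toUP 𝒰) (A j i X) (A j ((i : ℕ) + 1) X),
          map_mul (toUP 𝒰) (A j ((i : ℕ) + 1) X) (A j i X), hAX, hAX, wc, sub_self]
      · show n2 (toUP 𝒰 (X0 - ∑ j, z j • X (j, none))) ≤ ε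
        have h2 : toUP 𝒰 (X0 - ∑ j, z j • X (j, none)) = x - ∑ j, z j • g j := by
          rw [map_sub, hX0, map_sum]
          congr 1
          refine Finset.sum_congr rfl fun j _ => ?_
          rw [map_smul, X1, lg2]
        rw [h2]
        exact hgε

end ND

end SCO
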