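import Pool.Agent.Work.MP_52dd0f_nd.Interface2

/-! Block CON of THEOREM ND+ (helper24). -/

set_option autoImplicit false
set_option linter.unusedSectionVars false

namespace SCO

open Filter Topology

universe u

namespace ND

theorem CON_norm {Q : Type u} [CStarAlgebra Q] {x : Q} (hx : star x * x = 1) : ‖x‖ ≤ 1 := by
  rcases subsingleton_or_nontrivial Q with h | h
  · have : x = 0 := Subsingleton.elim _ _
    rw [this, norm_zero]
    exact zero_le_one
  · have h1 : ‖x‖ * ‖x‖ = 1 := by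
      rw [← CStarRing.norm_star_mul_self, hx, CStarRing.norm_one]
    nlinarith [norm_nonneg x]

theorem CON_sub {Q : Type u} [CStarAlgebra Q] {a b U : Q} (ha : star a * a = 1) (hb : star b * b = 1)
    (hU : star U * U = 1) : ‖a * U * star a - b * U * star b‖ ≤ 2 * ‖a - b‖ := by
  have e : a * U * star a - b * U * star b = (a - b) * (U * star a) + (b * U) * star (a - b) := by
    rw [star_sub]; noncomm_ring
  have h1 := CON_norm ha
  have h2 := CON_norm hb
  have h3 := CON_norm hU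
  have n1 : ‖U * star a‖ ≤ 1 := by
    refine (norm_mul_le _ _).trans ?_
    rw [norm_star]
    exact mul_le_one₀ h3 (norm_nonneg _) h1
  have n2 : ‖b * U‖ ≤ 1 := (norm_mul_le _ _).trans (mul_le_one₀ h2 (norm_nonneg _) h3)
  rw [e]
  refine (norm_add_le _ _).trans ?_
  have m1 : ‖(a - b) * (U * star a)‖ ≤ ‖a - b‖ := by
    refine (norm_mul_le _ _).trans ?_
    exact mul_le_of_le_one_right (norm_nonneg _) n1
  have m2 : ‖(b * U) * star (a - b)‖ ≤ ‖a - b‖ := by
    refine (norm_mul_le _ _).trans ?_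
    rw [norm_star]
    exact mul_le_of_le_one_left (norm_nonneg _) n2
  linarith

theorem CON_pow (n : ℕ) : 2 * (1 / 2 : ℝ) ^ (2 ^ (n + 1)) ≤ (1 / 2 : ℝ) ^ (2 ^ n) := by
  have h1 : 1 ≤ 2 ^ n := Nat.one_le_two_pow
  have h2 : (1 / 2 : ℝ) ^ (2 ^ (n + 1)) ≤ (1 / 2 : ℝ) ^ (2 ^ n + 1) := by
    apply pow_le_pow_of_le_one (by norm_num) (by norm_num)
    rw [pow_succ 2 n]
    omega
  rw [pow_succ (1 / 2 : ℝ) (2 ^ n)] at h2
  linarith

theorem p_CON (hGJN : Stmt_GJN.{u}) : Stmt_CON.{u} := by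
  intro Q _ _ U hU C' H1 H2 n u v hu hv
  obtain ⟨-, -, g3, -, -, -, g7, -, -⟩ := hGJN Q 1 ⟨by simp, by simp⟩
  obtain ⟨h, hh1, hh2, hh3⟩ := H2 u hu
  obtain ⟨k, hk1, hk2, hk3⟩ := H2 v hv
  obtain ⟨γ, hγ, hn⟩ := H1 (n + 1) (star h * k)
    (by rw [star_mul, star_star, mul_assoc, ← mul_assoc h, hh2, one_mul, hk1])
    (by rw [star_mul, star_star, mul_assoc, ← mul_assoc k, hk2, one_mul, hh1])
  refine ⟨h * (γ * U * star γ) * star h, ?_, ?_⟩
  · have h1 := g3 (C' * (n + 1 + 1)) U (γ * U * star γ) h 1 hh1 hh2 hγ.jn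
    rw [hh3] at h1
    refine g7 _ _ _ _ ?_ h1
    nlinarith [Nat.zero_le (C' * n)]
  · have hc : star (h * γ) * (h * γ) = 1 := by
      rw [star_mul, mul_assoc, ← mul_assoc (star h), hh1, one_mul, hγ.src]
    have h1 := CON_sub (b := k) hc hk1 hU.isom
    have e1 : h * γ * U * star (h * γ) = h * (γ * U * star γ) * star h := by
      rw [star_mul]; noncomm_ring
    rw [e1, hk3] at h1
    have e2 : h * γ - k = h * (γ - star h * k) := by
      rw [mul_sub, ← mul_assoc h (star h), hh2, one_mul]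
    have h2 : ‖h * γ - k‖ ≤ ‖γ - star h * k‖ := by
      rw [e2]
      refine (norm_mul_le _ _).trans ?_
      exact mul_le_of_le_one_left (norm_nonneg _) (CON_norm hh1)
    have h3 := CON_pow n
    linarith

end ND

end SCO
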