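import Pool.Agent.Work.MP_52dd0f_nd.Interface2

/-!
# THEOREM ND+, block CSH: the cyclic shift
-/

set_option autoImplicit false
set_option linter.unusedSectionVars false

namespace SCO

open Filter Topology

universe u

namespace ND

section CSH

variable {M : Type u} [CStarAlgebra M]

theorem CSH_alg {m : ℕ} (q w : Fin (m + 1) → M) (hq : ∀ i, IsProj (q i))
    (ho : ∀ i j, i ≠ j → q i * q j = 0) (h1 : ∀ i, star (w i) * w i = q 0)
    (h2 : ∀ i, w i * star (w i) = q i) (h3 : ∀ i, w i * q 0 = w i) (h4 : ∀ i, q i * w i = w i) :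
    star (∑ k, w (k + 1) * star (w k)) * (∑ k, w (k + 1) * star (w k)) = ∑ k, q k ∧
    (∑ k, w (k + 1) * star (w k)) * star (∑ k, w (k + 1) * star (w k)) = ∑ k, q k ∧
    ∀ j, (∑ k, w (k + 1) * star (w k)) * q j * star (∑ k, w (k + 1) * star (w k)) = q (j + 1) := by
  have h5 : ∀ i j, i ≠ j → star (w i) * w j = 0 := by
    intro i j hij
    have e1 : star (w i) = star (w i) * q i := by
      have := congrArg star (h4 i)
      rw [star_mul, (hq i).star] at this
      exact this.symm
    rw [e1, ← h4 j, mul_assoc, ← mul_assoc (q i), ho i j hij, zero_mul, mul_zero]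
  have h6 : ∀ i j, star (w i) * q j = if i = j then star (w i) else 0 := by
    intro i j
    split_ifs with h
    · subst h
      have := congrArg star (h4 i)
      rw [star_mul, (hq i).star] at this
      exact this
    · rw [← h2 j, ← mul_assoc, h5 i j h, zero_mul]
  have h7 : ∀ i, q 0 * star (w i) = star (w i) := by
    intro i
    have := congrArg star (h3 i)
    rw [star_mul, (hq 0).star] at this
    exact this
  have hst : star (∑ k, w (k + 1) * star (w k)) = ∑ k, w k * star (w (k + 1)) := by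
    rw [star_sum]
    refine Finset.sum_congr rfl fun k _ => ?_
    rw [star_mul, star_star]
  have hshift : ∀ f : Fin (m + 1) → M, ∑ k, f (k + 1) = ∑ k, f k := fun f =>
    Equiv.sum_comp (Equiv.addRight (1 : Fin (m + 1))) f
  rw [hst]
  refine ⟨?_, ?_, ?_⟩
  · rw [Finset.sum_mul]
    refine Finset.sum_congr rfl fun k _ => ?_
    rw [Finset.mul_sum, Finset.sum_eq_single k]
    · rw [mul_assoc, ← mul_assoc (star (w (k + 1))), h1, h7, h2]
    · intro j _ hj
      rw [mul_assoc, ← mul_assoc (star (w (k + 1))), h5 (k + 1) (j + 1)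
        (fun h => hj (add_right_cancel h).symm), zero_mul, mul_zero]
    · intro h; exact absurd (Finset.mem_univ k) h
  · rw [Finset.sum_mul, ← hshift q]
    refine Finset.sum_congr rfl fun k _ => ?_
    rw [Finset.mul_sum, Finset.sum_eq_single k]
    · rw [mul_assoc, ← mul_assoc (star (w k)), h1, h7, h2]
    · intro j _ hj
      rw [mul_assoc, ← mul_assoc (star (w k)), h5 k j (Ne.symm hj), zero_mul, mul_zero]
    · intro h; exact absurd (Finset.mem_univ k) h
  · intro j
    have e1 : (∑ k, w (k + 1) * star (w k)) * q j = w (j + 1) * star (w j) := by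
      rw [Finset.sum_mul, Finset.sum_eq_single j]
      · rw [mul_assoc, h6 j j, if_pos rfl]
      · intro i _ hi
        rw [mul_assoc, h6 i j, if_neg hi, mul_zero]
      · intro h; exact absurd (Finset.mem_univ j) h
    rw [e1, Finset.mul_sum, Finset.sum_eq_single j]
    · rw [mul_assoc, ← mul_assoc (star (w j)), h1, h7, h2]
    · intro i _ hi
      rw [mul_assoc, ← mul_assoc (star (w j)), h5 j i (Ne.symm hi), zero_mul, mul_zero]
    · intro h; exact absurd (Finset.mem_univ j) h

theorem CSH_partial {m : ℕ} (x : Fin (m + 1) → ℝ) (h0 : ∑ i, x i = 0) (k : Fin (m + 1)) :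
    (∑ i ∈ Finset.univ.filter (fun i : Fin (m + 1) => (i : ℕ) < ((k + 1 : Fin (m + 1)) : ℕ) + 1), x i) -
      (∑ i ∈ Finset.univ.filter (fun i : Fin (m + 1) => (i : ℕ) < (k : ℕ) + 1), x i) = x (k + 1) := by
  by_cases hk : k = Fin.last m
  · subst hk
    have e1 : Finset.univ.filter (fun i : Fin (m + 1) => (i : ℕ) < ((Fin.last m : Fin (m + 1)) : ℕ) + 1)
        = Finset.univ := by
      ext i; simp [Fin.is_le i]
    have e2 : Finset.univ.filter (fun i : Fin (m + 1) =>
        (i : ℕ) < ((Fin.last m + 1 : Fin (m + 1)) : ℕ) + 1) = {0} := by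
      ext i
      simp only [Fin.last_add_one, Fin.val_zero, zero_add, Finset.mem_filter, Finset.mem_univ,
        true_and, Finset.mem_singleton, Nat.lt_one_iff]
      exact ⟨fun h => Fin.ext h, fun h => by rw [h]; rfl⟩
    rw [e1, e2, h0, Finset.sum_singleton, Fin.last_add_one, sub_zero]
  · have hv : ((k + 1 : Fin (m + 1)) : ℕ) = (k : ℕ) + 1 := Fin.val_add_one_of_lt
      (lt_of_le_of_ne (Fin.le_last k) hk)
    have e1 : Finset.univ.filter (fun i : Fin (m + 1) =>
        (i : ℕ) < ((k + 1 : Fin (m + 1)) : ℕ) + 1) =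
        insert (k + 1) (Finset.univ.filter (fun i : Fin (m + 1) => (i : ℕ) < (k : ℕ) + 1)) := by
      ext i
      simp only [Finset.mem_filter, Finset.mem_univ, true_and, Finset.mem_insert, hv]
      constructor
      · intro h
        rcases Nat.lt_succ_iff_lt_or_eq.1 h with h' | h'
        · exact Or.inr h'
        · exact Or.inl (Fin.ext (by rw [h', hv]))
      · rintro (h | h)
        · rw [h, hv]; omega
        · omega
    have e2 : (k + 1) ∉ Finset.univ.filter (fun i : Fin (m + 1) => (i : ℕ) < (k : ℕ) + 1) := by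
      simp only [Finset.mem_filter, Finset.mem_univ, true_and, hv]
      omega
    rw [e1, Finset.sum_insert e2]
    ring

end CSH

theorem p_CSH (hRRD : Stmt_RRD) (hNMX : Stmt_NMX.{u}) : Stmt_CSH.{u} := by
  intro M _ _ _ e n r x hr ho hsum htau hx hx0
  rcases n with _ | m
  · refine ⟨0, 0, by simp [IsSelfAdjoint], by simp, by simp, by simp, ?_, ?_, by simp⟩
    · rw [← hsum]; simp
    · rw [← hsum]; simp
  obtain ⟨σ, hσ⟩ := hRRD (m + 1) x 2 (by norm_num) hx hx0
  set q : Fin (m + 1) → M := fun k => r (σ k) with hqdef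
  have hq : ∀ i, IsProj (q i) := fun i => hr (σ i)
  have hqo : ∀ i j, i ≠ j → q i * q j = 0 := fun i j hij =>
    ho (σ i) (σ j) (fun h => hij (σ.injective h))
  have hqs : ∑ k, q k = e := by rw [← hsum]; exact Equiv.sum_comp σ r
  have hw : ∀ k, ∃ v : M, star v * v = q 0 ∧ v * star v = q k := fun k =>
    equiv_of_tau (hq 0) (hq k) (htau _ _)
  choose w hw1 hw2 using hw
  have hw3 : ∀ k, w k * q 0 = w k := fun k => pi_mul_src (hq 0) (hw1 k)
  have hw4 : ∀ k, q k * w k = w k := fun k => pi_mul_rng (hq 0) (hw1 k) (hw2 k)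
  obtain ⟨hs1, hs2, hs3⟩ := CSH_alg q w hq hqo hw1 hw2 hw3 hw4
  set s : M := ∑ k, w (k + 1) * star (w k) with hs
  set S : Fin (m + 1) → ℝ := fun k =>
    ∑ i ∈ Finset.univ.filter (fun i : Fin (m + 1) => (i : ℕ) < (k : ℕ) + 1), x (σ i) with hS
  have hSb : ∀ k, |S k| ≤ 2 := fun k => hσ ((k : ℕ) + 1)
  have hx0' : ∑ i, x (σ i) = 0 := by rw [← hx0]; exact Equiv.sum_comp σ x
  have hSd : ∀ k, S (k + 1) - S k = x (σ (k + 1)) := fun k =>
    CSH_partial (fun i => x (σ i)) hx0' k
  have heq : ∀ k, e * q k = q k := by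
    intro k
    rw [← hqs, Finset.sum_mul, Finset.sum_eq_single k]
    · exact (hq k).mul
    · intro j _ hj; exact hqo j k hj
    · intro h; exact absurd (Finset.mem_univ k) h
  have hqe : ∀ k, q k * e = q k := by
    intro k
    rw [← hqs, Finset.mul_sum, Finset.sum_eq_single k]
    · exact (hq k).mul
    · intro j _ hj; exact hqo k j (Ne.symm hj)
    · intro h; exact absurd (Finset.mem_univ k) h
  refine ⟨∑ k, ((S k : ℝ) : ℂ) • q k, s, ?_, ?_, ?_, ?_, ?_, ?_, ?_⟩
  · rw [IsSelfAdjoint, star_sum]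
    refine Finset.sum_congr rfl fun k _ => ?_
    rw [star_smul, (hq k).star]
    simp
  · rw [Finset.mul_sum]
    refine Finset.sum_congr rfl fun k _ => ?_
    rw [mul_smul_comm, heq]
  · rw [Finset.sum_mul]
    refine Finset.sum_congr rfl fun k _ => ?_
    rw [smul_mul_assoc, hqe]
  · refine hNMX M (m + 1) q (fun k => ((S k : ℝ) : ℂ) • q k) hq hqo ?_ ?_ 2 (by norm_num) ?_
    · intro k; rw [mul_smul_comm, (hq k).mul]
    · intro k; rw [smul_mul_assoc, (hq k).mul]
    · intro k
      rw [norm_smul]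
      have : ‖((S k : ℝ) : ℂ)‖ ≤ 2 := by
        rw [Complex.norm_real, Real.norm_eq_abs]; exact hSb k
      calc ‖((S k : ℝ) : ℂ)‖ * ‖q k‖ ≤ 2 * 1 :=
            mul_le_mul this (hq k).norm_le (norm_nonneg _) (by norm_num)
        _ = 2 := by norm_num
  · rw [hs1, hqs]
  · rw [hs2, hqs]
  · have e1 : s * (∑ k, ((S k : ℝ) : ℂ) • q k) * star s = ∑ k, ((S k : ℝ) : ℂ) • q (k + 1) := by
      rw [Finset.mul_sum, Finset.sum_mul]
      refine Finset.sum_congr rfl fun k _ => ?_
      rw [mul_smul_comm, smul_mul_assoc, hs3]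
    have e2 : ∑ k, ((S k : ℝ) : ℂ) • q k = ∑ k, ((S (k + 1) : ℝ) : ℂ) • q (k + 1) :=
      (Equiv.sum_comp (Equiv.addRight (1 : Fin (m + 1))) (fun k => ((S k : ℝ) : ℂ) • q k)).symm
    rw [e1, e2, ← Finset.sum_sub_distrib]
    have e3 : ∀ k, ((S (k + 1) : ℝ) : ℂ) • q (k + 1) - ((S k : ℝ) : ℂ) • q (k + 1) =
        ((x (σ (k + 1)) : ℝ) : ℂ) • r (σ (k + 1)) := by
      intro k
      rw [← sub_smul, ← Complex.ofReal_sub, hSd]
    rw [Finset.sum_congr rfl fun k _ => e3 k]
    exact (Equiv.sum_comp (Equiv.addRight (1 : Fin (m + 1)))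
      (fun k => ((x (σ k) : ℝ) : ℂ) • r (σ k))).trans
      (Equiv.sum_comp σ (fun i => ((x i : ℝ) : ℂ) • r i))

end ND

end SCO
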