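import Pool.Agent.Work.MP_52dd0f_nd.Interface2

/-! # Block DMG: differences of diagonal elements are good sums -/

set_option autoImplicit false
set_option linter.unusedSectionVars false

namespace SCO

open Filter Topology

universe u

namespace ND

theorem p_DMG (hGJN : Stmt_GJN.{u}) (hAMP : Stmt_AMP.{u}) (hGSP : Stmt_GSP.{u}) : Stmt_DMG.{u} := by
  intro Q _ _ c hc u hu m hoff y hys hey hye hy1
  obtain ⟨hp, -, -, hcm, -, -, -, -, hHaar⟩ := hAMP Q 1 c hc
  have heu : c 0 0 * u = u := hu.mul_left hp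
  have hue : u * c 0 0 = u := hu.mul_right hp
  have hU : HaarU (am (n := 1) c u) := (hHaar u heu hue).1 hu
  have hU1 : IsHaarIn 1 (am (n := 1) c u) := hU.isHaarIn
  set U : Q := am (n := 1) c u with hUdef
  have hproj1 : IsProj (1 : Q) := ⟨by simp, by simp⟩
  have m01_00 : c 0 1 * c 0 0 = 0 := by rw [hc.mul]; simp
  have m01_10 : c 0 1 * c 1 0 = c 0 0 := by rw [hc.mul]; simp
  have m10_01 : c 1 0 * c 0 1 = c 1 1 := by rw [hc.mul]; simp
  have m10_10 : c 1 0 * c 1 0 = 0 := by rw [hc.mul]; simp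
  have m01_01 : c 0 1 * c 0 1 = 0 := by rw [hc.mul]; simp
  have m00_10 : c 0 0 * c 1 0 = 0 := by rw [hc.mul]; simp
  have hsum : c 0 0 + c 1 1 = 1 := by
    have h1 := hc.sum
    rw [Fin.sum_univ_two] at h1
    exact h1
  have hcy : c 0 1 * y = 0 := by rw [← hey, ← mul_assoc, m01_00, zero_mul]
  have hyc : y * c 1 0 = 0 := by rw [← hye, mul_assoc, m00_10, mul_zero]
  set K : Q := c 0 1 + c 1 0 with hK
  have hKs : star K = K := by
    rw [hK, star_add, hc.star, hc.star, add_comm]
  have hKK : K * K = 1 := by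
    rw [hK, add_mul, mul_add, mul_add, m01_10, m10_01, m10_10, m01_01, ← hsum]
    abel
  have hKU : K * U = U * K := by
    rw [hK, add_mul, mul_add, hcm, hcm]
  set O : Q := off c (Complex.I • y) with hO
  set d : Q := y - c 1 0 * y * c 0 1 with hd
  have hOe : O = Complex.I • (y * c 0 1 - c 1 0 * y) := by
    rw [hO, off, star_smul, hys.star_eq, smul_mul_assoc, mul_smul_comm, smul_sub, sub_eq_add_neg,
      ← neg_smul]
    simp
  have hKO : K * O = (-Complex.I) • d := by
    rw [hOe, hK, hd, mul_smul_comm, neg_smul, ← smul_neg]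
    congr 1
    rw [add_mul, mul_sub, mul_sub, ← mul_assoc, hcy, zero_mul, ← mul_assoc, m01_10, hey,
      ← mul_assoc (c 1 0) (c 1 0) y, m10_10, zero_mul, ← mul_assoc]
    abel
  have hOK : O * K = Complex.I • d := by
    rw [hOe, hK, hd, smul_mul_assoc]
    congr 1
    rw [sub_mul, mul_add, mul_add, mul_assoc y, m01_01, mul_assoc y, m01_10, hye, mul_assoc _ y (c 1 0),
      hyc, mul_zero, mul_zero]
    abel
  have hKOK : K * O * K = - O := by
    rw [hKO, hOe, hd, hK, smul_mul_assoc, neg_smul, ← smul_neg, ← smul_neg]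
    congr 1
    rw [sub_mul, mul_add, mul_add, hyc, mul_assoc _ (c 0 1) (c 0 1), m01_01, mul_assoc _ (c 0 1) (c 1 0),
      m01_10, mul_zero, mul_assoc (c 1 0) y, hye]
    abel
  set s : ℂ := ((1 / √2 : ℝ) : ℂ) with hs
  have hss : s * s = 1 / 2 := by
    rw [hs, ← Complex.ofReal_mul]
    have : (1 / √2 : ℝ) * (1 / √2) = 1 / 2 := by
      rw [div_mul_div_comm, Real.mul_self_sqrt (by norm_num)]; norm_num
    rw [this]; norm_num
  have hstars : star s = s := by rw [hs]; exact Complex.conj_ofReal _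
  set R : Q := s • ((1 : Q) + Complex.I • K) with hR
  have hRs : star R = s • ((1 : Q) - Complex.I • K) := by
    rw [hR, star_smul, hstars, star_add, star_one, star_smul, hKs, sub_eq_add_neg, ← neg_smul]
    simp
  have hRR : star R * R = 1 := by
    rw [hRs, hR, smul_mul_smul_comm, hss, sub_mul, mul_add, mul_add, one_mul, mul_one, one_mul,
      smul_mul_smul_comm, Complex.I_mul_I, hKK, ← add_sub_add_right_eq_sub]
    rw [show (1 : Q) + Complex.I • K + (1 : Q) - (Complex.I • K + (-1 : ℂ) • (1 : Q) + 1) = (2 : ℂ) • (1 : Q) by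
      rw [neg_smul, one_smul, two_smul]; abel]
    rw [smul_smul]; norm_num
  have hRR' : R * star R = 1 := by
    rw [hRs, hR, smul_mul_smul_comm, hss, add_mul, mul_sub, mul_sub, one_mul, mul_one, one_mul,
      smul_mul_smul_comm, Complex.I_mul_I, hKK]
    rw [show (1 : Q) - Complex.I • K + (Complex.I • K - (-1 : ℂ) • (1 : Q)) = (2 : ℂ) • (1 : Q) by
      rw [neg_smul, one_smul, two_smul]; abel]
    rw [smul_smul]; norm_num
  have hRU : R * U = U * R := by
    rw [hR, smul_mul_assoc, mul_smul_comm, add_mul, mul_add, one_mul, mul_one, smul_mul_assoc,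
      mul_smul_comm, hKU]
  obtain ⟨-, -, -, h4, -⟩ := hGJN Q 1 hproj1
  have hRG : GpN 1 U 0 R := h4 0 U R hU1 hRR hRR' hRU
  obtain ⟨-, -, -, -, h5, -⟩ := hGSP Q U hU
  have hOG : Gs U m O := by
    refine hoff (Complex.I • y) ?_ ?_ ?_
    · rw [mul_smul_comm, hey]
    · rw [smul_mul_assoc, hye]
    · rw [norm_smul, Complex.norm_I, one_mul]; exact hy1
  have hfin := h5 m 0 O R hRG hOG
  have hconj : R * O * star R = d := by
    rw [hRs, hR, smul_mul_assoc, smul_mul_smul_comm, hss, add_mul, one_mul, mul_sub, mul_one,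
      add_mul, smul_mul_assoc, mul_smul_comm, mul_smul_comm, smul_mul_assoc, hKOK, hKO, hOK,
      smul_smul, smul_smul, smul_smul, smul_neg]
    have e1 : Complex.I * -Complex.I = 1 := by rw [mul_neg, Complex.I_mul_I, neg_neg]
    rw [e1, Complex.I_mul_I]
    rw [one_smul, neg_smul, neg_smul, one_smul, one_smul, neg_neg]
    rw [show O + d - (-d + O) = (2 : ℂ) • d by rw [two_smul]; abel, smul_smul]
    norm_num
  rw [hconj, mul_zero, add_zero] at hfin
  exact hfin

end ND

end SCO
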