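import Pool.Agent.Work.MP_52dd0f_nd.Interface2

/-! # Block DNR: the rate -/

set_option autoImplicit false
set_option linter.unusedSectionVars false

namespace SCO

open Filter Topology

universe u

namespace ND

section

variable {P : Type u} [CStarAlgebra P]

theorem DNR_exp (a : P) : ‖NormedSpace.exp a - 1‖ ≤ Real.exp ‖a‖ - 1 := by
  have h1 : HasSum (fun n : ℕ => ((n + 1).factorial⁻¹ : ℂ) • a ^ (n + 1))
      (NormedSpace.exp a - 1) := by
    have h := (hasSum_nat_add_iff' (f := fun n : ℕ => ((n.factorial : ℂ)⁻¹) • a ^ n) 1).2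
      (NormedSpace.exp_series_hasSum_exp' (𝕂 := ℂ) a)
    simpa using h
  have h2 : HasSum (fun n : ℕ => ((n + 1).factorial⁻¹ : ℝ) • ‖a‖ ^ (n + 1))
      (Real.exp ‖a‖ - 1) := by
    have h := (hasSum_nat_add_iff' (f := fun n : ℕ => ((n.factorial : ℝ)⁻¹) • ‖a‖ ^ n) 1).2
      (NormedSpace.exp_series_hasSum_exp' (𝕂 := ℝ) ‖a‖)
    rw [← Real.exp_eq_exp_ℝ] at h
    simpa using h
  refine h1.norm_le_of_bounded h2 fun n => ?_
  rw [norm_smul, smul_eq_mul]
  have h3 : ‖(((n + 1).factorial : ℂ)⁻¹)‖ = (((n + 1).factorial : ℝ)⁻¹) := by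
    rw [norm_inv, Complex.norm_natCast]
  rw [h3]
  exact mul_le_mul_of_nonneg_left (norm_pow_le' a (Nat.succ_pos n)) (by positivity)

theorem DNR_uni {a : P} (h : star a = -a) :
    star (NormedSpace.exp a) * NormedSpace.exp a = 1 ∧
      NormedSpace.exp a * star (NormedSpace.exp a) = 1 := by
  let _ : NormedAlgebra ℚ P := NormedAlgebra.restrictScalars ℚ ℂ P
  have h1 : a ∈ skewAdjoint P := skewAdjoint.mem_iff.2 h
  exact Unitary.mem_iff.1 (NormedSpace.exp_mem_unitary_of_mem_skewAdjoint h1)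

theorem DNR_pow (n : ℕ) (a : P) : NormedSpace.exp ((n : ℂ) • a) = NormedSpace.exp a ^ n := by
  let _ : NormedAlgebra ℚ P := NormedAlgebra.restrictScalars ℚ ℂ P
  rw [← NormedSpace.exp_nsmul, Nat.cast_smul_eq_nsmul]

theorem DNR_norm {x : P} (h : star x * x = 1) : ‖x‖ ≤ 1 := by
  by_cases hn : Nontrivial P
  · have h1 : ‖x‖ * ‖x‖ = 1 := by
      rw [← CStarRing.norm_star_mul_self, h]
      exact CStarRing.norm_one
    nlinarith [norm_nonneg x]
  · rw [not_nontrivial_iff_subsingleton] at hn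
    rw [Subsingleton.elim x 0, norm_zero]
    exact zero_le_one

theorem DNR_powd {x y : P} (hx : ‖x‖ ≤ 1) (hy : ‖y‖ ≤ 1) {η : ℝ} (h : ‖x - y‖ ≤ η) (n : ℕ) :
    ‖x ^ n - y ^ n‖ ≤ n * η := by
  induction n with
  | zero => simp
  | succ n ih =>
    have hxn : ∀ j : ℕ, ‖y ^ (j + 1)‖ ≤ 1 := fun j =>
      (norm_pow_le' y (Nat.succ_pos j)).trans (pow_le_one₀ (norm_nonneg _) hy)
    have h0 : 0 ≤ η := (norm_nonneg _).trans h
    rcases n with _ | n
    · simpa using h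
    · have h1 : x ^ (n + 1 + 1) - y ^ (n + 1 + 1) =
          (x ^ (n + 1) - y ^ (n + 1)) * x + y ^ (n + 1) * (x - y) := by
        rw [pow_succ x (n + 1), pow_succ y (n + 1)]
        noncomm_ring
      rw [h1]
      refine (norm_add_le _ _).trans ?_
      have h2 : ‖(x ^ (n + 1) - y ^ (n + 1)) * x‖ ≤ ((n + 1 : ℕ) : ℝ) * η := by
        refine (norm_mul_le _ _).trans ?_
        refine (mul_le_mul ih hx (norm_nonneg _) (by positivity)).trans ?_
        rw [mul_one]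
      have h3 : ‖y ^ (n + 1) * (x - y)‖ ≤ η := by
        refine (norm_mul_le _ _).trans ?_
        refine (mul_le_mul (hxn n) h (norm_nonneg _) zero_le_one).trans ?_
        rw [one_mul]
      refine (add_le_add h2 h3).trans ?_
      push_cast
      linarith

end

theorem p_DNR (hGJN : Stmt_GJN.{u}) (hEXB : Stmt_EXB.{u}) : Stmt_DNR.{u} := by
  intro Q _ _ U hU n₁ C hC hyp
  obtain ⟨-, -, -, g4, g5, -, g7, -, -⟩ := hGJN Q 1 ⟨one_mul 1, star_one Q⟩
  have hC0 : (0 : ℝ) < C := by exact_mod_cast hC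
  have hC1 : (1 : ℝ) ≤ C := by exact_mod_cast hC
  set L : ℕ := 16 * C with hL
  set K : ℕ := L + 1 with hK
  have hLR : (L : ℝ) = 16 * C := by rw [hL]; push_cast; ring
  have hL0 : (0 : ℝ) < L := by rw [hLR]; positivity
  refine ⟨(L + 1) * K * n₁, fun n g hg hg' => ?_⟩
  set δ : ℝ := 1 / (2 * C) with hδ
  have hδ0 : 0 < δ := by positivity
  obtain ⟨h, hs, hn, hh⟩ := hEXB Q g hg hg' δ hδ0
  set k : ℕ := n + K with hk
  -- one factor
  have one : ∀ x : Q, star x * x = 1 → x * star x = 1 → ‖x - 1‖ ≤ δ →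
      ∃ γ : Q, GpN 1 U (k * n₁) γ ∧ ‖γ - x‖ ≤ (1 / 2 : ℝ) ^ (2 ^ k) := by
    intro x hx hx' hd
    obtain ⟨γ, h1, h2⟩ := hyp k x hx hx'
    refine ⟨γ, h1, ?_⟩
    have h3 : (C : ℝ) * ‖x - 1‖ ≤ 1 / 2 := by
      calc (C : ℝ) * ‖x - 1‖ ≤ C * δ := mul_le_mul_of_nonneg_left hd hC0.le
        _ = 1 / 2 := by rw [hδ]; field_simp
    have h4 : ‖x * star γ - 1‖ ≤ (1 / 2 : ℝ) ^ (2 ^ k) := by
      have h5 : ‖x * star γ - 1‖ ≤ C * ‖x * star γ - 1‖ := by
        nlinarith [norm_nonneg (x * star γ - 1)]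
      refine h5.trans (h2.trans ?_)
      exact pow_le_pow_left₀ (by positivity) h3 _
    have h6 : γ - x = -((x * star γ - 1) * γ) := by
      rw [sub_mul, mul_assoc, h1.src, mul_one, one_mul, neg_sub]
    rw [h6, norm_neg]
    refine (norm_mul_le _ _).trans ?_
    refine (mul_le_mul h4 (DNR_norm h1.src) (norm_nonneg _) (by positivity)).trans ?_
    rw [mul_one]
  -- the exponentials
  set b : Q := (Complex.I / (L : ℂ)) • h with hb
  have hLC : (L : ℂ) ≠ 0 := by exact_mod_cast hL0.ne'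
  have hbs : star b = -b := by
    rw [hb, star_smul, hs.star_eq, ← neg_smul]
    congr 1
    rw [RCLike.star_def, map_div₀, Complex.conj_I, Complex.conj_natCast]
    ring
  obtain ⟨e1, e2⟩ := DNR_uni hbs
  have hbL : NormedSpace.exp (Complex.I • h) = NormedSpace.exp b ^ L := by
    rw [← DNR_pow, hb, smul_smul, mul_div_cancel₀ _ hLC]
  have hbn : ‖b‖ ≤ 1 / (4 * C) := by
    rw [hb, norm_smul, norm_div, Complex.norm_I, Complex.norm_natCast, hLR]
    calc 1 / (16 * (C : ℝ)) * ‖h‖ ≤ 1 / (16 * (C : ℝ)) * 4 :=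
          mul_le_mul_of_nonneg_left hn (by positivity)
      _ = 1 / (4 * C) := by field_simp; norm_num
  have hed : ‖NormedSpace.exp b - 1‖ ≤ δ := by
    refine (DNR_exp b).trans ?_
    have h1 : ‖b‖ ≤ 1 := by
      refine hbn.trans ?_
      rw [div_le_one (by positivity)]
      linarith
    have h2 : |Real.exp ‖b‖ - 1| ≤ 2 * |‖b‖| := Real.abs_exp_sub_one_le (by rwa [abs_norm])
    rw [abs_norm] at h2
    refine (le_abs_self _).trans (h2.trans ?_)
    calc 2 * ‖b‖ ≤ 2 * (1 / (4 * C)) := by linarith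
      _ = δ := by rw [hδ]; field_simp; norm_num
  set e : Q := NormedSpace.exp b with he
  have hEu : star (e ^ L) * e ^ L = 1 ∧ e ^ L * star (e ^ L) = 1 := by
    have hu : e ∈ unitary Q := Unitary.mem_iff.2 ⟨e1, e2⟩
    exact Unitary.mem_iff.1 (pow_mem hu L)
  rw [hbL] at hh
  set g₀ : Q := g * star (e ^ L) with hg₀
  have f1 : star g₀ * g₀ = 1 := by
    rw [hg₀, star_mul, star_star]
    calc e ^ L * star g * (g * star (e ^ L)) = e ^ L * (star g * g) * star (e ^ L) := by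
          noncomm_ring
      _ = 1 := by rw [hg, mul_one, hEu.2]
  have f2 : g₀ * star g₀ = 1 := by
    rw [hg₀, star_mul, star_star]
    calc g * star (e ^ L) * (e ^ L * star g) = g * (star (e ^ L) * e ^ L) * star g := by
          noncomm_ring
      _ = 1 := by rw [hEu.1, mul_one, hg']
  have f3 : ‖g₀ - 1‖ ≤ δ := by
    have h1 : g₀ - 1 = (g - e ^ L) * star (e ^ L) := by
      rw [sub_mul, hEu.2]
    rw [h1]
    refine (norm_mul_le _ _).trans ?_
    have h2 : ‖star (e ^ L)‖ ≤ 1 := by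
      rw [norm_star]
      exact DNR_norm hEu.1
    refine (mul_le_mul hh h2 (norm_nonneg _) hδ0.le).trans ?_
    rw [mul_one]
  have f4 : g₀ * e ^ L = g := by
    rw [hg₀, mul_assoc, hEu.1, mul_one]
  obtain ⟨γ₀, p1, p2⟩ := one g₀ f1 f2 f3
  obtain ⟨γ₁, q1, q2⟩ := one e e1 e2 hed
  have hpow : ∀ j : ℕ, GpN 1 U (j * (k * n₁)) (γ₁ ^ j) := by
    intro j
    induction j with
    | zero =>
      rw [pow_zero]
      exact g4 _ U 1 hU.isHaarIn (by rw [star_one, mul_one]) (by rw [star_one, mul_one])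
        (by rw [mul_one, one_mul])
    | succ j ih =>
      rw [pow_succ]
      have := g5 _ _ U _ _ ih q1
      rwa [← Nat.succ_mul] at this
  set η : ℝ := (1 / 2 : ℝ) ^ (2 ^ k) with hη
  have hη0 : 0 < η := by positivity
  refine ⟨γ₀ * γ₁ ^ L, ?_, ?_⟩
  · have h1 := g5 _ _ U _ _ p1 (hpow L)
    have h2 : k * n₁ + L * (k * n₁) ≤ (L + 1) * K * n₁ * (n + 1) := by
      have h3 : k ≤ K * (n + 1) := by
        rw [hk]
        nlinarith [Nat.zero_le n, Nat.zero_le L]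
      calc k * n₁ + L * (k * n₁) = (L + 1) * n₁ * k := by ring
        _ ≤ (L + 1) * n₁ * (K * (n + 1)) := Nat.mul_le_mul_left _ h3
        _ = (L + 1) * K * n₁ * (n + 1) := by ring
    exact ⟨h1.src, h1.rng, g7 _ _ _ _ h2 h1.jn⟩
  · have h1 : γ₀ * γ₁ ^ L - g = (γ₀ - g₀) * γ₁ ^ L + g₀ * (γ₁ ^ L - e ^ L) := by
      rw [sub_mul, mul_sub, f4]
      abel
    rw [h1]
    have h2 : ‖(γ₀ - g₀) * γ₁ ^ L‖ ≤ η := by
      refine (norm_mul_le _ _).trans ?_
      refine (mul_le_mul p2 (DNR_norm (hpow L).src) (norm_nonneg _) hη0.le).trans ?_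
      rw [mul_one]
    have h3 : ‖g₀ * (γ₁ ^ L - e ^ L)‖ ≤ L * η := by
      refine (norm_mul_le _ _).trans ?_
      refine (mul_le_mul (DNR_norm f1) (DNR_powd (DNR_norm q1.src) (DNR_norm e1) q2 L)
        (norm_nonneg _) zero_le_one).trans ?_
      rw [one_mul]
    refine (norm_add_le _ _).trans ((add_le_add h2 h3).trans ?_)
    -- (L + 1) η ≤ (1/2)^(2^n)
    have h4 : ((L : ℝ) + 1) ≤ 2 ^ (2 ^ k - 2 ^ n) := by
      have h5 : K ≤ 2 ^ k - 2 ^ n := by
        have h6 : 2 ^ k = 2 ^ n * 2 ^ K := by rw [hk, pow_add]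
        have h7 : K + 1 ≤ 2 ^ K := Nat.lt_two_pow_self
        have h8 : 1 ≤ 2 ^ n := Nat.one_le_two_pow
        have h9 : 2 ^ n * (K + 1) ≤ 2 ^ n * 2 ^ K := Nat.mul_le_mul_left _ h7
        have h10 : K ≤ 2 ^ n * K := Nat.le_mul_of_pos_left _ h8
        rw [h6]
        have h11 : 2 ^ n * (K + 1) = 2 ^ n * K + 2 ^ n := by ring
        omega
      have h12 : K ≤ 2 ^ (2 ^ k - 2 ^ n) := h5.trans Nat.lt_two_pow_self.le
      have h13 : ((K : ℕ) : ℝ) ≤ ((2 ^ (2 ^ k - 2 ^ n) : ℕ) : ℝ) := by exact_mod_cast h12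
      rw [hK] at h13
      push_cast at h13
      exact h13
    have h14 : 2 ^ n ≤ 2 ^ k := Nat.pow_le_pow_right (by norm_num) (by omega)
    calc η + L * η = (L + 1) * η := by ring
      _ ≤ 2 ^ (2 ^ k - 2 ^ n) * η := mul_le_mul_of_nonneg_right h4 hη0.le
      _ = (1 / 2 : ℝ) ^ (2 ^ n) := by
        rw [hη]
        have h15 : (1 / 2 : ℝ) ^ (2 ^ k) = (1 / 2) ^ (2 ^ k - 2 ^ n) * (1 / 2) ^ (2 ^ n) := by
          rw [← pow_add, Nat.sub_add_cancel h14]
        rw [h15, ← mul_assoc, ← mul_pow]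
        norm_num

end ND

end SCO
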