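import Pool.Agent.Work.MP_52dd0f_nd.Interface2

/-!
# Block GJN (MP_52dd0f_an, THEOREM ND+): graded chains
-/

set_option autoImplicit false
set_option linter.unusedSectionVars false

namespace SCO

open Filter Topology

universe u

namespace ND

section

variable {P : Type u} [CStarAlgebra P] [TVN P]

theorem GJN_pow {p v x : P} (hv : star v * v = p) (hx : p * x = x) (m : ℕ) :
    (v * x * star v) ^ (m + 1) = v * x ^ (m + 1) * star v := by
  induction m with
  | zero => simp
  | succ m ih =>
    rw [pow_succ, ih, pow_succ x (m + 1)]
    calc v * x ^ (m + 1) * star v * (v * x * star v)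
        = v * x ^ (m + 1) * ((star v * v) * x) * star v := by simp only [mul_assoc]
      _ = v * (x ^ (m + 1) * x) * star v := by rw [hv, hx]; simp only [mul_assoc]

theorem GJN_haar {p q v x : P} (hp : IsProj p) (hv : star v * v = p) (hv' : v * star v = q)
    (hx : IsHaarIn p x) : IsHaarIn q (v * x * star v) := by
  have h1 : p * x = x := hx.mul_left hp
  have h2 : x * p = x := hx.mul_right hp
  have h3 : v * p = v := pi_mul_src hp hv
  have h4 : star v * (v * x) = x := by rw [← mul_assoc, hv, h1]
  have h5 : p * star x = star x := by
    have := congrArg star h2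
    rwa [star_mul, hp.star] at this
  have h6 : star v * (v * star x) = star x := by rw [← mul_assoc, hv, h5]
  refine ⟨?_, ?_, fun m hm => ?_⟩
  · calc star (v * x * star v) * (v * x * star v)
        = v * star x * (star v * (v * x)) * star v := by
          simp only [star_mul, star_star, mul_assoc]
      _ = v * (star x * x) * star v := by rw [h4]; simp only [mul_assoc]
      _ = q := by rw [hx.src, h3, hv']
  · calc v * x * star v * star (v * x * star v)
        = v * x * (star v * (v * star x)) * star v := by
          simp only [star_mul, star_star, mul_assoc]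
      _ = v * (x * star x) * star v := by rw [h6]; simp only [mul_assoc]
      _ = q := by rw [hx.rng, h3, hv']
  · obtain ⟨m, rfl⟩ : ∃ k, m = k + 1 := ⟨m - 1, by omega⟩
    have h7 : p * x ^ (m + 1) = x ^ (m + 1) := by
      rw [pow_succ', ← mul_assoc, h1]
    rw [GJN_pow hv h1, tr_comm, ← mul_assoc, hv, h7, hx.tr _ hm]

theorem GJN_conj {p q v x y : P} {n : ℕ} (hp : IsProj p) (hv : star v * v = p)
    (hv' : v * star v = q) (h : JnN p n x y) :
    JnN q n (v * x * star v) (v * y * star v) := by
  obtain ⟨w, h0, hn, hH, hc⟩ := h
  refine ⟨fun i => v * w i * star v, ?_, ?_, ?_, ?_⟩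
  · simp only [h0]
  · simp only [hn]
  · intro i
    exact GJN_haar hp hv hv' (hH i)
  · intro i
    have h1 : p * w i = w i := (hH i).mul_left hp
    have h2 : p * w (i + 1) = w (i + 1) := (hH (i + 1)).mul_left hp
    calc v * w i * star v * (v * w (i + 1) * star v)
        = v * w i * ((star v * v) * w (i + 1)) * star v := by simp only [mul_assoc]
      _ = v * (w i * w (i + 1)) * star v := by rw [hv, h2]; simp only [mul_assoc]
      _ = v * (w (i + 1) * w i) * star v := by rw [hc i]
      _ = v * w (i + 1) * ((star v * v) * w i) * star v := by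
          rw [hv, h1]; simp only [mul_assoc]
      _ = v * w (i + 1) * star v * (v * w i * star v) := by simp only [mul_assoc]

theorem GJN_symm {p x y : P} {n : ℕ} (h : JnN p n x y) : JnN p n y x := by
  obtain ⟨w, h0, hn, hH, hc⟩ := h
  refine ⟨fun i => w (n - i), ?_, ?_, fun i => hH _, ?_⟩
  · simpa using hn
  · simpa using h0
  · intro i
    by_cases hi : i < n
    · have e : n - i = (n - (i + 1)) + 1 := by omega
      show w (n - i) * w (n - (i + 1)) = w (n - (i + 1)) * w (n - i)
      rw [e]
      exact (hc (n - (i + 1))).symm
    · have e : n - i = n - (i + 1) := by omega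
      show w (n - i) * w (n - (i + 1)) = w (n - (i + 1)) * w (n - i)
      rw [e]

theorem GJN_trans {p x y z : P} {n m : ℕ} (h : JnN p n x y) (h' : JnN p m y z) :
    JnN p (n + m) x z := by
  obtain ⟨w, h0, hn, hH, hc⟩ := h
  obtain ⟨w', h0', hn', hH', hc'⟩ := h'
  refine ⟨fun i => if i < n then w i else w' (i - n), ?_, ?_, ?_, ?_⟩
  · by_cases h : 0 < n
    · simp only [h, if_true, h0]
    · have hn0 : n = 0 := by omega
      subst hn0
      show (if 0 < 0 then w 0 else w' (0 - 0)) = x
      rw [if_neg (lt_irrefl 0), Nat.sub_zero, h0', ← hn, h0]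
  · show (if n + m < n then w (n + m) else w' (n + m - n)) = z
    rw [if_neg (by omega), Nat.add_sub_cancel_left, hn']
  · intro i
    by_cases h : i < n
    · simp only [h, if_true]
      exact hH i
    · simp only [h, if_false]
      exact hH' _
  · intro i
    show (if i < n then w i else w' (i - n)) * (if i + 1 < n then w (i + 1) else w' (i + 1 - n)) =
      (if i + 1 < n then w (i + 1) else w' (i + 1 - n)) * (if i < n then w i else w' (i - n))
    by_cases h1 : i + 1 < n
    · rw [if_pos h1, if_pos (by omega : i < n)]
      exact hc i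
    · rw [if_neg h1]
      by_cases h2 : i < n
      · have e : i + 1 = n := by omega
        rw [if_pos h2, e, Nat.sub_self, h0', ← hn, ← e]
        exact hc i
      · rw [if_neg h2, show i + 1 - n = (i - n) + 1 by omega]
        exact hc' (i - n)

theorem GJN_const {p u : P} (n : ℕ) (hu : IsHaarIn p u) : JnN p n u u :=
  ⟨fun _ => u, rfl, rfl, fun _ => hu, fun _ => rfl⟩

theorem GJN_unconj {p g u : P} (h : star g * g = p) (hu : p * u = u)
    (hu' : u * p = u) : star g * (g * u * star g) * star (star g) = u := by
  rw [star_star]
  calc star g * (g * u * star g) * g = (star g * g) * u * (star g * g) := by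
        simp only [mul_assoc]
    _ = u := by rw [h, hu, hu']

/-- the first element of a chain is a Haar unitary -/
theorem GJN_fst {p x y : P} {n : ℕ} (h : JnN p n x y) : IsHaarIn p x := by
  obtain ⟨w, h0, _, hH, _⟩ := h
  rw [← h0]
  exact hH 0

end

theorem p_GJN : Stmt_GJN.{u} := by
  intro P _ _ p hp
  refine ⟨fun n x y h => GJN_symm h, fun n m x y z h h' => GJN_trans h h',
    fun n x y v q hv hv' h => GJN_conj hp hv hv' h, ?_, ?_, ?_, ?_, ?_, ?_⟩
  · intro n u x hu hx hx' hc
    refine ⟨hx, hx', ?_⟩
    have h1 : x * u * star x = u := by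
      rw [hc, mul_assoc, hx', hu.mul_right hp]
    rw [h1]
    exact GJN_const n hu
  · intro n m u g h hg hh
    have h1 : p * h = h := pi_mul_rng hp hh.src hh.rng
    have h2 : g * p = g := pi_mul_src hp hg.src
    refine ⟨?_, ?_, ?_⟩
    · calc star (g * h) * (g * h) = star h * ((star g * g) * h) := by
            simp only [star_mul, mul_assoc]
        _ = p := by rw [hg.src, h1, hh.src]
    · calc g * h * star (g * h) = g * (h * star h) * star g := by
            simp only [star_mul, mul_assoc]
        _ = p := by rw [hh.rng, h2, hg.rng]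
    · have h3 : JnN p m (g * u * star g) (g * (h * u * star h) * star g) :=
        GJN_conj hp hg.src hg.rng hh.jn
      have h4 : g * (h * u * star h) * star g = g * h * u * star (g * h) := by
        simp only [star_mul, mul_assoc]
      rw [h4] at h3
      exact GJN_trans hg.jn h3
  · intro n u g hg
    have hu : IsHaarIn p u := GJN_fst hg.jn
    have s1 : star (star g) * star g = p := by rw [star_star]; exact hg.rng
    have s2 : star g * star (star g) = p := by rw [star_star]; exact hg.src
    refine ⟨s1, s2, ?_⟩
    have h3 := GJN_conj hp s1 s2 (GJN_symm hg.jn)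
    rwa [GJN_unconj hg.src (hu.mul_left hp) (hu.mul_right hp)] at h3
  · rintro n m x y hnm ⟨w, h0, hn, hH, hc⟩
    refine ⟨fun i => w (min i n), ?_, ?_, fun i => hH _, ?_⟩
    · show w (min 0 n) = x
      rw [Nat.zero_min, h0]
    · show w (min m n) = y
      rw [min_eq_right hnm, hn]
    · intro i
      show w (min i n) * w (min (i + 1) n) = w (min (i + 1) n) * w (min i n)
      by_cases hi : i < n
      · rw [min_eq_left hi.le, min_eq_left (by omega : i + 1 ≤ n)]
        exact hc i
      · rw [min_eq_right (by omega : n ≤ i), min_eq_right (by omega : n ≤ i + 1)]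
  · intro x y hx h
    unfold Jn at h
    induction h with
    | refl => exact ⟨0, GJN_const 0 hx⟩
    | tail _ hbc ih =>
      obtain ⟨n, hn⟩ := ih
      refine ⟨n + 1, GJN_trans hn ?_⟩
      rename_i b c _
      refine ⟨fun i => if i = 0 then b else c, ?_, ?_, ?_, ?_⟩
      · simp
      · simp
      · intro i
        by_cases hi : i = 0
        · simp only [hi, if_true]; exact hbc.1
        · simp only [hi, if_false]; exact hbc.2.1
      · intro i
        by_cases hi : i = 0
        · subst hi
          simp only [if_true, Nat.zero_add, one_ne_zero, if_false]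
          exact hbc.2.2
        · simp only [hi, if_false, Nat.succ_ne_zero]
  · rintro n x y ⟨w, h0, hn, hH, hc⟩
    have key : ∀ k, Jn p (w 0) (w k) := by
      intro k
      induction k with
      | zero => exact Relation.ReflTransGen.refl
      | succ k ih => exact Relation.ReflTransGen.tail ih ⟨hH k, hH (k + 1), hc k⟩
    rw [← h0, ← hn]
    exact key n

end ND

end SCO
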