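import Pool.Agent.Work.MP_52dd0f_nd.Interface2

set_option autoImplicit false
set_option linter.unusedSectionVars false

namespace SCO

open Filter Topology

universe u

namespace ND

section

variable {P : Type u} [CStarAlgebra P]

theorem GSP_exp_conj {g a : P} (h1 : star g * g = 1) (h2 : g * star g = 1) :
    NormedSpace.exp (g * a * star g) = g * NormedSpace.exp a * star g := by
  let _ : NormedAlgebra ℚ P := NormedAlgebra.restrictScalars ℚ ℂ P
  exact NormedSpace.exp_units_conj (⟨g, star g, h2, h1⟩ : Pˣ) a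

theorem GSP_exp_uni {k : P} (hk : IsSelfAdjoint k) (t : ℝ) :
    star (NormedSpace.exp (((t : ℂ) * Complex.I) • k)) *
        NormedSpace.exp (((t : ℂ) * Complex.I) • k) = 1 ∧
      NormedSpace.exp (((t : ℂ) * Complex.I) • k) *
        star (NormedSpace.exp (((t : ℂ) * Complex.I) • k)) = 1 := by
  let _ : NormedAlgebra ℚ P := NormedAlgebra.restrictScalars ℚ ℂ P
  have h1 : ((t : ℂ) * Complex.I) • k ∈ skewAdjoint P := by
    rw [skewAdjoint.mem_iff, star_smul, hk.star_eq]
    have : star ((t : ℂ) * Complex.I) = -((t : ℂ) * Complex.I) := by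
      change (starRingEnd ℂ) ((t : ℂ) * Complex.I) = _
      rw [map_mul, Complex.conj_ofReal, Complex.conj_I]; ring
    rw [this, neg_smul]
  have h2 := NormedSpace.exp_mem_unitary_of_mem_skewAdjoint h1
  exact ⟨(Unitary.mem_iff.1 h2).1, (Unitary.mem_iff.1 h2).2⟩

theorem GSP_exp_comm {k U : P} (h : k * U = U * k) (z : ℂ) :
    NormedSpace.exp (z • k) * U = U * NormedSpace.exp (z • k) := by
  let _ : NormedAlgebra ℚ P := NormedAlgebra.restrictScalars ℚ ℂ P
  have h1 : Commute (z • k) U := by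
    show (z • k) * U = U * (z • k)
    rw [smul_mul_assoc, mul_smul_comm, h]
  exact h1.exp_left

end

section

variable {P : Type u} [CStarAlgebra P] [TVN P]

theorem GSP_mono (hG : Stmt_GJN.{u}) {U : P} {n n' : ℕ} (hn : n ≤ n') {h : P} (hh : Gd U n h) :
    Gd U n' h := by
  obtain ⟨-, -, -, -, -, -, g7, -, -⟩ := hG P 1 IsProj.one
  exact ⟨hh.1, fun t => ⟨(hh.2 t).src, (hh.2 t).rng, g7 _ _ _ _ hn (hh.2 t).jn⟩⟩

theorem GSP_cent (hG : Stmt_GJN.{u}) {U : P} (hU : HaarU U) (n : ℕ) {h : P}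
    (hh : IsSelfAdjoint h) (hc : h * U = U * h) : Gd U n h := by
  obtain ⟨-, -, -, g4, -, -, -, -, -⟩ := hG P 1 IsProj.one
  refine ⟨hh, fun t => ?_⟩
  exact g4 n U _ hU.isHaarIn (GSP_exp_uni hh t).1 (GSP_exp_uni hh t).2 (GSP_exp_comm hc _)

/-- pad with zero -/
theorem GSP_pad (hG : Stmt_GJN.{u}) {U : P} (hU : HaarU U) {m m' : ℕ} (hm : m ≤ m')
    (f : Fin m → P) (hf : ∀ j, Gd U m' (f j) ∧ ‖f j‖ ≤ m') : Gs U m' (∑ j, f j) := by
  obtain ⟨k, rfl⟩ := Nat.exists_eq_add_of_le hm
  have h0 : Gd U (m + k) (0 : P) :=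
    GSP_cent hG hU _ (by rw [IsSelfAdjoint, star_zero]) (by rw [zero_mul, mul_zero])
  refine ⟨Fin.append f (fun _ : Fin k => (0 : P)), fun j => ?_, ?_⟩
  · refine Fin.addCases (fun i => ?_) (fun i => ?_) j
    · rw [Fin.append_left]; exact hf i
    · rw [Fin.append_right]
      refine ⟨h0, ?_⟩
      rw [norm_zero]; positivity
  · rw [Fin.sum_univ_add]
    simp only [Fin.append_left, Fin.append_right, Finset.sum_const_zero, add_zero]

end

theorem p_GSP (hG : Stmt_GJN.{u}) : Stmt_GSP.{u} := by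
  intro P _ _ U hU
  obtain ⟨-, -, -, -, g5, g6, -, -, -⟩ := hG P 1 IsProj.one
  refine ⟨fun m => ?_, fun m m' h hm hh => ?_, fun m m' h h' hh hh' => ?_,
    fun m T t h ht hh => ?_, fun m k h D hD hh => ?_, fun h hh hc hn => ?_⟩
  · have := GSP_pad hG hU (Nat.zero_le m) (fun _ : Fin 0 => (0 : P)) (fun j => j.elim0)
    simpa using this
  · obtain ⟨f, hf, rfl⟩ := hh
    refine GSP_pad hG hU hm f fun j => ⟨GSP_mono hG hm (hf j).1, (hf j).2.trans ?_⟩
    exact_mod_cast hm
  · obtain ⟨f, hf, rfl⟩ := hh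
    obtain ⟨f', hf', rfl⟩ := hh'
    refine ⟨Fin.append f f', fun j => ?_, ?_⟩
    · refine Fin.addCases (fun i => ?_) (fun i => ?_) j
      · rw [Fin.append_left]
        refine ⟨GSP_mono hG (Nat.le_add_right _ _) (hf i).1, (hf i).2.trans ?_⟩
        push_cast
        have : (0 : ℝ) ≤ m' := by positivity
        linarith
      · rw [Fin.append_right]
        refine ⟨GSP_mono hG (Nat.le_add_left _ _) (hf' i).1, (hf' i).2.trans ?_⟩
        push_cast
        have : (0 : ℝ) ≤ m := by positivity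
        linarith
    · rw [Fin.sum_univ_add]
      simp only [Fin.append_left, Fin.append_right]
  · obtain ⟨f, hf, rfl⟩ := hh
    have hm : m ≤ m * (T + 1) := Nat.le_mul_of_pos_right m (Nat.succ_pos T)
    rw [Finset.smul_sum]
    refine GSP_pad hG hU hm (fun j => (t : ℂ) • f j) fun j => ⟨GSP_mono hG hm ?_, ?_⟩
    · refine ⟨?_, fun s => ?_⟩
      · rw [IsSelfAdjoint, star_smul, (hf j).1.1.star_eq]
        congr 1
        exact Complex.conj_ofReal _
      · have h1 := (hf j).1.2 (s * t)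
        have h2 : ((s : ℂ) * Complex.I) • (t : ℂ) • f j =
            (((s * t : ℝ) : ℂ) * Complex.I) • f j := by
          rw [smul_smul]; congr 1; push_cast; ring
        rw [h2]; exact h1
    · rw [norm_smul, Complex.norm_real, Real.norm_eq_abs]
      push_cast
      have h1 := (hf j).2
      have h2 : |t| * ‖f j‖ ≤ T * m :=
        mul_le_mul ht h1 (norm_nonneg _) (by positivity)
      have h3 : (0 : ℝ) ≤ m := by positivity
      nlinarith
  · obtain ⟨f, hf, rfl⟩ := hh
    have hm : m ≤ m + 2 * k := Nat.le_add_right _ _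
    rw [Finset.mul_sum, Finset.sum_mul]
    refine GSP_pad hG hU hm (fun j => D * f j * star D) fun j => ⟨⟨?_, fun t => ?_⟩, ?_⟩
    · rw [IsSelfAdjoint, star_mul, star_mul, star_star, (hf j).1.1.star_eq, mul_assoc]
    · have h1 : ((t : ℂ) * Complex.I) • (D * f j * star D) =
          D * (((t : ℂ) * Complex.I) • f j) * star D := by
        rw [mul_smul_comm, smul_mul_assoc]
      rw [h1, GSP_exp_conj hD.src hD.rng]
      have h2 := g5 _ _ U _ _ (g5 _ _ U _ _ hD ((hf j).1.2 t)) (g6 _ U _ hD)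
      have h3 : k + m + k = m + 2 * k := by ring
      rw [h3] at h2
      exact h2
    · have hDn : ‖D‖ ≤ 1 := norm_le_one_of_star_mul hD.src
      have h1 := (hf j).2
      calc ‖D * f j * star D‖ ≤ ‖D‖ * ‖f j‖ * ‖star D‖ :=
            (norm_mul_le _ _).trans (mul_le_mul_of_nonneg_right (norm_mul_le _ _) (norm_nonneg _))
        _ ≤ 1 * ‖f j‖ * 1 := by
            rw [norm_star]
            exact mul_le_mul (mul_le_mul_of_nonneg_right hDn (norm_nonneg _)) hDn (norm_nonneg _)
              (by positivity)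
        _ ≤ ((m + 2 * k : ℕ) : ℝ) := by
            rw [one_mul, mul_one]
            push_cast
            have : (0 : ℝ) ≤ k := by positivity
            linarith
  · have := GSP_pad hG hU (le_refl 1) (fun _ : Fin 1 => h)
      (fun _ => ⟨GSP_cent hG hU 1 hh hc, by simpa using hn⟩)
    simpa using this

end ND

end SCO
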