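import Pool.Agent.Work.MP_52dd0f_nd.Interface2

/-! # THEOREM ND+, block GYS: `y - s y s*` is a bounded sum of good directions -/

set_option autoImplicit false
set_option linter.unusedSectionVars false

namespace SCO

open Filter Topology

universe u

namespace ND

theorem GYS_sum {P : Type u} [CStarAlgebra P] [TVN P] {U : P}
    (h0 : ∀ m, Gs U m 0) (h3 : ∀ m m' h h', Gs U m h → Gs U m' h' → Gs U (m + m') (h + h'))
    (K : ℕ) : ∀ (n : ℕ) (h : Fin n → P), (∀ j, Gs U K (h j)) → Gs U (n * K) (∑ j, h j) := by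
  intro n
  induction n with
  | zero =>
    intro h _
    rw [Finset.univ_eq_empty, Finset.sum_empty]
    exact h0 _
  | succ n ih =>
    intro h hh
    rw [Fin.sum_univ_succ, show (n + 1) * K = K + n * K by ring]
    exact h3 K (n * K) _ _ (hh 0) (ih (fun j => h j.succ) (fun j => hh _))

theorem GYS_conj {P : Type u} [CStarAlgebra P] {e f g x y : P} (hef : e * f = 0) (hfe : f * e = 0)
    (hge : g * e = g) (hse : e * star g = star g) (hx : e * x = x) (hx' : x * e = x)
    (hy : f * y = y) (hy' : y * f = y) :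
    (g + f) * (x + y) * (star g + f) = g * x * star g + y := by
  have h1 : g * y = 0 := by rw [← hge, ← hy, mul_assoc, ← mul_assoc e, hef, zero_mul, mul_zero]
  have h2 : f * x = 0 := by rw [← hx, ← mul_assoc, hfe, zero_mul]
  have h3 : x * f = 0 := by rw [← hx', mul_assoc, hef, mul_zero]
  have h4 : y * star g = 0 := by rw [← hy', ← hse, mul_assoc, ← mul_assoc f, hfe, zero_mul, mul_zero]
  have h5 : (g + f) * (x + y) = g * x + y := by
    rw [add_mul, mul_add, h1, add_zero, mul_add, h2, hy, zero_add]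
  rw [h5, add_mul, mul_add, mul_assoc g x f, h3, mul_zero, add_zero, mul_add, h4, hy', zero_add]

theorem p_GYS (hGJN : Stmt_GJN.{u}) (hGJD : Stmt_GJD.{u}) (hGSP : Stmt_GSP.{u}) :
    Stmt_GYS.{u} := by
  intro Q _ _ c hc u hu m m₁ H1 H2 HU
  obtain ⟨G0, Gmono, Gadd, Gsm, Gcj, -⟩ := hGSP Q _ HU
  have he : IsProj (c 0 0) := ⟨by rw [hc.mul, if_pos rfl], hc.star 0 0⟩
  have hf : IsProj (c 1 1) := ⟨by rw [hc.mul, if_pos rfl], hc.star 1 1⟩
  have r_ef : c 0 0 * c 1 1 = 0 := by rw [hc.mul, if_neg (by decide)]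
  have r_fe : c 1 1 * c 0 0 = 0 := by rw [hc.mul, if_neg (by decide)]
  have r_fa : c 1 1 * c 1 0 = c 1 0 := by rw [hc.mul, if_pos rfl]
  have r_bf : c 0 1 * c 1 1 = c 0 1 := by rw [hc.mul, if_pos rfl]
  have r_one : c 0 0 + c 1 1 = 1 := by
    have := hc.sum
    rwa [Fin.sum_univ_two] at this
  have hue := hu.mul_left he
  have hue' := hu.mul_right he
  have hU : am (n := 1) c u = u + c 1 0 * u * c 0 1 := by
    show ∑ i : Fin 2, c i 0 * u * c 0 i = _
    rw [Fin.sum_univ_two, hue, hue']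
  have hcorner : ∀ v : Q, c 1 1 * (c 1 0 * v * c 0 1) = c 1 0 * v * c 0 1 ∧
      (c 1 0 * v * c 0 1) * c 1 1 = c 1 0 * v * c 0 1 := fun v => by
    constructor
    · rw [← mul_assoc, ← mul_assoc, r_fa]
    · rw [mul_assoc, r_bf]
  have hv' : IsHaarIn (c 1 1) (c 1 0 * u * c 0 1) := by
    obtain ⟨-, -, J3, -⟩ := hGJN Q (c 0 0) he
    have h1 : JnN (c 0 0) 0 u u := ⟨fun _ => u, rfl, rfl, fun _ => hu, fun _ => rfl⟩
    have h2 := J3 0 u u (c 1 0) (c 1 1) (by rw [hc.star, hc.mul, if_pos rfl])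
      (by rw [hc.star, hc.mul, if_pos rfl]) h1
    rw [hc.star] at h2
    obtain ⟨w, hw0, -, hw, -⟩ := h2
    have h3 := hw 0
    rwa [hw0] at h3
  have hg : ∀ g : Q, GpN (c 0 0) u m g → c 0 0 * g = g ∧ g * c 0 0 = g ∧
      c 0 0 * star g = star g ∧ star g * c 0 0 = star g := by
    intro g h
    have h1 := pi_mul_rng he h.src h.rng
    have h2 := pi_mul_src he h.src
    refine ⟨h1, h2, ?_, ?_⟩
    · have h3 := congrArg star h2
      rwa [star_mul, he.star] at h3
    · have h3 := congrArg star h1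
      rwa [star_mul, he.star] at h3
  have hD : ∀ g : Q, GpN (c 0 0) u m g → GpN 1 (am (n := 1) c u) m (g + c 1 1) := by
    intro g h
    obtain ⟨g1, g2, g3, g4⟩ := hg g h
    have z1 : star g * c 1 1 = 0 := by rw [← g4, mul_assoc, r_ef, mul_zero]
    have z2 : c 1 1 * g = 0 := by rw [← g1, ← mul_assoc, r_fe, zero_mul]
    have z3 : g * c 1 1 = 0 := by rw [← g2, mul_assoc, r_ef, mul_zero]
    have z4 : c 1 1 * star g = 0 := by rw [← g3, ← mul_assoc, r_fe, zero_mul]
    refine ⟨?_, ?_, ?_⟩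
    · rw [star_add, hf.star, add_mul, mul_add, mul_add, h.src, z1, z2, hf.mul, add_zero, zero_add,
        r_one]
    · rw [star_add, hf.star, add_mul, mul_add, mul_add, h.rng, z3, z4, hf.mul, add_zero, zero_add,
        r_one]
    · have h1 := hGJD Q (c 0 0) (c 1 1) u (g * u * star g) (c 1 0 * u * c 0 1) m he hf r_ef hv' h.jn
      rw [r_one] at h1
      rw [hU, star_add, hf.star, GYS_conj r_ef r_fe g2 g3 hue hue' (hcorner u).1 (hcorner u).2]
      exact h1
  refine ⟨m * (m₁ * (m + 1) + (m₁ * (m + 1) + 2 * m) * (1 + 1)), ?_⟩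
  intro y s hy hey hye hy1 hs1 hs2
  have hes : c 0 0 * s = s := pi_mul_rng he hs1 hs2
  have hse : s * c 0 0 = s := pi_mul_src he hs1
  have hsn : ‖s‖ ≤ 1 := by
    have h1 := he.norm_le
    rw [← hs1, CStarRing.norm_star_mul_self] at h1
    nlinarith [norm_nonneg s]
  have hse' : star s * c 0 0 = star s := by
    have h3 := congrArg star hes
    rwa [star_mul, he.star] at h3
  obtain ⟨z, g, hzg, hsum⟩ := H1 s hes hse hsn
  have hw : ∀ j, ‖g j‖ ≤ 1 := fun j => by
    have h1 := he.norm_le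
    rw [← (hzg j).2.src, CStarRing.norm_star_mul_self] at h1
    nlinarith [norm_nonneg (g j)]
  obtain ⟨w, hwd⟩ : ∃ w : Fin m → Q, ∀ j, w j = z j • (y * star s * g j) := ⟨_, fun _ => rfl⟩
  have s1 : ∑ j, w j = y := by
    simp only [hwd]
    rw [← hye]
    nth_rewrite 2 [← hs1]
    rw [← mul_assoc]
    nth_rewrite 3 [hsum]
    rw [Finset.mul_sum]
    refine Finset.sum_congr rfl fun j _ => ?_
    rw [mul_smul_comm, hye]
  have s2 : ∑ j, g j * w j * star (g j) = s * y * star s := by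
    simp only [hwd]
    nth_rewrite 2 [hsum]
    rw [Finset.sum_mul, Finset.sum_mul]
    refine Finset.sum_congr rfl fun j _ => ?_
    rw [mul_smul_comm, smul_mul_assoc, smul_mul_assoc, smul_mul_assoc]
    congr 1
    calc g j * (y * star s * g j) * star (g j) = g j * y * star s * (g j * star (g j)) := by
          noncomm_ring
      _ = g j * y * (star s * c 0 0) := by rw [(hzg j).2.rng]; noncomm_ring
      _ = g j * y * star s := by rw [hse']
  have hys : star y = y := hy
  have s3 : ∑ j, star (w j) = y := by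
    rw [← star_sum, s1, hys]
  have s4 : ∑ j, g j * star (w j) * star (g j) = s * y * star s := by
    have h1 := congrArg star s2
    rw [star_sum, star_mul, star_mul, star_star, hys] at h1
    rw [mul_assoc, ← h1]
    refine Finset.sum_congr rfl fun j _ => ?_
    rw [star_mul, star_mul, star_star, mul_assoc]
  obtain ⟨a, had⟩ : ∃ a : Fin m → Q, ∀ j, a j = (1 / 2 : ℂ) • (w j + star (w j)) :=
    ⟨_, fun _ => rfl⟩
  have s5 : ∑ j, a j = y := by
    simp only [had]
    rw [← Finset.smul_sum, Finset.sum_add_distrib, s1, s3, ← two_smul ℂ, smul_smul]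
    norm_num
  have s6 : ∑ j, g j * a j * star (g j) = s * y * star s := by
    have h1 : ∀ j, g j * a j * star (g j) = (1 / 2 : ℂ) • (g j * w j * star (g j) +
        g j * star (w j) * star (g j)) := fun j => by
      rw [had, mul_smul_comm, smul_mul_assoc, mul_add, add_mul]
    simp only [h1]
    rw [← Finset.smul_sum, Finset.sum_add_distrib, s2, s4, ← two_smul ℂ, smul_smul]
    norm_num
  have hkey : y - s * y * star s = ∑ j, (a j - g j * a j * star (g j)) := by
    rw [Finset.sum_sub_distrib, s5, s6]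
  rw [hkey]
  refine GYS_sum G0 Gadd _ m _ fun j => ?_
  have hmpos : 0 < m := lt_of_le_of_lt (Nat.zero_le _) j.isLt
  have hm0 : (0 : ℝ) < m := by exact_mod_cast hmpos
  have w1 : c 0 0 * w j = w j := by
    rw [hwd, mul_smul_comm, ← mul_assoc, ← mul_assoc, hey]
  have w2 : w j * c 0 0 = w j := by
    rw [hwd, smul_mul_assoc, mul_assoc, (hg _ (hzg j).2).2.1]
  have w3 : c 0 0 * star (w j) = star (w j) := by
    have h3 := congrArg star w2
    rwa [star_mul, he.star] at h3
  have w4 : star (w j) * c 0 0 = star (w j) := by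
    have h3 := congrArg star w1
    rwa [star_mul, he.star] at h3
  have a1 : c 0 0 * a j = a j := by rw [had, mul_smul_comm, mul_add, w1, w3]
  have a2 : a j * c 0 0 = a j := by rw [had, smul_mul_assoc, add_mul, w2, w4]
  have a3 : IsSelfAdjoint (a j) := by
    show star (a j) = a j
    rw [had, star_smul, star_add, star_star, add_comm]
    congr 1
    simp
  have hwn : ‖w j‖ ≤ m := by
    rw [hwd, norm_smul]
    have h1 : ‖y * star s * g j‖ ≤ 1 := by
      calc ‖y * star s * g j‖ ≤ ‖y‖ * ‖star s‖ * ‖g j‖ :=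
            (norm_mul_le _ _).trans (mul_le_mul_of_nonneg_right (norm_mul_le _ _) (norm_nonneg _))
        _ ≤ 1 * 1 * 1 := by
            rw [norm_star]
            have := hw j
            gcongr
        _ = 1 := by norm_num
    calc ‖z j‖ * ‖y * star s * g j‖ ≤ m * 1 :=
          mul_le_mul (hzg j).1 h1 (norm_nonneg _) hm0.le
      _ = m := mul_one _
  have a4 : ‖a j‖ ≤ m := by
    rw [had, norm_smul]
    have h1 : ‖w j + star (w j)‖ ≤ 2 * m := by
      refine (norm_add_le _ _).trans ?_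
      rw [norm_star]
      linarith
    have h2 : ‖(1 / 2 : ℂ)‖ = 1 / 2 := by
      norm_num
    rw [h2]
    linarith
  -- the direction `dm (a j)`
  have b1 : Gs (am (n := 1) c u) (m₁ * (m + 1)) (a j - c 1 0 * a j * c 0 1) := by
    have hv : ((((m : ℝ)⁻¹ : ℝ) : ℂ) • a j) - c 1 0 * ((((m : ℝ)⁻¹ : ℝ) : ℂ) • a j) * c 0 1 =
        (((m : ℝ)⁻¹ : ℝ) : ℂ) • (a j - c 1 0 * a j * c 0 1) := by
      rw [mul_smul_comm, smul_mul_assoc, ← smul_sub]
    have h1 := H2 ((((m : ℝ)⁻¹ : ℝ) : ℂ) • a j) ?_ ?_ ?_ ?_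
    · rw [hv] at h1
      have h2 := Gsm m₁ m (m : ℝ) _ (by rw [abs_of_nonneg hm0.le]) h1
      rw [smul_smul, ← Complex.ofReal_mul, mul_inv_cancel₀ hm0.ne', Complex.ofReal_one,
        one_smul] at h2
      exact h2
    · show star _ = _
      rw [star_smul, a3.star_eq]
      congr 1
      exact Complex.conj_ofReal _
    · rw [mul_smul_comm, a1]
    · rw [smul_mul_assoc, a2]
    · rw [norm_smul, Complex.norm_real, norm_inv, Real.norm_of_nonneg hm0.le, inv_mul_le_iff₀ hm0,
        mul_one]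
      exact a4
  have b2 := Gcj _ m _ _ (hD _ (hzg j).2) b1
  have b3 : (g j + c 1 1) * (a j - c 1 0 * a j * c 0 1) * star (g j + c 1 1) =
      g j * a j * star (g j) + -(c 1 0 * a j * c 0 1) := by
    obtain ⟨g1, g2, g3, g4⟩ := hg _ (hzg j).2
    rw [sub_eq_add_neg, star_add, hf.star]
    exact GYS_conj r_ef r_fe g2 g3 a1 a2 (by rw [mul_neg, (hcorner _).1])
      (by rw [neg_mul, (hcorner _).2])
  rw [b3] at b2
  have b4 := Gsm _ 1 (-1 : ℝ) _ (by norm_num) b2
  have b5 := Gadd _ _ _ _ b1 b4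
  have b6 : a j - c 1 0 * a j * c 0 1 + (((-1 : ℝ) : ℝ) : ℂ) • (g j * a j * star (g j) +
      -(c 1 0 * a j * c 0 1)) = a j - g j * a j * star (g j) := by
    rw [Complex.ofReal_neg, Complex.ofReal_one, neg_smul, one_smul]
    abel
  rw [b6] at b5
  exact b5

end ND

end SCO
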