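import Pool.Agent.Work.MP_52dd0f_nd.Interface2

/-!
# THEOREM ND+, block LFR: from the ultrapower to sequences, with the length (typed by helper10)
-/

set_option autoImplicit false
set_option linter.unusedSectionVars false

namespace SCO

namespace ND

open Filter Topology

universe u

theorem p_LFR : Stmt_LFR.{u} := by
  intro M _ _ 𝒰 _ u v ε L hL hu hv H
  have hu1 : HaarU (toUP 𝒰 (mkSq u hu.bounded)) := (haarU_toUP_iff 𝒰 _).2 hu
  have hv1 : HaarU (toUP 𝒰 (mkSq v hv.bounded)) := (haarU_toUP_iff 𝒰 _).2 hv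
  obtain ⟨w', ⟨z, hz0, hzL, hzH, hzc⟩, hw⟩ := H _ _ hu1 hv1
  obtain ⟨D, hD1, hD2⟩ := exists_lift_UP 𝒰 (w' - toUP 𝒰 (mkSq v hv.bounded))
  have hD3 : toUP 𝒰 (mkSq v hv.bounded + D) = w' := by
    rw [map_add, hD2]
    abel
  choose y hy using fun i => toUP_surjective 𝒰 (z i)
  set x : ℕ → Sq M := fun i => if i = 0 then mkSq u hu.bounded else
    if i = L then mkSq v hv.bounded + D else y i with hxdef
  have hx0 : x 0 = mkSq u hu.bounded := if_pos rfl
  have hxL : x L = mkSq v hv.bounded + D := by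
    rw [hxdef]
    beta_reduce
    rw [if_neg (by omega), if_pos rfl]
  have hx : ∀ i, toUP 𝒰 (x i) = z i := by
    intro i
    by_cases h0 : i = 0
    · rw [h0, hx0, hz0]
    · by_cases hiL : i = L
      · rw [hiL, hxL, hD3, hzL]
      · rw [hxdef]
        beta_reduce
        rw [if_neg h0, if_neg hiL]
        exact hy i
  refine ⟨fun i => (x i).ev, ?_, ?_, ?_⟩
  · change (x 0).ev = u
    rw [hx0]
    rfl
  · intro k
    change ‖(x L).ev k - v k‖ ≤ ε
    rw [hxL]
    have h1 : (mkSq v hv.bounded + D).ev k - v k = D.ev k := by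
      change v k + D.ev k - v k = D.ev k
      abel
    rw [h1]
    exact (D.norm_ev_le k).trans (hD1.trans hw)
  · intro i _
    refine ⟨(haarU_toUP_iff 𝒰 (x i)).1 (by rw [hx]; exact (hzH i).haarU),
      (haarU_toUP_iff 𝒰 (x (i + 1))).1 (by rw [hx]; exact (hzH (i + 1)).haarU), ?_⟩
    exact (commute_toUP_iff 𝒰 (x i) (x (i + 1))).1 (by rw [hx, hx]; exact hzc i)

end ND

end SCO
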