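import Pool.Agent.Work.MP_52dd0f_nd.Interface2

/-!
# Block NIT (MP_52dd0f_an, THEOREM ND+): the Newton iteration
-/

set_option autoImplicit false
set_option linter.unusedSectionVars false

namespace SCO

open Filter Topology

universe u

namespace ND

theorem p_NIT (hGJN : Stmt_GJN.{u}) : Stmt_NIT.{u} := by
  intro Q _ _ U hU n₁ C hC hstep k
  obtain ⟨-, -, -, h4, h5, -, h7, -, -⟩ := hGJN Q 1 IsProj.one
  have hC1 : (1 : ℝ) ≤ C := by exact_mod_cast hC
  have hC0 : (0 : ℝ) < C := by linarith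
  induction k with
  | zero =>
    intro g hg1 hg2
    refine ⟨1, h4 _ U 1 hU.isHaarIn (by simp) (by simp) (by simp), ?_⟩
    simp
  | succ k ih =>
    intro g hg1 hg2
    obtain ⟨γ, hγ, hγn⟩ := ih g hg1 hg2
    have e1 : star (g * star γ) * (g * star γ) = 1 := by
      rw [star_mul, star_star]
      calc γ * star g * (g * star γ) = γ * (star g * g) * star γ := by simp only [mul_assoc]
        _ = 1 := by rw [hg1, mul_one, hγ.rng]
    have e2 : (g * star γ) * star (g * star γ) = 1 := by
      rw [star_mul, star_star]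
      calc g * star γ * (γ * star g) = g * (star γ * γ) * star g := by simp only [mul_assoc]
        _ = 1 := by rw [hγ.src, mul_one, hg2]
    obtain ⟨γ', hγ', hγn'⟩ := hstep (g * star γ) e1 e2
    have e3 : (k + 1) * n₁ = n₁ + k * n₁ := by ring
    refine ⟨γ' * γ, ?_, ?_⟩
    · rw [e3]
      exact h5 _ _ _ _ _ hγ' hγ
    · have e4 : g * star (γ' * γ) = g * star γ * star γ' := by
        rw [star_mul, mul_assoc]
      rw [e4]
      have hn0 : 0 ≤ C * ‖g * star γ - 1‖ := by positivity
      calc C * ‖g * star γ * star γ' - 1‖ ≤ C * (C * ‖g * star γ - 1‖ ^ 2) :=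
            mul_le_mul_of_nonneg_left hγn' hC0.le
        _ = (C * ‖g * star γ - 1‖) ^ 2 := by ring
        _ ≤ ((C * ‖g - 1‖) ^ (2 ^ k)) ^ 2 := pow_le_pow_left₀ hn0 hγn 2
        _ = (C * ‖g - 1‖) ^ (2 ^ (k + 1)) := by rw [← pow_mul, ← pow_succ]

end ND

end SCO
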