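import Pool.Agent.Work.MP_52dd0f_nd.Interface2

/-!
# THEOREM ND+, block NST: one Newton step
-/

set_option autoImplicit false

namespace SCO

open Filter Topology

universe u

namespace ND

section

variable {Q : Type u} [CStarAlgebra Q] [TVN Q]

theorem NST_norm_one : ‖(1 : Q)‖ ≤ 1 := IsProj.one.norm_le

theorem NST_norm_le (g : Q) (h : star g * g = 1) : ‖g‖ ≤ 1 := by
  have h1 : ‖g‖ * ‖g‖ = ‖(1 : Q)‖ := by rw [← CStarRing.norm_star_mul_self, h]
  have h2 : ‖(1 : Q)‖ ≤ 1 := NST_norm_one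
  by_contra hlt
  push Not at hlt
  nlinarith

theorem NST_prod (hGJN : Stmt_GJN.{u}) (U : Q) (hU : HaarU U) (m : ℕ) (L : List Q)
    (hL : ∀ x ∈ L, GpN 1 U m x) : GpN 1 U (L.length * m) L.prod := by
  obtain ⟨-, -, -, h4, h5, -, -, -, -⟩ := hGJN Q 1 IsProj.one
  induction L with
  | nil =>
    rw [List.prod_nil]
    refine h4 _ U 1 hU.isHaarIn ?_ ?_ ?_
    · rw [star_one, one_mul]
    · rw [star_one, one_mul]
    · rw [one_mul, mul_one]
  | cons x L ih =>
    have h1 := ih fun y hy => hL y (List.mem_cons_of_mem _ hy)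
    have h2 := hL x List.mem_cons_self
    have h3 := h5 m (L.length * m) U x L.prod h2 h1
    rw [List.prod_cons, List.length_cons]
    have e : (L.length + 1) * m = m + L.length * m := by ring
    rw [e]
    exact h3

end

theorem p_NST (hGJN : Stmt_GJN.{u}) (hPRE : Stmt_PRE.{u}) : Stmt_NST.{u} := by
  intro Q _ _ U hU m H
  refine ⟨m * m, 2 * m ^ 4 + 2, by omega, ?_⟩
  intro g hg hg'
  obtain ⟨δ, hδ⟩ : ∃ δ : ℝ, δ = ‖g - 1‖ := ⟨_, rfl⟩
  have hδ0 : 0 ≤ δ := by rw [hδ]; exact norm_nonneg _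
  rw [← hδ]
  have hm0 : (0 : ℝ) ≤ m := Nat.cast_nonneg m
  have hC : (((2 * m ^ 4 + 2 : ℕ)) : ℝ) = 2 * (m : ℝ) ^ 4 + 2 := by push_cast; ring
  rw [hC]
  by_cases hcase : δ = 0 ∨ 1 < δ * (m : ℝ) ^ 2
  · refine ⟨1, ?_, ?_⟩
    · obtain ⟨-, -, -, h4, -, -, -, -, -⟩ := hGJN Q 1 IsProj.one
      refine h4 _ U 1 hU.isHaarIn ?_ ?_ ?_
      · rw [star_one, one_mul]
      · rw [star_one, one_mul]
      · rw [one_mul, mul_one]
    · rw [star_one, mul_one, ← hδ]
      rcases hcase with h | h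
      · rw [h]
        norm_num
      · have h1 : δ ≤ δ ^ 2 * (m : ℝ) ^ 2 := by nlinarith
        have h2 : δ ^ 2 * (m : ℝ) ^ 2 ≤ (2 * (m : ℝ) ^ 4 + 2) * δ ^ 2 := by
          have h3 : (m : ℝ) ^ 2 ≤ 2 * (m : ℝ) ^ 4 + 2 := by
            nlinarith [sq_nonneg ((m : ℝ) ^ 2 - 1)]
          nlinarith [sq_nonneg δ]
        linarith
  · push Not at hcase
    obtain ⟨hne, hle⟩ := hcase
    have hδpos : 0 < δ := lt_of_le_of_ne hδ0 (Ne.symm hne)
    obtain ⟨h, hh⟩ : ∃ h : Q, h = (-(Complex.I / 2)) • (g - star g) := ⟨_, rfl⟩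
    have hsa : IsSelfAdjoint h := by
      rw [hh, IsSelfAdjoint, star_smul, star_sub, star_star]
      have e : star (-(Complex.I / 2)) = Complex.I / 2 := by
        rw [Complex.star_def, map_neg, map_div₀, Complex.conj_I, map_ofNat]
        ring
      rw [e, neg_smul, ← smul_neg, neg_sub]
    have hnorm : ‖h‖ ≤ δ := by
      rw [hh, norm_smul, norm_neg, norm_div, Complex.norm_I]
      have e1 : g - star g = (g - 1) - star (g - 1) := by
        rw [star_sub, star_one]
        abel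
      have e2 : ‖g - star g‖ ≤ δ + δ := by
        rw [e1]
        refine (norm_sub_le _ _).trans ?_
        rw [norm_star, ← hδ]
      have e3 : ‖(2 : ℂ)‖ = 2 := by norm_num
      rw [e3]
      linarith
    have hIh : g - 1 - Complex.I • h = -((1 / 2 : ℂ) • (star (g - 1) * (g - 1))) := by
      have e1 : Complex.I • h = (1 / 2 : ℂ) • (g - star g) := by
        rw [hh, smul_smul]
        congr 1
        have : Complex.I * Complex.I = -1 := Complex.I_mul_I
        linear_combination (-1 / 2 : ℂ) * this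
      have e2 : star (g - 1) * (g - 1) = (2 : ℂ) • (1 : Q) - g - star g := by
        rw [star_sub, star_one, sub_mul, mul_sub, hg, one_mul, mul_one, two_smul]
        abel
      have e3 : (1 / 2 : ℂ) • ((2 : ℂ) • (1 : Q) - g - star g) =
          1 - (1 / 2 : ℂ) • g - (1 / 2 : ℂ) • star g := by
        rw [smul_sub, smul_sub, smul_smul]
        norm_num
      have e4 : g = (1 / 2 : ℂ) • g + (1 / 2 : ℂ) • g := by
        rw [← add_smul]
        norm_num
      rw [e1, e2, e3, smul_sub]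
      nth_rewrite 1 [e4]
      abel
    have hn1 : ‖g - 1 - Complex.I • h‖ ≤ δ ^ 2 / 2 := by
      rw [hIh, norm_neg, norm_smul, CStarRing.norm_star_mul_self, ← hδ]
      have e3 : ‖(1 / 2 : ℂ)‖ = 1 / 2 := by norm_num
      rw [e3]
      nlinarith
    obtain ⟨f, hf, hsum⟩ := H (((δ⁻¹ : ℝ) : ℂ) • h) (by
      rw [IsSelfAdjoint, star_smul, Complex.star_def, Complex.conj_ofReal, hsa.star_eq]) (by
      rw [norm_smul, Complex.norm_real, Real.norm_eq_abs, abs_of_pos (inv_pos.2 hδpos),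
        inv_mul_le_iff₀ hδpos, mul_one]
      exact hnorm)
    obtain ⟨a, ha⟩ : ∃ a : Fin m → Q, a = fun j => ((δ : ℂ) * Complex.I) • f j := ⟨_, rfl⟩
    have hasum : ∑ j, a j = Complex.I • h := by
      rw [ha, ← Finset.smul_sum, ← hsum, smul_smul]
      congr 1
      have hδc : (δ : ℂ) ≠ 0 := by exact_mod_cast hne
      push_cast
      field_simp
    have hanorm : ∀ j, ‖a j‖ ≤ δ * m := by
      intro j
      rw [ha]
      show ‖((δ : ℂ) * Complex.I) • f j‖ ≤ δ * m
      rw [norm_smul, norm_mul, Complex.norm_I, mul_one, Complex.norm_real, Real.norm_eq_abs,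
        abs_of_pos hδpos]
      exact mul_le_mul_of_nonneg_left (hf j).2 hδ0
    have hs : ∑ j, ‖a j‖ ≤ (m : ℝ) ^ 2 * δ := by
      refine (Finset.sum_le_sum fun j _ => hanorm j).trans ?_
      rw [Finset.sum_const, Finset.card_univ, Fintype.card_fin, nsmul_eq_mul]
      apply le_of_eq
      ring
    have hs0 : 0 ≤ ∑ j, ‖a j‖ := Finset.sum_nonneg fun j _ => norm_nonneg _
    have hpre := hPRE Q m a (hs.trans (by linarith))
    obtain ⟨γ, hγ⟩ : ∃ γ : Q, γ = (List.ofFn (fun j => NormedSpace.exp (a j))).prod := ⟨_, rfl⟩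
    rw [← hγ, hasum] at hpre
    have hG : GpN 1 U (m * m) γ := by
      have h1 := NST_prod hGJN U hU m (List.ofFn (fun j => NormedSpace.exp (a j))) (by
        intro x hx
        obtain ⟨j, rfl⟩ := (List.mem_ofFn' _ _).1 hx
        rw [ha]
        exact (hf j).1.2 δ)
      rw [List.length_ofFn, ← hγ] at h1
      exact h1
    refine ⟨γ, hG, ?_⟩
    have h1 : g * star γ - 1 = (g - γ) * star γ := by
      rw [sub_mul, hG.rng]
    have h2 : ‖star γ‖ ≤ 1 := by
      rw [norm_star]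
      exact NST_norm_le γ hG.src
    have h3 : ‖g - γ‖ ≤ δ ^ 2 / 2 + ((m : ℝ) ^ 2 * δ) ^ 2 := by
      have e : g - γ = (g - 1 - Complex.I • h) - (γ - 1 - Complex.I • h) := by abel
      rw [e]
      refine (norm_sub_le _ _).trans (add_le_add hn1 (hpre.trans ?_))
      exact pow_le_pow_left₀ hs0 hs 2
    have h4 : ‖(g - γ) * star γ‖ ≤ ‖g - γ‖ := by
      refine (norm_mul_le _ _).trans ?_
      exact mul_le_of_le_one_right (norm_nonneg _) h2
    rw [h1]
    refine h4.trans (h3.trans ?_)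
    have h5 : 0 ≤ (m : ℝ) ^ 4 * δ ^ 2 := by positivity
    nlinarith [sq_nonneg δ]

end ND

end SCO
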