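import Pool.Agent.Work.MP_52dd0f_nd.Interface

/-! # THEOREM ND, block OFF -/

set_option autoImplicit false
set_option linter.unusedSectionVars false

namespace SCO

open Filter Topology

universe u

namespace ND

/-- the relations of 2 by 2 matrix units, written with letters -/
structure OFF_R {P : Type u} [CStarAlgebra P] (e f a b : P) : Prop where
  ee : e * e = e
  ff : f * f = f
  ef : e * f = 0
  fe : f * e = 0
  ea : e * a = a
  ae : a * e = 0
  fa : f * a = 0
  af : a * f = a
  eb : e * b = 0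
  be : b * e = b
  fb : f * b = b
  bf : b * f = 0
  aa : a * a = 0
  bb : b * b = 0
  ab : a * b = e
  ba : b * a = f
  se : star e = e
  sf : star f = f
  sa : star a = b
  sb : star b = a
  sum : e + f = 1

section

variable {P : Type u} [CStarAlgebra P]

theorem OFF_of_MU (c : Fin 2 → Fin 2 → P) (h : MU 1 c) :
    OFF_R (c 0 0) (c 1 1) (c 0 1) (c 1 0) := by
  have hm := h.mul
  have hs := h.sum
  rw [Fin.sum_univ_two] at hs
  refine ⟨?_, ?_, ?_, ?_, ?_, ?_, ?_, ?_, ?_, ?_, ?_, ?_, ?_, ?_, ?_, ?_, h.star 0 0, h.star 1 1,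
    h.star 0 1, h.star 1 0, hs⟩ <;> rw [hm] <;> simp

theorem OFF_conj {g a : P} (h1 : star g * g = 1) (h2 : g * star g = 1) :
    NormedSpace.exp (g * a * star g) = g * NormedSpace.exp a * star g := by
  let _ : NormedAlgebra ℚ P := NormedAlgebra.restrictScalars ℚ ℂ P
  exact NormedSpace.exp_units_conj (⟨g, star g, h2, h1⟩ : Pˣ) a

theorem OFF_uni {k : P} (hk : IsSelfAdjoint k) (t : ℝ) :
    star (NormedSpace.exp (((t : ℂ) * Complex.I) • k)) *
        NormedSpace.exp (((t : ℂ) * Complex.I) • k) = 1 ∧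
      NormedSpace.exp (((t : ℂ) * Complex.I) • k) *
        star (NormedSpace.exp (((t : ℂ) * Complex.I) • k)) = 1 := by
  let _ : NormedAlgebra ℚ P := NormedAlgebra.restrictScalars ℚ ℂ P
  have h1 : ((t : ℂ) * Complex.I) • k ∈ skewAdjoint P := by
    rw [skewAdjoint.mem_iff, star_smul, hk.star_eq, ← neg_smul]
    congr 1
    simp
  have h2 := NormedSpace.exp_mem_unitary_of_mem_skewAdjoint h1
  exact ⟨(Unitary.mem_iff.1 h2).1, (Unitary.mem_iff.1 h2).2⟩

theorem OFF_comm {k U : P} (h : k * U = U * k) (z : ℂ) :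
    NormedSpace.exp (z • k) * U = U * NormedSpace.exp (z • k) := by
  let _ : NormedAlgebra ℚ P := NormedAlgebra.restrictScalars ℚ ℂ P
  have h1 : Commute (z • k) U := Commute.smul_left h z
  exact h1.exp_left

theorem OFF_sa (c : Fin 2 → Fin 2 → P) (h : OFF_R (c 0 0) (c 1 1) (c 0 1) (c 1 0)) (x : P) :
    IsSelfAdjoint (off c x) := by
  rw [isSelfAdjoint_iff]
  unfold off
  rw [star_add, star_mul, star_mul, star_star, h.sa, h.sb, add_comm]

theorem OFF_pow {e f a b u : P} (h : OFF_R e f a b) (hu : e * u = u) (m : ℕ) :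
    (b * u * a) ^ (m + 1) = b * u ^ (m + 1) * a := by
  induction m with
  | zero => rw [zero_add, pow_one, pow_one]
  | succ m ih =>
    rw [pow_succ, ih, pow_succ u (m + 1)]
    calc b * u ^ (m + 1) * a * (b * u * a) = b * u ^ (m + 1) * ((a * b) * u) * a := by
          simp only [mul_assoc]
      _ = b * (u ^ (m + 1) * u) * a := by rw [h.ab, hu]; simp only [mul_assoc]

/-- products with elements of the corner -/
theorem OFF_corner {e f a b x : P} (h : OFF_R e f a b) (h1 : e * x = x) (h2 : x * e = x) :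
    x * b = 0 ∧ x * f = 0 ∧ f * x = 0 ∧ a * x = 0 := by
  refine ⟨?_, ?_, ?_, ?_⟩
  · rw [← h2, mul_assoc, h.eb, mul_zero]
  · rw [← h2, mul_assoc, h.ef, mul_zero]
  · rw [← h1, ← mul_assoc, h.fe, zero_mul]
  · rw [← h1, ← mul_assoc, h.ae, zero_mul]

theorem OFF_DUD {e f a b u g : P} (h : OFF_R e f a b) (hu1 : e * u = u) (hu2 : u * e = u)
    (hg1 : e * g = g) (hg2 : g * e = g) (hs1 : e * star g = star g) (hs2 : star g * e = star g) :
    (g + f) * (u + b * u * a) * star (g + f) = g * u * star g + b * u * a := by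
  obtain ⟨u1, u2, u3, u4⟩ := OFF_corner h hu1 hu2
  obtain ⟨g1, g2, g3, g4⟩ := OFF_corner h hg1 hg2
  obtain ⟨s1, s2, s3, s4⟩ := OFF_corner h hs1 hs2
  have e1 : (g + f) * (u + b * u * a) = g * u + b * u * a := by
    have x1 : g * (b * u * a) = 0 := by
      rw [← mul_assoc, ← mul_assoc, g1, zero_mul, zero_mul]
    have x2 : f * (b * u * a) = b * u * a := by
      rw [← mul_assoc, ← mul_assoc, h.fb]
    rw [add_mul, mul_add, mul_add, x1, x2, u3, add_zero, zero_add]
  rw [e1, star_add, h.sf]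
  have x3 : b * u * a * star g = 0 := by rw [mul_assoc, s4, mul_zero]
  have x4 : g * u * f = 0 := by rw [mul_assoc, u2, mul_zero]
  have x5 : b * u * a * f = b * u * a := by rw [mul_assoc, h.af]
  rw [add_mul, mul_add, mul_add, x3, x4, x5, add_zero, zero_add]

theorem OFF_D {e f a b g : P} (h : OFF_R e f a b)
    (hg1 : e * g = g) (hg2 : g * e = g) (hs1 : e * star g = star g) (hs2 : star g * e = star g)
    (k1 : star g * g = e) (k2 : g * star g = e) :
    star (g + f) * (g + f) = 1 ∧ (g + f) * star (g + f) = 1 := by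
  obtain ⟨g1, g2, g3, g4⟩ := OFF_corner h hg1 hg2
  obtain ⟨s1, s2, s3, s4⟩ := OFF_corner h hs1 hs2
  constructor
  · rw [star_add, h.sf, add_mul, mul_add, mul_add, k1, s2, g3, h.ff, add_zero, zero_add, h.sum]
  · rw [star_add, h.sf, add_mul, mul_add, mul_add, k2, s3, g2, h.ff, add_zero, zero_add, h.sum]

theorem OFF_DKD {e f a b g : P} (h : OFF_R e f a b)
    (hg1 : e * g = g) (hg2 : g * e = g) (hs1 : e * star g = star g) (hs2 : star g * e = star g)
    (z w : ℂ) :
    (g + f) * (z • a + w • b) * star (g + f) = z • (g * a) + w • (b * star g) := by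
  obtain ⟨g1, g2, g3, g4⟩ := OFF_corner h hg1 hg2
  obtain ⟨s1, s2, s3, s4⟩ := OFF_corner h hs1 hs2
  rw [star_add, h.sf]
  have e1 : (g + f) * (z • a + w • b) = z • (g * a) + w • b := by
    rw [mul_add, mul_smul_comm, mul_smul_comm, add_mul, add_mul, h.fa, g1, h.fb, add_zero, zero_add]
  have e2 : a * (star g + f) = a := by rw [mul_add, s4, h.af, zero_add]
  have e3 : b * (star g + f) = b * star g := by rw [mul_add, h.bf, add_zero]
  rw [e1, add_mul, smul_mul_assoc, smul_mul_assoc, mul_assoc, e2, e3]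

end

section

variable {P : Type u} [CStarAlgebra P] [TVN P]

theorem OFF_haar {e f a b u : P} (h : OFF_R e f a b) (he : IsProj e) (hu : IsHaarIn e u) :
    IsHaarIn f (b * u * a) := by
  have hu1 := hu.mul_left he
  have hu2 := hu.mul_right he
  have hst : star (b * u * a) = b * star u * a := by
    rw [star_mul, star_mul, h.sa, h.sb, mul_assoc]
  refine ⟨?_, ?_, fun m hm => ?_⟩
  · rw [hst]
    calc b * star u * a * (b * u * a) = b * (star u * ((a * b) * u)) * a := by
          simp only [mul_assoc]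
      _ = f := by rw [h.ab, hu1, hu.src, h.be, h.ba]
  · rw [hst]
    have hs : e * star u = star u := by
      have h3 := congrArg star hu2
      rw [star_mul, h.se] at h3
      exact h3
    calc b * u * a * (b * star u * a) = b * (u * ((a * b) * star u)) * a := by
          simp only [mul_assoc]
      _ = f := by rw [h.ab, hs, hu.rng, h.be, h.ba]
  · obtain ⟨k, rfl⟩ : ∃ k, m = k + 1 := ⟨m - 1, by omega⟩
    have h4 : a * (b * u ^ (k + 1)) = u ^ (k + 1) := by
      rw [← mul_assoc, h.ab, pow_succ', ← mul_assoc, hu1]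
    rw [OFF_pow h hu1, tr_comm, h4]
    exact hu.tr _ hm

end

theorem p_OFF (hJNS : Stmt_JNS.{u}) (hJDS : Stmt_JDS.{u}) (hAMP : Stmt_AMP.{u})
    (hLIA : Stmt_LIA.{u}) : Stmt_OFF.{u} := by
  intro Q _ _ c hc u hu hspan
  have h := OFF_of_MU c hc
  obtain ⟨he, -, -, hUc, -, -, -, -, hHaar⟩ := hAMP Q 1 c hc
  obtain ⟨-, -, j3, j4, j5, -⟩ := hJNS Q 1 IsProj.one
  have hu1 := hu.mul_left he
  have hu2 := hu.mul_right he
  have hUH : HaarU (am (n := 1) c u) := (hHaar u hu1 hu2).1 hu
  have hUI := hUH.isHaarIn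
  have hUe : am (n := 1) c u = u + c 1 0 * u * c 0 1 := by
    have e1 : am (n := 1) c u = ∑ i : Fin 2, c i 0 * u * c 0 i := rfl
    rw [e1, Fin.sum_univ_two, hu1, hu2]
  have hGrp : UGrp {γ : Q | Gp 1 (am (n := 1) c u) γ} :=
    { uni := fun g hg => ⟨hg.src, hg.rng⟩
      one := j3 _ 1 hUI (by rw [star_one, one_mul]) (by rw [star_one, one_mul])
        (by rw [one_mul, mul_one])
      mul := fun g hg k hk => j4 _ g k hUI hg hk
      star := fun g hg => j5 _ g hUI hg }
  have hexp : ∀ k : Q, IsSelfAdjoint k → k * am (n := 1) c u = am (n := 1) c u * k → ∀ t : ℝ,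
      NormedSpace.exp (((t : ℂ) * Complex.I) • k) ∈ {γ : Q | Gp 1 (am (n := 1) c u) γ} := by
    intro k hk hkU t
    obtain ⟨h1, h2⟩ := OFF_uni hk t
    exact j3 _ _ hUI h1 h2 (OFF_comm hkU _)
  refine ⟨hGrp, ⟨?_, fun t => subset_closure (hexp 1 ?_ ?_ t)⟩, ?_⟩
  · exact IsSelfAdjoint.one Q
  · exact IsSelfAdjoint.one Q
  · rw [one_mul, mul_one]
  obtain ⟨l0, ladd, -, -⟩ := hLIA Q _ hGrp
  -- the elements of the stabilizer
  have hmem : ∀ g : Q, Gp (c 0 0) u g → ∀ z : ℂ,
      off c (z • g) ∈ Hc {γ : Q | Gp 1 (am (n := 1) c u) γ} := by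
    intro g hg z
    have hg2 : g * c 0 0 = g := pi_mul_src he hg.src
    have hg1 : c 0 0 * g = g := pi_mul_rng he hg.src hg.rng
    have hs1 : c 0 0 * star g = star g := by
      have h3 := congrArg star hg2
      rw [star_mul, h.se] at h3
      exact h3
    have hs2 : star g * c 0 0 = star g := by
      have h3 := congrArg star hg1
      rw [star_mul, h.se] at h3
      exact h3
    obtain ⟨d1, d2⟩ := OFF_D h hg1 hg2 hs1 hs2 hg.src hg.rng
    have hDU := OFF_DUD h hu1 hu2 hg1 hg2 hs1 hs2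
    have hq : IsProj (c 1 1) := ⟨h.ff, h.sf⟩
    have hv := OFF_haar h he hu
    have hJ := (hJDS Q (c 0 0) (c 1 1) u (g * u * star g) (c 1 0 * u * c 0 1)
      (c 1 0 * u * c 0 1) he hq h.ef hu hv hg.jn Relation.ReflTransGen.refl).2
    rw [h.sum] at hJ
    have hD : g + c 1 1 ∈ {γ : Q | Gp 1 (am (n := 1) c u) γ} := by
      refine ⟨d1, d2, ?_⟩
      rw [hUe, hDU]
      exact hJ
    have hK : off c (z • c 0 0) = z • c 0 1 + (starRingEnd ℂ z) • c 1 0 := by
      unfold off
      rw [smul_mul_assoc, h.ea, star_smul, h.se, mul_smul_comm, h.be]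
      rfl
    have hKU : off c (z • c 0 0) * am (n := 1) c u = am (n := 1) c u * off c (z • c 0 0) := by
      rw [hK, add_mul, mul_add, smul_mul_assoc, smul_mul_assoc, mul_smul_comm, mul_smul_comm,
        hUc u 0 1, hUc u 1 0]
    have hDK : (g + c 1 1) * off c (z • c 0 0) * star (g + c 1 1) = off c (z • g) := by
      rw [hK, OFF_DKD h hg1 hg2 hs1 hs2]
      unfold off
      rw [smul_mul_assoc, star_smul, mul_smul_comm]
      rfl
    refine ⟨OFF_sa c h _, fun t => subset_closure ?_⟩
    have e1 : ((t : ℂ) * Complex.I) • off c (z • g) =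
        (g + c 1 1) * (((t : ℂ) * Complex.I) • off c (z • c 0 0)) * star (g + c 1 1) := by
      rw [mul_smul_comm, smul_mul_assoc, hDK]
    rw [e1, OFF_conj d1 d2]
    exact hGrp.mul _ (hGrp.mul _ hD _ (hexp _ (OFF_sa c h _) hKU t)) _ (hGrp.star _ hD)
  have key : ∀ x ∈ Submodule.span ℂ {g : Q | Gp (c 0 0) u g}, ∀ z : ℂ,
      off c (z • x) ∈ Hc {γ : Q | Gp 1 (am (n := 1) c u) γ} := by
    intro x hx
    induction hx using Submodule.span_induction with
    | mem x hx => exact hmem x hx
    | zero =>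
      intro z
      have e1 : off c (z • (0 : Q)) = 0 := by
        unfold off
        rw [smul_zero, zero_mul, star_zero, mul_zero, add_zero]
      rw [e1]
      exact l0
    | add x y _ _ hx hy =>
      intro z
      have e1 : off c (z • (x + y)) = off c (z • x) + off c (z • y) := by
        unfold off
        rw [smul_add, add_mul, star_add, mul_add]
        abel
      rw [e1]
      exact ladd _ (hx z) _ (hy z)
    | smul w x _ hx =>
      intro z
      rw [smul_smul]
      exact hx (z * w)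
  intro x hx1 hx2
  have h1 := key x (hspan x hx1 hx2) 1
  rw [one_smul] at h1
  exact h1

end ND

end SCO
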