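import Pool.Agent.Work.MP_52dd0f_nd.Interface2
import Pool.Agent.Work.MP_52dd0f_nd.B_OFF

/-! # THEOREM ND+, block OFG -/

set_option autoImplicit false
set_option linter.unusedSectionVars false

namespace SCO

open Filter Topology

universe u

namespace ND

theorem OFG_pi {P : Type u} [CStarAlgebra P] [TVN P] {e g : P} (he : IsProj e) (h : star g * g = e) :
    ‖g‖ ≤ 1 := by
  have h1 : ‖g‖ * ‖g‖ = ‖e‖ := by rw [← CStarRing.norm_star_mul_self, h]
  have h2 := he.norm_le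
  have h4 := norm_nonneg g
  nlinarith

theorem p_OFG (hGJN : Stmt_GJN.{u}) (hGJD : Stmt_GJD.{u}) (hAMP : Stmt_AMP.{u}) :
    Stmt_OFG.{u} := by
  intro Q _ _ c hc u hu m hspan
  have h := OFF_of_MU c hc
  obtain ⟨he, -, -, hUc, -, -, -, -, hHaar⟩ := hAMP Q 1 c hc
  obtain ⟨-, -, -, j4, j5, j6, -, -, -⟩ := hGJN Q 1 IsProj.one
  have hu1 := hu.mul_left he
  have hu2 := hu.mul_right he
  have hUH : HaarU (am (n := 1) c u) := (hHaar u hu1 hu2).1 hu
  have hUI := hUH.isHaarIn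
  have hUe : am (n := 1) c u = u + c 1 0 * u * c 0 1 := by
    have e1 : am (n := 1) c u = ∑ i : Fin 2, c i 0 * u * c 0 i := rfl
    rw [e1, Fin.sum_univ_two, hu1, hu2]
  have hexp : ∀ (n : ℕ) (k : Q), IsSelfAdjoint k → k * am (n := 1) c u = am (n := 1) c u * k →
      ∀ t : ℝ, GpN 1 (am (n := 1) c u) n (NormedSpace.exp (((t : ℂ) * Complex.I) • k)) := by
    intro n k hk hkU t
    obtain ⟨h1, h2⟩ := OFF_uni hk t
    exact j4 n _ _ hUI h1 h2 (OFF_comm hkU _)
  have hmem : ∀ g : Q, GpN (c 0 0) u m g → ∀ z : ℂ, ‖z‖ ≤ m →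
      Gd (am (n := 1) c u) (m + m) (off c (z • g)) ∧
        ‖off c (z • g)‖ ≤ ((m + m : ℕ) : ℝ) := by
    intro g hg z hz
    have hg2 : g * c 0 0 = g := pi_mul_src he hg.src
    have hg1 : c 0 0 * g = g := pi_mul_rng he hg.src hg.rng
    have hs1 : c 0 0 * star g = star g := by
      have h3 := congrArg star hg2
      rw [star_mul, h.se] at h3
      exact h3
    have hs2 : star g * c 0 0 = star g := by
      have h3 := congrArg star hg1
      rw [star_mul, h.se] at h3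
      exact h3
    obtain ⟨d1, d2⟩ := OFF_D h hg1 hg2 hs1 hs2 hg.src hg.rng
    have hDU := OFF_DUD h hu1 hu2 hg1 hg2 hs1 hs2
    have hq : IsProj (c 1 1) := ⟨h.ff, h.sf⟩
    have hv := OFF_haar h he hu
    have hJ := hGJD Q (c 0 0) (c 1 1) u (g * u * star g) (c 1 0 * u * c 0 1) m he hq h.ef hv hg.jn
    rw [h.sum] at hJ
    have hD : GpN 1 (am (n := 1) c u) m (g + c 1 1) := by
      refine ⟨d1, d2, ?_⟩
      rw [hUe, hDU]
      exact hJ
    have hK : off c (z • c 0 0) = z • c 0 1 + (starRingEnd ℂ z) • c 1 0 := by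
      unfold off
      rw [smul_mul_assoc, h.ea, star_smul, h.se, mul_smul_comm, h.be]
      rfl
    have hKU : off c (z • c 0 0) * am (n := 1) c u = am (n := 1) c u * off c (z • c 0 0) := by
      rw [hK, add_mul, mul_add, smul_mul_assoc, smul_mul_assoc, mul_smul_comm, mul_smul_comm,
        hUc u 0 1, hUc u 1 0]
    have hDK : (g + c 1 1) * off c (z • c 0 0) * star (g + c 1 1) = off c (z • g) := by
      rw [hK, OFF_DKD h hg1 hg2 hs1 hs2]
      unfold off
      rw [smul_mul_assoc, star_smul, mul_smul_comm]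
      rfl
    refine ⟨⟨OFF_sa c h _, fun t => ?_⟩, ?_⟩
    · have e1 : ((t : ℂ) * Complex.I) • off c (z • g) =
          (g + c 1 1) * (((t : ℂ) * Complex.I) • off c (z • c 0 0)) * star (g + c 1 1) := by
        rw [mul_smul_comm, smul_mul_assoc, hDK]
      rw [e1, OFF_conj d1 d2]
      exact j5 (m + 0) m _ _ _ (j5 m 0 _ _ _ hD (hexp 0 _ (OFF_sa c h _) hKU t)) (j6 m _ _ hD)
    · have n1 : ‖g‖ ≤ 1 := OFG_pi he hg.src
      have n2 : ‖c 0 1‖ ≤ 1 := OFG_pi hq (by rw [h.sa, h.ba])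
      have n3 : ‖c 1 0‖ ≤ 1 := OFG_pi he (by rw [h.sb, h.ab])
      have n4 : ‖z • g‖ ≤ m := by
        rw [norm_smul]
        calc ‖z‖ * ‖g‖ ≤ m * 1 := mul_le_mul hz n1 (norm_nonneg _) (by positivity)
          _ = m := mul_one _
      have n5 : ‖(z • g) * c 0 1‖ ≤ m := by
        calc ‖(z • g) * c 0 1‖ ≤ ‖z • g‖ * ‖c 0 1‖ := norm_mul_le _ _
          _ ≤ m * 1 := mul_le_mul n4 n2 (norm_nonneg _) (by positivity)
          _ = m := mul_one _
      have n6 : ‖c 1 0 * star (z • g)‖ ≤ m := by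
        calc ‖c 1 0 * star (z • g)‖ ≤ ‖c 1 0‖ * ‖star (z • g)‖ := norm_mul_le _ _
          _ ≤ 1 * m := mul_le_mul n3 (by rw [norm_star]; exact n4) (norm_nonneg _) zero_le_one
          _ = m := one_mul _
      unfold off
      refine (norm_add_le _ _).trans ?_
      push_cast
      linarith
  have hz0 : Gd (am (n := 1) c u) (m + m) (0 : Q) ∧ ‖(0 : Q)‖ ≤ ((m + m : ℕ) : ℝ) := by
    refine ⟨⟨IsSelfAdjoint.zero Q, fun t => ?_⟩, by rw [norm_zero]; positivity⟩
    exact hexp (m + m) 0 (IsSelfAdjoint.zero Q) (by rw [zero_mul, mul_zero]) t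
  refine ⟨m + m, ?_⟩
  intro x hx1 hx2 hx
  obtain ⟨z, g, hzg, hxs⟩ := hspan x hx1 hx2 hx
  refine ⟨Fin.append (fun j => off c (z j • g j)) (fun _ : Fin m => 0), ?_, ?_⟩
  · intro j
    refine Fin.addCases (fun i => ?_) (fun i => ?_) j
    · rw [Fin.append_left]
      exact hmem (g i) (hzg i).2 (z i) (hzg i).1
    · rw [Fin.append_right]
      exact hz0
  · rw [Fin.sum_univ_add]
    simp only [Fin.append_left, Fin.append_right, Finset.sum_const_zero, add_zero]
    rw [hxs]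
    unfold off
    rw [Finset.sum_mul, star_sum, Finset.mul_sum, ← Finset.sum_add_distrib]

end ND

end SCO
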