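import Pool.Agent.Work.MP_52dd0f_nd.Interface2

/-!
PAR: partition in equal pieces, almost adapted to a given partition
-/

set_option autoImplicit false
set_option linter.unusedSectionVars false

namespace SCO

open Filter Topology

universe u

namespace ND

theorem PAR_mul_sum {M : Type u} [CStarAlgebra M] {ι : Type} [Fintype ι] [DecidableEq ι] (p : ι → M)
    (hp : ∀ i, IsProj (p i)) (ho : ∀ i j, i ≠ j → p i * p j = 0) (i : ι) : p i * ∑ j, p j = p i := by
  rw [Finset.mul_sum, Finset.sum_eq_single i]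
  · exact (hp i).mul
  · intro j _ hj
    exact ho i j (Ne.symm hj)
  · intro h
    exact absurd (Finset.mem_univ i) h

theorem PAR_sum_proj {M : Type u} [CStarAlgebra M] {ι : Type} [Fintype ι] [DecidableEq ι] (p : ι → M)
    (hp : ∀ i, IsProj (p i)) (ho : ∀ i j, i ≠ j → p i * p j = 0) : IsProj (∑ j, p j) := by
  refine ⟨?_, ?_⟩
  · rw [Finset.sum_mul]
    exact Finset.sum_congr rfl fun i _ => PAR_mul_sum p hp ho i
  · rw [star_sum]
    exact Finset.sum_congr rfl fun i _ => (hp i).star

theorem p_PAR : Stmt_PAR.{u} := by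
  classical
  intro M _ _ _ e he he0 J p hp ho hsum n hn
  have hN : NoMin (∅ : Set M) := noMin_empty
  have hte : 0 < tau e := he.tau_pos he0
  have hn' : (0 : ℝ) < n := by exact_mod_cast hn
  obtain ⟨c, hc⟩ : ∃ c, c = tau e / n := ⟨_, rfl⟩
  have hc0 : 0 < c := by rw [hc]; positivity
  have hnc : (n : ℝ) * c = tau e := by rw [hc]; field_simp
  obtain ⟨k, hk⟩ : ∃ k : Fin J → ℕ, k = fun j => ⌊tau (p j) / c⌋₊ := ⟨_, rfl⟩
  have hk1 : ∀ j, (k j : ℝ) * c ≤ tau (p j) := by
    intro j
    have h1 : (k j : ℝ) ≤ tau (p j) / c := by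
      rw [hk]
      exact Nat.floor_le (div_nonneg (hp j).tau_nonneg hc0.le)
    rwa [le_div_iff₀ hc0] at h1
  have hk2 : ∀ j, tau (p j) ≤ ((k j : ℝ) + 1) * c := by
    intro j
    have h1 : tau (p j) / c < (k j : ℝ) + 1 := by
      rw [hk]
      exact Nat.lt_floor_add_one _
    rw [div_lt_iff₀ hc0] at h1
    exact h1.le
  have htsum : ∑ j, tau (p j) = tau e := by rw [← hsum, tau_sum]
  -- the pieces of the `p j`
  have hq : ∀ j, ∃ q : M, IsProj q ∧ q * p j = q ∧ tau q = k j * c := by
    intro j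
    obtain ⟨q, -, h1, h2, h3⟩ := exists_tau_eq hN (co_empty (p j)) (hp j) (s := k j * c)
      (by positivity) (hk1 j)
    exact ⟨q, h1, h2, h3⟩
  choose q hq1 hq2 hq3 using hq
  have hqo : ∀ i j, i ≠ j → q i * q j = 0 := by
    intro i j hij
    have h1 : p j * q j = q j := (hq1 j).mul_swap (hp j) (hq2 j)
    rw [← hq2 i, ← h1, mul_assoc, ← mul_assoc (p i), ho i j hij, zero_mul, mul_zero]
  have hpart : ∀ j, ∃ a : Fin (k j) → M, (∀ i, IsProj (a i)) ∧ (∀ i, tau (a i) = c) ∧
      (∀ i i', i ≠ i' → a i * a i' = 0) ∧ ∑ i, a i = q j := by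
    intro j
    obtain ⟨a, -, h1, h2, h3, h4⟩ := exists_partition hN c hc0.le (k j) (q j) (co_empty _) (hq1 j)
      (hq3 j)
    exact ⟨a, h1, h2, h3, h4⟩
  choose a ha1 ha2 ha3 ha4 using hpart
  -- the rest
  have hqe : (∑ j, q j) * e = ∑ j, q j := by
    rw [Finset.sum_mul]
    refine Finset.sum_congr rfl fun j _ => ?_
    have h1 : p j * e = p j := by
      rw [← hsum]
      exact PAR_mul_sum p hp ho j
    rw [← hq2 j, mul_assoc, h1]
  have hQ : IsProj (∑ j, q j) := PAR_sum_proj q hq1 hqo
  have hR : IsProj (e - ∑ j, q j) := hQ.sub he hqe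
  have htk : (∑ j, (k j : ℝ)) * c ≤ n * c := by
    rw [Finset.sum_mul, hnc, ← htsum]
    exact Finset.sum_le_sum fun j _ => hk1 j
  have hkn : ∑ j, k j ≤ n := by
    have h1 := le_of_mul_le_mul_right htk hc0
    exact_mod_cast h1
  obtain ⟨m, hm⟩ : ∃ m, ∑ j, k j + m = n := ⟨n - ∑ j, k j, by omega⟩
  have hmR : (∑ j, (k j : ℝ)) + m = n := by exact_mod_cast hm
  have htR : tau (e - ∑ j, q j) = m * c := by
    rw [tau_sub, tau_sum, ← hnc, ← hmR]
    have h1 : ∑ j, tau (q j) = (∑ j, (k j : ℝ)) * c := by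
      rw [Finset.sum_mul]
      exact Finset.sum_congr rfl fun j _ => hq3 j
    rw [h1]
    ring
  obtain ⟨b, -, hb1, hb2, hb3, hb4⟩ := exists_partition hN c hc0.le m (e - ∑ j, q j) (co_empty _) hR
    htR
  -- the index type
  let I := (Σ j : Fin J, Fin (k j)) ⊕ Fin m
  have hcard : Fintype.card (Fin n) = Fintype.card I := by
    rw [Fintype.card_sum, Fintype.card_sigma]
    simp [hm]
  let E : Fin n ≃ I := Fintype.equivOfCardEq hcard
  let r' : I → M := Sum.elim (fun x => a x.1 x.2) b
  let f' : I → Option (Fin J) := Sum.elim (fun x => some x.1) fun _ => none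
  have haq : ∀ j i, a j i * q j = a j i := by
    intro j i
    rw [← ha4 j]
    exact PAR_mul_sum (a j) (ha1 j) (ha3 j) i
  have hbR : ∀ i, b i * (e - ∑ j, q j) = b i := by
    intro i
    rw [← hb4]
    exact PAR_mul_sum b hb1 hb3 i
  have hqR : ∀ j, q j * (e - ∑ j, q j) = 0 := by
    intro j
    have h1 : q j * e = q j := by
      have h2 : p j * e = p j := by
        rw [← hsum]
        exact PAR_mul_sum p hp ho j
      rw [← hq2 j, mul_assoc, h2]
    rw [mul_sub, h1, PAR_mul_sum q hq1 hqo j, sub_self]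
  have hab : ∀ j i i', a j i * b i' = 0 := by
    intro j i i'
    have h1 : (e - ∑ j, q j) * b i' = b i' := (hb1 i').mul_swap hR (hbR i')
    rw [← haq j i, ← h1, mul_assoc, ← mul_assoc (q j), hqR j, zero_mul, mul_zero]
  have hr1 : ∀ x, IsProj (r' x) := by
    rintro (⟨j, i⟩ | i)
    · exact ha1 j i
    · exact hb1 i
  have hr2 : ∀ x, tau (r' x) = c := by
    rintro (⟨j, i⟩ | i)
    · exact ha2 j i
    · exact hb2 i
  have hr3 : ∀ x y, x ≠ y → r' x * r' y = 0 := by
    rintro (⟨j, i⟩ | i) (⟨j', i'⟩ | i') hxy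
    · change a j i * a j' i' = 0
      rcases eq_or_ne j j' with rfl | hj
      · apply ha3
        rintro rfl
        exact hxy rfl
      · have h1 : q j' * a j' i' = a j' i' := (ha1 j' i').mul_swap (hq1 j') (haq j' i')
        rw [← haq j i, ← h1, mul_assoc, ← mul_assoc (q j), hqo j j' hj, zero_mul, mul_zero]
    · exact hab j i i'
    · exact (ha1 j' i').mul_zero_swap (hb1 i) (hab j' i' i)
    · apply hb3
      rintro rfl
      exact hxy rfl
  have hr4 : ∑ x, r' x = e := by
    rw [Fintype.sum_sum_type, Fintype.sum_sigma]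
    change (∑ j, ∑ i, a j i) + ∑ i, b i = e
    rw [hb4]
    have h1 : ∑ j, ∑ i, a j i = ∑ j, q j := Finset.sum_congr rfl fun j _ => ha4 j
    rw [h1]
    abel
  refine ⟨fun i => r' (E i), fun i => f' (E i), fun i => hr1 _, fun i j hij => hr3 _ _ ?_, ?_, ?_, ?_, ?_⟩
  · exact fun h => hij (E.injective h)
  · rw [Equiv.sum_comp E r', hr4]
  · intro i
    rw [hr2, hc]
  · intro i j hij
    change r' (E i) * p j = r' (E i)
    have hij' : f' (E i) = some j := hij
    rcases hE : E i with ⟨j', i'⟩ | i'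
    · rw [hE] at hij'
      have h1 : some j' = some j := hij'
      obtain rfl := Option.some.inj h1
      change a j' i' * p j' = a j' i'
      rw [← haq j' i', mul_assoc, hq2 j']
    · rw [hE] at hij'
      cases hij'
  · have h1 : (Finset.univ.filter fun i => f' (E i) = none).card = m := by
      rw [← Fintype.card_fin m]
      have h2 : (Finset.univ.filter fun i => f' (E i) = none) =
          Finset.univ.image fun x : Fin m => E.symm (Sum.inr x) := by
        ext i
        simp only [Finset.mem_filter, Finset.mem_univ, true_and, Finset.mem_image]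
        constructor
        · intro h
          rcases hE : E i with x | x
          · rw [hE] at h
            cases h
          · exact ⟨x, by rw [← hE, Equiv.symm_apply_apply]⟩
        · rintro ⟨x, rfl⟩
          rw [Equiv.apply_symm_apply]
          rfl
      rw [h2, Finset.card_image_of_injective _ (fun x y h => Sum.inr_injective (E.symm.injective h)),
        Finset.card_univ]
    rw [h1]
    have h2 : (m : ℝ) * c ≤ J * c := by
      have h3 : (m : ℝ) * c = ∑ j : Fin J, (tau (p j) - k j * c) := by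
        rw [Finset.sum_sub_distrib, htsum, ← hnc, ← hmR, ← Finset.sum_mul]
        ring
      rw [h3]
      calc ∑ j : Fin J, (tau (p j) - k j * c) ≤ ∑ _j : Fin J, c :=
            Finset.sum_le_sum fun j _ => by linarith [hk2 j]
        _ = J * c := by simp
    have h3 := le_of_mul_le_mul_right h2 hc0
    exact_mod_cast h3

end ND

end SCO
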