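import Pool.Agent.Work.MP_52dd0f_nd.Interface2

/-! # Block PRE: products of exponentials, second order -/

set_option autoImplicit false
set_option linter.unusedSectionVars false

namespace SCO

open Filter Topology

universe u

namespace ND

section

variable {P : Type u} [CStarAlgebra P]

theorem PRE_term (x : P) (n : ℕ) :
    ‖((n.factorial : ℂ)⁻¹) • x ^ n‖ ≤ ((n.factorial : ℝ)⁻¹) • ‖x‖ ^ n := by
  rw [norm_smul, norm_inv, Complex.norm_natCast, smul_eq_mul]
  refine mul_le_mul_of_nonneg_left ?_ (by positivity)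
  rcases Nat.eq_zero_or_pos n with h0 | h0
  · subst h0
    simp only [pow_zero]
    rcases subsingleton_or_nontrivial P with hP | hP
    · rw [Subsingleton.elim (1 : P) 0, norm_zero]; norm_num
    · exact le_of_eq CStarRing.norm_one
  · exact norm_pow_le' x h0

theorem PRE_norm (x : P) : ‖NormedSpace.exp x‖ ≤ Real.exp ‖x‖ := by
  have h1 := NormedSpace.exp_series_hasSum_exp' (𝕂 := ℂ) x
  have h2 := NormedSpace.exp_series_hasSum_exp' (𝕂 := ℝ) ‖x‖
  rw [← Real.exp_eq_exp_ℝ] at h2
  rw [← h1.tsum_eq]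
  exact tsum_of_norm_bounded h2 (PRE_term x)

theorem PRE_norm2 (x : P) : ‖NormedSpace.exp x - 1 - x‖ ≤ Real.exp ‖x‖ - 1 - ‖x‖ := by
  have h1 := (hasSum_nat_add_iff' 2).2 (NormedSpace.exp_series_hasSum_exp' (𝕂 := ℂ) x)
  have h2 := (hasSum_nat_add_iff' 2).2 (NormedSpace.exp_series_hasSum_exp' (𝕂 := ℝ) ‖x‖)
  rw [← Real.exp_eq_exp_ℝ] at h2
  have e1 : NormedSpace.exp x - ∑ i ∈ Finset.range 2, ((i.factorial : ℂ)⁻¹) • x ^ i =
      NormedSpace.exp x - 1 - x := by
    simp [Finset.sum_range_succ, sub_sub]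
  have e2 : Real.exp ‖x‖ - ∑ i ∈ Finset.range 2, ((i.factorial : ℝ)⁻¹) • ‖x‖ ^ i =
      Real.exp ‖x‖ - 1 - ‖x‖ := by
    simp [Finset.sum_range_succ, sub_sub]
  rw [e1] at h1
  rw [e2] at h2
  rw [← h1.tsum_eq]
  exact tsum_of_norm_bounded h2 fun n => PRE_term x (n + 2)

theorem PRE_main : ∀ (n : ℕ) (a : Fin n → P),
    ‖(List.ofFn (fun j => NormedSpace.exp (a j))).prod - 1 - ∑ j, a j‖ ≤
      Real.exp (∑ j, ‖a j‖) - 1 - ∑ j, ‖a j‖ := by
  intro n
  induction n with
  | zero => intro a; simp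
  | succ n ih =>
    intro a
    have hI := ih (fun j => a j.succ)
    rw [List.ofFn_succ, List.prod_cons, Fin.sum_univ_succ, Fin.sum_univ_succ]
    set E := (List.ofFn (fun j : Fin n => NormedSpace.exp (a j.succ))).prod with hE
    set A := ∑ j : Fin n, a j.succ with hA
    set s := ∑ j : Fin n, ‖a j.succ‖ with hs
    set r := ‖a 0‖ with hr
    have hAs : ‖A‖ ≤ s := norm_sum_le _ _
    have h0 := PRE_norm (a 0)
    have h2 := PRE_norm2 (a 0)
    have e : NormedSpace.exp (a 0) * E - 1 - (a 0 + A) =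
        NormedSpace.exp (a 0) * (E - 1 - A) + (NormedSpace.exp (a 0) - 1 - a 0) * (1 + A) +
          a 0 * A := by
      noncomm_ring
    have h1 : ‖(1 : P)‖ ≤ 1 := by
      rcases subsingleton_or_nontrivial P with hP | hP
      · rw [Subsingleton.elim (1 : P) 0, norm_zero]; norm_num
      · exact le_of_eq CStarRing.norm_one
    have hs0 : 0 ≤ s := Finset.sum_nonneg fun _ _ => norm_nonneg _
    have hr0 : 0 ≤ r := norm_nonneg _
    have hes : 0 ≤ Real.exp s - 1 - s := by linarith [Real.add_one_le_exp s]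
    have her : 0 ≤ Real.exp r - 1 - r := by linarith [Real.add_one_le_exp r]
    calc ‖NormedSpace.exp (a 0) * E - 1 - (a 0 + A)‖
        ≤ ‖NormedSpace.exp (a 0) * (E - 1 - A)‖ +
            ‖(NormedSpace.exp (a 0) - 1 - a 0) * (1 + A)‖ + ‖a 0 * A‖ := by
          rw [e]; exact norm_add₃_le
      _ ≤ Real.exp r * (Real.exp s - 1 - s) + (Real.exp r - 1 - r) * (1 + s) + r * s := by
          refine add_le_add (add_le_add ?_ ?_) ?_
          · exact (norm_mul_le _ _).trans (mul_le_mul h0 hI (norm_nonneg _) (Real.exp_pos _).le)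
          · refine (norm_mul_le _ _).trans (mul_le_mul h2 ?_ (norm_nonneg _) her)
            exact (norm_add_le _ _).trans (add_le_add h1 hAs)
          · exact (norm_mul_le _ _).trans (mul_le_mul le_rfl hAs (norm_nonneg _) hr0)
      _ = Real.exp (r + s) - 1 - (r + s) := by
          rw [Real.exp_add]; ring

end

theorem p_PRE : Stmt_PRE.{u} := by
  intro P _ n a hs
  refine (PRE_main n a).trans ?_
  have hs0 : 0 ≤ ∑ j, ‖a j‖ := Finset.sum_nonneg fun _ _ => norm_nonneg _
  have h := Real.norm_exp_sub_one_sub_id_le (x := ∑ j, ‖a j‖)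
    (by rw [Real.norm_of_nonneg hs0]; exact hs)
  rw [Real.norm_of_nonneg hs0] at h
  exact (le_abs_self _).trans h

end ND

end SCO
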