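import Pool.Agent.Work.MP_52dd0f_nd.Interface2

/-!
# Block RRD: rearrangement with bounded partial sums
-/

set_option autoImplicit false

namespace SCO

namespace ND

theorem RRD_aux {α : Type} [DecidableEq α] (x : α → ℝ) (B : ℝ) (m : ℕ) :
    ∀ (l : List α) (s : ℝ), l.length = m → (∀ a ∈ l, |x a| ≤ B) → |s| ≤ B →
      s + (l.map x).sum = 0 →
      ∃ l' : List α, l'.Perm l ∧ ∀ k : ℕ, |s + ((l'.take k).map x).sum| ≤ B := by
  induction m with
  | zero =>
    intro l s hl _ hs _
    rw [List.length_eq_zero_iff] at hl
    subst hl
    exact ⟨[], List.Perm.refl _, fun k => by simpa using hs⟩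
  | succ m ih =>
    intro l s hl hx hs h0
    have hne : l ≠ [] := by
      rintro rfl
      simp at hl
    -- choice of the next term
    have key : ∃ a ∈ l, |s + x a| ≤ B := by
      have hs' := abs_le.1 hs
      rcases le_or_gt 0 s with h | h
      · have : ∃ a ∈ l, x a ≤ 0 := by
          by_contra hc
          push Not at hc
          have h1 : 0 < (l.map x).sum := by
            apply List.sum_pos
            · intro y hy
              obtain ⟨a, ha, rfl⟩ := List.mem_map.1 hy
              exact hc a ha
            · simpa using hne
          linarith
        obtain ⟨a, ha, h2⟩ := this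
        have h3 := abs_le.1 (hx a ha)
        exact ⟨a, ha, abs_le.2 ⟨by linarith [h3.1], by linarith [hs'.2]⟩⟩
      · have : ∃ a ∈ l, 0 ≤ x a := by
          by_contra hc
          push Not at hc
          have h1 : 0 < (l.map fun a => - x a).sum := by
            apply List.sum_pos
            · intro y hy
              obtain ⟨a, ha, rfl⟩ := List.mem_map.1 hy
              exact neg_pos.2 (hc a ha)
            · simpa using hne
          have h2 : (l.map fun a => - x a).sum = - (l.map x).sum := by
            clear * -
            induction l with
            | nil => simp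
            | cons a l ih => simp only [List.map_cons, List.sum_cons, ih]; ring
          linarith
        obtain ⟨a, ha, h2⟩ := this
        have h3 := abs_le.1 (hx a ha)
        exact ⟨a, ha, abs_le.2 ⟨by linarith [hs'.1], by linarith [h3.2]⟩⟩
    obtain ⟨a, ha, h1⟩ := key
    have hp : l.Perm (a :: l.erase a) := List.perm_cons_erase ha
    have hlen : (l.erase a).length = m := by
      rw [List.length_erase_of_mem ha, hl]
      rfl
    have hsum : (s + x a) + ((l.erase a).map x).sum = 0 := by
      have h2 := (hp.map x).sum_eq
      rw [List.map_cons, List.sum_cons] at h2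
      rw [h2] at h0
      linarith
    obtain ⟨l', hl', hk⟩ := ih (l.erase a) (s + x a) hlen
      (fun b hb => hx b (List.mem_of_mem_erase hb)) h1 hsum
    refine ⟨a :: l', (hl'.cons a).trans hp.symm, fun k => ?_⟩
    cases k with
    | zero => simpa using hs
    | succ k =>
      have := hk k
      rw [List.take_succ_cons, List.map_cons, List.sum_cons, ← add_assoc]
      exact this

theorem p_RRD : Stmt_RRD := by
  intro n x B hB hx h0
  obtain ⟨l, hl, hk⟩ := RRD_aux x B n (List.finRange n) 0 (by simp) (fun a _ => hx a)
    (by simpa using hB) (by
      rw [zero_add, ← h0, ← List.sum_ofFn, List.ofFn_eq_map])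
  have hlen : l.length = n := by rw [hl.length_eq]; simp
  have hnd : l.Nodup := hl.nodup_iff.2 (List.nodup_finRange n)
  let f : Fin n → Fin n := fun i => l.get (i.cast hlen.symm)
  have hf : Function.Injective f := by
    intro i j hij
    have h1 := hnd.injective_get hij
    exact Fin.cast_injective _ h1
  let σ : Equiv.Perm (Fin n) := Equiv.ofBijective f (Finite.injective_iff_bijective.1 hf)
  refine ⟨σ, fun k => ?_⟩
  have h1 := hk k
  rw [zero_add, List.map_take] at h1
  have h2 : l.map x = List.ofFn fun i : Fin n => x (σ i) := by
    apply List.ext_getElem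
    · simp [hlen]
    · intro i h3 h4
      simp only [List.getElem_map, List.getElem_ofFn]
      rfl
  rw [h2, List.sum_take_ofFn] at h1
  exact h1

end ND

end SCO
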