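import Pool.Agent.Work.MP_52dd0f_nd.Interface2

set_option autoImplicit false
set_option linter.unusedSectionVars false

namespace SCO

open Filter Topology

universe u

namespace ND

theorem SAO_unit {M : Type u} [CStarAlgebra M] (a : M) (ha : IsSelfAdjoint a) (hn : ‖a‖ ≤ 1) :
    ∃ k : M, IsSelfAdjoint k ∧ a * k = k * a ∧ a * a + k * k = 1 ∧
      ∀ y, a * y = y * a → k * y = y * k := by
  have hcom : ∀ y, a * y = y * a → cfc (fun x : ℝ => √(1 - x ^ 2)) a * y =
      y * cfc (fun x : ℝ => √(1 - x ^ 2)) a := fun y hy =>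
    (ha.commute_cfc (show Commute a y from hy) (fun x : ℝ => √(1 - x ^ 2))).eq
  refine ⟨cfc (fun x : ℝ => √(1 - x ^ 2)) a, cfc_predicate _ _, (hcom a rfl).symm, ?_, hcom⟩
  have h1 : cfc (fun x : ℝ => √(1 - x ^ 2)) a * cfc (fun x : ℝ => √(1 - x ^ 2)) a =
      cfc (fun x : ℝ => 1 - x ^ 2) a := by
    rw [← cfc_mul (fun x : ℝ => √(1 - x ^ 2)) (fun x : ℝ => √(1 - x ^ 2)) a
      (by fun_prop) (by fun_prop)]
    apply cfc_congr
    intro x hx
    have hx1 : ‖x‖ ≤ ‖a‖ * ‖(1 : M)‖ := spectrum.norm_le_norm_mul_of_mem hx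
    have hone : ‖(1 : M)‖ ≤ 1 := by
      rcases subsingleton_or_nontrivial M with hM | hM
      · rw [Subsingleton.elim (1 : M) 0, norm_zero]; exact zero_le_one
      · rw [CStarRing.norm_one]
    have hx2 : |x| ≤ 1 := by
      rw [← Real.norm_eq_abs]
      calc ‖x‖ ≤ ‖a‖ * ‖(1 : M)‖ := hx1
        _ ≤ 1 * 1 := mul_le_mul hn hone (norm_nonneg _) zero_le_one
        _ = 1 := one_mul 1
    have hx3 : (0 : ℝ) ≤ 1 - x ^ 2 := by
      have := (sq_le_one_iff_abs_le_one x).2 hx2
      linarith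
    exact Real.mul_self_sqrt hx3
  have h2 : cfc (fun x : ℝ => 1 - x ^ 2) a = 1 - a * a := by
    rw [cfc_sub (fun _ : ℝ => (1 : ℝ)) (fun x : ℝ => x ^ 2) a (by fun_prop) (by fun_prop),
      cfc_const_one ℝ a, cfc_pow (fun x : ℝ => x) 2 a (by fun_prop), cfc_id' ℝ a, sq]
  rw [h1, h2]
  abel

theorem p_SAO (hDEC : Stmt_DEC.{u}) : Stmt_SAO.{u} := by
  intro M _ _ h hh hn ε hε
  obtain ⟨k, hk, hak, hsq, hcomm⟩ := SAO_unit h hh hn
  have hsv : star (h + Complex.I • k) = h - Complex.I • k := by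
    rw [star_add, star_smul, hh.star_eq, hk.star_eq]
    have : star Complex.I = -Complex.I := Complex.conj_I
    rw [this, neg_smul, sub_eq_add_neg]
  have hII : Complex.I • Complex.I • (k * k) = -(k * k) := by
    rw [smul_smul, Complex.I_mul_I, neg_one_smul]
  have hv1 : star (h + Complex.I • k) * (h + Complex.I • k) = 1 := by
    rw [hsv, sub_mul, mul_add, mul_add, smul_mul_assoc, smul_mul_assoc, mul_smul_comm,
      mul_smul_comm, hII, hak, ← hsq]
    abel
  have hv2 : (h + Complex.I • k) * star (h + Complex.I • k) = 1 := by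
    rw [hsv, add_mul, mul_sub, mul_sub, smul_mul_assoc, smul_mul_assoc, mul_smul_comm,
      mul_smul_comm, hII, hak, ← hsq]
    abel
  obtain ⟨J, lam, Ψ, hlam, _, H⟩ := hDEC ε hε
  obtain ⟨p, hp, _⟩ := H M (h + Complex.I • k) hv1 hv2
  refine ⟨J, fun j => (lam j).re, p, fun j => ?_, hp.proj, hp.orth, hp.sum, ?_, ?_⟩
  · exact (Complex.abs_re_le_norm (lam j)).trans (hlam j).le
  · intro j y hy
    have hky := hcomm y hy
    refine hp.comm y ?_ ?_ j
    · rw [add_mul, mul_add, smul_mul_assoc, mul_smul_comm, hy, hky]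
    · rw [hsv, sub_mul, mul_sub, smul_mul_assoc, mul_smul_comm, hy, hky]
  · have hpsa : ∀ j, star (p j) = p j := fun j => (hp.proj j).star
    have hkey : h - ∑ j, (((lam j).re : ℝ) : ℂ) • p j =
        ((1 / 2 : ℝ) : ℂ) • ((h + Complex.I • k - ∑ j, lam j • p j) +
          star (h + Complex.I • k - ∑ j, lam j • p j)) := by
      rw [star_sub, hsv, star_sum]
      have e1 : ∀ j, star (lam j • p j) = (starRingEnd ℂ (lam j)) • p j := fun j => by
        rw [star_smul, hpsa j]; rfl
      simp_rw [e1]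
      have e2 : (h + Complex.I • k - ∑ j, lam j • p j) +
          (h - Complex.I • k - ∑ j, (starRingEnd ℂ (lam j)) • p j) =
          (2 : ℂ) • h - ∑ j, (lam j + starRingEnd ℂ (lam j)) • p j := by
        simp_rw [add_smul, Finset.sum_add_distrib]
        rw [two_smul]
        abel
      rw [e2, smul_sub, Finset.smul_sum, smul_smul]
      congr 1
      · have : ((1 / 2 : ℝ) : ℂ) * 2 = 1 := by push_cast; ring
        rw [this, one_smul]
      · refine Finset.sum_congr rfl fun j _ => ?_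
        rw [smul_smul]
        congr 1
        rw [Complex.add_conj]
        push_cast
        ring
    have hkey2 : h - ∑ j, (((fun j => (lam j).re) j : ℝ) : ℂ) • p j =
        ((1 / 2 : ℝ) : ℂ) • ((h + Complex.I • k - ∑ j, lam j • p j) +
          star (h + Complex.I • k - ∑ j, lam j • p j)) := hkey
    rw [hkey2, norm_smul, Complex.norm_real, Real.norm_eq_abs, abs_of_pos one_half_pos]
    have h3 : ‖(h + Complex.I • k - ∑ j, lam j • p j) +
        star (h + Complex.I • k - ∑ j, lam j • p j)‖ ≤ ε + ε := by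
      refine (norm_add_le _ _).trans ?_
      rw [norm_star]
      exact add_le_add hp.near hp.near
    linarith

end ND

end SCO
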