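import Pool.Agent.Work.MP_52dd0f_nd.Interface2

/-! # THEOREM ND+, block STR: every self-adjoint contraction is a bounded sum of good directions -/

set_option autoImplicit false
set_option linter.unusedSectionVars false

namespace SCO

open Filter Topology

universe u

namespace ND

theorem STR_rel {P : Type u} [CStarAlgebra P] {c : Fin 2 → Fin 2 → P} (hc : MU 1 c) :
    c 0 1 * c 1 0 = c 0 0 ∧ c 1 0 * c 0 1 = c 1 1 ∧ c 0 0 * c 0 0 = c 0 0 ∧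
    c 0 0 * c 0 1 = c 0 1 ∧ c 1 0 * c 0 0 = c 1 0 ∧ c 0 0 + c 1 1 = 1 := by
  refine ⟨?_, ?_, ?_, ?_, ?_, ?_⟩
  · have := hc.mul 0 1 1 0
    simpa using this
  · have := hc.mul 1 0 0 1
    simpa using this
  · have := hc.mul 0 0 0 0
    simpa using this
  · have := hc.mul 0 0 0 1
    simpa using this
  · have := hc.mul 1 0 0 0
    simpa using this
  · have := hc.sum
    rwa [Fin.sum_univ_two] at this

theorem STR_norm {P : Type u} [CStarAlgebra P] {c : Fin 2 → Fin 2 → P} (hc : MU 1 c) :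
    ‖c 0 0‖ ≤ 1 ∧ ‖c 0 1‖ ≤ 1 ∧ ‖c 1 0‖ ≤ 1 := by
  obtain ⟨h1, h2, h3, h4, h5, h6⟩ := STR_rel hc
  have h0 : ‖c 0 0‖ ≤ 1 := by
    have h := CStarRing.norm_star_mul_self (x := c 0 0)
    rw [hc.star 0 0, h3] at h
    by_contra hcon
    push Not at hcon
    nlinarith [norm_nonneg (c 0 0)]
  have h10 : ‖c 1 0‖ ≤ 1 := by
    have h := CStarRing.norm_star_mul_self (x := c 1 0)
    rw [hc.star 1 0, h1] at h
    nlinarith [norm_nonneg (c 1 0)]
  refine ⟨h0, ?_, h10⟩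
  have := hc.star 1 0
  rw [← this, norm_star]
  exact h10

theorem STR_tr {P : Type u} [CStarAlgebra P] [TVN P] {c : Fin 2 → Fin 2 → P} (hc : MU 1 c) :
    tr (c 0 0) = 1 / 2 := by
  obtain ⟨h1, h2, h3, h4, h5, h6⟩ := STR_rel hc
  have e1 : tr (c 0 0) = tr (c 1 1) := by rw [← h1, ← h2, tr_comm]
  have e2 : tr (c 0 0) + tr (c 1 1) = 1 := by rw [← map_add, h6, tr_one]
  rw [← e1] at e2
  linear_combination (1 / 2) * e2

theorem STR_real (t : ℝ) : IsSelfAdjoint (t : ℂ) := by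
  rw [isSelfAdjoint_iff, RCLike.star_def]
  exact Complex.conj_ofReal _

/-- The self-adjoint element `x` of the corner is a multiple of the unit plus an element of
trace zero. -/
theorem STR_split {P : Type u} [CStarAlgebra P] [TVN P] {c : Fin 2 → Fin 2 → P} (hc : MU 1 c)
    (x : P) (hx : IsSelfAdjoint x) (h1 : c 0 0 * x = x) (h2 : x * c 0 0 = x) (hn : ‖x‖ ≤ 1) :
    ∃ (t : ℝ) (T : P), |t| ≤ 2 ∧ x = (t : ℂ) • c 0 0 + (3 : ℂ) • T ∧ IsSelfAdjoint T ∧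
      c 0 0 * T = T ∧ T * c 0 0 = T ∧ tr T = 0 ∧ ‖T‖ ≤ 1 := by
  obtain ⟨r1, r2, r3, r4, r5, r6⟩ := STR_rel hc
  have him : (((tr x).re : ℝ) : ℂ) = tr x := by
    have h := tr_star x
    rw [hx.star_eq] at h
    exact Complex.conj_eq_iff_re.1 h.symm
  have ht : |2 * (tr x).re| ≤ 2 := by
    have h3 := norm_tr_le_norm x
    have h4 := Complex.abs_re_le_norm (tr x)
    rw [abs_mul, abs_two]
    linarith
  refine ⟨2 * (tr x).re, (1 / 3 : ℂ) • (x - ((2 * (tr x).re : ℝ) : ℂ) • c 0 0), ht, ?_, ?_, ?_,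
    ?_, ?_, ?_⟩
  · rw [smul_smul]
    norm_num
  · refine IsSelfAdjoint.smul ?_ (hx.sub (IsSelfAdjoint.smul (STR_real _) (hc.star 0 0)))
    have := STR_real (1 / 3)
    push_cast at this
    exact this
  · rw [mul_smul_comm, mul_sub, h1, mul_smul_comm, r3]
  · rw [smul_mul_assoc, sub_mul, h2, smul_mul_assoc, r3]
  · rw [map_smul, map_sub, map_smul, STR_tr hc, smul_eq_mul, smul_eq_mul]
    push_cast
    rw [him]
    ring
  · rw [norm_smul]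
    have e1 : ‖(1 / 3 : ℂ)‖ = 1 / 3 := by norm_num
    have e2 : ‖x - ((2 * (tr x).re : ℝ) : ℂ) • c 0 0‖ ≤ 3 := by
      refine (norm_sub_le _ _).trans ?_
      rw [norm_smul, Complex.norm_real, Real.norm_eq_abs]
      have := (STR_norm hc).1
      have h5 : |2 * (tr x).re| * ‖c 0 0‖ ≤ 2 * 1 :=
        mul_le_mul ht this (norm_nonneg _) (by norm_num)
      linarith
    rw [e1]
    linarith

theorem p_STR (hGSP : Stmt_GSP.{u}) (hIDN : Stmt_IDN.{u}) : Stmt_STR.{u} := by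
  intro Q _ _ c hc w hU m H1 H2 H3 H4
  obtain ⟨g0, gm, ga, gs, gd, gc⟩ := hGSP Q (am (n := 1) c w) hU
  obtain ⟨r1, r2, r3, r4, r5, r6⟩ := STR_rel hc
  obtain ⟨n0, n01, n10⟩ := STR_norm hc
  obtain ⟨U, hUd⟩ : ∃ U, U = am (n := 1) c w := ⟨_, rfl⟩
  rw [← hUd] at g0 gm ga gs gd gc H1 H2 H3 ⊢
  -- trace zero
  have HT : ∀ T : Q, IsSelfAdjoint T → c 0 0 * T = T → T * c 0 0 = T → tr T = 0 → ‖T‖ ≤ 1 →
      Gs U (m * (2 + 1)) T := by
    intro T h1 h2 h3 h4 h5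
    obtain ⟨y, s, hy, hy1, hy2, hy3, hs1, hs2, hT⟩ := H4 T h1 h2 h3 h4 h5
    have h6 := H3 ((1 / 2 : ℂ) • y) s (by
      refine IsSelfAdjoint.smul ?_ hy
      have := STR_real (1 / 2)
      push_cast at this
      exact this) (by rw [mul_smul_comm, hy1]) (by rw [smul_mul_assoc, hy2]) (by
      rw [norm_smul]
      have : ‖(1 / 2 : ℂ)‖ = 1 / 2 := by norm_num
      rw [this]
      linarith) hs1 hs2
    have h7 := gs m 2 2 _ (by norm_num) h6
    have e : (((2 : ℝ) : ℂ)) • ((1 / 2 : ℂ) • y - s * ((1 / 2 : ℂ) • y) * star s) = T := by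
      rw [hT, mul_smul_comm, smul_mul_assoc, ← smul_sub, smul_smul]
      norm_num
    rwa [e] at h7
  have HT3 : ∀ T : Q, IsSelfAdjoint T → c 0 0 * T = T → T * c 0 0 = T → tr T = 0 → ‖T‖ ≤ 1 →
      Gs U (m * (2 + 1) * (3 + 1)) ((3 : ℂ) • T) := by
    intro T h1 h2 h3 h4 h5
    have := gs _ 3 3 _ (by norm_num) (HT T h1 h2 h3 h4 h5)
    simpa using this
  have HL3 : ∀ T : Q, IsSelfAdjoint T → c 0 0 * T = T → T * c 0 0 = T → tr T = 0 → ‖T‖ ≤ 1 →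
      Gs U (m * (2 + 1) * (3 + 1) + m * (3 + 1)) (c 1 0 * ((3 : ℂ) • T) * c 0 1) := by
    intro T h1 h2 h3 h4 h5
    have h6 := HT3 T h1 h2 h3 h4 h5
    have h7 := gs m 3 (-3) _ (by rw [abs_neg]; norm_num) (H2 T h1 h2 h3 h5)
    have h8 := ga _ _ _ _ h6 h7
    have e : (3 : ℂ) • T + (((-3 : ℝ) : ℂ)) • (T - c 1 0 * T * c 0 1) =
        c 1 0 * ((3 : ℂ) • T) * c 0 1 := by
      rw [mul_smul_comm, smul_mul_assoc]
      push_cast
      rw [neg_smul, smul_sub]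
      abel
    rwa [e] at h8
  have HE : Gs U m (c 0 0 - c 1 1) := by
    have h := H2 (c 0 0) (hc.star 0 0) r3 r3 n0
    rwa [r5, r2] at h
  have HO : Gs U 1 (1 : Q) := by
    refine gc 1 (IsSelfAdjoint.one _) (by rw [one_mul, mul_one]) ?_
    rcases subsingleton_or_nontrivial Q with hP | hP
    · rw [Subsingleton.elim (1 : Q) 0, norm_zero]
      exact zero_le_one
    · rw [CStarRing.norm_one]
  have HD : ∀ s t : ℝ, |s| ≤ 2 → |t| ≤ 2 →
      Gs U (1 * (2 + 1) + m * (2 + 1)) ((s : ℂ) • c 0 0 + (t : ℂ) • c 1 1) := by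
    intro s t hs ht
    have h1 := gs 1 2 ((s + t) / 2) _ (by
      rw [abs_le] at hs ht ⊢
      push_cast
      constructor <;> linarith [hs.1, hs.2, ht.1, ht.2]) HO
    have h2 := gs m 2 ((s - t) / 2) _ (by
      rw [abs_le] at hs ht ⊢
      push_cast
      constructor <;> linarith [hs.1, hs.2, ht.1, ht.2]) HE
    have h3 := ga _ _ _ _ h1 h2
    have e : (((s + t) / 2 : ℝ) : ℂ) • (1 : Q) + (((s - t) / 2 : ℝ) : ℂ) • (c 0 0 - c 1 1) =
        (s : ℂ) • c 0 0 + (t : ℂ) • c 1 1 := by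
      rw [← r6]
      push_cast
      module
    rwa [e] at h3
  refine ⟨1 * (2 + 1) + m * (2 + 1) + m * (2 + 1) * (3 + 1) +
    (m * (2 + 1) * (3 + 1) + m * (3 + 1) + m), fun h hh hn => ?_⟩
  have hx1 : IsSelfAdjoint (c 0 0 * h * c 0 0) := by
    rw [isSelfAdjoint_iff, star_mul, star_mul, hc.star 0 0, hh.star_eq, mul_assoc]
  have hy1 : IsSelfAdjoint (c 0 1 * h * c 1 0) := by
    rw [isSelfAdjoint_iff, star_mul, star_mul, hc.star 0 1, hc.star 1 0, hh.star_eq, mul_assoc]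
  have hnn : ∀ a b : Q, ‖a‖ ≤ 1 → ‖b‖ ≤ 1 → ‖a * h * b‖ ≤ 1 := by
    intro a b ha hb
    calc ‖a * h * b‖ ≤ ‖a * h‖ * ‖b‖ := norm_mul_le _ _
      _ ≤ (‖a‖ * ‖h‖) * ‖b‖ := mul_le_mul_of_nonneg_right (norm_mul_le _ _) (norm_nonneg _)
      _ ≤ (1 * 1) * 1 := by gcongr
      _ = 1 := by norm_num
  obtain ⟨s, T, hs, hxT, T1, T2, T3, T4, T5⟩ := STR_split hc _ hx1
    (by rw [← mul_assoc, ← mul_assoc, r3]) (by rw [mul_assoc, r3]) (hnn _ _ n0 n0)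
  obtain ⟨t, S, ht, hyS, S1, S2, S3, S4, S5⟩ := STR_split hc _ hy1
    (by rw [← mul_assoc, ← mul_assoc, r4]) (by rw [mul_assoc, r5]) (hnn _ _ n01 n10)
  have h1 := H1 (c 0 0 * h * c 1 0) (by rw [← mul_assoc, ← mul_assoc, r3])
    (by rw [mul_assoc, r5]) (hnn _ _ n0 n10)
  have h2 := ga _ _ _ _ (ga _ _ _ _ (HD s t hs ht) (HT3 T T1 T2 T3 T4 T5))
    (ga _ _ _ _ (HL3 S S1 S2 S3 S4 S5) h1)
  have e : (s : ℂ) • c 0 0 + (t : ℂ) • c 1 1 + (3 : ℂ) • T + (c 1 0 * ((3 : ℂ) • S) * c 0 1 +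
      off c (c 0 0 * h * c 1 0)) = h := by
    have h3 := (hIDN Q c hc).2.2 h hh
    have h4 : c 1 0 * (c 0 1 * h * c 1 0) * c 0 1 =
        (t : ℂ) • c 1 1 + c 1 0 * ((3 : ℂ) • S) * c 0 1 := by
      rw [hyS, mul_add, add_mul, mul_smul_comm, smul_mul_assoc, r5, r2]
    calc (s : ℂ) • c 0 0 + (t : ℂ) • c 1 1 + (3 : ℂ) • T + (c 1 0 * ((3 : ℂ) • S) * c 0 1 +
        off c (c 0 0 * h * c 1 0)) = ((s : ℂ) • c 0 0 + (3 : ℂ) • T) +
          ((t : ℂ) • c 1 1 + c 1 0 * ((3 : ℂ) • S) * c 0 1) + off c (c 0 0 * h * c 1 0) := by abel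
      _ = c 0 0 * h * c 0 0 + c 1 0 * (c 0 1 * h * c 1 0) * c 0 1 +
          off c (c 0 0 * h * c 1 0) := by rw [← hxT, ← h4]
      _ = h := h3.symm
  rw [e] at h2
  exact h2

end ND

end SCO
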