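import Pool.Agent.Work.MP_52dd0f_nd.Interface2

set_option autoImplicit false
set_option linter.unusedSectionVars false

namespace SCO

open Filter Topology

universe u

namespace ND

theorem TRA_sumproj {M : Type u} [CStarAlgebra M] [TrC M] {n : ℕ} (r : Fin n → M)
    (hr : ∀ i, IsProj (r i)) (ho : ∀ i j, i ≠ j → r i * r j = 0) (S : Finset (Fin n)) :
    IsProj (∑ i ∈ S, r i) := by
  classical
  induction S using Finset.induction_on with
  | empty => rw [Finset.sum_empty]; exact IsProj.zero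
  | insert a S ha ih =>
    rw [Finset.sum_insert ha]
    refine (hr a).add ih ?_
    rw [Finset.mul_sum]
    exact Finset.sum_eq_zero fun i hi => ho a i fun h => ha (h ▸ hi)

/-- the coefficient of the piece -/
def TRA_c {J : ℕ} (θ : Fin J → ℝ) : Option (Fin J) → ℝ
  | some j => θ j
  | none => 0

theorem p_TRA (hSAO : Stmt_SAO.{u}) (hPAR : Stmt_PAR.{u}) (hCSH : Stmt_CSH.{u}) :
    Stmt_TRA.{u} := by
  intro M _ _ _ e T he hTs heT hTe htr hT1 ε hε
  by_cases he0 : e = 0
  · have hT0 : T = 0 := by rw [← heT, he0, zero_mul]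
    refine ⟨0, 0, IsSelfAdjoint.zero _, by simp, by simp, by simp, by simp [he0], by simp [he0], ?_⟩
    rw [hT0]
    simp [hε.le]
  set t : ℝ := tau e with ht
  have ht0 : 0 < t := he.tau_pos he0
  have ht1 : t ≤ 1 := he.tau_le_one
  set η : ℝ := min (ε / (2 * (1 + 1 / t))) 1 with hη
  have hη0 : 0 < η := lt_min (by positivity) one_pos
  have hη1 : η ≤ 1 := min_le_right _ _
  have hηε : 2 * η * (1 + 1 / t) ≤ ε := by
    have h1 : η ≤ ε / (2 * (1 + 1 / t)) := min_le_left _ _
    have h2 : 0 < 2 * (1 + 1 / t) := by positivity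
    rw [le_div_iff₀ h2] at h1
    linarith
  obtain ⟨J, θ, p, hθ, hp, hpo, hps, hpc, hnear⟩ := hSAO M T hTs hT1 η hη0
  have hec : ∀ j, e * p j = p j * e := fun j => hpc j e (by rw [hTe, heT])
  -- the projections under `e`
  have hp' : ∀ j, IsProj (p j * e) := by
    intro j
    constructor
    · calc p j * e * (p j * e) = p j * (e * p j) * e := by noncomm_ring
        _ = (p j * p j) * (e * e) := by rw [hec j]; noncomm_ring
        _ = _ := by rw [(hp j).mul, he.mul]
    · rw [star_mul, (hp j).star, he.star, hec j]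
  have hpo' : ∀ i j, i ≠ j → p i * e * (p j * e) = 0 := by
    intro i j hij
    calc p i * e * (p j * e) = p i * (e * p j) * e := by noncomm_ring
      _ = (p i * p j) * (e * e) := by rw [hec j]; noncomm_ring
      _ = 0 := by rw [hpo i j hij, zero_mul]
  have hps' : ∑ j, p j * e = e := by rw [← Finset.sum_mul, hps, one_mul]
  set T₂ : M := ∑ j, ((θ j : ℝ) : ℂ) • (p j * e) with hT₂
  have hT₂' : T₂ = (∑ j, ((θ j : ℝ) : ℂ) • p j) * e := by
    rw [hT₂, Finset.sum_mul]
    exact Finset.sum_congr rfl fun j _ => by rw [smul_mul_assoc]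
  have hTT₂ : ‖T - T₂‖ ≤ η := by
    have h1 : T - T₂ = (T - ∑ j, ((θ j : ℝ) : ℂ) • p j) * e := by rw [sub_mul, hTe, hT₂']
    rw [h1]
    calc _ ≤ ‖T - ∑ j, ((θ j : ℝ) : ℂ) • p j‖ * ‖e‖ := norm_mul_le _ _
      _ ≤ η * 1 := mul_le_mul hnear he.norm_le (norm_nonneg _) hη0.le
      _ = η := mul_one _
  have hT₂n : ‖T₂‖ ≤ 2 := by
    have h1 : T₂ = T - (T - T₂) := by abel
    rw [h1]
    have := norm_sub_le T (T - T₂)
    linarith
  -- the partition
  obtain ⟨n, hn⟩ := exists_nat_ge (4 * (J : ℝ) / η ^ 2 + 1)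
  have hJ0 : (0 : ℝ) ≤ 4 * (J : ℝ) / η ^ 2 := by positivity
  have hnr : (0 : ℝ) < n := by linarith
  have hn0 : 0 < n := by exact_mod_cast hnr
  have hJn : 4 * ((J : ℝ) / n) ≤ η ^ 2 := by
    have h1 : 4 * (J : ℝ) / η ^ 2 ≤ n := by linarith
    rw [div_le_iff₀ (by positivity)] at h1
    rw [← mul_div_assoc, div_le_iff₀ hnr]
    linarith
  obtain ⟨r, f, hr, hro, hrs, hrt, hrf, hcard⟩ := hPAR M e he he0 J (fun j => p j * e) hp' hpo' hps' n hn0
  set θ' : Fin n → ℝ := fun i => TRA_c θ (f i) with hθ'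
  have hθ'1 : ∀ i, |θ' i| ≤ 1 := by
    intro i
    show |TRA_c θ (f i)| ≤ 1
    cases f i with
    | none => simp [TRA_c]
    | some j => exact hθ j
  set T₁ : M := ∑ i, ((θ' i : ℝ) : ℂ) • r i with hT₁
  set R : M := ∑ i ∈ Finset.univ.filter (fun i => f i = none), r i with hR
  have hRp : IsProj R := TRA_sumproj r hr hro _
  have hRt : tau R ≤ (J : ℝ) / n := by
    rw [hR, tau_sum, Finset.sum_congr rfl (fun i _ => hrt i), Finset.sum_const, nsmul_eq_mul]
    have h1 : ((Finset.univ.filter (fun i => f i = none)).card : ℝ) ≤ J := by exact_mod_cast hcard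
    calc ((Finset.univ.filter (fun i => f i = none)).card : ℝ) * (t / n) ≤ J * (1 / n) :=
          mul_le_mul h1 (div_le_div_of_nonneg_right ht1 hnr.le) (by positivity) (by positivity)
      _ = (J : ℝ) / n := by ring
  have hRn : 2 * n2 R ≤ η := by
    have h1 : n2 R ^ 2 ≤ (J : ℝ) / n := by rw [← hRp.tau_eq]; exact hRt
    have h2 := n2_nonneg R
    by_contra hlt
    push Not at hlt
    nlinarith
  have hT₂₁ : T₂ - T₁ = T₂ * R := by
    have h1 : T₂ = ∑ i, T₂ * r i := by
      rw [← Finset.mul_sum, hrs, hT₂', mul_assoc, he.mul]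
    have h2 : ∀ i, T₂ * r i - ((θ' i : ℝ) : ℂ) • r i = if f i = none then T₂ * r i else 0 := by
      intro i
      by_cases hf : f i = none
      · rw [if_pos hf]
        have : θ' i = 0 := by
          show TRA_c θ (f i) = 0
          rw [hf]; rfl
        rw [this]
        simp
      · rw [if_neg hf]
        obtain ⟨j, hj⟩ := Option.ne_none_iff_exists'.1 hf
        have h3 : θ' i = θ j := by
          show TRA_c θ (f i) = θ j
          rw [hj]; rfl
        have h4 : p j * e * r i = r i := (hr i).mul_swap (hp' j) (hrf i j hj)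
        have h5 : T₂ * r i = ((θ j : ℝ) : ℂ) • r i := by
          rw [hT₂, Finset.sum_mul, Finset.sum_eq_single j]
          · rw [smul_mul_assoc, h4]
          · intro l _ hl
            rw [smul_mul_assoc, ← h4, ← mul_assoc, hpo' l j hl, zero_mul, smul_zero]
          · intro h; exact absurd (Finset.mem_univ j) h
        rw [h5, h3, sub_self]
    calc T₂ - T₁ = ∑ i, (T₂ * r i - ((θ' i : ℝ) : ℂ) • r i) := by
          rw [Finset.sum_sub_distrib, ← h1]
      _ = ∑ i, if f i = none then T₂ * r i else 0 := Finset.sum_congr rfl fun i _ => h2 i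
      _ = T₂ * R := by rw [← Finset.sum_filter, hR, Finset.mul_sum]
  have hT₂₁n : n2 (T₂ - T₁) ≤ η := by
    rw [hT₂₁]
    refine (n2_mul_le_left _ _).trans ?_
    refine le_trans (mul_le_mul_of_nonneg_right hT₂n (n2_nonneg _)) hRn
  have hTT₁ : n2 (T - T₁) ≤ 2 * η := by
    have h1 := n2_triangle T T₂ T₁
    have h2 := n2_le_norm (T - T₂)
    linarith
  -- the mean
  set θ₀ : ℝ := (∑ i, θ' i) / n with hθ₀
  have htrT₁ : tr T₁ = ((θ₀ * t : ℝ) : ℂ) := by
    rw [hT₁, map_sum]
    have h1 : ∀ i, tr (((θ' i : ℝ) : ℂ) • r i) = ((θ' i * (t / n) : ℝ) : ℂ) := by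
      intro i
      rw [map_smul, smul_eq_mul, (hr i).tr_eq, hrt i, Complex.ofReal_mul]
    rw [Finset.sum_congr rfl fun i _ => h1 i, ← Complex.ofReal_sum, ← Finset.sum_mul, hθ₀]
    congr 1
    field_simp
  have hθ₀t : |θ₀| * t ≤ 2 * η := by
    have h1 : ‖tr (T - T₁)‖ ≤ 2 * η := (norm_tr_le _).trans hTT₁
    rw [map_sub, htr, zero_sub, norm_neg, htrT₁, Complex.norm_real, Real.norm_eq_abs, abs_mul,
      abs_of_pos ht0] at h1
    exact h1
  have hθ₀1 : |θ₀| ≤ 1 := by
    rw [hθ₀, abs_div, abs_of_pos hnr, div_le_iff₀ hnr]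
    refine (Finset.abs_sum_le_sum_abs _ _).trans ?_
    refine (Finset.sum_le_sum fun i _ => hθ'1 i).trans (le_of_eq ?_)
    simp
  obtain ⟨y, s, hy, hey, hye, hyn, hs1, hs2, hys⟩ := hCSH M e n r (fun i => θ' i - θ₀) hr hro hrs
    (fun i j => by rw [hrt i, hrt j])
    (fun i => by
      have := abs_sub (θ' i) θ₀
      have h2 := hθ'1 i
      show |θ' i - θ₀| ≤ 2
      calc |θ' i - θ₀| ≤ |θ' i| + |θ₀| := abs_sub _ _
        _ ≤ 2 := by linarith)
    (by
      rw [Finset.sum_sub_distrib, Finset.sum_const, Finset.card_univ, Fintype.card_fin,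
        nsmul_eq_mul, hθ₀]
      field_simp
      ring)
  refine ⟨y, s, hy, hey, hye, hyn, hs1, hs2, ?_⟩
  have hys' : y - s * y * star s = T₁ - ((θ₀ : ℝ) : ℂ) • e := by
    rw [hys, hT₁, ← hrs, Finset.smul_sum, ← Finset.sum_sub_distrib]
    refine Finset.sum_congr rfl fun i _ => ?_
    rw [Complex.ofReal_sub, sub_smul]
  have hfin : T - (y - s * y * star s) = (T - T₁) + ((θ₀ : ℝ) : ℂ) • e := by
    rw [hys']; abel
  rw [hfin]
  have h1 := n2_add_le (T - T₁) (((θ₀ : ℝ) : ℂ) • e)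
  rw [n2_smul, Complex.norm_real, Real.norm_eq_abs] at h1
  have h2 : n2 e ≤ 1 := (n2_le_norm e).trans he.norm_le
  have h3 : |θ₀| * n2 e ≤ |θ₀| := by
    have := mul_le_mul_of_nonneg_left h2 (abs_nonneg θ₀)
    linarith
  have h4 : |θ₀| ≤ 2 * η / t := by rwa [le_div_iff₀ ht0]
  have h5 : 2 * η * (1 + 1 / t) = 2 * η + 2 * η / t := by ring
  linarith

end ND

end SCO
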