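import Pool.Agent.Work.MP_52dd0f_nd.Interface2

set_option autoImplicit false
set_option linter.unusedSectionVars false

namespace SCO

open Filter Topology

universe u

namespace ND

/-- the six functions of the saturation argument -/
noncomputable def TRX_F {M : Type u} [CStarAlgebra M] (E T : Sq M) (j : Fin 6)
    (x : Fin 2 → Sq M) : Sq M :=
  match j with
  | 0 => star (x 0) - x 0
  | 1 => E * x 0 - x 0
  | 2 => x 0 * E - x 0
  | 3 => star (x 1) * x 1 - E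
  | 4 => x 1 * star (x 1) - E
  | 5 => T - ((x 0 + x 0) - x 1 * (x 0 + x 0) * star (x 1))

theorem TRX_loc {M : Type u} [CStarAlgebra M] (E T : Sq M) (j : Fin 6) : Loc (TRX_F E T j) := by
  intro x y k h
  have h0 := h 0
  have h1 := h 1
  match j with
  | 0 =>
    show (star (x 0) - x 0 : Sq M).ev k = (star (y 0) - y 0 : Sq M).ev k
    simp only [Sq.ev_sub, Sq.ev_star, h0]
  | 1 =>
    show (E * x 0 - x 0 : Sq M).ev k = (E * y 0 - y 0 : Sq M).ev k
    simp only [Sq.ev_sub, Sq.ev_mul, h0]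
  | 2 =>
    show (x 0 * E - x 0 : Sq M).ev k = (y 0 * E - y 0 : Sq M).ev k
    simp only [Sq.ev_sub, Sq.ev_mul, h0]
  | 3 =>
    show (star (x 1) * x 1 - E : Sq M).ev k = (star (y 1) * y 1 - E : Sq M).ev k
    simp only [Sq.ev_sub, Sq.ev_mul, Sq.ev_star, h1]
  | 4 =>
    show (x 1 * star (x 1) - E : Sq M).ev k = (y 1 * star (y 1) - E : Sq M).ev k
    simp only [Sq.ev_sub, Sq.ev_mul, Sq.ev_star, h1]
  | 5 =>
    show (T - ((x 0 + x 0) - x 1 * (x 0 + x 0) * star (x 1)) : Sq M).ev k =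
      (T - ((y 0 + y 0) - y 1 * (y 0 + y 0) * star (y 1)) : Sq M).ev k
    simp only [Sq.ev_sub, Sq.ev_mul, Sq.ev_star, Sq.ev_add, h0, h1]

theorem p_TRX (hFAC : Stmt_FAC.{u}) (hSAT : Stmt_SAT.{u}) (hTRA : Stmt_TRA.{u}) :
    Stmt_TRX.{u} := by
  intro M _ _ _ 𝒰 hU e T he hT heT hTe htr hn
  haveI : FactorII (UP M 𝒰) := hFAC M 𝒰
  obtain ⟨E, -, hE⟩ := exists_lift_UP 𝒰 e
  obtain ⟨Tl, -, hTl⟩ := exists_lift_UP 𝒰 T
  obtain ⟨x, hxn, hx⟩ := hSAT M 𝒰 (Fin 2) (Fin 6) (TRX_F E Tl) (TRX_loc E Tl) (by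
    intro ε hε
    obtain ⟨y, s, hy, hey, hye, hyn, hs1, hs2, hTs⟩ :=
      hTRA (UP M 𝒰) e T he hT heT hTe htr hn ε hε
    obtain ⟨a, ha1, ha2⟩ := exists_lift_UP 𝒰 (((1 / 2 : ℝ) : ℂ) • y)
    obtain ⟨b, hb1, hb2⟩ := exists_lift_UP 𝒰 s
    have hsn : ‖s‖ ≤ 1 := by
      refine pi_norm_le (v := s) ?_
      rw [mul_assoc, hs1]
      exact pi_mul_src he hs1
    have haa : toUP 𝒰 a + toUP 𝒰 a = y := by
      rw [ha2, ← add_smul]
      have : ((1 / 2 : ℝ) : ℂ) + ((1 / 2 : ℝ) : ℂ) = 1 := by push_cast; ring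
      rw [this, one_smul]
    refine ⟨![a, b], fun i => ?_, fun j => ?_⟩
    · match i with
      | 0 =>
        refine ha1.trans ?_
        rw [norm_smul, Complex.norm_real, Real.norm_of_nonneg (by norm_num)]
        linarith
      | 1 => exact hb1.trans hsn
    · match j with
      | 0 =>
        show n2 (toUP 𝒰 (star a - a)) ≤ ε
        have : star (((1 / 2 : ℝ) : ℂ) • y) = ((1 / 2 : ℝ) : ℂ) • y := by
          rw [star_smul, hy.star_eq]
          congr 1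
          exact Complex.conj_ofReal _
        rw [map_sub, map_star, ha2, this, sub_self, n2_zero]
        exact hε.le
      | 1 =>
        show n2 (toUP 𝒰 (E * a - a)) ≤ ε
        rw [map_sub, map_mul, hE, ha2, mul_smul_comm, hey, sub_self, n2_zero]
        exact hε.le
      | 2 =>
        show n2 (toUP 𝒰 (a * E - a)) ≤ ε
        rw [map_sub, map_mul, hE, ha2, smul_mul_assoc, hye, sub_self, n2_zero]
        exact hε.le
      | 3 =>
        show n2 (toUP 𝒰 (star b * b - E)) ≤ ε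
        rw [map_sub, map_mul, map_star, hb2, hE, hs1, sub_self, n2_zero]
        exact hε.le
      | 4 =>
        show n2 (toUP 𝒰 (b * star b - E)) ≤ ε
        rw [map_sub, map_mul, map_star, hb2, hE, hs2, sub_self, n2_zero]
        exact hε.le
      | 5 =>
        show n2 (toUP 𝒰 (Tl - ((a + a) - b * (a + a) * star b))) ≤ ε
        rw [map_sub, map_sub, map_mul, map_mul, map_add, map_star, haa, hb2, hTl]
        exact hTs)
  have e0 : star (toUP 𝒰 (x 0)) = toUP 𝒰 (x 0) := by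
    have h' : toUP 𝒰 (star (x 0) - x 0) = 0 := hx 0
    rw [map_sub, map_star] at h'
    exact sub_eq_zero.1 h'
  have e1 : e * toUP 𝒰 (x 0) = toUP 𝒰 (x 0) := by
    have h' : toUP 𝒰 (E * x 0 - x 0) = 0 := hx 1
    rw [map_sub, map_mul, hE] at h'
    exact sub_eq_zero.1 h'
  have e2 : toUP 𝒰 (x 0) * e = toUP 𝒰 (x 0) := by
    have h' : toUP 𝒰 (x 0 * E - x 0) = 0 := hx 2
    rw [map_sub, map_mul, hE] at h'
    exact sub_eq_zero.1 h'
  have e3 : star (toUP 𝒰 (x 1)) * toUP 𝒰 (x 1) = e := by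
    have h' : toUP 𝒰 (star (x 1) * x 1 - E) = 0 := hx 3
    rw [map_sub, map_mul, map_star, hE] at h'
    exact sub_eq_zero.1 h'
  have e4 : toUP 𝒰 (x 1) * star (toUP 𝒰 (x 1)) = e := by
    have h' : toUP 𝒰 (x 1 * star (x 1) - E) = 0 := hx 4
    rw [map_sub, map_mul, map_star, hE] at h'
    exact sub_eq_zero.1 h'
  have e5 : T = (toUP 𝒰 (x 0) + toUP 𝒰 (x 0)) -
      toUP 𝒰 (x 1) * (toUP 𝒰 (x 0) + toUP 𝒰 (x 0)) * star (toUP 𝒰 (x 1)) := by
    have h' : toUP 𝒰 (Tl - ((x 0 + x 0) - x 1 * (x 0 + x 0) * star (x 1))) = 0 := hx 5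
    rw [map_sub, map_sub, map_mul, map_mul, map_add, map_star, hTl] at h'
    exact sub_eq_zero.1 h'
  refine ⟨toUP 𝒰 (x 0) + toUP 𝒰 (x 0), toUP 𝒰 (x 1), ?_, ?_, ?_, ?_, e3, e4, e5⟩
  · rw [IsSelfAdjoint, star_add, e0]
  · rw [mul_add, e1]
  · rw [add_mul, e2]
  · have h1 : ‖toUP 𝒰 (x 0)‖ ≤ 1 := by
      rw [UP.norm_def]
      exact (norm_rep_le 𝒰 (x 0)).trans (hxn 0)
    exact (norm_add_le _ _).trans (by linarith)

end ND

end SCO
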