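import Pool.Agent.Work.MP_52dd0f_nd.Interface2

/-!
# Block UNI (MP_52dd0f_an, THEOREM ND+): uniform span (typed by helper88)
-/

set_option autoImplicit false
set_option linter.unusedSectionVars false

namespace SCO

open Filter Topology

universe u

namespace ND

section

variable {P : Type u} [CStarAlgebra P] [TVN P]

theorem UNI_mk (hGJN : Stmt_GJN.{u}) (p u : P) (hp : IsProj p) (hu : IsHaarIn p u) (k l m : ℕ)
    (hk : k ≤ m) (hl : l ≤ m) (z : Fin k → ℂ) (g : Fin k → P) (hz : ∀ j, ‖z j‖ ≤ m)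
    (hg : ∀ j, GpN p u l (g j)) : Sm p u m (∑ j, z j • g j) := by
  obtain ⟨-, -, -, h4, -, -, h7, -, -⟩ := hGJN P p hp
  have hpp : GpN p u m p := by
    refine h4 m u p hu ?_ ?_ ?_
    · rw [hp.star, hp.mul]
    · rw [hp.star, hp.mul]
    · rw [hu.mul_left hp, hu.mul_right hp]
  refine ⟨fun j => if h : (j : ℕ) < k then z ⟨j, h⟩ else 0,
    fun j => if h : (j : ℕ) < k then g ⟨j, h⟩ else p, ?_, ?_⟩
  · intro j
    by_cases h : (j : ℕ) < k
    · simp only [dif_pos h]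
      exact ⟨hz _, ⟨(hg _).src, (hg _).rng, h7 l m _ _ hl (hg _).jn⟩⟩
    · simp only [dif_neg h]
      exact ⟨by simp, hpp⟩
  · obtain ⟨F, hF⟩ : ∃ F : ℕ → P, F = fun j => if h : j < k then z ⟨j, h⟩ • g ⟨j, h⟩ else 0 :=
      ⟨_, rfl⟩
    have e1 : ∑ j : Fin k, z j • g j = ∑ j ∈ Finset.range k, F j := by
      rw [← Fin.sum_univ_eq_sum_range]
      apply Finset.sum_congr rfl
      intro j _
      rw [hF]
      simp only [dif_pos j.2]
    have e2 : ∑ j : Fin m, (if h : (j : ℕ) < k then z ⟨j, h⟩ else 0) •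
        (if h : (j : ℕ) < k then g ⟨j, h⟩ else p) = ∑ j ∈ Finset.range m, F j := by
      rw [← Fin.sum_univ_eq_sum_range]
      apply Finset.sum_congr rfl
      intro j _
      rw [hF]
      by_cases h : (j : ℕ) < k
      · simp only [dif_pos h]
      · simp only [dif_neg h, zero_smul]
    rw [e1, e2]
    apply Finset.sum_subset
    · intro x hx
      rw [Finset.mem_range] at hx ⊢
      omega
    · intro x _ hx
      rw [Finset.mem_range] at hx
      rw [hF]
      simp only [dif_neg hx]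

theorem UNI_add (hGJN : Stmt_GJN.{u}) (p u : P) (hp : IsProj p) (hu : IsHaarIn p u) (m m' : ℕ)
    (x y : P) (hx : Sm p u m x) (hy : Sm p u m' y) : Sm p u (m + m') (x + y) := by
  obtain ⟨z, g, h, rfl⟩ := hx
  obtain ⟨z', g', h', rfl⟩ := hy
  obtain ⟨-, -, -, -, -, -, h7, -, -⟩ := hGJN P p hp
  have c0 : (0 : ℝ) ≤ m := Nat.cast_nonneg _
  have c0' : (0 : ℝ) ≤ m' := Nat.cast_nonneg _
  have := UNI_mk hGJN p u hp hu (m + m') (m + m') (m + m') le_rfl le_rfl (Fin.append z z')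
    (Fin.append g g') ?_ ?_
  · rw [Fin.sum_univ_add] at this
    simpa only [Fin.append_left, Fin.append_right] using this
  · intro j
    push_cast
    refine Fin.addCases (fun i => ?_) (fun i => ?_) j
    · rw [Fin.append_left]
      have := (h i).1
      linarith
    · rw [Fin.append_right]
      have := (h' i).1
      linarith
  · intro j
    refine Fin.addCases (fun i => ?_) (fun i => ?_) j
    · rw [Fin.append_left]
      exact ⟨(h i).2.src, (h i).2.rng, h7 m (m + m') _ _ (by omega) (h i).2.jn⟩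
    · rw [Fin.append_right]
      exact ⟨(h' i).2.src, (h' i).2.rng, h7 m' (m + m') _ _ (by omega) (h' i).2.jn⟩

theorem UNI_smul (hGJN : Stmt_GJN.{u}) (p u : P) (hp : IsProj p) (hu : IsHaarIn p u) (m T : ℕ)
    (x : P) (c : ℂ) (hc : ‖c‖ ≤ T) (hx : Sm p u m x) : Sm p u (m * (T + 1)) (c • x) := by
  obtain ⟨z, g, h, rfl⟩ := hx
  rw [Finset.smul_sum]
  have e : ∑ j, c • z j • g j = ∑ j, (c * z j) • g j :=
    Finset.sum_congr rfl fun j _ => by rw [smul_smul]
  rw [e]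
  have hm : m ≤ m * (T + 1) := Nat.le_mul_of_pos_right _ (by omega)
  apply UNI_mk hGJN p u hp hu m m (m * (T + 1)) hm hm
  · intro j
    rw [norm_mul]
    push_cast
    have c0 : (0 : ℝ) ≤ m := Nat.cast_nonneg _
    have cT : (0 : ℝ) ≤ T := Nat.cast_nonneg _
    calc ‖c‖ * ‖z j‖ ≤ T * m := mul_le_mul hc (h j).1 (norm_nonneg _) cT
      _ ≤ m * (T + 1) := by nlinarith
  · intro j
    exact (h j).2

theorem UNI_span (hGJN : Stmt_GJN.{u}) (p u : P) (hp : IsProj p) (hu : IsHaarIn p u) (x : P)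
    (hx : x ∈ Submodule.span ℂ {g : P | Gp p u g}) : ∃ m, Sm p u m x := by
  induction hx using Submodule.span_induction with
  | mem g hg =>
    obtain ⟨n, hn⟩ := (hGJN P p hp).2.2.2.2.2.2.2.1 u _ hu hg.jn
    refine ⟨n + 1, ?_⟩
    have := UNI_mk hGJN p u hp hu 1 n (n + 1) (by omega) (by omega) (fun _ => 1) (fun _ => g) ?_
      (fun _ => ⟨hg.src, hg.rng, hn⟩)
    · simpa using this
    · intro _
      simp
  | zero => exact ⟨0, fun j => j.elim0, fun j => j.elim0, fun j => j.elim0, by simp⟩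
  | add x y _ _ hx hy =>
    obtain ⟨m, hm⟩ := hx
    obtain ⟨m', hm'⟩ := hy
    exact ⟨m + m', UNI_add hGJN p u hp hu m m' x y hm hm'⟩
  | smul c x _ hx =>
    obtain ⟨m, hm⟩ := hx
    exact ⟨m * (⌈‖c‖⌉₊ + 1), UNI_smul hGJN p u hp hu m _ x c (Nat.le_ceil _) hm⟩

end

theorem p_UNI (hGJN : Stmt_GJN.{u}) (hBAI : Stmt_BAI.{u}) : Stmt_UNI.{u} := by
  intro P _ _ p u hp hu hcl hspan
  obtain ⟨m, x₀, r, hx₀, hpx, hxp, hr, H⟩ := hBAI P p hp (fun m => {x | Sm p u m x}) hcl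
    (fun x _ h1 h2 => UNI_span hGJN p u hp hu x (hspan x h1 h2))
  obtain ⟨s, hs⟩ : ∃ s : ℝ, s = min r 1 / 3 := ⟨_, rfl⟩
  have hmin : 0 < min r 1 := lt_min hr one_pos
  have hs0 : 0 < s := by rw [hs]; positivity
  have hs1 : s ≤ 1 / 3 := by
    rw [hs]; have := min_le_right r 1; linarith
  have hsr : 2 * s < r := by
    rw [hs]; have := min_le_left r 1; linarith
  obtain ⟨T, hT⟩ := exists_nat_ge (s⁻¹)
  refine ⟨m * (T + 1) + m * (T + 1), ?_⟩
  intro x h1 h2 hx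
  have hn0 := n2_le_norm x₀
  have hn := n2_le_norm x
  obtain ⟨b, hb⟩ : ∃ b : P, b = ((1 - s : ℝ) : ℂ) • x₀ := ⟨_, rfl⟩
  obtain ⟨a, ha⟩ : ∃ a : P, a = b + ((s : ℝ) : ℂ) • x := ⟨_, rfl⟩
  have hs0' : 0 ≤ 1 - s := by linarith
  have hbn : ‖b‖ ≤ 1 - s := by
    rw [hb, norm_smul, Complex.norm_real, Real.norm_eq_abs, abs_of_nonneg hs0']
    nlinarith [norm_nonneg x₀]
  have hsx : ‖((s : ℝ) : ℂ) • x‖ ≤ s := by
    rw [norm_smul, Complex.norm_real, Real.norm_eq_abs, abs_of_pos hs0]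
    nlinarith [norm_nonneg x]
  have hpb : p * b = b := by rw [hb, mul_smul_comm, hpx]
  have hbp : b * p = b := by rw [hb, smul_mul_assoc, hxp]
  have hB : Sm p u m b := by
    apply H b (hbn.trans (by linarith)) hpb hbp
    have e : b - x₀ = ((-s : ℝ) : ℂ) • x₀ := by
      rw [hb]; push_cast; module
    rw [e, n2_smul, Complex.norm_real, Real.norm_eq_abs, abs_neg, abs_of_pos hs0]
    nlinarith [n2_nonneg x₀]
  have hA : Sm p u m a := by
    apply H a
    · rw [ha]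
      exact (norm_add_le _ _).trans (by linarith)
    · rw [ha, mul_add, mul_smul_comm, h1, hpb]
    · rw [ha, add_mul, smul_mul_assoc, h2, hbp]
    · have e : a - x₀ = ((s : ℝ) : ℂ) • x - ((s : ℝ) : ℂ) • x₀ := by
        rw [ha, hb]; push_cast; module
      rw [e]
      refine (n2_sub_le _ _).trans_lt ?_
      rw [n2_smul, n2_smul, Complex.norm_real, Real.norm_eq_abs, abs_of_pos hs0]
      nlinarith [n2_nonneg x₀, n2_nonneg x]
  have hsi : ‖((s⁻¹ : ℝ) : ℂ)‖ ≤ T := by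
    rw [Complex.norm_real, Real.norm_eq_abs, abs_of_pos (inv_pos.2 hs0)]
    exact hT
  have hsi' : ‖((-s⁻¹ : ℝ) : ℂ)‖ ≤ T := by
    rw [Complex.norm_real, Real.norm_eq_abs, abs_neg, abs_of_pos (inv_pos.2 hs0)]
    exact hT
  have e : x = ((s⁻¹ : ℝ) : ℂ) • a + ((-s⁻¹ : ℝ) : ℂ) • b := by
    rw [ha, smul_add, smul_smul, ← Complex.ofReal_mul, inv_mul_cancel₀ hs0.ne']
    push_cast
    module
  rw [e]
  exact UNI_add hGJN p u hp hu _ _ _ _ (UNI_smul hGJN p u hp hu m T a _ hsi hA)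
    (UNI_smul hGJN p u hp hu m T b _ hsi' hB)

end ND

end SCO
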