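import Pool.Agent.Work.MP_52dd0f_nd.Skel2
import Pool.Agent.Work.MP_52dd0f_nd.All
import Pool.Agent.Work.MP_52dd0f_nd.B_BAI
import Pool.Agent.Work.MP_52dd0f_nd.B_CLS
import Pool.Agent.Work.MP_52dd0f_nd.B_CON
import Pool.Agent.Work.MP_52dd0f_nd.B_CSH
import Pool.Agent.Work.MP_52dd0f_nd.B_DMG
import Pool.Agent.Work.MP_52dd0f_nd.B_DNR
import Pool.Agent.Work.MP_52dd0f_nd.B_EXB
import Pool.Agent.Work.MP_52dd0f_nd.B_GJD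
import Pool.Agent.Work.MP_52dd0f_nd.B_GJN
import Pool.Agent.Work.MP_52dd0f_nd.B_GSP
import Pool.Agent.Work.MP_52dd0f_nd.B_GYS
import Pool.Agent.Work.MP_52dd0f_nd.B_LFR
import Pool.Agent.Work.MP_52dd0f_nd.B_NIT
import Pool.Agent.Work.MP_52dd0f_nd.B_NST
import Pool.Agent.Work.MP_52dd0f_nd.B_OFG
import Pool.Agent.Work.MP_52dd0f_nd.B_PAR
import Pool.Agent.Work.MP_52dd0f_nd.B_PRE
import Pool.Agent.Work.MP_52dd0f_nd.B_QAL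
import Pool.Agent.Work.MP_52dd0f_nd.B_RRD
import Pool.Agent.Work.MP_52dd0f_nd.B_SAO
import Pool.Agent.Work.MP_52dd0f_nd.B_STR
import Pool.Agent.Work.MP_52dd0f_nd.B_TRA
import Pool.Agent.Work.MP_52dd0f_nd.B_TRX
import Pool.Agent.Work.MP_52dd0f_nd.B_UNI

/-!
# THEOREM ND+, MP_52dd0f_an: all blocks
-/

set_option autoImplicit false

namespace SCO

open Filter Topology

universe u

namespace ND

theorem a_BAI : Stmt_BAI.{u} := p_BAI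

theorem a_CLS : Stmt_CLS.{u} := p_CLS a_SAT

theorem a_GJN : Stmt_GJN.{u} := p_GJN

theorem a_CON : Stmt_CON.{u} := p_CON a_GJN

theorem a_RRD : Stmt_RRD := p_RRD

theorem a_CSH : Stmt_CSH.{u} := p_CSH a_RRD a_NMX

theorem a_GSP : Stmt_GSP.{u} := p_GSP a_GJN

theorem a_DMG : Stmt_DMG.{u} := p_DMG a_GJN a_AMP a_GSP

theorem a_EXB : Stmt_EXB.{u} := p_EXB a_NMX a_DEC

theorem a_DNR : Stmt_DNR.{u} := p_DNR a_GJN a_EXB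

theorem a_GJD : Stmt_GJD.{u} := p_GJD

theorem a_GYS : Stmt_GYS.{u} := p_GYS a_GJN a_GJD a_GSP

theorem a_LFR : Stmt_LFR.{u} := p_LFR

theorem a_NIT : Stmt_NIT.{u} := p_NIT a_GJN

theorem a_PRE : Stmt_PRE.{u} := p_PRE

theorem a_NST : Stmt_NST.{u} := p_NST a_GJN a_PRE

theorem a_OFG : Stmt_OFG.{u} := p_OFG a_GJN a_GJD a_AMP

theorem a_PAR : Stmt_PAR.{u} := p_PAR

theorem a_UNI : Stmt_UNI.{u} := p_UNI a_GJN a_BAI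

theorem a_SAO : Stmt_SAO.{u} := p_SAO a_DEC

theorem a_TRA : Stmt_TRA.{u} := p_TRA a_SAO a_PAR a_CSH

theorem a_TRX : Stmt_TRX.{u} := p_TRX a_FAC a_SAT a_TRA

theorem a_STR : Stmt_STR.{u} := p_STR a_GSP a_IDN

theorem a_QAL : Stmt_QAL.{u} := p_QAL a_FAC a_SAA a_SAB a_SAC a_UNX a_AMP a_CNC a_GJN a_CLS a_UNI a_GSP a_OFG a_DMG a_GYS a_TRX a_STR a_NST a_NIT a_DNR a_CON

/-- THEOREM ND+ -/
theorem main_rate {N M M' : Type u} [CStarAlgebra N] [CStarAlgebra M] [CStarAlgebra M'] {τ : N →ₗ[ℂ] ℂ}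
    {σ : M →ₗ[ℂ] ℂ} {σ' : M' →ₗ[ℂ] ℂ} {𝒰 : Ultrafilter ℕ} (h𝒰 : ∀ k : ℕ, 𝒰 ≠ pure k) (hN : IsII₁Factor N τ)
    (hM : IsII₁Factor M σ) (hM' : IsII₁Factor M' σ') {t s : ℝ} (h : IsAmplification N τ M t)
    (h' : IsAmplification N τ M' s) (hone : numOrbits 𝒰 σ' = 1) : ∃ C : ℕ, ∀ u v : ℕ → M, IsHaarU 𝒰 σ u →
      IsHaarU 𝒰 σ v → ∀ n : ℕ,
      ∃ w : ℕ → ℕ → M, w 0 = u ∧ (∀ k, ‖w (C * (n + 1)) k - v k‖ ≤ (1 / 2 : ℝ) ^ (2 ^ n)) ∧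
        ∀ i < C * (n + 1), Step 𝒰 σ (w i) (w (i + 1)) :=
  main_rate_of a_HSP a_QAL a_LFR a_COR h𝒰 hN hM hM' h h' hone

end ND

end SCO
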