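import Pool.Agent.Work.MP_52dd0f_nd.InterfaceE

set_option autoImplicit false
set_option linter.unusedSectionVars false

/-! # THEOREM ND*, block ENB: products of elementary matrices (helper78) -/

namespace SCO

open Filter Topology

universe u

namespace ND

section

variable {P : Type u} [CStarAlgebra P]

/-- an elementary matrix with entry of norm at most `η` -/
def ENB_el (c : Fin 2 → Fin 2 → P) (η : ℝ) (t : P) : Prop :=
  ∃ x : P, c 0 0 * x = x ∧ x * c 0 0 = x ∧ ‖x‖ ≤ η ∧ (t = 1 + x * c 0 1 ∨ t = 1 + c 1 0 * x)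

theorem ENB_app {c : Fin 2 → Fin 2 → P} {K K' : ℕ} {η : ℝ} {y y' : P} (h : EN c K η y)
    (h' : EN c K' η y') : EN c (K + K') η (y * y') := by
  obtain ⟨l, h1, h2, h3⟩ := h
  obtain ⟨l', h1', h2', h3'⟩ := h'
  refine ⟨l ++ l', by rw [List.length_append, h1, h1'], fun t ht => ?_, by
    rw [List.prod_append, h3, h3']⟩
  rcases List.mem_append.1 ht with ht | ht
  · exact h2 t ht
  · exact h2' t ht

theorem ENB_one {c : Fin 2 → Fin 2 → P} {η : ℝ} {t : P} (h : ENB_el c η t) : EN c 1 η t :=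
  ⟨[t], rfl, fun s hs => by rw [List.mem_singleton.1 hs]; exact h, List.prod_singleton⟩

theorem ENB_nil (c : Fin 2 → Fin 2 → P) (η : ℝ) : EN c 0 η (1 : P) :=
  ⟨[], rfl, fun s hs => absurd hs List.not_mem_nil, List.prod_nil⟩

/-- induction -/
theorem ENB_ind {c : Fin 2 → Fin 2 → P} {η : ℝ} (p : ℕ → P → Prop) (h0 : p 0 1)
    (hs : ∀ K y t, ENB_el c η t → p K y → p (K + 1) (t * y)) :
    ∀ K y, EN c K η y → p K y := by
  rintro K y ⟨l, h1, h2, h3⟩
  subst h1 h3
  induction l with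
  | nil => exact h0
  | cons t l ih =>
    rw [List.prod_cons, List.length_cons]
    exact hs _ _ _ (h2 t List.mem_cons_self) (ih fun s hs' => h2 s (List.mem_cons_of_mem t hs'))

theorem ENB_nilp (y : P) (h : y * y = 0) : Iv (1 + y) (1 + -y) := by
  constructor
  · have e1 : (1 + y) * (1 + -y) = 1 - y * y := by noncomm_ring
    rw [e1, h, sub_zero]
  · have e1 : (1 + -y) * (1 + y) = 1 - y * y := by noncomm_ring
    rw [e1, h, sub_zero]

theorem ENB_inv {c : Fin 2 → Fin 2 → P} (hc : MU 1 c) {η : ℝ} {t : P} (h : ENB_el c η t) :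
    ∃ t', Iv t t' ∧ ENB_el c η t' := by
  have m : ∀ i j l m, c i j * c l m = if j = l then c i m else 0 := hc.mul
  have hae : c 0 1 * c 0 0 = 0 := by rw [m]; simp
  have heb : c 0 0 * c 1 0 = 0 := by rw [m]; simp
  obtain ⟨x, hx, hx', hn, h | h⟩ := h
  · subst h
    refine ⟨1 + (-x) * c 0 1, ?_, ⟨-x, ?_, ?_, by rwa [norm_neg], Or.inl rfl⟩⟩
    · rw [neg_mul]
      apply ENB_nilp
      have h0 : c 0 1 * x = 0 := by rw [← hx, ← mul_assoc, hae, zero_mul]
      rw [mul_assoc, ← mul_assoc (c 0 1) x, h0, zero_mul, mul_zero]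
    · rw [mul_neg, hx]
    · rw [neg_mul, hx']
  · subst h
    refine ⟨1 + c 1 0 * (-x), ?_, ⟨-x, ?_, ?_, by rwa [norm_neg], Or.inr rfl⟩⟩
    · rw [mul_neg]
      apply ENB_nilp
      have h0 : x * c 1 0 = 0 := by rw [← hx', mul_assoc, heb, mul_zero]
      rw [mul_assoc, ← mul_assoc x, h0, zero_mul, mul_zero]
    · rw [mul_neg, hx]
    · rw [neg_mul, hx']

theorem ENB_norm_one : ‖(1 : P)‖ ≤ 1 := by
  rcases subsingleton_or_nontrivial P with hP | hP
  · rw [Subsingleton.elim (1 : P) 0, norm_zero]; norm_num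
  · exact le_of_eq CStarRing.norm_one

theorem ENB_proj {e : P} (h1 : star e = e) (h2 : e * e = e) : ‖e‖ ≤ 1 := by
  have h3 : ‖e‖ * ‖e‖ = ‖e‖ := by
    rw [← CStarRing.norm_star_mul_self, h1, h2]
  nlinarith [norm_nonneg e]

theorem ENB_isom {e y : P} (he : ‖e‖ ≤ 1) (h : star y * y = e) : ‖y‖ ≤ 1 := by
  have h3 : ‖y‖ * ‖y‖ = ‖e‖ := by
    rw [← CStarRing.norm_star_mul_self, h]
  nlinarith [norm_nonneg y]

theorem ENB_sub {c : Fin 2 → Fin 2 → P} (hc : MU 1 c) {η : ℝ} {t : P} (h : ENB_el c η t) :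
    ‖t - 1‖ ≤ η := by
  have m : ∀ i j l m, c i j * c l m = if j = l then c i m else 0 := hc.mul
  have h00 : ‖c 0 0‖ ≤ 1 := ENB_proj (hc.star 0 0) (by rw [m]; simp)
  have h11 : ‖c 1 1‖ ≤ 1 := ENB_proj (hc.star 1 1) (by rw [m]; simp)
  have h01 : ‖c 0 1‖ ≤ 1 := ENB_isom h11 (by rw [hc.star, m]; simp)
  have h10 : ‖c 1 0‖ ≤ 1 := ENB_isom h00 (by rw [hc.star, m]; simp)
  obtain ⟨x, hx, hx', hn, h | h⟩ := h
  · subst h
    rw [add_sub_cancel_left]
    calc ‖x * c 0 1‖ ≤ ‖x‖ * ‖c 0 1‖ := norm_mul_le _ _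
      _ ≤ ‖x‖ * 1 := mul_le_mul_of_nonneg_left h01 (norm_nonneg _)
      _ ≤ η := by rw [mul_one]; exact hn
  · subst h
    rw [add_sub_cancel_left]
    calc ‖c 1 0 * x‖ ≤ ‖c 1 0‖ * ‖x‖ := norm_mul_le _ _
      _ ≤ 1 * ‖x‖ := mul_le_mul_of_nonneg_right h10 (norm_nonneg _)
      _ ≤ η := by rw [one_mul]; exact hn

theorem ENB_conj {c : Fin 2 → Fin 2 → P} (hc : MU 1 c) {η B : ℝ} {t q r : P}
    (hq : IvC (c 0 0) q r) (hqB : ‖q‖ ≤ B) (hrB : ‖r‖ ≤ B)
    (hD : (q + c 1 1) * (r + c 1 1) = 1) (h : ENB_el c η t) :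
    ENB_el c (B * η) ((q + c 1 1) * t * (r + c 1 1)) := by
  have m : ∀ i j l m, c i j * c l m = if j = l then c i m else 0 := hc.mul
  have m1 : c 1 1 * c 0 0 = 0 := by rw [m]; simp
  have m2 : c 0 1 * c 0 0 = 0 := by rw [m]; simp
  have m3 : c 0 0 * c 1 0 = 0 := by rw [m]; simp
  have m4 : c 0 0 * c 1 1 = 0 := by rw [m]; simp
  have m5 : c 0 1 * c 1 1 = c 0 1 := by rw [m]; simp
  have m6 : c 1 1 * c 1 0 = c 1 0 := by rw [m]; simp
  have hB : 0 ≤ B := (norm_nonneg q).trans hqB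
  obtain ⟨x, hx, hx', hn, h | h⟩ := h
  · refine ⟨q * x, by rw [← mul_assoc, hq.ql], by rw [mul_assoc, hx'], ?_, Or.inl ?_⟩
    · exact (norm_mul_le _ _).trans (mul_le_mul hqB hn (norm_nonneg _) hB)
    · have e1 : c 1 1 * x = 0 := by rw [← hx, ← mul_assoc, m1, zero_mul]
      have e2 : c 0 1 * r = 0 := by rw [← hq.rl, ← mul_assoc, m2, zero_mul]
      subst h
      calc (q + c 1 1) * (1 + x * c 0 1) * (r + c 1 1)
          = (q + c 1 1) * (r + c 1 1) + (q * x + c 1 1 * x) * (c 0 1 * r + c 0 1 * c 1 1) := by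
            noncomm_ring
        _ = 1 + q * x * c 0 1 := by rw [hD, e1, e2, m5, add_zero, zero_add]
  · refine ⟨x * r, by rw [← mul_assoc, hx], by rw [mul_assoc, hq.rr], ?_, Or.inr ?_⟩
    · refine (norm_mul_le _ _).trans ?_
      rw [mul_comm B]
      exact mul_le_mul hn hrB (norm_nonneg _) ((norm_nonneg _).trans hn)
    · have e1 : x * c 1 1 = 0 := by rw [← hx', mul_assoc, m4, mul_zero]
      have e2 : q * c 1 0 = 0 := by rw [← hq.qr, mul_assoc, m3, mul_zero]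
      subst h
      calc (q + c 1 1) * (1 + c 1 0 * x) * (r + c 1 1)
          = (q + c 1 1) * (r + c 1 1) + (q * c 1 0 + c 1 1 * c 1 0) * (x * r + x * c 1 1) := by
            noncomm_ring
        _ = 1 + c 1 0 * (x * r) := by rw [hD, e1, e2, m6, add_zero, zero_add]

end

theorem p_ENB : Stmt_ENB.{u} := by
  intro P _ c hc
  have m : ∀ i j l m, c i j * c l m = if j = l then c i m else 0 := hc.mul
  have hsum : c 0 0 + c 1 1 = 1 := by
    have := hc.sum
    rwa [Fin.sum_univ_two] at this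
  refine ⟨?_, fun K K' η y y' h h' => ENB_app h h', ?_, ?_, ?_⟩
  · rintro K K' η η' y hK hη h0 ⟨l, h1, h2, h3⟩
    refine ⟨l ++ List.replicate (K' - K) 1, ?_, fun t ht => ?_, ?_⟩
    · rw [List.length_append, List.length_replicate, h1]; omega
    · rcases List.mem_append.1 ht with ht | ht
      · obtain ⟨x, hx, hx', hn, h⟩ := h2 t ht
        exact ⟨x, hx, hx', hn.trans hη, h⟩
      · refine ⟨0, mul_zero _, zero_mul _, by rwa [norm_zero], Or.inl ?_⟩
        rw [List.eq_of_mem_replicate ht, zero_mul, add_zero]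
    · rw [List.prod_append, List.prod_replicate, one_pow, mul_one, h3]
  · intro K η y
    refine ENB_ind (c := c) (η := η) (fun K y => ∃ y', Iv y y' ∧ EN c K η y')
      ⟨1, ⟨one_mul 1, one_mul 1⟩, ENB_nil c η⟩ ?_ K y
    rintro K y t ht ⟨y', h1, h2⟩
    obtain ⟨t', h3, h4⟩ := ENB_inv hc ht
    refine ⟨y' * t', ⟨?_, ?_⟩, ENB_app h2 (ENB_one h4)⟩
    · rw [mul_assoc, ← mul_assoc y y' t', h1.r, one_mul, h3.r]
    · rw [mul_assoc, ← mul_assoc t' t y, h3.l, one_mul, h1.l]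
  · intro K η B y q r hq hqB hrB
    have m1 : c 1 1 * c 0 0 = 0 := by rw [m]; simp
    have m4 : c 0 0 * c 1 1 = 0 := by rw [m]; simp
    have m7 : c 1 1 * c 1 1 = c 1 1 := by rw [m]; simp
    have a1 : c 1 1 * q = 0 := by rw [← hq.ql, ← mul_assoc, m1, zero_mul]
    have a2 : c 1 1 * r = 0 := by rw [← hq.rl, ← mul_assoc, m1, zero_mul]
    have a3 : q * c 1 1 = 0 := by rw [← hq.qr, mul_assoc, m4, mul_zero]
    have a4 : r * c 1 1 = 0 := by rw [← hq.rr, mul_assoc, m4, mul_zero]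
    have hD : (q + c 1 1) * (r + c 1 1) = 1 := by
      rw [add_mul, mul_add, mul_add, hq.m1, a3, a2, m7, add_zero, zero_add, hsum]
    have hD' : (r + c 1 1) * (q + c 1 1) = 1 := by
      rw [add_mul, mul_add, mul_add, hq.m2, a4, a1, m7, add_zero, zero_add, hsum]
    refine ENB_ind (c := c) (η := η)
      (fun K y => EN c K (B * η) ((q + c 1 1) * y * (r + c 1 1))) ?_ ?_ K y
    · rw [mul_one, hD]
      exact ENB_nil c _
    · intro K y t ht hy
      have e : (q + c 1 1) * (t * y) * (r + c 1 1) =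
          ((q + c 1 1) * t * (r + c 1 1)) * ((q + c 1 1) * y * (r + c 1 1)) := by
        calc (q + c 1 1) * (t * y) * (r + c 1 1)
            = (q + c 1 1) * t * 1 * y * (r + c 1 1) := by noncomm_ring
          _ = (q + c 1 1) * t * ((r + c 1 1) * (q + c 1 1)) * y * (r + c 1 1) := by rw [hD']
          _ = _ := by simp only [mul_assoc]
      show EN c (K + 1) (B * η) _
      rw [e, add_comm K 1]
      exact ENB_app (ENB_one (ENB_conj hc hq hqB hrB hD ht)) hy
  · intro K η y h0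
    refine ENB_ind (c := c) (η := η) (fun K y => ‖y - 1‖ ≤ (1 + η) ^ K - 1) ?_ ?_ K y
    · rw [sub_self, norm_zero, pow_zero, sub_self]
    · intro K y t ht hy
      have h1 := ENB_sub hc ht
      have h2 : ‖t‖ ≤ 1 + η := by
        calc ‖t‖ = ‖1 + (t - 1)‖ := by rw [add_sub_cancel]
          _ ≤ ‖(1 : P)‖ + ‖t - 1‖ := norm_add_le _ _
          _ ≤ 1 + η := add_le_add ENB_norm_one h1
      have e : t * y - 1 = t * (y - 1) + (t - 1) := by noncomm_ring
      calc ‖t * y - 1‖ ≤ ‖t * (y - 1)‖ + ‖t - 1‖ := by rw [e]; exact norm_add_le _ _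
        _ ≤ (1 + η) * ((1 + η) ^ K - 1) + η := by
            refine add_le_add ((norm_mul_le _ _).trans ?_) h1
            exact mul_le_mul h2 hy (norm_nonneg _) (by positivity)
        _ = (1 + η) ^ (K + 1) - 1 := by rw [pow_succ]; ring

end ND

end SCO
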