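import Pool.Agent.Work.MP_52dd0f_nd.InterfaceE

/-!
# THEOREM ND*, MP_52dd0f_an: block ENC (helper94)
-/

set_option autoImplicit false
set_option linter.unusedSectionVars false

namespace SCO

open Filter Topology

universe u

namespace ND

section Alg

variable {R : Type u} [Ring R] {e a b x Y r : R}

theorem ENC_alg1 (hab : a * b = e) (hba : e + b * a = 1) (hbe : b * e = b) (hxe : x * e = x)
    (hYe : Y * e = Y) (hYb : Y * b = 0) (hrb : r * b = 0) (har : a * r = 0)
    (hm1 : (e - x * Y) * r = e) (hm2 : r * (e - x * Y) = e) (her : e * r = r) (hex : e * x = x) :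
    (1 + b * Y) * (1 + x * a) * (1 - b * Y) =
      (1 + b * (-(Y * x * Y * r))) * (e - x * Y + b * (e + Y * r * x) * a) * (1 + (r * x) * a) := by
  have h1 : x * Y * r = r - e := by
    have h2 : e * r - x * Y * r = e := by rw [← sub_mul]; exact hm1
    rw [her] at h2
    rw [← h2]; abel
  have hL : (1 + b * Y) * (1 + x * a) * (1 - b * Y) =
      1 + x * a + b * Y * x * a - x * Y - b * Y * x * Y := by
    have e1 : (1 + b * Y) * (1 + x * a) * (1 - b * Y) =
        1 - b * (Y * b) * Y + x * a - x * (a * b) * Y + b * Y * x * a -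
          b * Y * (x * (a * b)) * Y := by noncomm_ring
    rw [e1, hYb, hab, hxe, mul_zero, zero_mul, sub_zero]
    abel
  have hP : (1 + b * (-(Y * x * Y * r))) * (e - x * Y + b * (e + Y * r * x) * a) =
      1 - x * Y + b * Y * r * x * a - b * Y * x * Y := by
    have e1 : (1 + b * (-(Y * x * Y * r))) * (e - x * Y + b * (e + Y * r * x) * a) =
        (e + (b * e) * a) - x * Y + b * Y * r * x * a - b * Y * x * (Y * (r * (e - x * Y))) -
          b * Y * x * Y * (r * b) * (e + Y * r * x) * a := by noncomm_ring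
    rw [e1, hbe, hba, hm2, hrb, hYe, mul_zero, zero_mul, zero_mul, sub_zero]
  rw [hL, hP]
  have e2 : (1 - x * Y + b * Y * r * x * a - b * Y * x * Y) * (1 + (r * x) * a) =
      1 - x * Y + b * Y * r * x * a - b * Y * x * Y + r * x * a - (x * Y * r) * x * a +
        b * Y * r * x * (a * r) * x * a - b * Y * (x * Y * r) * x * a := by noncomm_ring
  rw [e2, har, h1, mul_zero, zero_mul, zero_mul, add_zero]
  have e3 : (r - e) * x * a = r * x * a - (e * x) * a := by noncomm_ring
  have e4 : b * Y * (r - e) * x * a = b * Y * r * x * a - b * Y * (e * x) * a := by noncomm_ring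
  rw [e3, e4, hex]
  abel

theorem ENC_alg2 (hab : a * b = e) (hba : e + b * a = 1) (hbe : b * e = b)
    (hYe : Y * e = Y) (hxb : x * b = 0) (haY : a * Y = 0) (haa : a * e = 0)
    (hm1 : (e - x * Y) * r = e) (hm2 : r * (e - x * Y) = e) (her : e * r = r) (hre : r * e = r)
    (hex : e * x = x) :
    (1 + Y * a) * (1 + b * x) * (1 - Y * a) =
      (1 + (-(Y * x * Y * r)) * a) * (e + Y * r * x + b * (e - x * Y) * a) *
        (1 + b * (r * x)) := by
  have h1 : x * Y * r = r - e := by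
    have h2 : e * r - x * Y * r = e := by rw [← sub_mul]; exact hm1
    rw [her] at h2
    rw [← h2]; abel
  have hL : (1 + Y * a) * (1 + b * x) * (1 - Y * a) =
      1 + b * x + Y * x - b * x * Y * a - Y * x * Y * a := by
    have e1 : (1 + Y * a) * (1 + b * x) * (1 - Y * a) =
        1 - Y * (a * Y) * a + b * x - b * x * Y * a + Y * (a * b) * x -
          Y * (a * b) * x * Y * a := by noncomm_ring
    rw [e1, haY, hab, hYe, mul_zero, zero_mul, sub_zero]
    abel
  have hP : (1 + (-(Y * x * Y * r)) * a) * (e + Y * r * x + b * (e - x * Y) * a) =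
      1 + Y * r * x - b * x * Y * a - Y * x * Y * a := by
    have e1 : (1 + (-(Y * x * Y * r)) * a) * (e + Y * r * x + b * (e - x * Y) * a) =
        (e + (b * e) * a) + Y * r * x - b * x * Y * a - Y * x * Y * r * (a * e) -
          Y * x * Y * r * (a * Y) * r * x -
          Y * x * Y * (r * (a * b) * (e - x * Y)) * a := by noncomm_ring
    have e5 : Y * x * Y * (r * (a * b) * (e - x * Y)) * a = Y * x * Y * a := by
      rw [hab, hre, hm2, mul_assoc (Y * x) Y e, hYe]
    rw [e1, e5, hbe, hba, haa, haY, mul_zero, zero_mul, zero_mul, sub_zero, sub_zero]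
  rw [hL, hP]
  have e2 : (1 + Y * r * x - b * x * Y * a - Y * x * Y * a) * (1 + b * (r * x)) =
      1 + Y * r * x - b * x * Y * a - Y * x * Y * a + b * (r * x) + Y * r * (x * b) * r * x -
        b * x * Y * (a * b) * r * x - Y * (x * Y * (a * b) * r) * x := by noncomm_ring
  have e6 : x * Y * (a * b) * r = r - e := by
    rw [hab, mul_assoc x Y e, hYe, h1]
  have e7 : b * x * Y * (a * b) * r * x = b * (x * Y * (a * b) * r) * x := by noncomm_ring
  rw [e2, e7, e6, hxb, mul_zero, zero_mul, zero_mul, add_zero]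
  have e3 : b * (r - e) * x = b * (r * x) - b * (e * x) := by noncomm_ring
  have e4 : Y * (r - e) * x = Y * r * x - Y * (e * x) := by noncomm_ring
  rw [e3, e4, hex]
  abel

theorem ENC_inv (heY : e * Y = Y) (hex : e * x = x) (hxe : x * e = x) (hee : e * e = e)
    (hm1 : (e - x * Y) * r = e) (her : e * r = r) {s : R} (hse : s * e = s)
    (hs : s * (e - Y * x) = e) : s = e + Y * r * x := by
  have h1 : x * Y * r = r - e := by
    have h2 : e * r - x * Y * r = e := by rw [← sub_mul]; exact hm1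
    rw [her] at h2
    rw [← h2]; abel
  have h2 : (e - Y * x) * (e + Y * r * x) = e := by
    have e1 : (e - Y * x) * (e + Y * r * x) =
        e * e + (e * Y) * r * x - Y * (x * e) - Y * (x * Y * r) * x := by noncomm_ring
    have e4 : Y * (r - e) * x = Y * r * x - Y * (e * x) := by noncomm_ring
    rw [e1, h1, heY, hee, hxe, e4, hex]
    abel
  have h3 : s * (e - Y * x) * (e + Y * r * x) = s * ((e - Y * x) * (e + Y * r * x)) := by
    rw [mul_assoc]
  rw [hs, h2, hse] at h3
  rw [← h3]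
  have e1 : e * (e + Y * r * x) = e * e + (e * Y) * r * x := by noncomm_ring
  rw [e1, hee, heY]

end Alg

theorem ENC_unique {P : Type u} [CStarAlgebra P] {e q r r' : P} (h : IvC e q r)
    (h' : IvC e q r') : r = r' := by
  calc r = r * (q * r') := by rw [h'.m1, h.rr]
    _ = r * q * r' := (mul_assoc _ _ _).symm
    _ = r' := by rw [h.m2, h'.rl]

theorem ENC_exp {P : Type u} [CStarAlgebra P] {c : Fin 2 → Fin 2 → P} {x : P} {η : ℝ}
    (h1 : c 0 0 * x = x) (h2 : x * c 0 0 = x) (h3 : ‖x‖ ≤ η) : EN c 1 η (1 + x * c 0 1) := by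
  refine ⟨[1 + x * c 0 1], rfl, ?_, by simp⟩
  intro t ht
  rw [List.mem_singleton] at ht
  exact ⟨x, h1, h2, h3, Or.inl ht⟩

theorem ENC_exq {P : Type u} [CStarAlgebra P] {c : Fin 2 → Fin 2 → P} {x : P} {η : ℝ}
    (h1 : c 0 0 * x = x) (h2 : x * c 0 0 = x) (h3 : ‖x‖ ≤ η) : EN c 1 η (1 + c 1 0 * x) := by
  refine ⟨[1 + c 1 0 * x], rfl, ?_, by simp⟩
  intro t ht
  rw [List.mem_singleton] at ht
  exact ⟨x, h1, h2, h3, Or.inr ht⟩

theorem p_ENC (hINV : Stmt_INV.{u}) (hENB : Stmt_ENB.{u}) (hENW : Stmt_ENW.{u}) :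
    Stmt_ENC.{u} := by
  intro B
  obtain ⟨k, hk⟩ := dl_mul_le (4 * (max B 1) ^ 2)
  refine ⟨k + 1, ?_⟩
  intro P _ c hc n x Y g g' t hex hxe heY hYe hx hY hg ht
  obtain ⟨hmono, hmul, -, -, -⟩ := hENB P c hc
  have m : ∀ i j l m, c i j * c l m = if j = l then c i m else 0 := hc.mul
  set b := c 1 0 with hb
  set a := c 0 1 with ha
  set e := c 0 0 with he
  have hsum : e + b * a = 1 := by
    have := hc.sum
    rw [Fin.sum_univ_two] at this
    rw [he, hb, ha, m]; simpa using this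
  have hab : a * b = e := by rw [ha, hb, m]; simp [he]
  have hbe : b * e = b := by rw [hb, he, m]; simp
  have haa : a * e = 0 := by rw [ha, he, m]; simp
  have heb : e * b = 0 := by rw [hb, he, m]; simp
  have hee : e * e = e := by rw [he, m]; simp
  have hse : star e = e := by rw [he]; exact hc.star 0 0
  have hzb : ∀ z, z * e = z → z * b = 0 := fun z hz => by rw [← hz, mul_assoc, heb, mul_zero]
  have haz : ∀ z, e * z = z → a * z = 0 := fun z hz => by rw [← hz, ← mul_assoc, haa, zero_mul]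
  set s := dl (n + k) with hs
  have hs0 : 0 < s := dl_pos _
  have hs2 : s ≤ 1 / 2 := dl_le_half _
  have hss : dl (n + (k + 1)) = s ^ 2 := by rw [← add_assoc, dl_succ]
  rw [hss] at hx
  set C := max B 1 with hC
  have hC1 : 1 ≤ C := le_max_right _ _
  have hYC : ‖Y‖ ≤ C := hY.trans (le_max_left _ _)
  have hkn : 4 * C ^ 2 * s ≤ dl n := hk n
  have hdn : dl n ≤ 1 / 2 := dl_le_half _
  have hCs : C * s ≤ C ^ 2 * s := by
    have : C ≤ C ^ 2 := by nlinarith
    exact mul_le_mul_of_nonneg_right this hs0.le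
  have hs2' : s ^ 2 ≤ s := by nlinarith
  have hxs : ‖x‖ ≤ s := hx.trans hs2'
  have hsC : s ≤ C * s := by nlinarith
  have hxY : ‖x * Y‖ ≤ C * s := by
    calc ‖x * Y‖ ≤ ‖x‖ * ‖Y‖ := norm_mul_le _ _
      _ ≤ s * C := mul_le_mul hxs hYC (norm_nonneg _) hs0.le
      _ = C * s := mul_comm _ _
  have hYx : ‖Y * x‖ ≤ C * s := by
    calc ‖Y * x‖ ≤ ‖Y‖ * ‖x‖ := norm_mul_le _ _
      _ ≤ C * s := mul_le_mul hYC hxs (norm_nonneg _) (by linarith)
  obtain ⟨r, hr, hrn, -⟩ := hINV P e (e - x * Y) hee hse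
    (by rw [mul_sub, hee, ← mul_assoc, hex]) (by rw [sub_mul, hee, mul_assoc, hYe])
    (by rw [sub_sub_cancel_left, norm_neg]; linarith)
  obtain ⟨r', hr', hrn', -⟩ := hINV P e (e - Y * x) hee hse
    (by rw [mul_sub, hee, ← mul_assoc, heY]) (by rw [sub_mul, hee, mul_assoc, hxe])
    (by rw [sub_sub_cancel_left, norm_neg]; linarith)
  have hr'e : r' = e + Y * r * x :=
    ENC_inv heY hex hxe hee hr.m1 hr.rl hr'.rr hr'.m2
  -- the entries of the outer factors
  have hγ1 : e * (-(Y * x * Y * r)) = -(Y * x * Y * r) := by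
    rw [mul_neg, mul_assoc, mul_assoc, ← mul_assoc e Y, heY]
  have hγ2 : (-(Y * x * Y * r)) * e = -(Y * x * Y * r) := by
    rw [neg_mul, mul_assoc _ r e, hr.rr]
  have hγn : ‖-(Y * x * Y * r)‖ ≤ dl n := by
    rw [norm_neg]
    calc ‖Y * x * Y * r‖ ≤ ‖Y * x * Y‖ * ‖r‖ := norm_mul_le _ _
      _ ≤ (‖Y * x‖ * ‖Y‖) * ‖r‖ := by gcongr; exact norm_mul_le _ _
      _ ≤ (C * s * C) * 2 := by gcongr
      _ = 2 * C ^ 2 * s := by ring
      _ ≤ dl n := by nlinarith
  have hξ1 : e * (r * x) = r * x := by rw [← mul_assoc, hr.rl]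
  have hξ2 : (r * x) * e = r * x := by rw [mul_assoc, hxe]
  have hξn : ‖r * x‖ ≤ dl n := by
    calc ‖r * x‖ ≤ ‖r‖ * ‖x‖ := norm_mul_le _ _
      _ ≤ 2 * s := by gcongr
      _ ≤ dl n := by nlinarith
  rcases hg with ⟨rfl, rfl⟩ | ⟨rfl, rfl⟩ <;> rcases ht with rfl | rfl
  · -- el, el
    have h1 : (1 + Y * a) * (1 + x * a) * (1 - Y * a) = 1 + x * a := by
      have e1 : (1 + Y * a) * (1 + x * a) * (1 - Y * a) =
          1 - Y * (a * Y) * a + x * a - x * (a * Y) * a + Y * (a * x) * a -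
            Y * a * x * (a * Y) * a := by noncomm_ring
      rw [e1, haz Y heY, haz x hex]; simp
    rw [h1]
    exact hmono 1 6 (dl n) (dl n) _ (by norm_num) le_rfl (dl_pos n).le
      (ENC_exp hex hxe (by linarith))
  · -- el Y, fl x
    rw [ENC_alg2 hab hsum hbe hYe (hzb x hxe) (haz Y heY) haa hr.m1 hr.m2 hr.rl hr.rr hex,
      ← hr'e]
    have hsc : s⁻¹ * s = 1 := inv_mul_cancel₀ hs0.ne'
    have hsc' : s * s⁻¹ = 1 := mul_inv_cancel₀ hs0.ne'
    have hprod1 : (s • (r' * Y)) * (s⁻¹ • x) = r' * Y * x := by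
      rw [smul_mul_smul_comm, hsc', one_smul]
    have hprod2 : (s⁻¹ • x) * (s • (r' * Y)) = x * r' * Y := by
      rw [smul_mul_smul_comm, hsc, one_smul, mul_assoc]
    have h1 : e + r' * Y * x = r' := by
      have h2 : r' * e - r' * Y * x = e := by
        rw [mul_assoc, ← mul_sub]; exact hr'.m2
      rw [hr'.rr] at h2
      nth_rewrite 1 [← h2]; abel
    have h2 : e + x * r' * Y = r := by
      have h3 : r - x * Y * r = e := by
        have := hr.m1
        rwa [sub_mul, hr.rl] at this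
      have h4 : r - r * x * Y = e := by
        have := hr.m2
        rwa [mul_sub, hr.rr, ← mul_assoc] at this
      have h5 : x * r' * Y = x * Y + (x * Y * r) * x * Y := by
        rw [hr'e]
        have : x * (e + Y * r * x) * Y = (x * e) * Y + (x * Y * r) * x * Y := by noncomm_ring
        rw [this, hxe]
      have h6 : x * Y * r = r - e := by rw [← h3]; abel
      rw [h5, h6]
      have h7 : (r - e) * x * Y = r * x * Y - (e * x) * Y := by noncomm_ring
      rw [h7, hex]
      rw [← h4]; abel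
    obtain ⟨r1, r2, -, hr2, -, -, hW⟩ := hENW P c hc (s • (r' * Y)) (s⁻¹ • x) (2 * C * s)
      (by rw [mul_smul_comm, ← mul_assoc, ← he, hr'.rl])
      (by rw [smul_mul_assoc, mul_assoc, ← he, hYe])
      (by rw [mul_smul_comm, ← he, hex]) (by rw [smul_mul_assoc, ← he, hxe])
      (by
        rw [norm_smul, Real.norm_of_nonneg hs0.le]
        calc s * ‖r' * Y‖ ≤ s * (2 * C) := by
              refine mul_le_mul_of_nonneg_left ((norm_mul_le _ _).trans ?_) hs0.le
              exact mul_le_mul hrn' hYC (norm_nonneg _) (by norm_num)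
          _ = 2 * C * s := by ring)
      (by
        rw [norm_smul, norm_inv, Real.norm_of_nonneg hs0.le]
        calc s⁻¹ * ‖x‖ ≤ s⁻¹ * s ^ 2 := mul_le_mul_of_nonneg_left hx (inv_nonneg.2 hs0.le)
          _ = s := by rw [sq, ← mul_assoc, hsc, one_mul]
          _ ≤ 2 * C * s := by linarith)
      (by linarith)
    rw [hprod1, hprod2] at *
    rw [← he, ← hb, ← ha] at *
    rw [h1] at hW
    rw [h2] at hr2
    have hr2e : r2 = e - x * Y := ENC_unique hr2 ⟨hr.rl, hr.rr, hr.ql, hr.qr, hr.m2, hr.m1⟩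
    rw [hr2e] at hW
    exact hmul 5 1 _ _ _ (hmul 1 4 _ _ _ (ENC_exp hγ1 hγ2 hγn)
      (hmono 4 4 _ _ _ le_rfl (by linarith) (dl_pos n).le hW)) (ENC_exq hξ1 hξ2 hξn)
  · -- fl Y, el x
    rw [ENC_alg1 hab hsum hbe hxe hYe (hzb Y hYe) (hzb r hr.rr) (haz r hr.rl) hr.m1 hr.m2
      hr.rl hex, ← hr'e]
    have hsc : s⁻¹ * s = 1 := inv_mul_cancel₀ hs0.ne'
    have hsc' : s * s⁻¹ = 1 := mul_inv_cancel₀ hs0.ne'
    have hprod1 : (-(s⁻¹ • x)) * (s • Y) = -(x * Y) := by
      rw [neg_mul, smul_mul_smul_comm, hsc, one_smul]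
    have hprod2 : (s • Y) * (-(s⁻¹ • x)) = -(Y * x) := by
      rw [mul_neg, smul_mul_smul_comm, hsc', one_smul]
    obtain ⟨r1, r2, -, hr2, -, -, hW⟩ := hENW P c hc (-(s⁻¹ • x)) (s • Y) (C * s)
      (by rw [mul_neg, mul_smul_comm, ← he, hex]) (by rw [neg_mul, smul_mul_assoc, ← he, hxe])
      (by rw [mul_smul_comm, ← he, heY]) (by rw [smul_mul_assoc, ← he, hYe])
      (by
        rw [norm_neg, norm_smul, norm_inv, Real.norm_of_nonneg hs0.le]
        calc s⁻¹ * ‖x‖ ≤ s⁻¹ * s ^ 2 := mul_le_mul_of_nonneg_left hx (inv_nonneg.2 hs0.le)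
          _ = s := by rw [sq, ← mul_assoc, hsc, one_mul]
          _ ≤ C * s := hsC)
      (by
        rw [norm_smul, Real.norm_of_nonneg hs0.le]
        calc s * ‖Y‖ ≤ s * C := mul_le_mul_of_nonneg_left hYC hs0.le
          _ = C * s := by ring)
      (by linarith)
    rw [hprod1, ← he, ← hb, ← ha, ← sub_eq_add_neg] at hW
    rw [hprod2, ← he, ← sub_eq_add_neg] at hr2
    rw [ENC_unique hr2 hr'] at hW
    exact hmul 5 1 _ _ _ (hmul 1 4 _ _ _ (ENC_exq hγ1 hγ2 hγn)
      (hmono 4 4 _ _ _ le_rfl (by linarith) (dl_pos n).le hW)) (ENC_exp hξ1 hξ2 hξn)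
  · -- fl, fl
    have h1 : (1 + b * Y) * (1 + b * x) * (1 - b * Y) = 1 + b * x := by
      have e1 : (1 + b * Y) * (1 + b * x) * (1 - b * Y) =
          1 - b * (Y * b) * Y + b * x - b * (x * b) * Y + b * (Y * b) * x -
            b * (Y * b) * x * b * Y := by noncomm_ring
      rw [e1, hzb Y hYe, hzb x hxe]; simp
    rw [h1]
    exact hmono 1 6 (dl n) (dl n) _ (by norm_num) le_rfl (dl_pos n).le
      (ENC_exq hex hxe (by linarith))

end ND

end SCO
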