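import Pool.Agent.Work.MP_52dd0f_nd.InterfaceE

/-!
# Block ENG: conjugation of small elementary products by bounded ones
-/

set_option autoImplicit false
set_option linter.unusedSectionVars false

namespace SCO

open Filter Topology

universe u

namespace ND

section

variable {P : Type u} [CStarAlgebra P] {c : Fin 2 → Fin 2 → P}

theorem ENG_sq1 (hc : MU 1 c) {Y : P} (h1 : c 0 0 * Y = Y) : Y * c 0 1 * (Y * c 0 1) = 0 := by
  have h : c 0 1 * c 0 0 = 0 := by
    rw [hc.mul]
    simp
  have h2 : c 0 1 * Y = 0 := by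
    rw [← h1, ← mul_assoc, h, zero_mul]
  calc Y * c 0 1 * (Y * c 0 1) = Y * (c 0 1 * Y) * c 0 1 := by simp only [mul_assoc]
    _ = 0 := by rw [h2, mul_zero, zero_mul]

theorem ENG_sq2 (hc : MU 1 c) {Y : P} (h1 : Y * c 0 0 = Y) : c 1 0 * Y * (c 1 0 * Y) = 0 := by
  have h : c 0 0 * c 1 0 = 0 := by
    rw [hc.mul]
    simp
  have h2 : Y * c 1 0 = 0 := by
    rw [← h1, mul_assoc, h, mul_zero]
  calc c 1 0 * Y * (c 1 0 * Y) = c 1 0 * (Y * c 1 0) * Y := by simp only [mul_assoc]
    _ = 0 := by rw [h2, mul_zero, zero_mul]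

theorem ENG_inv {z : P} (h : z * z = 0) : Iv (1 + z) (1 - z) := by
  constructor
  · calc (1 + z) * (1 - z) = 1 - z * z := by noncomm_ring
      _ = 1 := by rw [h, sub_zero]
  · calc (1 - z) * (1 + z) = 1 - z * z := by noncomm_ring
      _ = 1 := by rw [h, sub_zero]

theorem ENG_list (hENB : Stmt_ENB.{u}) (hc : MU 1 c) {g g' : P} (hg : Iv g g') {η : ℝ}
    {n : ℕ} (h : ∀ t : P, (∃ x : P, c 0 0 * x = x ∧ x * c 0 0 = x ∧ ‖x‖ ≤ η ∧
      (t = 1 + x * c 0 1 ∨ t = 1 + c 1 0 * x)) → EN c 6 (dl n) (g * t * g'))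
    (l : List P) (hl : ∀ t ∈ l, ∃ x : P, c 0 0 * x = x ∧ x * c 0 0 = x ∧ ‖x‖ ≤ η ∧
      (t = 1 + x * c 0 1 ∨ t = 1 + c 1 0 * x)) :
    EN c (6 * l.length) (dl n) (g * l.prod * g') := by
  induction l with
  | nil =>
    refine ⟨[], rfl, fun t ht => by simp at ht, ?_⟩
    rw [List.prod_nil, mul_one, hg.r]
  | cons a l ih =>
    have h1 := h a (hl a List.mem_cons_self)
    have h2 := ih fun t ht => hl t (List.mem_cons_of_mem _ ht)
    have h3 := (hENB P c hc).2.1 6 (6 * l.length) (dl n) _ _ h1 h2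
    have e : g * a * g' * (g * l.prod * g') = g * (a :: l).prod * g' := by
      rw [List.prod_cons]
      calc g * a * g' * (g * l.prod * g') = g * a * (g' * g) * l.prod * g' := by
            simp only [mul_assoc]
        _ = g * (a * l.prod) * g' := by rw [hg.l, mul_one]; simp only [mul_assoc]
    rw [e] at h3
    have e2 : 6 * (a :: l).length = 6 + 6 * l.length := by
      rw [List.length_cons]
      ring
    rw [e2]
    exact h3

end

theorem p_ENG (hENB : Stmt_ENB.{u}) (hENC : Stmt_ENC.{u}) : Stmt_ENG.{u} := by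
  intro K
  induction K with
  | zero =>
    intro L B
    refine ⟨L, 0, ?_⟩
    intro P _ c _ n g g' y hg hI hy
    obtain ⟨l, hl, -, hp⟩ := hg
    rw [List.length_eq_zero_iff] at hl
    subst hl
    rw [List.prod_nil] at hp
    subst hp
    have h1 := hI.r
    rw [one_mul] at h1
    rw [h1, one_mul, mul_one]
    exact hy
  | succ K ih =>
    intro L B
    obtain ⟨K₁, k₁, h₁⟩ := ih L B
    obtain ⟨k₀, h₀⟩ := hENC B
    refine ⟨6 * K₁, k₀ + k₁, ?_⟩
    intro P _ c hc n g g' y hg hI hy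
    obtain ⟨l, hl, ht, hp⟩ := hg
    cases l with
    | nil => simp at hl
    | cons t l =>
      have hl' : l.length = K := by simpa using hl
      rw [List.prod_cons] at hp
      obtain ⟨Y, hY1, hY2, hY3, hY4⟩ := ht t List.mem_cons_self
      -- the inverse of the first factor
      obtain ⟨t', ht', hcase⟩ : ∃ t' : P, Iv t t' ∧
          ((t = 1 + Y * c 0 1 ∧ t' = 1 - Y * c 0 1) ∨
            (t = 1 + c 1 0 * Y ∧ t' = 1 - c 1 0 * Y)) := by
        rcases hY4 with h | h
        · exact ⟨1 - Y * c 0 1, by rw [h]; exact ENG_inv (ENG_sq1 hc hY1), Or.inl ⟨h, rfl⟩⟩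
        · exact ⟨1 - c 1 0 * Y, by rw [h]; exact ENG_inv (ENG_sq2 hc hY2), Or.inr ⟨h, rfl⟩⟩
      have hI2 : Iv l.prod (g' * t) := by
        have h1 : t * l.prod * g' = 1 := by rw [hp]; exact hI.r
        have h2 : l.prod * g' = t' := by
          calc l.prod * g' = (t' * t) * l.prod * g' := by rw [ht'.l, one_mul]
            _ = t' * (t * l.prod * g') := by simp only [mul_assoc]
            _ = t' := by rw [h1, mul_one]
        constructor
        · rw [← mul_assoc, h2, ht'.l]
        · rw [mul_assoc, hp, hI.l]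
      have hEN : EN c K B l.prod :=
        ⟨l, hl', fun s hs => ht s (List.mem_cons_of_mem _ hs), rfl⟩
      have hy' : EN c L (dl (n + k₀ + k₁)) y := by
        rw [add_assoc]
        exact hy
      obtain ⟨l₂, hl₂, ht₂, hp₂⟩ := h₁ P c hc (n + k₀) l.prod (g' * t) y hEN hI2 hy'
      have h3 := ENG_list hENB hc ht' (η := dl (n + k₀)) (n := n) (by
        rintro s ⟨x, hx1, hx2, hx3, hx4⟩
        exact h₀ P c hc n x Y t t' s hx1 hx2 hY1 hY2 hx3 hY3 hcase hx4) l₂ ht₂
      rw [hl₂, hp₂] at h3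
      have e : t * (l.prod * y * (g' * t)) * t' = g * y * g' := by
        calc t * (l.prod * y * (g' * t)) * t' = (t * l.prod) * y * g' * (t * t') := by
              simp only [mul_assoc]
          _ = g * y * g' := by rw [ht'.r, mul_one, hp]
      rw [e] at h3
      exact h3

end ND

end SCO
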