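import Pool.Agent.Work.MP_52dd0f_nd.InterfaceE

/-! # THEOREM ND*, block ENM (helper79) -/

set_option autoImplicit false
set_option linter.unusedSectionVars false

namespace SCO

universe u

namespace ND

section

variable {P : Type u} [CStarAlgebra P]

theorem ENM_iv {g h h' : P} (H : Iv g h) (H' : Iv g h') : h = h' := by
  calc h = h * (g * h') := by rw [H'.r, mul_one]
    _ = h' := by rw [← mul_assoc, H.l, one_mul]

theorem ENM_ivc {e q r r' : P} (H : IvC e q r) (H' : IvC e q r') : r = r' := by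
  calc r = r * e := H.rr.symm
    _ = r * (q * r') := by rw [H'.m1]
    _ = r' := by rw [← mul_assoc, H.m2, H'.rl]

theorem ENM_symm {e q r : P} (H : IvC e q r) : IvC e r q :=
  ⟨H.rl, H.rr, H.ql, H.qr, H.m2, H.m1⟩

/-- the relations of the matrix units -/
structure ENM_U (e f a b : P) : Prop where
  ee : e * e = e
  ea : e * a = a
  af : a * f = a
  ab : a * b = e
  ba : b * a = f
  fb : f * b = b
  be : b * e = b
  ff : f * f = f
  ae : a * e = 0
  eb : e * b = 0
  bf : b * f = 0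
  fa : f * a = 0
  ef : e * f = 0
  fe : f * e = 0
  s : e + f = 1

theorem ENM_mu {c : Fin 2 → Fin 2 → P} (hc : MU 1 c) : ENM_U (c 0 0) (c 1 1) (c 0 1) (c 1 0) := by
  refine ⟨?_, ?_, ?_, ?_, ?_, ?_, ?_, ?_, ?_, ?_, ?_, ?_, ?_, ?_, ?_⟩
  case refine_15 => rw [← hc.sum, Fin.sum_univ_two]
  all_goals rw [hc.mul]; simp

/-- the algebra of the corner -/
structure ENM_C (e f a b x : P) : Prop where
  l : e * x = x
  r : x * e = x
  ax : a * x = 0
  fx : f * x = 0
  xb : x * b = 0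
  xf : x * f = 0

theorem ENM_cor {e f a b x : P} (U : ENM_U e f a b) (h1 : e * x = x) (h2 : x * e = x) :
    ENM_C e f a b x := by
  refine ⟨h1, h2, ?_, ?_, ?_, ?_⟩
  · rw [← h1, ← mul_assoc, U.ae, zero_mul]
  · rw [← h1, ← mul_assoc, U.fe, zero_mul]
  · rw [← h2, mul_assoc, U.eb, mul_zero]
  · rw [← h2, mul_assoc, U.ef, mul_zero]

theorem ENM_DD {e f a b q q' : P} (U : ENM_U e f a b) (hq : IvC e q q') :
    (q + f) * (q' + f) = 1 := by
  have h1 := ENM_cor U hq.ql hq.qr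
  have h2 := ENM_cor U hq.rl hq.rr
  rw [add_mul, mul_add, mul_add, hq.m1, h1.xf, h2.fx, U.ff, add_zero, zero_add, U.s]

theorem ENM_el {e f a b q q' x : P} (U : ENM_U e f a b) (hq : IvC e q q') (h1 : e * x = x) (h2 : x * e = x) :
    (q + f) * (1 + x * a) * (q' + f) * (1 - x * a) = 1 + ((q - e) * x) * a := by
  have hx := ENM_cor U h1 h2
  have hq2 := ENM_cor U hq.rl hq.rr
  have e1 : (q + f) * (1 + x * a) = (q + f) + q * x * a := by
    rw [mul_add, mul_one, ← mul_assoc, add_mul q f x, hx.fx, add_zero]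
  have e2 : a * (q' + f) = a := by rw [mul_add, hq2.ax, U.af, zero_add]
  have e3 : (q + f) * (1 + x * a) * (q' + f) = 1 + q * x * a := by
    rw [e1, add_mul (q + f), ENM_DD U hq, mul_assoc (q * x), e2]
  have e4 : a * (x * a) = 0 := by rw [← mul_assoc, hx.ax, zero_mul]
  rw [e3, add_mul, one_mul, mul_sub, mul_one, mul_assoc (q * x), e4, mul_zero, sub_zero, sub_mul q e x, h1,
    sub_mul (q * x) x a]
  abel

theorem ENM_fl {e f a b q q' x : P} (U : ENM_U e f a b) (hq : IvC e q q') (h1 : e * x = x) (h2 : x * e = x) :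
    (q + f) * (1 + b * x) * (q' + f) * (1 - b * x) = 1 + b * (x * (q' - e)) := by
  have hx := ENM_cor U h1 h2
  have hq1 := ENM_cor U hq.ql hq.qr
  have hq2 := ENM_cor U hq.rl hq.rr
  have e1 : (q + f) * (1 + b * x) = (q + f) + b * x := by
    rw [mul_add, mul_one, ← mul_assoc, add_mul q f b, hq1.xb, U.fb, zero_add]
  have e3 : (q + f) * (1 + b * x) * (q' + f) = 1 + b * (x * q') := by
    rw [e1, add_mul (q + f), ENM_DD U hq, mul_assoc b, mul_add x, hx.xf, add_zero]
  have e4 : q' * (b * x) = 0 := by rw [← mul_assoc, hq2.xb, zero_mul]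
  have e5 : b * (x * q') * (b * x) = 0 := by
    rw [mul_assoc, mul_assoc x, e4, mul_zero, mul_zero]
  rw [e3, add_mul, one_mul, mul_sub, mul_one, e5, sub_zero, mul_sub x, h2, mul_sub b]
  abel

theorem ENM_dd {e f a b q q' p p' : P} (U : ENM_U e f a b) (hq : IvC e q q') (hp : IvC e p p') :
    (q + f) * (p + f) * (q' + f) * (p' + f) =
      (q + b * q' * a) * ((p + f) * (q' + b * q * a) * (p' + f)) := by
  have hq1 := ENM_cor U hq.ql hq.qr
  have hq2 := ENM_cor U hq.rl hq.rr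
  have hp1 := ENM_cor U hp.ql hp.qr
  have hp2 := ENM_cor U hp.rl hp.rr
  have e1 : (q + f) * (p + f) * (q' + f) * (p' + f) = q * p * q' * p' + f := by
    have i1 : (q + f) * (p + f) = q * p + f := by
      rw [add_mul, mul_add, mul_add, hq1.xf, hp1.fx, U.ff, add_zero, zero_add]
    have i2 : (q * p + f) * (q' + f) = q * p * q' + f := by
      rw [add_mul, mul_add, mul_add, mul_assoc q p f, hp1.xf, mul_zero, hq2.fx, U.ff, add_zero, zero_add]
    have i3 : (q * p * q' + f) * (p' + f) = q * p * q' * p' + f := by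
      rw [add_mul, mul_add, mul_add, mul_assoc (q * p) q' f, hq2.xf, mul_zero, hp2.fx, U.ff, add_zero, zero_add]
    rw [i1, i2, i3]
  have e2 : (p + f) * (q' + b * q * a) * (p' + f) = p * q' * p' + b * q * a := by
    have i1 : (p + f) * (q' + b * q * a) = p * q' + b * q * a := by
      have j1 : p * (b * q * a) = 0 := by rw [← mul_assoc, ← mul_assoc, hp1.xb, zero_mul, zero_mul]
      have j2 : f * (b * q * a) = b * q * a := by rw [← mul_assoc, ← mul_assoc, U.fb]
      rw [add_mul, mul_add, mul_add, j1, j2, hq2.fx, add_zero, zero_add]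
    have i2 : (p * q' + b * q * a) * (p' + f) = p * q' * p' + b * q * a := by
      have j1 : b * q * a * p' = 0 := by rw [mul_assoc, hp2.ax, mul_zero]
      have j2 : b * q * a * f = b * q * a := by rw [mul_assoc, U.af]
      have j3 : p * q' * f = 0 := by rw [mul_assoc, hq2.xf, mul_zero]
      rw [add_mul, mul_add, mul_add, j1, j2, j3, add_zero, zero_add]
    rw [i1, i2]
  have e3 : (q + b * q' * a) * (p * q' * p' + b * q * a) = q * p * q' * p' + f := by
    have j1 : q * (p * q' * p') = q * p * q' * p' := by simp only [mul_assoc]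
    have j2 : q * (b * q * a) = 0 := by rw [← mul_assoc, ← mul_assoc, hq1.xb, zero_mul, zero_mul]
    have j3 : b * q' * a * (p * q' * p') = 0 := by
      rw [← mul_assoc, ← mul_assoc, mul_assoc (b * q') a p, hp1.ax, mul_zero, zero_mul, zero_mul]
    have j4 : b * q' * a * (b * q * a) = f := by
      calc b * q' * a * (b * q * a) = b * (q' * (a * b) * q) * a := by simp only [mul_assoc]
        _ = f := by rw [U.ab, hq.rr, hq.m2, U.be, U.ba]
    rw [add_mul, mul_add, mul_add, j1, j2, j3, j4, add_zero, zero_add]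
  rw [e1, e2, e3]

theorem ENM_ne {e : P} (h : e * e = e) (hs : star e = e) : ‖e‖ ≤ 1 := by
  have h1 : ‖e‖ * ‖e‖ = ‖e‖ := by
    have := CStarRing.norm_star_mul_self (x := e)
    rw [hs, h] at this
    exact this.symm
  by_contra hcon
  push Not at hcon
  have h2 : ‖e‖ * 1 < ‖e‖ * ‖e‖ := mul_lt_mul_of_pos_left hcon (by linarith)
  rw [h1, mul_one] at h2
  exact lt_irrefl _ h2

theorem ENM_diag (hENW : Stmt_ENW.{u}) {c : Fin 2 → Fin 2 → P} (hc : MU 1 c)
    {q q' : P} (hq : IvC (c 0 0) q q') (m : ℕ) (h : ‖q - c 0 0‖ ≤ dl (m + 1)) :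
    EN c 4 (2 * dl m) (q + c 1 0 * q' * c 0 1) := by
  have hd := dl_pos m
  have hd2 := dl_succ m
  obtain ⟨d, hdd⟩ : ∃ d : ℝ, d = dl m := ⟨_, rfl⟩
  rw [← hdd] at hd
  have U := ENM_mu hc
  have hne := ENM_ne U.ee (hc.star 0 0)
  have hxy : ((d : ℝ) : ℂ) * (((d⁻¹ : ℝ)) : ℂ) = 1 := by
    rw [← Complex.ofReal_mul, mul_inv_cancel₀ hd.ne', Complex.ofReal_one]
  have key1 : c 0 0 + (((d : ℝ) : ℂ) • c 0 0) * ((((d⁻¹ : ℝ)) : ℂ) • (q - c 0 0)) = q := by
    rw [smul_mul_smul_comm, hxy, one_smul, mul_sub, hq.ql, U.ee]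
    abel
  have key2 : c 0 0 + ((((d⁻¹ : ℝ)) : ℂ) • (q - c 0 0)) * (((d : ℝ) : ℂ) • c 0 0) = q := by
    rw [smul_mul_smul_comm, mul_comm, hxy, one_smul, sub_mul, hq.qr, U.ee]
    abel
  obtain ⟨r, r₂, hr, hr₂, -, -, hE⟩ := hENW P c hc (((d : ℝ) : ℂ) • c 0 0) ((((d⁻¹ : ℝ)) : ℂ) • (q - c 0 0)) d
    (by rw [mul_smul_comm, U.ee]) (by rw [smul_mul_assoc, U.ee])
    (by rw [mul_smul_comm, mul_sub, U.ee, hq.ql]) (by rw [smul_mul_assoc, sub_mul, U.ee, hq.qr])
    (by
      rw [norm_smul, Complex.norm_real, Real.norm_of_nonneg hd.le]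
      nlinarith [norm_nonneg (c 0 0)])
    (by
      rw [norm_smul, Complex.norm_real, Real.norm_of_nonneg (inv_nonneg.2 hd.le)]
      calc d⁻¹ * ‖q - c 0 0‖ ≤ d⁻¹ * d ^ 2 := by
            refine mul_le_mul_of_nonneg_left ?_ (inv_nonneg.2 hd.le)
            rw [hdd, ← hd2]
            exact h
        _ = d := by field_simp)
    (by rw [hdd]; exact dl_le_half m)
  rw [key2] at hr₂
  rw [key1, ENM_ivc hr₂ hq, hdd] at hE
  exact hE

end

theorem ENM_one (hENB : Stmt_ENB.{u}) (hENG : Stmt_ENG.{u}) (B : ℝ) : ∀ K : ℕ, ∃ K' k : ℕ,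
    ∀ (P : Type u) [CStarAlgebra P] (c : Fin 2 → Fin 2 → P), MU 1 c → ∀ (n : ℕ) (F q q' : P), EN c K B F →
    IvC (c 0 0) q q' → ‖q - c 0 0‖ ≤ dl (n + k) → ‖q' - c 0 0‖ ≤ dl (n + k) →
    ∃ F', Iv F F' ∧ EN c K' (dl n) ((q + c 1 1) * F * (q' + c 1 1) * F') := by
  intro K
  induction K with
  | zero =>
    refine ⟨0, 0, ?_⟩
    intro P _ c hc n F q q' hF hq _ _
    obtain ⟨l, hl, -, hl3⟩ := hF
    have hl0 : l = [] := List.length_eq_zero_iff.1 hl
    have hF1 : F = 1 := by rw [← hl3, hl0, List.prod_nil]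
    refine ⟨1, ⟨by rw [hF1, mul_one], by rw [hF1, mul_one]⟩, [], rfl, ?_, ?_⟩
    · intro t ht
      exact absurd ht (by simp)
    · rw [hF1, mul_one, mul_one, ENM_DD (ENM_mu hc) hq, List.prod_nil]
  | succ K ih =>
    obtain ⟨K₁, k₁, h₁⟩ := ih
    obtain ⟨K₂, k₂, h₂⟩ := hENG 1 K₁ B
    obtain ⟨k₃, h₃⟩ := dl_mul_le B
    refine ⟨1 + K₂, k₁ + k₂ + k₃, ?_⟩
    intro P _ c hc n F q q' hF hq hqe hqe'
    obtain ⟨b1, b2, b3, b4, b5⟩ := hENB P c hc
    have U := ENM_mu hc
    obtain ⟨l, hl, hl2, hl3⟩ := hF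
    cases l with
    | nil => exact absurd hl (by simp)
    | cons t l' =>
      have hlen : l'.length = K := by simpa using hl
      obtain ⟨x, hx1, hx2, hxB, ht⟩ := hl2 t (by simp)
      obtain ⟨F₁, hF₁, hE₁⟩ := h₁ P c hc (n + k₂) l'.prod q q'
        ⟨l', hlen, fun s hs => hl2 s (List.mem_cons_of_mem _ hs), rfl⟩ hq
        (hqe.trans (dl_anti (by omega))) (hqe'.trans (dl_anti (by omega)))
      have hx := ENM_cor U hx1 hx2
      have hBd : B * dl (n + (k₁ + k₂ + k₃)) ≤ dl n := by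
        have i1 : B * dl (n + (k₁ + k₂) + k₃) ≤ dl (n + (k₁ + k₂)) := h₃ _
        have i2 : n + (k₁ + k₂ + k₃) = n + (k₁ + k₂) + k₃ := by omega
        rw [i2]
        exact i1.trans (dl_anti (by omega))
      have hB0 : 0 ≤ B := (norm_nonneg x).trans hxB
      obtain ⟨t', htt, htE⟩ : ∃ t', Iv t t' ∧ EN c 1 (dl n) ((q + c 1 1) * t * (q' + c 1 1) * t') := by
        rcases ht with rfl | rfl
        · refine ⟨1 - x * c 0 1, ⟨?_, ?_⟩, ?_⟩
          · have j : x * c 0 1 * (x * c 0 1) = 0 := by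
              rw [mul_assoc, ← mul_assoc (c 0 1), hx.ax, zero_mul, mul_zero]
            rw [add_mul, one_mul, mul_sub, mul_one, j]
            abel
          · have j : x * c 0 1 * (x * c 0 1) = 0 := by
              rw [mul_assoc, ← mul_assoc (c 0 1), hx.ax, zero_mul, mul_zero]
            rw [sub_mul, one_mul, mul_add, mul_one, j]
            abel
          · rw [ENM_el U hq hx1 hx2]
            refine ⟨[1 + (q - c 0 0) * x * c 0 1], rfl, ?_, by rw [List.prod_singleton]⟩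
            intro s hs
            rw [List.mem_singleton] at hs
            refine ⟨(q - c 0 0) * x, ?_, ?_, ?_, Or.inl hs⟩
            · rw [← mul_assoc, mul_sub, hq.ql, U.ee]
            · rw [mul_assoc, hx2]
            · calc ‖(q - c 0 0) * x‖ ≤ ‖q - c 0 0‖ * ‖x‖ := norm_mul_le _ _
                _ ≤ dl (n + (k₁ + k₂ + k₃)) * B :=
                    mul_le_mul hqe hxB (norm_nonneg _) (dl_pos _).le
                _ ≤ dl n := by rw [mul_comm]; exact hBd
        · refine ⟨1 - c 1 0 * x, ⟨?_, ?_⟩, ?_⟩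
          · have j : c 1 0 * x * (c 1 0 * x) = 0 := by
              rw [mul_assoc, ← mul_assoc x, hx.xb, zero_mul, mul_zero]
            rw [add_mul, one_mul, mul_sub, mul_one, j]
            abel
          · have j : c 1 0 * x * (c 1 0 * x) = 0 := by
              rw [mul_assoc, ← mul_assoc x, hx.xb, zero_mul, mul_zero]
            rw [sub_mul, one_mul, mul_add, mul_one, j]
            abel
          · rw [ENM_fl U hq hx1 hx2]
            refine ⟨[1 + c 1 0 * (x * (q' - c 0 0))], rfl, ?_, by rw [List.prod_singleton]⟩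
            intro s hs
            rw [List.mem_singleton] at hs
            refine ⟨x * (q' - c 0 0), ?_, ?_, ?_, Or.inr hs⟩
            · rw [← mul_assoc, hx1]
            · rw [mul_assoc, sub_mul, hq.rr, U.ee]
            · calc ‖x * (q' - c 0 0)‖ ≤ ‖x‖ * ‖q' - c 0 0‖ := norm_mul_le _ _
                _ ≤ B * dl (n + (k₁ + k₂ + k₃)) :=
                    mul_le_mul hxB hqe' (norm_nonneg _) hB0
                _ ≤ dl n := hBd
      have ht1 : EN c 1 B t := by
        refine ⟨[t], rfl, ?_, by rw [List.prod_singleton]⟩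
        intro s hs
        rw [List.mem_singleton] at hs
        rw [hs]
        exact ⟨x, hx1, hx2, hxB, ht⟩
      have hE₂ := h₂ P c hc n t t' _ ht1 htt hE₁
      have hE₃ := b2 _ _ _ _ _ htE hE₂
      refine ⟨F₁ * t', ⟨?_, ?_⟩, ?_⟩
      · rw [← hl3, List.prod_cons]
        calc t * l'.prod * (F₁ * t') = t * (l'.prod * F₁) * t' := by simp only [mul_assoc]
          _ = 1 := by rw [hF₁.r, mul_one, htt.r]
      · rw [← hl3, List.prod_cons]
        calc F₁ * t' * (t * l'.prod) = F₁ * (t' * t) * l'.prod := by simp only [mul_assoc]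
          _ = 1 := by rw [htt.l, mul_one, hF₁.l]
      · have hDD : (q' + c 1 1) * (q + c 1 1) = 1 := ENM_DD U (ENM_symm hq)
        have heq : (q + c 1 1) * F * (q' + c 1 1) * (F₁ * t') =
            (q + c 1 1) * t * (q' + c 1 1) * t' * (t * ((q + c 1 1) * l'.prod * (q' + c 1 1) * F₁) * t') := by
          rw [← hl3, List.prod_cons]
          calc (q + c 1 1) * (t * l'.prod) * (q' + c 1 1) * (F₁ * t')
              = (q + c 1 1) * t * 1 * 1 * (l'.prod * (q' + c 1 1) * F₁ * t') := by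
                simp only [mul_assoc, mul_one]
            _ = (q + c 1 1) * t * ((q' + c 1 1) * (q + c 1 1)) * 1 * (l'.prod * (q' + c 1 1) * F₁ * t') := by
                rw [hDD]
            _ = (q + c 1 1) * t * (q' + c 1 1) * (t' * t) * ((q + c 1 1) * (l'.prod * (q' + c 1 1) * F₁ * t')) := by
                rw [htt.l]
                simp only [mul_assoc, mul_one]
            _ = _ := by simp only [mul_assoc]
        rw [heq]
        exact hE₃

theorem p_ENM (hENB : Stmt_ENB.{u}) (hENW : Stmt_ENW.{u}) (hENG : Stmt_ENG.{u}) : Stmt_ENM.{u} := by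
  intro K B
  obtain ⟨K₁, k₁, h₁⟩ := ENM_one hENB hENG B K
  obtain ⟨K₂, k₂, h₂⟩ := hENG K 8 B
  obtain ⟨k₃, h₃⟩ := dl_mul_le 2
  obtain ⟨k₄, h₄⟩ := dl_mul_le (B * 2)
  refine ⟨K₁ + K₂, k₁ + k₂ + k₃ + k₄ + 1, ?_⟩
  intro P _ c hc n F F' p p' q q' hF hFF hp hpB hpB' hq hqe hqe'
  obtain ⟨b1, b2, b3, b4, b5⟩ := hENB P c hc
  have U := ENM_mu hc
  obtain ⟨F'', hF'', hG⟩ := h₁ P c hc n F q q' hF hq (hqe.trans (dl_anti (by omega)))
    (hqe'.trans (dl_anti (by omega)))
  have hFe : F'' = F' := ENM_iv hF'' hFF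
  rw [hFe] at hG
  obtain ⟨m, hm⟩ : ∃ m : ℕ, m = n + k₂ + k₃ + k₄ := ⟨_, rfl⟩
  have hd1 := ENM_diag hENW hc hq m (hqe.trans (dl_anti (by omega)))
  have hd2 := ENM_diag hENW hc (ENM_symm hq) m (hqe'.trans (dl_anti (by omega)))
  have hd3 := b4 _ _ B _ _ _ hp hpB hpB' hd2
  have hn0 : 0 ≤ dl (n + k₂) := (dl_pos _).le
  have hs1 : 2 * dl m ≤ dl (n + k₂) := by
    have i1 := h₃ (n + k₂ + k₄)
    have i2 : m = n + k₂ + k₄ + k₃ := by omega
    rw [i2]
    exact i1.trans (dl_anti (by omega))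
  have hs2 : B * (2 * dl m) ≤ dl (n + k₂) := by
    have i1 := h₄ (n + k₂ + k₃)
    rw [hm, ← mul_assoc]
    exact i1.trans (dl_anti (by omega))
  have hy := b2 _ _ _ _ _ (b1 4 4 _ _ _ le_rfl hs1 hn0 hd1) (b1 4 4 _ _ _ le_rfl hs2 hn0 hd3)
  have hFy := h₂ P c hc n F F' _ hF hFF hy
  have hfin := b2 _ _ _ _ _ hG hFy
  rw [← ENM_dd U hq hp] at hfin
  have heq : (q + c 1 1) * (F * (p + c 1 1)) * (q' + c 1 1) * ((p' + c 1 1) * F') =
      (q + c 1 1) * F * (q' + c 1 1) * F' *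
        (F * ((q + c 1 1) * (p + c 1 1) * (q' + c 1 1) * (p' + c 1 1)) * F') := by
    have hDD : (q' + c 1 1) * (q + c 1 1) = 1 := ENM_DD U (ENM_symm hq)
    symm
    calc (q + c 1 1) * F * (q' + c 1 1) * F' *
        (F * ((q + c 1 1) * (p + c 1 1) * (q' + c 1 1) * (p' + c 1 1)) * F')
        = (q + c 1 1) * F * (q' + c 1 1) * (F' * F) *
          ((q + c 1 1) * ((p + c 1 1) * (q' + c 1 1) * (p' + c 1 1) * F')) := by simp only [mul_assoc]
      _ = (q + c 1 1) * F * ((q' + c 1 1) * (q + c 1 1)) * ((p + c 1 1) * (q' + c 1 1) * (p' + c 1 1) * F') := by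
          rw [hFF.l, mul_one]
          simp only [mul_assoc]
      _ = _ := by
          rw [hDD, mul_one]
          simp only [mul_assoc]
  rw [heq]
  exact hfin

end ND

end SCO
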