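import Pool.Agent.Work.MP_52dd0f_nd.InterfaceE

set_option autoImplicit false

namespace SCO

open Filter Topology

universe u

namespace ND

theorem ENV_diag {Q : Type u} [CStarAlgebra Q] {c : Fin 2 → Fin 2 → Q} (hc : MU 1 c) {q r : Q}
    (h : IvC (c 0 0) q r) : (q + c 1 1) * (r + c 1 1) = 1 := by
  have h00 : c 0 0 * c 1 1 = 0 := by rw [hc.mul]; simp
  have h11 : c 1 1 * c 0 0 = 0 := by rw [hc.mul]; simp
  have h1 : c 1 1 * c 1 1 = c 1 1 := by rw [hc.mul]; simp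
  have hs : c 0 0 + c 1 1 = 1 := by have := hc.sum; rwa [Fin.sum_univ_two] at this
  have e1 : q * c 1 1 = 0 := by rw [← h.qr, mul_assoc, h00, mul_zero]
  have e2 : c 1 1 * r = 0 := by rw [← h.rl, ← mul_assoc, h11, zero_mul]
  rw [add_mul, mul_add, mul_add, h.m1, e1, e2, h1, add_zero, zero_add, hs]

theorem p_ENV (hENB : Stmt_ENB.{u}) (hENG : Stmt_ENG.{u}) (hSDB : Stmt_SDB.{u}) : Stmt_ENV.{u} := by
  intro L
  obtain ⟨K', k₁, hG⟩ := hENG 12 L 20
  obtain ⟨k₂, hk₂⟩ := dl_mul_le 20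
  refine ⟨K', k₁ + k₂, ?_⟩
  intro Q _ _ _ c hc n V y h1 h2 hy
  obtain ⟨b1, _, b3, b4, _⟩ := hENB Q c hc
  obtain ⟨E, q, r, hE, hqr, hq, hr, hV⟩ := hSDB Q c hc V h1 h2
  obtain ⟨E', hEE, -⟩ := b3 12 20 E hE
  have hy2 := b4 L (dl (n + (k₁ + k₂))) 20 y q r hqr hq hr hy
  have hle : 20 * dl (n + (k₁ + k₂)) ≤ dl (n + k₁) := by
    have := hk₂ (n + k₁)
    rwa [add_assoc] at this
  have hy3 := b1 L L _ (dl (n + k₁)) _ le_rfl hle (dl_pos _).le hy2
  have h3 := hG Q c hc n E E' _ hE hEE hy3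
  have hs : star V = (r + c 1 1) * E' := by
    have e2 : V * ((r + c 1 1) * E') = 1 := by
      rw [hV, mul_assoc, ← mul_assoc (q + c 1 1), ENV_diag hc hqr, one_mul, hEE.r]
    calc star V = star V * (V * ((r + c 1 1) * E')) := by rw [e2, mul_one]
      _ = (r + c 1 1) * E' := by rw [← mul_assoc, h1, one_mul]
  have h4 : V * y * star V = E * ((q + c 1 1) * y * (r + c 1 1)) * E' := by
    rw [hs]
    have : V * y = E * (q + c 1 1) * y := by rw [← hV]
    rw [this]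
    simp only [mul_assoc]
  rw [h4]
  exact h3

end ND

end SCO
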