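import Pool.Agent.Work.MP_52dd0f_nd.InterfaceE

/-! # Block ENW: small Whitehead products -/

set_option autoImplicit false
set_option linter.unusedSectionVars false

namespace SCO

open Filter Topology

universe u

namespace ND

theorem ENW_alg {P : Type u} [Ring P] {e f g k x y r r₂ : P} (fe : f * e = 0) (eg : e * g = 0)
    (fg : f * g = e) (gf : g * f = k) (ge : g * e = g) (ee : e * e = e) (sum : e + k = 1)
    (ex : e * x = x) (xe : x * e = x) (ey : e * y = y) (ye : y * e = y)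
    (er : e * r = r) (re : r * e = r) (h1 : (e + x * y) * r = e) (h2 : r * (e + x * y) = e)
    (er2 : r₂ * e = r₂) (h3 : r₂ * (e + y * x) = e) :
    (1 + g * (-(y * r))) * ((1 + x * f) * ((1 + g * y) * ((1 + (-(r * x)) * f) * 1))) =
      e + x * y + g * r₂ * f := by
  have a1 : x * (y * r) = e - r := by
    rw [add_mul, er] at h1
    rw [← mul_assoc]; exact eq_sub_of_add_eq' h1
  have a2 : r * (x * y) = e - r := by
    rw [mul_add, re] at h2
    exact eq_sub_of_add_eq' h2
  have fx : f * x = 0 := by rw [← ex, ← mul_assoc, fe, zero_mul]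
  have fy : f * y = 0 := by rw [← ey, ← mul_assoc, fe, zero_mul]
  have fr : f * r = 0 := by rw [← er, ← mul_assoc, fe, zero_mul]
  have xg : x * g = 0 := by rw [← xe, mul_assoc, eg, mul_zero]
  have yg : y * g = 0 := by rw [← ye, mul_assoc, eg, mul_zero]
  have rg : r * g = 0 := by rw [← re, mul_assoc, eg, mul_zero]
  -- `r₂ = e - y r x`
  have hr2 : r₂ = e - y * (r * x) := by
    have b1 : (e + y * x) * (e - y * (r * x)) =
        e * e + y * (x * e) - ((e * y) * (r * x) + y * (x * (y * r)) * x) := by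
      noncomm_ring
    have b2 : (e + y * x) * (e - y * (r * x)) = e := by
      rw [b1, a1, ee, xe, ey, mul_sub y, ye, sub_mul y, mul_assoc y r x]; abel
    have b3 : e * (e - y * (r * x)) = e - y * (r * x) := by
      rw [mul_sub, ← mul_assoc e y, ey, ee]
    calc r₂ = r₂ * ((e + y * x) * (e - y * (r * x))) := by rw [b2, er2]
      _ = (r₂ * (e + y * x)) * (e - y * (r * x)) := by rw [mul_assoc]
      _ = e - y * (r * x) := by rw [h3, b3]
  have hB : (1 + x * f) * ((1 + g * y) * ((1 + (-(r * x)) * f) * 1)) =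
      1 + g * y - g * (y * (r * (x * f))) + x * y := by
    have c1 : (1 + x * f) * ((1 + g * y) * ((1 + (-(r * x)) * f) * 1)) =
        1 + x * f + g * y - r * x * f - x * (f * r) * x * f - g * (y * (r * (x * f))) + x * (f * g) * y
          - x * (f * g) * (y * r) * x * f := by noncomm_ring
    rw [c1, fr, fg, xe, a1, mul_zero, zero_mul, zero_mul, sub_zero, sub_mul e r x, sub_mul, ex]
    abel
  have hC : (1 + g * (-(y * r))) * (1 + g * y - g * (y * (r * (x * f))) + x * y) =
      1 + g * y - g * (y * (r * (x * f))) + x * y - g * (y * r) - g * y * (r * g) * y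
        + g * y * (r * g) * (y * (r * (x * f))) - g * (y * (r * (x * y))) := by
    noncomm_ring
  rw [hB, hC, rg, a2, mul_zero, zero_mul, zero_mul, sub_zero, add_zero, mul_sub y, ye, mul_sub g,
    hr2, mul_sub g, ge, sub_mul, gf, ← sum]
  noncomm_ring

theorem p_ENW (hINV : Stmt_INV.{u}) (_hENB : Stmt_ENB.{u}) : Stmt_ENW.{u} := by
  intro P _ c hc x y η ex xe ey ye hx hy hη
  have hη0 : 0 ≤ η := (norm_nonneg x).trans hx
  have ee : c 0 0 * c 0 0 = c 0 0 := by rw [hc.mul]; simp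
  have fe : c 0 1 * c 0 0 = 0 := by rw [hc.mul]; simp
  have eg : c 0 0 * c 1 0 = 0 := by rw [hc.mul]; simp
  have fg : c 0 1 * c 1 0 = c 0 0 := by rw [hc.mul]; simp
  have gf : c 1 0 * c 0 1 = c 1 1 := by rw [hc.mul]; simp
  have ge : c 1 0 * c 0 0 = c 1 0 := by rw [hc.mul]; simp
  have hsum : c 0 0 + c 1 1 = 1 := by
    have h1 := hc.sum
    rw [Fin.sum_univ_two] at h1
    exact h1
  have hse : star (c 0 0) = c 0 0 := hc.star 0 0
  have hxy : ‖x * y‖ ≤ 1 / 2 := by
    refine (norm_mul_le x y).trans ?_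
    calc ‖x‖ * ‖y‖ ≤ η * η := mul_le_mul hx hy (norm_nonneg y) hη0
      _ ≤ 1 / 2 := by nlinarith
  have hyx : ‖y * x‖ ≤ 1 / 2 := by
    refine (norm_mul_le y x).trans ?_
    calc ‖y‖ * ‖x‖ ≤ η * η := mul_le_mul hy hx (norm_nonneg x) hη0
      _ ≤ 1 / 2 := by nlinarith
  obtain ⟨r, hr, hr2, -⟩ := hINV P (c 0 0) (c 0 0 + x * y) ee hse
    (by rw [mul_add, ee, ← mul_assoc, ex]) (by rw [add_mul, ee, mul_assoc, ye])
    (by rw [add_sub_cancel_left]; exact hxy)
  obtain ⟨r₂, hr', hr2', -⟩ := hINV P (c 0 0) (c 0 0 + y * x) ee hse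
    (by rw [mul_add, ee, ← mul_assoc, ey]) (by rw [add_mul, ee, mul_assoc, xe])
    (by rw [add_sub_cancel_left]; exact hyx)
  refine ⟨r, r₂, hr, hr', hr2, hr2', [1 + c 1 0 * (-(y * r)), 1 + x * c 0 1, 1 + c 1 0 * y,
    1 + (-(r * x)) * c 0 1], rfl, ?_, ?_⟩
  · intro t ht
    simp only [List.mem_cons, List.not_mem_nil, or_false] at ht
    have hyr : ‖-(y * r)‖ ≤ 2 * η := by
      rw [norm_neg]
      refine (norm_mul_le y r).trans ?_
      calc ‖y‖ * ‖r‖ ≤ η * 2 := mul_le_mul hy hr2 (norm_nonneg r) hη0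
        _ = 2 * η := by ring
    have hrx : ‖-(r * x)‖ ≤ 2 * η := by
      rw [norm_neg]
      refine (norm_mul_le r x).trans ?_
      exact mul_le_mul hr2 hx (norm_nonneg x) (by norm_num)
    rcases ht with rfl | rfl | rfl | rfl
    · exact ⟨-(y * r), by rw [mul_neg, ← mul_assoc, ey], by rw [neg_mul, mul_assoc, hr.rr], hyr,
        Or.inr rfl⟩
    · exact ⟨x, ex, xe, by linarith, Or.inl rfl⟩
    · exact ⟨y, ey, ye, by linarith, Or.inr rfl⟩
    · exact ⟨-(r * x), by rw [mul_neg, ← mul_assoc, hr.rl], by rw [neg_mul, mul_assoc, xe], hrx,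
        Or.inl rfl⟩
  · simp only [List.prod_cons, List.prod_nil]
    exact ENW_alg fe eg fg gf ge ee hsum ex xe ey ye hr.rl hr.rr hr.m1 hr.m2 hr'.rr hr'.m2

end ND

end SCO
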