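import Pool.Agent.Work.MP_52dd0f_nd.InterfaceE

/-!
# THEOREM ND*, block FIE: the chains between arbitrary Haar unitaries (helper89)
-/

set_option autoImplicit false
set_option linter.unusedSectionVars false

namespace SCO

open Filter Topology

universe u

namespace ND

section

variable {P : Type u} [CStarAlgebra P]

theorem FIE_norm {x : P} (h : star x * x = 1) : ‖x‖ ≤ 1 := by
  have h1 : ‖(1 : P)‖ ≤ 1 := by
    rcases subsingleton_or_nontrivial P with h0 | h0
    · rw [Subsingleton.elim (1 : P) 0, norm_zero]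
      exact zero_le_one
    · exact CStarRing.norm_one.le
  have h2 : ‖x‖ * ‖x‖ ≤ 1 := by
    rw [← CStarRing.norm_star_mul_self, h]
    exact h1
  nlinarith [norm_nonneg x]

theorem FIE_norm' {x : P} (h : x * star x = 1) : ‖star x‖ ≤ 1 :=
  FIE_norm (by rw [star_star]; exact h)

/-- conjugation by two unitaries which are close -/
theorem FIE_close {U r : P} (hU : star U * U = 1) (hr : star r * r = 1) :
    ‖U - r * U * star r‖ ≤ 2 * ‖r - 1‖ := by
  have h1 : U - r * U * star r = - ((r - 1) * U) - r * U * star (r - 1) := by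
    rw [star_sub, star_one, sub_mul, mul_sub, one_mul, mul_one]
    abel
  have hUn := FIE_norm hU
  have hrn := FIE_norm hr
  have h2 : ‖(r - 1) * U‖ ≤ ‖r - 1‖ := by
    calc ‖(r - 1) * U‖ ≤ ‖r - 1‖ * ‖U‖ := norm_mul_le _ _
      _ ≤ ‖r - 1‖ * 1 := mul_le_mul_of_nonneg_left hUn (norm_nonneg _)
      _ = ‖r - 1‖ := mul_one _
  have h3 : ‖r * U * star (r - 1)‖ ≤ ‖r - 1‖ := by
    have h4 : ‖r * U‖ ≤ 1 := by
      calc ‖r * U‖ ≤ ‖r‖ * ‖U‖ := norm_mul_le _ _
        _ ≤ 1 * 1 := mul_le_mul hrn hUn (norm_nonneg _) zero_le_one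
        _ = 1 := one_mul 1
    calc ‖r * U * star (r - 1)‖ ≤ ‖r * U‖ * ‖star (r - 1)‖ := norm_mul_le _ _
      _ ≤ 1 * ‖star (r - 1)‖ := mul_le_mul_of_nonneg_right h4 (norm_nonneg _)
      _ = ‖r - 1‖ := by rw [one_mul, norm_star]
  rw [h1]
  calc ‖- ((r - 1) * U) - r * U * star (r - 1)‖
      ≤ ‖- ((r - 1) * U)‖ + ‖r * U * star (r - 1)‖ := norm_sub_le _ _
    _ = ‖(r - 1) * U‖ + ‖r * U * star (r - 1)‖ := by rw [norm_neg]
    _ ≤ 2 * ‖r - 1‖ := by linarith

theorem FIE_conj_norm {V x : P} (hV : star V * V = 1) : ‖V * x * star V‖ ≤ ‖x‖ := by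
  have h1 := FIE_norm hV
  calc ‖V * x * star V‖ ≤ ‖V * x‖ * ‖star V‖ := norm_mul_le _ _
    _ ≤ (‖V‖ * ‖x‖) * ‖star V‖ := mul_le_mul_of_nonneg_right (norm_mul_le _ _) (norm_nonneg _)
    _ = ‖V‖ * ‖V‖ * ‖x‖ := by rw [norm_star]; ring
    _ ≤ 1 * ‖x‖ := mul_le_mul_of_nonneg_right (by nlinarith [norm_nonneg V]) (norm_nonneg _)
    _ = ‖x‖ := one_mul _

end

theorem p_FIE (hGJN : Stmt_GJN.{u}) (hTEB : Stmt_TEB.{u}) : Stmt_FIE.{u} := by
  intro Q _ _ c U hU C' K k₁ H1 H2 H3 H4
  obtain ⟨k, N, hH3⟩ := H3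
  obtain ⟨-, -, g3, -, -, -, g7, -, -⟩ := hGJN Q 1 IsProj.one
  obtain ⟨t1, t2, t3, -, t5⟩ := hTEB Q U hU
  obtain ⟨k₃, hk₃⟩ := dl_mul_le 3
  have hUs : star U * U = 1 := hU.isom
  have key : ∀ (n : ℕ) (r : Q), star r * r = 1 → r * star r = 1 →
      ‖r - 1‖ ≤ dl (n + k₃ + k + k₁) → TE U (dl n) N r := by
    intro n r hr hr' hrn
    obtain ⟨θ, y, hθ, hy, hry⟩ := H2 (n + k₃ + k) r hr hr' hrn
    have a1 : TE U (dl (n + k₃)) N y := hH3 (n + k₃) y hy
    have a2 : |θ| ≤ dl (n + k₃) := hθ.trans (dl_anti (by omega))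
    have a3 := t3 (dl (n + k₃)) θ 0 a2
    have d0 := (dl_pos (n + k₃)).le
    have a4 := t1 _ _ _ _ _ _ d0 d0 a3 a1
    have a5 : Complex.exp ((θ : ℂ) * Complex.I) • (1 : Q) * y = r := by
      rw [smul_mul_assoc, one_mul, hry]
    rw [a5] at a4
    have d1 : dl (n + k₃) ≤ 1 := (dl_le_half _).trans (by norm_num)
    have d2 : dl (n + k₃) + dl (n + k₃) + dl (n + k₃) * dl (n + k₃) ≤ dl n := by
      have := hk₃ n
      nlinarith
    obtain ⟨t', b1, b2, b3, b4⟩ := a4
    exact ⟨t', b1, b2.trans d2, b3.trans d2, t2 _ _ _ _ _ _ d2 (by omega) b4⟩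
  refine ⟨max (C' * (k₃ + k + k₁ + 1)) (max N 1), (le_max_right _ _).trans (le_max_right _ _),
    fun n u v hu hv => ?_⟩
  set C := max (C' * (k₃ + k + k₁ + 1)) (max N 1) with hC
  obtain ⟨h, hh1, hh2, hh3⟩ := H4 u hu
  obtain ⟨κ, hκ1, hκ2, hκ3⟩ := H4 v hv
  have e1 : star (star h * κ) * (star h * κ) = 1 := by
    calc star (star h * κ) * (star h * κ) = star κ * (h * star h) * κ := by
          simp only [star_mul, star_star, mul_assoc]
      _ = 1 := by rw [hh2, mul_one, hκ1]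
  have e2 : star h * κ * star (star h * κ) = 1 := by
    calc star h * κ * star (star h * κ) = star h * (κ * star κ) * h := by
          simp only [star_mul, star_star, mul_assoc]
      _ = 1 := by rw [hκ2, mul_one, hh1]
  obtain ⟨γ, hγ, hγn⟩ := H1 (n + k₃ + k + k₁) (star h * κ) e1 e2
  have f1 : star γ * γ = 1 := hγ.src
  have f2 : γ * star γ = 1 := hγ.rng
  set r : Q := star γ * (star h * κ) with hr
  have r1 : star r * r = 1 := by
    calc star r * r = star (star h * κ) * (γ * star γ) * (star h * κ) := by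
          rw [hr, star_mul, star_star]; simp only [mul_assoc]
      _ = 1 := by rw [f2, mul_one, e1]
  have r2 : r * star r = 1 := by
    calc r * star r = star γ * (star h * κ * star (star h * κ)) * γ := by
          rw [hr, star_mul (star γ), star_star]; simp only [mul_assoc]
      _ = 1 := by rw [e2, mul_one, f1]
  have r3 : ‖r - 1‖ ≤ dl (n + k₃ + k + k₁) := by
    have : r - 1 = star γ * (star h * κ - γ) := by rw [mul_sub, f1]
    rw [this]
    calc ‖star γ * (star h * κ - γ)‖ ≤ ‖star γ‖ * ‖star h * κ - γ‖ := norm_mul_le _ _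
      _ ≤ 1 * ‖star h * κ - γ‖ := mul_le_mul_of_nonneg_right (FIE_norm' f2) (norm_nonneg _)
      _ = ‖γ - star h * κ‖ := by rw [one_mul, norm_sub_rev]
      _ ≤ _ := hγn
  have T := key n r r1 r2 r3
  obtain ⟨t', ht', -, -, hJ⟩ := T
  have ht : t' = star r := by
    calc t' = (star r * r) * t' := by rw [r1, one_mul]
      _ = star r * (r * t') := by rw [mul_assoc]
      _ = star r := by rw [ht'.r, mul_one]
  rw [ht] at hJ
  have V1 : star (h * γ) * (h * γ) = 1 := by
    calc star (h * γ) * (h * γ) = star γ * (star h * h) * γ := by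
          simp only [star_mul, mul_assoc]
      _ = 1 := by rw [hh1, mul_one, f1]
  have V2 : h * γ * star (h * γ) = 1 := by
    calc h * γ * star (h * γ) = h * (γ * star γ) * star h := by
          simp only [star_mul, mul_assoc]
      _ = 1 := by rw [f2, mul_one, hh2]
  have V3 : h * γ * r = κ := by
    calc h * γ * r = h * (γ * star γ) * star h * κ := by rw [hr]; simp only [mul_assoc]
      _ = κ := by rw [f2, mul_one, hh2, one_mul]
  have V4 : h * γ * (r * U * star r) * star (h * γ) = v := by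
    calc h * γ * (r * U * star r) * star (h * γ) = (h * γ * r) * U * star (h * γ * r) := by
          rw [star_mul (h * γ) r]; simp only [mul_assoc]
      _ = v := by rw [V3, hκ3]
  have W1 : h * (γ * U * star γ) * star h = h * γ * U * star (h * γ) := by
    simp only [star_mul, mul_assoc]
  refine ⟨h * γ * U * star (h * γ), ?_, ?_, ?_⟩
  · have s1 := g3 _ _ _ _ _ hh1 hh2 hγ.jn
    rw [hh3, W1] at s1
    refine g7 _ _ _ _ ?_ s1
    calc C' * (n + k₃ + k + k₁ + 1) ≤ C' * ((k₃ + k + k₁ + 1) * (n + 1)) := by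
          apply Nat.mul_le_mul_left
          nlinarith [Nat.zero_le ((k₃ + k + k₁) * n)]
      _ = C' * (k₃ + k + k₁ + 1) * (n + 1) := by ring
      _ ≤ C * (n + 1) := Nat.mul_le_mul_right _ (le_max_left _ _)
  · have s1 : h * γ * U * star (h * γ) - v = h * γ * (U - r * U * star r) * star (h * γ) := by
      rw [mul_sub, sub_mul, V4]
    rw [s1]
    calc ‖h * γ * (U - r * U * star r) * star (h * γ)‖ ≤ ‖U - r * U * star r‖ := FIE_conj_norm V1
      _ ≤ 2 * ‖r - 1‖ := FIE_close hUs r1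
      _ ≤ 2 * dl (n + k₃) := by
        have := r3.trans (dl_anti (show n + k₃ ≤ n + k₃ + k + k₁ by omega))
        linarith
      _ ≤ dl n := by
        have := hk₃ n
        have := dl_pos (n + k₃)
        linarith
  · have s1 := t5 _ _ _ _ (h * γ) V1 V2 hJ
    rw [V4] at s1
    exact t2 _ _ _ _ _ _ le_rfl ((le_max_left _ _).trans (le_max_right _ _)) s1

end ND

end SCO
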