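import Pool.Agent.Work.MP_52dd0f_nd.InterfaceE

/-!
# THEOREM ND*, block LFE: from the ultrapower to sequences
-/

set_option autoImplicit false
set_option linter.unusedSectionVars false

namespace SCO

namespace ND

open Filter Topology

universe u

theorem LFE_sim {M : Type u} [CStarAlgebra M] [TVN M] (𝒰 : Ultrafilter ℕ)
    [Fact ((𝒰 : Filter ℕ) ≤ atTop)] (ε : ℝ) (x : Sq M) (hx : SmE ε (toUP 𝒰 x)) :
    IsSimE 𝒰 (tr : M →ₗ[ℂ] ℂ) ε x.ev := by
  obtain ⟨g, h, w, hgh, hw, hg, hh, hxe⟩ := hx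
  obtain ⟨g₀, hg₀, hg₁⟩ := exists_lift_UP 𝒰 (g - 1)
  obtain ⟨h₀, hh₀, hh₁⟩ := exists_lift_UP 𝒰 (h - 1)
  obtain ⟨w', hw'⟩ := toUP_surjective 𝒰 w
  have e1 : (1 : Sq M).ev = fun _ => (1 : M) := funext fun k => Sq.ev_one k
  obtain ⟨g', hg'd⟩ : ∃ g' : Sq M, g' = 1 + g₀ := ⟨_, rfl⟩
  obtain ⟨h', hh'd⟩ : ∃ h' : Sq M, h' = 1 + h₀ := ⟨_, rfl⟩
  have hg' : toUP 𝒰 g' = g := by
    rw [hg'd, map_add, map_one, hg₁]
    abel
  have hh' : toUP 𝒰 h' = h := by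
    rw [hh'd, map_add, map_one, hh₁]
    abel
  have hgk : ∀ k, ‖g'.ev k - 1‖ ≤ ε := by
    intro k
    have e2 : g'.ev k - 1 = g₀.ev k := by
      rw [hg'd]
      change (1 : M) + g₀.ev k - 1 = g₀.ev k
      abel
    rw [e2]
    exact (g₀.norm_ev_le k).trans (hg₀.trans hg)
  have hhk : ∀ k, ‖h'.ev k - 1‖ ≤ ε := by
    intro k
    have e2 : h'.ev k - 1 = h₀.ev k := by
      rw [hh'd]
      change (1 : M) + h₀.ev k - 1 = h₀.ev k
      abel
    rw [e2]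
    exact (h₀.norm_ev_le k).trans (hh₀.trans hh)
  refine ⟨⟨‖x‖, fun k => x.norm_ev_le k⟩, g'.ev, h'.ev, w'.ev, fun k => ⟨hgk k, hhk k⟩,
    (haarU_toUP_iff 𝒰 w').1 (by rw [hw']; exact hw), ?_, ?_, ?_⟩
  · have h1 : toUP 𝒰 (g' * h') = toUP 𝒰 1 := by
      rw [map_mul, map_one, hg', hh']; exact hgh.r
    have h2 := (toUP_eq_iff 𝒰 _ _).1 h1
    have e2 : (g' * h').ev = fun k => g'.ev k * h'.ev k := funext fun k => Sq.ev_mul g' h' k
    rw [e1, e2] at h2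
    exact h2
  · have h1 : toUP 𝒰 (h' * g') = toUP 𝒰 1 := by
      rw [map_mul, map_one, hg', hh']; exact hgh.l
    have h2 := (toUP_eq_iff 𝒰 _ _).1 h1
    have e2 : (h' * g').ev = fun k => h'.ev k * g'.ev k := funext fun k => Sq.ev_mul h' g' k
    rw [e1, e2] at h2
    exact h2
  · have h1 : toUP 𝒰 x = toUP 𝒰 (g' * w' * h') := by
      rw [map_mul, map_mul, hg', hh', hw']; exact hxe
    have h2 := (toUP_eq_iff 𝒰 _ _).1 h1
    have e2 : (g' * w' * h').ev = fun k => g'.ev k * w'.ev k * h'.ev k := funext fun k => by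
      rw [Sq.ev_mul, Sq.ev_mul]
    rw [e2] at h2
    exact h2

theorem LFE_haar {M : Type u} [CStarAlgebra M] [TVN M] (𝒰 : Ultrafilter ℕ)
    [Fact ((𝒰 : Filter ℕ) ≤ atTop)] (ε : ℝ) (hε : 0 ≤ ε) (x : UP M 𝒰) (hx : HaarU x) :
    SmE ε x :=
  ⟨1, 1, x, ⟨one_mul 1, one_mul 1⟩, hx, by rw [sub_self, norm_zero]; exact hε,
    by rw [sub_self, norm_zero]; exact hε, by rw [one_mul, mul_one]⟩

theorem p_LFE : Stmt_LFE.{u} := by
  intro M _ _ 𝒰 _ u v ε L₁ L₂ hL₁ hL₂ hu hv H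
  have hu1 : HaarU (toUP 𝒰 (mkSq u hu.bounded)) := (haarU_toUP_iff 𝒰 _).2 hu
  have hv1 : HaarU (toUP 𝒰 (mkSq v hv.bounded)) := (haarU_toUP_iff 𝒰 _).2 hv
  obtain ⟨w', ⟨z, hz0, hzL, hzH, hzc⟩, hw, ⟨t, ht0, htL, htS, htc⟩⟩ := H _ _ hu1 hv1
  have hε : 0 ≤ ε := (norm_nonneg _).trans hw
  obtain ⟨D, hD1, hD2⟩ := exists_lift_UP 𝒰 (w' - toUP 𝒰 (mkSq v hv.bounded))
  have hD3 : toUP 𝒰 (mkSq v hv.bounded + D) = w' := by
    rw [map_add, hD2]
    abel
  obtain ⟨Z, hZ⟩ : ∃ Z : ℕ → UP M 𝒰, Z = fun i => if i ≤ L₁ then z i else t (i - L₁) := ⟨_, rfl⟩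
  have hZ1 : ∀ i, i ≤ L₁ → Z i = z i := by
    intro i hi
    rw [hZ]
    exact if_pos hi
  have hZ2 : ∀ i, L₁ ≤ i → Z i = t (i - L₁) := by
    intro i hi
    rcases Nat.eq_or_lt_of_le hi with h | h
    · rw [← h, hZ1 L₁ le_rfl, hzL, Nat.sub_self, ht0]
    · rw [hZ]
      exact if_neg (by omega)
  have hZS : ∀ i, SmE ε (Z i) := by
    intro i
    rcases le_total i L₁ with h | h
    · rw [hZ1 i h]
      exact LFE_haar 𝒰 ε hε _ (hzH i).haarU
    · rw [hZ2 i h]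
      exact htS _
  have hZc : ∀ i, Z i * Z (i + 1) = Z (i + 1) * Z i := by
    intro i
    rcases Nat.lt_or_ge i L₁ with h | h
    · rw [hZ1 i (by omega), hZ1 (i + 1) (by omega)]
      exact hzc i
    · rw [hZ2 i h, hZ2 (i + 1) (by omega)]
      have e : i + 1 - L₁ = (i - L₁) + 1 := by omega
      rw [e]
      exact htc _
  choose y hy using fun i => toUP_surjective 𝒰 (Z i)
  obtain ⟨x, hxdef⟩ : ∃ x : ℕ → Sq M, x = fun i => if i = 0 then mkSq u hu.bounded else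
    if i = L₁ then mkSq v hv.bounded + D else
    if i = L₁ + L₂ then mkSq v hv.bounded else y i := ⟨_, rfl⟩
  have hx0 : x 0 = mkSq u hu.bounded := by
    rw [hxdef]
    exact if_pos rfl
  have hxL : x L₁ = mkSq v hv.bounded + D := by
    rw [hxdef]
    beta_reduce
    rw [if_neg (by omega), if_pos rfl]
  have hxE : x (L₁ + L₂) = mkSq v hv.bounded := by
    rw [hxdef]
    beta_reduce
    rw [if_neg (by omega), if_neg (by omega), if_pos rfl]
  have hx : ∀ i, toUP 𝒰 (x i) = Z i := by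
    intro i
    by_cases h0 : i = 0
    · rw [h0, hx0, hZ1 0 (by omega), hz0]
    · by_cases hiL : i = L₁
      · rw [hiL, hxL, hD3, hZ1 L₁ le_rfl, hzL]
      · by_cases hiE : i = L₁ + L₂
        · rw [hiE, hxE, hZ2 _ (by omega), Nat.add_sub_cancel_left, htL]
        · rw [hxdef]
          beta_reduce
          rw [if_neg h0, if_neg hiL, if_neg hiE]
          exact hy i
  refine ⟨fun i => (x i).ev, ?_, ?_, ?_, ?_, ?_⟩
  · change (x 0).ev = u
    rw [hx0]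
    rfl
  · change (x (L₁ + L₂)).ev = v
    rw [hxE]
    rfl
  · intro i hi
    refine ⟨(haarU_toUP_iff 𝒰 (x i)).1 (by rw [hx, hZ1 i (by omega)]; exact (hzH i).haarU),
      (haarU_toUP_iff 𝒰 (x (i + 1))).1 (by rw [hx, hZ1 (i + 1) (by omega)];
                                            exact (hzH (i + 1)).haarU), ?_⟩
    exact (commute_toUP_iff 𝒰 (x i) (x (i + 1))).1 (by rw [hx, hx]; exact hZc i)
  · intro k
    change ‖(x L₁).ev k - v k‖ ≤ ε
    rw [hxL]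
    have h1 : (mkSq v hv.bounded + D).ev k - v k = D.ev k := by
      change v k + D.ev k - v k = D.ev k
      abel
    rw [h1]
    exact (D.norm_ev_le k).trans (hD1.trans hw)
  · intro i _
    refine ⟨LFE_sim 𝒰 ε (x i) (by rw [hx]; exact hZS i),
      LFE_sim 𝒰 ε (x (i + 1)) (by rw [hx]; exact hZS (i + 1)), ?_⟩
    exact (commute_toUP_iff 𝒰 (x i) (x (i + 1))).1 (by rw [hx, hx]; exact hZc i)

end ND

end SCO
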