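import Pool.Agent.Work.MP_52dd0f_nd.InterfaceE
import Pool.Agent.Work.MP_52dd0f_nd.B_CSH

/-!
# THEOREM ND*, block MCS: the multiplicative cyclic shift (typed by helper77)
-/

set_option autoImplicit false
set_option linter.unusedSectionVars false

namespace SCO

open Filter Topology

universe u

namespace ND

theorem MCS_exp (t : ℝ) : (starRingEnd ℂ) (Complex.exp ((t : ℂ) * Complex.I)) =
    Complex.exp (((-t : ℝ) : ℂ) * Complex.I) := by
  rw [← Complex.exp_conj, map_mul, Complex.conj_ofReal, Complex.conj_I]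
  congr 1
  push_cast
  ring

theorem MCS_mul (s t : ℝ) : Complex.exp ((s : ℂ) * Complex.I) * Complex.exp ((t : ℂ) * Complex.I) =
    Complex.exp (((s + t : ℝ) : ℂ) * Complex.I) := by
  rw [← Complex.exp_add]
  congr 1
  push_cast
  ring

/-- the product of two diagonal elements -/
theorem MCS_diag {M : Type u} [CStarAlgebra M] {m : ℕ} {q : Fin m → M} (hq : ∀ i, IsProj (q i))
    (ho : ∀ i j, i ≠ j → q i * q j = 0) (a b : Fin m → ℂ) :
    (∑ i, a i • q i) * (∑ i, b i • q i) = ∑ i, (a i * b i) • q i := by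
  rw [Finset.sum_mul]
  refine Finset.sum_congr rfl fun i _ => ?_
  rw [Finset.mul_sum, Finset.sum_eq_single i]
  · rw [smul_mul_smul_comm, (hq i).mul]
  · intro j _ hj
    rw [smul_mul_smul_comm, ho i j (Ne.symm hj), smul_zero]
  · intro h; exact absurd (Finset.mem_univ i) h

theorem MCS_star {M : Type u} [CStarAlgebra M] {m : ℕ} {q : Fin m → M} (hq : ∀ i, IsProj (q i))
    (S : Fin m → ℝ) :
    star (∑ i, Complex.exp ((S i : ℂ) * Complex.I) • q i) =
      ∑ i, Complex.exp (((-S i : ℝ) : ℂ) * Complex.I) • q i := by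
  rw [star_sum]
  refine Finset.sum_congr rfl fun i _ => ?_
  rw [star_smul, (hq i).star]
  congr 1
  exact MCS_exp (S i)

theorem p_MCS (hRRD : Stmt_RRD) (hNMX : Stmt_NMX.{u}) : Stmt_MCS.{u} := by
  intro M _ _ _ n r x B hr ho hsum htau hB hx hx0
  rcases n with _ | m
  · have h1 : (1 : M) = 0 := by rw [← hsum]; simp
    refine ⟨0, 0, ?_, ?_, ?_, ?_, ?_, ?_⟩
    · rw [h1, mul_zero]
    · rw [h1, zero_mul]
    · rw [h1, mul_zero]
    · rw [h1, zero_mul]
    · rw [h1, sub_zero, norm_zero]; exact hB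
    · simp
  obtain ⟨σ, hσ⟩ := hRRD (m + 1) x B hB hx hx0
  set q : Fin (m + 1) → M := fun k => r (σ k) with hqdef
  have hq : ∀ i, IsProj (q i) := fun i => hr (σ i)
  have hqo : ∀ i j, i ≠ j → q i * q j = 0 := fun i j hij =>
    ho (σ i) (σ j) (fun h => hij (σ.injective h))
  have hqs : ∑ k, q k = 1 := by rw [← hsum]; exact Equiv.sum_comp σ r
  have hw : ∀ k, ∃ v : M, star v * v = q 0 ∧ v * star v = q k := fun k =>
    equiv_of_tau (hq 0) (hq k) (htau _ _)
  choose w hw1 hw2 using hw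
  have hw3 : ∀ k, w k * q 0 = w k := fun k => pi_mul_src (hq 0) (hw1 k)
  have hw4 : ∀ k, q k * w k = w k := fun k => pi_mul_rng (hq 0) (hw1 k) (hw2 k)
  obtain ⟨hs1, hs2, hs3⟩ := CSH_alg q w hq hqo hw1 hw2 hw3 hw4
  set s : M := ∑ k, w (k + 1) * star (w k) with hs
  set S : Fin (m + 1) → ℝ := fun k =>
    ∑ i ∈ Finset.univ.filter (fun i : Fin (m + 1) => (i : ℕ) < (k : ℕ) + 1), x (σ i) with hS
  have hSb : ∀ k, |S k| ≤ B := fun k => hσ ((k : ℕ) + 1)
  have hx0' : ∑ i, x (σ i) = 0 := by rw [← hx0]; exact Equiv.sum_comp σ x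
  have hSd : ∀ k, S (k + 1) - S k = x (σ (k + 1)) := fun k =>
    CSH_partial (fun i => x (σ i)) hx0' k
  have hkst := MCS_star hq S
  refine ⟨∑ k, Complex.exp ((S k : ℂ) * Complex.I) • q k, s, ?_, ?_, ?_, ?_, ?_, ?_⟩
  · rw [hkst, MCS_diag hq hqo, ← hqs]
    refine Finset.sum_congr rfl fun k _ => ?_
    rw [MCS_mul, neg_add_cancel, Complex.ofReal_zero, zero_mul, Complex.exp_zero, one_smul]
  · rw [hkst, MCS_diag hq hqo, ← hqs]
    refine Finset.sum_congr rfl fun k _ => ?_
    rw [MCS_mul, add_neg_cancel, Complex.ofReal_zero, zero_mul, Complex.exp_zero, one_smul]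
  · rw [hs1, hqs]
  · rw [hs2, hqs]
  · have e1 : ∑ k, Complex.exp ((S k : ℂ) * Complex.I) • q k - 1 =
        ∑ k, (Complex.exp ((S k : ℂ) * Complex.I) - 1) • q k := by
      rw [← hqs, ← Finset.sum_sub_distrib]
      refine Finset.sum_congr rfl fun k _ => ?_
      rw [sub_smul, one_smul]
    rw [e1]
    refine hNMX M (m + 1) q (fun k => (Complex.exp ((S k : ℂ) * Complex.I) - 1) • q k) hq hqo
      ?_ ?_ B hB ?_
    · intro k; rw [mul_smul_comm, (hq k).mul]
    · intro k; rw [smul_mul_assoc, (hq k).mul]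
    · intro k
      rw [norm_smul]
      have h1 : ‖Complex.exp ((S k : ℂ) * Complex.I) - 1‖ ≤ B := by
        rw [mul_comm]
        exact (Real.norm_exp_I_mul_ofReal_sub_one_le).trans
          ((Real.norm_eq_abs _).trans_le (hSb k))
      calc ‖Complex.exp ((S k : ℂ) * Complex.I) - 1‖ * ‖q k‖ ≤ B * 1 :=
            mul_le_mul h1 (hq k).norm_le (norm_nonneg _) hB
        _ = B := mul_one B
  · have e1 : s * star (∑ k, Complex.exp ((S k : ℂ) * Complex.I) • q k) * star s =
        ∑ k, Complex.exp (((-S k : ℝ) : ℂ) * Complex.I) • q (k + 1) := by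
      rw [hkst, Finset.mul_sum, Finset.sum_mul]
      refine Finset.sum_congr rfl fun k _ => ?_
      rw [mul_smul_comm, smul_mul_assoc, hs3]
    have e2 : ∑ k, Complex.exp ((S k : ℂ) * Complex.I) • q k =
        ∑ k, Complex.exp ((S (k + 1) : ℂ) * Complex.I) • q (k + 1) :=
      (Equiv.sum_comp (Equiv.addRight (1 : Fin (m + 1)))
        (fun k => Complex.exp ((S k : ℂ) * Complex.I) • q k)).symm
    have e3 : ∀ a b c d : M, a * b * c * d = a * (b * c * d) := fun a b c d => by
      simp only [mul_assoc]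
    rw [e3, e1, e2, MCS_diag (fun i => hq (i + 1))
      (fun i j hij => hqo (i + 1) (j + 1) (fun h => hij (add_right_cancel h)))]
    have e4 : ∀ k, (Complex.exp ((S (k + 1) : ℂ) * Complex.I) *
        Complex.exp (((-S k : ℝ) : ℂ) * Complex.I)) • q (k + 1) =
        Complex.exp ((x (σ (k + 1)) : ℂ) * Complex.I) • r (σ (k + 1)) := by
      intro k
      rw [MCS_mul, ← sub_eq_add_neg, hSd]
    rw [Finset.sum_congr rfl fun k _ => e4 k]
    exact (Equiv.sum_comp (Equiv.addRight (1 : Fin (m + 1)))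
      (fun k => Complex.exp ((x (σ k) : ℂ) * Complex.I) • r (σ k))).trans
      (Equiv.sum_comp σ (fun i => Complex.exp ((x i : ℂ) * Complex.I) • r i))

end ND

end SCO
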