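import Pool.Agent.Work.MP_52dd0f_nd.InterfaceE

set_option autoImplicit false
set_option linter.unusedSectionVars false

namespace SCO

open Filter Topology

universe u

namespace ND

theorem p_QAE (hFAC : Stmt_FAC.{u}) (hSAA : Stmt_SAA.{u}) (hSAB : Stmt_SAB.{u}) (hSAC : Stmt_SAC.{u})
    (hUNX : Stmt_UNX.{u}) (hAMP : Stmt_AMP.{u}) (hCNC : Stmt_CNC.{u}) (_hGJN : Stmt_GJN.{u})
    (hCLS : Stmt_CLS.{u}) (hUNI : Stmt_UNI.{u}) (hGSP : Stmt_GSP.{u}) (hOFG : Stmt_OFG.{u})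
    (hDMG : Stmt_DMG.{u}) (hGYS : Stmt_GYS.{u}) (hTRX : Stmt_TRX.{u}) (hSTR : Stmt_STR.{u})
    (hNST : Stmt_NST.{u}) (hNIT : Stmt_NIT.{u}) (hDNR : Stmt_DNR.{u}) (hRKX : Stmt_RKX.{u})
    (hSEP : Stmt_SEP.{u}) (hTEL : Stmt_TEL.{u}) (hTEN : Stmt_TEN.{u}) (hFIE : Stmt_FIE.{u}) :
    Stmt_QAE.{u} := by
  intro K _ _ _ 𝒰 _ hspan
  have hF : FactorII (UP K 𝒰) := hFAC K 𝒰
  have hS : Sat (UP K 𝒰) := ⟨hSAA K 𝒰, hSAB K 𝒰, hSAC K 𝒰⟩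
  have h1 : IsProj (1 : UP K 𝒰) := IsProj.one
  obtain ⟨c, hc⟩ := hUNX (UP K 𝒰) 1 h1 1
  obtain ⟨hA0, -, -, -, -, -, -, -, hA8⟩ := hAMP (UP K 𝒰) 1 c hc
  obtain ⟨h₀, hh⟩ := exists_halving (noMin_empty (M := UP K 𝒰))
  obtain ⟨u₀, -, hu₀, -⟩ := tree_limit hh (co_empty _) hA0
  have hUH : HaarU (am (n := 1) c u₀) :=
    (hA8 u₀ (IsHaarIn.mul_left hA0 hu₀) (IsHaarIn.mul_right hA0 hu₀)).1 hu₀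
  have hconj : ∀ w, IsHaarIn (c 0 0) w → ∃ h : UP K 𝒰, star h * h = c 0 0 ∧ h * star h = c 0 0 ∧
      h * u₀ * star h = w := fun w hw => hCNC _ hS 1 c hc u₀ w hu₀ hw
  have hcl := hCLS K 𝒰 (c 0 0) u₀ hA0 hu₀ hconj
  obtain ⟨m, hm⟩ := hUNI _ (c 0 0) u₀ hA0 hu₀ hcl (hspan c hc u₀ hu₀)
  obtain ⟨m₁, hm₁⟩ := hOFG _ c hc u₀ hu₀ m hm
  have hd := hDMG _ c hc u₀ hu₀ m₁ hm₁
  obtain ⟨m₂, hm₂⟩ := hGYS _ c hc u₀ hu₀ m m₁ hm hd hUH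
  obtain ⟨-, hmono, -, -, -, -⟩ := hGSP _ (am (n := 1) c u₀) hUH
  obtain ⟨m', hm'⟩ := hSTR _ c hc u₀ hUH (max m₁ m₂)
    (fun x hx1 hx2 hx3 => hmono _ _ _ (le_max_left _ _) (hm₁ x hx1 hx2 hx3))
    (fun y hy hy1 hy2 hy3 => hmono _ _ _ (le_max_left _ _) (hd y hy hy1 hy2 hy3))
    (fun y s hy hy1 hy2 hy3 hs hs' => hmono _ _ _ (le_max_right _ _) (hm₂ y s hy hy1 hy2 hy3 hs hs'))
    (fun T hT hT1 hT2 hT3 hT4 => hTRX K 𝒰 (c 0 0) T hA0 hT hT1 hT2 hT3 hT4)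
  obtain ⟨n₁, C, hC1, hN⟩ := hNST _ (am (n := 1) c u₀) hUH m' hm'
  have hI := hNIT _ (am (n := 1) c u₀) hUH n₁ C hC1 hN
  obtain ⟨C', hC'⟩ := hDNR _ (am (n := 1) c u₀) hUH n₁ C hC1 hI
  obtain ⟨K₁, k₁, hsep⟩ := hSEP (UP K 𝒰) c hc
    (fun v δ hv hv' hδ hδ' hvδ => hRKX K 𝒰 v δ hv hv' hδ hδ' hvδ)
  obtain ⟨m₃, hm₃⟩ := hTEL (UP K 𝒰) c hc u₀ hu₀ m hm
  have hten := hTEN (UP K 𝒰) c (am (n := 1) c u₀) hUH m₃ hm₃ K₁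
  exact hFIE (UP K 𝒰) c (am (n := 1) c u₀) hUH C' K₁ k₁ hC' hsep hten
    (fun v hv => hSAA K 𝒰 _ v hUH hv)

end ND

end SCO
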