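import Pool.Agent.Work.MP_52dd0f_nd.InterfaceE

/-!
# Block RKA (MP_52dd0f_an, THEOREM ND*): a unitary near 1 is nearly a commutator (typed by helper88)
-/

set_option autoImplicit false
set_option linter.unusedSectionVars false

namespace SCO

open Filter Topology

universe u

namespace ND

theorem RKA_arg (z : ℂ) (hz : ‖z‖ = 1) : |Complex.arg z| ≤ 2 * ‖z - 1‖ ∧
    Complex.exp ((Complex.arg z : ℂ) * Complex.I) = z := by
  have h1 : Complex.exp ((Complex.arg z : ℂ) * Complex.I) = z := by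
    have := Complex.norm_mul_exp_arg_mul_I z
    rw [hz] at this
    simpa using this
  refine ⟨?_, h1⟩
  obtain ⟨t, ht⟩ : ∃ t : ℝ, t = Complex.arg z := ⟨_, rfl⟩
  rw [← ht] at h1 ⊢
  have ht1 : t ≤ Real.pi := by rw [ht]; exact Complex.arg_le_pi z
  have ht2 : -Real.pi < t := by rw [ht]; exact Complex.neg_pi_lt_arg z
  have h2 : ‖z - 1‖ = ‖2 * Real.sin (t / 2)‖ := by
    rw [← h1, mul_comm]
    exact Complex.norm_exp_I_mul_ofReal_sub_one t
  have hpi := Real.pi_le_four
  have hpi0 := Real.pi_pos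
  have key : ∀ x : ℝ, 0 ≤ x → x ≤ Real.pi / 2 → x / 2 ≤ Real.sin x := by
    intro x hx hx'
    refine le_trans ?_ (Real.mul_le_sin hx hx')
    have : (1 : ℝ) / 2 ≤ 2 / Real.pi := by
      rw [div_le_div_iff₀ (by norm_num) hpi0]; linarith
    nlinarith
  rw [h2, Real.norm_eq_abs, abs_mul, abs_of_pos (by norm_num : (0 : ℝ) < 2)]
  rcases le_total 0 t with h | h
  · have h3 := key (t / 2) (by linarith) (by linarith)
    have h4 := le_abs_self (Real.sin (t / 2))
    rw [abs_of_nonneg h]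
    linarith
  · have h3 := key (-t / 2) (by linarith) (by linarith)
    have h5 : Real.sin (-t / 2) = -Real.sin (t / 2) := by
      rw [neg_div, Real.sin_neg]
    have h4 := neg_le_abs (Real.sin (t / 2))
    rw [abs_of_nonpos h]
    rw [h5] at h3
    linarith

theorem RKA_norm {M : Type u} [CStarAlgebra M] {q : M} (hq : IsProj q) (h0 : q ≠ 0) : ‖q‖ = 1 := by
  have h1 : ‖star q * q‖ = ‖q‖ * ‖q‖ := CStarRing.norm_star_mul_self
  rw [hq.star, hq.mul] at h1
  have h2 : ‖q‖ ≠ 0 := norm_ne_zero_iff.2 h0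
  have h3 : ‖q‖ * 1 = ‖q‖ * ‖q‖ := by rw [mul_one]; exact h1
  exact (mul_left_cancel₀ h2 h3).symm

theorem p_RKA (hDEC : Stmt_DEC.{u}) (hPAR : Stmt_PAR.{u}) (hMCS : Stmt_MCS.{u}) :
    Stmt_RKA.{u} := by
  classical
  intro M _ _ _ v δ ε hv hv' hδ hδ4 hvδ hε
  obtain ⟨ε', hε'⟩ : ∃ ε' : ℝ, ε' = min δ (ε / 2) := ⟨_, rfl⟩
  have hε'0 : 0 < ε' := by rw [hε']; exact lt_min hδ (by linarith)
  have hε'δ : ε' ≤ δ := by rw [hε']; exact min_le_left _ _
  have hε'ε : ε' ≤ ε / 2 := by rw [hε']; exact min_le_right _ _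
  obtain ⟨J, lam, Ψ, hlam, -, hD⟩ := hDEC ε' hε'0
  obtain ⟨p, hdec, -⟩ := hD M v hv hv'
  obtain ⟨w, hw⟩ : ∃ w : M, w = ∑ j, lam j • p j := ⟨_, rfl⟩
  have hnear : ‖v - w‖ ≤ ε' := by rw [hw]; exact hdec.near
  have hwp : ∀ j, w * p j = lam j • p j := by
    intro j
    rw [hw, Finset.sum_mul, Finset.sum_eq_single j]
    · rw [smul_mul_assoc, (hdec.proj j).mul]
    · intro i _ hij
      rw [smul_mul_assoc, hdec.orth i j hij, smul_zero]
    · intro h; exact absurd (Finset.mem_univ j) h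
  have hlam1 : ∀ j, p j ≠ 0 → ‖lam j - 1‖ ≤ 2 * δ := by
    intro j hj
    have hn : ‖p j‖ = 1 := RKA_norm (hdec.proj j) hj
    have e1 : (lam j - 1) • p j = (v - 1) * p j - (v - w) * p j := by
      rw [sub_mul, sub_mul, hwp, sub_smul, one_smul, one_mul]; abel
    have e2 : ‖(lam j - 1) • p j‖ = ‖lam j - 1‖ := by rw [norm_smul, hn, mul_one]
    rw [← e2, e1]
    refine (norm_sub_le _ _).trans ?_
    have h1 := norm_mul_le (v - 1) (p j)
    have h2 := norm_mul_le (v - w) (p j)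
    rw [hn, mul_one] at h1 h2
    linarith
  obtain ⟨ϑ, hϑ⟩ : ∃ ϑ : Fin J → ℝ, ϑ = fun j => if p j = 0 then 0 else Complex.arg (lam j) :=
    ⟨_, rfl⟩
  have hϑb : ∀ j, |ϑ j| ≤ 4 * δ := by
    intro j
    rw [hϑ]
    by_cases h : p j = 0
    · simp only [if_pos h, abs_zero]; linarith
    · simp only [if_neg h]
      have h1 := (RKA_arg (lam j) (hlam j)).1
      have h2 := hlam1 j h
      linarith
  have hϑe : ∀ j, Complex.exp ((ϑ j : ℂ) * Complex.I) • p j = lam j • p j := by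
    intro j
    by_cases h : p j = 0
    · rw [h, smul_zero, smul_zero]
    · rw [hϑ]
      simp only [if_neg h]
      rw [(RKA_arg (lam j) (hlam j)).2]
  obtain ⟨n, hn⟩ := exists_nat_gt ((J : ℝ) ^ 2 / ε ^ 2)
  have hnR : (0 : ℝ) < n := lt_of_le_of_lt (by positivity) hn
  have hn0 : 0 < n := by exact_mod_cast hnR
  have h1ne : (1 : M) ≠ 0 := by
    intro h
    have h1 : tau (1 : M) = tau (0 : M) := by rw [h]
    rw [tau_one, tau_zero] at h1
    exact one_ne_zero h1
  obtain ⟨r, f, hr, hro, hrs, hrt, hrp, hcard⟩ :=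
    hPAR M 1 IsProj.one h1ne J p hdec.proj hdec.orth hdec.sum n hn0
  obtain ⟨x', hx'⟩ : ∃ x' : Fin n → ℝ, x' = fun i => (f i).elim 0 ϑ := ⟨_, rfl⟩
  have hx'b : ∀ i, |x' i| ≤ 4 * δ := by
    intro i
    rw [hx']
    rcases hfi : f i with _ | j
    · simp only [hfi, Option.elim, abs_zero]; linarith
    · simp only [hfi, Option.elim]
      exact hϑb j
  obtain ⟨θ, hθ⟩ : ∃ θ : ℝ, θ = (∑ i, x' i) / n := ⟨_, rfl⟩
  have hθb : |θ| ≤ 4 * δ := by
    rw [hθ, abs_div, abs_of_pos hnR, div_le_iff₀ hnR]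
    refine (Finset.abs_sum_le_sum_abs _ _).trans ?_
    refine (Finset.sum_le_sum fun i _ => hx'b i).trans ?_
    rw [Finset.sum_const, Finset.card_univ, Fintype.card_fin, nsmul_eq_mul]
    linarith
  have hxb : ∀ i, |x' i - θ| ≤ 8 * δ := by
    intro i
    have h1 := hx'b i
    have h2 := abs_sub (x' i) θ
    linarith
  have hxs : ∑ i, (x' i - θ) = 0 := by
    rw [Finset.sum_sub_distrib, Finset.sum_const, Finset.card_univ, Fintype.card_fin,
      nsmul_eq_mul, hθ, mul_div_cancel₀ _ hnR.ne', sub_self]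
  obtain ⟨k, s, hk, hk', hs, hs', hk1, hks⟩ := hMCS M n r (fun i => x' i - θ) (8 * δ) hr hro hrs
    (fun i j => by rw [hrt, hrt]) (by linarith) hxb hxs
  refine ⟨θ, k, s, hθb, hk, hk', hs, hs', hk1, ?_⟩
  have e1 : Complex.exp ((θ : ℂ) * Complex.I) • (k * s * star k * star s) =
      ∑ i, Complex.exp ((x' i : ℂ) * Complex.I) • r i := by
    rw [hks, Finset.smul_sum]
    apply Finset.sum_congr rfl
    intro i _
    rw [smul_smul, ← Complex.exp_add]
    congr 2
    push_cast
    ring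
  rw [e1]
  have hc0 : 0 ≤ Real.sqrt (1 / (n : ℝ)) := Real.sqrt_nonneg _
  have hnr : ∀ i, n2 (r i) = Real.sqrt (1 / (n : ℝ)) := by
    intro i
    have h1 := (hr i).tau_eq
    rw [hrt i, tau_one] at h1
    rw [h1, Real.sqrt_sq (n2_nonneg _)]
  have hw1 : ‖w - 1‖ ≤ 1 / 2 := by
    have h1 : w - 1 = (v - 1) - (v - w) := by abel
    rw [h1]
    refine (norm_sub_le _ _).trans ?_
    linarith
  have e2 : w - ∑ i, Complex.exp ((x' i : ℂ) * Complex.I) • r i =
      ∑ i, (w * r i - Complex.exp ((x' i : ℂ) * Complex.I) • r i) := by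
    rw [Finset.sum_sub_distrib, ← Finset.mul_sum, hrs, mul_one]
  have h3 : ∀ i, n2 (w * r i - Complex.exp ((x' i : ℂ) * Complex.I) • r i) ≤
      if f i = none then 1 / 2 * Real.sqrt (1 / (n : ℝ)) else 0 := by
    intro i
    rcases hfi : f i with _ | j
    · rw [if_pos rfl]
      have e3 : x' i = 0 := by rw [hx']; simp only [hfi, Option.elim]
      rw [e3]
      have e4 : w * r i - Complex.exp (((0 : ℝ) : ℂ) * Complex.I) • r i = (w - 1) * r i := by
        rw [sub_mul, one_mul]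
        simp
      rw [e4]
      refine (n2_mul_le_left _ _).trans ?_
      rw [hnr i]
      exact mul_le_mul_of_nonneg_right hw1 hc0
    · rw [if_neg (by simp)]
      have e3 : x' i = ϑ j := by rw [hx']; simp only [hfi, Option.elim]
      have e4 : p j * r i = r i := (hr i).mul_swap (hdec.proj j) (hrp i j hfi)
      have e5 : w * r i = lam j • r i := by
        calc w * r i = w * (p j * r i) := by rw [e4]
          _ = (w * p j) * r i := by rw [mul_assoc]
          _ = lam j • (p j * r i) := by rw [hwp, smul_mul_assoc]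
          _ = lam j • r i := by rw [e4]
      have e6 : Complex.exp ((x' i : ℂ) * Complex.I) • r i = lam j • r i := by
        rw [e3]
        calc Complex.exp ((ϑ j : ℂ) * Complex.I) • r i
            = (Complex.exp ((ϑ j : ℂ) * Complex.I) • p j) * r i := by rw [smul_mul_assoc, e4]
          _ = (lam j • p j) * r i := by rw [hϑe]
          _ = lam j • r i := by rw [smul_mul_assoc, e4]
      rw [e5, e6, sub_self, n2_zero]
  have h4 : n2 (w - ∑ i, Complex.exp ((x' i : ℂ) * Complex.I) • r i) ≤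
      J * (1 / 2 * Real.sqrt (1 / (n : ℝ))) := by
    rw [e2]
    refine (n2_sum_le _ _).trans ?_
    refine (Finset.sum_le_sum fun i _ => h3 i).trans ?_
    rw [← Finset.sum_filter, Finset.sum_const, nsmul_eq_mul]
    have hc : ((Finset.univ.filter (fun i => f i = none)).card : ℝ) ≤ J := by exact_mod_cast hcard
    exact mul_le_mul_of_nonneg_right hc (by positivity)
  have h5 : (J : ℝ) * Real.sqrt (1 / (n : ℝ)) ≤ ε := by
    by_contra h
    push Not at h
    have h6 : ε ^ 2 < ((J : ℝ) * Real.sqrt (1 / (n : ℝ))) ^ 2 :=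
      pow_lt_pow_left₀ h hε.le two_ne_zero
    rw [mul_pow, Real.sq_sqrt (by positivity)] at h6
    rw [div_lt_iff₀ (by positivity)] at hn
    rw [mul_one_div, lt_div_iff₀ hnR] at h6
    linarith
  have e7 : v - ∑ i, Complex.exp ((x' i : ℂ) * Complex.I) • r i =
      (v - w) + (w - ∑ i, Complex.exp ((x' i : ℂ) * Complex.I) • r i) := by abel
  rw [e7]
  refine (n2_add_le _ _).trans ?_
  have h8 := n2_le_norm (v - w)
  linarith

end ND

end SCO
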