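import Pool.Agent.Work.MP_52dd0f_nd.InterfaceE

/-!
# Block RKX (helper1): unitaries near one are exact commutators up to scalars
-/

set_option autoImplicit false
set_option linter.unusedSectionVars false

namespace SCO

open Filter Topology

universe u

namespace ND

theorem RKX_exp (a b : ℝ) : ‖Complex.exp ((a : ℂ) * Complex.I) - Complex.exp ((b : ℂ) * Complex.I)‖ ≤
    |a - b| := by
  have h1 : Complex.exp ((a : ℂ) * Complex.I) - Complex.exp ((b : ℂ) * Complex.I) =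
      Complex.exp ((b : ℂ) * Complex.I) * (Complex.exp (Complex.I * ((a - b : ℝ) : ℂ)) - 1) := by
    rw [mul_sub, ← Complex.exp_add, mul_one]
    congr 2
    push_cast
    ring
  rw [h1, norm_mul, Complex.norm_exp_ofReal_mul_I, one_mul]
  exact Real.norm_exp_I_mul_ofReal_sub_one_le

/-- the limit of the scalars -/
theorem RKX_lim (hRKA : Stmt_RKA.{u}) {M : Type u} [CStarAlgebra M] [TVN M] [FactorII M] (v : M)
    (δ : ℝ) (h1 : star v * v = 1) (h2 : v * star v = 1) (hδ : 0 < δ) (hδ' : δ ≤ 1 / 4)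
    (hv : ‖v - 1‖ ≤ δ) : ∃ θ : ℝ, |θ| ≤ 4 * δ ∧ ∀ ε : ℝ, 0 < ε → ∃ (k s : M),
      star k * k = 1 ∧ k * star k = 1 ∧ star s * s = 1 ∧ s * star s = 1 ∧ ‖k - 1‖ ≤ 8 * δ ∧
      n2 (v - Complex.exp ((θ : ℂ) * Complex.I) • (k * s * star k * star s)) ≤ ε := by
  choose θ k s hθ hk1 hk2 hs1 hs2 hkn hn using fun i : ℕ =>
    hRKA M v δ (1 / ((i : ℝ) + 1)) h1 h2 hδ hδ' hv (by positivity)
  obtain ⟨θ₀, hθ₀, φ, hφ, hlim⟩ := (isCompact_Icc (a := -(4 * δ)) (b := 4 * δ)).tendsto_subseq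
    (x := θ) (fun n => abs_le.1 (hθ n))
  refine ⟨θ₀, abs_le.2 hθ₀, fun ε hε => ?_⟩
  have e1 : ∀ᶠ i in atTop, |θ (φ i) - θ₀| < ε / 2 := by
    have := (Metric.tendsto_nhds.1 hlim) (ε / 2) (by positivity)
    simpa [Real.dist_eq] using this
  have e2 : ∀ᶠ i : ℕ in atTop, 1 / (((φ i : ℕ) : ℝ) + 1) ≤ ε / 2 := by
    have h3 : Tendsto (fun i : ℕ => 1 / (((φ i : ℕ) : ℝ) + 1)) atTop (nhds 0) :=
      tendsto_one_div_add_atTop_nhds_zero_nat.comp hφ.tendsto_atTop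
    exact (h3.eventually (gt_mem_nhds (show (0 : ℝ) < ε / 2 by positivity))).mono
      fun i hi => le_of_lt hi
  obtain ⟨i, hi1, hi2⟩ := (e1.and e2).exists
  refine ⟨k (φ i), s (φ i), hk1 _, hk2 _, hs1 _, hs2 _, hkn _, ?_⟩
  set w := k (φ i) * s (φ i) * star (k (φ i)) * star (s (φ i)) with hw
  have hwn : ‖w‖ ≤ 1 := by
    refine norm_le_one_of_star_mul ?_
    have e : star w * w = s (φ i) * (k (φ i) * (star (s (φ i)) * (star (k (φ i)) * k (φ i)) *
        s (φ i)) * star (k (φ i))) * star (s (φ i)) := by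
      rw [hw]
      simp only [star_mul, star_star, mul_assoc]
    rw [e, hk1, mul_one, hs1, mul_one, hk2, mul_one, hs2]
  have e3 : v - Complex.exp ((θ₀ : ℂ) * Complex.I) • w =
      (v - Complex.exp ((θ (φ i) : ℂ) * Complex.I) • w) +
        (Complex.exp ((θ (φ i) : ℂ) * Complex.I) - Complex.exp ((θ₀ : ℂ) * Complex.I)) • w := by
    rw [sub_smul]
    abel
  have e4 : n2 ((Complex.exp ((θ (φ i) : ℂ) * Complex.I) - Complex.exp ((θ₀ : ℂ) * Complex.I)) • w) ≤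
      ε / 2 := by
    rw [n2_smul]
    calc _ ≤ |θ (φ i) - θ₀| * 1 := mul_le_mul (RKX_exp _ _) ((n2_le_norm w).trans hwn)
          (n2_nonneg _) (abs_nonneg _)
      _ ≤ ε / 2 := by rw [mul_one]; exact hi1.le
  calc _ ≤ n2 (v - Complex.exp ((θ (φ i) : ℂ) * Complex.I) • w) + n2 ((Complex.exp
        ((θ (φ i) : ℂ) * Complex.I) - Complex.exp ((θ₀ : ℂ) * Complex.I)) • w) := by
        rw [e3]; exact n2_add_le _ _
    _ ≤ ε / 2 + ε / 2 := add_le_add ((hn (φ i)).trans hi2) e4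
    _ = ε := by ring

/-- the five functions of the saturation argument -/
noncomputable def RKX_F {M : Type u} [CStarAlgebra M] (V : Sq M) (c z : ℂ) (j : Fin 5)
    (x : Fin 2 → Sq M) : Sq M :=
  match j with
  | 0 => star (1 + c • x 0) * (1 + c • x 0) - 1
  | 1 => (1 + c • x 0) * star (1 + c • x 0) - 1
  | 2 => star (x 1) * x 1 - 1
  | 3 => x 1 * star (x 1) - 1
  | 4 => V - z • ((1 + c • x 0) * x 1 * star (1 + c • x 0) * star (x 1))

theorem RKX_loc {M : Type u} [CStarAlgebra M] (V : Sq M) (c z : ℂ) (j : Fin 5) :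
    Loc (RKX_F V c z j) := by
  intro x y k h
  have h0 := h 0
  have h1 := h 1
  fin_cases j <;> simp [RKX_F, h0, h1]

theorem p_RKX (hFAC : Stmt_FAC.{u}) (hSAT : Stmt_SAT.{u}) (hRKA : Stmt_RKA.{u}) :
    Stmt_RKX.{u} := by
  intro M _ _ _ 𝒰 hU v δ hv1 hv2 hδ hδ' hv
  haveI : FactorII (UP M 𝒰) := hFAC M 𝒰
  obtain ⟨θ, hθ, hlim⟩ := RKX_lim hRKA v δ hv1 hv2 hδ hδ' hv
  obtain ⟨V, -, hV⟩ := exists_lift_UP 𝒰 v
  set c : ℂ := ((8 * δ : ℝ) : ℂ) with hc
  set z : ℂ := Complex.exp ((θ : ℂ) * Complex.I) with hz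
  have hc0 : c ≠ 0 := by
    rw [hc]
    exact_mod_cast (by positivity : (8 * δ : ℝ) ≠ 0)
  have hcn : ‖c‖ = 8 * δ := by
    rw [hc, Complex.norm_real, Real.norm_of_nonneg (by positivity)]
  obtain ⟨x, hxn, hx⟩ := hSAT M 𝒰 (Fin 2) (Fin 5) (RKX_F V c z) (RKX_loc V c z) (by
    intro ε hε
    obtain ⟨k, s, hk1, hk2, hs1, hs2, hkn, hn⟩ := hlim ε hε
    obtain ⟨a, ha1, ha2⟩ := exists_lift_UP 𝒰 (c⁻¹ • (k - 1))
    obtain ⟨b, hb1, hb2⟩ := exists_lift_UP 𝒰 s
    have hsn : ‖s‖ ≤ 1 := norm_le_one_of_star_mul hs1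
    have hK : toUP 𝒰 (1 + c • a) = k := by
      rw [map_add, map_one, map_smul, ha2, smul_smul, mul_inv_cancel₀ hc0, one_smul]
      abel
    refine ⟨![a, b], fun i => ?_, fun j => ?_⟩
    · match i with
      | 0 =>
        refine ha1.trans ?_
        rw [norm_smul, norm_inv, hcn, inv_mul_le_iff₀ (by positivity), mul_one]
        exact hkn
      | 1 => exact hb1.trans hsn
    · match j with
      | 0 =>
        show n2 (toUP 𝒰 (star (1 + c • a) * (1 + c • a) - 1)) ≤ ε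
        rw [map_sub, map_mul, map_star, hK, map_one, hk1, sub_self, n2_zero]
        exact hε.le
      | 1 =>
        show n2 (toUP 𝒰 ((1 + c • a) * star (1 + c • a) - 1)) ≤ ε
        rw [map_sub, map_mul, map_star, hK, map_one, hk2, sub_self, n2_zero]
        exact hε.le
      | 2 =>
        show n2 (toUP 𝒰 (star b * b - 1)) ≤ ε
        rw [map_sub, map_mul, map_star, hb2, map_one, hs1, sub_self, n2_zero]
        exact hε.le
      | 3 =>
        show n2 (toUP 𝒰 (b * star b - 1)) ≤ ε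
        rw [map_sub, map_mul, map_star, hb2, map_one, hs2, sub_self, n2_zero]
        exact hε.le
      | 4 =>
        show n2 (toUP 𝒰 (V - z • ((1 + c • a) * b * star (1 + c • a) * star b))) ≤ ε
        rw [map_sub, map_smul, map_mul, map_mul, map_mul, map_star, map_star, hK, hb2, hV]
        exact hn)
  have hK : toUP 𝒰 (1 + c • x 0) = 1 + c • toUP 𝒰 (x 0) := by
    rw [map_add, map_one, map_smul]
  refine ⟨θ, 1 + c • toUP 𝒰 (x 0), toUP 𝒰 (x 1), hθ, ?_, ?_, ?_, ?_, ?_, ?_⟩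
  · have h' : toUP 𝒰 (star (1 + c • x 0) * (1 + c • x 0) - 1) = 0 := hx 0
    rw [map_sub, map_mul, map_star, map_one, hK] at h'
    exact sub_eq_zero.1 h'
  · have h' : toUP 𝒰 ((1 + c • x 0) * star (1 + c • x 0) - 1) = 0 := hx 1
    rw [map_sub, map_mul, map_star, map_one, hK] at h'
    exact sub_eq_zero.1 h'
  · have h' : toUP 𝒰 (star (x 1) * x 1 - 1) = 0 := hx 2
    rw [map_sub, map_mul, map_star, map_one] at h'
    exact sub_eq_zero.1 h'
  · have h' : toUP 𝒰 (x 1 * star (x 1) - 1) = 0 := hx 3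
    rw [map_sub, map_mul, map_star, map_one] at h'
    exact sub_eq_zero.1 h'
  · rw [add_sub_cancel_left, norm_smul, hcn]
    have h1 : ‖toUP 𝒰 (x 0)‖ ≤ 1 := by
      rw [UP.norm_def]
      exact (norm_rep_le 𝒰 (x 0)).trans (hxn 0)
    calc 8 * δ * ‖toUP 𝒰 (x 0)‖ ≤ 8 * δ * 1 := mul_le_mul_of_nonneg_left h1 (by positivity)
      _ = 8 * δ := mul_one _
  · have h' : toUP 𝒰 (V - z • ((1 + c • x 0) * x 1 * star (1 + c • x 0) * star (x 1))) = 0 := hx 4
    rw [map_sub, map_smul, map_mul, map_mul, map_mul, map_star, map_star, hK, hV] at h'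
    exact sub_eq_zero.1 h'

end ND

end SCO
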