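import Pool.Agent.Work.MP_52dd0f_nd.InterfaceS

/-! # THEOREM SIM, block SDC: every unitary is elementary times a diagonal matrix -/

set_option autoImplicit false
set_option linter.unusedSectionVars false

namespace SCO

open Filter Topology

universe u

namespace ND

section SDC

variable {P : Type u} [CStarAlgebra P]

/-- `x` is in the corner of `c 0 0` -/
def SDC_C (c : Fin 2 → Fin 2 → P) (x : P) : Prop := c 0 0 * x = x ∧ x * c 0 0 = x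

/-- the matrix with the entries `a`, `b`, `g`, `d` -/
def SDC_M (c : Fin 2 → Fin 2 → P) (a b g d : P) : P :=
  a + b * c 0 1 + c 1 0 * g + c 1 0 * d * c 0 1

variable {c : Fin 2 → Fin 2 → P}

theorem SDC_r (hc : MU 1 c) : c 0 1 * c 1 0 = c 0 0 ∧ c 1 0 * c 0 1 = c 1 1 ∧
    c 0 0 * c 0 0 = c 0 0 ∧ c 0 0 * c 0 1 = c 0 1 ∧ c 1 0 * c 0 0 = c 1 0 ∧
    c 0 1 * c 0 0 = 0 ∧ c 0 0 * c 1 0 = 0 ∧ c 0 0 + c 1 1 = 1 := by
  refine ⟨?_, ?_, ?_, ?_, ?_, ?_, ?_, ?_⟩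
  · have := hc.mul 0 1 1 0
    simpa using this
  · have := hc.mul 1 0 0 1
    simpa using this
  · have := hc.mul 0 0 0 0
    simpa using this
  · have := hc.mul 0 0 0 1
    simpa using this
  · have := hc.mul 1 0 0 0
    simpa using this
  · have := hc.mul 0 1 0 0
    simpa using this
  · have := hc.mul 0 0 1 0
    simpa using this
  · have := hc.sum
    rwa [Fin.sum_univ_two] at this

theorem SDC_C_r (hc : MU 1 c) {x : P} (hx : SDC_C c x) : x * c 1 0 = 0 ∧ c 0 1 * x = 0 := by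
  obtain ⟨h1, h2, h3, h4, h5, h6, h7, h8⟩ := SDC_r hc
  constructor
  · rw [← hx.2, mul_assoc, h7, mul_zero]
  · rw [← hx.1, ← mul_assoc, h6, zero_mul]

theorem SDC_C_mul {x y : P} (hx : SDC_C c x) (hy : SDC_C c y) : SDC_C c (x * y) :=
  ⟨by rw [← mul_assoc, hx.1], by rw [mul_assoc, hy.2]⟩

theorem SDC_C_add {x y : P} (hx : SDC_C c x) (hy : SDC_C c y) : SDC_C c (x + y) :=
  ⟨by rw [mul_add, hx.1, hy.1], by rw [add_mul, hx.2, hy.2]⟩

theorem SDC_C_neg {x : P} (hx : SDC_C c x) : SDC_C c (-x) :=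
  ⟨by rw [mul_neg, hx.1], by rw [neg_mul, hx.2]⟩

theorem SDC_C_sub {x y : P} (hx : SDC_C c x) (hy : SDC_C c y) : SDC_C c (x - y) := by
  rw [sub_eq_add_neg]
  exact SDC_C_add hx (SDC_C_neg hy)

theorem SDC_C_zero : SDC_C c 0 := ⟨mul_zero _, zero_mul _⟩

theorem SDC_C_one (hc : MU 1 c) : SDC_C c (c 0 0) := ⟨(SDC_r hc).2.2.1, (SDC_r hc).2.2.1⟩

/-- The product of two matrices. -/
theorem SDC_mul (hc : MU 1 c) {a b g d a' b' g' d' : P} (ha : SDC_C c a) (_hb : SDC_C c b)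
    (hg : SDC_C c g) (_hd : SDC_C c d) (ha' : SDC_C c a') (hb' : SDC_C c b') (hg' : SDC_C c g')
    (hd' : SDC_C c d') : SDC_M c a b g d * SDC_M c a' b' g' d' =
      SDC_M c (a * a' + b * g') (a * b' + b * d') (g * a' + d * g') (g * b' + d * d') := by
  obtain ⟨h1, h2, h3, h4, h5, h6, h7, h8⟩ := SDC_r hc
  have A1 : ∀ y, a * (c 1 0 * y) = 0 := fun y => by
    rw [← mul_assoc, (SDC_C_r hc ha).1, zero_mul]
  have A2 : ∀ y, g * (c 1 0 * y) = 0 := fun y => by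
    rw [← mul_assoc, (SDC_C_r hc hg).1, zero_mul]
  have A3 : c 0 1 * a' = 0 := (SDC_C_r hc ha').2
  have A4 : ∀ y, c 0 1 * (b' * y) = 0 := fun y => by
    rw [← mul_assoc, (SDC_C_r hc hb').2, zero_mul]
  have A5 : c 0 1 * (c 1 0 * g') = g' := by rw [← mul_assoc, h1, hg'.1]
  have A6 : ∀ y, c 0 1 * (c 1 0 * (d' * y)) = d' * y := fun y => by
    rw [← mul_assoc, h1, ← mul_assoc, hd'.1]
  unfold SDC_M
  simp only [add_mul, mul_add, mul_assoc, A1, A2, A3, A4, A5, A6, mul_zero, add_zero, zero_add]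
  abel

/-- The entries of a matrix. -/
theorem SDC_ent (hc : MU 1 c) {a b g d : P} (ha : SDC_C c a) (hb : SDC_C c b)
    (hg : SDC_C c g) (hd : SDC_C c d) : c 0 1 * SDC_M c a b g d * c 0 0 = g ∧
      c 0 1 * SDC_M c a b g d * c 1 0 = d := by
  obtain ⟨h1, h2, h3, h4, h5, h6, h7, h8⟩ := SDC_r hc
  have A1 : c 0 1 * a = 0 := (SDC_C_r hc ha).2
  have A2 : ∀ y, c 0 1 * (b * y) = 0 := fun y => by
    rw [← mul_assoc, (SDC_C_r hc hb).2, zero_mul]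
  have A4 : ∀ y, c 0 1 * (c 1 0 * (d * y)) = d * y := fun y => by
    rw [← mul_assoc, h1, ← mul_assoc, hd.1]
  have A5 : ∀ y, c 0 1 * (a * y) = 0 := fun y => by rw [← mul_assoc, A1, zero_mul]
  unfold SDC_M
  constructor
  · simp only [add_mul, mul_add, mul_assoc, A2, A4, A5, mul_zero, add_zero, zero_add, h6,
      hg.2]
    rw [← mul_assoc, h1, hg.1]
  · simp only [add_mul, mul_add, mul_assoc, A2, A4, A5, mul_zero, add_zero, zero_add, h1,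
      hd.2, (SDC_C_r hc hg).1]

/-- Every element is a matrix. -/
theorem SDC_all (hc : MU 1 c) (V : P) : SDC_M c (c 0 0 * V * c 0 0) (c 0 0 * V * c 1 0)
    (c 0 1 * V * c 0 0) (c 0 1 * V * c 1 0) = V ∧ SDC_C c (c 0 0 * V * c 0 0) ∧
    SDC_C c (c 0 0 * V * c 1 0) ∧ SDC_C c (c 0 1 * V * c 0 0) ∧ SDC_C c (c 0 1 * V * c 1 0) := by
  obtain ⟨h1, h2, h3, h4, h5, h6, h7, h8⟩ := SDC_r hc
  refine ⟨?_, ⟨?_, ?_⟩, ⟨?_, ?_⟩, ⟨?_, ?_⟩, ⟨?_, ?_⟩⟩
  · have e : SDC_M c (c 0 0 * V * c 0 0) (c 0 0 * V * c 1 0) (c 0 1 * V * c 0 0)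
        (c 0 1 * V * c 1 0) = (c 0 0 + c 1 0 * c 0 1) * V * (c 0 0 + c 1 0 * c 0 1) := by
      unfold SDC_M
      simp only [add_mul, mul_add, mul_assoc]
      abel
    rw [e, h2, h8, one_mul, mul_one]
  · rw [← mul_assoc, ← mul_assoc, h3]
  · rw [mul_assoc, h3]
  · rw [← mul_assoc, ← mul_assoc, h3]
  · rw [mul_assoc, h5]
  · rw [← mul_assoc, ← mul_assoc, h4]
  · rw [mul_assoc, h3]
  · rw [← mul_assoc, ← mul_assoc, h4]
  · rw [mul_assoc, h5]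

theorem SDC_one (hc : MU 1 c) : SDC_M c (c 0 0) 0 0 (c 0 0) = 1 := by
  obtain ⟨h1, h2, h3, h4, h5, h6, h7, h8⟩ := SDC_r hc
  unfold SDC_M
  rw [zero_mul, mul_zero, add_zero, add_zero, h5, h2, h8]

theorem SDC_up (hc : MU 1 c) (x : P) : SDC_M c (c 0 0) x 0 (c 0 0) = 1 + x * c 0 1 := by
  obtain ⟨h1, h2, h3, h4, h5, h6, h7, h8⟩ := SDC_r hc
  unfold SDC_M
  rw [mul_zero, add_zero, h5, h2, ← h8]
  abel

theorem SDC_lo (hc : MU 1 c) (x : P) : SDC_M c (c 0 0) 0 x (c 0 0) = 1 + c 1 0 * x := by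
  obtain ⟨h1, h2, h3, h4, h5, h6, h7, h8⟩ := SDC_r hc
  unfold SDC_M
  rw [zero_mul, add_zero, h5, h2, ← h8]
  abel

theorem SDC_di (hc : MU 1 c) (x : P) : SDC_M c x 0 0 (c 0 0) = x + c 1 1 := by
  obtain ⟨h1, h2, h3, h4, h5, h6, h7, h8⟩ := SDC_r hc
  unfold SDC_M
  rw [zero_mul, mul_zero, add_zero, add_zero, h5, h2]

theorem SDC_dd (x y : P) : SDC_M c x 0 0 y = x + c 1 0 * y * c 0 1 := by
  unfold SDC_M
  rw [zero_mul, mul_zero, add_zero, add_zero]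

/-- The support of an element with `star v * v = e`. -/
theorem SDC_supp {e v : P} (he : e * e = e) (hs : star e = e) (hv : star v * v = e) :
    v * e = v := by
  have h : star (v - v * e) * (v - v * e) = 0 := by
    have e1 : star (v - v * e) * (v - v * e) =
        star v * v - (star v * v) * e - e * (star v * v) + e * (star v * v) * e := by
      rw [star_sub, star_mul, hs]
      noncomm_ring
    rw [e1, hv, he, he]
    abel
  have := (CStarRing.star_mul_self_eq_zero_iff _).1 h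
  exact (sub_eq_zero.1 this).symm

theorem SDC_norm {V e : P} (hV : star V * V = 1) (he : e * e = e) (hs : star e = e) :
    ‖e * V * e‖ ≤ 1 := by
  have h1 : ‖V‖ ≤ 1 := by
    have h := CStarRing.norm_star_mul_self (x := V)
    rw [hV] at h
    have h2 : ‖(1 : P)‖ ≤ 1 := by
      rcases subsingleton_or_nontrivial P with hP | hP
      · rw [Subsingleton.elim (1 : P) 0, norm_zero]
        exact zero_le_one
      · rw [CStarRing.norm_one]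
    nlinarith [norm_nonneg V]
  have h2 : ‖e‖ ≤ 1 := by
    have h := CStarRing.norm_star_mul_self (x := e)
    rw [hs, he] at h
    by_contra hcon
    push Not at hcon
    nlinarith [norm_nonneg e]
  calc ‖e * V * e‖ ≤ ‖e * V‖ * ‖e‖ := norm_mul_le _ _
    _ ≤ (‖e‖ * ‖V‖) * ‖e‖ := mul_le_mul_of_nonneg_right (norm_mul_le _ _) (norm_nonneg _)
    _ ≤ (1 * 1) * 1 := by gcongr
    _ = 1 := by norm_num

end SDC

theorem p_SDC (hSPU : Stmt_SPU.{u}) (hSWH : Stmt_SWH.{u}) : Stmt_SDC.{u} := by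
  intro Q _ _ _ c hc V hV hV'
  obtain ⟨h1, h2, h3, h4, h5, h6, h7, h8⟩ := SDC_r hc
  have hs : star (c 0 0) = c 0 0 := hc.star 0 0
  have hC1 := SDC_C_one hc
  have hC0 : SDC_C c 0 := SDC_C_zero
  obtain ⟨hVM, hα, hβ, hγ, hδ⟩ := SDC_all hc V
  obtain ⟨α, hαd⟩ : ∃ α, α = c 0 0 * V * c 0 0 := ⟨_, rfl⟩
  obtain ⟨β, hβd⟩ : ∃ β, β = c 0 0 * V * c 1 0 := ⟨_, rfl⟩
  obtain ⟨γ, hγd⟩ : ∃ γ, γ = c 0 1 * V * c 0 0 := ⟨_, rfl⟩
  obtain ⟨δ, hδd⟩ : ∃ δ, δ = c 0 1 * V * c 1 0 := ⟨_, rfl⟩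
  have hαn : ‖α‖ ≤ 1 := by
    rw [hαd]
    exact SDC_norm hV h3 hs
  have hcol : star α * α + star γ * γ = c 0 0 := by
    have e1 : star α * α + star γ * γ =
        c 0 0 * (star V * ((c 0 0 * c 0 0 + c 1 0 * c 0 1) * V)) * c 0 0 := by
      rw [hαd, hγd]
      simp only [star_mul, hs, hc.star 0 1, add_mul, mul_add, mul_assoc]
    rw [e1, h3, h2, h8, one_mul, hV, mul_one, h3]
  rw [← hαd, ← hβd, ← hγd, ← hδd] at hVM
  rw [← hαd] at hα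
  rw [← hβd] at hβ
  rw [← hγd] at hγ
  rw [← hδd] at hδ
  obtain ⟨v, b, r, hv1, hv2, hb1, hb2, hαvb, hbb, hr⟩ :=
    hSPU Q (c 0 0) α ⟨h3, hs⟩ hα.1 hα.2 hαn
  have hve : v * c 0 0 = v := SDC_supp h3 hs hv1
  have hve' : star v * c 0 0 = star v := SDC_supp h3 hs (by rw [star_star]; exact hv2)
  have hev : c 0 0 * v = v := by
    have := congrArg star hve'
    rwa [star_mul, star_star, hs] at this
  have hev' : c 0 0 * star v = star v := by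
    have := congrArg star hve
    rwa [star_mul, hs] at this
  have hγs : SDC_C c (star γ) := by
    constructor
    · have := congrArg star hγ.2
      rwa [star_mul, hs] at this
    · have := congrArg star hγ.1
      rwa [star_mul, hs] at this
  have hvC : SDC_C c v := ⟨hev, hve⟩
  have hvC' : SDC_C c (star v) := ⟨hev', hve'⟩
  have hrC : SDC_C c r := ⟨hr.rl, hr.rr⟩
  obtain ⟨x, hx⟩ : ∃ x, x = v * star γ := ⟨_, rfl⟩
  have hxC : SDC_C c x := by rw [hx]; exact SDC_C_mul hvC hγs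
  obtain ⟨a, hadef⟩ : ∃ a, a = α + x * γ := ⟨_, rfl⟩
  have haC : SDC_C c a := by rw [hadef]; exact SDC_C_add hα (SDC_C_mul hxC hγ)
  have ha2 : a = v * (b + (c 0 0 - b * b)) := by
    have e1 : star γ * γ = c 0 0 - b * b := by
      rw [hbb, ← hcol]
      abel
    rw [hadef, hx, mul_assoc, e1, mul_add, ← hαvb]
  obtain ⟨a', ha'⟩ : ∃ a', a' = r * star v := ⟨_, rfl⟩
  have ha'C : SDC_C c a' := by rw [ha']; exact SDC_C_mul hrC hvC'
  have haa' : a * a' = c 0 0 := by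
    rw [ha2, ha']
    calc v * (b + (c 0 0 - b * b)) * (r * star v) =
        v * ((b + (c 0 0 - b * b)) * r) * star v := by simp only [mul_assoc]
      _ = c 0 0 := by rw [hr.m1, hve, hv2]
  have ha'a : a' * a = c 0 0 := by
    rw [ha2, ha']
    calc r * star v * (v * (b + (c 0 0 - b * b))) =
        r * ((star v * v) * (b + (c 0 0 - b * b))) := by simp only [mul_assoc]
      _ = c 0 0 := by rw [hv1, hr.ql, hr.m2]
  obtain ⟨b₁, hb₁⟩ : ∃ b₁, b₁ = β + x * δ := ⟨_, rfl⟩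
  have hb₁C : SDC_C c b₁ := by rw [hb₁]; exact SDC_C_add hβ (SDC_C_mul hxC hδ)
  have hV1 : SDC_M c (c 0 0) x 0 (c 0 0) * V = SDC_M c a b₁ γ δ := by
    rw [← hVM, SDC_mul hc hC1 hxC hC0 hC1 hα hβ hγ hδ, hα.1, hβ.1, hγ.1, hδ.1, zero_mul,
      zero_mul, zero_add, zero_add, ← hadef, ← hb₁]
  obtain ⟨y, hy⟩ : ∃ y, y = γ * a' := ⟨_, rfl⟩
  have hyC : SDC_C c y := by rw [hy]; exact SDC_C_mul hγ ha'C
  obtain ⟨d, hd⟩ : ∃ d, d = δ - y * b₁ := ⟨_, rfl⟩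
  have hdC : SDC_C c d := by rw [hd]; exact SDC_C_sub hδ (SDC_C_mul hyC hb₁C)
  have hya : y * a = γ := by rw [hy, mul_assoc, ha'a, hγ.2]
  have hV2 : SDC_M c (c 0 0) 0 (-y) (c 0 0) * (SDC_M c (c 0 0) x 0 (c 0 0) * V) =
      SDC_M c a b₁ 0 d := by
    rw [hV1, SDC_mul hc hC1 hC0 (SDC_C_neg hyC) hC1 haC hb₁C hγ hδ, haC.1, hb₁C.1, hγ.1, hδ.1,
      zero_mul, zero_mul, add_zero, add_zero, neg_mul, hya, neg_mul, neg_add_cancel, hd]
    congr 1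
    abel
  -- the inverse matrices
  have hX : SDC_M c (c 0 0) (-x) 0 (c 0 0) * SDC_M c (c 0 0) x 0 (c 0 0) = 1 := by
    rw [SDC_mul hc hC1 (SDC_C_neg hxC) hC0 hC1 hC1 hxC hC0 hC1]
    simp only [h3, mul_zero, zero_mul, add_zero, zero_add, hxC.1, neg_mul, hxC.2, add_neg_cancel]
    exact SDC_one hc
  have hX' : SDC_M c (c 0 0) x 0 (c 0 0) * SDC_M c (c 0 0) (-x) 0 (c 0 0) = 1 := by
    rw [SDC_mul hc hC1 hxC hC0 hC1 hC1 (SDC_C_neg hxC) hC0 hC1]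
    simp only [h3, mul_zero, zero_mul, add_zero, zero_add, hxC.1, mul_neg, hxC.2, neg_add_cancel,
      neg_zero]
    exact SDC_one hc
  have hY : SDC_M c (c 0 0) 0 y (c 0 0) * SDC_M c (c 0 0) 0 (-y) (c 0 0) = 1 := by
    rw [SDC_mul hc hC1 hC0 hyC hC1 hC1 hC0 (SDC_C_neg hyC) hC1]
    simp only [h3, mul_zero, zero_mul, add_zero, zero_add, hyC.1, mul_neg, hyC.2, add_neg_cancel,
      neg_zero]
    exact SDC_one hc
  have hY' : SDC_M c (c 0 0) 0 (-y) (c 0 0) * SDC_M c (c 0 0) 0 y (c 0 0) = 1 := by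
    rw [SDC_mul hc hC1 hC0 (SDC_C_neg hyC) hC1 hC1 hC0 hyC hC1]
    simp only [h3, mul_zero, zero_mul, add_zero, zero_add, hyC.1, neg_mul, hyC.2, neg_add_cancel]
    exact SDC_one hc
  obtain ⟨W, hW⟩ : ∃ W, W = star V * (SDC_M c (c 0 0) (-x) 0 (c 0 0) *
      SDC_M c (c 0 0) 0 y (c 0 0)) := ⟨_, rfl⟩
  have hWV : W * SDC_M c a b₁ 0 d = 1 := by
    rw [hW, ← hV2]
    calc star V * (SDC_M c (c 0 0) (-x) 0 (c 0 0) * SDC_M c (c 0 0) 0 y (c 0 0)) *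
        (SDC_M c (c 0 0) 0 (-y) (c 0 0) * (SDC_M c (c 0 0) x 0 (c 0 0) * V)) =
        star V * (SDC_M c (c 0 0) (-x) 0 (c 0 0) * (SDC_M c (c 0 0) 0 y (c 0 0) *
        SDC_M c (c 0 0) 0 (-y) (c 0 0)) * SDC_M c (c 0 0) x 0 (c 0 0)) * V := by
          simp only [mul_assoc]
      _ = 1 := by rw [hY, mul_one, hX, mul_one, hV]
  have hVW : SDC_M c a b₁ 0 d * W = 1 := by
    rw [hW, ← hV2]
    calc (SDC_M c (c 0 0) 0 (-y) (c 0 0) * (SDC_M c (c 0 0) x 0 (c 0 0) * V)) *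
        (star V * (SDC_M c (c 0 0) (-x) 0 (c 0 0) * SDC_M c (c 0 0) 0 y (c 0 0))) =
        SDC_M c (c 0 0) 0 (-y) (c 0 0) * (SDC_M c (c 0 0) x 0 (c 0 0) * (V *
        star V) * SDC_M c (c 0 0) (-x) 0 (c 0 0)) * SDC_M c (c 0 0) 0 y (c 0 0) := by
          simp only [mul_assoc]
      _ = 1 := by rw [hV', mul_one, hX', mul_one, hY']
  obtain ⟨hWM, hpC, hqC, hsC, hd'C⟩ := SDC_all hc W
  obtain ⟨p, hp⟩ : ∃ p, p = c 0 0 * W * c 0 0 := ⟨_, rfl⟩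
  obtain ⟨q, hq⟩ : ∃ q, q = c 0 0 * W * c 1 0 := ⟨_, rfl⟩
  obtain ⟨s, hsd⟩ : ∃ s, s = c 0 1 * W * c 0 0 := ⟨_, rfl⟩
  obtain ⟨d', hd'⟩ : ∃ d', d' = c 0 1 * W * c 1 0 := ⟨_, rfl⟩
  rw [← hp, ← hq, ← hsd, ← hd'] at hWM
  rw [← hp] at hpC
  rw [← hq] at hqC
  rw [← hsd] at hsC
  rw [← hd'] at hd'C
  have hone1 : c 0 1 * (1 : Q) * c 0 0 = 0 := by rw [mul_one, h6]
  have hone2 : c 0 1 * (1 : Q) * c 1 0 = c 0 0 := by rw [mul_one, h1]
  have hs0 : s = 0 := by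
    have e := SDC_mul hc hpC hqC hsC hd'C haC hb₁C hC0 hdC
    rw [hWM, hWV] at e
    have e2 := (SDC_ent hc (SDC_C_add (SDC_C_mul hpC haC) (SDC_C_mul hqC hC0))
      (SDC_C_add (SDC_C_mul hpC hb₁C) (SDC_C_mul hqC hdC))
      (SDC_C_add (SDC_C_mul hsC haC) (SDC_C_mul hd'C hC0))
      (SDC_C_add (SDC_C_mul hsC hb₁C) (SDC_C_mul hd'C hdC))).1
    rw [← e, hone1, mul_zero, add_zero] at e2
    calc s = s * (a * a') := by rw [haa', hsC.2]
      _ = (s * a) * a' := by rw [mul_assoc]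
      _ = 0 := by rw [← e2, zero_mul]
  have hd'd : d' * d = c 0 0 := by
    have e := SDC_mul hc hpC hqC hsC hd'C haC hb₁C hC0 hdC
    rw [hWM, hWV] at e
    have e2 := (SDC_ent hc (SDC_C_add (SDC_C_mul hpC haC) (SDC_C_mul hqC hC0))
      (SDC_C_add (SDC_C_mul hpC hb₁C) (SDC_C_mul hqC hdC))
      (SDC_C_add (SDC_C_mul hsC haC) (SDC_C_mul hd'C hC0))
      (SDC_C_add (SDC_C_mul hsC hb₁C) (SDC_C_mul hd'C hdC))).2
    rw [← e, hone2, hs0, zero_mul, zero_add] at e2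
    exact e2.symm
  have hdd' : d * d' = c 0 0 := by
    have e := SDC_mul hc haC hb₁C hC0 hdC hpC hqC hsC hd'C
    rw [hWM, hVW] at e
    have e2 := (SDC_ent hc (SDC_C_add (SDC_C_mul haC hpC) (SDC_C_mul hb₁C hsC))
      (SDC_C_add (SDC_C_mul haC hqC) (SDC_C_mul hb₁C hd'C))
      (SDC_C_add (SDC_C_mul hC0 hpC) (SDC_C_mul hdC hsC))
      (SDC_C_add (SDC_C_mul hC0 hqC) (SDC_C_mul hdC hd'C))).2
    rw [← e, hone2, zero_mul, zero_add] at e2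
    exact e2.symm
  obtain ⟨z, hz⟩ : ∃ z, z = b₁ * d' := ⟨_, rfl⟩
  have hzC : SDC_C c z := by rw [hz]; exact SDC_C_mul hb₁C hd'C
  have hV2' : SDC_M c a b₁ 0 d = SDC_M c (c 0 0) z 0 (c 0 0) *
      (SDC_M c d' 0 0 d * SDC_M c (d * a) 0 0 (c 0 0)) := by
    rw [SDC_mul hc hd'C hC0 hC0 hdC (SDC_C_mul hdC haC) hC0 hC0 hC1]
    simp only [mul_zero, zero_mul, add_zero, zero_add]
    rw [← mul_assoc, hd'd, haC.1, hdC.2, SDC_mul hc hC1 hzC hC0 hC1 haC hC0 hC0 hdC]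
    simp only [mul_zero, zero_mul, add_zero, zero_add, haC.1, hdC.1]
    rw [hz, mul_assoc, hd'd, hb₁C.2]
  refine ⟨SDC_M c (c 0 0) (-x) 0 (c 0 0) * (SDC_M c (c 0 0) 0 y (c 0 0) *
    (SDC_M c (c 0 0) z 0 (c 0 0) * SDC_M c d' 0 0 d)), d * a, a' * d', ?_, ?_, ?_⟩
  · refine Submonoid.mul_mem _ ?_ (Submonoid.mul_mem _ ?_ (Submonoid.mul_mem _ ?_ ?_))
    · refine Submonoid.subset_closure ⟨-x, (SDC_C_neg hxC).1, (SDC_C_neg hxC).2, Or.inl ?_⟩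
      exact SDC_up hc _
    · refine Submonoid.subset_closure ⟨y, hyC.1, hyC.2, Or.inr ?_⟩
      exact SDC_lo hc _
    · refine Submonoid.subset_closure ⟨z, hzC.1, hzC.2, Or.inl ?_⟩
      exact SDC_up hc _
    · rw [SDC_dd]
      exact hSWH Q c hc d' d ⟨hd'C.1, hd'C.2, hdC.1, hdC.2, hd'd, hdd'⟩
  · refine ⟨(SDC_C_mul hdC haC).1, (SDC_C_mul hdC haC).2, (SDC_C_mul ha'C hd'C).1,
      (SDC_C_mul ha'C hd'C).2, ?_, ?_⟩
    · calc d * a * (a' * d') = d * ((a * a') * d') := by simp only [mul_assoc]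
        _ = c 0 0 := by rw [haa', hd'C.1, hdd']
    · calc a' * d' * (d * a) = a' * ((d' * d) * a) := by simp only [mul_assoc]
        _ = c 0 0 := by rw [hd'd, haC.1, ha'a]
  · rw [← SDC_di hc]
    calc V = (SDC_M c (c 0 0) (-x) 0 (c 0 0) * (SDC_M c (c 0 0) 0 y (c 0 0) *
          SDC_M c (c 0 0) 0 (-y) (c 0 0)) * SDC_M c (c 0 0) x 0 (c 0 0)) * V := by
          rw [hY, mul_one, hX, one_mul]
      _ = SDC_M c (c 0 0) (-x) 0 (c 0 0) * (SDC_M c (c 0 0) 0 y (c 0 0) *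
          (SDC_M c (c 0 0) 0 (-y) (c 0 0) * (SDC_M c (c 0 0) x 0 (c 0 0) * V))) := by
          simp only [mul_assoc]
      _ = _ := by
          rw [hV2, hV2']
          simp only [mul_assoc]

end ND

end SCO
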