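import Pool.Agent.Work.MP_52dd0f_nd.InterfaceE
import Pool.Agent.Work.MP_52dd0f_nd.B_SDC

/-! # THEOREM ND*, block SDB: every unitary is elementary times a diagonal matrix, with bounds -/

set_option autoImplicit false
set_option linter.unusedSectionVars false

namespace SCO

open Filter Topology

universe u

namespace ND

section SDB

variable {P : Type u} [CStarAlgebra P] {c : Fin 2 → Fin 2 → P}

theorem SDB_m {a b : P} {A B : ℝ} (ha : ‖a‖ ≤ A) (hb : ‖b‖ ≤ B) (hA : 0 ≤ A) :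
    ‖a * b‖ ≤ A * B :=
  (norm_mul_le _ _).trans (mul_le_mul ha hb (norm_nonneg _) hA)

theorem SDB_proj {e : P} (h : star e * e = e) : ‖e‖ ≤ 1 := by
  have h1 := CStarRing.norm_star_mul_self (x := e)
  rw [h] at h1
  by_contra hcon
  push Not at hcon
  nlinarith [norm_nonneg e]

theorem SDB_iso {v e : P} (h : star v * v = e) (he : ‖e‖ ≤ 1) : ‖v‖ ≤ 1 := by
  have h1 := CStarRing.norm_star_mul_self (x := v)
  rw [h] at h1
  nlinarith [norm_nonneg v]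

theorem SDB_one : ‖(1 : P)‖ ≤ 1 := SDB_proj (by rw [star_one, one_mul])

theorem SDB_nc (hc : MU 1 c) (i j : Fin 2) : ‖c i j‖ ≤ 1 := by
  have h1 : ‖c j j‖ ≤ 1 := SDB_proj (by rw [hc.star j j, hc.mul]; simp)
  refine SDB_iso (e := c j j) ?_ h1
  rw [hc.star i j, hc.mul]
  simp

/-- Whitehead -/
theorem SDB_wh (hc : MU 1 c) {q r : P} (hq : SDC_C c q) (hr : SDC_C c r) (hqr : q * r = c 0 0)
    (hrq : r * q = c 0 0) : SDC_M c q 0 0 r = SDC_M c (c 0 0) q 0 (c 0 0) *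
      (SDC_M c (c 0 0) 0 (-r) (c 0 0) * (SDC_M c (c 0 0) q 0 (c 0 0) *
      (SDC_M c (c 0 0) (-c 0 0) 0 (c 0 0) * (SDC_M c (c 0 0) 0 (c 0 0) (c 0 0) *
      SDC_M c (c 0 0) (-c 0 0) 0 (c 0 0))))) := by
  have hC1 := SDC_C_one hc
  have hC0 : SDC_C c 0 := SDC_C_zero
  have hCn := SDC_C_neg hC1
  have hrn := SDC_C_neg hr
  have h3 : c 0 0 * c 0 0 = c 0 0 := hC1.1
  have s1 : SDC_M c (c 0 0) 0 (c 0 0) (c 0 0) * SDC_M c (c 0 0) (-c 0 0) 0 (c 0 0) =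
      SDC_M c (c 0 0) (-c 0 0) (c 0 0) 0 := by
    rw [SDC_mul hc hC1 hC0 hC1 hC1 hC1 hCn hC0 hC1]
    simp only [h3, mul_neg, neg_mul, mul_zero, zero_mul, add_zero, zero_add, neg_add_cancel]
  have s2 : SDC_M c (c 0 0) (-c 0 0) 0 (c 0 0) * SDC_M c (c 0 0) (-c 0 0) (c 0 0) 0 =
      SDC_M c 0 (-c 0 0) (c 0 0) 0 := by
    rw [SDC_mul hc hC1 hCn hC0 hC1 hC1 hCn hC1 hC0]
    simp only [h3, mul_neg, neg_mul, mul_zero, zero_mul, add_zero, zero_add, neg_zero,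
      add_neg_cancel]
  have s3 : SDC_M c (c 0 0) q 0 (c 0 0) * SDC_M c 0 (-c 0 0) (c 0 0) 0 =
      SDC_M c q (-c 0 0) (c 0 0) 0 := by
    rw [SDC_mul hc hC1 hq hC0 hC1 hC0 hCn hC1 hC0]
    simp only [h3, mul_neg, mul_zero, zero_mul, add_zero, zero_add, neg_zero, hq.2]
  have s4 : SDC_M c (c 0 0) 0 (-r) (c 0 0) * SDC_M c q (-c 0 0) (c 0 0) 0 =
      SDC_M c q (-c 0 0) 0 r := by
    rw [SDC_mul hc hC1 hC0 hrn hC1 hq hCn hC1 hC0]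
    simp only [h3, mul_neg, neg_mul, mul_zero, zero_mul, add_zero, neg_neg, hq.1,
      hr.2, hrq, neg_add_cancel]
  have s5 : SDC_M c (c 0 0) q 0 (c 0 0) * SDC_M c q (-c 0 0) 0 r = SDC_M c q 0 0 r := by
    rw [SDC_mul hc hC1 hq hC0 hC1 hq hCn hC0 hr]
    simp only [h3, mul_neg, mul_zero, zero_mul, add_zero, zero_add, hq.1, hr.1, hqr,
      neg_add_cancel, neg_zero]
  rw [s1, s2, s3, s4, s5]

end SDB

theorem p_SDB (hENB : Stmt_ENB.{u}) (hSPB : Stmt_SPB.{u}) : Stmt_SDB.{u} := by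
  intro Q _ _ _ c hc V hV hV'
  obtain ⟨h1, h2, h3, h4, h5, h6, h7, h8⟩ := SDC_r hc
  have hs : star (c 0 0) = c 0 0 := hc.star 0 0
  have hC1 := SDC_C_one hc
  have hC0 : SDC_C c 0 := SDC_C_zero
  obtain ⟨hVM, hα, hβ, hγ, hδ⟩ := SDC_all hc V
  obtain ⟨α, hαd⟩ : ∃ α, α = c 0 0 * V * c 0 0 := ⟨_, rfl⟩
  obtain ⟨β, hβd⟩ : ∃ β, β = c 0 0 * V * c 1 0 := ⟨_, rfl⟩
  obtain ⟨γ, hγd⟩ : ∃ γ, γ = c 0 1 * V * c 0 0 := ⟨_, rfl⟩
  obtain ⟨δ, hδd⟩ : ∃ δ, δ = c 0 1 * V * c 1 0 := ⟨_, rfl⟩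
  have hαn : ‖α‖ ≤ 1 := by
    rw [hαd]
    exact SDC_norm hV h3 hs
  have hcol : star α * α + star γ * γ = c 0 0 := by
    have e1 : star α * α + star γ * γ =
        c 0 0 * (star V * ((c 0 0 * c 0 0 + c 1 0 * c 0 1) * V)) * c 0 0 := by
      rw [hαd, hγd]
      simp only [star_mul, hs, hc.star 0 1, add_mul, mul_add, mul_assoc]
    rw [e1, h3, h2, h8, one_mul, hV, mul_one, h3]
  rw [← hαd, ← hβd, ← hγd, ← hδd] at hVM
  rw [← hαd] at hα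
  rw [← hβd] at hβ
  rw [← hγd] at hγ
  rw [← hδd] at hδ
  obtain ⟨v, b, r, hv1, hv2, hb1, hb2, hαvb, hbb, hr, hbn, hrn⟩ :=
    hSPB Q (c 0 0) α ⟨h3, hs⟩ hα.1 hα.2 hαn
  have hve : v * c 0 0 = v := SDC_supp h3 hs hv1
  have hve' : star v * c 0 0 = star v := SDC_supp h3 hs (by rw [star_star]; exact hv2)
  have hev : c 0 0 * v = v := by
    have := congrArg star hve'
    rwa [star_mul, star_star, hs] at this
  have hev' : c 0 0 * star v = star v := by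
    have := congrArg star hve
    rwa [star_mul, hs] at this
  have hγs : SDC_C c (star γ) := by
    constructor
    · have := congrArg star hγ.2
      rwa [star_mul, hs] at this
    · have := congrArg star hγ.1
      rwa [star_mul, hs] at this
  have hvC : SDC_C c v := ⟨hev, hve⟩
  have hvC' : SDC_C c (star v) := ⟨hev', hve'⟩
  have hrC : SDC_C c r := ⟨hr.rl, hr.rr⟩
  obtain ⟨x, hx⟩ : ∃ x, x = v * star γ := ⟨_, rfl⟩
  have hxC : SDC_C c x := by rw [hx]; exact SDC_C_mul hvC hγs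
  obtain ⟨a, hadef⟩ : ∃ a, a = α + x * γ := ⟨_, rfl⟩
  have haC : SDC_C c a := by rw [hadef]; exact SDC_C_add hα (SDC_C_mul hxC hγ)
  have ha2 : a = v * (b + (c 0 0 - b * b)) := by
    have e1 : star γ * γ = c 0 0 - b * b := by
      rw [hbb, ← hcol]
      abel
    rw [hadef, hx, mul_assoc, e1, mul_add, ← hαvb]
  obtain ⟨a', ha'⟩ : ∃ a', a' = r * star v := ⟨_, rfl⟩
  have ha'C : SDC_C c a' := by rw [ha']; exact SDC_C_mul hrC hvC'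
  have haa' : a * a' = c 0 0 := by
    rw [ha2, ha']
    calc v * (b + (c 0 0 - b * b)) * (r * star v) =
        v * ((b + (c 0 0 - b * b)) * r) * star v := by simp only [mul_assoc]
      _ = c 0 0 := by rw [hr.m1, hve, hv2]
  have ha'a : a' * a = c 0 0 := by
    rw [ha2, ha']
    calc r * star v * (v * (b + (c 0 0 - b * b))) =
        r * ((star v * v) * (b + (c 0 0 - b * b))) := by simp only [mul_assoc]
      _ = c 0 0 := by rw [hv1, hr.ql, hr.m2]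
  obtain ⟨b₁, hb₁⟩ : ∃ b₁, b₁ = β + x * δ := ⟨_, rfl⟩
  have hb₁C : SDC_C c b₁ := by rw [hb₁]; exact SDC_C_add hβ (SDC_C_mul hxC hδ)
  have hV1 : SDC_M c (c 0 0) x 0 (c 0 0) * V = SDC_M c a b₁ γ δ := by
    rw [← hVM, SDC_mul hc hC1 hxC hC0 hC1 hα hβ hγ hδ, hα.1, hβ.1, hγ.1, hδ.1, zero_mul,
      zero_mul, zero_add, zero_add, ← hadef, ← hb₁]
  obtain ⟨y, hy⟩ : ∃ y, y = γ * a' := ⟨_, rfl⟩
  have hyC : SDC_C c y := by rw [hy]; exact SDC_C_mul hγ ha'C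
  obtain ⟨d, hd⟩ : ∃ d, d = δ - y * b₁ := ⟨_, rfl⟩
  have hdC : SDC_C c d := by rw [hd]; exact SDC_C_sub hδ (SDC_C_mul hyC hb₁C)
  have hya : y * a = γ := by rw [hy, mul_assoc, ha'a, hγ.2]
  have hV2 : SDC_M c (c 0 0) 0 (-y) (c 0 0) * (SDC_M c (c 0 0) x 0 (c 0 0) * V) =
      SDC_M c a b₁ 0 d := by
    rw [hV1, SDC_mul hc hC1 hC0 (SDC_C_neg hyC) hC1 haC hb₁C hγ hδ, haC.1, hb₁C.1, hγ.1, hδ.1,
      zero_mul, zero_mul, add_zero, add_zero, neg_mul, hya, neg_mul, neg_add_cancel, hd]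
    congr 1
    abel
  -- the inverse matrices
  have hX : SDC_M c (c 0 0) (-x) 0 (c 0 0) * SDC_M c (c 0 0) x 0 (c 0 0) = 1 := by
    rw [SDC_mul hc hC1 (SDC_C_neg hxC) hC0 hC1 hC1 hxC hC0 hC1]
    simp only [h3, mul_zero, zero_mul, add_zero, zero_add, hxC.1, neg_mul, hxC.2, add_neg_cancel]
    exact SDC_one hc
  have hX' : SDC_M c (c 0 0) x 0 (c 0 0) * SDC_M c (c 0 0) (-x) 0 (c 0 0) = 1 := by
    rw [SDC_mul hc hC1 hxC hC0 hC1 hC1 (SDC_C_neg hxC) hC0 hC1]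
    simp only [h3, mul_zero, zero_mul, add_zero, zero_add, hxC.1, mul_neg, hxC.2, neg_add_cancel,
      neg_zero]
    exact SDC_one hc
  have hY : SDC_M c (c 0 0) 0 y (c 0 0) * SDC_M c (c 0 0) 0 (-y) (c 0 0) = 1 := by
    rw [SDC_mul hc hC1 hC0 hyC hC1 hC1 hC0 (SDC_C_neg hyC) hC1]
    simp only [h3, mul_zero, zero_mul, add_zero, zero_add, hyC.1, mul_neg, hyC.2, add_neg_cancel,
      neg_zero]
    exact SDC_one hc
  have hY' : SDC_M c (c 0 0) 0 (-y) (c 0 0) * SDC_M c (c 0 0) 0 y (c 0 0) = 1 := by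
    rw [SDC_mul hc hC1 hC0 (SDC_C_neg hyC) hC1 hC1 hC0 hyC hC1]
    simp only [h3, mul_zero, zero_mul, add_zero, zero_add, hyC.1, neg_mul, hyC.2, neg_add_cancel]
    exact SDC_one hc
  obtain ⟨W, hW⟩ : ∃ W, W = star V * (SDC_M c (c 0 0) (-x) 0 (c 0 0) *
      SDC_M c (c 0 0) 0 y (c 0 0)) := ⟨_, rfl⟩
  have hWV : W * SDC_M c a b₁ 0 d = 1 := by
    rw [hW, ← hV2]
    calc star V * (SDC_M c (c 0 0) (-x) 0 (c 0 0) * SDC_M c (c 0 0) 0 y (c 0 0)) *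
        (SDC_M c (c 0 0) 0 (-y) (c 0 0) * (SDC_M c (c 0 0) x 0 (c 0 0) * V)) =
        star V * (SDC_M c (c 0 0) (-x) 0 (c 0 0) * (SDC_M c (c 0 0) 0 y (c 0 0) *
        SDC_M c (c 0 0) 0 (-y) (c 0 0)) * SDC_M c (c 0 0) x 0 (c 0 0)) * V := by
          simp only [mul_assoc]
      _ = 1 := by rw [hY, mul_one, hX, mul_one, hV]
  have hVW : SDC_M c a b₁ 0 d * W = 1 := by
    rw [hW, ← hV2]
    calc (SDC_M c (c 0 0) 0 (-y) (c 0 0) * (SDC_M c (c 0 0) x 0 (c 0 0) * V)) *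
        (star V * (SDC_M c (c 0 0) (-x) 0 (c 0 0) * SDC_M c (c 0 0) 0 y (c 0 0))) =
        SDC_M c (c 0 0) 0 (-y) (c 0 0) * (SDC_M c (c 0 0) x 0 (c 0 0) * (V *
        star V) * SDC_M c (c 0 0) (-x) 0 (c 0 0)) * SDC_M c (c 0 0) 0 y (c 0 0) := by
          simp only [mul_assoc]
      _ = 1 := by rw [hV', mul_one, hX', mul_one, hY']
  obtain ⟨hWM, hpC, hqC, hsC, hd'C⟩ := SDC_all hc W
  obtain ⟨p, hp⟩ : ∃ p, p = c 0 0 * W * c 0 0 := ⟨_, rfl⟩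
  obtain ⟨q, hq⟩ : ∃ q, q = c 0 0 * W * c 1 0 := ⟨_, rfl⟩
  obtain ⟨s, hsd⟩ : ∃ s, s = c 0 1 * W * c 0 0 := ⟨_, rfl⟩
  obtain ⟨d', hd'⟩ : ∃ d', d' = c 0 1 * W * c 1 0 := ⟨_, rfl⟩
  rw [← hp, ← hq, ← hsd, ← hd'] at hWM
  rw [← hp] at hpC
  rw [← hq] at hqC
  rw [← hsd] at hsC
  rw [← hd'] at hd'C
  have hone1 : c 0 1 * (1 : Q) * c 0 0 = 0 := by rw [mul_one, h6]
  have hone2 : c 0 1 * (1 : Q) * c 1 0 = c 0 0 := by rw [mul_one, h1]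
  have hs0 : s = 0 := by
    have e := SDC_mul hc hpC hqC hsC hd'C haC hb₁C hC0 hdC
    rw [hWM, hWV] at e
    have e2 := (SDC_ent hc (SDC_C_add (SDC_C_mul hpC haC) (SDC_C_mul hqC hC0))
      (SDC_C_add (SDC_C_mul hpC hb₁C) (SDC_C_mul hqC hdC))
      (SDC_C_add (SDC_C_mul hsC haC) (SDC_C_mul hd'C hC0))
      (SDC_C_add (SDC_C_mul hsC hb₁C) (SDC_C_mul hd'C hdC))).1
    rw [← e, hone1, mul_zero, add_zero] at e2
    calc s = s * (a * a') := by rw [haa', hsC.2]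
      _ = (s * a) * a' := by rw [mul_assoc]
      _ = 0 := by rw [← e2, zero_mul]
  have hd'd : d' * d = c 0 0 := by
    have e := SDC_mul hc hpC hqC hsC hd'C haC hb₁C hC0 hdC
    rw [hWM, hWV] at e
    have e2 := (SDC_ent hc (SDC_C_add (SDC_C_mul hpC haC) (SDC_C_mul hqC hC0))
      (SDC_C_add (SDC_C_mul hpC hb₁C) (SDC_C_mul hqC hdC))
      (SDC_C_add (SDC_C_mul hsC haC) (SDC_C_mul hd'C hC0))
      (SDC_C_add (SDC_C_mul hsC hb₁C) (SDC_C_mul hd'C hdC))).2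
    rw [← e, hone2, hs0, zero_mul, zero_add] at e2
    exact e2.symm
  have hdd' : d * d' = c 0 0 := by
    have e := SDC_mul hc haC hb₁C hC0 hdC hpC hqC hsC hd'C
    rw [hWM, hVW] at e
    have e2 := (SDC_ent hc (SDC_C_add (SDC_C_mul haC hpC) (SDC_C_mul hb₁C hsC))
      (SDC_C_add (SDC_C_mul haC hqC) (SDC_C_mul hb₁C hd'C))
      (SDC_C_add (SDC_C_mul hC0 hpC) (SDC_C_mul hdC hsC))
      (SDC_C_add (SDC_C_mul hC0 hqC) (SDC_C_mul hdC hd'C))).2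
    rw [← e, hone2, zero_mul, zero_add] at e2
    exact e2.symm
  obtain ⟨z, hz⟩ : ∃ z, z = b₁ * d' := ⟨_, rfl⟩
  have hzC : SDC_C c z := by rw [hz]; exact SDC_C_mul hb₁C hd'C
  have hV2' : SDC_M c a b₁ 0 d = SDC_M c (c 0 0) z 0 (c 0 0) *
      (SDC_M c d' 0 0 d * SDC_M c (d * a) 0 0 (c 0 0)) := by
    rw [SDC_mul hc hd'C hC0 hC0 hdC (SDC_C_mul hdC haC) hC0 hC0 hC1]
    simp only [mul_zero, zero_mul, add_zero, zero_add]
    rw [← mul_assoc, hd'd, haC.1, hdC.2, SDC_mul hc hC1 hzC hC0 hC1 haC hC0 hC0 hdC]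
    simp only [mul_zero, zero_mul, add_zero, zero_add, haC.1, hdC.1]
    rw [hz, mul_assoc, hd'd, hb₁C.2]
  -- the norms
  have hn := SDB_nc hc
  have h1n : ‖(1 : Q)‖ ≤ 1 := SDB_one
  have hVn : ‖V‖ ≤ 1 := SDB_iso hV h1n
  have hVn' : ‖star V‖ ≤ 1 := by rw [norm_star]; exact hVn
  have hvn : ‖v‖ ≤ 1 := SDB_iso hv1 (hn 0 0)
  have hvn' : ‖star v‖ ≤ 1 := by rw [norm_star]; exact hvn
  have hβn : ‖β‖ ≤ 1 := by
    rw [hβd]
    have := SDB_m (SDB_m (hn 0 0) hVn zero_le_one) (hn 1 0) (by norm_num)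
    linarith
  have hγn : ‖γ‖ ≤ 1 := by
    rw [hγd]
    have := SDB_m (SDB_m (hn 0 1) hVn zero_le_one) (hn 0 0) (by norm_num)
    linarith
  have hδn : ‖δ‖ ≤ 1 := by
    rw [hδd]
    have := SDB_m (SDB_m (hn 0 1) hVn zero_le_one) (hn 1 0) (by norm_num)
    linarith
  have hxn : ‖x‖ ≤ 1 := by
    rw [hx]
    have := SDB_m hvn (by rw [norm_star]; exact hγn : ‖star γ‖ ≤ 1) zero_le_one
    linarith
  have han : ‖a‖ ≤ 3 := by
    rw [ha2]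
    have e1 : ‖b + (c 0 0 - b * b)‖ ≤ 3 := by
      have e2 := SDB_m hbn hbn zero_le_one
      calc ‖b + (c 0 0 - b * b)‖ ≤ ‖b‖ + ‖c 0 0 - b * b‖ := norm_add_le _ _
        _ ≤ ‖b‖ + (‖c 0 0‖ + ‖b * b‖) := by linarith [norm_sub_le (c 0 0) (b * b)]
        _ ≤ 3 := by linarith [hn 0 0]
    have := SDB_m hvn e1 zero_le_one
    linarith
  have ha'n : ‖a'‖ ≤ 1 := by
    rw [ha']
    have := SDB_m hrn hvn' zero_le_one
    linarith
  have hb₁n : ‖b₁‖ ≤ 2 := by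
    rw [hb₁]
    have := SDB_m hxn hδn zero_le_one
    linarith [norm_add_le β (x * δ)]
  have hyn : ‖y‖ ≤ 1 := by
    rw [hy]
    have := SDB_m hγn ha'n zero_le_one
    linarith
  have hdn : ‖d‖ ≤ 3 := by
    rw [hd]
    have := SDB_m hyn hb₁n zero_le_one
    linarith [norm_sub_le δ (y * b₁)]
  have hWn : ‖W‖ ≤ 4 := by
    rw [hW, SDC_up hc, SDC_lo hc]
    have e1 : ‖1 + -x * c 0 1‖ ≤ 2 := by
      have e2 := SDB_m (by rw [norm_neg]; exact hxn : ‖-x‖ ≤ 1) (hn 0 1) zero_le_one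
      linarith [norm_add_le 1 (-x * c 0 1)]
    have e2 : ‖1 + c 1 0 * y‖ ≤ 2 := by
      have e3 := SDB_m (hn 1 0) hyn zero_le_one
      linarith [norm_add_le 1 (c 1 0 * y)]
    have := SDB_m hVn' (SDB_m e1 e2 (by norm_num)) zero_le_one
    linarith
  have hd'n : ‖d'‖ ≤ 4 := by
    rw [hd']
    have := SDB_m (SDB_m (hn 0 1) hWn zero_le_one) (hn 1 0) (by norm_num)
    linarith
  have hzn : ‖z‖ ≤ 8 := by
    rw [hz]
    have := SDB_m hb₁n hd'n (by norm_num)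
    linarith
  refine ⟨SDC_M c (c 0 0) (-x) 0 (c 0 0) * (SDC_M c (c 0 0) 0 y (c 0 0) *
    (SDC_M c (c 0 0) z 0 (c 0 0) * SDC_M c d' 0 0 d)), d * a, a' * d', ?_, ?_, ?_, ?_, ?_⟩
  · refine (hENB Q c hc).1 9 12 8 20 _ (by norm_num) (by norm_num) (by norm_num) ?_
    refine ⟨[1 + -x * c 0 1, 1 + c 1 0 * y, 1 + z * c 0 1, 1 + d' * c 0 1, 1 + c 1 0 * -d,
      1 + d' * c 0 1, 1 + -c 0 0 * c 0 1, 1 + c 1 0 * c 0 0, 1 + -c 0 0 * c 0 1], rfl, ?_, ?_⟩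
    · have hneg : ∀ {w : Q} {B : ℝ}, ‖w‖ ≤ B → ‖-w‖ ≤ B := fun {w B} h => by
        rw [norm_neg]; exact h
      have hC1' := SDC_C_neg hC1
      have g1 : ∃ w : Q, c 0 0 * w = w ∧ w * c 0 0 = w ∧ ‖w‖ ≤ 8 ∧
          (1 + -c 0 0 * c 0 1 = 1 + w * c 0 1 ∨ 1 + -c 0 0 * c 0 1 = 1 + c 1 0 * w) :=
        ⟨-c 0 0, hC1'.1, hC1'.2, hneg ((hn 0 0).trans (by norm_num)), Or.inl rfl⟩
      have g2 : ∃ w : Q, c 0 0 * w = w ∧ w * c 0 0 = w ∧ ‖w‖ ≤ 8 ∧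
          (1 + d' * c 0 1 = 1 + w * c 0 1 ∨ 1 + d' * c 0 1 = 1 + c 1 0 * w) :=
        ⟨d', hd'C.1, hd'C.2, hd'n.trans (by norm_num), Or.inl rfl⟩
      refine List.forall_mem_cons.2 ⟨⟨-x, (SDC_C_neg hxC).1, (SDC_C_neg hxC).2,
        hneg (hxn.trans (by norm_num)), Or.inl rfl⟩, ?_⟩
      refine List.forall_mem_cons.2 ⟨⟨y, hyC.1, hyC.2, hyn.trans (by norm_num), Or.inr rfl⟩, ?_⟩
      refine List.forall_mem_cons.2 ⟨⟨z, hzC.1, hzC.2, hzn, Or.inl rfl⟩, ?_⟩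
      refine List.forall_mem_cons.2 ⟨g2, ?_⟩
      refine List.forall_mem_cons.2 ⟨⟨-d, (SDC_C_neg hdC).1, (SDC_C_neg hdC).2,
        hneg (hdn.trans (by norm_num)), Or.inr rfl⟩, ?_⟩
      refine List.forall_mem_cons.2 ⟨g2, ?_⟩
      refine List.forall_mem_cons.2 ⟨g1, ?_⟩
      refine List.forall_mem_cons.2 ⟨⟨c 0 0, hC1.1, hC1.2, (hn 0 0).trans (by norm_num),
        Or.inr rfl⟩, ?_⟩
      refine List.forall_mem_cons.2 ⟨g1, ?_⟩
      exact List.forall_mem_nil _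
    · rw [SDB_wh hc hd'C hdC hd'd hdd']
      simp only [SDC_up hc, SDC_lo hc, List.prod_cons, List.prod_nil, mul_one]
  · refine ⟨(SDC_C_mul hdC haC).1, (SDC_C_mul hdC haC).2, (SDC_C_mul ha'C hd'C).1,
      (SDC_C_mul ha'C hd'C).2, ?_, ?_⟩
    · calc d * a * (a' * d') = d * ((a * a') * d') := by simp only [mul_assoc]
        _ = c 0 0 := by rw [haa', hd'C.1, hdd']
    · calc a' * d' * (d * a) = a' * ((d' * d) * a) := by simp only [mul_assoc]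
        _ = c 0 0 := by rw [hd'd, haC.1, ha'a]
  · have := SDB_m hdn han (by norm_num)
    linarith
  · have := SDB_m ha'n hd'n (by norm_num)
    linarith
  · rw [← SDC_di hc]
    calc V = (SDC_M c (c 0 0) (-x) 0 (c 0 0) * (SDC_M c (c 0 0) 0 y (c 0 0) *
          SDC_M c (c 0 0) 0 (-y) (c 0 0)) * SDC_M c (c 0 0) x 0 (c 0 0)) * V := by
          rw [hY, mul_one, hX, one_mul]
      _ = SDC_M c (c 0 0) (-x) 0 (c 0 0) * (SDC_M c (c 0 0) 0 y (c 0 0) *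
          (SDC_M c (c 0 0) 0 (-y) (c 0 0) * (SDC_M c (c 0 0) x 0 (c 0 0) * V))) := by
          simp only [mul_assoc]
      _ = _ := by
          rw [hV2, hV2']
          simp only [mul_assoc]

end ND

end SCO
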