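import Pool.Agent.Work.MP_52dd0f_nd.InterfaceE
import Pool.Agent.Work.MP_52dd0f_nd.B_SDC

/-! # THEOREM ND*, block SDS: invertible elements near 1 are small elementary times diagonal -/

set_option autoImplicit false
set_option linter.unusedSectionVars false

namespace SCO

open Filter Topology

universe u

namespace ND

section SDS

variable {P : Type u} [CStarAlgebra P] {c : Fin 2 → Fin 2 → P}

theorem SDS_norm (hc : MU 1 c) (i j : Fin 2) : ‖c i j‖ ≤ 1 := by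
  have hp : ∀ i, ‖c i i‖ ≤ 1 := by
    intro i
    have h := CStarRing.norm_star_mul_self (x := c i i)
    rw [hc.star i i, hc.mul i i i i, if_pos rfl] at h
    by_contra hcon
    push Not at hcon
    nlinarith [norm_nonneg (c i i)]
  have h := CStarRing.norm_star_mul_self (x := c i j)
  rw [hc.star i j, hc.mul j i i j, if_pos rfl] at h
  have h2 := hp j
  by_contra hcon
  push Not at hcon
  nlinarith [norm_nonneg (c i j)]

theorem SDS_sand {a b w : P} {t : ℝ} (ha : ‖a‖ ≤ 1) (hb : ‖b‖ ≤ 1) (hw : ‖w‖ ≤ t) :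
    ‖a * w * b‖ ≤ t := by
  have h0 : 0 ≤ t := (norm_nonneg w).trans hw
  calc ‖a * w * b‖ ≤ ‖a * w‖ * ‖b‖ := norm_mul_le _ _
    _ ≤ (‖a‖ * ‖w‖) * ‖b‖ := mul_le_mul_of_nonneg_right (norm_mul_le _ _) (norm_nonneg _)
    _ ≤ (1 * t) * 1 := by gcongr
    _ = t := by ring

end SDS

theorem p_SDS (hINV : Stmt_INV.{u}) (hENB : Stmt_ENB.{u}) (hENW : Stmt_ENW.{u}) :
    Stmt_SDS.{u} := by
  obtain ⟨k, hk⟩ := dl_mul_le 16
  refine ⟨k + 1, ?_⟩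
  intro Q _ c hc n v hv
  obtain ⟨h1, h2, h3, h4, h5, h6, h7, h8⟩ := SDC_r hc
  have hs : star (c 0 0) = c 0 0 := hc.star 0 0
  have hC1 := SDC_C_one hc
  have hC0 : SDC_C c 0 := SDC_C_zero
  obtain ⟨s, hsd⟩ : ∃ s, s = dl (n + k) := ⟨_, rfl⟩
  have hs0 : 0 < s := by rw [hsd]; exact dl_pos _
  have hsn : 16 * s ≤ dl n := by rw [hsd]; exact hk n
  have hn2 := dl_le_half n
  have hs32 : s ≤ 1 / 32 := by linarith
  have hδ : dl (n + (k + 1)) = s ^ 2 := by rw [hsd, ← add_assoc, dl_succ]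
  rw [hδ] at hv
  have hss : s ^ 2 ≤ s / 32 := by nlinarith
  have hs2 : 0 ≤ s ^ 2 := sq_nonneg s
  have N00 := SDS_norm hc 0 0
  have N01 := SDS_norm hc 0 1
  have N10 := SDS_norm hc 1 0
  obtain ⟨hVM, hα, hβ, hγ, hδC⟩ := SDC_all hc v
  have nα : ‖c 0 0 * v * c 0 0 - c 0 0‖ ≤ s ^ 2 := by
    have e1 : c 0 0 * v * c 0 0 - c 0 0 = c 0 0 * (v - 1) * c 0 0 := by
      rw [mul_sub, sub_mul, mul_one, h3]
    rw [e1]
    exact SDS_sand N00 N00 hv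
  have nβ : ‖c 0 0 * v * c 1 0‖ ≤ s ^ 2 := by
    have e1 : c 0 0 * v * c 1 0 = c 0 0 * (v - 1) * c 1 0 := by
      rw [mul_sub, sub_mul, mul_one, h7, sub_zero]
    rw [e1]
    exact SDS_sand N00 N10 hv
  have nγ : ‖c 0 1 * v * c 0 0‖ ≤ s ^ 2 := by
    have e1 : c 0 1 * v * c 0 0 = c 0 1 * (v - 1) * c 0 0 := by
      rw [mul_sub, sub_mul, mul_one, h6, sub_zero]
    rw [e1]
    exact SDS_sand N01 N00 hv
  have nδ : ‖c 0 1 * v * c 1 0 - c 0 0‖ ≤ s ^ 2 := by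
    have e1 : c 0 1 * v * c 1 0 - c 0 0 = c 0 1 * (v - 1) * c 1 0 := by
      rw [mul_sub, sub_mul, mul_one, h1]
    rw [e1]
    exact SDS_sand N01 N10 hv
  obtain ⟨α, hαd⟩ : ∃ α, α = c 0 0 * v * c 0 0 := ⟨_, rfl⟩
  obtain ⟨β, hβd⟩ : ∃ β, β = c 0 0 * v * c 1 0 := ⟨_, rfl⟩
  obtain ⟨γ, hγd⟩ : ∃ γ, γ = c 0 1 * v * c 0 0 := ⟨_, rfl⟩
  obtain ⟨δ, hδd⟩ : ∃ δ, δ = c 0 1 * v * c 1 0 := ⟨_, rfl⟩
  rw [← hαd, ← hβd, ← hγd, ← hδd] at hVM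
  rw [← hαd] at hα nα
  rw [← hβd] at hβ nβ
  rw [← hγd] at hγ nγ
  rw [← hδd] at hδC nδ
  clear hαd hβd hγd hδd
  obtain ⟨a', hIa, na'2, na'⟩ := hINV Q (c 0 0) α h3 hs hα.1 hα.2 (by linarith)
  have ha'C : SDC_C c a' := ⟨hIa.rl, hIa.rr⟩
  obtain ⟨d, hd⟩ : ∃ d, d = δ - γ * a' * β := ⟨_, rfl⟩
  have hdC : SDC_C c d := by rw [hd]; exact SDC_C_sub hδC (SDC_C_mul (SDC_C_mul hγ ha'C) hβ)
  have nγa : ‖γ * a'‖ ≤ 2 * s ^ 2 := by
    calc ‖γ * a'‖ ≤ ‖γ‖ * ‖a'‖ := norm_mul_le _ _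
      _ ≤ s ^ 2 * 2 := by gcongr
      _ = 2 * s ^ 2 := by ring
  have nd : ‖d - c 0 0‖ ≤ 2 * s ^ 2 := by
    have e1 : d - c 0 0 = (δ - c 0 0) - γ * a' * β := by rw [hd]; abel
    rw [e1]
    calc ‖(δ - c 0 0) - γ * a' * β‖ ≤ ‖δ - c 0 0‖ + ‖γ * a' * β‖ := norm_sub_le _ _
      _ ≤ s ^ 2 + ‖γ * a'‖ * ‖β‖ := by gcongr; exact norm_mul_le _ _
      _ ≤ s ^ 2 + (2 * s ^ 2) * s ^ 2 := by gcongr
      _ ≤ 2 * s ^ 2 := by nlinarith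
  obtain ⟨d', hId, nd'2, nd'⟩ := hINV Q (c 0 0) d h3 hs hdC.1 hdC.2 (by linarith)
  have hd'C : SDC_C c d' := ⟨hId.rl, hId.rr⟩
  have nd'' : ‖d' - c 0 0‖ ≤ 4 * s ^ 2 := by linarith
  have nα1 : ‖α‖ ≤ 2 := by
    have e1 : α = (α - c 0 0) + c 0 0 := by abel
    rw [e1]
    calc ‖(α - c 0 0) + c 0 0‖ ≤ ‖α - c 0 0‖ + ‖c 0 0‖ := norm_add_le _ _
      _ ≤ s ^ 2 + 1 := by gcongr
      _ ≤ 2 := by linarith
  have nd1 : ‖d‖ ≤ 2 := by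
    have e1 : d = (d - c 0 0) + c 0 0 := by abel
    rw [e1]
    calc ‖(d - c 0 0) + c 0 0‖ ≤ ‖d - c 0 0‖ + ‖c 0 0‖ := norm_add_le _ _
      _ ≤ 2 * s ^ 2 + 1 := by gcongr
      _ ≤ 2 := by linarith
  -- the diagonal matrix
  have hdiag : EN c 4 (2 * (4 * s)) (d' + c 1 0 * d * c 0 1) := by
    obtain ⟨x, hx⟩ : ∃ x : Q, x = s • c 0 0 := ⟨_, rfl⟩
    obtain ⟨y, hy⟩ : ∃ y : Q, y = s⁻¹ • (d' - c 0 0) := ⟨_, rfl⟩
    have hCd : SDC_C c (d' - c 0 0) := SDC_C_sub hd'C hC1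
    have hxy : x * y = d' - c 0 0 := by
      rw [hx, hy, smul_mul_smul_comm, mul_inv_cancel₀ hs0.ne', one_smul, hCd.1]
    have hyx : y * x = d' - c 0 0 := by
      rw [hx, hy, smul_mul_smul_comm, inv_mul_cancel₀ hs0.ne', one_smul, hCd.2]
    have nx : ‖x‖ ≤ 4 * s := by
      rw [hx, norm_smul, Real.norm_of_nonneg hs0.le]
      nlinarith [norm_nonneg (c 0 0)]
    have ny : ‖y‖ ≤ 4 * s := by
      rw [hy, norm_smul, norm_inv, Real.norm_of_nonneg hs0.le]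
      rw [inv_mul_le_iff₀ hs0]
      nlinarith
    obtain ⟨r, r₂, -, hr₂, -, -, hEN⟩ := hENW Q c hc x y (4 * s)
      (by rw [hx, mul_smul_comm, h3]) (by rw [hx, smul_mul_assoc, h3])
      (by rw [hy, mul_smul_comm, hCd.1]) (by rw [hy, smul_mul_assoc, hCd.2]) nx ny (by linarith)
    rw [hyx] at hr₂
    rw [hxy] at hEN
    have e1 : c 0 0 + (d' - c 0 0) = d' := by abel
    rw [e1] at hr₂ hEN
    have e2 : r₂ = d := by
      calc r₂ = r₂ * c 0 0 := hr₂.rr.symm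
        _ = r₂ * (d' * d) := by rw [hId.m2]
        _ = (r₂ * d') * d := by rw [mul_assoc]
        _ = d := by rw [hr₂.m2, hdC.1]
    rw [e2] at hEN
    exact hEN
  obtain ⟨B1, B2, -, -, -⟩ := hENB Q c hc
  have hdn0 : 0 ≤ dl n := (dl_pos n).le
  have hE2 : EN c 4 (dl n) (d' + c 1 0 * d * c 0 1) := B1 _ _ _ _ _ le_rfl (by linarith) hdn0 hdiag
  have hE1 : EN c 1 (dl n) (1 + c 1 0 * (γ * a')) := by
    refine ⟨[1 + c 1 0 * (γ * a')], rfl, ?_, by simp⟩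
    intro t ht
    rw [List.mem_singleton] at ht
    exact ⟨γ * a', (SDC_C_mul hγ ha'C).1, (SDC_C_mul hγ ha'C).2, by linarith, Or.inr ht⟩
  have hE3 : EN c 1 (dl n) (1 + d * β * c 0 1) := by
    refine ⟨[1 + d * β * c 0 1], rfl, ?_, by simp⟩
    intro t ht
    rw [List.mem_singleton] at ht
    refine ⟨d * β, (SDC_C_mul hdC hβ).1, (SDC_C_mul hdC hβ).2, ?_, Or.inl ht⟩
    calc ‖d * β‖ ≤ ‖d‖ * ‖β‖ := norm_mul_le _ _
      _ ≤ 2 * s ^ 2 := by gcongr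
      _ ≤ dl n := by linarith
  refine ⟨(1 + c 1 0 * (γ * a')) * ((d' + c 1 0 * d * c 0 1) * (1 + d * β * c 0 1)),
    d * α, a' * d', ?_, ?_, ?_, ?_, ?_⟩
  · exact B2 1 5 _ _ _ hE1 (B2 4 1 _ _ _ hE2 hE3)
  · refine ⟨(SDC_C_mul hdC hα).1, (SDC_C_mul hdC hα).2, (SDC_C_mul ha'C hd'C).1,
      (SDC_C_mul ha'C hd'C).2, ?_, ?_⟩
    · calc d * α * (a' * d') = d * ((α * a') * d') := by simp only [mul_assoc]
        _ = c 0 0 := by rw [hIa.m1, hd'C.1, hId.m1]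
    · calc a' * d' * (d * α) = a' * ((d' * d) * α) := by simp only [mul_assoc]
        _ = c 0 0 := by rw [hId.m2, hα.1, hIa.m2]
  · have e1 : d * α - c 0 0 = (d - c 0 0) * α + (α - c 0 0) := by
      rw [sub_mul, hα.1]
      abel
    rw [e1]
    calc ‖(d - c 0 0) * α + (α - c 0 0)‖ ≤ ‖(d - c 0 0) * α‖ + ‖α - c 0 0‖ := norm_add_le _ _
      _ ≤ ‖d - c 0 0‖ * ‖α‖ + s ^ 2 := by gcongr; exact norm_mul_le _ _
      _ ≤ (2 * s ^ 2) * 2 + s ^ 2 := by gcongr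
      _ ≤ dl n := by linarith
  · have e1 : a' * d' - c 0 0 = (a' - c 0 0) * d' + (d' - c 0 0) := by
      rw [sub_mul, hd'C.1]
      abel
    rw [e1]
    calc ‖(a' - c 0 0) * d' + (d' - c 0 0)‖ ≤ ‖(a' - c 0 0) * d'‖ + ‖d' - c 0 0‖ :=
          norm_add_le _ _
      _ ≤ ‖a' - c 0 0‖ * ‖d'‖ + 4 * s ^ 2 := by gcongr; exact norm_mul_le _ _
      _ ≤ (2 * s ^ 2) * 2 + 4 * s ^ 2 := by gcongr; linarith
      _ ≤ dl n := by linarith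
  · rw [← SDC_lo hc, ← SDC_dd, ← SDC_up hc, ← SDC_di hc]
    have hγa := SDC_C_mul hγ ha'C
    have hdβ := SDC_C_mul hdC hβ
    have hdα := SDC_C_mul hdC hα
    have e3 : SDC_M c (c 0 0) (d * β) 0 (c 0 0) * SDC_M c (d * α) 0 0 (c 0 0) =
        SDC_M c (d * α) (d * β) 0 (c 0 0) := by
      rw [SDC_mul hc hC1 hdβ hC0 hC1 hdα hC0 hC0 hC1]
      simp only [mul_zero, zero_mul, add_zero, zero_add, hdα.1, hdβ.2, h3]
    have e2 : SDC_M c d' 0 0 d * SDC_M c (d * α) (d * β) 0 (c 0 0) = SDC_M c α β 0 d := by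
      rw [SDC_mul hc hd'C hC0 hC0 hdC hdα hdβ hC0 hC1]
      simp only [mul_zero, zero_mul, add_zero, zero_add, hdC.2]
      rw [← mul_assoc, hId.m2, hα.1, ← mul_assoc, hId.m2, hβ.1]
    have e1 : SDC_M c (c 0 0) 0 (γ * a') (c 0 0) * SDC_M c α β 0 d = SDC_M c α β γ δ := by
      rw [SDC_mul hc hC1 hC0 hγa hC1 hα hβ hC0 hdC]
      simp only [mul_zero, zero_mul, add_zero, hα.1, hβ.1, hdC.1]
      rw [mul_assoc γ a' α, hIa.m2, hγ.2, hd]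
      congr 1
      abel
    calc v = SDC_M c α β γ δ := hVM.symm
      _ = SDC_M c (c 0 0) 0 (γ * a') (c 0 0) * (SDC_M c d' 0 0 d *
          (SDC_M c (c 0 0) (d * β) 0 (c 0 0) * SDC_M c (d * α) 0 0 (c 0 0))) := by
          rw [e3, e2, e1]
      _ = _ := by simp only [mul_assoc]

end ND

end SCO
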