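import Pool.Agent.Work.MP_52dd0f_nd.InterfaceE

/-!
# THEOREM ND*, block SEP: unitaries near `1` are, up to a scalar, products of a bounded number of small
elementary matrices (helper89)
-/

set_option autoImplicit false
set_option linter.unusedSectionVars false

namespace SCO

open Filter Topology

universe u

namespace ND

section

variable {P : Type u} [CStarAlgebra P]

theorem SEP_diag {c : Fin 2 → Fin 2 → P} (hc : MU 1 c) {q r : P} (hq : IvC (c 0 0) q r) :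
    (q + c 1 1) * (r + c 1 1) = 1 := by
  have m : ∀ i j l m, c i j * c l m = if j = l then c i m else 0 := hc.mul
  have h1 : c 0 0 + c 1 1 = 1 := by
    have := hc.sum
    rwa [Fin.sum_univ_two] at this
  have hfe : c 1 1 * c 0 0 = 0 := by rw [m]; simp
  have hef : c 0 0 * c 1 1 = 0 := by rw [m]; simp
  have hff : c 1 1 * c 1 1 = c 1 1 := by rw [m]; simp
  have hxf : ∀ x, x * c 0 0 = x → x * c 1 1 = 0 := fun x hx => by
    rw [← hx, mul_assoc, hef, mul_zero]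
  have hfx : ∀ x, c 0 0 * x = x → c 1 1 * x = 0 := fun x hx => by
    rw [← hx, ← mul_assoc, hfe, zero_mul]
  rw [mul_add, add_mul, add_mul, hq.m1, hfx r hq.rl, hxf q hq.qr, hff, add_zero, zero_add, h1]

/-- the adjoint of a unitary `E (q + c 1 1)` -/
theorem SEP_star {c : Fin 2 → Fin 2 → P} (hc : MU 1 c) {q r E E' k : P} (hq : IvC (c 0 0) q r)
    (hE : Iv E E') (hk : k = E * (q + c 1 1)) (hk1 : star k * k = 1) :
    star k = (r + c 1 1) * E' := by
  have h1 : k * ((r + c 1 1) * E') = 1 := by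
    calc k * ((r + c 1 1) * E') = E * ((q + c 1 1) * (r + c 1 1)) * E' := by
          rw [hk]; simp only [mul_assoc]
      _ = 1 := by rw [SEP_diag hc hq, mul_one, hE.r]
  calc star k = star k * (k * ((r + c 1 1) * E')) := by rw [h1, mul_one]
    _ = (star k * k) * ((r + c 1 1) * E') := by rw [mul_assoc]
    _ = (r + c 1 1) * E' := by rw [hk1, one_mul]

end

theorem p_SEP (hENB : Stmt_ENB.{u}) (hENV : Stmt_ENV.{u}) (hSDB : Stmt_SDB.{u})
    (hSDS : Stmt_SDS.{u}) (hENM : Stmt_ENM.{u}) : Stmt_SEP.{u} := by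
  intro Q _ _ _ c hc H
  obtain ⟨b1, b2, b3, -, -⟩ := hENB Q c hc
  obtain ⟨K₁, kM, hM⟩ := hENM 12 20
  obtain ⟨K₂, kV, hV⟩ := hENV 6
  obtain ⟨kS, hS⟩ := hSDS
  obtain ⟨k8, h8⟩ := dl_mul_le 8
  refine ⟨6 + (K₁ + K₂), kM + kV + kS + k8 + 1, fun n v hv hv' hvn => ?_⟩
  set δ := dl (n + (kM + kV + kS + k8 + 1)) with hδ
  have hδ0 : 0 < δ := dl_pos _
  have hδ4 : δ ≤ 1 / 4 := by
    have h1 : δ ≤ dl 1 := dl_anti (by omega)
    have h2 : dl 1 = 1 / 4 := by norm_num [dl]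
    rwa [h2] at h1
  have hδ8 : 8 * δ ≤ dl (n + kM + kV + kS) := by
    have h1 := h8 (n + kM + kV + kS)
    have h2 : δ ≤ dl (n + kM + kV + kS + k8) := dl_anti (by omega)
    linarith
  obtain ⟨θ, k, s, hθ, hk1, hk2, hs1, hs2, hkn, hvk⟩ := H v δ hv hv' hδ0 hδ4 hvn
  obtain ⟨E, q, q', hE, hq, hqn, hqn', hkE⟩ := hS Q c hc (n + kM + kV) k (hkn.trans hδ8)
  obtain ⟨F, p, p', hF, hp, hpn, hpn', hsF⟩ := hSDB Q c hc s hs1 hs2
  obtain ⟨E', hEE', hE'⟩ := b3 _ _ _ hE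
  obtain ⟨F', hFF', -⟩ := b3 _ _ _ hF
  have ek : star k = (q' + c 1 1) * E' := SEP_star hc hq hEE' hkE hk1
  have es : star s = (p' + c 1 1) * F' := SEP_star hc hp hFF' hsF hs1
  have d1 : dl (n + kM + kV) ≤ dl (n + kM) := dl_anti (by omega)
  have d2 : dl (n + kM + kV) ≤ dl (n + kV) := dl_anti (by omega)
  have d3 : dl (n + kM + kV) ≤ dl n := dl_anti (by omega)
  have m1 := hM Q c hc n F F' p p' q q' hF hFF' hp hpn hpn' hq (hqn.trans d1) (hqn'.trans d1)
  rw [← hsF, ← es] at m1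
  have m2 : EN c 6 (dl (n + kV)) E' := b1 _ _ _ _ _ le_rfl d2 (dl_pos _).le hE'
  have m3 := hV Q c hc n s E' hs1 hs2 m2
  have m4 : EN c 6 (dl n) E := b1 _ _ _ _ _ le_rfl d3 (dl_pos _).le hE
  have m5 := b2 _ _ _ _ _ m4 (b2 _ _ _ _ _ m1 m3)
  refine ⟨θ, _, ?_, m5, ?_⟩
  · refine hθ.trans ?_
    have h1 : dl (n + kM + kV + kS) ≤ dl n := dl_anti (by omega)
    linarith
  · rw [hvk]
    have e1 : E * ((q + c 1 1) * s * (q' + c 1 1) * star s * (s * E' * star s))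
        = (E * (q + c 1 1)) * s * ((q' + c 1 1) * ((star s * s) * E')) * star s := by
      simp only [mul_assoc]
    rw [e1, hs1, one_mul, ← ek, ← hkE]

end ND

end SCO
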