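import Pool.Agent.Work.MP_52dd0f_nd.InterfaceS
import Pool.Agent.Work.MP_52dd0f_nd.B_OFF

/-! # THEOREM SIM, block SEL -/

set_option autoImplicit false
set_option linter.unusedSectionVars false

namespace SCO

open Filter Topology

universe u

namespace ND

section

variable {P : Type u} [CStarAlgebra P]

theorem SEL_mul_a {e f a b : P} (h : OFF_R e f a b) (x y : P) (hy : e * y = y) :
    (1 + x * a) * (1 + y * a) = 1 + (x + y) * a := by
  have e1 : x * a * (y * a) = 0 := by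
    rw [← hy]
    calc x * a * (e * y * a) = x * (a * e) * (y * a) := by simp only [mul_assoc]
      _ = 0 := by rw [h.ae, mul_zero, zero_mul]
  have e2 : (1 + x * a) * (1 + y * a) = 1 + x * a + y * a + x * a * (y * a) := by noncomm_ring
  rw [e2, e1, add_mul]
  abel

theorem SEL_mul_b {e f a b : P} (h : OFF_R e f a b) (x y : P) (hx : x * e = x) :
    (1 + b * x) * (1 + b * y) = 1 + b * (x + y) := by
  have e1 : b * x * (b * y) = 0 := by
    rw [← hx]
    calc b * (x * e) * (b * y) = b * x * (e * b) * y := by simp only [mul_assoc]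
      _ = 0 := by rw [h.eb, mul_zero, zero_mul]
  have e2 : (1 + b * x) * (1 + b * y) = 1 + b * x + b * y + b * x * (b * y) := by noncomm_ring
  rw [e2, e1, mul_add]
  abel

theorem SEL_D_a {e f a b g : P} (h : OFF_R e f a b) (hs1 : e * star g = star g)
    (d2 : (g + f) * star (g + f) = 1) (z : ℂ) :
    (g + f) * (1 + z • a) * star (g + f) = 1 + (z • g) * a := by
  have s4 : a * star g = 0 := by rw [← hs1, ← mul_assoc, h.ae, zero_mul]
  rw [mul_add, mul_one, add_mul, d2, mul_smul_comm, smul_mul_assoc, add_mul, h.fa, add_zero,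
    mul_assoc, star_add, h.sf, mul_add, s4, h.af, zero_add, smul_mul_assoc]

theorem SEL_D_b {e f a b g : P} (h : OFF_R e f a b) (hs2 : star g * e = star g)
    (d1 : star (g + f) * (g + f) = 1) (z : ℂ) :
    star (g + f) * (1 + z • b) * (g + f) = 1 + b * (z • g) := by
  have s1 : star g * b = 0 := by rw [← hs2, mul_assoc, h.eb, mul_zero]
  have e1 : star (g + f) * (z • b) * (g + f) = b * (z • g) := by
    rw [mul_smul_comm, smul_mul_assoc, star_add, h.sf, add_mul, s1, h.fb, zero_add, mul_add, h.bf,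
      add_zero, mul_smul_comm]
  have e2 : star (g + f) * (1 + z • b) * (g + f) =
      star (g + f) * (g + f) + star (g + f) * (z • b) * (g + f) := by
    rw [mul_add (star (g + f)) 1 (z • b), mul_one, add_mul (star (g + f))]
  rw [e2, d1, e1]

theorem SEL_iv_a {e f a b : P} (h : OFF_R e f a b) (z : ℂ) : Iv (1 + z • a) (1 + (-z) • a) := by
  constructor
  · rw [mul_add, add_mul, add_mul, one_mul, one_mul, mul_one, smul_mul_smul_comm, h.aa, smul_zero,
      neg_smul]
    abel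
  · rw [mul_add, add_mul, add_mul, one_mul, one_mul, mul_one, smul_mul_smul_comm, h.aa, smul_zero,
      neg_smul]
    abel

theorem SEL_iv_b {e f a b : P} (h : OFF_R e f a b) (z : ℂ) : Iv (1 + z • b) (1 + (-z) • b) := by
  constructor
  · rw [mul_add, add_mul, add_mul, one_mul, one_mul, mul_one, smul_mul_smul_comm, h.bb, smul_zero,
      neg_smul]
    abel
  · rw [mul_add, add_mul, add_mul, one_mul, one_mul, mul_one, smul_mul_smul_comm, h.bb, smul_zero,
      neg_smul]
    abel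

end

theorem p_SEL (hSJB : Stmt_SJB.{u}) (hJDS : Stmt_JDS.{u}) (hAMP : Stmt_AMP.{u}) :
    Stmt_SEL.{u} := by
  intro Q _ _ c hc u hu hspan
  have h := OFF_of_MU c hc
  obtain ⟨he, -, -, hUc, -, -, -, -, hHaar⟩ := hAMP Q 1 c hc
  obtain ⟨-, -, j3, j4, j5, j6⟩ := hSJB Q
  have hu1 := hu.mul_left he
  have hu2 := hu.mul_right he
  have hUe : am (n := 1) c u = u + c 1 0 * u * c 0 1 := by
    have e1 : am (n := 1) c u = ∑ i : Fin 2, c i 0 * u * c 0 i := rfl
    rw [e1, Fin.sum_univ_two, hu1, hu2]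
  have hz1 : ∀ z : ℂ, 1 + z • c 0 1 ∈ Gsm (am (n := 1) c u) := fun z =>
    j4 _ _ _ (SEL_iv_a h z) (by
      rw [add_mul, mul_add, one_mul, mul_one, smul_mul_assoc, mul_smul_comm, hUc u 0 1])
  have hz2 : ∀ z : ℂ, 1 + z • c 1 0 ∈ Gsm (am (n := 1) c u) := fun z =>
    j4 _ _ _ (SEL_iv_b h z) (by
      rw [add_mul, mul_add, one_mul, mul_one, smul_mul_assoc, mul_smul_comm, hUc u 1 0])
  have hmem : ∀ g : Q, Gp (c 0 0) u g → (c 0 0 * g = g ∧ g * c 0 0 = g) ∧
      ∀ z : ℂ, 1 + (z • g) * c 0 1 ∈ Gsm (am (n := 1) c u) ∧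
        1 + c 1 0 * (z • g) ∈ Gsm (am (n := 1) c u) := by
    intro g hg
    have hg2 : g * c 0 0 = g := pi_mul_src he hg.src
    have hg1 : c 0 0 * g = g := pi_mul_rng he hg.src hg.rng
    have hs1 : c 0 0 * star g = star g := by
      have h3 := congrArg star hg2
      rw [star_mul, h.se] at h3
      exact h3
    have hs2 : star g * c 0 0 = star g := by
      have h3 := congrArg star hg1
      rw [star_mul, h.se] at h3
      exact h3
    obtain ⟨d1, d2⟩ := OFF_D h hg1 hg2 hs1 hs2 hg.src hg.rng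
    have hDU := OFF_DUD h hu1 hu2 hg1 hg2 hs1 hs2
    have hq : IsProj (c 1 1) := ⟨h.ff, h.sf⟩
    have hv := OFF_haar h he hu
    have hJ := (hJDS Q (c 0 0) (c 1 1) u (g * u * star g) (c 1 0 * u * c 0 1)
      (c 1 0 * u * c 0 1) he hq h.ef hu hv hg.jn Relation.ReflTransGen.refl).2
    rw [h.sum] at hJ
    have hI : Iv (g + c 1 1) (star (g + c 1 1)) := ⟨d2, d1⟩
    have hD : g + c 1 1 ∈ Gsm (am (n := 1) c u) := by
      refine ⟨star (g + c 1 1), hI, ?_⟩
      rw [hUe, hDU]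
      exact j3 _ _ hJ
    have hD' : star (g + c 1 1) ∈ Gsm (am (n := 1) c u) := j6 _ _ _ hI hD
    refine ⟨⟨hg1, hg2⟩, fun z => ⟨?_, ?_⟩⟩
    · rw [← SEL_D_a h hs1 d2 z]
      exact j5 _ _ _ (j5 _ _ _ hD (hz1 z)) hD'
    · rw [← SEL_D_b h hs2 d1 z]
      exact j5 _ _ _ (j5 _ _ _ hD' (hz2 z)) hD
  have key : ∀ x ∈ Submodule.span ℂ {g : Q | Gp (c 0 0) u g}, (c 0 0 * x = x ∧ x * c 0 0 = x) ∧
      ∀ z : ℂ, 1 + (z • x) * c 0 1 ∈ Gsm (am (n := 1) c u) ∧
        1 + c 1 0 * (z • x) ∈ Gsm (am (n := 1) c u) := by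
    intro x hx
    induction hx using Submodule.span_induction with
    | mem x hx => exact hmem x hx
    | zero =>
      refine ⟨⟨mul_zero _, zero_mul _⟩, fun z => ?_⟩
      have h1 := hz1 0
      rw [zero_smul] at h1
      rw [smul_zero, zero_mul, mul_zero]
      exact ⟨h1, h1⟩
    | add x y _ _ hx hy =>
      obtain ⟨⟨x1, x2⟩, x3⟩ := hx
      obtain ⟨⟨y1, y2⟩, y3⟩ := hy
      refine ⟨⟨by rw [mul_add, x1, y1], by rw [add_mul, x2, y2]⟩, fun z => ?_⟩
      have y1' : c 0 0 * (z • y) = z • y := by rw [mul_smul_comm, y1]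
      have x2' : (z • x) * c 0 0 = z • x := by rw [smul_mul_assoc, x2]
      rw [smul_add, ← SEL_mul_a h (z • x) (z • y) y1', ← SEL_mul_b h (z • x) (z • y) x2']
      exact ⟨j5 _ _ _ (x3 z).1 (y3 z).1, j5 _ _ _ (x3 z).2 (y3 z).2⟩
    | smul w x _ hx =>
      obtain ⟨⟨x1, x2⟩, x3⟩ := hx
      refine ⟨⟨by rw [mul_smul_comm, x1], by rw [smul_mul_assoc, x2]⟩, fun z => ?_⟩
      rw [smul_smul]
      exact x3 (z * w)
  intro x hx1 hx2
  have h1 := (key x (hspan x hx1 hx2)).2 1
  rw [one_smul] at h1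
  exact h1

end ND

end SCO
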