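import Pool.Agent.Work.MP_52dd0f_nd.InterfaceE
import Pool.Agent.Work.MP_52dd0f_nd.B_OFF
import Pool.Agent.Work.MP_52dd0f_nd.B_SEL

/-! # THEOREM ND*, block TEL -/

set_option autoImplicit false
set_option linter.unusedSectionVars false

namespace SCO

open Filter Topology

universe u

namespace ND

theorem TEL_pi {P : Type u} [CStarAlgebra P] [TVN P] {e g : P} (he : IsProj e)
    (h : star g * g = e) : ‖g‖ ≤ 1 := by
  have h1 : ‖g‖ * ‖g‖ = ‖e‖ := by rw [← CStarRing.norm_star_mul_self, h]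
  have h2 := he.norm_le
  have h4 := norm_nonneg g
  nlinarith

section

variable {P : Type u} [CStarAlgebra P] [TVN P]

/-- concatenation -/
theorem TEL_cat {ε : ℝ} {n m : ℕ} {x y z : P} (h1 : JsE ε n x y) (h2 : JsE ε m y z) :
    JsE ε (n + m) x z := by
  obtain ⟨w, w0, wn, wS, wc⟩ := h1
  obtain ⟨v, v0, vm, vS, vc⟩ := h2
  refine ⟨fun i => if i ≤ n then w i else v (i - n), ?_, ?_, fun i => ?_, fun i => ?_⟩
  · simp only [Nat.zero_le, if_true, w0]
  · by_cases hm : m = 0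
    · subst hm
      simp only [add_zero, le_refl, if_true, wn]
      rw [← v0, vm]
    · have h3 : ¬ n + m ≤ n := by omega
      simp only [h3, if_false, Nat.add_sub_cancel_left, vm]
  · by_cases hi : i ≤ n
    · simp only [hi, if_true]
      exact wS i
    · simp only [hi, if_false]
      exact vS _
  · by_cases hi : i + 1 ≤ n
    · have hi' : i ≤ n := by omega
      simp only [hi, hi', if_true]
      exact wc i
    · by_cases hin : i ≤ n
      · have h3 : i = n := by omega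
        subst h3
        have h4 : ¬ i + 1 ≤ i := by omega
        simp only [h4, if_false, le_refl, if_true, Nat.add_sub_cancel_left, wn]
        have h5 := vc 0
        rw [v0] at h5
        exact h5
      · have h4 : ¬ i + 1 ≤ n := hi
        simp only [h4, hin, if_false]
        have h5 := vc (i - n)
        have h6 : i - n + 1 = i + 1 - n := by omega
        rw [h6] at h5
        exact h5

/-- conjugation of a chain of unitaries -/
theorem TEL_conj {ε : ℝ} {n : ℕ} {x y t t' : P} (ht : Iv t t') (h1 : ‖t - 1‖ ≤ ε)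
    (h2 : ‖t' - 1‖ ≤ ε) (h : JnN 1 n x y) : JsE ε n (t * x * t') (t * y * t') := by
  obtain ⟨w, w0, wn, wH, wc⟩ := h
  refine ⟨fun i => t * w i * t', ?_, ?_, fun i => ?_, fun i => ?_⟩
  · simp only [w0]
  · simp only [wn]
  · exact ⟨t, t', w i, ht, (wH i).haarU, h1, h2, rfl⟩
  · have e1 : ∀ a b : P, t * a * t' * (t * b * t') = t * (a * b) * t' := by
      intro a b
      calc t * a * t' * (t * b * t') = t * a * (t' * t) * b * t' := by simp only [mul_assoc]
        _ = t * (a * b) * t' := by rw [ht.l, mul_one]; simp only [mul_assoc]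
    show t * w i * t' * (t * w (i + 1) * t') = t * w (i + 1) * t' * (t * w i * t')
    rw [e1, e1, wc i]

/-- one factor -/
theorem TEL_one (hGJN : Stmt_GJN.{u}) (hTEB : Stmt_TEB.{u}) {U V q q' t t' : P} {m : ℕ} {ε : ℝ}
    (hU : HaarU U) (hV : GpN 1 U m V) (hq : Iv q q') (hc : q * U = U * q)
    (ht : V * q * star V = t) (ht' : V * q' * star V = t') (hε : 0 ≤ ε)
    (h1 : ‖t - 1‖ ≤ ε) (h2 : ‖t' - 1‖ ≤ ε) : TE U ε (m + m) t := by
  obtain ⟨j1, -⟩ := hGJN P 1 IsProj.one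
  obtain ⟨-, -, -, e4, -⟩ := hTEB P U hU
  have hVs := hV.src
  have hVr := hV.rng
  have hI : Iv t t' := by
    constructor
    · rw [← ht, ← ht']
      calc V * q * star V * (V * q' * star V) = V * q * (star V * V) * q' * star V := by
            simp only [mul_assoc]
        _ = V * (q * q') * star V := by rw [hVs, mul_one]; simp only [mul_assoc]
        _ = 1 := by rw [hq.r, mul_one, hVr]
    · rw [← ht, ← ht']
      calc V * q' * star V * (V * q * star V) = V * q' * (star V * V) * q * star V := by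
            simp only [mul_assoc]
        _ = V * (q' * q) * star V := by rw [hVs, mul_one]; simp only [mul_assoc]
        _ = 1 := by rw [hq.l, mul_one, hVr]
  refine ⟨t', hI, h1, h2, ?_⟩
  have c1 : JsE ε m U (V * U * star V) := e4 ε m _ _ hε hV.jn
  have c2 := TEL_conj hI h1 h2 (j1 _ _ _ hV.jn)
  have c3 : t * (V * U * star V) * t' = V * U * star V := by
    rw [← ht, ← ht']
    calc V * q * star V * (V * U * star V) * (V * q' * star V)
        = V * q * (star V * V) * U * (star V * V) * q' * star V := by simp only [mul_assoc]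
      _ = V * (q * U) * q' * star V := by rw [hVs, mul_one, mul_one]; simp only [mul_assoc]
      _ = V * U * (q * q') * star V := by rw [hc]; simp only [mul_assoc]
      _ = V * U * star V := by rw [hq.r, mul_one]
  rw [c3] at c2
  exact TEL_cat c1 c2

/-- products -/
theorem TEL_sum (hTEB : Stmt_TEB.{u}) {U : P} (hU : HaarU U) (e : P) (F : P → P) (hF0 : F 0 = 1)
    (hF : ∀ x y, e * x = x → x * e = x → e * y = y → y * e = y → F (x + y) = F x * F y)
    {ε : ℝ} (hε : 0 ≤ ε) (n : ℕ) : ∀ (k : ℕ) (y : Fin k → P),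
      (∀ j, (e * y j = y j ∧ y j * e = y j) ∧ TE U ε n (F (y j))) →
      TE U ((1 + ε) ^ k - 1) (k * n) (F (∑ j, y j)) := by
  obtain ⟨e1, -, e3, -, -⟩ := hTEB P U hU
  intro k
  induction k with
  | zero =>
    intro y _
    have h1 := e3 0 0 0 (by rw [abs_zero])
    rw [Complex.ofReal_zero, zero_mul, Complex.exp_zero, one_smul] at h1
    rw [Finset.univ_eq_empty, Finset.sum_empty, hF0, pow_zero, sub_self, zero_mul]
    exact h1
  | succ k ih =>
    intro y hy
    have h1 := ih (fun j => y j.castSucc) (fun j => hy j.castSucc)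
    obtain ⟨⟨h2, h3⟩, h4⟩ := hy (Fin.last k)
    rw [Fin.sum_univ_castSucc, hF _ _ ?_ ?_ h2 h3]
    · have h5 : 0 ≤ (1 + ε) ^ k - 1 := sub_nonneg.2 (one_le_pow₀ (by linarith))
      have h6 := e1 _ _ _ _ _ _ h5 hε h1 h4
      have h7 : (1 + ε) ^ k - 1 + ε + ((1 + ε) ^ k - 1) * ε = (1 + ε) ^ (k + 1) - 1 := by ring
      have h8 : k * n + n = (k + 1) * n := by ring
      rw [h7, h8] at h6
      exact h6
    · rw [Finset.mul_sum]
      exact Finset.sum_congr rfl fun j _ => (hy j.castSucc).1.1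
    · rw [Finset.sum_mul]
      exact Finset.sum_congr rfl fun j _ => (hy j.castSucc).1.2

theorem TEL_mono (hTEB : Stmt_TEB.{u}) {U t : P} (hU : HaarU U) {ε ε' : ℝ} {n n' : ℕ}
    (h1 : ε ≤ ε') (h2 : n ≤ n') (h : TE U ε n t) : TE U ε' n' t := by
  obtain ⟨-, e2, -⟩ := hTEB P U hU
  obtain ⟨t', a1, a2, a3, a4⟩ := h
  exact ⟨t', a1, a2.trans h1, a3.trans h1, e2 _ _ _ _ _ _ h1 h2 a4⟩

end

theorem TEL_bern (C d : ℝ) (hC : 0 ≤ C) (hd0 : 0 ≤ d) (hd1 : d ≤ 1) (K : ℕ) :
    (1 + C * d) ^ K ≤ 1 + ((1 + C) ^ K - 1) * d := by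
  induction K with
  | zero => simp
  | succ K ih =>
    have h2 : (1 + C * d) ^ (K + 1) ≤ (1 + ((1 + C) ^ K - 1) * d) * (1 + C * d) := by
      rw [pow_succ]; exact mul_le_mul_of_nonneg_right ih (by positivity)
    refine h2.trans ?_
    have h1 : 1 ≤ (1 + C) ^ K := one_le_pow₀ (by linarith)
    have h3 : 0 ≤ ((1 + C) ^ K - 1) * C * d * (1 - d) :=
      mul_nonneg (mul_nonneg (mul_nonneg (sub_nonneg.2 h1) hC) hd0) (sub_nonneg.2 hd1)
    rw [pow_succ]
    nlinarith [h3]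

theorem p_TEL (hGJN : Stmt_GJN.{u}) (hGJD : Stmt_GJD.{u}) (hAMP : Stmt_AMP.{u})
    (hTEB : Stmt_TEB.{u}) : Stmt_TEL.{u} := by
  intro Q _ _ c hc u hu m hspan
  have h := OFF_of_MU c hc
  obtain ⟨he, -, -, hUc, -, -, -, -, hHaar⟩ := hAMP Q 1 c hc
  obtain ⟨-, -, -, -, -, j6, -, -, -⟩ := hGJN Q 1 IsProj.one
  have hu1 := hu.mul_left he
  have hu2 := hu.mul_right he
  have hUH : HaarU (am (n := 1) c u) := (hHaar u hu1 hu2).1 hu
  have hUe : am (n := 1) c u = u + c 1 0 * u * c 0 1 := by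
    have e1 : am (n := 1) c u = ∑ i : Fin 2, c i 0 * u * c 0 i := rfl
    rw [e1, Fin.sum_univ_two, hu1, hu2]
  have hq : IsProj (c 1 1) := ⟨h.ff, h.sf⟩
  have n2 : ‖c 0 1‖ ≤ 1 := TEL_pi hq (by rw [h.sa, h.ba])
  have n3 : ‖c 1 0‖ ≤ 1 := TEL_pi he (by rw [h.sb, h.ab])
  have hz1 : ∀ z : ℂ, (1 + z • c 0 1) * am (n := 1) c u = am (n := 1) c u * (1 + z • c 0 1) := by
    intro z
    rw [add_mul, mul_add, one_mul, mul_one, smul_mul_assoc, mul_smul_comm, hUc u 0 1]
  have hz2 : ∀ z : ℂ, (1 + z • c 1 0) * am (n := 1) c u = am (n := 1) c u * (1 + z • c 1 0) := by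
    intro z
    rw [add_mul, mul_add, one_mul, mul_one, smul_mul_assoc, mul_smul_comm, hUc u 1 0]
  have hmem : ∀ g : Q, GpN (c 0 0) u m g → ∀ (z : ℂ) (ε : ℝ), ‖z‖ ≤ ε →
      (c 0 0 * (z • g) = z • g ∧ (z • g) * c 0 0 = z • g) ∧
        TE (am (n := 1) c u) ε (m + m) (1 + (z • g) * c 0 1) ∧
        TE (am (n := 1) c u) ε (m + m) (1 + c 1 0 * (z • g)) := by
    intro g hg z ε hz
    have hε : 0 ≤ ε := (norm_nonneg z).trans hz
    have hg2 : g * c 0 0 = g := pi_mul_src he hg.src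
    have hg1 : c 0 0 * g = g := pi_mul_rng he hg.src hg.rng
    have hs1 : c 0 0 * star g = star g := by
      have h3 := congrArg star hg2
      rw [star_mul, h.se] at h3
      exact h3
    have hs2 : star g * c 0 0 = star g := by
      have h3 := congrArg star hg1
      rw [star_mul, h.se] at h3
      exact h3
    obtain ⟨d1, d2⟩ := OFF_D h hg1 hg2 hs1 hs2 hg.src hg.rng
    have hDU := OFF_DUD h hu1 hu2 hg1 hg2 hs1 hs2
    have hv := OFF_haar h he hu
    have hJ := hGJD Q (c 0 0) (c 1 1) u (g * u * star g) (c 1 0 * u * c 0 1) m he hq h.ef hv hg.jn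
    rw [h.sum] at hJ
    have hD : GpN 1 (am (n := 1) c u) m (g + c 1 1) := by
      refine ⟨d1, d2, ?_⟩
      rw [hUe, hDU]
      exact hJ
    have hD' := j6 m _ _ hD
    have n1 : ‖g‖ ≤ 1 := TEL_pi he hg.src
    have n4 : ∀ w : ℂ, ‖w‖ ≤ ε → ‖(w • g) * c 0 1‖ ≤ ε ∧ ‖c 1 0 * (w • g)‖ ≤ ε := by
      intro w hw
      have n5 : ‖w • g‖ ≤ ε := by
        rw [norm_smul]
        calc ‖w‖ * ‖g‖ ≤ ε * 1 := mul_le_mul hw n1 (norm_nonneg _) hε
          _ = ε := mul_one _
      constructor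
      · calc ‖(w • g) * c 0 1‖ ≤ ‖w • g‖ * ‖c 0 1‖ := norm_mul_le _ _
          _ ≤ ε * 1 := mul_le_mul n5 n2 (norm_nonneg _) hε
          _ = ε := mul_one _
      · calc ‖c 1 0 * (w • g)‖ ≤ ‖c 1 0‖ * ‖w • g‖ := norm_mul_le _ _
          _ ≤ 1 * ε := mul_le_mul n3 n5 (norm_nonneg _) zero_le_one
          _ = ε := one_mul _
    have hz' : ‖-z‖ ≤ ε := by rw [norm_neg]; exact hz
    refine ⟨⟨by rw [mul_smul_comm, hg1], by rw [smul_mul_assoc, hg2]⟩, ?_, ?_⟩
    · refine TEL_one hGJN hTEB hUH hD (SEL_iv_a h z) (hz1 z) (SEL_D_a h hs1 d2 z)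
        (SEL_D_a h hs1 d2 (-z)) hε ?_ ?_
      · rw [add_sub_cancel_left]; exact (n4 z hz).1
      · rw [add_sub_cancel_left]; exact (n4 (-z) hz').1
    · have k1 : star (g + c 1 1) * (1 + z • c 1 0) * star (star (g + c 1 1)) =
          1 + c 1 0 * (z • g) := by
        rw [star_star]; exact SEL_D_b h hs2 d1 z
      have k2 : star (g + c 1 1) * (1 + (-z) • c 1 0) * star (star (g + c 1 1)) =
          1 + c 1 0 * ((-z) • g) := by
        rw [star_star]; exact SEL_D_b h hs2 d1 (-z)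
      refine TEL_one hGJN hTEB hUH hD' (SEL_iv_b h z) (hz2 z) k1 k2 hε ?_ ?_
      · rw [add_sub_cancel_left]; exact (n4 z hz).2
      · rw [add_sub_cancel_left]; exact (n4 (-z) hz').2
  refine ⟨m * (m + m) + (1 + m) ^ m, ?_⟩
  intro η x hη0 hη1 hx1 hx2 hx
  have hxx : x = (η : ℂ) • (((η⁻¹ : ℝ) : ℂ) • x) := by
    by_cases hη : η = 0
    · have h1 : x = 0 := norm_le_zero_iff.1 (by rw [hη] at hx; exact hx)
      rw [h1, smul_zero, smul_zero]
    · rw [smul_smul, ← Complex.ofReal_mul, mul_inv_cancel₀ hη, Complex.ofReal_one, one_smul]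
  have hxn : ‖((η⁻¹ : ℝ) : ℂ) • x‖ ≤ 1 := by
    rw [norm_smul, Complex.norm_real, Real.norm_of_nonneg (inv_nonneg.2 hη0)]
    by_cases hη : η = 0
    · rw [hη, inv_zero, zero_mul]; exact zero_le_one
    · have h1 : 0 < η := lt_of_le_of_ne hη0 (Ne.symm hη)
      calc η⁻¹ * ‖x‖ ≤ η⁻¹ * η := mul_le_mul_of_nonneg_left hx (inv_nonneg.2 hη0)
        _ = 1 := inv_mul_cancel₀ hη
  obtain ⟨z, g, hzg, hxs⟩ := hspan (((η⁻¹ : ℝ) : ℂ) • x) (by rw [mul_smul_comm, hx1])
    (by rw [smul_mul_assoc, hx2]) hxn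
  have hx3 : x = ∑ j, ((η : ℂ) * z j) • g j := by
    rw [hxx, hxs, Finset.smul_sum]
    exact Finset.sum_congr rfl fun j _ => smul_smul _ _ _
  have hεm : 0 ≤ (m : ℝ) * η := by positivity
  have hzn : ∀ j, ‖(η : ℂ) * z j‖ ≤ m * η := by
    intro j
    rw [norm_mul, Complex.norm_real, Real.norm_of_nonneg hη0, mul_comm]
    exact mul_le_mul_of_nonneg_right (hzg j).1 hη0
  have hb := TEL_bern (m : ℝ) η (by positivity) hη0 hη1 m
  have hb2 : (1 + (m : ℝ) * η) ^ m - 1 ≤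
      ((m * (m + m) + (1 + m) ^ m : ℕ) : ℝ) * η := by
    push_cast
    have h1 : 0 ≤ ((m : ℝ) * (m + m)) * η := by positivity
    nlinarith
  have hn : m * (m + m) ≤ m * (m + m) + (1 + m) ^ m := Nat.le_add_right _ _
  constructor
  · have h1 := TEL_sum hTEB hUH (c 0 0) (fun y => 1 + y * c 0 1) (by rw [zero_mul, add_zero])
      (fun x y _ _ h3 _ => (SEL_mul_a h x y h3).symm) hεm (m + m) m
      (fun j => ((η : ℂ) * z j) • g j)
      (fun j => ⟨(hmem (g j) (hzg j).2 _ _ (hzn j)).1, (hmem (g j) (hzg j).2 _ _ (hzn j)).2.1⟩)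
    rw [← hx3] at h1
    exact TEL_mono hTEB hUH hb2 hn h1
  · have h1 := TEL_sum hTEB hUH (c 0 0) (fun y => 1 + c 1 0 * y) (by rw [mul_zero, add_zero])
      (fun x y _ h3 _ _ => (SEL_mul_b h x y h3).symm) hεm (m + m) m
      (fun j => ((η : ℂ) * z j) • g j)
      (fun j => ⟨(hmem (g j) (hzg j).2 _ _ (hzn j)).1, (hmem (g j) (hzg j).2 _ _ (hzn j)).2.2⟩)
    rw [← hx3] at h1
    exact TEL_mono hTEB hUH hb2 hn h1

end ND

end SCO
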