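import Pool.Agent.Work.MP_52dd0f_nd.InterfaceE

set_option autoImplicit false
set_option linter.unusedSectionVars false

namespace SCO

open Filter Topology

universe u

namespace ND

theorem TEN_list (hTEB : Stmt_TEB.{u}) (Q : Type u) [CStarAlgebra Q] [TVN Q] (U : Q) (hU : HaarU U)
    (m' : ℕ) (ε : ℝ) (hε : 0 ≤ ε) : ∀ l : List Q, (∀ t ∈ l, TE U ε m' t) →
      TE U ((1 + ε) ^ l.length - 1) (l.length * m') l.prod := by
  obtain ⟨h1, -, h3, -, -⟩ := hTEB Q U hU
  intro l
  induction l with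
  | nil =>
    intro _
    have h4 := h3 0 0 0 (by simp)
    have h5 : Complex.exp (((0 : ℝ) : ℂ) * Complex.I) • (1 : Q) = 1 := by
      rw [Complex.ofReal_zero, zero_mul, Complex.exp_zero, one_smul]
    rw [h5] at h4
    simpa using h4
  | cons t l ih =>
    intro hl
    have h4 := hl t (List.mem_cons_self)
    have h5 := ih fun s hs => hl s (List.mem_cons_of_mem _ hs)
    have h6 : 0 ≤ (1 + ε) ^ l.length - 1 := by
      have := one_le_pow₀ (show 1 ≤ 1 + ε by linarith) (n := l.length)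
      linarith
    have h7 := h1 ε ((1 + ε) ^ l.length - 1) m' (l.length * m') t l.prod hε h6 h4 h5
    rw [List.prod_cons, List.length_cons]
    have h8 : (1 + ε) ^ (l.length + 1) - 1 =
        ε + ((1 + ε) ^ l.length - 1) + ε * ((1 + ε) ^ l.length - 1) := by
      rw [pow_succ]
      ring
    have h9 : (l.length + 1) * m' = m' + l.length * m' := by ring
    rw [h8, h9]
    exact h7

theorem p_TEN (hTEB : Stmt_TEB.{u}) : Stmt_TEN.{u} := by
  intro Q _ _ c U hU m' hm K
  obtain ⟨-, h2, -, -, -⟩ := hTEB Q U hU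
  obtain ⟨k, hk⟩ := dl_pow_le (m' : ℝ) (Nat.cast_nonneg _) K
  refine ⟨k, K * m', fun n y hy => ?_⟩
  obtain ⟨l, hl, hlt, rfl⟩ := hy
  have hd0 : 0 ≤ dl (n + k) := (dl_pos _).le
  have hd1 : dl (n + k) ≤ 1 := (dl_le_half _).trans (by norm_num)
  have h4 := TEN_list hTEB Q U hU m' (m' * dl (n + k)) (by positivity) l (by
    intro t ht
    obtain ⟨x, hx1, hx2, hx3, hx4⟩ := hlt t ht
    obtain ⟨h5, h6⟩ := hm (dl (n + k)) x hd0 hd1 hx1 hx2 hx3
    rcases hx4 with h | h
    · rw [h]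
      exact h5
    · rw [h]
      exact h6)
  rw [hl] at h4
  obtain ⟨t', ht1, ht2, ht3, ht4⟩ := h4
  exact ⟨t', ht1, ht2.trans (hk n), ht3.trans (hk n), h2 _ _ _ _ _ _ (hk n) le_rfl ht4⟩

end ND

end SCO
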