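import Pool.Agent.Work.MP_52dd0f_nd.SkelE
import Pool.Agent.Work.MP_52dd0f_nd.All2
import Pool.Agent.Work.MP_52dd0f_nd.B_ENB
import Pool.Agent.Work.MP_52dd0f_nd.B_ENC
import Pool.Agent.Work.MP_52dd0f_nd.B_ENG
import Pool.Agent.Work.MP_52dd0f_nd.B_ENM
import Pool.Agent.Work.MP_52dd0f_nd.B_ENV
import Pool.Agent.Work.MP_52dd0f_nd.B_ENW
import Pool.Agent.Work.MP_52dd0f_nd.B_FIE
import Pool.Agent.Work.MP_52dd0f_nd.B_INV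
import Pool.Agent.Work.MP_52dd0f_nd.B_LFE
import Pool.Agent.Work.MP_52dd0f_nd.B_MCS
import Pool.Agent.Work.MP_52dd0f_nd.B_QAE
import Pool.Agent.Work.MP_52dd0f_nd.B_RKA
import Pool.Agent.Work.MP_52dd0f_nd.B_RKX
import Pool.Agent.Work.MP_52dd0f_nd.B_SDB
import Pool.Agent.Work.MP_52dd0f_nd.B_SDS
import Pool.Agent.Work.MP_52dd0f_nd.B_SEP
import Pool.Agent.Work.MP_52dd0f_nd.B_SPB
import Pool.Agent.Work.MP_52dd0f_nd.B_TEB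
import Pool.Agent.Work.MP_52dd0f_nd.B_TEL
import Pool.Agent.Work.MP_52dd0f_nd.B_TEN

/-!
# THEOREM ND*, MP_52dd0f_an: all blocks
-/

set_option autoImplicit false

namespace SCO

open Filter Topology

universe u

namespace ND

theorem a_ENB : Stmt_ENB.{u} := p_ENB

theorem a_INV : Stmt_INV.{u} := p_INV

theorem a_ENW : Stmt_ENW.{u} := p_ENW a_INV a_ENB

theorem a_ENC : Stmt_ENC.{u} := p_ENC a_INV a_ENB a_ENW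

theorem a_ENG : Stmt_ENG.{u} := p_ENG a_ENB a_ENC

theorem a_ENM : Stmt_ENM.{u} := p_ENM a_ENB a_ENW a_ENG

theorem a_SPB : Stmt_SPB.{u} := p_SPB

theorem a_SDB : Stmt_SDB.{u} := p_SDB a_ENB a_SPB

theorem a_ENV : Stmt_ENV.{u} := p_ENV a_ENB a_ENG a_SDB

theorem a_TEB : Stmt_TEB.{u} := p_TEB

theorem a_FIE : Stmt_FIE.{u} := p_FIE a_GJN a_TEB

theorem a_LFE : Stmt_LFE.{u} := p_LFE

theorem a_MCS : Stmt_MCS.{u} := p_MCS a_RRD a_NMX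

theorem a_RKA : Stmt_RKA.{u} := p_RKA a_DEC a_PAR a_MCS

theorem a_RKX : Stmt_RKX.{u} := p_RKX a_FAC a_SAT a_RKA

theorem a_SDS : Stmt_SDS.{u} := p_SDS a_INV a_ENB a_ENW

theorem a_SEP : Stmt_SEP.{u} := p_SEP a_ENB a_ENV a_SDB a_SDS a_ENM

theorem a_TEL : Stmt_TEL.{u} := p_TEL a_GJN a_GJD a_AMP a_TEB

theorem a_TEN : Stmt_TEN.{u} := p_TEN a_TEB

theorem a_QAE : Stmt_QAE.{u} := p_QAE a_FAC a_SAA a_SAB a_SAC a_UNX a_AMP a_CNC a_GJN a_CLS a_UNI a_GSP a_OFG a_DMG a_GYS a_TRX a_STR a_NST a_NIT a_DNR a_RKX a_SEP a_TEL a_TEN a_FIE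

/-- THEOREM ND* -/
theorem main_star {N M M' : Type u} [CStarAlgebra N] [CStarAlgebra M] [CStarAlgebra M'] {τ : N →ₗ[ℂ] ℂ}
    {σ : M →ₗ[ℂ] ℂ} {σ' : M' →ₗ[ℂ] ℂ} {𝒰 : Ultrafilter ℕ} (h𝒰 : ∀ k : ℕ, 𝒰 ≠ pure k) (hN : IsII₁Factor N τ)
    (hM : IsII₁Factor M σ) (hM' : IsII₁Factor M' σ') {t s : ℝ} (h : IsAmplification N τ M t)
    (h' : IsAmplification N τ M' s) (hone : numOrbits 𝒰 σ' = 1) : ∃ C : ℕ, ∀ u v : ℕ → M, IsHaarU 𝒰 σ u →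
      IsHaarU 𝒰 σ v → ∀ n : ℕ, ∃ x : ℕ → ℕ → M, x 0 = u ∧ x (C * (n + 1) + C) = v ∧
        (∀ i < C * (n + 1), Step 𝒰 σ (x i) (x (i + 1))) ∧
        (∀ k, ‖x (C * (n + 1)) k - v k‖ ≤ (1 / 2 : ℝ) ^ (2 ^ n)) ∧
        ∀ i < C * (n + 1) + C, StepE 𝒰 σ ((1 / 2 : ℝ) ^ (2 ^ n)) (x i) (x (i + 1)) :=
  main_star_of a_HSP a_QAE a_LFE a_COR h𝒰 hN hM hM' h h' hone

end ND

end SCO
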