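import Pool.Agent.Work.MP_52dd0f_nd.Interface

set_option autoImplicit false

namespace SCO

open Filter Topology

universe u

namespace ND

theorem p_HSP (hFAC : Stmt_FAC.{u}) (hSAA : Stmt_SAA.{u}) (hSAB : Stmt_SAB.{u})
    (hSAC : Stmt_SAC.{u}) (hUNE : Stmt_UNE.{u}) (hONE : Stmt_ONE.{u}) (hAMP : Stmt_AMP.{u})
    (hSPN : Stmt_SPN.{u}) (hUPC : Stmt_UPC.{u}) (hTRS : Stmt_TRS.{u}) : Stmt_HSP.{u} := by
  intro K L _ _ _ _ _ _ 𝒰 _ φ e m hφ he hone c hc u hu x hx1 hx2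
  have hF : FactorII (UP L 𝒰) := hFAC L 𝒰
  have hSat : Sat (UP L 𝒰) := ⟨fun u v hu hv => hSAA L 𝒰 u v hu hv,
    fun u v hu hv huv n => hSAB L 𝒰 u v hu hv huv n,
    fun u hu n a b ha hb hua hub => hSAC L 𝒰 u hu n a b ha hb hua hub⟩
  have hJ := hONE L 𝒰 hone
  obtain ⟨Φ, hΦ⟩ := hUPC K L 𝒰 φ e hφ
  obtain ⟨hc0, hct, _⟩ := hAMP (UP K 𝒰) 1 c hc
  have hEt : tau (Φ (c 0 0)) = tau (iU 𝒰 e) * tau (c 0 0) := hΦ.tau_map _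
  have hte : tau (iU 𝒰 e) = tau e := by
    unfold tau
    exact congrArg Complex.re (tr_iU 𝒰 e)
  obtain ⟨a, ha, ha0⟩ := hUNE (UP L 𝒰) 1 (Φ (c 0 0)) IsProj.one (hΦ.isProj hc0) (mul_one _)
    (2 * m + 1) (by
      rw [hEt, hte, hct, he, tau_one]
      have hm : (0 : ℝ) < (m : ℝ) + 1 := by positivity
      push_cast
      field_simp
      ring)
  obtain ⟨h1, h2⟩ := hTRS (UP K 𝒰) (UP L 𝒰) Φ (iU 𝒰 e) hΦ (c 0 0) u hc0 hu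
  apply h2 _ x hx1 hx2
  intro y hy1 hy2
  rw [← ha0] at h1 hy1 hy2 ⊢
  exact hSPN (UP L 𝒰) hSat hJ (2 * m + 1) a ha (Φ u) h1 y hy1 hy2

end ND

end SCO
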