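import Pool.Agent.Work.MP_52dd0f_nd.InterfaceS

set_option autoImplicit false

/-! # THEOREM SIM, block SEI: the monoid `EE c` is a group -/

namespace SCO

open Filter Topology

universe u

namespace ND

theorem SEI_nil {P : Type u} [CStarAlgebra P] (y : P) (h : y * y = 0) : Iv (1 + y) (1 + -y) := by
  constructor
  · have e1 : (1 + y) * (1 + -y) = 1 - y * y := by noncomm_ring
    rw [e1, h, sub_zero]
  · have e1 : (1 + -y) * (1 + y) = 1 - y * y := by noncomm_ring
    rw [e1, h, sub_zero]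

theorem p_SEI : Stmt_SEI.{u} := by
  intro P _ c hc y hy
  have m : ∀ i j l m, c i j * c l m = if j = l then c i m else 0 := hc.mul
  have hae : c 0 1 * c 0 0 = 0 := by rw [m]; simp
  have heb : c 0 0 * c 1 0 = 0 := by rw [m]; simp
  unfold EE at hy ⊢
  induction hy using Submonoid.closure_induction with
  | mem y hy =>
    obtain ⟨x, hx, hx', h | h⟩ := hy
    · subst h
      refine ⟨1 + (-x) * c 0 1, Submonoid.subset_closure ⟨-x, ?_, ?_, Or.inl rfl⟩, ?_⟩
      · rw [mul_neg, hx]
      · rw [neg_mul, hx']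
      · rw [neg_mul]
        apply SEI_nil
        have h0 : c 0 1 * x = 0 := by rw [← hx, ← mul_assoc, hae, zero_mul]
        rw [mul_assoc, ← mul_assoc (c 0 1) x, h0, zero_mul, mul_zero]
    · subst h
      refine ⟨1 + c 1 0 * (-x), Submonoid.subset_closure ⟨-x, ?_, ?_, Or.inr rfl⟩, ?_⟩
      · rw [mul_neg, hx]
      · rw [neg_mul, hx']
      · rw [mul_neg]
        apply SEI_nil
        have h0 : x * c 1 0 = 0 := by rw [← hx', mul_assoc, heb, mul_zero]
        rw [mul_assoc, ← mul_assoc x, h0, zero_mul, mul_zero]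
  | one => exact ⟨1, Submonoid.one_mem _, ⟨one_mul 1, one_mul 1⟩⟩
  | mul y y' _ _ ih ih' =>
    obtain ⟨z, hz, h1⟩ := ih
    obtain ⟨z', hz', h2⟩ := ih'
    refine ⟨z' * z, Submonoid.mul_mem _ hz' hz, ?_, ?_⟩
    · rw [mul_assoc, ← mul_assoc y' z' z, h2.r, one_mul, h1.r]
    · rw [mul_assoc, ← mul_assoc z y y', h1.l, one_mul, h2.l]

end ND

end SCO
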