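import Pool.Agent.Work.MP_52dd0f_nd.InterfaceS

/-!
# THEOREM SIM, MP_52dd0f_an: block SFI (helper94)
-/

set_option autoImplicit false
set_option linter.unusedSectionVars false

namespace SCO

open Filter Topology

universe u

namespace ND

theorem SFI_star {P : Type u} [CStarAlgebra P] [TVN P] {u : P} (h : HaarU u) :
    HaarU (star u) := by
  refine ⟨?_, ?_, fun j hj => ?_⟩
  · rw [star_star]; exact h.coisom
  · rw [star_star]; exact h.isom
  · rw [← star_pow, tr_star, h.haar j hj, map_zero]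

theorem SFI_inv {P : Type u} [CStarAlgebra P] {g h h' : P} (h1 : Iv g h) (h2 : Iv g h') :
    h = h' := by
  calc h = h * (g * h') := by rw [h2.r, mul_one]
    _ = (h * g) * h' := by rw [mul_assoc]
    _ = h' := by rw [h1.l, one_mul]

theorem p_SFI (hFAC : Stmt_FAC.{u}) (hSAA : Stmt_SAA.{u}) (hSAB : Stmt_SAB.{u})
    (hSAC : Stmt_SAC.{u}) (hUNX : Stmt_UNX.{u}) (hAMP : Stmt_AMP.{u}) (hHSP : Stmt_HSP.{u})
    (hSJB : Stmt_SJB.{u}) (hSEL : Stmt_SEL.{u}) (hSHE : Stmt_SHE.{u}) (hSUB : Stmt_SUB.{u}) :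
    Stmt_SFI.{u} := by
  intro K L _ _ _ _ _ _ 𝒰 _ φ e m hφ hte hone u v hu hv
  have hQ : FactorII (UP K 𝒰) := hFAC K 𝒰
  have hSat : Sat (UP K 𝒰) := ⟨fun u v hu hv => hSAA K 𝒰 u v hu hv,
    fun u v hu hv huv n => hSAB K 𝒰 u v hu hv huv n,
    fun u hu n a b ha hb hua hub => hSAC K 𝒰 u hu n a b ha hb hua hub⟩
  obtain ⟨c, hc⟩ := hUNX (UP K 𝒰) 1 IsProj.one 1
  obtain ⟨hc0, -, -, -, -, -, -, -, hHaar⟩ := hAMP (UP K 𝒰) 1 c hc
  obtain ⟨h0, hh0⟩ := exists_halving (noMin_empty (M := UP K 𝒰))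
  obtain ⟨x, -, hx, -⟩ := tree_limit hh0 (co_empty (c 0 0)) hc0
  have hU : HaarU (am (n := 1) c x) := (hHaar x (hx.mul_left hc0) (hx.mul_right hc0)).1 hx
  obtain ⟨h, hh1, hh2, hh3⟩ := hSAA K 𝒰 (am (n := 1) c x) u hU hu
  obtain ⟨k, hk1, hk2, hk3⟩ := hSAA K 𝒰 (am (n := 1) c x) v hU hv
  obtain ⟨hJ1, hJ2, hJ3, hJ4, hJ5, hJ6⟩ := hSJB (UP K 𝒰)
  have hg1 : star (star h * k) * (star h * k) = 1 := by
    rw [star_mul, star_star]
    calc star k * h * (star h * k) = star k * (h * star h) * k := by noncomm_ring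
      _ = 1 := by rw [hh2, mul_one, hk1]
  have hg2 : (star h * k) * star (star h * k) = 1 := by
    rw [star_mul, star_star]
    calc star h * k * (star k * h) = star h * (k * star k) * h := by noncomm_ring
      _ = 1 := by rw [hk2, mul_one, hh1]
  obtain ⟨W, hW1, hW2⟩ := hSUB K 𝒰 (star h * k) hg1 hg2
  have hE1 := hSHE (UP K 𝒰) hSat c hc x hx _ hW2
  have hE2 := hSHE (UP K 𝒰) hSat c hc x hx _ (SFI_star hW1)
  have hE : star h * k ∈ EE c := by
    have h3 := (EE c).mul_mem hE1 hE2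
    rwa [mul_assoc, hW1.coisom, mul_one] at h3
  have hsub : ∀ y ∈ EE c, y ∈ Gsm (am (n := 1) c x) := by
    intro y hy
    unfold EE at hy
    induction hy using Submonoid.closure_induction with
    | mem y hy =>
      obtain ⟨z, hz1, hz2, hz⟩ := hy
      have h4 := hSEL (UP K 𝒰) c hc x hx
        (hHSP K L 𝒰 φ e m hφ hte hone c hc x hx) z hz1 hz2
      rcases hz with rfl | rfl
      · exact h4.1
      · exact h4.2
    | one => exact hJ4 _ 1 1 ⟨mul_one _, mul_one _⟩ (by rw [one_mul, mul_one])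
    | mul a b _ _ ha hb => exact hJ5 _ _ _ ha hb
  obtain ⟨g', hg', hJs⟩ := hsub _ hE
  have hg'' : g' = star (star h * k) := SFI_inv hg' ⟨hg2, hg1⟩
  rw [hg''] at hJs
  have h5 := hJ2 _ _ h (star h) ⟨hh2, hh1⟩ hJs
  rw [hh3] at h5
  have h6 : h * (star h * k * am (n := 1) c x * star (star h * k)) * star h = v := by
    rw [star_mul, star_star]
    calc h * (star h * k * am (n := 1) c x * (star k * h)) * star h
        = (h * star h) * (k * am (n := 1) c x * star k) * (h * star h) := by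
          noncomm_ring
      _ = v := by rw [hh2, one_mul, mul_one, hk3]
  rwa [h6] at h5

end ND

end SCO
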