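import Pool.Agent.Work.MP_52dd0f_nd.InterfaceS

set_option autoImplicit false
set_option linter.unusedSectionVars false

namespace SCO

open Filter Topology

universe u

namespace ND

theorem SHE_proj {P : Type u} [CStarAlgebra P] {c : Fin 2 → Fin 2 → P} (hc : MU 1 c) :
    IsProj (c 0 0) := by
  refine ⟨?_, hc.star 0 0⟩
  have := hc.mul 0 0 0 0
  simpa using this

theorem SHE_sum {P : Type u} [CStarAlgebra P] {c : Fin 2 → Fin 2 → P} (hc : MU 1 c) :
    c 0 0 + c 1 1 = 1 := by
  have := hc.sum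
  rwa [Fin.sum_univ_two] at this

theorem SHE_pow {P : Type u} [CStarAlgebra P] {c : Fin 2 → Fin 2 → P} (hc : MU 1 c) (x : P)
    (h1 : c 0 0 * x = x) (m : ℕ) :
    (c 1 0 * x * c 0 1) ^ (m + 1) = c 1 0 * x ^ (m + 1) * c 0 1 := by
  induction m with
  | zero => simp
  | succ m ih =>
    have h01 : c 0 1 * c 1 0 = c 0 0 := by
      have := hc.mul 0 1 1 0
      simpa using this
    rw [pow_succ, ih]
    have e : c 1 0 * x ^ (m + 1) * c 0 1 * (c 1 0 * x * c 0 1) =
        c 1 0 * x ^ (m + 1) * ((c 0 1 * c 1 0) * x) * c 0 1 := by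
      simp only [mul_assoc]
    rw [e, h01, h1, pow_succ x (m + 1)]
    simp only [mul_assoc]

theorem SHE_haar {P : Type u} [CStarAlgebra P] [TVN P] {c : Fin 2 → Fin 2 → P} (hc : MU 1 c)
    {w : P} (hw : IsHaarIn (c 0 0) w) : HaarU (w + c 1 0 * star w * c 0 1) := by
  have hp := SHE_proj hc
  have hl := hw.mul_left hp
  have hr := hw.mul_right hp
  have hl' : c 0 0 * star w = star w := by
    have := congrArg star hr
    rwa [star_mul, hp.star] at this
  have hr' : star w * c 0 0 = star w := by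
    have := congrArg star hl
    rwa [star_mul, hp.star] at this
  have h01 : c 0 1 * c 1 0 = c 0 0 := by
    have := hc.mul 0 1 1 0
    simpa using this
  have h10 : c 1 0 * c 0 1 = c 1 1 := by
    have := hc.mul 1 0 0 1
    simpa using this
  have h100 : c 1 0 * c 0 0 = c 1 0 := by
    have := hc.mul 1 0 0 0
    simpa using this
  have hs : star (c 1 0 * star w * c 0 1) = c 1 0 * w * c 0 1 := by
    rw [star_mul, star_mul, star_star, hc.star 0 1, hc.star 1 0, mul_assoc]
  have h2 : IsHaarIn (1 - c 0 0) (c 1 0 * star w * c 0 1) := by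
    have e1 : (1 : P) - c 0 0 = c 1 1 := by rw [← SHE_sum hc]; abel
    rw [e1]
    refine ⟨?_, ?_, fun m hm => ?_⟩
    · rw [hs]
      have e : c 1 0 * w * c 0 1 * (c 1 0 * star w * c 0 1) =
          c 1 0 * (w * ((c 0 1 * c 1 0) * star w)) * c 0 1 := by
        simp only [mul_assoc]
      rw [e, h01, hl', hw.rng, h100, h10]
    · rw [hs]
      have e : c 1 0 * star w * c 0 1 * (c 1 0 * w * c 0 1) =
          c 1 0 * (star w * ((c 0 1 * c 1 0) * w)) * c 0 1 := by
        simp only [mul_assoc]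
      rw [e, h01, hl, hw.src, h100, h10]
    · obtain ⟨k, rfl⟩ : ∃ k, m = k + 1 := ⟨m - 1, by omega⟩
      rw [SHE_pow hc (star w) hl' k, tr_comm, ← mul_assoc, h01, pow_succ', ← mul_assoc, hl',
        ← pow_succ', ← star_pow, tr_star, hw.tr (k + 1) (by omega), map_zero]
  exact (hw.add hp h2).haarU

theorem p_SHE (hSEI : Stmt_SEI.{u}) (hSWH : Stmt_SWH.{u}) (hSNE : Stmt_SNE.{u})
    (hSDC : Stmt_SDC.{u}) : Stmt_SHE.{u} := by
  intro Q _ _ _ hS c hc w hw V hV
  have hp := SHE_proj hc
  have hl := hw.mul_left hp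
  have hr := hw.mul_right hp
  have hl' : c 0 0 * star w = star w := by
    have := congrArg star hr
    rwa [star_mul, hp.star] at this
  have hr' : star w * c 0 0 = star w := by
    have := congrArg star hl
    rwa [star_mul, hp.star] at this
  have hiv : IvC (c 0 0) w (star w) := ⟨hl, hr, hl', hr', hw.rng, hw.src⟩
  have hW := hSWH Q c hc w (star w) hiv
  obtain ⟨g, hg1, hg2, hg3⟩ := hS.conj _ V (SHE_haar hc hw) hV
  obtain ⟨E, q, r, hE, hqr, hgE⟩ := hSDC Q c hc g hg1 hg2
  obtain ⟨E', hE', hEE⟩ := hSEI Q c hc E hE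
  have h011 : c 0 0 * c 1 1 = 0 := by
    have := hc.mul 0 0 1 1
    simpa using this
  have h110 : c 1 1 * c 0 0 = 0 := by
    have := hc.mul 1 1 0 0
    simpa using this
  have h111 : c 1 1 * c 1 1 = c 1 1 := by
    have := hc.mul 1 1 1 1
    simpa using this
  have hq11 : q * c 1 1 = 0 := by rw [← hqr.qr, mul_assoc, h011, mul_zero]
  have h11r : c 1 1 * r = 0 := by rw [← hqr.rl, ← mul_assoc, h110, zero_mul]
  have hDD : (q + c 1 1) * (r + c 1 1) = 1 := by
    rw [add_mul, mul_add, mul_add, hqr.m1, hq11, h11r, h111, add_zero, zero_add, SHE_sum hc]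
  have hstar : star g = (r + c 1 1) * E' := by
    have e1 : g * ((r + c 1 1) * E') = 1 := by
      rw [hgE, mul_assoc, ← mul_assoc (q + c 1 1), hDD, one_mul, hEE.r]
    calc star g = star g * (g * ((r + c 1 1) * E')) := by rw [e1, mul_one]
      _ = (r + c 1 1) * E' := by rw [← mul_assoc, hg1, one_mul]
  have hV' : V = E * ((q + c 1 1) * (w + c 1 0 * star w * c 0 1) * (r + c 1 1)) * E' := by
    rw [← hg3, hstar, hgE]
    simp only [mul_assoc]
  rw [hV']
  exact Submonoid.mul_mem _ (Submonoid.mul_mem _ hE (hSNE Q c hc q r hqr _ hW)) hE'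

end ND

end SCO
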