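import Pool.Agent.Work.MP_52dd0f_nd.InterfaceS

set_option autoImplicit false

/-! # THEOREM SIM, block SJB: basic properties of `Js` and `Gsm` -/

namespace SCO

open Filter Topology

universe u

namespace ND

section

variable {P : Type u} [CStarAlgebra P]

theorem SJB_iv {g h g' h' : P} (H : Iv g h) (H' : Iv g' h') : Iv (g * g') (h' * h) := by
  constructor
  · rw [mul_assoc, ← mul_assoc g' h' h, H'.r, one_mul, H.r]
  · rw [mul_assoc, ← mul_assoc h g g', H.l, one_mul, H'.l]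

theorem SJB_conj {g h : P} (H : Iv g h) (x y : P) : (g * x * h) * (g * y * h) = g * (x * y) * h := by
  have e1 : (g * x * h) * (g * y * h) = g * x * (h * g) * y * h := by
    simp only [mul_assoc]
  rw [e1, H.l, mul_one]
  simp only [mul_assoc]

variable [TrC P]

theorem SJB_smh {g h : P} (H : Iv g h) {x : P} (hx : Smh x) : Smh (g * x * h) := by
  obtain ⟨g', h', w, H', hw, e⟩ := hx
  refine ⟨g * g', h' * h, w, SJB_iv H H', hw, ?_⟩
  rw [e]
  simp only [mul_assoc]

theorem SJB_js {g h : P} (H : Iv g h) {x y : P} (hxy : Js x y) : Js (g * x * h) (g * y * h) := by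
  refine Relation.ReflTransGen.lift (fun z => g * z * h) ?_ x y hxy
  rintro a b ⟨h1, h2, h3⟩
  refine ⟨SJB_smh H h1, SJB_smh H h2, ?_⟩
  rw [SJB_conj H, SJB_conj H, h3]

theorem SJB_symm {x y : P} (hxy : Js x y) : Js y x := by
  haveI h1 : Std.Symm (fun x y : P => Smh x ∧ Smh y ∧ x * y = y * x) :=
    ⟨fun a b h => ⟨h.2.1, h.1, h.2.2.symm⟩⟩
  exact Relation.ReflTransGen.stdSymm.symm _ _ hxy

end

theorem p_SJB : Stmt_SJB.{u} := by
  intro P _ _
  refine ⟨fun x y h => SJB_symm h, fun x y g h H hxy => SJB_js H hxy, ?_, ?_, ?_, ?_⟩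
  · intro x y hxy
    refine Relation.ReflTransGen.mono ?_ x y hxy
    rintro a b ⟨h1, h2, h3⟩
    exact ⟨⟨1, 1, a, ⟨one_mul 1, one_mul 1⟩, h1.haarU, by simp⟩,
      ⟨1, 1, b, ⟨one_mul 1, one_mul 1⟩, h2.haarU, by simp⟩, h3⟩
  · intro U g h H hU
    refine ⟨h, H, ?_⟩
    rw [hU, mul_assoc, H.r, mul_one]
    exact Relation.ReflTransGen.refl
  · rintro U g g' ⟨h, H, hU⟩ ⟨h', H', hU'⟩
    refine ⟨h' * h, SJB_iv H H', ?_⟩
    have e1 : g * g' * U * (h' * h) = g * (g' * U * h') * h := by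
      simp only [mul_assoc]
    rw [e1]
    exact hU.trans (SJB_js H hU')
  · rintro U g h H ⟨h₁, H₁, hU⟩
    have e0 : h₁ = h := by
      have : h * (g * h₁) = h₁ := by rw [← mul_assoc, H.l, one_mul]
      rw [← this, H₁.r, mul_one]
    rw [e0] at hU
    refine ⟨g, ⟨H.l, H.r⟩, SJB_symm ?_⟩
    have H' : Iv h g := ⟨H.l, H.r⟩
    have e1 := SJB_js H' hU
    have e2 : h * (g * U * h) * g = U := by
      have e3 : h * (g * U * h) * g = (h * g) * U * (h * g) := by simp only [mul_assoc]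
      rw [e3, H.l, one_mul, mul_one]
    rw [e2] at e1
    exact e1

end ND

end SCO
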