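import Pool.Agent.Work.MP_52dd0f_nd.InterfaceS

/-!
# THEOREM SIM, block SLF: from the ultrapower to sequences
-/

set_option autoImplicit false
set_option linter.unusedSectionVars false

namespace SCO

namespace ND

open Filter Topology

universe u

theorem SLF_sim {M : Type u} [CStarAlgebra M] [TVN M] (𝒰 : Ultrafilter ℕ)
    [Fact ((𝒰 : Filter ℕ) ≤ atTop)] (x : Sq M) (hx : Smh (toUP 𝒰 x)) :
    IsSimU 𝒰 (tr : M →ₗ[ℂ] ℂ) x.ev := by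
  obtain ⟨g, h, w, hgh, hw, hxe⟩ := hx
  obtain ⟨g', hg'⟩ := toUP_surjective 𝒰 g
  obtain ⟨h', hh'⟩ := toUP_surjective 𝒰 h
  obtain ⟨w', hw'⟩ := toUP_surjective 𝒰 w
  have e1 : (1 : Sq M).ev = fun _ => (1 : M) := funext fun k => Sq.ev_one k
  refine ⟨⟨‖x‖, fun k => x.norm_ev_le k⟩, g'.ev, h'.ev, w'.ev,
    ⟨max ‖g'‖ ‖h'‖, fun k => ⟨(g'.norm_ev_le k).trans (le_max_left _ _),
      (h'.norm_ev_le k).trans (le_max_right _ _)⟩⟩,
    (haarU_toUP_iff 𝒰 w').1 (by rw [hw']; exact hw), ?_, ?_, ?_⟩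
  · have h1 : toUP 𝒰 (g' * h') = toUP 𝒰 1 := by
      rw [map_mul, map_one, hg', hh']; exact hgh.r
    have h2 := (toUP_eq_iff 𝒰 _ _).1 h1
    have e2 : (g' * h').ev = fun k => g'.ev k * h'.ev k := funext fun k => Sq.ev_mul g' h' k
    rw [e1, e2] at h2
    exact h2
  · have h1 : toUP 𝒰 (h' * g') = toUP 𝒰 1 := by
      rw [map_mul, map_one, hg', hh']; exact hgh.l
    have h2 := (toUP_eq_iff 𝒰 _ _).1 h1
    have e2 : (h' * g').ev = fun k => h'.ev k * g'.ev k := funext fun k => Sq.ev_mul h' g' k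
    rw [e1, e2] at h2
    exact h2
  · have h1 : toUP 𝒰 x = toUP 𝒰 (g' * w' * h') := by
      rw [map_mul, map_mul, hg', hh', hw']; exact hxe
    have h2 := (toUP_eq_iff 𝒰 _ _).1 h1
    have e2 : (g' * w' * h').ev = fun k => g'.ev k * w'.ev k * h'.ev k := funext fun k => by
      rw [Sq.ev_mul, Sq.ev_mul]
    rw [e2] at h2
    exact h2

theorem SLF_haar {M : Type u} [CStarAlgebra M] [TVN M] (𝒰 : Ultrafilter ℕ)
    [Fact ((𝒰 : Filter ℕ) ≤ atTop)] (x : UP M 𝒰) (hx : HaarU x) : Smh x :=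
  ⟨1, 1, x, ⟨one_mul 1, one_mul 1⟩, hx, by rw [one_mul, mul_one]⟩

theorem SLF_chain {M : Type u} [CStarAlgebra M] [TVN M] (𝒰 : Ultrafilter ℕ)
    [Fact ((𝒰 : Filter ℕ) ≤ atTop)] (x : Sq M) (hx : Smh (toUP 𝒰 x)) (b : UP M 𝒰)
    (h : Js (toUP 𝒰 x) b) : ∀ y : Sq M, toUP 𝒰 y = b →
    Relation.ReflTransGen (StepS 𝒰 (tr : M →ₗ[ℂ] ℂ)) x.ev y.ev := by
  unfold Js at h
  induction h with
  | refl =>
    intro y hy
    refine Relation.ReflTransGen.single ⟨SLF_sim 𝒰 x hx, SLF_sim 𝒰 y (by rw [hy]; exact hx), ?_⟩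
    exact (commute_toUP_iff 𝒰 x y).1 (by rw [hy])
  | @tail b c _ hbc ih =>
    intro y hy
    obtain ⟨z, hz⟩ := toUP_surjective 𝒰 b
    obtain ⟨hb, hc, hcom⟩ := hbc
    refine Relation.ReflTransGen.tail (ih z hz) ⟨SLF_sim 𝒰 z (by rw [hz]; exact hb),
      SLF_sim 𝒰 y (by rw [hy]; exact hc), ?_⟩
    exact (commute_toUP_iff 𝒰 z y).1 (by rw [hy, hz, hcom])

theorem p_SLF : Stmt_SLF.{u} := by
  intro M _ _ 𝒰 _ u v hu hv H
  have hu1 : HaarU (toUP 𝒰 (mkSq u hu.bounded)) := (haarU_toUP_iff 𝒰 _).2 hu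
  have hv1 : HaarU (toUP 𝒰 (mkSq v hv.bounded)) := (haarU_toUP_iff 𝒰 _).2 hv
  exact SLF_chain 𝒰 (mkSq u hu.bounded) (SLF_haar 𝒰 _ hu1) _ (H _ _ hu1 hv1)
    (mkSq v hv.bounded) rfl

end ND

end SCO
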