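import Pool.Agent.Work.MP_52dd0f_nd.InterfaceS

set_option autoImplicit false

/-! # THEOREM SIM, block SNE: `q + c 1 1` normalizes `EE c` -/

namespace SCO

open Filter Topology

universe u

namespace ND

theorem p_SNE : Stmt_SNE.{u} := by
  intro P _ c hc q r hq y hy
  have m : ∀ i j l m, c i j * c l m = if j = l then c i m else 0 := hc.mul
  have h1 : c 0 0 + c 1 1 = 1 := by
    have := hc.sum
    rwa [Fin.sum_univ_two] at this
  have haf : c 0 1 * c 1 1 = c 0 1 := by rw [m]; simp
  have hfb : c 1 1 * c 1 0 = c 1 0 := by rw [m]; simp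
  have hae : c 0 1 * c 0 0 = 0 := by rw [m]; simp
  have heb : c 0 0 * c 1 0 = 0 := by rw [m]; simp
  have hfe : c 1 1 * c 0 0 = 0 := by rw [m]; simp
  have hef : c 0 0 * c 1 1 = 0 := by rw [m]; simp
  have hff : c 1 1 * c 1 1 = c 1 1 := by rw [m]; simp
  have hxf : ∀ x, x * c 0 0 = x → x * c 1 1 = 0 := fun x hx => by
    rw [← hx, mul_assoc, hef, mul_zero]
  have hfx : ∀ x, c 0 0 * x = x → c 1 1 * x = 0 := fun x hx => by
    rw [← hx, ← mul_assoc, hfe, zero_mul]
  have hxb : ∀ x, x * c 0 0 = x → x * c 1 0 = 0 := fun x hx => by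
    rw [← hx, mul_assoc, heb, mul_zero]
  have hax : ∀ x, c 0 0 * x = x → c 0 1 * x = 0 := fun x hx => by
    rw [← hx, ← mul_assoc, hae, zero_mul]
  have hDD : (q + c 1 1) * (r + c 1 1) = 1 := by
    rw [mul_add, add_mul, add_mul, hq.m1, hfx r hq.rl, hxf q hq.qr, hff, add_zero, zero_add, h1]
  have hDD' : (r + c 1 1) * (q + c 1 1) = 1 := by
    rw [mul_add, add_mul, add_mul, hq.m2, hfx q hq.ql, hxf r hq.rr, hff, add_zero, zero_add, h1]
  unfold EE at hy ⊢
  induction hy using Submonoid.closure_induction with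
  | mem y hy =>
    obtain ⟨x, hx, hx', h | h⟩ := hy
    · subst h
      refine Submonoid.subset_closure ⟨q * x, ?_, ?_, Or.inl ?_⟩
      · rw [← mul_assoc, hq.ql]
      · rw [mul_assoc, hx']
      · have e1 : (q + c 1 1) * (1 + x * c 0 1) * (r + c 1 1) =
            (q + c 1 1) * (r + c 1 1) + (q * x + c 1 1 * x) * (c 0 1 * r + c 0 1 * c 1 1) := by
          noncomm_ring
        rw [e1, hDD, hfx x hx, hax r hq.rl, haf, add_zero, zero_add]
    · subst h
      refine Submonoid.subset_closure ⟨x * r, ?_, ?_, Or.inr ?_⟩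
      · rw [← mul_assoc, hx]
      · rw [mul_assoc, hq.rr]
      · have e1 : (q + c 1 1) * (1 + c 1 0 * x) * (r + c 1 1) =
            (q + c 1 1) * (r + c 1 1) + (q * c 1 0 + c 1 1 * c 1 0) * (x * r + x * c 1 1) := by
          noncomm_ring
        rw [e1, hDD, hxb q hq.qr, hfb, hxf x hx', add_zero, zero_add]
  | one => rw [mul_one, hDD]; exact Submonoid.one_mem _
  | mul y y' _ _ ih ih' =>
    have e1 : (q + c 1 1) * (y * y') * (r + c 1 1) =
        (q + c 1 1) * y * (r + c 1 1) * ((q + c 1 1) * y' * (r + c 1 1)) := by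
      have e2 : (q + c 1 1) * y * (r + c 1 1) * ((q + c 1 1) * y' * (r + c 1 1)) =
          (q + c 1 1) * y * ((r + c 1 1) * (q + c 1 1)) * y' * (r + c 1 1) := by
        simp only [mul_assoc]
      rw [e2, hDD', mul_one]
      simp only [mul_assoc]
    rw [e1]
    exact Submonoid.mul_mem _ ih ih'

end ND

end SCO
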