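import Pool.Agent.Work.MP_52dd0f_nd.InterfaceS

/-!
# THEOREM SIM, block SPU: polar decomposition with unitary part in a corner
-/

set_option autoImplicit false
set_option linter.unusedSectionVars false

namespace SCO

open Filter Topology

universe u

namespace ND

section

variable {M : Type u} [CStarAlgebra M] [TVN M]

/-- polar decomposition with the absolute value as a square root -/
theorem SPU_polar (x : M) : ∃ v : M, ‖v‖ ≤ 1 ∧ v * star v * v = v ∧ v * star v * x = x ∧
    x * (star v * v) = x ∧ (∀ q, q * x = 0 → q * v = 0) ∧ (∀ q, x * q = 0 → v * q = 0) ∧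
    star v * x = cfc (fun t : ℝ => Real.sqrt t) (star x * x) := by
  obtain ⟨v, h1, h2, h3, h4, h5, h6, h7, _⟩ := polar x
  refine ⟨v, h1, h2, h3, h4, h5, h6, ?_⟩
  set a : M := star x * x with ha
  have hsa : IsSelfAdjoint a := isSelfAdjoint_sq x
  have hsp : ∀ t ∈ spectrum ℝ a, 0 ≤ t := fun t ht => spectrum_sq_nonneg x ht
  have hid : ContinuousOn (fun t : ℝ => t) (spectrum ℝ a) := continuousOn_id
  have hh : ∀ n, ContinuousOn (hN n) (spectrum ℝ a) := fun n => (hN_cont n).continuousOn
  have hsq : ContinuousOn (fun t => Real.sqrt t) (spectrum ℝ a) := by fun_prop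
  have k1 : T2 atTop (fun n => star (x * cfc (hN n) a) * x) (star v * x) := h7.star.mul_const x
  have k2 : T2 atTop (fun n => star (x * cfc (hN n) a) * x)
      (cfc (fun t : ℝ => Real.sqrt t) a) := by
    refine T2.of_sq_le tendsto_one_div_nat (fun n => ?_)
    have e : star (x * cfc (hN n) a) * x = cfc (fun t => hN n t * t) a := by
      rw [star_mul, cfc_star_real, mul_assoc, cfc_mul (hN n) (fun t => t) a (hh n) hid,
        cfc_id' ℝ a]
    rw [e, ← cfc_sub (fun t => hN n t * t) (fun t => Real.sqrt t) a ((hh n).mul hid) hsq,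
      n2_cfc_sq (f := fun t => hN n t * t - Real.sqrt t) (((hh n).mul hid).sub hsq)]
    exact tr_cfc_le_one ((((hh n).mul hid).sub hsq).mul (((hh n).mul hid).sub hsq)) hsa
      fun t ht => hN_sqrt n (hsp t ht)
  exact k1.unique k2

/-- `b + 1 - b * b` is invertible for `0 ≤ b ≤ 1` -/
theorem SPU_unit {b : M} (a : M) (hb : b = cfc (fun t : ℝ => Real.sqrt t) a) (h1 : ‖b‖ ≤ 1) :
    IsUnit (b + (1 - b * b)) := by
  let _ := CStarAlgebra.spectralOrder M
  have _ := CStarAlgebra.spectralOrderedRing M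
  have h0 : 0 ≤ b := by
    rw [hb]
    exact cfc_nonneg fun t _ => Real.sqrt_nonneg t
  have hb1 : b ≤ 1 := by
    have hsa : IsSelfAdjoint b := IsSelfAdjoint.of_nonneg h0
    have h2 := hsa.le_algebraMap_norm_self
    refine h2.trans ?_
    rw [← map_one (algebraMap ℝ M)]
    exact algebraMap_mono M h1
  have h2 : b * b ≤ b := by
    have h3 := CStarAlgebra.pow_antitone h0 hb1 (show 1 ≤ 2 by norm_num)
    simpa [pow_two] using h3
  have h3 : (1 : M) ≤ b + (1 - b * b) := by
    have : b + (1 - b * b) = 1 + (b - b * b) := by abel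
    rw [this]
    exact le_add_of_nonneg_right (sub_nonneg.2 h2)
  exact CStarAlgebra.isUnit_of_le 1 h3

end

theorem p_SPU : Stmt_SPU.{u} := by
  intro M _ _ _ e a he hea hae hn
  obtain ⟨w, hw1, hpi, hwa, haw, hl, hr, hb⟩ := SPU_polar a
  set b : M := star w * a with hbdef
  have hws : star w * w * star w = star w := pi_star hpi
  have hew : e * w = w := by
    have := hl (1 - e) (by rw [sub_mul, one_mul, hea, sub_self])
    rw [sub_mul, one_mul, sub_eq_zero] at this
    exact this.symm
  have hwe : w * e = w := by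
    have := hr (1 - e) (by rw [mul_sub, mul_one, hae, sub_self])
    rw [mul_sub, mul_one, sub_eq_zero] at this
    exact this.symm
  have hesw : e * star w = star w := by
    have := congrArg star hwe
    rwa [star_mul, he.star] at this
  have hswe : star w * e = star w := by
    have := congrArg star hew
    rwa [star_mul, he.star] at this
  have heb : e * b = b := by rw [hbdef, ← mul_assoc, hesw]
  have hbe : b * e = b := by rw [hbdef, mul_assoc, hae]
  have hbs : star b = b := by rw [hb]; exact cfc_star_real _ _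
  have hbb : b * b = star a * a := by
    nth_rewrite 1 [← hbs]
    rw [hbdef, star_mul, star_star, mul_assoc, ← mul_assoc w, hwa]
  have hbn : ‖b‖ ≤ 1 := by
    rw [hbdef]
    calc ‖star w * a‖ ≤ ‖star w‖ * ‖a‖ := norm_mul_le _ _
      _ ≤ 1 * 1 := by
        rw [norm_star]
        exact mul_le_mul hw1 hn (norm_nonneg _) zero_le_one
      _ = 1 := one_mul 1
  -- the unitary part
  have hP := pi_src hpi
  have hQ := pi_rng hpi
  have hPe : star w * w * e = star w * w := by rw [mul_assoc, hwe]
  have hQe : w * star w * e = w * star w := by rw [mul_assoc, hswe]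
  have hp : IsProj (e - star w * w) := hP.sub he hPe
  have hq : IsProj (e - w * star w) := hQ.sub he hQe
  obtain ⟨w', hw'1, hw'2⟩ := equiv_of_tau hp hq (by rw [tau_sub, tau_sub, pi_tau])
  have hw'p : w' * (e - star w * w) = w' := pi_mul_src hp hw'1
  have hqw' : (e - w * star w) * w' = w' := pi_mul_rng hp hw'1 hw'2
  have m1 : star w * w' = 0 := by
    rw [← hqw', ← mul_assoc, mul_sub, hswe, ← mul_assoc, hws, sub_self, zero_mul]
  have m2 : star w' * w = 0 := by
    have := congrArg star m1
    rwa [star_mul, star_star, star_zero] at this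
  have m3 : w * star w' = 0 := by
    have : star w' = (e - star w * w) * star w' := by
      have := congrArg star hw'p
      rw [star_mul, hp.star] at this
      exact this.symm
    rw [this, ← mul_assoc, mul_sub, hwe, ← mul_assoc, hpi, sub_self, zero_mul]
  have m4 : w' * star w = 0 := by
    have := congrArg star m3
    rwa [star_mul, star_star, star_zero] at this
  -- the inverse
  have hu := SPU_unit _ hb hbn
  obtain ⟨T, hT⟩ := hu
  have hTr : (b + (1 - b * b)) * ((T⁻¹ : Mˣ) : M) = 1 := by rw [← hT]; exact T.mul_inv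
  have hTl : ((T⁻¹ : Mˣ) : M) * (b + (1 - b * b)) = 1 := by rw [← hT]; exact T.inv_mul
  have c1 : e * (b + (1 - b * b)) = b + (e - b * b) := by
    rw [mul_add, mul_sub, mul_one, heb, ← mul_assoc, heb]
  have c2 : (b + (1 - b * b)) * e = b + (e - b * b) := by
    rw [add_mul, sub_mul, one_mul, hbe, mul_assoc, hbe]
  have c3 : e * ((T⁻¹ : Mˣ) : M) = ((T⁻¹ : Mˣ) : M) * e := by
    calc e * ((T⁻¹ : Mˣ) : M)
        = (((T⁻¹ : Mˣ) : M) * (b + (1 - b * b))) * (e * ((T⁻¹ : Mˣ) : M)) := by rw [hTl, one_mul]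
      _ = ((T⁻¹ : Mˣ) : M) * (((b + (1 - b * b)) * e) * ((T⁻¹ : Mˣ) : M)) := by
        simp only [mul_assoc]
      _ = ((T⁻¹ : Mˣ) : M) * ((e * (b + (1 - b * b))) * ((T⁻¹ : Mˣ) : M)) := by rw [c1, c2]
      _ = ((T⁻¹ : Mˣ) : M) * e := by rw [mul_assoc e, hTr, mul_one]
  refine ⟨w + w', b, e * ((T⁻¹ : Mˣ) : M), ?_, ?_, heb, hbe, ?_, hbb, ?_⟩
  · rw [star_add, add_mul, mul_add, mul_add, m1, m2, hw'1]
    abel
  · rw [star_add, add_mul, mul_add, mul_add, m3, m4, hw'2]
    abel
  · rw [add_mul]
    have h1 : w * b = a := by rw [hbdef, ← mul_assoc, hwa]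
    have h2 : w' * b = 0 := by
      rw [← hw'p, mul_assoc, sub_mul, heb]
      have : star w * w * b = b := by rw [hbdef, ← mul_assoc, hws]
      rw [this, sub_self, mul_zero]
    rw [h1, h2, add_zero]
  · refine ⟨?_, ?_, ?_, ?_, ?_, ?_⟩
    · rw [← c1, ← mul_assoc, he.mul]
    · rw [← c2, mul_assoc, he.mul]
    · rw [← mul_assoc, he.mul]
    · rw [mul_assoc, ← c3, ← mul_assoc, he.mul]
    · calc (b + (e - b * b)) * (e * ((T⁻¹ : Mˣ) : M))
          = ((b + (1 - b * b)) * e) * (e * ((T⁻¹ : Mˣ) : M)) := by rw [c2]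
        _ = ((b + (1 - b * b)) * e) * ((T⁻¹ : Mˣ) : M) := by
          rw [← mul_assoc ((b + (1 - b * b)) * e) e, mul_assoc (b + (1 - b * b)) e e, he.mul]
        _ = (e * (b + (1 - b * b))) * ((T⁻¹ : Mˣ) : M) := by rw [c1, c2]
        _ = e := by rw [mul_assoc, hTr, mul_one]
    · calc e * ((T⁻¹ : Mˣ) : M) * (b + (e - b * b))
          = e * ((T⁻¹ : Mˣ) : M) * ((b + (1 - b * b)) * e) := by rw [c2]
        _ = e * (((T⁻¹ : Mˣ) : M) * (b + (1 - b * b))) * e := by simp only [mul_assoc]
        _ = e := by rw [hTl, mul_one, he.mul]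

end ND

end SCO
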