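import Pool.Agent.Work.MP_52dd0f_nd.InterfaceS

set_option autoImplicit false
set_option linter.unusedSectionVars false

namespace SCO

open Filter Topology

universe u

namespace ND

section

variable {M : Type u} [CStarAlgebra M] [TVN M]

/-- an orthogonal sum of multiples of Haar unitaries of corners is a Haar unitary -/
theorem SUA_sum {J : ℕ} {p w : Fin J → M} {c : Fin J → ℂ} (hp : ∀ j, IsProj (p j))
    (ho : ∀ i j, i ≠ j → p i * p j = 0) (hs : ∑ j, p j = 1) (hc : ∀ j, ‖c j‖ = 1)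
    (hw : ∀ j, IsHaarIn (p j) (w j)) : HaarU (∑ j, c j • w j) := by
  have hl : ∀ j, p j * w j = w j := fun j => (hw j).mul_left (hp j)
  have hr : ∀ j, w j * p j = w j := fun j => (hw j).mul_right (hp j)
  have o1 : ∀ i j, i ≠ j → w i * w j = 0 := fun i j hij => by
    rw [← hr i, ← hl j, mul_assoc, ← mul_assoc (p i), ho i j hij, zero_mul, mul_zero]
  have o2 : ∀ i j, i ≠ j → star (w i) * w j = 0 := fun i j hij => by
    rw [← hl i, ← hl j, star_mul, (hp i).star, mul_assoc, ← mul_assoc (p i), ho i j hij, zero_mul,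
      mul_zero]
  have o3 : ∀ i j, i ≠ j → w i * star (w j) = 0 := fun i j hij => by
    rw [← hr i, ← hr j, star_mul, (hp j).star, mul_assoc, ← mul_assoc (p i), ho i j hij, zero_mul,
      mul_zero]
  have cc : ∀ j, (starRingEnd ℂ) (c j) * c j = 1 := fun j => by
    rw [Complex.conj_mul', hc j]; simp
  refine ⟨?_, ?_, fun m hm => ?_⟩
  · rw [star_sum, Finset.sum_mul]
    rw [← hs]
    refine Finset.sum_congr rfl fun i _ => ?_
    rw [Finset.mul_sum, Finset.sum_eq_single i]
    · rw [star_smul, smul_mul_smul_comm, (hw i).src]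
      have : star (c i) * c i = 1 := cc i
      rw [this, one_smul]
    · intro j _ hj
      rw [star_smul, smul_mul_smul_comm, o2 i j (Ne.symm hj), smul_zero]
    · intro h; exact absurd (Finset.mem_univ i) h
  · rw [star_sum, Finset.sum_mul]
    rw [← hs]
    refine Finset.sum_congr rfl fun i _ => ?_
    rw [Finset.mul_sum, Finset.sum_eq_single i]
    · rw [star_smul, smul_mul_smul_comm, (hw i).rng]
      have : c i * star (c i) = 1 := by rw [mul_comm]; exact cc i
      rw [this, one_smul]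
    · intro j _ hj
      rw [star_smul, smul_mul_smul_comm, o3 i j (Ne.symm hj), smul_zero]
    · intro h; exact absurd (Finset.mem_univ i) h
  · obtain ⟨m, rfl⟩ : ∃ k, m = k + 1 := ⟨m - 1, by omega⟩
    have hpow : ∀ m : ℕ, (∑ j, c j • w j) ^ (m + 1) = ∑ j, c j ^ (m + 1) • w j ^ (m + 1) := by
      intro m
      induction m with
      | zero => simp
      | succ m ih =>
        rw [pow_succ, ih, Finset.sum_mul]
        refine Finset.sum_congr rfl fun i _ => ?_
        rw [Finset.mul_sum, Finset.sum_eq_single i]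
        · rw [smul_mul_smul_comm, ← pow_succ, ← pow_succ]
        · intro j _ hj
          rw [smul_mul_smul_comm, pow_succ (w i), mul_assoc, o1 i j (Ne.symm hj), mul_zero,
            smul_zero]
        · intro h; exact absurd (Finset.mem_univ i) h
    rw [hpow m, map_sum]
    refine Finset.sum_eq_zero fun j _ => ?_
    rw [map_smul, (hw j).tr _ hm, smul_zero]

end

theorem p_SUA (hDEC : Stmt_DEC.{u}) (hCJN : Stmt_CJN.{u}) : Stmt_SUA.{u} := by
  intro M _ _ _ V u₀ hV hV' hu ε hε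
  obtain ⟨J, lam, Ψ, hlam, -, hD⟩ := hDEC (ε / 3) (by positivity)
  obtain ⟨p, hp, -⟩ := hD M V hV hV'
  obtain ⟨h, hh⟩ := exists_halving (noMin_empty (M := M))
  choose w hw using fun j => tree_limit hh (co_empty (p j)) (hp.proj j)
  have hwH : ∀ j, IsHaarIn (p j) (w j) := fun j => (hw j).2.1
  have hW : HaarU (∑ j, (1 : ℂ) • w j) :=
    SUA_sum hp.proj hp.orth hp.sum (fun _ => norm_one) hwH
  have hW' : HaarU (∑ j, lam j • w j) := SUA_sum hp.proj hp.orth hp.sum hlam hwH
  obtain ⟨g, g1, g2, g3⟩ := hCJN M u₀ _ hu hW (ε / 3) (by positivity)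
  obtain ⟨k, k1, k2, k3⟩ := hCJN M u₀ _ hu hW' (ε / 3) (by positivity)
  refine ⟨g, k, g1, g2, k1, k2, ?_⟩
  have e1 : (∑ j, lam j • p j) * (∑ j, (1 : ℂ) • w j) = ∑ j, lam j • w j := by
    rw [Finset.sum_mul]
    refine Finset.sum_congr rfl fun i _ => ?_
    rw [Finset.mul_sum, Finset.sum_eq_single i]
    · rw [smul_mul_smul_comm, mul_one, (hwH i).mul_left (hp.proj i)]
    · intro j _ hj
      rw [smul_mul_smul_comm, ← (hwH j).mul_left (hp.proj j), ← mul_assoc,
        hp.orth i j (Ne.symm hj), zero_mul, smul_zero]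
    · intro h; exact absurd (Finset.mem_univ i) h
  have e2 : V * (g * u₀ * star g) - k * u₀ * star k =
      V * (g * u₀ * star g - ∑ j, (1 : ℂ) • w j) +
      (V - ∑ j, lam j • p j) * (∑ j, (1 : ℂ) • w j) -
      (k * u₀ * star k - ∑ j, lam j • w j) := by
    rw [sub_mul, e1, mul_sub]; abel
  have nV : ‖V‖ ≤ 1 := norm_le_one_of_star_mul hV
  have nW : ‖∑ j, (1 : ℂ) • w j‖ ≤ 1 := norm_le_one_of_star_mul hW.isom
  have a1 : ‖V * (g * u₀ * star g - ∑ j, (1 : ℂ) • w j)‖ ≤ ε / 3 := by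
    refine (norm_mul_le _ _).trans ?_
    calc ‖V‖ * ‖g * u₀ * star g - ∑ j, (1 : ℂ) • w j‖ ≤ 1 * (ε / 3) :=
        mul_le_mul nV g3 (norm_nonneg _) zero_le_one
      _ = ε / 3 := one_mul _
  have a2 : ‖(V - ∑ j, lam j • p j) * (∑ j, (1 : ℂ) • w j)‖ ≤ ε / 3 := by
    refine (norm_mul_le _ _).trans ?_
    calc ‖V - ∑ j, lam j • p j‖ * ‖∑ j, (1 : ℂ) • w j‖ ≤ (ε / 3) * 1 :=
        mul_le_mul hp.near nW (norm_nonneg _) (by positivity)
      _ = ε / 3 := mul_one _
  rw [e2]
  refine (norm_sub_le _ _).trans ?_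
  have a3 := norm_add_le (V * (g * u₀ * star g - ∑ j, (1 : ℂ) • w j))
    ((V - ∑ j, lam j • p j) * (∑ j, (1 : ℂ) • w j))
  linarith

end ND

end SCO
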