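import Pool.Agent.Work.MP_52dd0f_nd.InterfaceS

/-!
# THEOREM SIM, MP_52dd0f_an: block SUB, every unitary of the ultrapower is a quotient of two Haar
unitaries
-/

set_option autoImplicit false
set_option linter.unusedSectionVars false

namespace SCO

open Filter Topology

universe u

namespace ND

/-- the five functions of the saturation argument -/
noncomputable def SUB_F {M : Type u} [CStarAlgebra M] (V U : Sq M) (j : Fin 5)
    (x : Fin 2 → Sq M) : Sq M :=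
  match j with
  | 0 => star (x 0) * x 0 - 1
  | 1 => x 0 * star (x 0) - 1
  | 2 => star (x 1) * x 1 - 1
  | 3 => x 1 * star (x 1) - 1
  | 4 => V * (x 0 * U * star (x 0)) - x 1 * U * star (x 1)

theorem SUB_loc {M : Type u} [CStarAlgebra M] (V U : Sq M) (j : Fin 5) : Loc (SUB_F V U j) := by
  intro x y k h
  have h0 := h 0
  have h1 := h 1
  match j with
  | 0 =>
    show (star (x 0) * x 0 - 1 : Sq M).ev k = (star (y 0) * y 0 - 1 : Sq M).ev k
    simp only [Sq.ev_sub, Sq.ev_mul, Sq.ev_star, Sq.ev_one, h0]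
  | 1 =>
    show (x 0 * star (x 0) - 1 : Sq M).ev k = (y 0 * star (y 0) - 1 : Sq M).ev k
    simp only [Sq.ev_sub, Sq.ev_mul, Sq.ev_star, Sq.ev_one, h0]
  | 2 =>
    show (star (x 1) * x 1 - 1 : Sq M).ev k = (star (y 1) * y 1 - 1 : Sq M).ev k
    simp only [Sq.ev_sub, Sq.ev_mul, Sq.ev_star, Sq.ev_one, h1]
  | 3 =>
    show (x 1 * star (x 1) - 1 : Sq M).ev k = (y 1 * star (y 1) - 1 : Sq M).ev k
    simp only [Sq.ev_sub, Sq.ev_mul, Sq.ev_star, Sq.ev_one, h1]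
  | 4 =>
    show (V * (x 0 * U * star (x 0)) - x 1 * U * star (x 1) : Sq M).ev k =
      (V * (y 0 * U * star (y 0)) - y 1 * U * star (y 1) : Sq M).ev k
    simp only [Sq.ev_sub, Sq.ev_mul, Sq.ev_star, h0, h1]

theorem p_SUB (hFAC : Stmt_FAC.{u}) (hSAT : Stmt_SAT.{u}) (hSUA : Stmt_SUA.{u}) :
    Stmt_SUB.{u} := by
  intro M _ _ _ 𝒰 hU v hv1 hv2
  haveI : FactorII (UP M 𝒰) := hFAC M 𝒰
  obtain ⟨u₀, hu₀⟩ := exists_haarU (M := UP M 𝒰)
  obtain ⟨V, -, hV1⟩ := exists_lift_UP 𝒰 v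
  obtain ⟨U, -, hU1⟩ := exists_lift_UP 𝒰 u₀
  obtain ⟨x, -, hx⟩ := hSAT M 𝒰 (Fin 2) (Fin 5) (SUB_F V U) (SUB_loc V U) (by
    intro ε hε
    obtain ⟨g, h, hg1, hg2, hh1, hh2, hgh⟩ := hSUA (UP M 𝒰) v u₀ hv1 hv2 hu₀ ε hε
    obtain ⟨x, hx1, hx2⟩ := exists_lift_UP 𝒰 g
    obtain ⟨y, hy1, hy2⟩ := exists_lift_UP 𝒰 h
    refine ⟨![x, y], fun i => ?_, fun j => ?_⟩
    · match i with
      | 0 => exact hx1.trans (norm_le_one_of_star_mul hg1)
      | 1 => exact hy1.trans (norm_le_one_of_star_mul hh1)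
    · match j with
      | 0 =>
        show n2 (toUP 𝒰 (star x * x - 1)) ≤ ε
        rw [map_sub, map_mul, map_star, map_one, hx2, hg1, sub_self, n2_zero]
        exact hε.le
      | 1 =>
        show n2 (toUP 𝒰 (x * star x - 1)) ≤ ε
        rw [map_sub, map_mul, map_star, map_one, hx2, hg2, sub_self, n2_zero]
        exact hε.le
      | 2 =>
        show n2 (toUP 𝒰 (star y * y - 1)) ≤ ε
        rw [map_sub, map_mul, map_star, map_one, hy2, hh1, sub_self, n2_zero]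
        exact hε.le
      | 3 =>
        show n2 (toUP 𝒰 (y * star y - 1)) ≤ ε
        rw [map_sub, map_mul, map_star, map_one, hy2, hh2, sub_self, n2_zero]
        exact hε.le
      | 4 =>
        show n2 (toUP 𝒰 (V * (x * U * star x) - y * U * star y)) ≤ ε
        rw [map_sub, map_mul, map_mul, map_mul, map_mul, map_mul, map_star, map_star, hx2, hy2,
          hU1, hV1]
        exact (n2_le_norm _).trans hgh)
  have e0 : star (toUP 𝒰 (x 0)) * toUP 𝒰 (x 0) = 1 := by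
    have h' : toUP 𝒰 (star (x 0) * x 0 - 1) = 0 := hx 0
    rw [map_sub, map_mul, map_star, map_one] at h'
    exact sub_eq_zero.1 h'
  have e1 : toUP 𝒰 (x 0) * star (toUP 𝒰 (x 0)) = 1 := by
    have h' : toUP 𝒰 (x 0 * star (x 0) - 1) = 0 := hx 1
    rw [map_sub, map_mul, map_star, map_one] at h'
    exact sub_eq_zero.1 h'
  have e2 : star (toUP 𝒰 (x 1)) * toUP 𝒰 (x 1) = 1 := by
    have h' : toUP 𝒰 (star (x 1) * x 1 - 1) = 0 := hx 2
    rw [map_sub, map_mul, map_star, map_one] at h'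
    exact sub_eq_zero.1 h'
  have e3 : toUP 𝒰 (x 1) * star (toUP 𝒰 (x 1)) = 1 := by
    have h' : toUP 𝒰 (x 1 * star (x 1) - 1) = 0 := hx 3
    rw [map_sub, map_mul, map_star, map_one] at h'
    exact sub_eq_zero.1 h'
  have e4 : v * (toUP 𝒰 (x 0) * u₀ * star (toUP 𝒰 (x 0))) =
      toUP 𝒰 (x 1) * u₀ * star (toUP 𝒰 (x 1)) := by
    have h' : toUP 𝒰 (V * (x 0 * U * star (x 0)) - x 1 * U * star (x 1)) = 0 := hx 4
    rw [map_sub, map_mul, map_mul, map_mul, map_mul, map_mul, map_star, map_star, hU1, hV1] at h'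
    exact sub_eq_zero.1 h'
  refine ⟨toUP 𝒰 (x 0) * u₀ * star (toUP 𝒰 (x 0)), hu₀.conj e0 e1, ?_⟩
  rw [e4]
  exact hu₀.conj e2 e3

end ND

end SCO
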