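import Pool.Agent.Work.MP_52dd0f_nd.InterfaceS

set_option autoImplicit false

/-! # THEOREM SIM, block SWH: Whitehead -/

namespace SCO

open Filter Topology

universe u

namespace ND

section

variable {P : Type u} [CStarAlgebra P]

theorem SWH_tri (e f a b q r : P) (h1 : e + f = 1) (hab : a * b = e) (hba : b * a = f)
    (haq : a * q = 0) (hfq : f * q = 0) (hqe : q * e = q) (hqr : q * r = e) (hrq : r * q = e)
    (hbe : b * e = b) :
    (1 + q * a) * (1 + b * (-r)) * (1 + q * a) = q * a - b * r := by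
  have e1 : (1 + q * a) * (1 + b * (-r)) = f + q * a - b * r := by
    have e2 : (1 + q * a) * (1 + b * (-r)) = 1 + q * a - b * r - q * (a * b) * r := by
      noncomm_ring
    rw [e2, hab, hqe, hqr, ← h1]
    abel
  rw [e1]
  have e3 : (f + q * a - b * r) * (1 + q * a) =
      f + q * a - b * r + (f * q) * a + q * (a * q) * a - b * (r * q) * a := by
    noncomm_ring
  rw [e3, hfq, haq, hrq, hbe, hba]
  simp only [zero_mul, mul_zero, add_zero]
  abel

end

theorem p_SWH : Stmt_SWH.{u} := by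
  intro P _ c hc q r hq
  have m : ∀ i j l m, c i j * c l m = if j = l then c i m else 0 := hc.mul
  have h1 : c 0 0 + c 1 1 = 1 := by
    have := hc.sum
    rwa [Fin.sum_univ_two] at this
  have hab : c 0 1 * c 1 0 = c 0 0 := by rw [m]; simp
  have hba : c 1 0 * c 0 1 = c 1 1 := by rw [m]; simp
  have haa : c 0 1 * c 0 1 = 0 := by rw [m]; simp
  have hbb : c 1 0 * c 1 0 = 0 := by rw [m]; simp
  have hbe : c 1 0 * c 0 0 = c 1 0 := by rw [m]; simp
  have hae : c 0 1 * c 0 0 = 0 := by rw [m]; simp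
  have hfe : c 1 1 * c 0 0 = 0 := by rw [m]; simp
  have hee : c 0 0 * c 0 0 = c 0 0 := by rw [m]; simp
  have hea : c 0 0 * c 0 1 = c 0 1 := by rw [m]; simp
  have heb : c 0 0 * c 1 0 = 0 := by rw [m]; simp
  have gen1 : ∀ x, c 0 0 * x = x → x * c 0 0 = x → 1 + x * c 0 1 ∈ EE c := fun x hx hx' =>
    Submonoid.subset_closure ⟨x, hx, hx', Or.inl rfl⟩
  have gen2 : ∀ x, c 0 0 * x = x → x * c 0 0 = x → 1 + c 1 0 * x ∈ EE c := fun x hx hx' =>
    Submonoid.subset_closure ⟨x, hx, hx', Or.inr rfl⟩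
  have tri : ∀ q r, IvC (c 0 0) q r → q * c 0 1 - c 1 0 * r ∈ EE c := by
    intro q r hq
    have haq : c 0 1 * q = 0 := by rw [← hq.ql, ← mul_assoc, hae, zero_mul]
    have hfq : c 1 1 * q = 0 := by rw [← hq.ql, ← mul_assoc, hfe, zero_mul]
    rw [← SWH_tri (c 0 0) (c 1 1) (c 0 1) (c 1 0) q r h1 hab hba haq hfq hq.qr hq.m1 hq.m2 hbe]
    refine (EE c).mul_mem ((EE c).mul_mem (gen1 q hq.ql hq.qr) (gen2 (-r) ?_ ?_))
      (gen1 q hq.ql hq.qr)
    · rw [mul_neg, hq.rl]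
    · rw [neg_mul, hq.rr]
  have t1 := tri q r hq
  have t2 := tri (-c 0 0) (-c 0 0)
    ⟨by rw [mul_neg, hee], by rw [neg_mul, hee], by rw [mul_neg, hee], by rw [neg_mul, hee],
      by rw [neg_mul_neg, hee], by rw [neg_mul_neg, hee]⟩
  have t3 := (EE c).mul_mem t1 t2
  have hrb : r * c 1 0 = 0 := by rw [← hq.rr, mul_assoc, heb, mul_zero]
  have e1 : (q * c 0 1 - c 1 0 * r) * (-c 0 0 * c 0 1 - c 1 0 * -c 0 0) =
      q + c 1 0 * r * c 0 1 := by
    rw [neg_mul, hea, mul_neg, hbe]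
    have e2 : (q * c 0 1 - c 1 0 * r) * (-c 0 1 - -c 1 0) =
        q * (c 0 1 * c 1 0) - q * (c 0 1 * c 0 1) - c 1 0 * (r * c 1 0) + c 1 0 * r * c 0 1 := by
      noncomm_ring
    rw [e2, hab, haa, hrb, hq.qr, mul_zero, mul_zero, sub_zero, sub_zero]
  rw [e1] at t3
  exact t3

end ND

end SCO
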