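import Pool.Agent.Work.MP_52dd0f_nd.Interface

/-!
# Block TRS (MP_52dd0f_an, THEOREM ND): transfer to the corner (helper88)
-/

set_option autoImplicit false
set_option linter.unusedSectionVars false

namespace SCO

open Filter Topology

universe u

namespace ND

section

variable {K M : Type u} [CStarAlgebra K] [TVN K] [CStarAlgebra M] [TVN M] {φ : K →⋆ₙₐ[ℂ] M} {e : M}

theorem TRS_pow (φ : K →⋆ₙₐ[ℂ] M) (x : K) : ∀ m : ℕ, 1 ≤ m → φ (x ^ m) = φ x ^ m := by
  intro m hm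
  induction m, hm using Nat.le_induction with
  | base => rw [pow_one, pow_one]
  | succ m _ ih => rw [pow_succ, pow_succ, map_mul, ih]

theorem TRS_haar (hφ : CornerMap φ e) {p x : K} :
    IsHaarIn p x ↔ IsHaarIn (φ p) (φ x) := by
  constructor
  · intro h
    refine ⟨?_, ?_, ?_⟩
    · rw [← map_star, ← map_mul, h.src]
    · rw [← map_star, ← map_mul, h.rng]
    · intro m hm
      rw [← TRS_pow φ x m hm, hφ.tr, h.tr m hm, mul_zero]
  · intro h
    refine ⟨?_, ?_, ?_⟩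
    · apply hφ.inj
      rw [map_mul, map_star, h.src]
    · apply hφ.inj
      rw [map_mul, map_star, h.rng]
    · intro m hm
      have h1 := h.tr m hm
      rw [← TRS_pow φ x m hm, hφ.tr] at h1
      rcases mul_eq_zero.1 h1 with h2 | h2
      · exact absurd (Complex.ofReal_eq_zero.1 h2) hφ.tau_pos.ne'
      · exact h2

theorem TRS_surj (hφ : CornerMap φ e) {p : K} {y : M} (h1 : φ p * y = y)
    (h2 : y * φ p = y) : ∃ x, φ x = y ∧ p * x = x ∧ x * p = x := by
  have h3 : e * y = y := by rw [← h1, ← mul_assoc, hφ.left]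
  have h4 : y * e = y := by rw [← h2, mul_assoc, hφ.right]
  obtain ⟨x, hx⟩ := hφ.surj y (by rw [h3, h4])
  refine ⟨x, hx, ?_, ?_⟩
  · apply hφ.inj
    rw [map_mul, hx, h1]
  · apply hφ.inj
    rw [map_mul, hx, h2]

theorem TRS_chain (hφ : CornerMap φ e) {p u : K} (hp : IsProj p) (hu : IsHaarIn p u) {Y : M}
    (h : Jn (φ p) (φ u) Y) : ∃ y, φ y = Y ∧ Jn p u y ∧ IsHaarIn p y := by
  induction h with
  | refl => exact ⟨u, rfl, Relation.ReflTransGen.refl, hu⟩
  | @tail Y₁ Y₂ _ hs ih =>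
    obtain ⟨y₁, rfl, hj, hy₁⟩ := ih
    obtain ⟨-, h2, h3⟩ := hs
    have hP : IsProj (φ p) := hφ.isProj hp
    obtain ⟨y₂, rfl, -, -⟩ := TRS_surj hφ (h2.mul_left hP) (h2.mul_right hP)
    have hy₂ : IsHaarIn p y₂ := (TRS_haar hφ).2 h2
    refine ⟨y₂, rfl, hj.tail ⟨hy₁, hy₂, ?_⟩, hy₂⟩
    apply hφ.inj
    rw [map_mul, map_mul, h3]

theorem TRS_gp (hφ : CornerMap φ e) {p u : K} (hp : IsProj p) (hu : IsHaarIn p u) {g : M}
    (h : Gp (φ p) (φ u) g) : ∃ g', φ g' = g ∧ Gp p u g' := by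
  have hP : IsProj (φ p) := hφ.isProj hp
  obtain ⟨g', rfl, -, -⟩ := TRS_surj hφ (pi_mul_rng hP h.src h.rng) (pi_mul_src hP h.src)
  refine ⟨g', rfl, ?_, ?_, ?_⟩
  · apply hφ.inj
    rw [map_mul, map_star, h.src]
  · apply hφ.inj
    rw [map_mul, map_star, h.rng]
  · have h1 := h.jn
    rw [← map_star, ← map_mul, ← map_mul] at h1
    obtain ⟨y, hy, hj, -⟩ := TRS_chain hφ hp hu h1
    rw [hφ.inj hy] at hj
    exact hj

end

theorem p_TRS : Stmt_TRS.{u} := by
  intro K M _ _ _ _ φ e hφ p u hp hu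
  refine ⟨(TRS_haar hφ).1 hu, fun H x hx1 hx2 => ?_⟩
  have h1 := H (φ x) (by rw [← map_mul, hx1]) (by rw [← map_mul, hx2])
  have h2 : ∀ y ∈ Submodule.span ℂ {g : M | Gp (φ p) (φ u) g},
      ∃ x' ∈ Submodule.span ℂ {g : K | Gp p u g}, φ x' = y := by
    intro y hy
    induction hy using Submodule.span_induction with
    | mem g hg =>
      obtain ⟨g', h3, h4⟩ := TRS_gp hφ hp hu hg
      exact ⟨g', Submodule.subset_span h4, h3⟩
    | zero => exact ⟨0, Submodule.zero_mem _, map_zero φ⟩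
    | add a b _ _ iha ihb =>
      obtain ⟨a', ha', rfl⟩ := iha
      obtain ⟨b', hb', rfl⟩ := ihb
      exact ⟨a' + b', Submodule.add_mem _ ha' hb', map_add φ _ _⟩
    | smul c a _ iha =>
      obtain ⟨a', ha', rfl⟩ := iha
      exact ⟨c • a', Submodule.smul_mem _ c ha', map_smul φ _ _⟩
  obtain ⟨x', hx', h3⟩ := h2 _ h1
  rw [← hφ.inj h3]
  exact hx'

end ND

end SCO
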