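import Pool.Agent.Work.MP_52dd0f_nd.B_LAU
import Pool.Agent.Work.MP_52dd0f_nd.B_MOM
import Pool.Agent.Work.MP_52dd0f_nd.B_SUP
import Pool.Agent.Work.MP_52dd0f_nd.B_NMX
import Pool.Agent.Work.MP_52dd0f_nd.B_DEC
import Pool.Agent.Work.MP_52dd0f_nd.B_HDC
import Pool.Agent.Work.MP_52dd0f_nd.B_CJN
import Pool.Agent.Work.MP_52dd0f_nd.B_AVU
import Pool.Agent.Work.MP_52dd0f_nd.B_FAC
import Pool.Agent.Work.MP_52dd0f_nd.B_SAT
import Pool.Agent.Work.MP_52dd0f_nd.B_SAA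
import Pool.Agent.Work.MP_52dd0f_nd.B_UNE
import Pool.Agent.Work.MP_52dd0f_nd.B_UNX
import Pool.Agent.Work.MP_52dd0f_nd.B_SAB
import Pool.Agent.Work.MP_52dd0f_nd.B_EQA
import Pool.Agent.Work.MP_52dd0f_nd.B_SAC
import Pool.Agent.Work.MP_52dd0f_nd.B_UNA
import Pool.Agent.Work.MP_52dd0f_nd.B_ULF
import Pool.Agent.Work.MP_52dd0f_nd.B_UNF
import Pool.Agent.Work.MP_52dd0f_nd.B_ONE
import Pool.Agent.Work.MP_52dd0f_nd.B_JNS
import Pool.Agent.Work.MP_52dd0f_nd.B_JDS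
import Pool.Agent.Work.MP_52dd0f_nd.B_CUS
import Pool.Agent.Work.MP_52dd0f_nd.B_AMP
import Pool.Agent.Work.MP_52dd0f_nd.B_CNC
import Pool.Agent.Work.MP_52dd0f_nd.B_FRM
import Pool.Agent.Work.MP_52dd0f_nd.B_SPN
import Pool.Agent.Work.MP_52dd0f_nd.B_UPC
import Pool.Agent.Work.MP_52dd0f_nd.B_TRS
import Pool.Agent.Work.MP_52dd0f_nd.B_HSP
import Pool.Agent.Work.MP_52dd0f_nd.B_COR
import Pool.Agent.Work.MP_52dd0f_nd.B_SJB
import Pool.Agent.Work.MP_52dd0f_nd.B_SEL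
import Pool.Agent.Work.MP_52dd0f_nd.B_SEI
import Pool.Agent.Work.MP_52dd0f_nd.B_SWH
import Pool.Agent.Work.MP_52dd0f_nd.B_SNE
import Pool.Agent.Work.MP_52dd0f_nd.B_SPU
import Pool.Agent.Work.MP_52dd0f_nd.B_SDC
import Pool.Agent.Work.MP_52dd0f_nd.B_SHE
import Pool.Agent.Work.MP_52dd0f_nd.B_SUA
import Pool.Agent.Work.MP_52dd0f_nd.B_SUB
import Pool.Agent.Work.MP_52dd0f_nd.B_SFI
import Pool.Agent.Work.MP_52dd0f_nd.B_SLF
import Pool.Agent.Work.MP_52dd0f_nd.SkelS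

/-!
# THEOREM SIM, MP_52dd0f_an: the closed theorem
-/

set_option autoImplicit false
set_option linter.unusedSectionVars false

namespace SCO

open Filter Topology

universe u

namespace ND

theorem s_DEC : Stmt_DEC.{u} := p_DEC p_SUP p_NMX
theorem s_MOM : Stmt_MOM.{u} := p_MOM p_LAU
theorem s_CJN : Stmt_CJN.{u} := p_CJN (p_HDC s_MOM s_DEC)
theorem s_FAC : Stmt_FAC.{u} := p_FAC p_AVU
theorem s_UNX : Stmt_UNX.{u} := p_UNX p_UNE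
theorem s_SAA : Stmt_SAA.{u} := p_SAA s_CJN s_FAC p_SAT
theorem s_SAB : Stmt_SAB.{u} := p_SAB s_DEC s_FAC p_SAT s_UNX
theorem s_SAC : Stmt_SAC.{u} := p_SAC (p_EQA s_DEC) s_FAC p_SAT
theorem s_ONE : Stmt_ONE.{u} := p_ONE s_SAA (p_ULF p_UNA) p_UNF
theorem s_SPN : Stmt_SPN.{u} := p_SPN p_JNS p_CUS p_AMP (p_CNC p_AMP) (p_FRM p_JNS p_CUS p_AMP)
theorem s_HSP : Stmt_HSP.{u} := p_HSP s_FAC s_SAA s_SAB s_SAC p_UNE s_ONE p_AMP s_SPN p_UPC p_TRS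
theorem s_SEL : Stmt_SEL.{u} := p_SEL p_SJB p_JDS p_AMP
theorem s_SHE : Stmt_SHE.{u} := p_SHE p_SEI p_SWH p_SNE (p_SDC p_SPU p_SWH)
theorem s_SUB : Stmt_SUB.{u} := p_SUB s_FAC p_SAT (p_SUA s_DEC s_CJN)
theorem s_SFI : Stmt_SFI.{u} := p_SFI s_FAC s_SAA s_SAB s_SAC s_UNX p_AMP s_HSP p_SJB s_SEL s_SHE s_SUB

/-- **THEOREM SIM.** If the amplification `N^s` has one sequential commutation orbit, then in every amplification `N^t` any two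
Haar unitaries of the ultrapower are joined by a finite chain of commuting elements, each similar to a Haar unitary. -/
theorem main_sim {N M M' : Type u} [CStarAlgebra N]
    [CStarAlgebra M] [CStarAlgebra M'] {τ : N →ₗ[ℂ] ℂ} {σ : M →ₗ[ℂ] ℂ} {σ' : M' →ₗ[ℂ] ℂ} {𝒰 : Ultrafilter ℕ}
    (h𝒰 : ∀ k : ℕ, 𝒰 ≠ pure k) (hN : IsII₁Factor N τ) (hM : IsII₁Factor M σ) (hM' : IsII₁Factor M' σ')
    {t s : ℝ} (h : IsAmplification N τ M t) (h' : IsAmplification N τ M' s) (hone : numOrbits 𝒰 σ' = 1)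
    {u v : ℕ → M} (hu : IsHaarU 𝒰 σ u) (hv : IsHaarU 𝒰 σ v) :
    Relation.ReflTransGen (StepS 𝒰 σ) u v :=
  sim_of s_SFI p_SLF p_COR h𝒰 hN hM hM' h h' hone hu hv

end ND

end SCO
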