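import Pool.Agent.Work.MP_52dd0f_nd.Interface

/-! # THEOREM ND, block CYC: matrix units adapted to a projection -/

set_option autoImplicit false
set_option linter.unusedSectionVars false

namespace SCO

open Filter Topology

universe u

namespace ND

section

variable {M : Type u} [CStarAlgebra M] [TVN M] [FactorII M]

theorem CYC_mu {n : ℕ} {c : ℝ} {e : M} {r : Fin (n + 1) → M} (hr : ∀ i, IsProj (r i))
    (ht : ∀ i, tau (r i) = c) (ho : ∀ i j, i ≠ j → r i * r j = 0) (hs : ∑ i, r i = e) :
    ∃ a : Fin (n + 1) → Fin (n + 1) → M, MU e a ∧ ∀ i, a i i = r i := by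
  have hw : ∀ i, ∃ w : M, star w * w = r 0 ∧ w * star w = r i := fun i =>
    equiv_of_tau (hr 0) (hr i) (by rw [ht, ht])
  choose w h1 h2 using hw
  have h3 : ∀ i, w i * star (w i) * w i = w i := fun i => pi_of_src (by rw [h1]; exact hr 0)
  have h4 : ∀ i, r i * w i = w i := fun i => by rw [← h2, h3]
  have h5 : ∀ i, w i * r 0 = w i := fun i => by rw [← h1 i, ← mul_assoc, h3]
  have h6 : ∀ j l, j ≠ l → star (w j) * w l = 0 := by
    intro j l hjl
    calc star (w j) * w l = star (r j * w j) * (r l * w l) := by rw [h4, h4]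
      _ = star (w j) * (r j * r l) * w l := by rw [star_mul, (hr j).star]; noncomm_ring
      _ = 0 := by rw [ho j l hjl, mul_zero, zero_mul]
  refine ⟨fun i j => w i * star (w j), ⟨?_, ?_, ?_⟩, fun i => h2 i⟩
  · intro i j l m
    show w i * star (w j) * (w l * star (w m)) = if j = l then w i * star (w m) else 0
    split_ifs with h
    · subst h
      calc w i * star (w j) * (w j * star (w m)) = w i * (star (w j) * w j) * star (w m) := by
            noncomm_ring
        _ = _ := by rw [h1, h5]
    · calc w i * star (w j) * (w l * star (w m)) = w i * (star (w j) * w l) * star (w m) := by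
            noncomm_ring
        _ = _ := by rw [h6 j l h, mul_zero, zero_mul]
  · intro i j
    show star (w i * star (w j)) = w j * star (w i)
    rw [star_mul, star_star]
  · show ∑ i, w i * star (w i) = e
    simp only [h2]
    exact hs

theorem CYC_idx {ι : Type} [Fintype ι] {n : ℕ} (hι : Fintype.card ι = n + 1) {c : ℝ} {e p p' : M}
    {g : ι → M} (hr : ∀ i, IsProj (g i)) (ht : ∀ i, tau (g i) = c)
    (ho : ∀ i j, i ≠ j → g i * g j = 0) (hs : ∑ i, g i = e)
    (S : Finset ι) (l : ι) (hp' : IsProj p') (hl : p' * g l = p') (hp : p = ∑ i ∈ S, g i + p') :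
    ∃ (a : Fin (n + 1) → Fin (n + 1) → M) (T : Finset (Fin (n + 1))) (l : Fin (n + 1)) (p' : M),
      MU e a ∧ IsProj p' ∧ p' * a l l = p' ∧ p = ∑ i ∈ T, a i i + p' := by
  have E : ι ≃ Fin (n + 1) := Fintype.equivFinOfCardEq hι
  obtain ⟨a, ha, ha2⟩ := CYC_mu (n := n) (c := c) (e := e) (r := fun i => g (E.symm i))
    (fun i => hr _) (fun i => ht _)
    (fun i j h => ho _ _ (fun h2 => h (E.symm.injective h2)))
    (by rw [← hs]; exact Equiv.sum_comp E.symm g)
  refine ⟨a, S.map E.toEmbedding, E l, p', ha, hp', ?_, ?_⟩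
  · rw [ha2]
    simpa using hl
  · rw [hp, Finset.sum_map]
    simp [ha2]

theorem CYC_sum {k : ℕ} {q : M} {f : Fin k → M} (hf : ∀ i, IsProj (f i))
    (ho : ∀ i j, i ≠ j → f i * f j = 0) (hs : ∑ i, f i = q) (i : Fin k) :
    q * f i = f i ∧ f i * q = f i := by
  constructor
  · rw [← hs, Finset.sum_mul, Finset.sum_eq_single i]
    · exact (hf i).mul
    · intro j _ hj
      exact ho j i hj
    · simp
  · rw [← hs, Finset.mul_sum, Finset.sum_eq_single i]
    · exact (hf i).mul
    · intro j _ hj
      exact ho i j hj.symm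
    · simp

end

theorem p_CYC : Stmt_CYC.{u} := by
  intro M _ _ _ e p he hp hpe n
  have hN := noMin_empty (M := M)
  have hn : (0:ℝ) < (n:ℝ) + 1 := by positivity
  obtain ⟨c, hc⟩ : ∃ c : ℝ, c = tau e / ((n:ℝ) + 1) := ⟨_, rfl⟩
  have hec : tau e = ((n:ℝ) + 1) * c := by
    rw [hc]
    field_simp
  have hc0 : 0 ≤ c := by
    rw [hc]
    exact div_nonneg he.tau_nonneg hn.le
  have hpt := tau_le_of_le hp he hpe
  rcases hc0.eq_or_lt with h0 | h0
  · have he0 : e = 0 := he.eq_zero (by rw [hec, ← h0, mul_zero])
    have hp0 : p = 0 := by rw [← hpe, he0, mul_zero]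
    refine ⟨fun _ _ => 0, ∅, 0, 0, ⟨?_, ?_, ?_⟩, IsProj.zero, by simp, by simp [hp0]⟩
    · intro i j l m
      simp
    · intro i j
      simp
    · simp [he0]
  · obtain ⟨k, hk⟩ : ∃ k : ℕ, k = ⌊tau p / c⌋₊ := ⟨_, rfl⟩
    have hk1 : (k:ℝ) * c ≤ tau p := by
      have := Nat.floor_le (div_nonneg hp.tau_nonneg h0.le)
      rw [← hk] at this
      rwa [le_div_iff₀ h0] at this
    have hk2 : tau p < ((k:ℝ) + 1) * c := by
      have := Nat.lt_floor_add_one (tau p / c)
      rw [← hk] at this
      rwa [div_lt_iff₀ h0] at this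
    have hk3 : k ≤ n + 1 := by
      have h1 : (k:ℝ) * c ≤ ((n:ℝ) + 1) * c := by linarith
      have h2 := le_of_mul_le_mul_right h1 h0
      exact_mod_cast h2
    rcases hk3.eq_or_lt with hkn | hkn
    · have hpe' : p = e := by
        apply eq_of_le_of_tau hp he hpe (le_antisymm hpt _)
        rw [hec]
        have h1 : (k:ℝ) = n + 1 := by
          rw [hkn]
          push_cast
          ring
        rw [← h1]
        exact hk1
      obtain ⟨f, -, h1, h2, h3, h4⟩ := exists_partition hN c hc0 (n+1) e (co_empty e) he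
        (by rw [hec]; push_cast; ring)
      exact CYC_idx (by simp) h1 h2 h3 h4 Finset.univ 0 IsProj.zero (by simp)
        (by rw [h4, hpe', add_zero])
    · have hkn' : k ≤ n := by omega
      have hknR : (k:ℝ) ≤ n := by exact_mod_cast hkn'
      obtain ⟨q, -, hq, hqp, hqt⟩ := exists_tau_eq hN (co_empty p) hp (s := k * c)
        (by positivity) hk1
      obtain ⟨f, -, f1, f2, f3, f4⟩ := exists_partition hN c hc0 k q (co_empty q) hq hqt
      have hep : IsProj (e - p) := hp.sub he hpe
      have htp : tau (e - p) = ((n:ℝ)+1) * c - tau p := by rw [tau_sub, hec]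
      obtain ⟨p2, -, hp2, hp2e, hp2t⟩ := exists_tau_eq hN (co_empty (e - p)) hep
        (s := c - (tau p - k * c)) (by linarith) (by rw [htp]; nlinarith)
      have hs : IsProj (e - p - p2) := hp2.sub hep hp2e
      have hst : tau (e - p - p2) = ((n - k : ℕ) : ℝ) * c := by
        rw [tau_sub, htp, hp2t, Nat.cast_sub hkn']
        ring
      obtain ⟨g, -, g1, g2, g3, g4⟩ := exists_partition hN c hc0 (n - k) (e - p - p2)
        (co_empty _) hs hst
      have hp' : IsProj (p - q) := hq.sub hp hqp
      have e1 : (e - p) * p2 = p2 := hp2.mul_swap hep hp2e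
      have e2 : p * p2 = 0 := by
        rw [← e1, ← mul_assoc, mul_sub, hpe, hp.mul, sub_self, zero_mul]
      have e3 : q * p2 = 0 := by rw [← hqp, mul_assoc, e2, mul_zero]
      have e4 : p * q = q := hq.mul_swap hp hqp
      have e5 : q * e = q := by rw [← hqp, mul_assoc, hpe]
      have e6 : (p - q) * p2 = 0 := by rw [sub_mul, e2, e3, sub_self]
      have hm : IsProj (p - q + p2) := hp'.add hp2 e6
      have hmt : tau (p - q + p2) = c := by
        rw [tau_add, tau_sub, hp2t, hqt]
        ring
      have o1 : q * (p - q + p2) = 0 := by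
        rw [mul_add, mul_sub, hqp, hq.mul, e3, sub_self, add_zero]
      have o2 : q * (e - p - p2) = 0 := by
        rw [mul_sub, mul_sub, e5, hqp, e3, sub_self, sub_zero]
      have o3 : p * (e - p - p2) = 0 := by
        rw [mul_sub, mul_sub, hpe, hp.mul, e2, sub_self, sub_zero]
      have o4 : p2 * (e - p - p2) = 0 := by rw [mul_sub, hp2e, hp2.mul, sub_self]
      have o5 : (p - q + p2) * (e - p - p2) = 0 := by
        rw [add_mul, sub_mul, o3, o2, o4, sub_self, add_zero]
      have fq := CYC_sum f1 f3 f4
      have gs := CYC_sum g1 g3 g4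
      have a1 : ∀ i, f i * (p - q + p2) = 0 := fun i => by
        rw [← (fq i).2, mul_assoc, o1, mul_zero]
      have a2 : ∀ i j, f i * g j = 0 := fun i j => by
        calc f i * g j = (f i * q) * ((e - p - p2) * g j) := by rw [(fq i).2, (gs j).1]
          _ = f i * (q * (e - p - p2)) * g j := by noncomm_ring
          _ = 0 := by rw [o2, mul_zero, zero_mul]
      have a3 : ∀ j, (p - q + p2) * g j = 0 := fun j => by
        rw [← (gs j).1, ← mul_assoc, o5, zero_mul]
      refine CYC_idx (ι := Fin k ⊕ (Unit ⊕ Fin (n - k))) (c := c)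
        (g := Sum.elim f (Sum.elim (fun _ => p - q + p2) g)) ?_ ?_ ?_ ?_ ?_
        (Finset.univ.map Function.Embedding.inl) (Sum.inr (Sum.inl ())) hp' ?_ ?_
      · simp only [Fintype.card_sum, Fintype.card_fin, Fintype.card_unit]
        omega
      · rintro (i | i | i)
        · exact f1 i
        · exact hm
        · exact g1 i
      · rintro (i | i | i)
        · exact f2 i
        · exact hmt
        · exact g2 i
      · rintro (i | i | i) (j | j | j) hij
        · exact f3 i j (fun h => hij (by rw [h]))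
        · exact a1 i
        · exact a2 i j
        · exact (f1 j).mul_zero_swap hm (a1 j)
        · exact absurd rfl hij
        · exact a3 j
        · exact (f1 j).mul_zero_swap (g1 i) (a2 j i)
        · exact hm.mul_zero_swap (g1 i) (a3 i)
        · exact g3 i j (fun h => hij (by rw [h]))
      · simp only [Fintype.sum_sum_type, Sum.elim_inl, Sum.elim_inr, f4, g4,
          Finset.univ_unique, Finset.sum_singleton]
        abel
      · show (p - q) * (p - q + p2) = p - q
        rw [mul_add, hp'.mul, e6, add_zero]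
      · rw [Finset.sum_map]
        show p = ∑ i, f i + (p - q)
        rw [f4]
        abel

end ND

end SCO
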