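import Pool.Agent.Work.MP_52dd0f_nd.Interface2

/-! # Block GJD: direct sums of graded chains -/

set_option autoImplicit false
set_option linter.unusedSectionVars false

namespace SCO

open Filter Topology

universe u

namespace ND

section

variable {P : Type u} [CStarAlgebra P] [TVN P]

theorem GJD_zero {p q x y : P} (hp : IsProj p) (hq : IsProj q) (hpq : p * q = 0)
    (hx : IsHaarIn p x) (hy : IsHaarIn q y) :
    x * y = 0 ∧ y * x = 0 ∧ star x * y = 0 ∧ x * star y = 0 := by
  have hqp : q * p = 0 := hp.mul_zero_swap hq hpq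
  have a1 := hx.mul_left hp
  have a2 := hx.mul_right hp
  have b1 := hy.mul_left hq
  have b2 := hy.mul_right hq
  refine ⟨?_, ?_, ?_, ?_⟩
  · rw [← a2, ← b1, mul_assoc, ← mul_assoc p, hpq, zero_mul, mul_zero]
  · rw [← b2, ← a1, mul_assoc, ← mul_assoc q, hqp, zero_mul, mul_zero]
  · rw [← a1, ← b1, star_mul, hp.star, mul_assoc, ← mul_assoc p, hpq, zero_mul, mul_zero]
  · rw [← a2, ← b2, star_mul, hq.star, mul_assoc, ← mul_assoc p, hpq, zero_mul, mul_zero]

theorem GJD_add {p q x y : P} (hp : IsProj p) (hq : IsProj q) (hpq : p * q = 0)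
    (hx : IsHaarIn p x) (hy : IsHaarIn q y) : IsHaarIn (p + q) (x + y) := by
  obtain ⟨e3, e4, e1, e2⟩ := GJD_zero hp hq hpq hx hy
  have e1' : star y * x = 0 := by
    have := congrArg star e1; rwa [star_mul, star_star, star_zero] at this
  have e2' : y * star x = 0 := by
    have := congrArg star e2; rwa [star_mul, star_star, star_zero] at this
  refine ⟨?_, ?_, fun m hm => ?_⟩
  · rw [star_add, add_mul, mul_add, mul_add, e1, e1', hx.src, hy.src]; abel
  · rw [star_add, add_mul, mul_add, mul_add, e2, e2', hx.rng, hy.rng]; abel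
  · obtain ⟨m, rfl⟩ : ∃ k, m = k + 1 := ⟨m - 1, by omega⟩
    rw [add_pow_of_orthogonal e3 e4, map_add, hx.tr _ hm, hy.tr _ hm, add_zero]

end

theorem p_GJD : Stmt_GJD.{u} := by
  intro P _ _ p q x y x' n hp hq hpq hx' h
  obtain ⟨w, h0, hn, hH, hc⟩ := h
  refine ⟨fun i => w i + x', by simp only [h0], by simp only [hn], fun i => GJD_add hp hq hpq (hH i) hx',
    fun i => ?_⟩
  obtain ⟨a3, a4, -, -⟩ := GJD_zero hp hq hpq (hH i) hx'
  obtain ⟨b3, b4, -, -⟩ := GJD_zero hp hq hpq (hH (i + 1)) hx'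
  show (w i + x') * (w (i + 1) + x') = (w (i + 1) + x') * (w i + x')
  rw [add_mul, mul_add, mul_add, add_mul, mul_add, mul_add, a3, a4, b3, b4, hc i]

end ND

end SCO
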