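import Pool.Agent.Work.MP_52dd0f_nd.InterfaceE

set_option autoImplicit false
set_option linter.unusedSectionVars false

namespace SCO

open Filter Topology

universe u

namespace ND

theorem INV_proj_norm {P : Type u} [CStarAlgebra P] {e : P} (h1 : e * e = e) (h2 : star e = e) :
    ‖e‖ ≤ 1 := by
  have h3 : ‖e‖ * ‖e‖ = ‖e‖ := by
    rw [← CStarRing.norm_star_mul_self, h2, h1]
  by_contra hcon
  push Not at hcon
  nlinarith [norm_nonneg e]

theorem p_INV : Stmt_INV.{u} := by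
  intro P _ e a he hs hl hr hn
  obtain ⟨t, ht⟩ : ∃ t, t = e - a := ⟨_, rfl⟩
  have htn : ‖t‖ ≤ 1 / 2 := by rw [ht, norm_sub_rev]; exact hn
  have htn1 : ‖t‖ < 1 := by linarith
  have het : e * t = t := by rw [ht, mul_sub, he, hl]
  have hte : t * e = t := by rw [ht, sub_mul, he, hr]
  obtain ⟨b, hb1, hb2⟩ : ∃ b : P, (1 - t) * b = 1 ∧ b * (1 - t) = 1 :=
    ⟨↑(Units.oneSub t htn1)⁻¹, (Units.oneSub t htn1).mul_inv, (Units.oneSub t htn1).inv_mul⟩
  have ha1 : a = e * (1 - t) := by rw [mul_sub, mul_one, het, ht]; abel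
  have ha2 : a = (1 - t) * e := by rw [sub_mul, one_mul, hte, ht]; abel
  have heb : e * b = b * e := by
    calc e * b = (b * (1 - t)) * (e * b) := by rw [hb2, one_mul]
      _ = b * ((1 - t) * e) * b := by simp only [mul_assoc]
      _ = b * (e * (1 - t)) * b := by rw [← ha2, ha1]
      _ = b * e * ((1 - t) * b) := by simp only [mul_assoc]
      _ = b * e := by rw [hb1, mul_one]
  have hbn : ‖b‖ ≤ 2 := by
    have h1 : ‖(1 : P)‖ ≤ 1 := INV_proj_norm (one_mul 1) (star_one P)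
    have h2 : b = 1 + b * t := by
      have := hb2
      rw [mul_sub, mul_one] at this
      rw [← this]
      abel
    have h3 : ‖b‖ ≤ 1 + ‖b‖ * (1 / 2) := by
      calc ‖b‖ = ‖1 + b * t‖ := by rw [← h2]
        _ ≤ ‖(1 : P)‖ + ‖b * t‖ := norm_add_le _ _
        _ ≤ 1 + ‖b‖ * ‖t‖ := add_le_add h1 (norm_mul_le _ _)
        _ ≤ 1 + ‖b‖ * (1 / 2) := by
          have := mul_le_mul_of_nonneg_left htn (norm_nonneg b)
          linarith
    linarith
  have hen := INV_proj_norm he hs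
  have hrn : ‖b * e‖ ≤ 2 := by
    calc ‖b * e‖ ≤ ‖b‖ * ‖e‖ := norm_mul_le _ _
      _ ≤ 2 * 1 := mul_le_mul hbn hen (norm_nonneg _) (by norm_num)
      _ = 2 := by norm_num
  have hre : b * e * e = b * e := by rw [mul_assoc, he]
  have hra : b * e * a = e := by
    rw [ha2, mul_assoc, ← mul_assoc e (1 - t) e, ← ha1, hr, ha2, ← mul_assoc, hb2, one_mul]
  refine ⟨b * e, ⟨hl, hr, ?_, hre, ?_, hra⟩, hrn, ?_⟩
  · rw [← mul_assoc, heb, mul_assoc, he]
  · rw [ha1, mul_assoc, ← mul_assoc (1 - t) b e, hb1, one_mul, he]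
  · have h1 : b * e - e = b * e * (e - a) := by rw [mul_sub, hre, hra]
    rw [h1]
    calc ‖b * e * (e - a)‖ ≤ ‖b * e‖ * ‖e - a‖ := norm_mul_le _ _
      _ ≤ 2 * ‖e - a‖ := mul_le_mul_of_nonneg_right hrn (norm_nonneg _)
      _ = 2 * ‖a - e‖ := by rw [norm_sub_rev]

end ND

end SCO
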