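import Pool.Agent.Work.MP_52dd0f_nd.Interface2

set_option autoImplicit false
set_option linter.unusedSectionVars false

namespace SCO

open Filter Topology

universe u

namespace ND

theorem p_QAL (hFAC : Stmt_FAC.{u}) (hSAA : Stmt_SAA.{u}) (hSAB : Stmt_SAB.{u}) (hSAC : Stmt_SAC.{u})
    (hUNX : Stmt_UNX.{u}) (hAMP : Stmt_AMP.{u}) (hCNC : Stmt_CNC.{u}) (hGJN : Stmt_GJN.{u})
    (hCLS : Stmt_CLS.{u}) (hUNI : Stmt_UNI.{u}) (hGSP : Stmt_GSP.{u}) (hOFG : Stmt_OFG.{u})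
    (hDMG : Stmt_DMG.{u}) (hGYS : Stmt_GYS.{u}) (hTRX : Stmt_TRX.{u}) (hSTR : Stmt_STR.{u})
    (hNST : Stmt_NST.{u}) (hNIT : Stmt_NIT.{u}) (hDNR : Stmt_DNR.{u}) (hCON : Stmt_CON.{u}) :
    Stmt_QAL.{u} := by
  intro K _ _ _ 𝒰 _ hspan
  have hF : FactorII (UP K 𝒰) := hFAC K 𝒰
  have hS : Sat (UP K 𝒰) := ⟨hSAA K 𝒰, hSAB K 𝒰, hSAC K 𝒰⟩
  have h1 : IsProj (1 : UP K 𝒰) := IsProj.one
  obtain ⟨c, hc⟩ := hUNX (UP K 𝒰) 1 h1 1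
  obtain ⟨hA0, -, -, -, -, -, -, -, hA8⟩ := hAMP (UP K 𝒰) 1 c hc
  obtain ⟨h₀, hh⟩ := exists_halving (noMin_empty (M := UP K 𝒰))
  obtain ⟨u₀, -, hu₀, -⟩ := tree_limit hh (co_empty _) hA0
  have hUH : HaarU (am (n := 1) c u₀) :=
    (hA8 u₀ (IsHaarIn.mul_left hA0 hu₀) (IsHaarIn.mul_right hA0 hu₀)).1 hu₀
  have hconj : ∀ w, IsHaarIn (c 0 0) w → ∃ h : UP K 𝒰, star h * h = c 0 0 ∧ h * star h = c 0 0 ∧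
      h * u₀ * star h = w := fun w hw => hCNC _ hS 1 c hc u₀ w hu₀ hw
  have hcl := hCLS K 𝒰 (c 0 0) u₀ hA0 hu₀ hconj
  obtain ⟨m, hm⟩ := hUNI _ (c 0 0) u₀ hA0 hu₀ hcl (hspan c hc u₀ hu₀)
  obtain ⟨m₁, hm₁⟩ := hOFG _ c hc u₀ hu₀ m hm
  have hd := hDMG _ c hc u₀ hu₀ m₁ hm₁
  obtain ⟨m₂, hm₂⟩ := hGYS _ c hc u₀ hu₀ m m₁ hm hd hUH
  obtain ⟨-, hmono, -, -, -, -⟩ := hGSP _ (am (n := 1) c u₀) hUH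
  obtain ⟨m', hm'⟩ := hSTR _ c hc u₀ hUH (max m₁ m₂)
    (fun x hx1 hx2 hx3 => hmono _ _ _ (le_max_left _ _) (hm₁ x hx1 hx2 hx3))
    (fun y hy hy1 hy2 hy3 => hmono _ _ _ (le_max_left _ _) (hd y hy hy1 hy2 hy3))
    (fun y s hy hy1 hy2 hy3 hs hs' => hmono _ _ _ (le_max_right _ _) (hm₂ y s hy hy1 hy2 hy3 hs hs'))
    (fun T hT hT1 hT2 hT3 hT4 => hTRX K 𝒰 (c 0 0) T hA0 hT hT1 hT2 hT3 hT4)
  obtain ⟨n₁, C, hC1, hN⟩ := hNST _ (am (n := 1) c u₀) hUH m' hm'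
  have hI := hNIT _ (am (n := 1) c u₀) hUH n₁ C hC1 hN
  obtain ⟨C', hC'⟩ := hDNR _ (am (n := 1) c u₀) hUH n₁ C hC1 hI
  have hfin := hCON _ (am (n := 1) c u₀) hUH C' hC' (fun v hv => hSAA K 𝒰 _ v hUH hv)
  obtain ⟨-, -, -, -, -, -, h7, -, -⟩ := hGJN (UP K 𝒰) 1 h1
  refine ⟨2 * C' + 1, by omega, fun n u v hu hv => ?_⟩
  obtain ⟨w, hw, hwv⟩ := hfin n u v hu hv
  refine ⟨w, h7 _ _ _ _ ?_ hw, hwv⟩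
  exact Nat.mul_le_mul_right (n + 1) (Nat.le_succ (2 * C'))

end ND

end SCO
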