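import Pool.Agent.Work.MP_52dd0f_nd.InterfaceE

/-!
# Block TEB (MP_52dd0f_an, THEOREM ND*): chains with small similarities, basic properties
-/

set_option autoImplicit false
set_option linter.unusedSectionVars false

namespace SCO

open Filter Topology

universe u

namespace ND

section

variable {P : Type u} [CStarAlgebra P] [TVN P]

theorem TEB_mul {a b : P} {ε ε' : ℝ} (hε : 0 ≤ ε) (ha : ‖a - 1‖ ≤ ε) (hb : ‖b - 1‖ ≤ ε') :
    ‖a * b - 1‖ ≤ ε + ε' + ε * ε' := by
  have h1 : a * b - 1 = (a - 1) + (b - 1) + (a - 1) * (b - 1) := by noncomm_ring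
  have h2 : ‖(a - 1) * (b - 1)‖ ≤ ε * ε' :=
    (norm_mul_le _ _).trans (mul_le_mul ha hb (norm_nonneg _) hε)
  rw [h1]
  calc ‖(a - 1) + (b - 1) + (a - 1) * (b - 1)‖ ≤ ‖(a - 1) + (b - 1)‖ + ‖(a - 1) * (b - 1)‖ :=
        norm_add_le _ _
    _ ≤ (‖a - 1‖ + ‖b - 1‖) + ‖(a - 1) * (b - 1)‖ := by
        have := norm_add_le (a - 1) (b - 1)
        linarith
    _ ≤ ε + ε' + ε * ε' := by linarith

theorem TEB_iv {a a' b b' : P} (ha : Iv a a') (hb : Iv b b') : Iv (a * b) (b' * a') where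
  r := by
    calc a * b * (b' * a') = a * (b * b') * a' := by simp only [mul_assoc]
      _ = 1 := by rw [hb.r, mul_one, ha.r]
  l := by
    calc b' * a' * (a * b) = b' * (a' * a) * b := by simp only [mul_assoc]
      _ = 1 := by rw [ha.l, mul_one, hb.l]

theorem TEB_smono {ε ε' : ℝ} (h : ε ≤ ε') {x : P} (hx : SmE ε x) : SmE ε' x := by
  obtain ⟨s, s', w, h1, h2, h3, h4, h5⟩ := hx
  exact ⟨s, s', w, h1, h2, h3.trans h, h4.trans h, h5⟩

theorem TEB_mono {ε ε' : ℝ} {n n' : ℕ} (h : ε ≤ ε') (hn : n ≤ n') {x y : P}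
    (hx : JsE ε n x y) : JsE ε' n' x y := by
  obtain ⟨w, h0, h1, h2, h3⟩ := hx
  refine ⟨fun i => w (min i n), ?_, ?_, fun i => TEB_smono h (h2 _), fun i => ?_⟩
  · show w (min 0 n) = x
    rw [Nat.zero_min, h0]
  · show w (min n' n) = y
    rw [Nat.min_eq_right hn, h1]
  · show w (min i n) * w (min (i + 1) n) = w (min (i + 1) n) * w (min i n)
    by_cases hi : i < n
    · rw [Nat.min_eq_left hi.le, Nat.min_eq_left (Nat.succ_le_of_lt hi)]
      exact h3 i
    · rw [Nat.min_eq_right (not_lt.1 hi), Nat.min_eq_right ((not_lt.1 hi).trans (Nat.le_succ i))]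

theorem TEB_trans {ε : ℝ} {x y z : P} {n m : ℕ} (h : JsE ε n x y) (h' : JsE ε m y z) :
    JsE ε (n + m) x z := by
  obtain ⟨w, h0, hn, hH, hc⟩ := h
  obtain ⟨w', h0', hn', hH', hc'⟩ := h'
  refine ⟨fun i => if i < n then w i else w' (i - n), ?_, ?_, ?_, ?_⟩
  · by_cases h : 0 < n
    · simp only [h, if_true, h0]
    · have hn0 : n = 0 := by omega
      subst hn0
      show (if 0 < 0 then w 0 else w' (0 - 0)) = x
      rw [if_neg (lt_irrefl 0), Nat.sub_zero, h0', ← hn, h0]
  · show (if n + m < n then w (n + m) else w' (n + m - n)) = z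
    rw [if_neg (by omega), Nat.add_sub_cancel_left, hn']
  · intro i
    by_cases h : i < n
    · simp only [h, if_true]
      exact hH i
    · simp only [h, if_false]
      exact hH' _
  · intro i
    show (if i < n then w i else w' (i - n)) * (if i + 1 < n then w (i + 1) else w' (i + 1 - n)) =
      (if i + 1 < n then w (i + 1) else w' (i + 1 - n)) * (if i < n then w i else w' (i - n))
    by_cases h1 : i + 1 < n
    · rw [if_pos h1, if_pos (by omega : i < n)]
      exact hc i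
    · rw [if_neg h1]
      by_cases h2 : i < n
      · have e : i + 1 = n := by omega
        rw [if_pos h2, e, Nat.sub_self, h0', ← hn, ← e]
        exact hc i
      · rw [if_neg h2, show i + 1 - n = (i - n) + 1 by omega]
        exact hc' (i - n)

theorem TEB_comm {t t' x y : P} (ht : Iv t t') (h : x * y = y * x) :
    t * x * t' * (t * y * t') = t * y * t' * (t * x * t') := by
  calc t * x * t' * (t * y * t') = t * x * (t' * t) * y * t' := by simp only [mul_assoc]
    _ = t * (x * y) * t' := by rw [ht.l, mul_one]; simp only [mul_assoc]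
    _ = t * (y * x) * t' := by rw [h]
    _ = t * y * (t' * t) * x * t' := by rw [ht.l, mul_one]; simp only [mul_assoc]
    _ = t * y * t' * (t * x * t') := by simp only [mul_assoc]

/-- conjugation of a chain by an element close to one -/
theorem TEB_conj {ε ε' : ℝ} (hε : 0 ≤ ε) (hε' : 0 ≤ ε') {t t' x y : P} {n : ℕ} (ht : Iv t t')
    (h1 : ‖t - 1‖ ≤ ε) (h2 : ‖t' - 1‖ ≤ ε) (h : JsE ε' n x y) :
    JsE (ε + ε' + ε * ε') n (t * x * t') (t * y * t') := by
  obtain ⟨w, h0, hn, hH, hc⟩ := h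
  refine ⟨fun i => t * w i * t', by simp only [h0], by simp only [hn], fun i => ?_,
    fun i => TEB_comm ht (hc i)⟩
  obtain ⟨s, s', v, hs, hv, hs1, hs2, e⟩ := hH i
  refine ⟨t * s, s' * t', v, TEB_iv ht hs, hv, TEB_mul hε h1 hs1, ?_, ?_⟩
  · have h3 := TEB_mul hε' hs2 h2
    linarith
  · show t * w i * t' = t * s * v * (s' * t')
    rw [e]
    simp only [mul_assoc]

theorem TEB_one {ε : ℝ} (hε : 0 ≤ ε) {x : P} (hx : HaarU x) : SmE ε x :=
  ⟨1, 1, x, ⟨mul_one 1, mul_one 1⟩, hx, by rw [sub_self, norm_zero]; exact hε,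
    by rw [sub_self, norm_zero]; exact hε, by rw [one_mul, mul_one]⟩

theorem TEB_unit {V s : P} (hV : star V * V = 1) (hV' : V * star V = 1) :
    ‖V * s * star V - 1‖ ≤ ‖s - 1‖ := by
  have h1 : V * s * star V - 1 = V * (s - 1) * star V := by
    rw [mul_sub, sub_mul, mul_one, hV']
  have h2 := norm_le_one_of_star_mul hV
  rw [h1]
  calc ‖V * (s - 1) * star V‖ ≤ ‖V‖ * ‖s - 1‖ * ‖star V‖ :=
        (norm_mul_le _ _).trans (mul_le_mul_of_nonneg_right (norm_mul_le _ _) (norm_nonneg _))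
    _ ≤ 1 * ‖s - 1‖ * 1 := by rw [norm_star]; gcongr
    _ = ‖s - 1‖ := by ring

theorem TEB_exp (θ : ℝ) :
    ‖Complex.exp ((θ : ℂ) * Complex.I) • (1 : P) - 1‖ ≤ |θ| := by
  have h1 : Complex.exp ((θ : ℂ) * Complex.I) • (1 : P) - 1 =
      (Complex.exp ((θ : ℂ) * Complex.I) - 1) • (1 : P) := by rw [sub_smul, one_smul]
  have h2 : ‖(1 : P)‖ ≤ 1 := norm_le_one_of_star_mul (by rw [star_one, mul_one])
  have h3 : ‖Complex.exp ((θ : ℂ) * Complex.I) - 1‖ ≤ |θ| := by
    have := Real.norm_exp_I_mul_ofReal_sub_one_le (x := θ)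
    rw [mul_comm, Real.norm_eq_abs] at this
    exact this
  rw [h1, norm_smul]
  calc ‖Complex.exp ((θ : ℂ) * Complex.I) - 1‖ * ‖(1 : P)‖ ≤ |θ| * 1 :=
        mul_le_mul h3 h2 (norm_nonneg _) (abs_nonneg _)
    _ = |θ| := mul_one _

end

theorem p_TEB : Stmt_TEB.{u} := by
  intro P _ _ U hU
  refine ⟨?_, ?_, ?_, ?_, ?_⟩
  · intro ε ε' n n' t₁ t₂ hε hε' h1 h2
    obtain ⟨t₁', a1, a2, a3, a4⟩ := h1
    obtain ⟨t₂', b1, b2, b3, b4⟩ := h2
    refine ⟨t₂' * t₁', TEB_iv a1 b1, TEB_mul hε a2 b2, ?_, ?_⟩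
    · have h3 := TEB_mul hε' b3 a3
      linarith
    · have h4 : ε ≤ ε + ε' + ε * ε' := by
        have : 0 ≤ ε * ε' := mul_nonneg hε hε'
        linarith
      have h5 := TEB_conj hε hε' a1 a2 a3 b4
      have h6 : t₁ * (t₂ * U * t₂') * t₁' = t₁ * t₂ * U * (t₂' * t₁') := by simp only [mul_assoc]
      rw [h6] at h5
      exact TEB_trans (TEB_mono h4 le_rfl a4) h5
  · intro ε ε' n n' x y h1 h2 h3
    exact TEB_mono h1 h2 h3
  · intro ε θ n hθ
    have hε : 0 ≤ ε := (abs_nonneg θ).trans hθ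
    have e1 : Complex.exp ((θ : ℂ) * Complex.I) * Complex.exp (((-θ : ℝ) : ℂ) * Complex.I) = 1 := by
      rw [← Complex.exp_add]
      push_cast
      rw [neg_mul, add_neg_cancel, Complex.exp_zero]
    have e2 : Complex.exp (((-θ : ℝ) : ℂ) * Complex.I) * Complex.exp ((θ : ℂ) * Complex.I) = 1 := by
      rw [mul_comm, e1]
    refine ⟨Complex.exp (((-θ : ℝ) : ℂ) * Complex.I) • (1 : P), ⟨?_, ?_⟩, (TEB_exp θ).trans hθ, ?_,
      ?_⟩
    · rw [smul_mul_smul_comm, mul_one, e1, one_smul]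
    · rw [smul_mul_smul_comm, mul_one, e2, one_smul]
    · refine (TEB_exp (-θ)).trans ?_
      rw [abs_neg]
      exact hθ
    · have e3 : Complex.exp ((θ : ℂ) * Complex.I) • (1 : P) * U *
          (Complex.exp (((-θ : ℝ) : ℂ) * Complex.I) • (1 : P)) = U := by
        rw [smul_mul_assoc, one_mul, smul_mul_smul_comm, mul_one, e1, one_smul]
      rw [e3]
      exact ⟨fun _ => U, rfl, rfl, fun _ => TEB_one hε hU, fun _ => rfl⟩
  · intro ε n x y hε h
    obtain ⟨w, h0, h1, h2, h3⟩ := h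
    exact ⟨w, h0, h1, fun i => TEB_one hε (h2 i).haarU, h3⟩
  · intro ε n x y V hV hV' h
    obtain ⟨w, h0, h1, h2, h3⟩ := h
    have hiv : Iv V (star V) := ⟨hV', hV⟩
    refine ⟨fun i => V * w i * star V, by simp only [h0], by simp only [h1], fun i => ?_,
      fun i => TEB_comm hiv (h3 i)⟩
    obtain ⟨s, s', v, hs, hv, hs1, hs2, e⟩ := h2 i
    refine ⟨V * s * star V, V * s' * star V, V * v * star V, ⟨?_, ?_⟩, hv.conj hV hV',
      (TEB_unit hV hV').trans hs1, (TEB_unit hV hV').trans hs2, ?_⟩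
    · calc V * s * star V * (V * s' * star V) = V * s * (star V * V) * s' * star V := by
            simp only [mul_assoc]
        _ = V * (s * s') * star V := by rw [hV, mul_one]; simp only [mul_assoc]
        _ = 1 := by rw [hs.r, mul_one, hV']
    · calc V * s' * star V * (V * s * star V) = V * s' * (star V * V) * s * star V := by
            simp only [mul_assoc]
        _ = V * (s' * s) * star V := by rw [hV, mul_one]; simp only [mul_assoc]
        _ = 1 := by rw [hs.l, mul_one, hV']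
    · show V * w i * star V = _
      rw [e]
      calc V * (s * v * s') * star V = V * s * 1 * v * 1 * s' * star V := by
            simp only [mul_assoc, one_mul, mul_one]
        _ = V * s * (star V * V) * v * (star V * V) * s' * star V := by rw [hV]
        _ = V * s * star V * (V * v * star V) * (V * s' * star V) := by simp only [mul_assoc]

end ND

end SCO
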