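import Pool.Agent.Work.MP_52dd0f_an.Main
import Pool.Agent.Work.MP_52dd0f_an_helper59.Lift

/-!
# THEOREM ND (norm density of the orbits), MP_52dd0f_an: definitions

The library `Work/MP_52dd0f_an` (namespace `SCO`): `TrC`, `TVN` (tracial von Neumann algebras), `FactorII`, `tr`, `tau`, `n2`,
`T2` (convergence in 2-norm), `IsProj`, `HaarU`, `IsHaarIn`, `CornerMap`, `OneOrbit`, `UG`, `Stb`, `Conn`; the ultrapower `UP M 𝒰`,
`toUP`, `iU`, `Sq` in `Work/MP_52dd0f_an_helper59` (`Ultra1`, `Ultra2`).
-/

set_option autoImplicit false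
set_option linter.unusedSectionVars false

namespace SCO

open Filter Topology

universe u

namespace ND

section Algebra

variable {P : Type u} [CStarAlgebra P]

/-- `a` is a system of matrix units with sum `r` -/
structure MU {n : ℕ} (r : P) (a : Fin n → Fin n → P) : Prop where
  mul : ∀ i j l m, a i j * a l m = if j = l then a i m else 0
  star : ∀ i j, star (a i j) = a j i
  sum : ∑ i, a i i = r

/-- the amplification `1 ⊗ x` of the element `x` of the corner `a 0 0` -/
noncomputable def am {n : ℕ} (a : Fin (n + 1) → Fin (n + 1) → P) (x : P) : P := ∑ i, a i 0 * x * a 0 i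

/-- `∑ j, lam j • p j` is an approximation of `v` in norm -/
structure Dec (v : P) (ε : ℝ) {J : ℕ} (lam : Fin J → ℂ) (p : Fin J → P) : Prop where
  proj : ∀ j, IsProj (p j)
  orth : ∀ i j, i ≠ j → p i * p j = 0
  sum : ∑ j, p j = 1
  comm : ∀ y, v * y = y * v → star v * y = y * star v → ∀ j, y * p j = p j * y
  near : ‖v - ∑ j, lam j • p j‖ ≤ ε

/-- the self-adjoint elements `h` with `exp (i t h)` in the norm closure of `G` for all real `t` -/
def Hc (G : Set P) : Set P :=
  {h | IsSelfAdjoint h ∧ ∀ t : ℝ, NormedSpace.exp (((t : ℂ) * Complex.I) • h) ∈ closure G}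

/-- the elements of `G` are unitary, and `G` is a group -/
structure UGrp (G : Set P) : Prop where
  uni : ∀ g ∈ G, star g * g = 1 ∧ g * star g = 1
  one : (1 : P) ∈ G
  mul : ∀ g ∈ G, ∀ h ∈ G, g * h ∈ G
  star : ∀ g ∈ G, star g ∈ G

/-- the off-diagonal self-adjoint element with entry `x` -/
def off (c : Fin 2 → Fin 2 → P) (x : P) : P := x * c 0 1 + c 1 0 * star x

end Algebra

section Trace

variable {P : Type u} [CStarAlgebra P] [TrC P]

/-- `x` and `y` are joined by a chain of commuting Haar unitaries of `p P p` -/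
def Jn (p x y : P) : Prop :=
  Relation.ReflTransGen (fun x y => IsHaarIn p x ∧ IsHaarIn p y ∧ x * y = y * x) x y

/-- `g` is a unitary of `p P p` which stabilizes the class of `u` -/
structure Gp (p u g : P) : Prop where
  src : star g * g = p
  rng : g * star g = p
  jn : Jn p u (g * u * star g)

end Trace

/-- the saturation properties of ultrapowers -/
structure Sat (P : Type u) [CStarAlgebra P] [TVN P] : Prop where
  conj : ∀ u v : P, HaarU u → HaarU v → ∃ g : P, star g * g = 1 ∧ g * star g = 1 ∧ g * u * star g = v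
  units : ∀ u v : P, HaarU u → HaarU v → u * v = v * u → ∀ n : ℕ, ∃ a : Fin (n + 1) → Fin (n + 1) → P,
    MU 1 a ∧ ∀ i j, u * a i j = a i j * u ∧ v * a i j = a i j * v
  equiv : ∀ u : P, HaarU u → ∀ (n : ℕ) (a b : Fin (n + 1) → Fin (n + 1) → P), MU 1 a → MU 1 b →
    (∀ i j, u * a i j = a i j * u) → (∀ i j, u * b i j = b i j * u) →
    ∃ y : P, star y * y = 1 ∧ y * star y = 1 ∧ u * y = y * u ∧ ∀ i j, y * a i j * star y = b i j

/-- a local function of bounded sequences: the `k`-th term of the value depends only on the `k`-th terms -/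
def Loc {M : Type u} [CStarAlgebra M] {ι : Type} (F : (ι → Sq M) → Sq M) : Prop :=
  ∀ (x y : ι → Sq M) (k : ℕ), (∀ i, (x i).ev k = (y i).ev k) → (F x).ev k = (F y).ev k

end ND

end SCO
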