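import Pool.Agent.Work.MP_52dd0f_nd.Defs

/-!
# THEOREM ND (norm density of the orbits), MP_52dd0f_an: the blocks

`theorem p_X (hA : Stmt_A.{u}) ... : Stmt_X.{u}` (with `universe u`; the statements without a type `M : Type u` have no universe).
Library: `Work/MP_52dd0f_an/*.lean`, `Work/MP_52dd0f_an_helper59/*.lean` (namespace `SCO`): everything there may be used, nothing changed.
-/

set_option autoImplicit false
set_option linter.unusedSectionVars false

namespace SCO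

open Filter Topology

universe u

namespace ND

/-! ## Part A: spectral projections of a unitary, by polar decomposition -/

/-- LAU. Laurent polynomials are dense on the circle. Proof: `span_fourier_closure_eq_top` (Mathlib, `AddCircle (2 * π)`) applied to the
continuous function `φ ∘ toCircle`: it is within `ε` of a finite linear combination of `fourier k`, `k : ℤ`; `fourier k` at `x` is `z ^ k` with
`z = toCircle x`, for negative `k` it is `conj z ^ (-k)`. (Or Stone-Weierstrass.) -/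
def Stmt_LAU : Prop := ∀ φ : ℂ → ℂ, Continuous φ → ∀ ε : ℝ, 0 < ε → ∃ (n : ℕ) (c d : ℕ → ℂ), ∀ z : ℂ, ‖z‖ = 1 →
  ‖φ z - ∑ k ∈ Finset.range n, (c k * z ^ k + d k * (starRingEnd ℂ z) ^ k)‖ ≤ ε

/-- MOM (uses LAU). The trace of `φ(u)` is the same for all Haar unitaries. Proof: `cfc` of `c z^k + d conj(z)^k` at `u` is
`c u^k + d (star u)^k`; the trace of `u^k` and of `star (u^k)` is `0` for `k ≥ 1` (`tr_star`) and `1` for `k = 0`. So the trace of `L(u)` is
`c 0 + d 0` for both (if `n ≥ 1`), and `‖cfc φ u - L(u)‖ ≤ ε` (`norm_cfc_le`; the spectrum of a unitary is in the circle) for every `ε`;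
`norm_tr_le_norm`. -/
def Stmt_MOM : Prop := ∀ (M : Type u) [CStarAlgebra M] [TVN M] (u v : M), HaarU u → HaarU v →
  ∀ φ : ℂ → ℂ, Continuous φ → tr (cfc φ u) = tr (cfc φ v)

/-- SUP. The support projection of `f(v)`. Proof: `a = cfc f v` is self-adjoint (`f` real), `star a * a = cfc (f^2) v`. `polar a` gives `w`
with `a * (star w * w) = a` and `T2 atTop (fun n => cfc (fN n) (star a * a)) (star w * w)`; `s = star w * w` is a projection (`pi_src`). The real
functional calculus of the self-adjoint element `star a * a = cfc (f^2) v` is `cfc (fun z => fN n (f z * f z)) v` (`cfc_real_eq_complex`,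
`cfc_comp`; `fN_cont`). -/
def Stmt_SUP : Prop := ∀ (M : Type u) [CStarAlgebra M] [TVN M] (v : M), star v * v = 1 → v * star v = 1 →
  ∀ f : ℂ → ℝ, Continuous f → ∃ s : M, IsProj s ∧
    cfc (fun z : ℂ => ((f z : ℝ) : ℂ)) v * s = cfc (fun z : ℂ => ((f z : ℝ) : ℂ)) v ∧
    T2 atTop (fun n : ℕ => cfc (fun z : ℂ => ((fN n (f z * f z) : ℝ) : ℂ)) v) s

/-- NMX. The norm of an orthogonal sum. Proof: for `x = ∑ x j`: `star x * x = ∑ j, star (x j) * x j` (the mixed terms vanish: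
`star (x i) * x j = star (x i) * p i * p j * x j`), and `star (x j) * x j ≤ δ² p j` in the spectral order (compress `star (x j) * x j ≤ δ² 1` by
`p j`), so `star x * x ≤ δ² ∑ p j ≤ δ² 1` (`∑ p j` is a projection), and `‖x‖² = ‖star x * x‖ ≤ δ²`. See `norm_le_one_of_orthogonal` in
Corner.lean. -/
def Stmt_NMX : Prop := ∀ (M : Type u) [CStarAlgebra M] (J : ℕ) (p x : Fin J → M), (∀ j, IsProj (p j)) →
  (∀ i j, i ≠ j → p i * p j = 0) → (∀ j, p j * x j = x j) → (∀ j, x j * p j = x j) →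
  ∀ δ : ℝ, 0 ≤ δ → (∀ j, ‖x j‖ ≤ δ) → ‖∑ j, x j‖ ≤ δ

/-- DEC (uses SUP, NMX). Decomposition of a unitary, with approximations of the projections which do not depend on the algebra.
Proof: `lam` = a finite `ε/2`-net of the circle (compactness), `f j z = max 0 (ε - ‖z - lam j‖)`, `s j` the support of `f j (v)` (SUP),
`p j = s j * ∏_{i < j} (1 - s i)` (the `s j` commute: they are limits of elements `cfc _ v`, and commute with every `y` commuting with `v` and
`star v`: `cfc _ v` does (`Commute.cfc`), and `T2` limits (`Co.of_T2` or `T2.unique`)). `Ψ j n z = fN n (f j z ^2) * ∏_{i < j} (1 - fN n (f i z ^2))`: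
`cfc (Ψ j n) v` is the product of the `cfc`, all of norm at most one (`fN_nonneg`, `fN_le_one`), `T2.mul` with `C = 1` gives the convergence.
`orth` is clear. `sum`: `∑ p j = 1 - q`, `q = ∏ (1 - s i)`, and `(∑ i, f i (v)) * q = 0`; `∑ f i (z) ≥ ε/2` on the circle, so `∑ f i (v)` is
invertible (`cfc` of the inverse function), `q = 0`. `near`: `v - ∑ lam j • p j = ∑ (v - lam j) p j`, an orthogonal sum (NMX), and
`‖(v - lam j) p j‖ ≤ ‖(v - lam j) s j‖ ≤ ε`: `(v - lam j) * cfc (fN n (f j ^2)) v` is `cfc` of `(z - lam j) fN n (f j z ^2)`, which is zero if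
`‖z - lam j‖ ≥ ε`, so it has norm at most `ε` (`norm_cfc_le`), then `norm_le_of_T2`. -/
def Stmt_DEC : Prop := ∀ ε : ℝ, 0 < ε → ∃ (J : ℕ) (lam : Fin J → ℂ) (Ψ : Fin J → ℕ → ℂ → ℂ),
  (∀ j, ‖lam j‖ = 1) ∧ (∀ j n, Continuous (Ψ j n)) ∧
  ∀ (M : Type u) [CStarAlgebra M] [TVN M] (v : M), star v * v = 1 → v * star v = 1 →
    ∃ p : Fin J → M, Dec v ε lam p ∧ ∀ j, T2 atTop (fun n : ℕ => cfc (Ψ j n) v) (p j)

/-- HDC (uses MOM, DEC). Proof: DEC for `ε`, then `tau (p j) = lim tau (cfc (Ψ j n) u) = lim tau (cfc (Ψ j n) v) = tau (q j)` (`T2.tau`, MOM). -/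
def Stmt_HDC : Prop := ∀ (M : Type u) [CStarAlgebra M] [TVN M] (u v : M), HaarU u → HaarU v → ∀ ε : ℝ, 0 < ε →
  ∃ (J : ℕ) (lam : Fin J → ℂ) (p q : Fin J → M), (∀ j, ‖lam j‖ = 1) ∧ Dec u ε lam p ∧ Dec v ε lam q ∧
    ∀ j, tau (p j) = tau (q j)

/-- CJN (uses HDC). Haar unitaries are approximately conjugate in norm. Proof: HDC for `ε / 2`, `w j` with `star (w j) * w j = p j`,
`w j * star (w j) = q j` (`equiv_of_tau`), `g = ∑ w j`: unitary, `g * p j * star g = q j`, so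
`‖g u g* - v‖ ≤ ‖g (u - ∑ lam p) g*‖ + ‖∑ lam q - v‖ ≤ ε` (`norm_conj_le` or `norm_le_one_of_star_mul`). -/
def Stmt_CJN : Prop := ∀ (M : Type u) [CStarAlgebra M] [TVN M] [FactorII M] (u v : M), HaarU u → HaarU v →
  ∀ ε : ℝ, 0 < ε → ∃ g : M, star g * g = 1 ∧ g * star g = 1 ∧ ‖g * u * star g - v‖ ≤ ε

/-! ## Part B: the ultrapower is a factor, and it is saturated -/

/-- AVU. Proof: suppose `n2 (w * x * star w - x) < δ := n2 (x - tr x • 1) / 2` for all unitaries `w`. Let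
`K = {y | ‖y‖ ≤ ‖x‖ ∧ tr y = tr x ∧ ∀ w unitary, n2 (w * y * star w - x) ≤ δ}`: it contains `x`, is closed under midpoints and under `T2`
limits (`norm_le_of_T2`, `T2.tr`, `T2.n2`), and `w' K w'* ⊆ K`. `exists_min` gives `y ∈ K` with `∀ z ∈ K, n2 z ≤ n2 y → z = y`; `n2_conj`, so
`w * y * star w = y` for all unitaries, so `y` is central (`central_of_unitary`, `FactorII.center`), `y = c • 1` with `c = tr y = tr x`, and
`n2 (x - tr x • 1) ≤ δ` (`w = 1`), so `n2 (x - tr x • 1) ≤ 0`: a contradiction with `0 ≤ n2 (1 * x * star 1 - x) < δ`. -/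
def Stmt_AVU : Prop := ∀ (M : Type u) [CStarAlgebra M] [TVN M] [FactorII M] (x : M),
  ∃ w : M, star w * w = 1 ∧ w * star w = 1 ∧ n2 (x - (tr x : ℂ) • (1 : M)) ≤ 2 * n2 (w * x * star w - x)

/-- FAC (uses AVU). Proof: let `z` be central, `z = toUP x` (`exists_lift_UP`), `w k` the unitary of AVU for `x.ev k`; `w` gives a unitary of
`UP M 𝒰` (`Sq.mk _ 1`), which commutes with `z`, so `n2 (w k * x k * star (w k) - x k)` tends to `0` along `𝒰` (`tendsto_n2_toUP`), so
`n2 (x k - tr (x k) • 1)` tends to `0`; `tr (x k)` tends to `tr z` (`tendsto_tr_toUP`), so `n2 (z - tr z • 1) = 0`. Infinite dimension: `iU 𝒰` is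
linear and injective (`n2_iU`), `M` is infinite dimensional. -/
def Stmt_FAC : Prop := ∀ (M : Type u) [CStarAlgebra M] [TVN M] [FactorII M] (𝒰 : Ultrafilter ℕ)
  [Fact ((𝒰 : Filter ℕ) ≤ atTop)], FactorII (UP M 𝒰)

/-- SAT. Saturation. Proof: let `X m` be a solution for `ε = 1 / (m + 1)`. For fixed `m`, for `𝒰`-almost all `k`: `P k m`, where
`P k m` means `∀ j, n2 ((F j (X m)).ev k) ≤ 2 / (m + 1)` (`tendsto_n2_toUP`, `κ` finite). Put `m k = Nat.findGreatest (P k) k` and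
`x i = Sq.mk (fun k => (X (m k) i).ev k) 1 _`. For fixed `m₀`, for `𝒰`-almost all `k` we have `m₀ ≤ k` and `P k m₀`, so `m₀ ≤ m k` and `P k (m k)`
(`Nat.findGreatest_spec`, `Nat.le_findGreatest`), and `(F j x).ev k = (F j (X (m k))).ev k` by `Loc`, so `n2 ((F j x).ev k) ≤ 2 / (m₀ + 1)`. So
`n2 (toUP (F j x)) = 0`. -/
def Stmt_SAT : Prop := ∀ (M : Type u) [CStarAlgebra M] [TVN M] (𝒰 : Ultrafilter ℕ) [Fact ((𝒰 : Filter ℕ) ≤ atTop)]
  (ι κ : Type) [Fintype κ] (F : κ → (ι → Sq M) → Sq M), (∀ j, Loc (F j)) →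
  (∀ ε : ℝ, 0 < ε → ∃ x : ι → Sq M, (∀ i, ‖x i‖ ≤ 1) ∧ ∀ j, n2 (toUP 𝒰 (F j x)) ≤ ε) →
  ∃ x : ι → Sq M, (∀ i, ‖x i‖ ≤ 1) ∧ ∀ j, toUP 𝒰 (F j x) = 0

/-- SAA (uses CJN, FAC, SAT). Haar unitaries of the ultrapower are conjugate. Proof: SAT with one unknown `g` and the three functions
`star g * g - 1`, `g * star g - 1`, `g * ũ * star g - ṽ` (`ũ`, `ṽ` fixed lifts of `u`, `v`); the approximate solutions are contractive lifts
(`exists_lift_UP`) of the unitaries of CJN in the factor `UP M 𝒰` (FAC), `n2 ≤ norm` (`n2_le_norm`). -/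
def Stmt_SAA : Prop := ∀ (M : Type u) [CStarAlgebra M] [TVN M] [FactorII M] (𝒰 : Ultrafilter ℕ)
  [Fact ((𝒰 : Filter ℕ) ≤ atTop)] (u v : UP M 𝒰), HaarU u → HaarU v →
  ∃ g : UP M 𝒰, star g * g = 1 ∧ g * star g = 1 ∧ g * u * star g = v

/-- UNE. Matrix units with given first projection. Proof: `r - e` is a projection of trace `n * tau e`, `exists_partition` (with `S = ∅`,
`noMin_empty`) gives orthogonal `e i` (`i : Fin n`) of trace `tau e` with sum `r - e`, `equiv_of_tau` gives `w i` with `star (w i) * w i = e`,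
`w i * star (w i) = e i`; with `w 0 = e` and a shift of the index (`Fin.cons`) put `a i j = w i * star (w j)`; `star (w j) * w l = 0` for `j ≠ l`
(orthogonal ranges), `= e` for `j = l`, and `w i * e = w i`. -/
def Stmt_UNE : Prop := ∀ (M : Type u) [CStarAlgebra M] [TVN M] [FactorII M] (r e : M), IsProj r → IsProj e →
  e * r = e → ∀ n : ℕ, ((n : ℝ) + 1) * tau e = tau r →
  ∃ a : Fin (n + 1) → Fin (n + 1) → M, MU r a ∧ a 0 0 = e

/-- UNX (uses UNE). Proof: `exists_tau_eq` (with `S = ∅`, `noMin_empty`, `co_empty`) gives `e ≤ r` with `tau e = tau r / (n + 1)`. -/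
def Stmt_UNX : Prop := ∀ (M : Type u) [CStarAlgebra M] [TVN M] [FactorII M] (r : M), IsProj r →
  ∀ n : ℕ, ∃ a : Fin (n + 1) → Fin (n + 1) → M, MU r a

/-- SAB (uses DEC, FAC, SAT, UNX). Matrix units which commute with two commuting Haar unitaries. Proof: SAT with unknowns `a i j`
(`ι = Fin (n+1) × Fin (n+1)`) and functions `a i j * a l m - (if j = l then a i m else 0)`, `star (a i j) - a j i`, `∑ a i i - 1`,
`ũ * a i j - a i j * ũ`, `ṽ * a i j - a i j * ṽ`. Approximate solutions for `ε` (in the factor `UP M 𝒰`, then contractive lifts; matrix units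
are contractions: `star (a i j) * a i j = a j j` is a projection): DEC with `ε / 2` for `u` (projections `p j`) and `v` (projections `q k`);
`u` commutes with `v`, `star v` (`comm_star_of_unitary`), so with `q k` (`Dec.comm`), also `star u`, so `q k` commutes with `p j`; `p j * q k` is a
projection, `e j k` = matrix units of UNX with sum `p j * q k`, `a = ∑ j k, e j k`. They satisfy the exact relations (the `e j k` for
different `(j, k)` multiply to zero, since `e i l = r * e i l = e i l * r` for `MU r e`), and `p j`, `q k` commute with `a i l`, so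
`‖u a - a u‖ = ‖(u - ∑ lam p) a - a (u - ∑ lam p)‖ ≤ ε`. -/
def Stmt_SAB : Prop := ∀ (M : Type u) [CStarAlgebra M] [TVN M] [FactorII M] (𝒰 : Ultrafilter ℕ)
  [Fact ((𝒰 : Filter ℕ) ≤ atTop)] (u v : UP M 𝒰), HaarU u → HaarU v → u * v = v * u →
  ∀ n : ℕ, ∃ a : Fin (n + 1) → Fin (n + 1) → UP M 𝒰, MU 1 a ∧
    ∀ i j, u * a i j = a i j * u ∧ v * a i j = a i j * v

/-- EQA (uses DEC). The approximate form of SAC, in a factor. Proof: DEC with `ε / 2` for `u`: projections `p l`, which commute with `a i j` and `b i j`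
(these commute with `u` and `star u`: `comm_star_of_unitary`). `tau (p l * a i i) = tau (p l * a 0 0)` (trace property, `a i i = a i 0 * a 0 i`,
`a 0 i * a i 0 = a 0 0`), so `tau (p l * a 0 0) = tau (p l) / (n + 1) = tau (p l * b 0 0)`; `equiv_of_tau`: `y l` with `star (y l) * y l = p l * a 0 0`,
`y l * star (y l) = p l * b 0 0`. Put `y = ∑ l, ∑ i, b i 0 * y l * a 0 i`. Then `star y * y = 1`, `y * star y = 1`, `y * a i j * star y = b i j`
exactly (use `y l = y l * p l = p l * y l`, `y l * a 0 0 = y l = b 0 0 * y l`, so `star (y l) * y m = 0 = y l * star (y m)` for `l ≠ m`) and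
`p l * y = y * p l`, so `‖u y - y u‖ = ‖(u - ∑ lam p) y - y (u - ∑ lam p)‖ ≤ ε`. -/
def Stmt_EQA : Prop := ∀ (M : Type u) [CStarAlgebra M] [TVN M] [FactorII M] (u : M), star u * u = 1 → u * star u = 1 →
  ∀ (n : ℕ) (a b : Fin (n + 1) → Fin (n + 1) → M), MU 1 a → MU 1 b →
  (∀ i j, u * a i j = a i j * u) → (∀ i j, u * b i j = b i j * u) → ∀ ε : ℝ, 0 < ε →
  ∃ y : M, star y * y = 1 ∧ y * star y = 1 ∧ ‖u * y - y * u‖ ≤ ε ∧ ∀ i j, y * a i j * star y = b i j

/-- SAC (uses EQA, FAC, SAT). Proof: SAT with one unknown `y` and the functions `star y * y - 1`, `y * star y - 1`, `ũ * y - y * ũ`,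
`y * ã i j * star y - b̃ i j` (fixed lifts of `u`, `a i j`, `b i j`); approximate solutions: contractive lifts of EQA in `UP M 𝒰` (FAC). -/
def Stmt_SAC : Prop := ∀ (M : Type u) [CStarAlgebra M] [TVN M] [FactorII M] (𝒰 : Ultrafilter ℕ)
  [Fact ((𝒰 : Filter ℕ) ≤ atTop)] (u : UP M 𝒰), HaarU u → ∀ (n : ℕ) (a b : Fin (n + 1) → Fin (n + 1) → UP M 𝒰),
  MU 1 a → MU 1 b → (∀ i j, u * a i j = a i j * u) → (∀ i j, u * b i j = b i j * u) →
  ∃ y : UP M 𝒰, star y * y = 1 ∧ y * star y = 1 ∧ u * y = y * u ∧ ∀ i j, y * a i j * star y = b i j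

/-- UNA. A unitary near `x`. Proof: `polar x` gives a partial isometry `v` with `v * star v * x = x`, `x * (star v * v) = x`. Let
`m = cfc Real.sqrt (star x * x)`. `v * m = x`: `x * cfc (hN n) (star x * x) * m` tends to `v * m` (`T2.mul_const`) and to `x`, since
`n2 (x - x * cfc (hN n) (star x * x) * m)^2 = tr (cfc (fun t => (1 - hN n t √t) t (1 - hN n t √t)) (star x * x)) ≤ 1 / (n + 1)` (`hN_sqrt'`,
`n2_mul_cfc_sq`, `tr_cfc_le_one`). `1 - star v * v` and `1 - v * star v` have the same trace (`pi_tau`), `equiv_of_tau` gives `s` with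
`star s * s = 1 - star v * v`, `s * star s = 1 - v * star v`; `w = v + s` is unitary. `s * m = 0` (`x (1 - star v * v) = 0`, so
`m (1 - star v * v) = 0`: `star (m z) (m z) = star z (star x * x) z = 0` for `z = 1 - star v * v`, and `s = s * z`), so `x = w * m` and
`n2 (x - w) = n2 (m - 1)` (`n2_isometry_mul`) `≤ n2 (star x * x - 1)`: `n2_cfc_sq`, `tr_cfc_mono` and `(√t - 1)² ≤ (t - 1)²` for `t ≥ 0`. -/
def Stmt_UNA : Prop := ∀ (M : Type u) [CStarAlgebra M] [TVN M] [FactorII M] (x : M),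
  ∃ w : M, star w * w = 1 ∧ w * star w = 1 ∧ n2 (x - w) ≤ n2 (star x * x - 1)

/-- ULF (uses UNA). Unitaries of the ultrapower are sequences of unitaries. Proof: `g = toUP x`, `w k` = UNA for `x.ev k`;
`n2 (star (x k) * x k - 1)` tends to `0` along `𝒰` (`tendsto_n2_toUP` for `star x * x - 1`), so `toUP (Sq.mk w 1 _) = toUP x`
(`toUP_eq_iff`). -/
def Stmt_ULF : Prop := ∀ (M : Type u) [CStarAlgebra M] [TVN M] [FactorII M] (𝒰 : Ultrafilter ℕ)
  [Fact ((𝒰 : Filter ℕ) ≤ atTop)] (g : UP M 𝒰), star g * g = 1 →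
  ∃ x : Sq M, toUP 𝒰 x = g ∧ ∀ k, star (x.ev k) * x.ev k = 1 ∧ x.ev k * star (x.ev k) = 1

/-- UNF. Proof: `exists_haarU` gives `u`; `stab_dichotomy hu`; in the second case the Baire theorem contradicts
`⋃ n, Stb u n = univ` (which holds by `OneOrbit M` for `u` and `cj g u`), exactly as in `oneOrbit_of_corner` (Uniform.lean). -/
def Stmt_UNF : Prop := ∀ (M : Type u) [CStarAlgebra M] [TVN M] [FactorII M], OneOrbit M →
  ∃ (u : M) (L : ℕ), HaarU u ∧ ∀ g : UG M, g ∈ Stb u L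

/-- ONE (uses SAA, ULF, UNF). If `M` has one orbit then all Haar unitaries of the ultrapower are joined. Proof: `u`, `L` from UNF. Let `W`
be a Haar unitary of `UP M 𝒰`. `iU 𝒰 u` is Haar; SAA: `g` with `g * iU u * star g = W`; ULF: `g = toUP x` with `x k` unitary;
`UG.mk (x k) ∈ Stb u L`, i.e. `Conn L u (x k * u * star (x k))`: choose chains `w k : ℕ → M` for `ε = 1 / (k + 1)` and `l = k`. Then the classes
`z i` of `fun k => w k i` are Haar unitaries (`haarU_toUP_iff`, as in `exists_chain_UP`, Lift.lean: copy its proof), `z 0 = iU u`,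
`z (L + 1) = W`, consecutive ones commute. So `iU u` and `W` are joined; use it for `W` and `W'` and reverse the first chain (the relation is
symmetric). -/
def Stmt_ONE : Prop := ∀ (M : Type u) [CStarAlgebra M] [TVN M] [FactorII M] (𝒰 : Ultrafilter ℕ)
  [Fact ((𝒰 : Filter ℕ) ≤ atTop)], OneOrbit M → ∀ W W' : UP M 𝒰, HaarU W → HaarU W' → Jn 1 W W'

/-! ## Part C: the span of the stabilizer -/

/-- JNS. Basic properties of `Jn` and `Gp`. Proof: (1) the relation is symmetric. (2) `x ↦ v x v*` maps Haar unitaries of `p P p` to Haar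
unitaries of `q P q` (`star v * v = p`, `v * p = v`) and is multiplicative on `p P p`; induction on the chain. (3) `x u x* = u x x* = u p = u`,
`Relation.ReflTransGen.refl`. (4) `Jn p u (g u g*)` and, by (2) with `v = g`, `Jn p (g u g*) (g h u h* g*)`. (5) (2) with `v = star g` for the
reversed chain from `g u g*` to `u`, `star g * g * u * star g * g = p * u * p = u`. (6) `w ~ u ~ g u g* ~ g w g*`. -/
def Stmt_JNS : Prop := ∀ (P : Type u) [CStarAlgebra P] [TVN P] (p : P), IsProj p →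
  (∀ x y, Jn p x y → Jn p y x) ∧
  (∀ x y v q, star v * v = p → v * star v = q → Jn p x y → Jn q (v * x * star v) (v * y * star v)) ∧
  (∀ u x, IsHaarIn p u → star x * x = p → x * star x = p → x * u = u * x → Gp p u x) ∧
  (∀ u g h, IsHaarIn p u → Gp p u g → Gp p u h → Gp p u (g * h)) ∧
  (∀ u g, IsHaarIn p u → Gp p u g → Gp p u (star g)) ∧
  (∀ u w g, IsHaarIn p u → Jn p u w → Gp p u g → Gp p w g)

/-- JDS. Direct sums of chains. Proof: `x + x'` is Haar in `p + q`: the products of elements of `p P p` and `q P q` vanish,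
`(x + x')^m = x^m + x'^m` (`add_pow_of_orthogonal`). First move `x` to `y` with `x'` fixed, then `x'` to `y'` with `y` fixed: in each step the
sums commute. (In a chain all elements but possibly a trivial one are Haar: in `Jn p x y` with `x` Haar all elements are Haar.) -/
def Stmt_JDS : Prop := ∀ (P : Type u) [CStarAlgebra P] [TVN P] (p q x y x' y' : P), IsProj p → IsProj q → p * q = 0 →
  IsHaarIn p x → IsHaarIn q x' → Jn p x y → Jn q x' y' →
  IsHaarIn (p + q) (x + x') ∧ Jn (p + q) (x + x') (y + y')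

/-- CUS. Proof: `star y` commutes with `w` too (`w` is unitary in `p P p`), so by linearity and scaling let `y = star y`, `‖y‖ ≤ 1`. Let
`k = cfc (fun t : ℝ => √(1 - t^2)) y`, self-adjoint, `k * k = 1 - y * y` (the spectrum is in `[-1, 1]`), it commutes with everything that
commutes with `y`, so with `p` and `w`. `g = y + I • (k * p)` satisfies `star g * g = g * star g = y y + k k p = p`, commutes with `w`, so
`g * w * star g = w * p = w`, `Gp p w g` (`Jn` is reflexive), and `y = (1/2) • (g + star g)`, `star g` also in `Gp p w`. -/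
def Stmt_CUS : Prop := ∀ (P : Type u) [CStarAlgebra P] [TVN P] (p w y : P), IsProj p → IsHaarIn p w →
  p * y = y → y * p = y → w * y = y * w → y ∈ Submodule.span ℂ {g : P | Gp p w g}

/-- AMP. Properties of `am`. Proof: direct from `MU.mul`, `MU.star`, `MU.sum`: `am x * a i j = a i 0 * x * a 0 j = a i j * am x`;
`am x * am y = am (x * a 0 0 * y)`; `tr (am x) = (n + 1) tr (x * a 0 0)`; `(am x)^m = am (x^m)` for `m ≥ 1`; `am x = am x'` implies `x = x'` for
`x`, `x'` in the corner (multiply by `a 0 0`). `tau (a i i) = tau (a 0 0)`, the sum is `tau 1 = 1`. -/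
def Stmt_AMP : Prop := ∀ (P : Type u) [CStarAlgebra P] [TVN P] (n : ℕ) (a : Fin (n + 1) → Fin (n + 1) → P), MU 1 a →
  IsProj (a 0 0) ∧ tau (a 0 0) = 1 / ((n : ℝ) + 1) ∧ am a (a 0 0) = 1 ∧
  (∀ x i j, am a x * a i j = a i j * am a x) ∧
  (∀ x y, x * a 0 0 = x → am a (x * y) = am a x * am a y) ∧
  (∀ x, star (am a x) = am a (star x)) ∧
  (∀ y, (∀ i j, y * a i j = a i j * y) → am a (a 0 0 * y * a 0 0) = y) ∧
  (∀ x, a 0 0 * x = x → x * a 0 0 = x → a 0 0 * am a x = x ∧ am a x * a 0 0 = x) ∧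
  (∀ x, a 0 0 * x = x → x * a 0 0 = x → (IsHaarIn (a 0 0) x ↔ HaarU (am a x)))

/-- CNC (uses AMP). Haar unitaries of the corner are conjugate in the corner. Proof: `am u`, `am v` are Haar, `g (am u) g* = am v`
(`Sat.conj`). `g a_ij g*` and `a_ij` are matrix units which commute with `am v`; `Sat.equiv`: `y` commutes with `am v` and
`y g a_ij g* y* = a_ij`. `k = y * g` commutes with all `a_ij`, `k (am u) k* = am v`; `h = a 0 0 * k` is a unitary of the corner and
`h * u * star h = a 0 0 * k * am u * star k * a 0 0 = a 0 0 * am v * a 0 0 = v`. -/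
def Stmt_CNC : Prop := ∀ (P : Type u) [CStarAlgebra P] [TVN P], Sat P →
  ∀ (n : ℕ) (a : Fin (n + 1) → Fin (n + 1) → P), MU 1 a → ∀ u v : P, IsHaarIn (a 0 0) u → IsHaarIn (a 0 0) v →
  ∃ h : P, star h * h = a 0 0 ∧ h * star h = a 0 0 ∧ h * u * star h = v

/-- FRM (uses JNS, CUS, AMP). The form of the end of a chain. Write `e = a 0 0`, `V = span {g | Gp e u g}` (closed under products, by JNS
(4); contains `e`). Induction on the chain (`Relation.ReflTransGen.head`/`tail` induction from `am u`). Start: `S = 1`, `w = u`,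
`a 0 i * a j 0 = 0` or `e`. Step from `W = S (am w) S*` to `W'`: `W`, `W'` commute, `Sat.units`: matrix units `b` with `W`, `W'` commuting with
`b i j`; `S a_ij S*` are matrix units commuting with `W`; `Sat.equiv` (for `W`): `y` unitary commuting with `W`, `y S a_ij S* y* = b_ij`. Put
`S' = y * S`. `S'* W S' = S* W S = am w`, and `X = S'* W' S'` commutes with all `a_ij`, so `X = am w'` with `w' = e X e` (AMP), Haar in `e` (AMP),
`w w' = w' w` as `W`, `W'` commute (compress by `e`). So `Jn e u w'` and `W' = S' (am w') S'*`. Entries: `T = S* y S` commutes with `am w`, so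
`a 0 i * T * a j 0` commutes with `w` (`w * a 0 i = a 0 i * am w`, `am w * a j 0 = a j 0 * w`), it is in `span {g | Gp e w g}` by CUS, which is `V`
(JNS (6), both directions with (1)); `S' = S * T`, `a 0 i * S' * a j 0 = ∑ l, (a 0 i * S * a l 0) * (a 0 l * T * a j 0)` (`∑ l, a l l = 1`) is in
`V`. -/
def Stmt_FRM : Prop := ∀ (P : Type u) [CStarAlgebra P] [TVN P], Sat P →
  ∀ (n : ℕ) (a : Fin (n + 1) → Fin (n + 1) → P), MU 1 a → ∀ u W : P, IsHaarIn (a 0 0) u → Jn 1 (am a u) W →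
  ∃ S w : P, star S * S = 1 ∧ S * star S = 1 ∧ IsHaarIn (a 0 0) w ∧ Jn (a 0 0) u w ∧ W = S * am a w * star S ∧
    ∀ i j, a 0 i * S * a j 0 ∈ Submodule.span ℂ {g : P | Gp (a 0 0) u g}

/-- SPN (uses JNS, CUS, AMP, CNC, FRM). Let `V` be as in FRM and `B = {x | ∀ i j, a 0 i * x * a j 0 ∈ V}`: a linear subspace closed under
products (`∑ a l l = 1`, `V` is closed under products). It contains every unitary `Z`: `W = Z (am u) Z*` is Haar, so `am u` and `W` are
joined, FRM: `W = S (am w) S*`, `S ∈ B`, `Jn e u w`; CNC: `w = h u h*`, so `Gp e u h`; `am h ∈ B` (its entries are `h` or `0`), it is unitary (AMP),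
`am w = (am h)(am u)(am h)*`. `T = (am h)* S* Z` commutes with `am u`, so its entries commute with `u`, `T ∈ B` (CUS), and
`Z = S (am h) T ∈ B`. The unitaries span `P` (`CStarAlgebra.span_unitary`), so `B = P`; for `x` in the corner the entry `(0, 0)` is `x`. -/
def Stmt_SPN : Prop := ∀ (P : Type u) [CStarAlgebra P] [TVN P], Sat P → (∀ u v : P, HaarU u → HaarU v → Jn 1 u v) →
  ∀ (n : ℕ) (a : Fin (n + 1) → Fin (n + 1) → P), MU 1 a → ∀ u : P, IsHaarIn (a 0 0) u →
  ∀ x : P, a 0 0 * x = x → x * a 0 0 = x → x ∈ Submodule.span ℂ {g : P | Gp (a 0 0) u g}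

/-! ## Part D: the Lie algebra of a group of unitaries -/

/-- TRO. Lie-Trotter. Proof: `X n = exp (a / (n+1)) * exp (b / (n+1))`, `Y n = exp ((a + b) / (n+1))`, `Y n ^ (n+1) = exp (a + b)`.
`X^m - Y^m = ∑_{k < m} X^k (X - Y) Y^(m-1-k)` and `‖X‖, ‖Y‖ ≤ exp ((‖a‖ + ‖b‖) / (n+1))`, so `‖X^(n+1) - Y^(n+1)‖ ≤ (n+1) ‖X - Y‖ exp (‖a‖ + ‖b‖)`;
`(n+1) ‖X - Y‖` tends to `0`: the function `t ↦ exp (t a) * exp (t b) - exp (t (a + b))` vanishes at `0` and has derivative `a + b - (a + b) = 0`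
there (`hasDerivAt_exp_smul_const`, `HasDerivAt.mul`). -/
def Stmt_TRO : Prop := ∀ (P : Type u) [CStarAlgebra P] (a b : P),
  Tendsto (fun n : ℕ => (NormedSpace.exp (((n : ℂ) + 1)⁻¹ • a) * NormedSpace.exp (((n : ℂ) + 1)⁻¹ • b)) ^ (n + 1)) atTop
    (𝓝 (NormedSpace.exp (a + b)))

/-- LIA (uses TRO). Proof: the closure of `G` is closed under products (`closure` of a submonoid), so it contains
`(exp (i t a / (n+1)) exp (i t b / (n+1)))^(n+1)` and its limit `exp (i t (a + b))`. Multiples: clear. `0`: `exp 0 = 1 ∈ G`. Closed: for a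
convergent sequence `a k → a` in `Hc G`, `exp (i t a k) → exp (i t a)` (`NormedSpace.exp_continuous`), self-adjointness is closed. -/
def Stmt_LIA : Prop := ∀ (P : Type u) [CStarAlgebra P] (G : Set P), UGrp G →
  (0 : P) ∈ Hc G ∧ (∀ a ∈ Hc G, ∀ b ∈ Hc G, a + b ∈ Hc G) ∧ (∀ a ∈ Hc G, ∀ t : ℝ, (t : ℂ) • a ∈ Hc G) ∧ IsClosed (Hc G)

/-- LIB (uses LIA). Proof: (1) for `g` in the closure of `G` (a group of unitaries: closure of `G` satisfies `UGrp` again) and `a ∈ Hc G`: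
`exp (i t g a g*) = g exp (i t a) g*` is in the closure. (2) for `a, b ∈ Hc G` and real `t ≠ 0`, with `g = exp (i t a)`, `star g = exp (- i t a)`:
`(1/t) • (g b g* - b) ∈ Hc G`, and it tends to `i (a b - b a)` as `t → 0` (the derivative at `0` of `t ↦ exp (t (i a)) b exp (t (-i a))`), `Hc G` is
closed. -/
def Stmt_LIB : Prop := ∀ (P : Type u) [CStarAlgebra P] (G : Set P), UGrp G →
  (∀ g ∈ G, ∀ a ∈ Hc G, g * a * star g ∈ Hc G) ∧
  (∀ a ∈ Hc G, ∀ b ∈ Hc G, Complex.I • (a * b - b * a) ∈ Hc G)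

/-- EXA (uses DEC). Proof: DEC: `lam j = exp (i θ j)`, `h = ∑ θ j • p j`, self-adjoint, and `exp (i h) = ∑ exp (i θ j) • p j`: `h^m = ∑ θ j ^m • p j`
for all `m` (orthogonal projections with sum `1`), compare the series; or: `x ↦ ∑ x j • p j` is a continuous star homomorphism from
`Fin J → ℂ`, which commutes with `NormedSpace.exp` (`NormedSpace.map_exp`). -/
def Stmt_EXA : Prop := ∀ (M : Type u) [CStarAlgebra M] [TVN M] (v : M), star v * v = 1 → v * star v = 1 →
  ∀ ε : ℝ, 0 < ε → ∃ h : M, IsSelfAdjoint h ∧ ‖v - NormedSpace.exp (Complex.I • h)‖ ≤ ε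

/-- SAD (uses DEC). Self-adjoint elements are limits of real combinations of projections. Proof: let `c = ‖h‖ + 1`, `h' = h / c` of norm at
most one, `k = cfc (fun t : ℝ => √(1 - t^2)) h'`, `v = h' + I • k`: unitary, `h' = (1/2) (v + star v)`, and every `y` commuting with `h` commutes
with `h'`, `k`, `v`, `star v`. DEC for `v` and `ε / c`: `p j`, `θ j = c * re (lam j)`: `h - ∑ θ j p j = (c/2) ((v - ∑ lam p) + star (v - ∑ lam p))`. -/
def Stmt_SAD : Prop := ∀ (M : Type u) [CStarAlgebra M] [TVN M] (h : M), IsSelfAdjoint h → ∀ ε : ℝ, 0 < ε →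
  ∃ (J : ℕ) (θ : Fin J → ℝ) (p : Fin J → M), (∀ j, IsProj (p j)) ∧ (∀ j y, h * y = y * h → y * p j = p j * y) ∧
    ‖h - ∑ j, ((θ j : ℝ) : ℂ) • p j‖ ≤ ε

/-- CYC. Matrix units adapted to a projection `p ≤ e`. Proof: `c = tau e / (n + 1)`; if `c = 0` then `e = 0` and everything is `0`. Let
`k = ⌊tau p / c⌋₊ ≤ n + 1`. If `k = n + 1` then `p = e` (`eq_of_le_of_tau`): any matrix units with sum `e` (partition and `equiv_of_tau` as
below), `T = univ`, `p' = 0`. Else: `exists_tau_eq` (`S = ∅`): `q ≤ p` with `tau q = k c`; `p' = p - q`, `tau p' < c`; `p'' ≤ e - p` with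
`tau p'' = c - tau p'` (possible: `tau (e - p) = (n + 1) c - tau p ≥ c - tau p'`); `exists_partition` of `q` in `k` and of `e - p - p''` (trace
`(n - k) c`) in `n - k` projections of trace `c`; with `p' + p''` these are `n + 1` orthogonal projections `r i` of trace `c` and sum `e`;
`w i` with `star (w i) * w i = r 0`, `w i * star (w i) = r i`, `w 0 = r 0`, `a i j = w i * star (w j)`, `a i i = r i`. (Indices: enumerate
`Fin k ⊕ Unit ⊕ Fin (n - k)` by `Fin (n + 1)`, or use `Fin.append`/`finSumFinEquiv`.) -/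
def Stmt_CYC : Prop := ∀ (M : Type u) [CStarAlgebra M] [TVN M] [FactorII M] (e p : M), IsProj e → IsProj p → p * e = p →
  ∀ n : ℕ, ∃ (a : Fin (n + 1) → Fin (n + 1) → M) (T : Finset (Fin (n + 1))) (l : Fin (n + 1)) (p' : M),
    MU e a ∧ IsProj p' ∧ p' * a l l = p' ∧ p = ∑ i ∈ T, a i i + p'

/-- AVG (uses CYC, NMX). Proof: CYC with `n` such that `1 / (n + 1) ≤ ε`. For `j : Fin (n + 1)` let `w j = ∑ i, a (i + j) i` (cyclic
addition): `star (w j) * w j = e = w j * star (w j)`, `w j * a i i * star (w j) = a (i + j) (i + j)`. The average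
`(n+1)⁻¹ ∑ j, w j * p * star (w j) = (|T| / (n+1)) • e + (n+1)⁻¹ • ∑ j, w j * p' * star (w j)`; the last sum is an orthogonal sum of
contractions below `a (l + j) (l + j)`, its norm is at most one (NMX). And `p - w j * p * star (w j) = [X, Y]` with `X = p * star (w j)`, `Y = w j`; with
real and imaginary parts `X = X₁ + i X₂`, `Y = Y₁ + i Y₂`, since the left side is self-adjoint and `[X₁, Y₁] - [X₂, Y₂]` is skew-adjoint:
`p - w j p w j* = i [X₁, Y₂] + i [X₂, Y₁]`. So `p - t e` is within `ε` of `∑ j, i [(n+1)⁻¹ X₁ j, Y₂ j] + i [(n+1)⁻¹ X₂ j, Y₁ j]`,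
`t = |T| / (n + 1)`; all elements are in `e M e`. -/
def Stmt_AVG : Prop := ∀ (M : Type u) [CStarAlgebra M] [TVN M] [FactorII M] (e p : M), IsProj e → IsProj p → p * e = p →
  ∀ ε : ℝ, 0 < ε → ∃ (t : ℝ) (J : ℕ) (a b : Fin J → M),
    (∀ j, IsSelfAdjoint (a j) ∧ e * a j = a j ∧ a j * e = a j ∧ IsSelfAdjoint (b j) ∧ e * b j = b j ∧ b j * e = b j) ∧
    ‖p - (t : ℂ) • e - ∑ j, Complex.I • (a j * b j - b j * a j)‖ ≤ ε

/-- IDN. Identities for `off`. Proof: multiply out, with `c 0 1 * c 0 1 = 0`, `c 0 1 * c 1 0 = c 0 0`, `c 1 0 * c 0 1 = c 1 1`, `c 0 1 * y = 0` and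
`y * c 1 0 = 0` for `y` in the corner of `c 0 0`; the third: `1 = c 0 0 + c 1 1` on both sides of `h`. -/
def Stmt_IDN : Prop := ∀ (Q : Type u) [CStarAlgebra Q] (c : Fin 2 → Fin 2 → Q), MU 1 c →
  (∀ y, IsSelfAdjoint y → c 0 0 * y = y → y * c 0 0 = y →
    Complex.I • (off c ((-(Complex.I / 2)) • y) * off c (c 0 0) - off c (c 0 0) * off c ((-(Complex.I / 2)) • y)) =
      y - c 1 0 * y * c 0 1) ∧
  (∀ a b, IsSelfAdjoint a → IsSelfAdjoint b → c 0 0 * a = a → a * c 0 0 = a → c 0 0 * b = b → b * c 0 0 = b →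
    Complex.I • (off c a * off c b - off c b * off c a) =
      Complex.I • (a * b - b * a) + c 1 0 * (Complex.I • (a * b - b * a)) * c 0 1) ∧
  (∀ h, IsSelfAdjoint h → h = c 0 0 * h * c 0 0 + c 1 0 * (c 0 1 * h * c 1 0) * c 0 1 + off c (c 0 0 * h * c 1 0))

/-- DPX (uses LIA, LIB, AVG, SAD, IDN). Write `dp x = x + c 1 0 * x * c 0 1`: linear, `‖dp x‖ ≤ 2 ‖x‖`, `dp (c 0 0) = 1`. By IDN (2) and LIB,
`dp (i [a, b]) ∈ Hc G` for self-adjoint `a`, `b` in the corner. For a projection `p ≤ c 0 0`: AVG: `dp p` is a norm limit of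
`t • 1 + ∑ dp (i [a j, b j]) ∈ Hc G`, closed (LIA). For `x` self-adjoint in the corner: SAD for `h = x`: `c 0 0` commutes with `x`, so with the `p j`,
`p j * c 0 0` is a projection `≤ c 0 0`, and `x = x * c 0 0` is within `ε` of `∑ θ j • (p j * c 0 0)`; so `dp x` is a limit of elements of `Hc G`. -/
def Stmt_DPX : Prop := ∀ (Q : Type u) [CStarAlgebra Q] [TVN Q] [FactorII Q] (c : Fin 2 → Fin 2 → Q), MU 1 c →
  ∀ G : Set Q, UGrp G → (1 : Q) ∈ Hc G → (∀ x, c 0 0 * x = x → x * c 0 0 = x → off c x ∈ Hc G) →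
  ∀ x : Q, IsSelfAdjoint x → c 0 0 * x = x → x * c 0 0 = x → x + c 1 0 * x * c 0 1 ∈ Hc G

/-- ALL (uses LIA, LIB, IDN, DPX). Proof: IDN (3): `h = x + c 1 0 * y * c 0 1 + off z` with `x = c 0 0 * h * c 0 0`, `y = c 0 1 * h * c 1 0` self-adjoint in
the corner, `z = c 0 0 * h * c 1 0` in the corner. `x + c 1 0 * y * c 0 1 = dp ((x + y) / 2) + dm ((x - y) / 2)`, `dm v = v - c 1 0 * v * c 0 1 ∈ Hc G` by IDN
(1) and LIB (`off` of elements of the corner is in `Hc G`). -/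
def Stmt_ALL : Prop := ∀ (Q : Type u) [CStarAlgebra Q] [TVN Q] [FactorII Q] (c : Fin 2 → Fin 2 → Q), MU 1 c →
  ∀ G : Set Q, UGrp G → (1 : Q) ∈ Hc G → (∀ x, c 0 0 * x = x → x * c 0 0 = x → off c x ∈ Hc G) →
  ∀ h : Q, IsSelfAdjoint h → h ∈ Hc G

/-- OFF (uses JNS, JDS, AMP, LIA). Write `e = c 0 0`, `U = am c u = u + c 1 0 * u * c 0 1` (Haar by AMP), `G = {γ | Gp 1 U γ}`: `UGrp G` by JNS with
`p = 1` (`HaarU.isHaarIn`). `1 ∈ Hc G`: `exp (i t)` is a scalar of modulus one and commutes with `U`, JNS (3). Let `g` with `Gp e u g` and `z : ℂ`.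
`D = g + c 1 1` is unitary and in `G`: `D * U * star D = g u g* + c 1 0 * u * c 0 1` and JDS with `p = e`, `q = c 1 1` (`c 1 0 * u * c 0 1` is Haar in
`c 1 1`, the second chain is constant, the sum of the projections is `1`). `K = off (z • e) = z • c 0 1 + conj z • c 1 0` is self-adjoint and commutes
with `U` (`AMP`), so `exp (i t K)` is unitary and commutes with `U`, it is in `G`; `D K D* = off (z • g)` (`D * c 0 1 = g * c 0 1`,
`c 0 1 * star D = c 0 1`), `exp (i t D K D*) = D exp (i t K) D* ∈ G`. So `off (z • g) ∈ Hc G`. `off` is additive, so by `Submodule.span_induction` (for the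
predicate: for all `z`, `off (z • x) ∈ Hc G`) and LIA `off x ∈ Hc G` for all `x` in the span. -/
def Stmt_OFF : Prop := ∀ (Q : Type u) [CStarAlgebra Q] [TVN Q] (c : Fin 2 → Fin 2 → Q), MU 1 c →
  ∀ u : Q, IsHaarIn (c 0 0) u →
  (∀ x, c 0 0 * x = x → x * c 0 0 = x → x ∈ Submodule.span ℂ {g : Q | Gp (c 0 0) u g}) →
  UGrp {γ : Q | Gp 1 (am (n := 1) c u) γ} ∧ (1 : Q) ∈ Hc {γ : Q | Gp 1 (am (n := 1) c u) γ} ∧
  ∀ x, c 0 0 * x = x → x * c 0 0 = x → off c x ∈ Hc {γ : Q | Gp 1 (am (n := 1) c u) γ}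

/-- DEN (uses EXA, ALL, OFF). Proof: EXA: `‖g - exp (i h)‖ ≤ ε / 2`, `exp (i h)` is in the closure of the stabilizer (`t = 1` in `Hc`; OFF, ALL),
`Metric.mem_closure_iff`. -/
def Stmt_DEN : Prop := ∀ (Q : Type u) [CStarAlgebra Q] [TVN Q] [FactorII Q] (c : Fin 2 → Fin 2 → Q), MU 1 c →
  ∀ u : Q, IsHaarIn (c 0 0) u →
  (∀ x, c 0 0 * x = x → x * c 0 0 = x → x ∈ Submodule.span ℂ {g : Q | Gp (c 0 0) u g}) →
  ∀ g : Q, star g * g = 1 → g * star g = 1 → ∀ ε : ℝ, 0 < ε →
  ∃ γ : Q, Gp 1 (am (n := 1) c u) γ ∧ ‖γ - g‖ < ε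

/-! ## Part E: corners of the ultrapower, and the theorem -/

/-- UPC. The ultrapower of a corner map. Proof: for `x : Sq K` let `φ∘x : Sq M` (bounded: `‖φ y‖ ≤ ‖y‖`, `NonUnitalStarAlgHom.norm_apply_le`).
`toUP x = toUP x'` implies `toUP (φ∘x) = toUP (φ∘x')` (`toUP_eq_iff`, `CornerMap.n2_le`), so (choose lifts, `toUP_surjective`) there is a map `Φ` with
`Φ (toUP x) = toUP (φ∘x)`, a non unital star homomorphism. `proj`: `isProj_iU`. `inj`: `CornerMap.n2_sq` (`tau e > 0`). `one`, `corner`, `tr`: on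
sequences (`tendsto_tr_toUP`). `surj`: let `E = iU e`, `E z E = z`, `z = toUP y`, then `z = toUP (e y e)` and `e y_k e = φ (x k)` (`CornerMap.surj`), `x k` is
bounded: `‖x k‖ = ‖φ (x k)‖` (an injective star homomorphism is isometric: `NonUnitalStarAlgHom.norm_map`). -/
def Stmt_UPC : Prop := ∀ (K M : Type u) [CStarAlgebra K] [TVN K] [CStarAlgebra M] [TVN M] (𝒰 : Ultrafilter ℕ)
  [Fact ((𝒰 : Filter ℕ) ≤ atTop)] (φ : K →⋆ₙₐ[ℂ] M) (e : M), CornerMap φ e →
  ∃ Φ : UP K 𝒰 →⋆ₙₐ[ℂ] UP M 𝒰, CornerMap Φ (iU 𝒰 e)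

/-- TRS. Transfer of the span property from the big algebra to the corner. Proof: `IsHaarIn p x ↔ IsHaarIn (φ p) (φ x)` (`CornerMap.inj`,
`CornerMap.tr`, `CornerMap.pow`). An element `y` with `φ p * y = y = y * φ p` is `φ x` with `p * x = x = x * p` (`CornerMap.surj`: `e * y * e = y` as
`e * φ p = φ p`). So a chain of commuting Haar unitaries of `φ p` starting at `φ x` (`x` Haar in `p`) is the image of a chain starting at `x`:
`Jn (φ p) (φ x) Y` implies `Y = φ y` with `Jn p x y` (induction). So `Gp (φ p) (φ u) g` implies `g = φ g'` with `Gp p u g'`. For `x` in the corner of `p`,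
`φ x` is in the span of the `φ g'` (`Submodule.span_induction` for the predicate: `∃ x' ∈ span {g' | Gp p u g'}, φ x' = y`), and `φ` is injective. -/
def Stmt_TRS : Prop := ∀ (K M : Type u) [CStarAlgebra K] [TVN K] [CStarAlgebra M] [TVN M] (φ : K →⋆ₙₐ[ℂ] M) (e : M),
  CornerMap φ e → ∀ p u : K, IsProj p → IsHaarIn p u → IsHaarIn (φ p) (φ u) ∧
  ((∀ y : M, φ p * y = y → y * φ p = y → y ∈ Submodule.span ℂ {g : M | Gp (φ p) (φ u) g}) →
    ∀ x : K, p * x = x → x * p = x → x ∈ Submodule.span ℂ {g : K | Gp p u g})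

/-- HSP (uses FAC, SAA, SAB, SAC, UNE, ONE, AMP, SPN, UPC, TRS). Proof: `P = UP L 𝒰` is a factor (FAC), `Sat P` (SAA, SAB, SAC), all its Haar
unitaries are joined (ONE). `Φ : UP K 𝒰 → P` (UPC), `CornerMap Φ (iU e)`. `E = Φ (c 0 0)`: projection, `tau E = tau (iU e) * tau (c 0 0) = 1 / (2 (m + 1))`
(`CornerMap.tau_map`, `tr_iU`, AMP). UNE with `r = 1`, `e = E`, `n = 2 m + 1`: matrix units `a` with sum `1` and `a 0 0 = E`. TRS: `Φ u` is Haar in `E`;
SPN for `a` and `Φ u`; TRS. -/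
def Stmt_HSP : Prop := ∀ (K L : Type u) [CStarAlgebra K] [TVN K] [FactorII K] [CStarAlgebra L] [TVN L] [FactorII L]
  (𝒰 : Ultrafilter ℕ) [Fact ((𝒰 : Filter ℕ) ≤ atTop)] (φ : K →⋆ₙₐ[ℂ] L) (e : L) (m : ℕ), CornerMap φ e →
  tau e = 1 / ((m : ℝ) + 1) → OneOrbit L → ∀ c : Fin 2 → Fin 2 → UP K 𝒰, MU 1 c → ∀ u : UP K 𝒰, IsHaarIn (c 0 0) u →
  ∀ x, c 0 0 * x = x → x * c 0 0 = x → x ∈ Submodule.span ℂ {g : UP K 𝒰 | Gp (c 0 0) u g}

/-- FIN (uses FAC, SAA, UNX, AMP, JNS, DEN, HSP). Proof: `Q = UP K 𝒰` is a factor (FAC). UNX with `r = 1`, `n = 1`: `c`. `exists_halving noMin_empty`,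
`tree_limit`: a Haar unitary `x` of the corner `c 0 0`. `U = am c x` is Haar (AMP). SAA: `h U h* = u`, `k U k* = v`, `h`, `k` unitary. DEN (with HSP) for
`star h * k` and `ε / 3`: `γ` with `Gp 1 U γ`, `‖γ - star h * k‖ < ε / 3`. `w = h γ U γ* h*`: `Jn 1 U (γ U γ*)`, so `Jn 1 u w` by JNS (2) with `v = h`; `w` is Haar
(`HaarU.conj`), and `‖w - v‖ = ‖(h γ) U (h γ)* - k U k*‖ ≤ 2 ‖h γ - k‖ ≤ ε` (unitaries have norm at most one, `‖h (γ - h* k)‖ ≤ ‖γ - h* k‖`). -/
def Stmt_FIN : Prop := ∀ (K L : Type u) [CStarAlgebra K] [TVN K] [FactorII K] [CStarAlgebra L] [TVN L] [FactorII L]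
  (𝒰 : Ultrafilter ℕ) [Fact ((𝒰 : Filter ℕ) ≤ atTop)] (φ : K →⋆ₙₐ[ℂ] L) (e : L) (m : ℕ), CornerMap φ e →
  tau e = 1 / ((m : ℝ) + 1) → OneOrbit L → ∀ u v : UP K 𝒰, HaarU u → HaarU v → ∀ ε : ℝ, 0 < ε →
  ∃ w : UP K 𝒰, Jn 1 u w ∧ HaarU w ∧ ‖w - v‖ ≤ ε

/-- LFT. From the ultrapower to sequences. Proof: `u`, `v` are bounded, `mkSq u`, `mkSq v` give Haar unitaries `u'`, `v'` of `UP M 𝒰`
(`haarU_toUP_iff`, `mkSq_ev`); `w` from the hypothesis; `exists_lift_UP (w - v')`: `D : Sq M`, `‖D‖ ≤ ε`, `d k = D.ev k` (`Sq.norm_ev_le`). `mkSq v + D` represents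
`w`, so `v + d` is Haar. Chain: for `x y : Sq M` with `HaarU (toUP x)`, `Jn 1 (toUP x) (toUP y)` implies `ReflTransGen (Step 𝒰 tr) x.ev y.ev`: for
`toUP x = toUP y` one step (they commute, `commute_toUP_iff`), and for a longer chain lift the last but one element (`toUP_surjective`), induction. -/
def Stmt_LFT : Prop := ∀ (M : Type u) [CStarAlgebra M] [TVN M] (𝒰 : Ultrafilter ℕ) [Fact ((𝒰 : Filter ℕ) ≤ atTop)]
  (u v : ℕ → M) (ε : ℝ), IsHaarU 𝒰 (tr : M →ₗ[ℂ] ℂ) u → IsHaarU 𝒰 (tr : M →ₗ[ℂ] ℂ) v →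
  (∀ u' v' : UP M 𝒰, HaarU u' → HaarU v' → ∃ w : UP M 𝒰, Jn 1 u' w ∧ HaarU w ∧ ‖w - v'‖ ≤ ε) →
  ∃ d : ℕ → M, (∀ k, ‖d k‖ ≤ ε) ∧ IsHaarU 𝒰 (tr : M →ₗ[ℂ] ℂ) (fun k => v k + d k) ∧
    Relation.ReflTransGen (Step 𝒰 (tr : M →ₗ[ℂ] ℂ)) u (fun k => v k + d k)

/-- COR. A matrix algebra over `M` has one orbit. Proof: `h.rel₂ h' : Rel M M' (s / t)`. Let `m` with `s / t ≤ m + 1`, `L = Mt (m + 1) M` (with the
spectral order on `M`), `Rel.mat`: `Rel L M' (s / t / (m + 1))`, at most one, so `Rel.cornerMap_of_le_one` gives a corner map `M' → L` and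
`oneOrbit_of_corner` gives `OneOrbit L`. `cornerMap_sg (n := m + 1)` is the corner map `M → L`, of trace `1 / (m + 1)`. -/
def Stmt_COR : Prop := ∀ (N M M' : Type u) [CStarAlgebra N] [TVN N] [FactorII N] [CStarAlgebra M] [TVN M] [FactorII M]
  [CStarAlgebra M'] [TVN M'] [FactorII M'] (t s : ℝ), IsAmplification N (tr : N →ₗ[ℂ] ℂ) M t →
  IsAmplification N (tr : N →ₗ[ℂ] ℂ) M' s → OneOrbit M' →
  ∃ (L : Type u) (_ : CStarAlgebra L) (_ : TVN L) (_ : FactorII L) (φ : M →⋆ₙₐ[ℂ] L) (e : L) (m : ℕ),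
    CornerMap φ e ∧ tau e = 1 / ((m : ℝ) + 1) ∧ OneOrbit L

end ND

end SCO
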