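import Pool.Agent.Work.MP_52dd0f_nd.Interface

/-!
# THEOREM ND+ (double logarithmic chain length), MP_52dd0f_an: the blocks of part 2

`theorem p_X (hA : Stmt_A.{u}) ... : Stmt_X.{u}` (with `universe u`; Stmt_RRD has no universe). All blocks of Interface.lean may be used as
hypotheses only where the column uses says so.
-/

set_option autoImplicit false
set_option linter.unusedSectionVars false

namespace SCO

open Filter Topology

universe u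

namespace ND

section Defs

variable {P : Type u} [CStarAlgebra P] [TrC P]

/-- `x` and `y` are joined by a chain of `n` steps between Haar unitaries of `p P p` -/
def JnN (p : P) (n : ℕ) (x y : P) : Prop :=
  ∃ w : ℕ → P, w 0 = x ∧ w n = y ∧ (∀ i, IsHaarIn p (w i)) ∧ ∀ i, w i * w (i + 1) = w (i + 1) * w i

/-- `g` is a unitary of `p P p` and `g u g*` is joined to `u` in `n` steps -/
structure GpN (p u : P) (n : ℕ) (g : P) : Prop where
  src : star g * g = p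
  rng : g * star g = p
  jn : JnN p n u (g * u * star g)

/-- the linear combinations of `m` elements of `GpN p u m`, with coefficients at most `m` -/
def Sm (p u : P) (m : ℕ) (x : P) : Prop :=
  ∃ (z : Fin m → ℂ) (g : Fin m → P), (∀ j, ‖z j‖ ≤ m ∧ GpN p u m (g j)) ∧ x = ∑ j, z j • g j

/-- good directions -/
def Gd (U : P) (n : ℕ) (h : P) : Prop :=
  IsSelfAdjoint h ∧ ∀ t : ℝ, GpN 1 U n (NormedSpace.exp (((t : ℂ) * Complex.I) • h))

/-- sums of good directions -/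
def Gs (U : P) (m : ℕ) (h : P) : Prop :=
  ∃ f : Fin m → P, (∀ j, Gd U m (f j) ∧ ‖f j‖ ≤ m) ∧ h = ∑ j, f j

end Defs

/-! ## Graded chains -/

/-- GJN. Proof: (1) `w' i = w (n - i)` for `i ≤ n`, constant `x` afterwards. (2) concatenation: `w i` for `i ≤ n`, then `w' (i - n)`.
(3) `v x v*` for all elements of the chain (see JNS in Interface.lean). (4) constant chain, `x u x* = u`. (5) `u → g u g*` in `n` steps, then
`g u g* → g h u h* g*` by (3) in `m` steps. (6) reverse the chain and conjugate by `star g` (`p * u * p = u`). (7) `w (min i n)`. (8) induction on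
`Relation.ReflTransGen` (all elements are Haar; length zero: constant chain). (9) induction on `n`. -/
def Stmt_GJN : Prop := ∀ (P : Type u) [CStarAlgebra P] [TVN P] (p : P), IsProj p →
  (∀ n x y, JnN p n x y → JnN p n y x) ∧
  (∀ n m x y z, JnN p n x y → JnN p m y z → JnN p (n + m) x z) ∧
  (∀ n x y v q, star v * v = p → v * star v = q → JnN p n x y → JnN q n (v * x * star v) (v * y * star v)) ∧
  (∀ n u x, IsHaarIn p u → star x * x = p → x * star x = p → x * u = u * x → GpN p u n x) ∧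
  (∀ n m u g h, GpN p u n g → GpN p u m h → GpN p u (n + m) (g * h)) ∧
  (∀ n u g, GpN p u n g → GpN p u n (star g)) ∧
  (∀ n m x y, n ≤ m → JnN p n x y → JnN p m x y) ∧
  (∀ x y, IsHaarIn p x → Jn p x y → ∃ n, JnN p n x y) ∧
  (∀ n x y, JnN p n x y → Jn p x y)

/-- GJD. Proof: `w i + x'`: sums of Haar unitaries of `p` and `q` are Haar in `p + q` (the products of elements of the two corners vanish,
`add_pow_of_orthogonal`; see JDS in Interface.lean), and they commute. -/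
def Stmt_GJD : Prop := ∀ (P : Type u) [CStarAlgebra P] [TVN P] (p q x y x' : P) (n : ℕ), IsProj p → IsProj q → p * q = 0 →
  IsHaarIn q x' → JnN p n x y → JnN (p + q) n (x + x') (y + x')

/-- CLS (uses SAT). The set `Sm p u m` is closed for the 2-norm in the ultrapower. Proof: take `x i` with `Sm`, `n2 (x - x i) ≤ 1 / (i + 1)`, with
coefficients `z i` in the compact set `closedBall 0 m ^ m`: a subsequence converges to `z`, `‖z j‖ ≤ m`; the `g j` are contractions, so for every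
`ε > 0` there are `g j` with `GpN p u m (g j)` and `n2 (x - ∑ z j • g j) ≤ ε`. SAT with unknowns `g j` and `y j i` (`i : Fin (m + 1)`) and the
functions (fixed lifts of `p`, `u`, `x`): `star g g - p`, `g star g - p`, `star y y - p`, `y star y - p`, `y j 0 * u * star (y j 0) - u`,
`y j m * u * star (y j m) - g j * u * star (g j)`, the commutators of `y j i * u * star (y j i)` and `y j (i+1) * u * star (y j (i+1))`,
`x - ∑ z j • g j`. Approximate solutions: the `g j` and their chains `w j i = h u h*` (third hypothesis), `y j i = h`; contractive lifts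
(`exists_lift_UP`). The exact solution gives chains `y j i * u * star (y j i)` of Haar unitaries of `p` (conjugates of `u` in the corner),
continued by the constant `y j m * u * star (y j m)`. -/
def Stmt_CLS : Prop := ∀ (M : Type u) [CStarAlgebra M] [TVN M] (𝒰 : Ultrafilter ℕ) [Fact ((𝒰 : Filter ℕ) ≤ atTop)]
  (p u : UP M 𝒰), IsProj p → IsHaarIn p u →
  (∀ w, IsHaarIn p w → ∃ h : UP M 𝒰, star h * h = p ∧ h * star h = p ∧ h * u * star h = w) →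
  ∀ (m : ℕ) (x : UP M 𝒰), (∀ ε : ℝ, 0 < ε → ∃ x', Sm p u m x' ∧ n2 (x - x') ≤ ε) → Sm p u m x

/-- BAI. Baire's theorem in the unit ball of a corner. Proof: the type of all `x` with `‖x‖ ≤ 1`, `p x = x = x p` and the distance
`n2 (x - y)` is a complete metric space (`exists_limit`, `norm_le_of_T2`, `T2.const_mul`, `T2.unique`; see `UG` in UGroup.lean for such an
instance: put it on a structure or a `def` type synonym), nonempty (`0`), the union of the closed sets `S m`; `nonempty_interior_of_iUnion_of_closed`. -/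
def Stmt_BAI : Prop := ∀ (P : Type u) [CStarAlgebra P] [TVN P] (p : P), IsProj p → ∀ S : ℕ → Set P,
  (∀ m x, (∀ ε : ℝ, 0 < ε → ∃ x' ∈ S m, n2 (x - x') ≤ ε) → x ∈ S m) →
  (∀ x, ‖x‖ ≤ 1 → p * x = x → x * p = x → ∃ m, x ∈ S m) →
  ∃ (m : ℕ) (x₀ : P) (r : ℝ), ‖x₀‖ ≤ 1 ∧ p * x₀ = x₀ ∧ x₀ * p = x₀ ∧ 0 < r ∧
    ∀ x, ‖x‖ ≤ 1 → p * x = x → x * p = x → n2 (x - x₀) < r → x ∈ S m

/-- UNI (uses GJN, BAI). Uniform span. Proof: every `x` in the corner is in `Sm p u m` for some `m`: write it as a finite combination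
(`Submodule.mem_span_iff_exists_finset_subset` or `Submodule.span_induction`), each `Gp` gives `GpN` for some length (GJN (8); `Gp.jn`), take `m` at
least the number of terms, the lengths (GJN (7)) and the moduli of the coefficients, pad with `z = 0`, `g = p` (GJN (4)). BAI with
`S m = {x | Sm p u m x}`: `m`, `x₀`, `r`; we may take `r ≤ 1`, let `s = r / 3`. For `x` in the unit ball of the corner `A = (1 - s) x₀ + s x` and
`B = (1 - s) x₀` are in the unit ball, within `2 s < r` of `x₀` in 2-norm, so both satisfy `Sm p u m`, and `x = s⁻¹ (A - B)` is a combination of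
`2 m` elements with coefficients at most `m / s`: `Sm p u m'` with `m' ≥ 2 m`, `m / s` (pad). -/
def Stmt_UNI : Prop := ∀ (P : Type u) [CStarAlgebra P] [TVN P] (p u : P), IsProj p → IsHaarIn p u →
  (∀ (m : ℕ) (x : P), (∀ ε : ℝ, 0 < ε → ∃ x', Sm p u m x' ∧ n2 (x - x') ≤ ε) → Sm p u m x) →
  (∀ x, p * x = x → x * p = x → x ∈ Submodule.span ℂ {g : P | Gp p u g}) →
  ∃ m : ℕ, ∀ x, p * x = x → x * p = x → ‖x‖ ≤ 1 → Sm p u m x

/-! ## Good directions. In this section `e = c 0 0`, `U = am c u = u + c 1 0 * u * c 0 1` -/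

/-- GSP (uses GJN). Proof: (0) `exp 0 = 1`. (1) pad with `0`; `GpN` is monotone in `n` (GJN (7)). (2) put the two families together, `Fin.append`,
lengths and norms are at most `m + m'`. (3) multiples: `Gd U m (f j)` implies `Gd U m (t • f j)`. (4) `D * exp (i t f) * star D = exp (i t D f D*)` (`D` is
unitary: `NormedSpace.exp_conj` or the series), `GpN` for the product (GJN (5), (6)), `‖D f D*‖ ≤ ‖f‖`. (5) `exp (i t h)` is unitary (`h` self-adjoint) and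
commutes with `U`, GJN (4). (6) the constant `w i`. -/
def Stmt_GSP : Prop := ∀ (P : Type u) [CStarAlgebra P] [TVN P] (U : P), HaarU U →
  (∀ m, Gs U m 0) ∧
  (∀ m m' h, m ≤ m' → Gs U m h → Gs U m' h) ∧
  (∀ m m' h h', Gs U m h → Gs U m' h' → Gs U (m + m') (h + h')) ∧
  (∀ (m T : ℕ) (t : ℝ) (h : P), |t| ≤ T → Gs U m h → Gs U (m * (T + 1)) ((t : ℂ) • h)) ∧
  (∀ m k h D, GpN 1 U k D → Gs U m h → Gs U (m + 2 * k) (D * h * star D)) ∧
  (∀ h, IsSelfAdjoint h → h * U = U * h → ‖h‖ ≤ 1 → Gs U 1 h)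

/-- OFG (uses GJN, GJD, AMP). Proof: `x = ∑ z j • g j` (`Sm`), so `off x = ∑ off (z j • g j)` (additive). For `g` with `GpN e u m g`, `D = g + c 1 1` is
unitary, `GpN 1 U m D`: `D U D* = g u g* + c 1 0 * u * c 0 1`, GJD with `x' = c 1 0 * u * c 0 1`, Haar in `q = c 1 1` (`e + c 1 1 = 1` by `MU.sum`).
`K = off (z • e) = z • c 0 1 + conj z • c 1 0` is self-adjoint and commutes with `U` (AMP), `exp (i t K)` is unitary and commutes with `U`, and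
`D K D* = off (z • g)` (`D * c 0 1 = g * c 0 1`, `c 0 1 * star D = c 0 1`), so `exp (i t off (z • g)) = D exp (i t K) D*` satisfies `GpN 1 U (2 m)` (GJN (4), (5),
(6)). `‖off (z • g)‖ ≤ 2 ‖z‖ ≤ 2 m`. So `m' = 2 m` (pad with `0`). -/
def Stmt_OFG : Prop := ∀ (Q : Type u) [CStarAlgebra Q] [TVN Q] (c : Fin 2 → Fin 2 → Q), MU 1 c → ∀ u : Q, IsHaarIn (c 0 0) u →
  ∀ m : ℕ, (∀ x, c 0 0 * x = x → x * c 0 0 = x → ‖x‖ ≤ 1 → Sm (c 0 0) u m x) →
  ∃ m' : ℕ, ∀ x, c 0 0 * x = x → x * c 0 0 = x → ‖x‖ ≤ 1 → Gs (am (n := 1) c u) m' (off c x)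

/-- DMG (uses GJN, AMP, GSP). Proof: `K = off (c 0 0) = c 0 1 + c 1 0` is self-adjoint, `K * K = 1`, commutes with `U`; `R = (1/√2) • (1 + i K)` is unitary and
commutes with `U`, so `GpN 1 U 0 R` (GJN (4)). For `y` self-adjoint in the corner, with `dm y = y - c 1 0 * y * c 0 1`: `K * off (i y) = - i dm y`,
`off (i y) * K = i dm y`, `K * off (i y) * K = - off (i y)`, so `R * off (i y) * star R = (1/2) (off + i K off - i off K + K off K) = dm y`. GSP (5) with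
`k = 0`. -/
def Stmt_DMG : Prop := ∀ (Q : Type u) [CStarAlgebra Q] [TVN Q] (c : Fin 2 → Fin 2 → Q), MU 1 c → ∀ u : Q, IsHaarIn (c 0 0) u →
  ∀ m : ℕ, (∀ x, c 0 0 * x = x → x * c 0 0 = x → ‖x‖ ≤ 1 → Gs (am (n := 1) c u) m (off c x)) →
  ∀ y, IsSelfAdjoint y → c 0 0 * y = y → y * c 0 0 = y → ‖y‖ ≤ 1 → Gs (am (n := 1) c u) m (y - c 1 0 * y * c 0 1)

/-- GYS (uses GJN, GJD, GSP). Proof: `s = ∑ z j • g j` (`Sm`, `‖s‖ ≤ 1`), and `y - s y s* = [y s*, s] = ∑ z j [y s*, g j] = ∑ (w j - g j w j g j*)`,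
`w j = z j • (y * star s * g j)`; taking self-adjoint parts (the left side is self-adjoint) `y - s y s* = ∑ (a j - g j a j g j*)`,
`a j = (w j + star (w j)) / 2`, self-adjoint in the corner, `‖a j‖ ≤ m`. With `dm v = v - c 1 0 * v * c 0 1` and `D = g j + c 1 1`, `GpN 1 U m D` (as in OFG):
`D * dm (a j) * star D = g j a j g j* - c 1 0 * a j * c 0 1`, so `a j - g j a j g j* = dm (a j) - D dm (a j) D*`. By the hypothesis for `a j / m` and GSP
(3), (4), (5) this is `Gs` of a parameter depending only on `m`, `m₁`; sum over `j : Fin m` (GSP (2), (3)). -/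
def Stmt_GYS : Prop := ∀ (Q : Type u) [CStarAlgebra Q] [TVN Q] (c : Fin 2 → Fin 2 → Q), MU 1 c → ∀ u : Q, IsHaarIn (c 0 0) u →
  ∀ m m₁ : ℕ, (∀ x, c 0 0 * x = x → x * c 0 0 = x → ‖x‖ ≤ 1 → Sm (c 0 0) u m x) →
  (∀ y, IsSelfAdjoint y → c 0 0 * y = y → y * c 0 0 = y → ‖y‖ ≤ 1 → Gs (am (n := 1) c u) m₁ (y - c 1 0 * y * c 0 1)) →
  HaarU (am (n := 1) c u) → ∃ m' : ℕ, ∀ y s, IsSelfAdjoint y → c 0 0 * y = y → y * c 0 0 = y → ‖y‖ ≤ 1 →
    star s * s = c 0 0 → s * star s = c 0 0 → Gs (am (n := 1) c u) m' (y - s * y * star s)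

/-- STR (uses GSP, IDN). Every self-adjoint contraction is a bounded sum of good directions. Proof: for `x` self-adjoint in the corner,
`‖x‖ ≤ 1`: `x = λ e + T`, `λ = tau x / tau e` (`|λ| ≤ 1`, `tau (x) ≤ tau e` in modulus, or `norm_tr_le_norm` in the corner: `tr x = tr (x e)`,
use `|tr x| ≤ ‖x‖ tau e`), `tr T = 0`, `‖T‖ ≤ 2`; the third hypothesis for `T / 2` gives `T = 2 (y - s y s*)` with `‖y‖ ≤ 2`, so `T` is a good sum (second
hypothesis for `y / 2`, GSP (4)). `c 1 0 * T * c 0 1 = T - dm T`, `dm T = 2 dm (T / 2)` good by the first. So for `h = x + c 1 0 * y * c 0 1 + off z` (IDN (3), `‖x‖, ‖y‖,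
‖z‖ ≤ 1`), `x = λ₁ e + T₁`, `y = λ₂ e + T₂`: `λ₁ e + λ₂ c 1 1 = ((λ₁ + λ₂) / 2) • 1 + ((λ₁ - λ₂) / 2) • dm e`, the scalar is good (GSP (6)), all parameters
depend only on `m`. -/
def Stmt_STR : Prop := ∀ (Q : Type u) [CStarAlgebra Q] [TVN Q] (c : Fin 2 → Fin 2 → Q), MU 1 c → ∀ u : Q,
  HaarU (am (n := 1) c u) → ∀ m : ℕ,
  (∀ x, c 0 0 * x = x → x * c 0 0 = x → ‖x‖ ≤ 1 → Gs (am (n := 1) c u) m (off c x)) →
  (∀ y, IsSelfAdjoint y → c 0 0 * y = y → y * c 0 0 = y → ‖y‖ ≤ 1 → Gs (am (n := 1) c u) m (y - c 1 0 * y * c 0 1)) →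
  (∀ y s, IsSelfAdjoint y → c 0 0 * y = y → y * c 0 0 = y → ‖y‖ ≤ 1 →
    star s * s = c 0 0 → s * star s = c 0 0 → Gs (am (n := 1) c u) m (y - s * y * star s)) →
  (∀ T, IsSelfAdjoint T → c 0 0 * T = T → T * c 0 0 = T → tr T = 0 → ‖T‖ ≤ 1 →
    ∃ y s : Q, IsSelfAdjoint y ∧ c 0 0 * y = y ∧ y * c 0 0 = y ∧ ‖y‖ ≤ 2 ∧ star s * s = c 0 0 ∧ s * star s = c 0 0 ∧
      T = y - s * y * star s) →
  ∃ m' : ℕ, ∀ h, IsSelfAdjoint h → ‖h‖ ≤ 1 → Gs (am (n := 1) c u) m' h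

/-! ## Self-adjoint elements of trace zero in the ultrapower -/

/-- RRD. Rearrangement with bounded partial sums. Proof: greedy: if the partial sum is `≥ 0` take next a remaining term `≤ 0` (there is one,
since the remaining terms sum to minus the partial sum), if it is `< 0` take a remaining term `≥ 0`. By induction on the number of remaining
terms (for finsets, with a list or an enumeration), then a permutation of `Fin n`. -/
def Stmt_RRD : Prop := ∀ (n : ℕ) (x : Fin n → ℝ) (B : ℝ), 0 ≤ B → (∀ i, |x i| ≤ B) → ∑ i, x i = 0 →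
  ∃ σ : Equiv.Perm (Fin n), ∀ k : ℕ, |∑ i ∈ Finset.univ.filter (fun i : Fin n => (i : ℕ) < k), x (σ i)| ≤ B

/-- SAO (uses DEC). As SAD in Interface.lean, with orthogonal projections and bounded coefficients. Proof: `k = cfc (fun t : ℝ => √(1 - t^2)) h`,
`v = h + I • k` is unitary, `h = (1/2) (v + star v)`; DEC for `v`, `θ j = re (lam j)`. -/
def Stmt_SAO : Prop := ∀ (M : Type u) [CStarAlgebra M] [TVN M] (h : M), IsSelfAdjoint h → ‖h‖ ≤ 1 → ∀ ε : ℝ, 0 < ε →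
  ∃ (J : ℕ) (θ : Fin J → ℝ) (p : Fin J → M), (∀ j, |θ j| ≤ 1) ∧ (∀ j, IsProj (p j)) ∧ (∀ i j, i ≠ j → p i * p j = 0) ∧
    ∑ j, p j = 1 ∧ (∀ j y, h * y = y * h → y * p j = p j * y) ∧ ‖h - ∑ j, ((θ j : ℝ) : ℂ) • p j‖ ≤ ε

/-- PAR. Partition in equal pieces, almost adapted to a given partition. Proof: `c = tau e / n > 0`, `k j = ⌊tau (p j) / c⌋₊`,
`exists_tau_eq` (`S = ∅`) gives `q j ≤ p j` with `tau (q j) = k j * c`, `exists_partition` cuts `q j` in `k j` pieces (`f = some j`) and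
`e - ∑ q j`, of trace `(n - ∑ k j) * c`, in `n - ∑ k j ≤ J` pieces (`f = none`; `tau (p j) < (k j + 1) c`). Or by induction on `J`. (Indices:
`Σ j, Fin (k j)` and `Fin (n - ∑ k j)` together are equivalent to `Fin n`, by cardinality.) -/
def Stmt_PAR : Prop := ∀ (M : Type u) [CStarAlgebra M] [TVN M] [FactorII M] (e : M), IsProj e → e ≠ 0 →
  ∀ (J : ℕ) (p : Fin J → M), (∀ j, IsProj (p j)) → (∀ i j, i ≠ j → p i * p j = 0) → ∑ j, p j = e → ∀ n : ℕ, 0 < n →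
  ∃ (r : Fin n → M) (f : Fin n → Option (Fin J)), (∀ i, IsProj (r i)) ∧ (∀ i j, i ≠ j → r i * r j = 0) ∧ ∑ i, r i = e ∧
    (∀ i, tau (r i) = tau e / n) ∧ (∀ i j, f i = some j → r i * p j = r i) ∧
    (Finset.univ.filter (fun i => f i = none)).card ≤ J

/-- CSH (uses RRD, NMX). The cyclic shift. Proof: RRD with `B = 2`: `σ`, partial sums `S k = ∑_{i ≤ k} x (σ i)`, `|S k| ≤ 2`, `S (n-1) = 0`. Partial
isometries `v k` with `star (v k) * v k = r (σ 0)`, `v k * star (v k) = r (σ k)` (`equiv_of_tau`); `y = ∑ S k • r (σ k)`, `s = ∑ v (k + 1) * star (v k)`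
(cyclic), a unitary of the corner with `s * r (σ k) * star s = r (σ (k + 1))`, so `y - s y s* = ∑ (S k - S (k - 1)) • r (σ k) = ∑ x (σ k) • r (σ k)`
(for `k = 0`: `S 0 - S (n-1) = x (σ 0)`). `‖y‖ ≤ 2` by NMX. (`n = 0` gives `e = 0`: `y = s = 0`.) -/
def Stmt_CSH : Prop := ∀ (M : Type u) [CStarAlgebra M] [TVN M] [FactorII M] (e : M) (n : ℕ) (r : Fin n → M) (x : Fin n → ℝ),
  (∀ i, IsProj (r i)) → (∀ i j, i ≠ j → r i * r j = 0) → ∑ i, r i = e → (∀ i j, tau (r i) = tau (r j)) →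
  (∀ i, |x i| ≤ 2) → ∑ i, x i = 0 →
  ∃ y s : M, IsSelfAdjoint y ∧ e * y = y ∧ y * e = y ∧ ‖y‖ ≤ 2 ∧ star s * s = e ∧ s * star s = e ∧
    y - s * y * star s = ∑ i, ((x i : ℝ) : ℂ) • r i

/-- TRA (uses SAO, PAR, CSH). Proof: if `e = 0` then `T = 0`, `y = s = 0`. SAO for `T` and `δ`: `p j` commute with `T`, hence with `e` (`e` commutes with
`T`), `T₂ = ∑ θ j • (p j * e)`, `‖T - T₂‖ ≤ δ` (`T e = T`). PAR for the projections `p j * e`: `r`, `f`; `T₁ = ∑ i, θ' i • r i` with `θ' i = θ j` if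
`f i = some j`, `0` if `none`. `T₂ - T₁ = T₂ * R` with `R = ∑_{f i = none} r i`, so `n2 (T₂ - T₁) ≤ n2 R = √(tau R) ≤ √(J / n)` (`tau R ≤ J tau e / n`,
`‖T₂‖ ≤ 1`). `θ₀ = (∑ θ' i) / n`: `tau e * θ₀ = tr T₁`, `|tr T₁| ≤ |tr T| + n2 (T - T₂) + n2 (T₂ - T₁) ≤ δ + √(J / n)`. CSH with
`x i = θ' i - θ₀` (`|x i| ≤ 2`): `y - s y s* = T₁ - θ₀ • e`. So `n2 (T - (y - s y s*)) ≤ δ + √(J / n) + (δ + √(J / n)) / tau e ≤ ε` for small `δ`, then
large `n` (`J` depends on `δ` only). -/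
def Stmt_TRA : Prop := ∀ (M : Type u) [CStarAlgebra M] [TVN M] [FactorII M] (e T : M), IsProj e → IsSelfAdjoint T →
  e * T = T → T * e = T → tr T = 0 → ‖T‖ ≤ 1 → ∀ ε : ℝ, 0 < ε →
  ∃ y s : M, IsSelfAdjoint y ∧ e * y = y ∧ y * e = y ∧ ‖y‖ ≤ 2 ∧ star s * s = e ∧ s * star s = e ∧
    n2 (T - (y - s * y * star s)) ≤ ε

/-- TRX (uses FAC, SAT, TRA). Proof: SAT with the two unknowns `y' = y / 2` and `s` and the functions `star y' - y'`, `e y' - y'`, `y' e - y'`,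
`star s * s - e`, `s * star s - e`, `T - (2 y' - 2 s y' s*)` (fixed lifts of `e`, `T`); approximate solutions: contractive lifts of TRA in the factor
`UP M 𝒰` (FAC). -/
def Stmt_TRX : Prop := ∀ (M : Type u) [CStarAlgebra M] [TVN M] [FactorII M] (𝒰 : Ultrafilter ℕ)
  [Fact ((𝒰 : Filter ℕ) ≤ atTop)] (e T : UP M 𝒰), IsProj e → IsSelfAdjoint T →
  e * T = T → T * e = T → tr T = 0 → ‖T‖ ≤ 1 →
  ∃ y s : UP M 𝒰, IsSelfAdjoint y ∧ e * y = y ∧ y * e = y ∧ ‖y‖ ≤ 2 ∧ star s * s = e ∧ s * star s = e ∧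
    T = y - s * y * star s

/-! ## The Newton iteration -/

/-- PRE. Proof: for a finite family (list) of elements `a j` of a unital Banach algebra, with `s = ∑ ‖a j‖`: the product `E` of the `exp (a j)`
satisfies `‖E - 1 - ∑ a j‖ ≤ exp s - 1 - s` (induction: `E' = E exp a`, `E' - 1 - (A + a) = (E - 1 - A) exp a + (1 + A)(exp a - 1 - a) + A a`, with
`‖exp a‖ ≤ exp ‖a‖`, `‖exp a - 1 - a‖ ≤ exp ‖a‖ - 1 - ‖a‖`, `‖A‖ ≤ s`, and
`(exp s - 1 - s) exp r + (1 + s)(exp r - 1 - r) + s r = exp (s + r) - 1 - (s + r)`), and `exp s - 1 - s ≤ s²` for `0 ≤ s ≤ 1`. -/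
def Stmt_PRE : Prop := ∀ (P : Type u) [CStarAlgebra P] (n : ℕ) (a : Fin n → P), ∑ j, ‖a j‖ ≤ 1 →
  ‖(List.ofFn (fun j => NormedSpace.exp (a j))).prod - 1 - ∑ j, a j‖ ≤ (∑ j, ‖a j‖) ^ 2

/-- NST (uses GJN, PRE). One Newton step. Proof: `C = 2 m^4 + 2`, `n₁ = m * m`. Let `δ = ‖g - 1‖`. If `δ * m^2 > 1` or `δ = 0` take `γ = 1` (`δ ≤ C δ²`, resp.
`0`). Else `h = (g - star g) / (2 i)` is self-adjoint, `‖h‖ ≤ δ`, `g - 1 - i h = (g + star g) / 2 - 1 = - star (g - 1) * (g - 1) / 2`, so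
`‖g - 1 - i h‖ ≤ δ² / 2`. The hypothesis for `h / δ`: `h = ∑ δ • f j`, `Gd U m (f j)`, `‖f j‖ ≤ m`. `γ` = the product of the `exp (i δ f j)`:
`GpN 1 U (m * m) γ` (GJN (5), (4) for the empty product) and `‖γ - 1 - i h‖ ≤ (m² δ)²` (PRE). So `‖g - γ‖ ≤ (1/2 + m⁴) δ²`, and
`‖g * star γ - 1‖ = ‖g - γ‖` (`γ` unitary; `≤` suffices). -/
def Stmt_NST : Prop := ∀ (Q : Type u) [CStarAlgebra Q] [TVN Q] (U : Q), HaarU U → ∀ m : ℕ,
  (∀ h, IsSelfAdjoint h → ‖h‖ ≤ 1 → Gs U m h) →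
  ∃ n₁ C : ℕ, 1 ≤ C ∧ ∀ g : Q, star g * g = 1 → g * star g = 1 →
    ∃ γ : Q, GpN 1 U n₁ γ ∧ ‖g * star γ - 1‖ ≤ C * ‖g - 1‖ ^ 2

/-- NIT (uses GJN). The iteration. Proof: induction on `k`: `k = 0`: `γ = 1`. Step: apply the hypothesis to `g * star γ`: `γ'`, and `γ' * γ`
works: `g * star (γ' * γ) = (g * star γ) * star γ'`, `C * ‖g γ* γ'* - 1‖ ≤ C² ‖g γ* - 1‖² ≤ ((C ‖g - 1‖)^(2^k))²`; GJN (5) (adjust the order of the
sum of the lengths). -/
def Stmt_NIT : Prop := ∀ (Q : Type u) [CStarAlgebra Q] [TVN Q] (U : Q), HaarU U → ∀ n₁ C : ℕ, 1 ≤ C →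
  (∀ g : Q, star g * g = 1 → g * star g = 1 → ∃ γ : Q, GpN 1 U n₁ γ ∧ ‖g * star γ - 1‖ ≤ C * ‖g - 1‖ ^ 2) →
  ∀ (k : ℕ) (g : Q), star g * g = 1 → g * star g = 1 →
    ∃ γ : Q, GpN 1 U (k * n₁) γ ∧ C * ‖g * star γ - 1‖ ≤ (C * ‖g - 1‖) ^ (2 ^ k)

/-- EXB (uses NMX, DEC). As EXA in Interface.lean, with a bound: `θ j = arg (lam j)` is in `(-π, π]`, and `‖∑ θ j • p j‖ ≤ π ≤ 4` by NMX. -/
def Stmt_EXB : Prop := ∀ (M : Type u) [CStarAlgebra M] [TVN M] (v : M), star v * v = 1 → v * star v = 1 →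
  ∀ ε : ℝ, 0 < ε → ∃ h : M, IsSelfAdjoint h ∧ ‖h‖ ≤ 4 ∧ ‖v - NormedSpace.exp (Complex.I • h)‖ ≤ ε

/-- DNR (uses GJN, EXB). The rate. Proof: let `δ = 1 / (2 C)`. `L` a natural number with `‖exp ((i / L) h) - 1‖ ≤ δ` for all `‖h‖ ≤ 4`
(`‖exp a - 1‖ ≤ exp ‖a‖ - 1` or `≤ ‖a‖` for skew-adjoint `a`). EXB: `‖g - exp (i h)‖ ≤ δ`, so `g = g₀ * e^L`, `e = exp ((i / L) h)`, `g₀ = g * exp (- i h)`,
a product of `L + 1` unitaries within `δ` of `1`. For each of them the hypothesis gives `γ i` with `GpN 1 U (k n₁)` and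
`‖g i - γ i‖ ≤ ‖g i * star (γ i) - 1‖ ≤ (1/2)^(2^k)`; the products differ by at most `(L + 1) (1/2)^(2^k)`. Take `k = n + k₀` with `L + 1 ≤ 2^(2^k₀ - 1)`:
`(L + 1) (1/2)^(2^(n + k₀)) ≤ (1/2)^(2^n)` (`2^(n + k₀) ≥ 2^n + 2^k₀ - 1`). The length is `(L + 1) (n + k₀) n₁ ≤ C' (n + 1)` with
`C' = (L + 1) (k₀ + 1) n₁`; GJN (7) for the chain, `GpN` is monotone. -/
def Stmt_DNR : Prop := ∀ (Q : Type u) [CStarAlgebra Q] [TVN Q] (U : Q), HaarU U → ∀ n₁ C : ℕ, 1 ≤ C →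
  (∀ (k : ℕ) (g : Q), star g * g = 1 → g * star g = 1 →
    ∃ γ : Q, GpN 1 U (k * n₁) γ ∧ C * ‖g * star γ - 1‖ ≤ (C * ‖g - 1‖) ^ (2 ^ k)) →
  ∃ C' : ℕ, ∀ (n : ℕ) (g : Q), star g * g = 1 → g * star g = 1 →
    ∃ γ : Q, GpN 1 U (C' * (n + 1)) γ ∧ ‖γ - g‖ ≤ (1 / 2 : ℝ) ^ (2 ^ n)

/-- CON (uses GJN). Proof: `h U h* = u`, `k U k* = v` (third hypothesis); the second for `star h * k` and `n + 1`: `γ`. `w = h γ U γ* h*`: the chain from `U` to
`γ U γ*` conjugated by `h` (GJN (3)) leads from `u` to `w`, its length is `C' (n + 2) ≤ 2 C' (n + 1)` (GJN (7)), and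
`‖w - v‖ ≤ 2 ‖h γ - k‖ ≤ 2 ‖γ - h* k‖ ≤ 2 (1/2)^(2^(n+1)) ≤ (1/2)^(2^n)`. -/
def Stmt_CON : Prop := ∀ (Q : Type u) [CStarAlgebra Q] [TVN Q] (U : Q), HaarU U → ∀ C' : ℕ,
  (∀ (n : ℕ) (g : Q), star g * g = 1 → g * star g = 1 →
    ∃ γ : Q, GpN 1 U (C' * (n + 1)) γ ∧ ‖γ - g‖ ≤ (1 / 2 : ℝ) ^ (2 ^ n)) →
  (∀ v : Q, HaarU v → ∃ h : Q, star h * h = 1 ∧ h * star h = 1 ∧ h * U * star h = v) →
  ∀ (n : ℕ) (u v : Q), HaarU u → HaarU v →
    ∃ w : Q, JnN 1 (2 * C' * (n + 1)) u w ∧ ‖w - v‖ ≤ (1 / 2 : ℝ) ^ (2 ^ n)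

/-- QAL (uses FAC, SAA, SAB, SAC, UNX, AMP, CNC, GJN, CLS, UNI, GSP, OFG, DMG, GYS, TRX, STR, NST, NIT, DNR, CON). Assembly in
the ultrapower. Proof: `Q = UP K 𝒰` is a factor (FAC) with `Sat Q` (SAA, SAB, SAC). UNX with `r = 1`, `n = 1`: `c`. A Haar unitary `u₀` of the corner `c 0 0`
(`exists_halving noMin_empty`, `tree_limit`). `U = am c u₀` is Haar (AMP). CNC: all Haar unitaries of the corner are conjugate, so CLS applies, with
the last hypothesis (span) UNI gives `m`, then OFG, DMG, GYS, (take the maximum of the parameters: the second item of GSP) TRX, STR, NST, NIT, DNR, CON (with SAA), `C = 2 C' + 1`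
(the seventh item of GJN). -/
def Stmt_QAL : Prop := ∀ (K : Type u) [CStarAlgebra K] [TVN K] [FactorII K]
  (𝒰 : Ultrafilter ℕ) [Fact ((𝒰 : Filter ℕ) ≤ atTop)],
  (∀ c : Fin 2 → Fin 2 → UP K 𝒰, MU 1 c → ∀ u : UP K 𝒰, IsHaarIn (c 0 0) u →
    ∀ x, c 0 0 * x = x → x * c 0 0 = x → x ∈ Submodule.span ℂ {g : UP K 𝒰 | Gp (c 0 0) u g}) →
  ∃ C : ℕ, 1 ≤ C ∧ ∀ (n : ℕ) (u v : UP K 𝒰), HaarU u → HaarU v →
    ∃ w : UP K 𝒰, JnN 1 (C * (n + 1)) u w ∧ ‖w - v‖ ≤ (1 / 2 : ℝ) ^ (2 ^ n)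

/-- LFR. From the ultrapower to sequences, with the length. Proof: `mkSq u`, `mkSq v` give Haar unitaries `u'`, `v'` of `UP M 𝒰` (`haarU_toUP_iff`); the
hypothesis gives `w'` and a chain `z i` (`i ≤ L`) from `u'` to `w'`. `exists_lift_UP (w' - v')`: `D`, `‖D‖ ≤ ε`. `w 0 = u`, `w L = v + D.ev` (`1 ≤ L`), `w i` =
the terms of a lift of `z i` for `0 < i < L`, `w i = w L` for `i > L`. Each `toUP` of `w i` (bounded, `mkSq`) is `z i`; `Step` by `haarU_toUP_iff` and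
`commute_toUP_iff`. -/
def Stmt_LFR : Prop := ∀ (M : Type u) [CStarAlgebra M] [TVN M] (𝒰 : Ultrafilter ℕ) [Fact ((𝒰 : Filter ℕ) ≤ atTop)]
  (u v : ℕ → M) (ε : ℝ) (L : ℕ), 1 ≤ L → IsHaarU 𝒰 (tr : M →ₗ[ℂ] ℂ) u → IsHaarU 𝒰 (tr : M →ₗ[ℂ] ℂ) v →
  (∀ u' v' : UP M 𝒰, HaarU u' → HaarU v' → ∃ w : UP M 𝒰, JnN 1 L u' w ∧ ‖w - v'‖ ≤ ε) →
  ∃ w : ℕ → ℕ → M, w 0 = u ∧ (∀ k, ‖w L k - v k‖ ≤ ε) ∧
    ∀ i < L, Step 𝒰 (tr : M →ₗ[ℂ] ℂ) (w i) (w (i + 1))

end ND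

end SCO
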