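import Pool.Agent.Work.MP_52dd0f_nd.Interface

/-!
# THEOREM SIM, MP_52dd0f_an: exact chains up to similarity (second clause of THEOREM ND), the blocks

If `N^s` has one orbit for one `s`, then in every amplification `M` any two Haar unitaries of the ultrapower are joined by a chain of
commuting elements, each of which is SIMILAR (by an invertible element of the ultrapower) to a Haar unitary.
`theorem p_X (hA : Stmt_A.{u}) ... : Stmt_X.{u}` with `universe u`, files `Work/MP_52dd0f_nd/B_X.lean`, import `InterfaceS`, namespace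
`SCO.ND`, auxiliary lemmas with the prefix `X_`.  The library (`Work/MP_52dd0f_an`, `Work/MP_52dd0f_an_helper59`) may be used.
-/

set_option autoImplicit false
set_option linter.unusedSectionVars false

namespace SCO

open Filter Topology

universe u

namespace ND

section Algebra

variable {P : Type u} [CStarAlgebra P]

/-- `h` is the inverse of `g` -/
structure Iv (g h : P) : Prop where
  r : g * h = 1
  l : h * g = 1

/-- `r` is the inverse of `q` in the corner `e P e` -/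
structure IvC (e q r : P) : Prop where
  ql : e * q = q
  qr : q * e = q
  rl : e * r = r
  rr : r * e = r
  m1 : q * r = e
  m2 : r * q = e

/-- the group generated by the elementary matrices `1 + x c 0 1` and `1 + c 1 0 x`, `x` in the corner of `c 0 0` -/
def EE (c : Fin 2 → Fin 2 → P) : Submonoid P :=
  Submonoid.closure {y : P | ∃ x : P, c 0 0 * x = x ∧ x * c 0 0 = x ∧ (y = 1 + x * c 0 1 ∨ y = 1 + c 1 0 * x)}

variable [TrC P]

/-- `x` is similar to a Haar unitary -/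
def Smh (x : P) : Prop := ∃ g h w : P, Iv g h ∧ HaarU w ∧ x = g * w * h

/-- `x`, `y` are joined by a chain of commuting elements which are similar to Haar unitaries -/
def Js (x y : P) : Prop := Relation.ReflTransGen (fun x y => Smh x ∧ Smh y ∧ x * y = y * x) x y

/-- the invertible elements which keep the class of `U` -/
def Gsm (U : P) : Set P := {g | ∃ h : P, Iv g h ∧ Js U (g * U * h)}

end Algebra

/-- SJB (uses nothing). Basic properties of `Js` and `Gsm`. Proof: (1) the relation is symmetric. (2) `Smh x` implies `Smh (g * x * h)`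
(`x = g' * w * h'`, `g * x * h = (g * g') * w * (h' * h)`), and `(g x h)(g y h) = g x y h` as `h * g = 1`; induction on the chain. (3) a Haar
unitary is similar to itself (`g = h = 1`; `IsHaarIn.haarU`). (4) `g * U * h = U * g * h = U`, the chain is trivial. (5) `Js U (g' U h')` gives
by (2) `Js (g U h) (g g' U h' h)`, and `Js U (g U h)`. (6) the inverse is unique; (2) for `h`, `g` gives `Js (h U g) (h g U h g) = Js (h U g) U`, then
(1). -/
def Stmt_SJB : Prop := ∀ (P : Type u) [CStarAlgebra P] [TVN P],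
  (∀ x y : P, Js x y → Js y x) ∧
  (∀ x y g h : P, Iv g h → Js x y → Js (g * x * h) (g * y * h)) ∧
  (∀ x y : P, Jn 1 x y → Js x y) ∧
  (∀ U g h : P, Iv g h → g * U = U * g → g ∈ Gsm U) ∧
  (∀ U g g' : P, g ∈ Gsm U → g' ∈ Gsm U → g * g' ∈ Gsm U) ∧
  (∀ U g h : P, Iv g h → g ∈ Gsm U → h ∈ Gsm U)

/-- SEL (uses SJB, JDS, AMP). THE ELEMENTARY MATRICES KEEP THE CLASS OF `U = am c u = u + c 1 0 * u * c 0 1`. Proof: write `e = c 0 0`. For
`g` with `Gp e u g` let `D = g + c 1 1`: `star D * D = D * star D = e + c 1 1 = 1`, `D * U * star D = g u g* + c 1 0 * u * c 0 1`, and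
`Jn 1 U (D * U * star D)` by JDS with `p = e`, `q = c 1 1` (`c 1 0 * u * c 0 1` is Haar in `c 1 1`, the second chain is trivial). So `D` and
`star D` are in `Gsm U` (SJB (3), (6)). For `z : ℂ` the element `1 + z • c 0 1` commutes with `U` (AMP), its inverse is `1 - z • c 0 1`
(`c 0 1 * c 0 1 = 0`), so it is in `Gsm U` (SJB (4)), and so is `D (1 + z • c 0 1) D* = 1 + (z • g) * c 0 1` (SJB (5); `c 0 1 * star D = c 0 1`,
`D * c 0 1 = g * c 0 1`). For `x`, `y` in the corner `(1 + x c01) (1 + y c01) = 1 + (x + y) c01`. `Submodule.span_induction` for the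
predicate `e * x = x ∧ x * e = x ∧ ∀ z : ℂ, 1 + (z • x) * c 0 1 ∈ Gsm U`. In the same way with `star D (1 + z • c 1 0) D = 1 + c 1 0 * (z • g)`. -/
def Stmt_SEL : Prop := ∀ (Q : Type u) [CStarAlgebra Q] [TVN Q] (c : Fin 2 → Fin 2 → Q), MU 1 c →
  ∀ u : Q, IsHaarIn (c 0 0) u →
  (∀ x, c 0 0 * x = x → x * c 0 0 = x → x ∈ Submodule.span ℂ {g : Q | Gp (c 0 0) u g}) →
  ∀ x, c 0 0 * x = x → x * c 0 0 = x →
    1 + x * c 0 1 ∈ Gsm (am (n := 1) c u) ∧ 1 + c 1 0 * x ∈ Gsm (am (n := 1) c u)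

/-- SEI (uses nothing). The monoid `EE c` is a group. Proof: `Submonoid.closure_induction`; the inverses of the generators are
`1 - x * c 0 1 = 1 + (-x) * c 0 1` and `1 - c 1 0 * x` (`c 0 1 * x = c 0 1 * c 0 0 * x = 0`, so `(x * c 0 1) * (x * c 0 1) = 0`;
`x * c 1 0 = x * c 0 0 * c 1 0 = 0`). -/
def Stmt_SEI : Prop := ∀ (P : Type u) [CStarAlgebra P] (c : Fin 2 → Fin 2 → P), MU 1 c →
  ∀ y ∈ EE c, ∃ z ∈ EE c, Iv y z

/-- SWH (uses nothing). Whitehead: the diagonal matrix `(q, q⁻¹)` is in `EE c`. Proof: with `e(x) = 1 + x * c 0 1`, `f(x) = 1 + c 1 0 * x`: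
`e(q) f(-r) e(q) = q * c 0 1 - c 1 0 * r` (first `e(q) f(-r) = c 1 1 + q * c 0 1 - c 1 0 * r`), for `q = r = - c 0 0` it is `c 1 0 - c 0 1`, and
`(q * c 0 1 - c 1 0 * r) * (c 1 0 - c 0 1) = q + c 1 0 * r * c 0 1`. -/
def Stmt_SWH : Prop := ∀ (P : Type u) [CStarAlgebra P] (c : Fin 2 → Fin 2 → P), MU 1 c →
  ∀ q r : P, IvC (c 0 0) q r → q + c 1 0 * r * c 0 1 ∈ EE c

/-- SNE (uses nothing). `D = q + c 1 1` normalizes `EE c`. Proof: `D' = r + c 1 1`, `D D' = 1 = D' D`. `Submonoid.closure_induction`: `1`; products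
`D y y' D' = (D y D') (D y' D')`; generators: `D (1 + x c01) D' = 1 + (q x) c01` (`c 0 1 * D' = c 0 1`, `c 1 1 * x = 0`),
`D (1 + c10 x) D' = 1 + c10 (x r)` (`D * c 1 0 = c 1 0`). -/
def Stmt_SNE : Prop := ∀ (P : Type u) [CStarAlgebra P] (c : Fin 2 → Fin 2 → P), MU 1 c →
  ∀ q r : P, IvC (c 0 0) q r → ∀ y ∈ EE c, (q + c 1 1) * y * (r + c 1 1) ∈ EE c

/-- SPU (uses nothing). Polar decomposition of a contraction of a corner with a UNITARY part, and `|a| + e - |a|^2` is invertible.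
Proof. `polar a`: `w`; `w (1 - e) = 0`, `(1 - e) w = 0` (from `a (1 - e) = 0`, `(1 - e) a = 0`). `b = cfc Real.sqrt (star a * a)`, self-adjoint,
`b * b = star a * a` (`cfc_mul`; the spectrum is nonnegative, `spectrum_sq_nonneg`). `n2 (b x) = n2 (a x)` for all `x`
(`tr (x* b b x) = tr (x* a* a x)`), so `b (1 - e) = 0` and `b (1 - star w * w) = 0`; take adjoints. `a = w b`: `w` is the `T2` limit of
`a * cfc (hN n) (star a * a)`, so `w * b` is the limit of `a * cfc (fun t => hN n t * √t) (star a * a)`, and the square of the `n2` norm of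
`a - a * cfc (..)` is the trace of `cfc (fun t => t * (1 - hN n t * √t)^2)`, at most `1 / (n + 1)` (`n2_mul_cfc_sq`, `tr_cfc_mono`, `T2.of_sq_le`,
`T2.unique`). `p = e - star w * w`, `q = e - w * star w` are projections of the same trace (`pi_tau`, `IsProj.sub`); `equiv_of_tau`: `w'` with
`star w' * w' = p`, `w' * star w' = q`. `v = w + w'`: `star v * v = star w w + p = e` (the mixed terms vanish: `star w * w' = star w * q * w' = 0`),
`v * star v = e`; `v b = a + w' p b = a`. Inverse: the spectrum of `b` is in `[0, 1]` (`‖b‖ ≤ 1` as `‖b‖^2 = ‖b b‖ = ‖a‖^2`), so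
`b + 1 - b * b = cfc (fun t => t + 1 - t^2) b` has the inverse `r₀ = cfc (fun t => (t + 1 - t^2)⁻¹) b` (`t + 1 - t^2 ≥ 1`), which commutes with
`e` (`e` commutes with `b`; `Commute.cfc`); `r = e * r₀`. -/
def Stmt_SPU : Prop := ∀ (M : Type u) [CStarAlgebra M] [TVN M] [FactorII M] (e a : M), IsProj e → e * a = a → a * e = a →
  ‖a‖ ≤ 1 → ∃ v b r : M, star v * v = e ∧ v * star v = e ∧ e * b = b ∧ b * e = b ∧ a = v * b ∧ b * b = star a * a ∧
    IvC e (b + (e - b * b)) r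

/-- SDC (uses SPU, SWH). EVERY UNITARY IS `E * (q + c 1 1)` WITH `E` ELEMENTARY. Proof. Entries in the corner: `α = c00 V c00`, `β = c00 V c10`,
`γ = c01 V c00`, `δ = c01 V c10`; `V = α + β c01 + c10 γ + c10 δ c01` (`c00 + c11 = 1`, `c11 = c10 c01`). `α* α + γ* γ = c00 V* V c00 = c00`, `‖α‖ ≤ 1`.
SPU for `α`: `v`, `b`, `r`. `x = v γ*`: `a = α + x γ = v (b + (c00 - b b))`, its inverse in the corner is `a' = r v*`. `(1 + x c01) V = V₁`
`= a + b₁ c01 + c10 γ + c10 δ c01`, `b₁ = β + x δ`. `(1 - c10 γ a') V₁ = V₂ = a + b₁ c01 + c10 d c01`, `d = δ - γ a' b₁`. `V₂` is a product of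
invertible elements: let `W` be its inverse. The entry `c01 W c00` times `a` is `c01 (W V₂) c00 = 0`, so `c01 W c00 = 0` (multiply by `a'`), and
`d' = c01 W c10` satisfies `d' d = c01 W V₂ c10 = c00` (the term with `c01 W c00 b₁` vanishes) and `d d' = c01 V₂ W c10 = c00`.
`(1 - b₁ d' c01) V₂ = a + c10 d c01 = (d' + c10 d c01) ((d a) + c11)`, the first factor is in `EE c` by SWH. So
`V = (1 - x c01) (1 + c10 γ a') (1 + b₁ d' c01) (d' + c10 d c01) (q + c11)` with `q = d a`, inverse `a' d'`. -/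
def Stmt_SDC : Prop := ∀ (Q : Type u) [CStarAlgebra Q] [TVN Q] [FactorII Q] (c : Fin 2 → Fin 2 → Q), MU 1 c →
  ∀ V : Q, star V * V = 1 → V * star V = 1 → ∃ E q r : Q, E ∈ EE c ∧ IvC (c 0 0) q r ∧ V = E * (q + c 1 1)

/-- SHE (uses SEI, SWH, SNE, SDC). ALL HAAR UNITARIES ARE IN `EE c`. Proof: `W₀ = w + c 1 0 * star w * c 0 1` is in `EE c` (SWH) and it is Haar
(`IsHaarIn.add` with `E = c 0 0`, `1 - E = c 1 1`; `(c 1 0 * star w * c 0 1)^m = c 1 0 * (star w)^m * c 0 1` for `m ≥ 1`, its trace is the trace of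
`star (w^m)`, which is `0`). Let `V` be Haar: `V = h W₀ h*`, `h` unitary (`Sat.conj`), `h = E D`, `D = q + c 1 1`, `D' = r + c 1 1` (SDC),
`E'` the inverse of `E` in `EE c` (SEI): `star h = D' E'`. So `V = E (D W₀ D') E'`, in `EE c` by SNE. -/
def Stmt_SHE : Prop := ∀ (Q : Type u) [CStarAlgebra Q] [TVN Q] [FactorII Q], Sat Q → ∀ c : Fin 2 → Fin 2 → Q, MU 1 c →
  ∀ w : Q, IsHaarIn (c 0 0) w → ∀ V : Q, HaarU V → V ∈ EE c

/-- SUA (uses DEC, CJN). Every unitary is approximately a quotient of two Haar unitaries. Proof: DEC for `ε / 3`: `lam j`, `p j`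
(`‖lam j‖ = 1`). For each `j` a Haar unitary `w j` of the corner of `p j` (`exists_halving noMin_empty`, `tree_limit` with `S = ∅`, `co_empty`).
`W = ∑ w j` and `W' = ∑ lam j • w j` are Haar (orthogonal sums: `W'^m = ∑ lam j ^m • w j ^m`, the products of elements of different corners
vanish; `∑ p j = 1`). `V W - W' = (V - ∑ lam j • p j) W`, of norm `≤ ε / 3`. CJN: `g`, `h` unitary with `‖g u₀ g* - W‖ ≤ ε / 3`,
`‖h u₀ h* - W'‖ ≤ ε / 3`. -/
def Stmt_SUA : Prop := ∀ (M : Type u) [CStarAlgebra M] [TVN M] [FactorII M] (V u₀ : M), star V * V = 1 → V * star V = 1 →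
  HaarU u₀ → ∀ ε : ℝ, 0 < ε → ∃ g h : M, star g * g = 1 ∧ g * star g = 1 ∧ star h * h = 1 ∧ h * star h = 1 ∧
    ‖V * (g * u₀ * star g) - h * u₀ * star h‖ ≤ ε

/-- SUB (uses FAC, SAT, SUA). In the ultrapower every unitary is a quotient of two Haar unitaries. Proof: `u₀` = a Haar unitary of
`UP M 𝒰` (`iU 𝒰` of `exists_haarU`, as in Lift.lean / ONE). SAT with the unknowns `g`, `h` (`ι = Fin 2`) and the five functions
`star g * g - 1`, `g * star g - 1`, `star h * h - 1`, `h * star h - 1`, `Ṽ * (g * ũ₀ * star g) - h * ũ₀ * star h` (fixed lifts of `V`, `u₀`);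
approximate solutions: contractive lifts (`exists_lift_UP`) of SUA in the factor `UP M 𝒰` (FAC). Then `W = g u₀ g*` and `V W = h u₀ h*` are Haar
(`HaarU.conj`). -/
def Stmt_SUB : Prop := ∀ (M : Type u) [CStarAlgebra M] [TVN M] [FactorII M] (𝒰 : Ultrafilter ℕ)
  [Fact ((𝒰 : Filter ℕ) ≤ atTop)] (V : UP M 𝒰), star V * V = 1 → V * star V = 1 →
  ∃ W : UP M 𝒰, HaarU W ∧ HaarU (V * W)

/-- SFI (uses FAC, SAA, SAB, SAC, UNX, AMP, HSP, SJB, SEL, SHE, SUB). Proof: `Q = UP K 𝒰` is a factor (FAC), `Sat Q` (SAA, SAB, SAC). UNX with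
`r = 1`, `n = 1`: `c`. `exists_halving noMin_empty`, `tree_limit`: a Haar unitary `x` of the corner `c 0 0`. `U = am c x` is Haar (AMP). SAA:
`h U h* = u`, `k U k* = v`, `h`, `k` unitary. `g = star h * k` is unitary; SUB: `W` with `W`, `g W` Haar; SHE: `g W` and `star W` (Haar as well) are in
`EE c`, so `g = g W (star W) ∈ EE c`. `EE c ⊆ Gsm U` by `Submonoid.closure_induction` (SEL with HSP for the generators, SJB (5), SJB (4) for `1`).
So `Js U (g U h')`, `h' = star g` (the inverse is unique), and by SJB (2) `Js (h U h*) (h g U g* h*)`, this is `Js u v`. -/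
def Stmt_SFI : Prop := ∀ (K L : Type u) [CStarAlgebra K] [TVN K] [FactorII K] [CStarAlgebra L] [TVN L] [FactorII L]
  (𝒰 : Ultrafilter ℕ) [Fact ((𝒰 : Filter ℕ) ≤ atTop)] (φ : K →⋆ₙₐ[ℂ] L) (e : L) (m : ℕ), CornerMap φ e →
  tau e = 1 / ((m : ℝ) + 1) → OneOrbit L → ∀ u v : UP K 𝒰, HaarU u → HaarU v → Js u v

end ND

/-- The bounded sequence `x` represents an element of the ultrapower which is similar to a Haar unitary: `x = g w g⁻¹`, with `g`
invertible in the ultrapower, `h` its inverse, `w` a Haar unitary. -/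
def IsSimU {M : Type u} [CStarAlgebra M] (𝒰 : Ultrafilter ℕ) (τ : M →ₗ[ℂ] ℂ) (x : ℕ → M) : Prop :=
  (∃ C : ℝ, ∀ k, ‖x k‖ ≤ C) ∧ ∃ g h w : ℕ → M, (∃ C : ℝ, ∀ k, ‖g k‖ ≤ C ∧ ‖h k‖ ≤ C) ∧ IsHaarU 𝒰 τ w ∧
    EqU 𝒰 τ (fun k => g k * h k) (fun _ => 1) ∧ EqU 𝒰 τ (fun k => h k * g k) (fun _ => 1) ∧
    EqU 𝒰 τ x (fun k => g k * w k * h k)

/-- One step of a chain: `x` and `y` represent commuting elements of `M^𝒰` which are similar to Haar unitaries. -/
def StepS {M : Type u} [CStarAlgebra M] (𝒰 : Ultrafilter ℕ) (τ : M →ₗ[ℂ] ℂ) (x y : ℕ → M) : Prop :=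
  IsSimU 𝒰 τ x ∧ IsSimU 𝒰 τ y ∧ EqU 𝒰 τ (fun k => x k * y k) (fun k => y k * x k)

namespace ND

/-- SLF. From the ultrapower to sequences. Proof: `mkSq u`, `mkSq v` give Haar unitaries `u'`, `v'` of `UP M 𝒰` (`haarU_toUP_iff`,
`mkSq_ev`; see LFT in Interface.lean). For `x : Sq M` with `Smh (toUP x)`: `IsSimU 𝒰 tr x.ev` (lift `g`, `h`, `w` by `toUP_surjective`;
`toUP_eq_iff`, `haarU_toUP_iff`). Chain: for `x y : Sq M` with `Smh (toUP x)`, `Js (toUP x) (toUP y)` implies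
`ReflTransGen (StepS 𝒰 tr) x.ev y.ev`: for `toUP x = toUP y` one step (they commute, `commute_toUP_iff`), for a longer chain lift the last but
one element (`toUP_surjective`), induction. -/
def Stmt_SLF : Prop := ∀ (M : Type u) [CStarAlgebra M] [TVN M] (𝒰 : Ultrafilter ℕ) [Fact ((𝒰 : Filter ℕ) ≤ atTop)]
  (u v : ℕ → M), IsHaarU 𝒰 (tr : M →ₗ[ℂ] ℂ) u → IsHaarU 𝒰 (tr : M →ₗ[ℂ] ℂ) v →
  (∀ u' v' : UP M 𝒰, HaarU u' → HaarU v' → Js u' v') →
  Relation.ReflTransGen (StepS 𝒰 (tr : M →ₗ[ℂ] ℂ)) u v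

end ND

end SCO
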