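import Pool.Agent.Work.MP_52dd0f_nd.Interface2
import Pool.Agent.Work.MP_52dd0f_nd.InterfaceS

/-!
# THEOREM ND* (exact chains with similarities doubly exponentially close to 1), MP_52dd0f_an: the blocks of part 3

`theorem p_X (hA : Stmt_A.{u}) ... : Stmt_X.{u}` with `universe u`. In the docstrings `e = c 0 0`, `A` = the corner of `e`,
`el x = 1 + x * c 0 1`, `fl y = 1 + c 1 0 * y` for `x`, `y` in `A`; 2 x 2 matrices over `A` are written in the form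
`a + b * c 0 1 + c 1 0 * c' + c 1 0 * d * c 0 1`; `diag (a, d) = a + c 1 0 * d * c 0 1`. `Iv`, `IvC` are defined in InterfaceS.lean.
-/

set_option autoImplicit false
set_option linter.unusedSectionVars false

namespace SCO

open Filter Topology

universe u

namespace ND

/-- `2 ^ (- 2 ^ n)` -/
noncomputable abbrev dl (n : ℕ) : ℝ := (1 / 2 : ℝ) ^ (2 ^ n)

theorem dl_pos (n : ℕ) : 0 < dl n := by unfold dl; positivity

theorem dl_succ (n : ℕ) : dl (n + 1) = dl n ^ 2 := by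
  unfold dl; rw [← pow_mul, pow_succ]

theorem dl_le_half (n : ℕ) : dl n ≤ 1 / 2 := by
  unfold dl
  calc (1 / 2 : ℝ) ^ (2 ^ n) ≤ (1 / 2 : ℝ) ^ 1 :=
        pow_le_pow_of_le_one (by norm_num) (by norm_num) Nat.one_le_two_pow
    _ = 1 / 2 := pow_one _

theorem sqrt_dl_succ (n : ℕ) : Real.sqrt (dl (n + 1)) = dl n := by
  rw [dl_succ]; exact Real.sqrt_sq (dl_pos n).le

theorem dl_anti {m n : ℕ} (h : m ≤ n) : dl n ≤ dl m := by
  unfold dl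
  exact pow_le_pow_of_le_one (by norm_num) (by norm_num) (Nat.pow_le_pow_right (by norm_num) h)

theorem dl_mul_le (C : ℝ) : ∃ k : ℕ, ∀ n, C * dl (n + k) ≤ dl n := by
  obtain ⟨k, hk⟩ := pow_unbounded_of_one_lt C (by norm_num : (1 : ℝ) < 2)
  refine ⟨k + 1, fun n => ?_⟩
  have h1 : 2 ^ n + k ≤ 2 ^ (n + (k + 1)) := by
    have h2 : k + 1 ≤ 2 ^ (k + 1) := by
      have := (Nat.lt_two_pow_self (n := k + 1)).le; exact this
    have h3 : 1 ≤ 2 ^ n := Nat.one_le_two_pow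
    have h4 : (k + 1) ≤ 2 ^ k := by
      have := Nat.lt_two_pow_self (n := k); omega
    calc 2 ^ n + k ≤ 2 ^ n * 2 ^ k * 2 := by nlinarith
      _ = 2 ^ (n + (k + 1)) := by rw [pow_add, pow_succ]; ring
  have h2 : dl (n + (k + 1)) ≤ (1 / 2 : ℝ) ^ (2 ^ n + k) := by
    unfold dl
    exact pow_le_pow_of_le_one (by norm_num) (by norm_num) h1
  rcases le_total C 0 with hC | hC
  · exact (mul_nonpos_of_nonpos_of_nonneg hC (dl_pos _).le).trans (dl_pos _).le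
  · calc C * dl (n + (k + 1)) ≤ 2 ^ k * (1 / 2 : ℝ) ^ (2 ^ n + k) := by
          apply mul_le_mul hk.le h2 (dl_pos _).le (by positivity)
      _ = dl n := by
          unfold dl
          rw [pow_add, mul_comm, mul_assoc, ← mul_pow]; norm_num

theorem dl_pow_le (C : ℝ) (hC : 0 ≤ C) (K : ℕ) : ∃ k : ℕ, ∀ n, (1 + C * dl (n + k)) ^ K - 1 ≤ dl n := by
  obtain ⟨k, hk⟩ := dl_mul_le ((1 + C) ^ K)
  refine ⟨k, fun n => le_trans ?_ (hk n)⟩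
  set d := dl (n + k) with hd
  have hd0 : 0 ≤ d := (dl_pos _).le
  have hd1 : d ≤ 1 := (dl_le_half _).trans (by norm_num)
  have key : ∀ K : ℕ, (1 + C * d) ^ K ≤ 1 + ((1 + C) ^ K - 1) * d := by
    intro K
    induction K with
    | zero => simp
    | succ K ih =>
      have h1 : 1 ≤ (1 + C) ^ K := one_le_pow₀ (by linarith)
      have h2 : (1 + C * d) ^ (K + 1) ≤ (1 + ((1 + C) ^ K - 1) * d) * (1 + C * d) := by
        rw [pow_succ]; exact mul_le_mul_of_nonneg_right ih (by positivity)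
      refine h2.trans ?_
      have h3 : 0 ≤ ((1 + C) ^ K - 1) * C * d * (1 - d) :=
        mul_nonneg (mul_nonneg (mul_nonneg (sub_nonneg.2 h1) hC) hd0) (sub_nonneg.2 hd1)
      rw [pow_succ]
      nlinarith [h3]
  have h4 : ((1 + C) ^ K - 1) * d ≤ (1 + C) ^ K * d := by nlinarith
  linarith [key K]

section Defs

variable {P : Type u} [CStarAlgebra P]

/-- products of `K` elementary matrices with entries of norm at most `η` -/
def EN (c : Fin 2 → Fin 2 → P) (K : ℕ) (η : ℝ) (y : P) : Prop :=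
  ∃ l : List P, l.length = K ∧ (∀ t ∈ l, ∃ x : P, c 0 0 * x = x ∧ x * c 0 0 = x ∧ ‖x‖ ≤ η ∧
    (t = 1 + x * c 0 1 ∨ t = 1 + c 1 0 * x)) ∧ l.prod = y

variable [TrC P]

/-- `x = s w s⁻¹`, `w` a Haar unitary, `s` and its inverse within `ε` of `1` -/
def SmE (ε : ℝ) (x : P) : Prop := ∃ s s' w : P, Iv s s' ∧ HaarU w ∧ ‖s - 1‖ ≤ ε ∧ ‖s' - 1‖ ≤ ε ∧ x = s * w * s'

/-- chains of `n` steps between commuting elements as in `SmE ε` -/
def JsE (ε : ℝ) (n : ℕ) (x y : P) : Prop :=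
  ∃ w : ℕ → P, w 0 = x ∧ w n = y ∧ (∀ i, SmE ε (w i)) ∧ ∀ i, w i * w (i + 1) = w (i + 1) * w i

/-- `t` is invertible, close to `1`, and `U` and `t U t⁻¹` are joined -/
def TE (U : P) (ε : ℝ) (n : ℕ) (t : P) : Prop :=
  ∃ t' : P, Iv t t' ∧ ‖t - 1‖ ≤ ε ∧ ‖t' - 1‖ ≤ ε ∧ JsE ε n U (t * U * t')

end Defs

/-! ## Products of small elementary matrices -/

/-- INV. Proof: `1 + (a - e)` is invertible in `P` (Neumann series, `‖a - e‖ ≤ 1/2`), with inverse `b`, `‖b‖ ≤ 2` (`b = 1 - b (a - e)`); `e` commutes with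
`1 + (a - e)`, so with `b`; `r = b * e`. `r - e = r (e - a)`. -/
def Stmt_INV : Prop := ∀ (P : Type u) [CStarAlgebra P] (e a : P), e * e = e → star e = e → e * a = a → a * e = a →
  ‖a - e‖ ≤ 1 / 2 → ∃ r : P, IvC e a r ∧ ‖r‖ ≤ 2 ∧ ‖r - e‖ ≤ 2 * ‖a - e‖

/-- ENB. Basic properties. Proof: (1) append factors `1 + 0 * c 0 1`. (2) append the lists. (3) reverse the list and change the signs of the
entries (`(1 + x c01) (1 - x c01) = 1` as `c 0 1 * x = c 0 1 * c 0 0 * x = 0`, `(1 + c10 x) (1 - c10 x) = 1` as `x * c 1 0 = 0`). (4) with `D = q + c 1 1`,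
`D' = r + c 1 1`, `D' D = 1`: `D (1 + x c01) D' = 1 + (q x) c01`, `D (1 + c10 x) D' = 1 + c10 (x r)`. (5) induction, `‖t - 1‖ ≤ η`, `‖t‖ ≤ 1 + η`
(`‖c 0 1‖ ≤ 1`: `star (c 0 1) * c 0 1 = c 1 1` is a projection). -/
def Stmt_ENB : Prop := ∀ (P : Type u) [CStarAlgebra P] (c : Fin 2 → Fin 2 → P), MU 1 c →
  (∀ K K' η η' y, K ≤ K' → η ≤ η' → 0 ≤ η' → EN c K η y → EN c K' η' y) ∧
  (∀ K K' η y y', EN c K η y → EN c K' η y' → EN c (K + K') η (y * y')) ∧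
  (∀ K η y, EN c K η y → ∃ y', Iv y y' ∧ EN c K η y') ∧
  (∀ K η B y q r, IvC (c 0 0) q r → ‖q‖ ≤ B → ‖r‖ ≤ B → EN c K η y → EN c K (B * η) ((q + c 1 1) * y * (r + c 1 1))) ∧
  (∀ K η y, 0 ≤ η → EN c K η y → ‖y - 1‖ ≤ (1 + η) ^ K - 1)

/-- ENW (uses INV, ENB). Small Whitehead. Proof: `‖x y‖ ≤ 1/4`, INV for `e + x y`: `r`, `‖r‖ ≤ 2`. `r₂ = e - y r x` is the inverse of `e + y x`, of norm at
most `2`. `(1 - c10 (y r)) (1 + x c01) (1 + c10 y) (1 - (r x) c01) = (e + x y) + c10 r₂ c01` (the middle product is the matrix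
`e + x y, x; y, e`), entries of norm at most `2 η`. -/
def Stmt_ENW : Prop := ∀ (P : Type u) [CStarAlgebra P] (c : Fin 2 → Fin 2 → P), MU 1 c →
  ∀ (x y : P) (η : ℝ), c 0 0 * x = x → x * c 0 0 = x → c 0 0 * y = y → y * c 0 0 = y → ‖x‖ ≤ η → ‖y‖ ≤ η → η ≤ 1 / 2 →
  ∃ r r₂ : P, IvC (c 0 0) (c 0 0 + x * y) r ∧ IvC (c 0 0) (c 0 0 + y * x) r₂ ∧ ‖r‖ ≤ 2 ∧ ‖r₂‖ ≤ 2 ∧
    EN c 4 (2 * η) (c 0 0 + x * y + c 1 0 * r₂ * c 0 1)

/-- ENC (uses INV, ENB, ENW). Conjugation of a small by a bounded elementary matrix. Let `η = dl (n + k)`, `k` so large that `4 B² √η ≤ dl n` and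
`≤ 1 / 4` (`sqrt_dl_succ`, `dl_mul_le`; `B ≥ 1` without loss of generality). `el Y el x el (-Y) = el x` and `fl Y fl x fl (-Y) = fl x`. For
`fl Y el x fl (-Y)` = the matrix `e - x Y, x; - Y x Y, e + Y x`: with `r` the inverse of `e - x Y` (INV) it is
`fl (- Y x Y r) * diag (e - x Y, (e - Y x)⁻¹) * el (r x)`, and the diagonal matrix is ENW for `x' = - x / √η`, `y' = √η Y` (`x' y' = - x Y`,
`y' x' = - Y x`, norms at most `B √η`); so 6 factors with entries at most `4 B² √η`. For `el Y fl x el (-Y)` = the matrix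
`e + Y x, - Y x Y; x, e - x Y`: with `r` the inverse of `e - x Y` and `r'` of `e - Y x` it is `el (- Y x Y r) * diag ((e - Y x)⁻¹, e - x Y) * fl (r x)`, and the
diagonal matrix is ENW for `x'' = √η (r' Y)`, `y'' = x / √η`: `x'' y'' = r' Y x = r' - e`, `y'' x'' = x r' Y = r x Y = r - e`, so
`e + x'' y'' = r'`, and the inverse of `e + y'' x'' = r` is `e - x Y`. -/
def Stmt_ENC : Prop := ∀ B : ℝ, ∃ k : ℕ, ∀ (P : Type u) [CStarAlgebra P] (c : Fin 2 → Fin 2 → P), MU 1 c →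
  ∀ (n : ℕ) (x Y g g' t : P), c 0 0 * x = x → x * c 0 0 = x → c 0 0 * Y = Y → Y * c 0 0 = Y → ‖x‖ ≤ dl (n + k) → ‖Y‖ ≤ B →
  ((g = 1 + Y * c 0 1 ∧ g' = 1 - Y * c 0 1) ∨ (g = 1 + c 1 0 * Y ∧ g' = 1 - c 1 0 * Y)) →
  (t = 1 + x * c 0 1 ∨ t = 1 + c 1 0 * x) → EN c 6 (dl n) (g * t * g')

/-- ENG (uses ENB, ENC). Proof: induction on `K` (the list of the factors of `g`): conjugation by one factor `g₁` (with inverse of the same kind,
`Iv` is unique) maps a product of `L` elementary matrices of level `n + k` to a product of `6 L` elementary matrices of level `n` (ENC for each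
factor, ENB (2)). -/
def Stmt_ENG : Prop := ∀ (K L : ℕ) (B : ℝ), ∃ K' k : ℕ, ∀ (P : Type u) [CStarAlgebra P] (c : Fin 2 → Fin 2 → P), MU 1 c →
  ∀ (n : ℕ) (g g' y : P), EN c K B g → Iv g g' → EN c L (dl (n + k)) y → EN c K' (dl n) (g * y * g')

/-- SPB. As SPU in InterfaceS.lean (its proof is on main, Work/MP_52dd0f_nd/B_SPU.lean: copy it), with bounds. `b` is self-adjoint,
`‖b‖² = ‖b * b‖ = ‖a‖² ≤ 1`, and `r = e * cfc (fun t => (t + 1 - t^2)⁻¹) b` with `t + 1 - t^2 ≥ 1` on `[0, 1]`. -/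
def Stmt_SPB : Prop := ∀ (M : Type u) [CStarAlgebra M] [TVN M] [FactorII M] (e a : M), IsProj e → e * a = a → a * e = a →
  ‖a‖ ≤ 1 → ∃ v b r : M, star v * v = e ∧ v * star v = e ∧ e * b = b ∧ b * e = b ∧ a = v * b ∧ b * b = star a * a ∧
    IvC e (b + (e - b * b)) r ∧ ‖b‖ ≤ 1 ∧ ‖r‖ ≤ 1

/-- SDB (uses ENB, SPB). Bounded version of SDC in InterfaceS.lean (its proof is on main, Work/MP_52dd0f_nd/B_SDC.lean: copy it). With the notation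
there: `‖α‖, ‖β‖, ‖γ‖, ‖δ‖ ≤ 1`, `‖x‖ ≤ 1`, `‖a‖ ≤ 3`, `‖a'‖ ≤ 1`, `‖b₁‖ ≤ 2`, `‖d‖ ≤ 3`, `W = star V * (1 - x c01) * (1 + c10 γ a')` has norm at most `4`, so
`‖d'‖ ≤ 4`. `V = (1 - x c01) (1 + c10 γ a') (1 + b₁ d' c01) (d' + c10 d c01) (q + c11)`, and `d' + c10 d c01` is a product of the six matrices
`el d' * fl (-d) * el d' * el (-e) * fl e * el (-e)` (Whitehead). So at most `9` factors with entries at most `8`; `q = d a`, `r = a' d'`. -/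
def Stmt_SDB : Prop := ∀ (Q : Type u) [CStarAlgebra Q] [TVN Q] [FactorII Q] (c : Fin 2 → Fin 2 → Q), MU 1 c →
  ∀ V : Q, star V * V = 1 → V * star V = 1 → ∃ E q r : Q, EN c 12 20 E ∧ IvC (c 0 0) q r ∧ ‖q‖ ≤ 20 ∧ ‖r‖ ≤ 20 ∧
    V = E * (q + c 1 1)

/-- ENV (uses ENB, ENG, SDB). Conjugation by unitaries. Proof: `V = E D`, `D = q + c 1 1`, `star V = D' E'`; `V y V* = E (D y D') E'`: ENB (4) with
`20 * dl (n + k) ≤ dl (n + k')`, then ENG for `K = 12`, `B = 20`. -/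
def Stmt_ENV : Prop := ∀ L : ℕ, ∃ K' k : ℕ, ∀ (Q : Type u) [CStarAlgebra Q] [TVN Q] [FactorII Q] (c : Fin 2 → Fin 2 → Q),
  MU 1 c → ∀ (n : ℕ) (V y : Q), star V * V = 1 → V * star V = 1 → EN c L (dl (n + k)) y → EN c K' (dl n) (V * y * star V)

/-- SDS (uses INV, ENB, ENW). Small version of SDC. Proof: `δ = dl (n + k)`; `a = e v e`, `‖a - e‖ ≤ δ`, `a'` its inverse (INV); `β = e v c10`,
`γ = c01 v e` have norm at most `δ` (`v = 1 + (v - 1)`); `d = c01 v c10 - γ a' β`, `‖d - e‖ ≤ 2 δ`, `d'` its inverse, `‖d' - e‖ ≤ 4 δ`;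
`v = fl (γ a') * diag (a, d) * el (a' β)`, `diag (a, d) = diag (d', d) * (q + c11)`, `q = d a`, with inverse `r = a' d'`, `‖q - e‖, ‖r - e‖ ≤ 10 δ`;
`(q + c11) * el z = el (q z) * (q + c11)`. `diag (d', d)` is ENW for `x = √δ • e`, `y = (d' - e) / √δ` (`e + x y = e + y x = d'`), entries at most
`8 √δ`. So `E = fl (γ a') * diag (d', d) * el (q a' β)`, `6` factors. -/
def Stmt_SDS : Prop := ∃ k : ℕ, ∀ (Q : Type u) [CStarAlgebra Q] (c : Fin 2 → Fin 2 → Q), MU 1 c →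
  ∀ (n : ℕ) (v : Q), ‖v - 1‖ ≤ dl (n + k) → ∃ E q r : Q, EN c 6 (dl n) E ∧ IvC (c 0 0) q r ∧ ‖q - c 0 0‖ ≤ dl n ∧
    ‖r - c 0 0‖ ≤ dl n ∧ v = E * (q + c 1 1)

/-- ENM (uses ENB, ENW, ENG). Proof: let `D = q + c11`, `D' = q' + c11`, `D₂ = p + c11`, `D₂' = p' + c11`, so the element is `D F D₂ D' D₂' F'`
`= (D F D') (D D₂ D' D₂') F'`. (i) `D F D'`: for a factor `el X` of `F`: `D (el X) D' = el (q X) = el X * el ((q - e) X)`, for `fl X`: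
`fl (X q') = fl X * fl (X (q' - e))`, the second factors are small (`B * dl`), so `D F D' = F * y₁`, `y₁` a product of conjugates of small ones by
partial products of `F` (induction on the list, ENG for the inverses of the partial products), so `F y₁ F'` is small by ENG. (ii)
`D D₂ D' D₂' = (q p q' p') + c11 = diag (q, q') * (D₂ diag (q', q) D₂')`, and `diag (q, q')` is ENW for `x = √δ • e`, `y = (q - e) / √δ`
(`e + x y = e + y x = q`), the same for `diag (q', q)`, ENB (4) for `D₂`; conjugate by `F`: ENG. The element is `(F y₁ F') * (F (D D₂ D' D₂') F')`. -/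
def Stmt_ENM : Prop := ∀ (K : ℕ) (B : ℝ), ∃ K' k : ℕ, ∀ (P : Type u) [CStarAlgebra P] (c : Fin 2 → Fin 2 → P), MU 1 c →
  ∀ (n : ℕ) (F F' p p' q q' : P), EN c K B F → Iv F F' → IvC (c 0 0) p p' → ‖p‖ ≤ B → ‖p'‖ ≤ B → IvC (c 0 0) q q' →
  ‖q - c 0 0‖ ≤ dl (n + k) → ‖q' - c 0 0‖ ≤ dl (n + k) →
  EN c K' (dl n) ((q + c 1 1) * (F * (p + c 1 1)) * (q' + c 1 1) * ((p' + c 1 1) * F'))

/-! ## Unitaries near 1 are exact commutators, up to scalars, in the ultrapower -/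

/-- MCS (uses RRD, NMX). The multiplicative cyclic shift, see CSH in Interface2.lean. Proof: RRD: `σ`, partial sums `S k`, `|S k| ≤ B`,
`S (n-1) = 0`; `k = ∑ exp (i S k) • r (σ k)`, `s = ∑ w (k + 1) * star (w k)` (cyclic), with `s * r (σ k) * star s = r (σ (k + 1))`, so
`k s k* s* = ∑ exp (i (S k - S (k - 1))) • r (σ k) = ∑ exp (i x j) • r j`. `‖k - 1‖ ≤ B` by NMX (`|exp (i S) - 1| ≤ |S|`). (`n = 0` is impossible:
`1 = 0`.) -/
def Stmt_MCS : Prop := ∀ (M : Type u) [CStarAlgebra M] [TVN M] [FactorII M] (n : ℕ) (r : Fin n → M) (x : Fin n → ℝ) (B : ℝ),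
  (∀ i, IsProj (r i)) → (∀ i j, i ≠ j → r i * r j = 0) → ∑ i, r i = 1 → (∀ i j, tau (r i) = tau (r j)) →
  0 ≤ B → (∀ i, |x i| ≤ B) → ∑ i, x i = 0 →
  ∃ k s : M, star k * k = 1 ∧ k * star k = 1 ∧ star s * s = 1 ∧ s * star s = 1 ∧ ‖k - 1‖ ≤ B ∧
    k * s * star k * star s = ∑ i, Complex.exp ((x i : ℂ) * Complex.I) • r i

/-- RKA (uses DEC, PAR, MCS). Proof: DEC for `v` and `ε' ≤ δ`: `lam j`, `p j`. For `p j ≠ 0`: `|lam j - 1| ≤ ‖(v - lam j) p j‖ + ‖(v - 1) p j‖ ≤ δ + ε'`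
(`‖p j‖ = 1`; `(v - lam j) p j = (v - ∑ lam i p i) p j`), so `θ j = arg (lam j)` satisfies `|θ j| ≤ 2 |lam j - 1| ≤ 4 δ` (`|exp (iθ) - 1| = 2 |sin (θ/2)| ≥
2|θ|/π`); for `p j = 0` put `θ j = 0`. PAR with `e = 1`: `r`, `f`, `n` large; `x' i = θ j` for `f i = some j`, `0` for `none`; `θ = (∑ x' i) / n`,
`x i = x' i - θ`, `|x i| ≤ 8 δ`. MCS with `B = 8 δ`: `k s k* s* = exp (- i θ) ∑ exp (i x' i) • r i`. `∑ lam j p j - ∑ exp (i x' i) r i` is supported on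
`R = ∑_{f i = none} r i` and of norm at most `2`, so its 2-norm is at most `2 √(J / n)`. -/
def Stmt_RKA : Prop := ∀ (M : Type u) [CStarAlgebra M] [TVN M] [FactorII M] (v : M) (δ ε : ℝ), star v * v = 1 → v * star v = 1 →
  0 < δ → δ ≤ 1 / 4 → ‖v - 1‖ ≤ δ → 0 < ε → ∃ (θ : ℝ) (k s : M), |θ| ≤ 4 * δ ∧ star k * k = 1 ∧ k * star k = 1 ∧
    star s * s = 1 ∧ s * star s = 1 ∧ ‖k - 1‖ ≤ 8 * δ ∧
    n2 (v - Complex.exp ((θ : ℂ) * Complex.I) • (k * s * star k * star s)) ≤ ε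

/-- RKX (uses FAC, SAT, RKA). Proof: RKA in the factor `UP M 𝒰` for `ε = 1 / (i + 1)`: `θ i` in the compact interval `[-4δ, 4δ]`, a subsequence
converges to `θ`; `|exp (i θ i) - exp (i θ)| ≤ |θ i - θ|`, so for every `ε` there are `k`, `s` with the limit `θ`. SAT with unknowns `k̂`, `s`
(`k = 1 + 8 δ k̂`) and the functions `star k * k - 1`, `k * star k - 1`, `star s * s - 1`, `s * star s - 1`, `ṽ - exp (i θ) • (k s k* s*)`; approximate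
solutions: contractive lifts of `(k - 1) / (8 δ)` and `s`. -/
def Stmt_RKX : Prop := ∀ (M : Type u) [CStarAlgebra M] [TVN M] [FactorII M] (𝒰 : Ultrafilter ℕ)
  [Fact ((𝒰 : Filter ℕ) ≤ atTop)] (v : UP M 𝒰) (δ : ℝ), star v * v = 1 → v * star v = 1 →
  0 < δ → δ ≤ 1 / 4 → ‖v - 1‖ ≤ δ → ∃ (θ : ℝ) (k s : UP M 𝒰), |θ| ≤ 4 * δ ∧ star k * k = 1 ∧ k * star k = 1 ∧
    star s * s = 1 ∧ s * star s = 1 ∧ ‖k - 1‖ ≤ 8 * δ ∧
    v = Complex.exp ((θ : ℂ) * Complex.I) • (k * s * star k * star s)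

/-- SEP (uses ENB, ENV, SDB, SDS, ENM). Unitaries near `1` are, up to a scalar, products of a bounded number of small elementary matrices.
Proof: the hypothesis for `δ = dl (n + k₁)` (at most `1/4` if `k₁ ≥ 1`): `v = exp (i θ) k s k* s*`. SDS: `k = E (q + c11)`, SDB: `s = F (p + c11)`
(`K = 12`, `B = 20`); `star k = (q' + c11) E'`, `star s = (p' + c11) F'` (inverses are unique). `k s k* s* = E * [(q + c11) s (q' + c11) s*] * (s E' s*)`: the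
middle is ENM, the last ENV (ENB (3) for `E'`), ENB (2), (1). -/
def Stmt_SEP : Prop := ∀ (Q : Type u) [CStarAlgebra Q] [TVN Q] [FactorII Q] (c : Fin 2 → Fin 2 → Q), MU 1 c →
  (∀ (v : Q) (δ : ℝ), star v * v = 1 → v * star v = 1 → 0 < δ → δ ≤ 1 / 4 → ‖v - 1‖ ≤ δ →
    ∃ (θ : ℝ) (k s : Q), |θ| ≤ 4 * δ ∧ star k * k = 1 ∧ k * star k = 1 ∧ star s * s = 1 ∧ s * star s = 1 ∧ ‖k - 1‖ ≤ 8 * δ ∧
      v = Complex.exp ((θ : ℂ) * Complex.I) • (k * s * star k * star s)) →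
  ∃ K k₁ : ℕ, ∀ (n : ℕ) (v : Q), star v * v = 1 → v * star v = 1 → ‖v - 1‖ ≤ dl (n + k₁) →
    ∃ (θ : ℝ) (y : Q), |θ| ≤ dl n ∧ EN c K (dl n) y ∧ v = Complex.exp ((θ : ℂ) * Complex.I) • y

/-! ## Chains with small similarities -/

/-- TEB. Proof: (1) `U → t U t⁻¹` in `n` steps, and `t x t⁻¹` for the elements `x` of the chain from `U` to `t' U t'⁻¹`: `t s w s' t⁻¹`, with
`‖t s - 1‖ ≤ ε + ε' + ε ε'`. (2) constant continuation. (3) the scalar commutes with `U`, constant chain; `|exp (i θ) - 1| ≤ |θ|`. (4) `s = 1`. (5)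
`V s w s' V* = (V s V*) (V w V*) (V s' V*)`, `‖V s V* - 1‖ ≤ ‖s - 1‖`. -/
def Stmt_TEB : Prop := ∀ (P : Type u) [CStarAlgebra P] [TVN P] (U : P), HaarU U →
  (∀ ε ε' n n' t t', 0 ≤ ε → 0 ≤ ε' → TE U ε n t → TE U ε' n' t' → TE U (ε + ε' + ε * ε') (n + n') (t * t')) ∧
  (∀ ε ε' n n' x y, ε ≤ ε' → n ≤ n' → JsE ε n x y → JsE (P := P) ε' n' x y) ∧
  (∀ (ε θ : ℝ) n, |θ| ≤ ε → TE U ε n (Complex.exp ((θ : ℂ) * Complex.I) • (1 : P))) ∧
  (∀ ε n x y, 0 ≤ ε → JnN 1 n x y → JsE (P := P) ε n x y) ∧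
  (∀ ε n x y V, star V * V = 1 → V * star V = 1 → JsE ε n x y → JsE (P := P) ε n (V * x * star V) (V * y * star V))

/-- TEL (uses GJN, GJD, AMP, TEB). Elementary matrices with small entries. Proof: `x = η x̂`, `x̂ = ∑ z j • g j` (`Sm`; if `η = 0` then `x = 0`). For
each `j` let `D = g j + c11` (unitary, `GpN 1 U m D` as in OFG, Interface2.lean), `ζ = η z j`, `t = 1 + (ζ • g j) * c 0 1 = D (1 + ζ c01) D*`, where
`1 + ζ c01` commutes with `U`. Chain from `U` to `t U t⁻¹ = D (1 + ζ c01) (D* U D) (1 - ζ c01) D*`: first `U → D U D*` (`m` steps, unitary), then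
`D U D* = D (1 + ζ c01) U (1 - ζ c01) D*`, and the chain `U → D* U D` (`m` steps, GJN (6)) conjugated by `D (1 + ζ c01)`; its elements are
`D (1 + ζ c01) w (1 - ζ c01) D* = t (D w D*) t⁻¹`. So `TE U (m η) (2 m) t` (`‖t - 1‖ ≤ |ζ|`). The product over `j` is `1 + x c01`; TEB (1) `m` times:
the errors give at most `(1 + m η)^m - 1 ≤ (1 + m)^m η` (`η ≤ 1`). The same for `1 + c 1 0 * x` with `star D (1 + ζ c10) D = 1 + c10 (ζ g)`. -/
def Stmt_TEL : Prop := ∀ (Q : Type u) [CStarAlgebra Q] [TVN Q] (c : Fin 2 → Fin 2 → Q), MU 1 c → ∀ u : Q, IsHaarIn (c 0 0) u →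
  ∀ m : ℕ, (∀ x, c 0 0 * x = x → x * c 0 0 = x → ‖x‖ ≤ 1 → Sm (c 0 0) u m x) →
  ∃ m' : ℕ, ∀ (η : ℝ) (x : Q), 0 ≤ η → η ≤ 1 → c 0 0 * x = x → x * c 0 0 = x → ‖x‖ ≤ η →
    TE (am (n := 1) c u) (m' * η) m' (1 + x * c 0 1) ∧ TE (am (n := 1) c u) (m' * η) m' (1 + c 1 0 * x)

/-- TEN (uses TEB). Proof: each of the `K` factors is `TE U (m' dl (n + k)) m'`; TEB (1): the errors give `(1 + m' dl (n + k))^K - 1 ≤ dl n`
(`dl_pow_le`), the length is `K m'`; for `K = 0`: TEB (3) with `θ = 0`. Monotone in `ε` by TEB (2). -/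
def Stmt_TEN : Prop := ∀ (Q : Type u) [CStarAlgebra Q] [TVN Q] (c : Fin 2 → Fin 2 → Q) (U : Q), HaarU U → ∀ m' : ℕ,
  (∀ (η : ℝ) (x : Q), 0 ≤ η → η ≤ 1 → c 0 0 * x = x → x * c 0 0 = x → ‖x‖ ≤ η →
    TE U (m' * η) m' (1 + x * c 0 1) ∧ TE U (m' * η) m' (1 + c 1 0 * x)) →
  ∀ K : ℕ, ∃ k N : ℕ, ∀ (n : ℕ) (y : Q), EN c K (dl (n + k)) y → TE U (dl n) N y

/-- FIE (uses GJN, TEB). Proof: `h U h* = u`, `k U k* = v`. Let `n' = n + k₂` with `k₂` large; the first hypothesis for `n'` and `star h * k`: `γ`,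
`GpN 1 U (C' (n' + 1)) γ`, `‖γ - h* k‖ ≤ dl n'`. `r = star γ * star h * k` is unitary, `‖r - 1‖ ≤ dl n'`. The second hypothesis: `r = exp (i θ) y` with
`y` a product of `K` elementary matrices of level `n + k₃ + ..`, so by the third and TEB (1), (2), (3) `TE U (dl n) N r`. `w = h γ U γ* h*`: `JnN 1 (C' (n' + 1)) u w`
(GJN (3) for the chain of `γ`), `v = (h γ) (r U r*) (h γ)*`, so `JsE (dl n) N w v` by TEB (5) (`star r` is the inverse of `r`), `‖w - v‖ ≤ 2 ‖r - 1‖ ≤ dl n`.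
`C` = the maximum of `C' (k₂ + 1)`, `N`, `1` (GJN (7), TEB (2)). -/
def Stmt_FIE : Prop := ∀ (Q : Type u) [CStarAlgebra Q] [TVN Q] (c : Fin 2 → Fin 2 → Q) (U : Q), HaarU U → ∀ C' K k₁ : ℕ,
  (∀ (n : ℕ) (g : Q), star g * g = 1 → g * star g = 1 →
    ∃ γ : Q, GpN 1 U (C' * (n + 1)) γ ∧ ‖γ - g‖ ≤ dl n) →
  (∀ (n : ℕ) (v : Q), star v * v = 1 → v * star v = 1 → ‖v - 1‖ ≤ dl (n + k₁) →
    ∃ (θ : ℝ) (y : Q), |θ| ≤ dl n ∧ EN c K (dl n) y ∧ v = Complex.exp ((θ : ℂ) * Complex.I) • y) →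
  (∃ k N : ℕ, ∀ (n : ℕ) (y : Q), EN c K (dl (n + k)) y → TE U (dl n) N y) →
  (∀ v : Q, HaarU v → ∃ h : Q, star h * h = 1 ∧ h * star h = 1 ∧ h * U * star h = v) →
  ∃ C : ℕ, 1 ≤ C ∧ ∀ (n : ℕ) (u v : Q), HaarU u → HaarU v →
    ∃ w : Q, JnN 1 (C * (n + 1)) u w ∧ ‖w - v‖ ≤ dl n ∧ JsE (dl n) C w v

/-- QAE (uses FAC, SAA, SAB, SAC, UNX, AMP, CNC, GJN, CLS, UNI, GSP, OFG, DMG, GYS, TRX, STR, NST, NIT, DNR, RKX, SEP, TEL, TEN, FIE). Assembly: as QAL in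
Interface2.lean (its proof is on main, Work/MP_52dd0f_nd/B_QAL.lean: copy it up to DNR), then SEP with RKX, TEL, TEN (for the `K` of SEP), FIE (with
SAA). -/
def Stmt_QAE : Prop := ∀ (K : Type u) [CStarAlgebra K] [TVN K] [FactorII K]
  (𝒰 : Ultrafilter ℕ) [Fact ((𝒰 : Filter ℕ) ≤ atTop)],
  (∀ c : Fin 2 → Fin 2 → UP K 𝒰, MU 1 c → ∀ u : UP K 𝒰, IsHaarIn (c 0 0) u →
    ∀ x, c 0 0 * x = x → x * c 0 0 = x → x ∈ Submodule.span ℂ {g : UP K 𝒰 | Gp (c 0 0) u g}) →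
  ∃ C : ℕ, 1 ≤ C ∧ ∀ (n : ℕ) (u v : UP K 𝒰), HaarU u → HaarU v →
    ∃ w : UP K 𝒰, JnN 1 (C * (n + 1)) u w ∧ ‖w - v‖ ≤ dl n ∧ JsE (dl n) C w v

end ND

/-- The bounded sequence `x` represents an element `s w s⁻¹` of the ultrapower, `w` a Haar unitary, `s` and its inverse `s'` within `ε` of `1` in
operator norm. -/
def IsSimE {M : Type u} [CStarAlgebra M] (𝒰 : Ultrafilter ℕ) (τ : M →ₗ[ℂ] ℂ) (ε : ℝ) (x : ℕ → M) : Prop :=
  (∃ C : ℝ, ∀ k, ‖x k‖ ≤ C) ∧ ∃ s s' w : ℕ → M, (∀ k, ‖s k - 1‖ ≤ ε ∧ ‖s' k - 1‖ ≤ ε) ∧ IsHaarU 𝒰 τ w ∧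
    EqU 𝒰 τ (fun k => s k * s' k) (fun _ => 1) ∧ EqU 𝒰 τ (fun k => s' k * s k) (fun _ => 1) ∧
    EqU 𝒰 τ x (fun k => s k * w k * s' k)

/-- One step of a chain: `x` and `y` represent commuting elements of the ultrapower as in `IsSimE`. -/
def StepE {M : Type u} [CStarAlgebra M] (𝒰 : Ultrafilter ℕ) (τ : M →ₗ[ℂ] ℂ) (ε : ℝ) (x y : ℕ → M) : Prop :=
  IsSimE 𝒰 τ ε x ∧ IsSimE 𝒰 τ ε y ∧ EqU 𝒰 τ (fun k => x k * y k) (fun k => y k * x k)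

namespace ND

/-- LFE. From the ultrapower to sequences. Proof: `mkSq u`, `mkSq v` give Haar unitaries `u'`, `v'` of `UP M 𝒰` (`haarU_toUP_iff`); `w` and the two chains
`z i` (`i ≤ L₁`), `z' i` (`i ≤ L₂`). `exists_lift_UP (w - v')`: `D`, `‖D‖ ≤ ε`. `x 0 = u`, `x L₁ = v + D.ev`, `x (L₁ + L₂) = v` (`1 ≤ L₁`, `1 ≤ L₂`), the other
`x i` are the terms of lifts of `z i` resp. `z' (i - L₁)`. Each `x i` represents `z i` resp. `z' (i - L₁)`. `Step`: `haarU_toUP_iff`, `commute_toUP_iff`.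
`IsSimE ε`: for `x = s w s'` in the ultrapower lift `s - 1`, `s' - 1` with norms at most `ε` (`exists_lift_UP`) and `w` (`toUP_surjective`), `toUP_eq_iff`;
a Haar unitary is `SmE 0`. (`ε ≥ 0` follows from the hypotheses.) -/
def Stmt_LFE : Prop := ∀ (M : Type u) [CStarAlgebra M] [TVN M] (𝒰 : Ultrafilter ℕ) [Fact ((𝒰 : Filter ℕ) ≤ atTop)]
  (u v : ℕ → M) (ε : ℝ) (L₁ L₂ : ℕ), 1 ≤ L₁ → 1 ≤ L₂ → IsHaarU 𝒰 (tr : M →ₗ[ℂ] ℂ) u → IsHaarU 𝒰 (tr : M →ₗ[ℂ] ℂ) v →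
  (∀ u' v' : UP M 𝒰, HaarU u' → HaarU v' → ∃ w : UP M 𝒰, JnN 1 L₁ u' w ∧ ‖w - v'‖ ≤ ε ∧ JsE ε L₂ w v') →
  ∃ x : ℕ → ℕ → M, x 0 = u ∧ x (L₁ + L₂) = v ∧ (∀ i < L₁, Step 𝒰 (tr : M →ₗ[ℂ] ℂ) (x i) (x (i + 1))) ∧
    (∀ k, ‖x L₁ k - v k‖ ≤ ε) ∧ ∀ i < L₁ + L₂, StepE 𝒰 (tr : M →ₗ[ℂ] ℂ) ε (x i) (x (i + 1))

end ND

end SCO
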