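import Pool.Agent.Work.MP_52dd0f_nd.Interface2

/-!
# THEOREM ND+, MP_52dd0f_an: composition
-/

set_option autoImplicit false
set_option linter.unusedSectionVars false

namespace SCO

open Filter Topology

universe u

namespace ND

theorem main_rate_of (hH : Stmt_HSP.{u}) (hQ : Stmt_QAL.{u}) (hL : Stmt_LFR.{u}) (hC : Stmt_COR.{u}) {N M M' : Type u}
    [CStarAlgebra N] [CStarAlgebra M] [CStarAlgebra M'] {τ : N →ₗ[ℂ] ℂ} {σ : M →ₗ[ℂ] ℂ} {σ' : M' →ₗ[ℂ] ℂ}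
    {𝒰 : Ultrafilter ℕ} (h𝒰 : ∀ k : ℕ, 𝒰 ≠ pure k) (hN : IsII₁Factor N τ) (hM : IsII₁Factor M σ)
    (hM' : IsII₁Factor M' σ') {t s : ℝ} (h : IsAmplification N τ M t) (h' : IsAmplification N τ M' s)
    (hone : numOrbits 𝒰 σ' = 1) : ∃ C : ℕ, ∀ (u v : ℕ → M), IsHaarU 𝒰 σ u → IsHaarU 𝒰 σ v → ∀ n : ℕ,
      ∃ w : ℕ → ℕ → M, w 0 = u ∧ (∀ k, ‖w (C * (n + 1)) k - v k‖ ≤ (1 / 2 : ℝ) ^ (2 ^ n)) ∧
        ∀ i < C * (n + 1), Step 𝒰 σ (w i) (w (i + 1)) := by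
  let _ := hN.toTVN
  have _ := hN.toFactorII
  let _ := hM.toTVN
  have _ := hM.toFactorII
  let _ := hM'.toTVN
  have _ := hM'.toFactorII
  have hU := le_atTop_of_ne_pure h𝒰
  have : Fact ((𝒰 : Filter ℕ) ≤ atTop) := ⟨hU⟩
  have hO : OneOrbit M' := (numOrbits_one_iff hU).1 hone
  obtain ⟨L, i1, i2, i3, φ, e, m, hφ, ht, hL1⟩ := hC N M M' t s h h' hO
  obtain ⟨C, hC1, hCC⟩ := hQ M 𝒰 (hH M L 𝒰 φ e m hφ ht hL1)
  refine ⟨C, fun u v hu hv n => ?_⟩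
  exact hL M 𝒰 u v _ (C * (n + 1)) (Nat.mul_pos hC1 (Nat.succ_pos n)) hu hv fun u' v' hu' hv' => hCC n u' v' hu' hv'

end ND

end SCO
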