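import Pool.Agent.Work.MP_52dd0f_nd.InterfaceS

/-!
# THEOREM SIM, MP_52dd0f_an: composition
-/

set_option autoImplicit false
set_option linter.unusedSectionVars false

namespace SCO

open Filter Topology

universe u

namespace ND

theorem sim_of (hF : Stmt_SFI.{u}) (hL : Stmt_SLF.{u}) (hC : Stmt_COR.{u}) {N M M' : Type u} [CStarAlgebra N]
    [CStarAlgebra M] [CStarAlgebra M'] {τ : N →ₗ[ℂ] ℂ} {σ : M →ₗ[ℂ] ℂ} {σ' : M' →ₗ[ℂ] ℂ} {𝒰 : Ultrafilter ℕ}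
    (h𝒰 : ∀ k : ℕ, 𝒰 ≠ pure k) (hN : IsII₁Factor N τ) (hM : IsII₁Factor M σ) (hM' : IsII₁Factor M' σ')
    {t s : ℝ} (h : IsAmplification N τ M t) (h' : IsAmplification N τ M' s) (hone : numOrbits 𝒰 σ' = 1)
    {u v : ℕ → M} (hu : IsHaarU 𝒰 σ u) (hv : IsHaarU 𝒰 σ v) :
    Relation.ReflTransGen (StepS 𝒰 σ) u v := by
  let _ := hN.toTVN
  have _ := hN.toFactorII
  let _ := hM.toTVN
  have _ := hM.toFactorII
  let _ := hM'.toTVN
  have _ := hM'.toFactorII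
  have hU := le_atTop_of_ne_pure h𝒰
  have : Fact ((𝒰 : Filter ℕ) ≤ atTop) := ⟨hU⟩
  have hO : OneOrbit M' := (numOrbits_one_iff hU).1 hone
  obtain ⟨L, i1, i2, i3, φ, e, m, hφ, ht, hL1⟩ := hC N M M' t s h h' hO
  exact hL M 𝒰 u v hu hv fun u' v' hu' hv' => hF M L 𝒰 φ e m hφ ht hL1 u' v' hu' hv'

end ND

end SCO
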